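import Pool.Agent.Lib.MP_4e5fcd_ag.LFM.S1
import Pool.Agent.Lib.MP_4e5fcd_ag.LF.B1

/-!
# LFM-B1: integration over the values

As LF/B1. For `θ : Γ → ℂ` with `θ g = ∏_{i ∈ K \ C} (kap i ^ W g i)⁻¹` let
`Q = {t | t g ≠ 0 (g ∈ S), t g = 0 (g ∉ S), t g ^ E = θ g (g ∈ R₀)}` and
`TX = {z : jets ⊕ Γ → ℂ | z ∘ inr ∈ Q, z ∘ inl ∈ CX C (E m) n S (z ∘ inr)}`. For `γ ∈ CR C (E m) n S R₀`,
`g ∈ S`: `pair (W g) (vv + 1) = E m ≤ n`, so `hG.coeff`: `(along (f g) γ).coeff m / V g = ∏ lx ^ w g =: τ g`, a polynomial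
in `γ` (`LF.exists_alongPoly`). `τ_pow`: `τ g ^ E = ∏_{i ∉ K} lc i ^ (W g i) * ∏_{i ∈ K} (lead1 ^ d) ^ (W g i)`
(`E w = W` resp. `E w = d W`), and `lead1 ^ d = lc i / kap i` for `i ∈ K \ C` with `w g i ≠ 0`
(`ord_block`: `vv i < n` because `W g i ≠ 0`); for `i ∈ C`: `w g i = 0`. So `τ g ^ E = θ g * ∏ lc i ^ W g i`, and the
condition `∏ lc ^ W g = 1` (`g ∈ R₀ ⊆ S`) is `τ g ^ E = θ g`. `τ g ≠ 0` for `g ∈ S` (`lead1 ≠ 0` if `vv i < n`,
`LF.lc_ne_zero`). Therefore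
`TX = {z | z ∘ inl ∈ CR C (E m) n S R₀ ∧ ∀ g, z (inr g) = τ g}` (`τ g = 0` for `g ∉ S`), `TX ≅ CR` and `TX` is
constructible. `LF.fubini_C` for the sets `TX`; the fibre over `t` is `CX C (E m) n S t` if `t ∈ Q`, empty
otherwise.
-/

open MvPolynomial

namespace MotMono
namespace LFM

variable {I Γ : Type} [Fintype I] [Fintype Γ] {N s : ℕ} (L : MLoc I Γ N s)

private theorem b1x_constr_phi (n₁ n : ℕ) (S R₀ : Finset Γ) :
    Constr {y : Fin s × Fin (n + 1) → ℂ | LF.Sx L.W S (n₁ + 1) (LF.vv L.a y) ∧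
      (∀ g, g ∉ S → n₁ + 1 ≤ pair (L.W g) fun i => LF.vv L.a y i + 1) ∧
      LF.lc L.a y ∈ LF.Th L.W R₀ fun _ => 1} := by
  refine LF.constr_of_vv L.a _ fun v => ?_
  by_cases hv : LF.Sx L.W S (n₁ + 1) v ∧ ∀ g, g ∉ S → n₁ + 1 ≤ pair (L.W g) fun i => v i + 1
  · have h1 : {y : Fin s × Fin (n + 1) → ℂ | y ∈ {y : Fin s × Fin (n + 1) → ℂ |
        LF.Sx L.W S (n₁ + 1) (LF.vv L.a y) ∧
        (∀ g, g ∉ S → n₁ + 1 ≤ pair (L.W g) fun i => LF.vv L.a y i + 1) ∧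
        LF.lc L.a y ∈ LF.Th L.W R₀ fun _ => 1} ∧ LF.vv L.a y = v} =
        {y | LF.vv L.a y = v ∧ LF.lc L.a y ∈ LF.Th L.W R₀ fun _ => 1} := by
      ext y
      simp only [Set.mem_ofPred_eq]
      constructor
      · rintro ⟨⟨-, -, h3⟩, h4⟩
        exact ⟨h4, h3⟩
      · rintro ⟨h4, h3⟩
        exact ⟨⟨by rw [h4]; exact hv.1, by rw [h4]; exact hv.2, h3⟩, h4⟩
    rw [h1]
    exact LF.constr_vv_lc L.a v (LF.constr_Th L.W R₀ _)
  · have h1 : {y : Fin s × Fin (n + 1) → ℂ | y ∈ {y : Fin s × Fin (n + 1) → ℂ |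
        LF.Sx L.W S (n₁ + 1) (LF.vv L.a y) ∧
        (∀ g, g ∉ S → n₁ + 1 ≤ pair (L.W g) fun i => LF.vv L.a y i + 1) ∧
        LF.lc L.a y ∈ LF.Th L.W R₀ fun _ => 1} ∧ LF.vv L.a y = v} = ∅ := by
      ext y
      simp only [Set.mem_ofPred_eq, Set.mem_empty_iff_false, iff_false]
      rintro ⟨⟨h1, h2, -⟩, h4⟩
      rw [h4] at h1 h2
      exact hv ⟨h1, h2⟩
    rw [h1]
    exact constr_empty

theorem constr_CR (C : Finset I) (n₁ n : ℕ) (S R₀ : Finset Γ) :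
    Constr (L.CR C n₁ n S R₀) := by
  have h1 : Constr {z : (Fin N × Fin (n + 1)) ⊕ Fin s × Fin (n + 1) → ℂ |
      ∀ l, z (Sum.inl (l, 0)) = L.pC C l} := by
    have h2 : {z : (Fin N × Fin (n + 1)) ⊕ Fin s × Fin (n + 1) → ℂ |
        ∀ l, z (Sum.inl (l, 0)) = L.pC C l} =
        ⋂ l, {z | eval z (X (Sum.inl (l, 0))) = eval z (MvPolynomial.C (L.pC C l))} := by
      ext z
      simp
    rw [h2]
    exact constr_iInter fun l => constr_eq _ _
  have h2 := h1.inter ((b1x_constr_phi L n₁ n S R₀).comp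
    (Sum.inr : Fin s × Fin (n + 1) → (Fin N × Fin (n + 1)) ⊕ Fin s × Fin (n + 1)))
  have h3 := constr_yj L.β L.d _ h2
  have h4 : L.CR C n₁ n S R₀ = {γ : Fin N × Fin (n + 1) → ℂ | Sum.elim γ (yj L.β L.d γ) ∈
      {z : (Fin N × Fin (n + 1)) ⊕ Fin s × Fin (n + 1) → ℂ |
        ∀ l, z (Sum.inl (l, 0)) = L.pC C l} ∩
      {z : (Fin N × Fin (n + 1)) ⊕ Fin s × Fin (n + 1) → ℂ | (fun q => z (Sum.inr q)) ∈
        {y : Fin s × Fin (n + 1) → ℂ | LF.Sx L.W S (n₁ + 1) (LF.vv L.a y) ∧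
          (∀ g, g ∉ S → n₁ + 1 ≤ pair (L.W g) fun i => LF.vv L.a y i + 1) ∧
          LF.lc L.a y ∈ LF.Th L.W R₀ fun _ => 1}}} := by
    ext γ
    exact Iff.rfl
  rw [h4]
  exact h3

open Classical in
private theorem b1x_pow {C : Finset I} (hC : C ⊆ L.Lam) {n₁ n : ℕ} (hn : n₁ ≤ n)
    {γ : Fin N × Fin (n + 1) → ℂ} (h0 : ∀ l, γ (l, 0) = L.pC C l) {g : Γ}
    (hg : (pair (L.W g) fun i => LF.vv L.a (yj L.β L.d γ) i + 1) = n₁) :
    (∏ i, L.lx γ i ^ L.w g i) ^ L.E * ∏ i ∈ L.K \ C, L.kap i ^ L.W g i =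
      ∏ i, LF.lc L.a (yj L.β L.d γ) i ^ L.W g i := by
  have h1 : ∏ i ∈ L.K \ C, L.kap i ^ L.W g i =
      ∏ i, if i ∈ L.K \ C then L.kap i ^ L.W g i else 1 := by
    rw [Finset.prod_ite_mem, Finset.univ_inter]
  rw [h1, ← Finset.prod_pow, ← Finset.prod_mul_distrib]
  refine Finset.prod_congr rfl fun i _ => ?_
  by_cases hi : i ∈ L.K
  · by_cases hw : L.w g i = 0
    · have hW : L.W g i = 0 := by
        unfold MLoc.W
        rw [hw, mul_zero]
      rw [hw, hW]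
      simp
    · have hdh : L.dh i = L.d (L.ch i) := by
        unfold MLoc.dh
        rw [if_pos hi]
      have hiC : i ∉ C := by
        intro hiC
        have h2 := hC hiC
        unfold MLoc.Lam at h2
        rw [Finset.mem_filter] at h2
        exact hw ((L.hcp i hi h2.2).2.2 g)
      have hd0 := L.hd (L.ch i)
      obtain ⟨q, hq⟩ := L.hdE i hi
      have hq0 : 0 < q := by
        rcases Nat.eq_zero_or_pos q with h | h
        · have := L.hE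
          rw [hq, h, mul_zero] at this
          exact absurd this (lt_irrefl 0)
        · exact h
      have hWq : L.W g i = q * L.w g i := by
        unfold MLoc.W
        rw [hdh, hq, Nat.mul_div_cancel_left _ hd0]
      have hW1 : 1 ≤ L.W g i := by
        rw [hWq]
        exact Nat.mul_pos hq0 (Nat.pos_of_ne_zero hw)
      have hle : L.W g i * (LF.vv L.a (yj L.β L.d γ) i + 1) ≤ n₁ := by
        rw [← hg]
        unfold pair
        exact Finset.single_le_sum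
          (f := fun i => L.W g i * (LF.vv L.a (yj L.β L.d γ) i + 1))
          (fun _ _ => Nat.zero_le _) (Finset.mem_univ i)
      have hlt : LF.vv L.a (yj L.β L.d γ) i < n := by
        have h2 : 1 * (LF.vv L.a (yj L.β L.d γ) i + 1) ≤
            L.W g i * (LF.vv L.a (yj L.β L.d γ) i + 1) := Nat.mul_le_mul_right _ hW1
        omega
      have hob := ((ord_block L hC h0 hi hiC).2 hlt).2
      have hlx : L.lx γ i = Mon.lead1 (fun j => γ (L.ch i, j)) := by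
        unfold MLoc.lx
        rw [if_pos hi]
      rw [if_pos (Finset.mem_sdiff.mpr ⟨hi, hiC⟩), hlx, hob, hWq, mul_pow, ← pow_mul, ← pow_mul,
        mul_comm (L.kap i ^ _)]
      congr 2
      rw [hq]
      ring
  · have hdh : L.dh i = 1 := by
      unfold MLoc.dh
      rw [if_neg hi]
    have hW : L.W g i = L.w g i * L.E := by
      unfold MLoc.W
      rw [hdh, Nat.div_one, mul_comm]
    have hlx : L.lx γ i = LF.lc L.a (yj L.β L.d γ) i := by
      unfold MLoc.lx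
      rw [if_neg hi]
    rw [if_neg fun h => hi (Finset.mem_sdiff.mp h).1, hlx, hW, mul_one, pow_mul]

open Classical in
/-- the total space -/
private def b1x_TX (C : Finset I) (m n : ℕ) (S R₀ : Finset Γ) :
    Set (Fin N × Fin (n + 1) ⊕ Γ → ℂ) :=
  {z | ((∀ g ∈ S, z (Sum.inr g) ≠ 0) ∧ (∀ g, g ∉ S → z (Sum.inr g) = 0) ∧
      ∀ g ∈ R₀, z (Sum.inr g) ^ L.E * ∏ i ∈ L.K \ C, L.kap i ^ L.W g i = 1) ∧
    (fun x => z (Sum.inl x)) ∈ L.CX C (L.E * m) n S (fun g => z (Sum.inr g))}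

/-- the values are polynomials in the jet -/
private theorem b1x_tau {C : Finset I} {f : Γ → MvPolynomial (Fin N) ℂ} {V : Γ → ℂ}
    (hG : L.Gens C f V) (m n : ℕ) (hn : L.E * m ≤ n) (S : Finset Γ) :
    ∃ T : Γ → MvPolynomial (Fin N × Fin (n + 1)) ℂ, (∀ g, g ∉ S → T g = 0) ∧
      ∀ γ : Fin N × Fin (n + 1) → ℂ, (∀ l, γ (l, 0) = L.pC C l) →
        LF.Sx L.W S (L.E * m + 1) (LF.vv L.a (yj L.β L.d γ)) → ∀ g ∈ S,
        eval γ (T g) = ∏ i, L.lx γ i ^ L.w g i := by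
  classical
  choose P hP using fun g => LF.exists_alongPoly (N := N) (n := n + 1) (f g) m
  refine ⟨fun g => if g ∈ S then P g * MvPolynomial.C (V g)⁻¹ else 0, fun g hg => if_neg hg, ?_⟩
  intro γ h0 hS g hg
  have h1 : (pair (L.W g) fun i => LF.vv L.a (yj L.β L.d γ) i + 1) = L.E * m := by
    have := hS g hg
    omega
  have h2 := hG.coeff n γ h0 g m h1 hn
  show eval γ (if g ∈ S then P g * MvPolynomial.C (V g)⁻¹ else 0) = _
  rw [if_pos hg, map_mul, eval_C, hP, h2]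
  field_simp [hG.hV g]

private theorem b1x_TX_eq {C : Finset I} (hC : C ⊆ L.Lam) (m n : ℕ) (hn : L.E * m ≤ n)
    (S R₀ : Finset Γ) (hR : R₀ ⊆ S)
    (T : Γ → MvPolynomial (Fin N × Fin (n + 1)) ℂ) (hT0 : ∀ g, g ∉ S → T g = 0)
    (hT : ∀ γ : Fin N × Fin (n + 1) → ℂ, (∀ l, γ (l, 0) = L.pC C l) →
        LF.Sx L.W S (L.E * m + 1) (LF.vv L.a (yj L.β L.d γ)) → ∀ g ∈ S,
        eval γ (T g) = ∏ i, L.lx γ i ^ L.w g i) :
    b1x_TX L C m n S R₀ = {z | (fun x => z (Sum.inl x)) ∈ L.CR C (L.E * m) n S R₀} ∩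
      ⋂ g : Γ, {z | eval z (X (Sum.inr g) : MvPolynomial (Fin N × Fin (n + 1) ⊕ Γ) ℂ) =
        eval z (rename Sum.inl (T g))} := by
  classical
  have hev : ∀ (z : Fin N × Fin (n + 1) ⊕ Γ → ℂ) (g : Γ),
      eval z (rename Sum.inl (T g)) = eval (fun x => z (Sum.inl x)) (T g) := by
    intro z g
    rw [eval_rename]
    rfl
  have hp : ∀ γ : Fin N × Fin (n + 1) → ℂ, (∀ l, γ (l, 0) = L.pC C l) →
      LF.Sx L.W S (L.E * m + 1) (LF.vv L.a (yj L.β L.d γ)) → ∀ g ∈ S,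
      (∏ i, L.lx γ i ^ L.w g i) ^ L.E * ∏ i ∈ L.K \ C, L.kap i ^ L.W g i =
        ∏ i, LF.lc L.a (yj L.β L.d γ) i ^ L.W g i := by
    intro γ h0 hS g hg
    refine b1x_pow L hC hn h0 ?_
    have := hS g hg
    omega
  ext z
  simp only [Set.mem_inter_iff, Set.mem_iInter, Set.mem_ofPred_eq, eval_X, hev]
  constructor
  · rintro ⟨⟨h1, h2, h3⟩, hz⟩
    obtain ⟨k0, kS, kn, kl⟩ := hz
    refine ⟨⟨k0, kS, kn, fun g hg => ?_⟩, fun g => ?_⟩
    · rw [← hp _ k0 kS g (hR hg), kl g (hR hg)]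
      exact h3 g hg
    · by_cases hg : g ∈ S
      · rw [hT _ k0 kS g hg, kl g hg]
      · rw [h2 g hg, hT0 g hg, map_zero]
  · rintro ⟨hz, hg⟩
    obtain ⟨k0, kS, kn, kl⟩ := hz
    have hne : ∀ g ∈ S, (∏ i, L.lx (fun x => z (Sum.inl x)) i ^ L.w g i) ≠ 0 := by
      intro g hgS h0
      have h1 := hp _ k0 kS g hgS
      rw [h0, zero_pow L.hE.ne', zero_mul] at h1
      exact (Finset.prod_ne_zero_iff.mpr fun i _ => pow_ne_zero _ (LF.lc_ne_zero _ _ _)) h1.symm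
    refine ⟨⟨fun g hgS => ?_, fun g hgS => ?_, fun g hgR => ?_⟩, k0, kS, kn, fun g hgS => ?_⟩
    · rw [hg g, hT _ k0 kS g hgS]
      exact hne g hgS
    · rw [hg g, hT0 g hgS, map_zero]
    · rw [hg g, hT _ k0 kS g (hR hgR), hp _ k0 kS g (hR hgR)]
      exact kl g hgR
    · rw [← hT _ k0 kS g hgS]
      exact (hg g).symm

private theorem b1x_cls_TX {C : Finset I} (hC : C ⊆ L.Lam) {f : Γ → MvPolynomial (Fin N) ℂ}
    {V : Γ → ℂ} (hG : L.Gens C f V) (m n : ℕ) (hn : L.E * m ≤ n) (S R₀ : Finset Γ)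
    (hR : R₀ ⊆ S) :
    Constr (b1x_TX L C m n S R₀) ∧
      cls (b1x_TX L C m n S R₀) = cls (L.CR C (L.E * m) n S R₀) := by
  obtain ⟨T, hT0, hT⟩ := b1x_tau L hG m n hn S
  have hXX : Constr (L.CR C (L.E * m) n S R₀) := constr_CR L C (L.E * m) n S R₀
  have hTX : Constr (b1x_TX L C m n S R₀) := by
    rw [b1x_TX_eq L hC m n hn S R₀ hR T hT0 hT]
    exact (hXX.comp Sum.inl).inter (constr_iInter fun g => constr_eq _ _)
  refine ⟨hTX, cls_iso hTX hXX ?_⟩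
  refine ⟨fun z x => z (Sum.inl x), fun γ => Sum.elim γ fun g => eval γ (T g), fun x => ?_, ?_,
    fun z hz => ?_, fun γ hγ => ?_, fun z hz => ?_, fun γ _ => rfl⟩
  · exact regFun_coord _ _
  · rintro (x | g)
    · exact regFun_coord _ x
    · exact regFun_poly _ (T g)
  · rw [b1x_TX_eq L hC m n hn S R₀ hR T hT0 hT] at hz
    exact hz.1
  · rw [b1x_TX_eq L hC m n hn S R₀ hR T hT0 hT]
    refine ⟨hγ, ?_⟩
    rw [Set.mem_iInter]
    intro g
    show eval _ _ = eval _ _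
    rw [eval_X, eval_rename]
    rfl
  · rw [b1x_TX_eq L hC m n hn S R₀ hR T hT0 hT] at hz
    obtain ⟨-, hz⟩ := hz
    rw [Set.mem_iInter] at hz
    funext y
    rcases y with x | g
    · rfl
    · have h := hz g
      have h' : eval z (X (Sum.inr g)) = eval z (rename Sum.inl (T g)) := h
      rw [eval_X, eval_rename] at h'
      exact h'.symm

theorem chi_transferX {χ : K0 →+* ℤ} (hχ : IsEulerCharF χ) {C : Finset I} (hC : C ⊆ L.Lam)
    (f : Γ → MvPolynomial (Fin N) ℂ) (V : Γ → ℂ) (hG : L.Gens C f V) {S R₀ : Finset Γ}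
    (hR : R₀ ⊆ S) {ι : Type} [Fintype ι] (m n : ι → ℕ) (hm : ∀ i, 1 ≤ m i)
    (hn : ∀ i, L.E * m i ≤ n i) (c : ι → ℂ)
    (h : ∀ t : Γ → ℂ, (∀ g ∈ S, t g ≠ 0) →
      ∑ i, c i * ((χ (cls (L.CX C (L.E * m i) (n i) S t)) : ℤ) : ℂ) = 0) :
    ∑ i, c i * ((χ (cls (L.CR C (L.E * m i) (n i) S R₀)) : ℤ) : ℂ) = 0 := by
  classical
  have h1 := LF.fubini_C hχ (fun i => Fin N × Fin (n i + 1))
    (fun i => b1x_TX L C (m i) (n i) S R₀)
    (fun i => (b1x_cls_TX L hC hG (m i) (n i) (hn i) S R₀ hR).1) c (fun y => by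
      by_cases hy : (∀ g ∈ S, y g ≠ 0) ∧ (∀ g, g ∉ S → y g = 0) ∧
          ∀ g ∈ R₀, y g ^ L.E * ∏ i ∈ L.K \ C, L.kap i ^ L.W g i = 1
      · rw [← h y hy.1]
        refine Finset.sum_congr rfl fun i _ => ?_
        have h2 : {x : Fin N × Fin (n i + 1) → ℂ |
            Sum.elim x y ∈ b1x_TX L C (m i) (n i) S R₀} = L.CX C (L.E * m i) (n i) S y := by
          ext x
          constructor
          · intro hx
            exact hx.2
          · intro hx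
            exact ⟨hy, hx⟩
        rw [h2]
      · refine Finset.sum_eq_zero fun i _ => ?_
        have h2 : {x : Fin N × Fin (n i + 1) → ℂ |
            Sum.elim x y ∈ b1x_TX L C (m i) (n i) S R₀} = ∅ := by
          rw [Set.eq_empty_iff_forall_notMem]
          intro x hx
          exact hy hx.1
        rw [h2, cls_empty, map_zero, Int.cast_zero, mul_zero])
  rw [← h1]
  exact Finset.sum_congr rfl fun i _ => by
    rw [(b1x_cls_TX L hC hG (m i) (n i) (hn i) S R₀ hR).2]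

end LFM
end MotMono
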