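import Pool.Agent.Lib.MP_4e5fcd_ag.LFM.D2
import Pool.Agent.Lib.MP_4e5fcd_ag.Kum.E11

/-!
# LFM-D3: the weighted sum of the Lefschetz numbers vanishes if `lam` is neither a zero nor a pole

`Λ m = χ (contactArcs m)`, `Λ m = Λ (gcd (m, M₀))` for `m ≥ 1`. For `e ∣ M₀` put
`x_e = ∑_{(a, b), a b = e} μ(a) Λ b`, divisible by `e` (`dold`), `x_e = e c_e`. Moebius inversion on the
divisors: `Λ m = ∑_{e ∣ m} x_e` for `m ∣ M₀`, so for all `m ≥ 1`: `Λ m = ∑_{e ∣ gcd (m, M₀)} x_e =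
∑_{e ∈ M₀.divisors} if e ∣ m then c_e * e else 0`. `Kum.exists_zeta_prod` (`s = M₀.divisors`, `n = id`): since no `Z` has
a zero or a pole at `lam`: `∑_{e ∣ M₀, lam ^ e = 1} c_e = 0`. Now
`∑_{m=1}^M lam ^ m Λ m = ∑_e e c_e ∑_{1 ≤ m ≤ M, e ∣ m} lam ^ m`; the inner sum is over `m = e j`,
`1 ≤ j ≤ M / e`: it is `M / e` if `lam ^ e = 1` and `0` otherwise (geometric sum, `(lam ^ e) ^ (M / e) = 1`). So the
sum is `M ∑_{lam ^ e = 1} c_e = 0`. Period: `gcd (m + M, M₀) = gcd (m, M₀)`.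
-/

open MvPolynomial

namespace MotMono
namespace LFM

variable {N : ℕ} {I₀ : Ideal (MvPolynomial (Fin N) ℂ)} {p : Fin N → ℂ}

private theorem d3_geom (lam : ℂ) {M e : ℕ} (he : 0 < e) (hdvd : e ∣ M) (hlam : lam ^ M = 1)
    [Decidable (lam ^ e = 1)] :
    ∑ m ∈ Finset.Icc 1 M, (if e ∣ m then lam ^ m else 0) =
      if lam ^ e = 1 then ((M / e : ℕ) : ℂ) else 0 := by
  obtain ⟨q, rfl⟩ := hdvd
  rw [Nat.mul_div_cancel_left q he]
  have h1 : ∑ m ∈ Finset.Icc 1 (e * q), (if e ∣ m then lam ^ m else 0) =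
      ∑ j ∈ Finset.range q, (lam ^ e) ^ (j + 1) := by
    rw [← Finset.sum_filter]
    symm
    refine Finset.sum_bij (fun j _ => e * (j + 1)) ?_ ?_ ?_ ?_
    · intro j hj
      rw [Finset.mem_range] at hj
      rw [Finset.mem_filter, Finset.mem_Icc]
      refine ⟨⟨?_, Nat.mul_le_mul_left e hj⟩, dvd_mul_right _ _⟩
      have := Nat.mul_le_mul he (Nat.succ_le_succ (Nat.zero_le j))
      omega
    · intro a _ b _ hab
      have := Nat.eq_of_mul_eq_mul_left he hab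
      omega
    · intro m hm
      rw [Finset.mem_filter, Finset.mem_Icc] at hm
      obtain ⟨⟨h1, h2⟩, k, rfl⟩ := hm
      have hk : 0 < k := by
        rcases Nat.eq_zero_or_pos k with h | h
        · rw [h] at h1
          omega
        · exact h
      refine ⟨k - 1, ?_, ?_⟩
      · rw [Finset.mem_range]
        have := Nat.le_of_mul_le_mul_left h2 he
        omega
      · have : k - 1 + 1 = k := by omega
        simp only [this]
    · intro j _
      rw [← pow_mul]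
  rw [h1]
  split_ifs with h
  · rw [h]
    simp
  · have h2 : (lam ^ e) ^ q = 1 := by rw [← pow_mul, hlam]
    have h3 : ∑ j ∈ Finset.range q, (lam ^ e) ^ (j + 1) =
        (∑ j ∈ Finset.range q, (lam ^ e) ^ j) * lam ^ e := by
      rw [Finset.sum_mul]
      exact Finset.sum_congr rfl fun j _ => pow_succ _ _
    have h4 := mul_geom_sum (lam ^ e) q
    rw [h2, sub_self] at h4
    rcases mul_eq_zero.1 h4 with h5 | h5
    · exact absurd (sub_eq_zero.1 h5) h
    · rw [h3, h5, zero_mul]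

theorem lam_sum {χ : K0 →+* ℤ} (hχ : IsEulerChar χ) (y : ConePoint I₀ p) {M₀ : ℕ} (hM₀ : 0 < M₀)
    (hper : ∀ m, 1 ≤ m → χ (cls (contactArcs I₀ p y m)) =
      χ (cls (contactArcs I₀ p y (Nat.gcd m M₀)))) (lam : ℂ)
    (hno : ∀ Z, IsZeta (fun d => χ (cls (contactArcs I₀ p y d))) Z → ¬ ZeroOrPole Z lam) {M : ℕ}
    (hM : 0 < M) (hdvd : M₀ ∣ M) (hlam : lam ^ M = 1) :
    (∀ m, 1 ≤ m → χ (cls (contactArcs I₀ p y (m + M))) = χ (cls (contactArcs I₀ p y m))) ∧
      ∑ m ∈ Finset.Icc 1 M, lam ^ m * ((χ (cls (contactArcs I₀ p y m)) : ℤ) : ℂ) = 0 := by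
  classical
  constructor
  · intro m hm
    obtain ⟨k, rfl⟩ := hdvd
    rw [hper (m + M₀ * k) (by omega), hper m hm, Nat.gcd_add_mul_left_left]
  set Λ : ℕ → ℤ := fun d => χ (cls (contactArcs I₀ p y d)) with hΛ
  set xx : ℕ → ℤ := fun n => ∑ x ∈ n.divisorsAntidiagonal,
    (ArithmeticFunction.moebius x.1 : ℤ) * Λ x.2 with hxx
  have hinv : ∀ n > 0, ∑ i ∈ n.divisors, xx i = Λ n := by
    refine (ArithmeticFunction.sum_eq_iff_sum_mul_moebius_eq (R := ℤ)).2 fun n _ => ?_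
    simp only [hxx, Int.cast_id]
  have hdv : ∀ n, ∃ c : ℤ, 0 < n → xx n = c * n := by
    intro n
    rcases Nat.eq_zero_or_pos n with h | h
    · exact ⟨0, fun h1 => absurd h1 (by omega)⟩
    · obtain ⟨c, hc⟩ := dold hχ y h
      refine ⟨c, fun _ => ?_⟩
      rw [mul_comm]
      exact hc
  choose c hc using hdv
  have hL : ∀ d, 0 < d → Λ d = ∑ e ∈ M₀.divisors, if e ∣ d then c e * (e : ℤ) else 0 := by
    intro d hd
    have h1 : Λ d = Λ (Nat.gcd d M₀) := hper d hd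
    have hg : 0 < Nat.gcd d M₀ := Nat.gcd_pos_of_pos_left _ hd
    rw [h1, ← hinv _ hg, ← Finset.sum_filter]
    have h2 : M₀.divisors.filter (fun e => e ∣ d) = (Nat.gcd d M₀).divisors := by
      ext e
      rw [Finset.mem_filter, Nat.mem_divisors, Nat.mem_divisors, Nat.dvd_gcd_iff]
      constructor
      · rintro ⟨⟨a, b⟩, c⟩
        exact ⟨⟨c, a⟩, hg.ne'⟩
      · rintro ⟨⟨a, b⟩, c⟩
        exact ⟨⟨b, hM₀.ne'⟩, a⟩
    rw [h2]
    exact Finset.sum_congr rfl fun e he => hc e (Nat.pos_of_mem_divisors he)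
  have h0 : ∑ e ∈ M₀.divisors.filter (fun e => lam ^ e = 1), c e = 0 := by
    by_contra hne
    obtain ⟨Z, hZ, hZ2⟩ := Kum.exists_zeta_prod M₀.divisors (fun e => e) c
      (fun e he => Nat.pos_of_mem_divisors he) Λ hL lam hne
    exact hno Z hZ hZ2
  have h1 : ∑ m ∈ Finset.Icc 1 M, lam ^ m * ((Λ m : ℤ) : ℂ) =
      ∑ e ∈ M₀.divisors, ((c e : ℤ) : ℂ) * (e : ℂ) *
        ∑ m ∈ Finset.Icc 1 M, (if e ∣ m then lam ^ m else 0) := by
    simp_rw [Finset.mul_sum]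
    rw [Finset.sum_comm]
    refine Finset.sum_congr rfl fun m hm => ?_
    rw [hL m (Finset.mem_Icc.1 hm).1, Int.cast_sum, Finset.mul_sum]
    refine Finset.sum_congr rfl fun e _ => ?_
    split_ifs
    · push_cast
      ring
    · simp
  rw [h1]
  have h2 : ∀ e ∈ M₀.divisors, ((c e : ℤ) : ℂ) * (e : ℂ) *
      ∑ m ∈ Finset.Icc 1 M, (if e ∣ m then lam ^ m else 0) =
      (M : ℂ) * if lam ^ e = 1 then ((c e : ℤ) : ℂ) else 0 := by
    intro e he
    have hep := Nat.pos_of_mem_divisors he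
    have hed : e ∣ M := (Nat.dvd_of_mem_divisors he).trans hdvd
    rw [d3_geom lam hep hed hlam]
    split_ifs
    · obtain ⟨q, rfl⟩ := hed
      rw [Nat.mul_div_cancel_left q hep]
      push_cast
      ring
    · simp
  rw [Finset.sum_congr rfl h2, ← Finset.mul_sum, ← Finset.sum_filter, ← Int.cast_sum, h0,
    Int.cast_zero, mul_zero]

end LFM
end MotMono
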