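import Pool.Agent.Lib.MP_4e5fcd_ag.LFM.S5
import Pool.Agent.Lib.MP_4e5fcd_ag.LFM.D3

/-!
# LFM-B2: if no cone point works, the weighted sums vanish

Let `M₀` be from `exists_period`, `M = M₀ k₀`, `lam ^ k₀ = 1`. Fix `t`. If all `CX C (E m) n S t` with
`m ≥ 1`, `E (m + 1) ≤ n + 1` are empty, everything is `0` (`cls_empty`). Otherwise `exists_cone'` gives `y`,
`Nonzero`, `χ (contactArcs m) = χ (CX C (E m) n S t)` for `m ≥ 1`, `E (m + 1) ≤ n + 1`; `exists_period` gives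
the hypothesis of `lam_sum`. `lv (E m) = E m + E + Hb ≥ E (m + 1)`.
-/

open MvPolynomial

namespace MotMono
namespace LFM

variable {I Γ : Type} [Fintype I] [Fintype Γ] {N s : ℕ} (L : MLoc I Γ N s)

theorem lambda_sumX {χ : K0 →+* ℤ} (hχ : IsEulerCharF χ) {C : Finset I} (hC : C ⊆ L.Lam)
    (f : Γ → MvPolynomial (Fin N) ℂ) (V : Γ → ℂ) (hG : L.Gens C f V) {S : Finset Γ}
    (hS : S.Nonempty) (lam : ℂ) {k₀ : ℕ} (hk₀ : 0 < k₀) (hlam : lam ^ k₀ = 1)
    (hno : ∀ y : ConePoint (Ideal.span (Set.range f)) (L.pC C), y.Nonzero →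
      ∀ Z, IsZeta (fun d => χ (cls (contactArcs (Ideal.span (Set.range f)) (L.pC C) y d))) Z →
        ¬ ZeroOrPole Z lam) :
    ∃ M₀, 0 < M₀ ∧ ∀ M, 0 < M → M₀ ∣ M → lam ^ M = 1 ∧
      ∀ t : Γ → ℂ, (∀ g ∈ S, t g ≠ 0) →
        (∀ m, 1 ≤ m → χ (cls (L.CX C (L.E * (m + M)) (L.lv (L.E * (m + M))) S t)) =
          χ (cls (L.CX C (L.E * m) (L.lv (L.E * m)) S t))) ∧
        ∑ m ∈ Finset.Icc 1 M,
          lam ^ m * ((χ (cls (L.CX C (L.E * m) (L.lv (L.E * m)) S t)) : ℤ) : ℂ) = 0 := by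
  obtain ⟨M₁, hM₁, hper⟩ := exists_period L hχ hC hS
  refine ⟨M₁ * k₀, Nat.mul_pos hM₁ hk₀, fun M hM hdvd => ⟨?_, fun t ht => ⟨?_, ?_⟩⟩⟩
  · obtain ⟨q, rfl⟩ := hdvd
    rw [mul_comm M₁ k₀, mul_assoc, pow_mul, hlam, one_pow]
  · intro m hm
    have hd : M₁ ∣ M := (dvd_mul_right _ _).trans hdvd
    have hlv : ∀ n : ℕ, n ≤ L.lv n := fun n => by
      unfold MLoc.lv
      omega
    have hle : L.E * m ≤ L.E * (m + M) := Nat.mul_le_mul_left _ (Nat.le_add_right _ _)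
    rw [hper t (m + M) (L.lv (L.E * (m + M))) (L.E * (m + M)) (by omega) (hlv _) le_rfl,
      hper t m (L.lv (L.E * m)) (L.E * (m + M)) hm (hlv _) hle]
    have hg : Nat.gcd (m + M) M₁ = Nat.gcd m M₁ := by
      obtain ⟨q, rfl⟩ := hd
      rw [Nat.gcd_add_mul_left_left]
    rw [hg]
  · by_cases hne : ∃ m₀ n₀ : ℕ, 1 ≤ m₀ ∧ L.E * (m₀ + 1) ≤ n₀ + 1 ∧
      (L.CX C (L.E * m₀) n₀ S t).Nonempty
    · obtain ⟨m₀, n₀, hm₀, hn₀, hne⟩ := hne
      obtain ⟨y, hy, hyc⟩ := exists_cone' L hχ.line hC f V hG S hS t ht hm₀ hn₀ hne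
      have hper' : ∀ m, 1 ≤ m →
          χ (cls (contactArcs (Ideal.span (Set.range f)) (L.pC C) y m)) =
            χ (cls (contactArcs (Ideal.span (Set.range f)) (L.pC C) y (Nat.gcd m M₁))) := by
        intro m hm
        have hgm : Nat.gcd m M₁ ≤ m := Nat.gcd_le_left _ hm
        have hg1 : 1 ≤ Nat.gcd m M₁ := Nat.gcd_pos_of_pos_left _ hm
        have hle : L.E * (Nat.gcd m M₁ + 1) ≤ L.E * (m + 1) := Nat.mul_le_mul_left _ (by omega)
        have hle2 : L.E * m ≤ L.E * (m + 1) := Nat.mul_le_mul_left _ (by omega)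
        rw [hyc m (L.E * (m + 1)) hm (by omega), hyc (Nat.gcd m M₁) (L.E * (m + 1)) hg1 (by omega)]
        exact hper t m (L.E * (m + 1)) (L.E * (m + 1)) hm hle2 hle2
      have hd : M₁ ∣ M := (dvd_mul_right _ _).trans hdvd
      have hlM : lam ^ M = 1 := by
        obtain ⟨q, rfl⟩ := hdvd
        rw [mul_comm M₁ k₀, mul_assoc, pow_mul, hlam, one_pow]
      have h1 := (lam_sum (LF.isEulerChar_of_F hχ) y hM₁ hper' lam (hno y hy) hM hd hlM).2
      rw [← h1]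
      refine Finset.sum_congr rfl fun m hm => ?_
      have hm1 := (Finset.mem_Icc.1 hm).1
      rw [hyc m (L.lv (L.E * m)) hm1 (by
        unfold MLoc.lv
        rw [Nat.mul_succ]
        omega)]
    · refine Finset.sum_eq_zero fun m hm => ?_
      have hm1 := (Finset.mem_Icc.1 hm).1
      have h1 : L.CX C (L.E * m) (L.lv (L.E * m)) S t = ∅ := by
        rw [← Set.not_nonempty_iff_eq_empty]
        refine fun h => hne ⟨m, L.lv (L.E * m), hm1, ?_, h⟩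
        unfold MLoc.lv
        rw [Nat.mul_succ]
        omega
      rw [h1, cls_empty, map_zero]
      simp

end LFM
end MotMono
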