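import Pool.Agent.Lib.MP_4e5fcd_ag.LF.B3

/-!
# LFM-B3: a fact on periodic sequences, with characters

As LF/B3 (copy the proof). `η v ψ ^ e₀ = 1` for all `v`, `ψ`. Let `M' = M * e₀ * ∏ k v`,
`A n = G n - ∑_v if k v ∣ n then x v ∑_ψ η v ψ ^ (n / k v)`; `A (n + M') = A n` for `n ≥ 1`. `Q = ∏_u (1 - r u X ^ e u)`,
`Q(lam) ≠ 0`. `∑_{n ≤ M', k v ∣ n} lam ^ n η ^ (n / k v) = ∑_{j=1}^{M' / k v} (lam ^ k v η) ^ j` is `M' / k v` if
`lam ^ k v * η v ψ = 1`, and `0` otherwise (`(lam ^ k v η) ^ (M' / k v) = 1`).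
-/

open MvPolynomial

namespace MotMono
namespace LFM

private theorem b3x_block (M : ℕ) (g : ℕ → ℂ) (hg : ∀ n, g (n + M) = g n) (t : ℕ) :
    ∑ n ∈ Finset.range (M * t), g n = (t : ℂ) * ∑ n ∈ Finset.range M, g n := by
  have hg' : ∀ s n, g (n + M * s) = g n := by
    intro s
    induction s with
    | zero => intro n; simp
    | succ s ih =>
      intro n
      rw [Nat.mul_succ, ← add_assoc, hg, ih]
  induction t with
  | zero => simp
  | succ t ih =>
    rw [Nat.mul_succ, Finset.sum_range_add, ih]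
    have : ∑ x ∈ Finset.range M, g (M * t + x) = ∑ x ∈ Finset.range M, g x := by
      apply Finset.sum_congr rfl
      intro x _
      rw [add_comm, hg']
    rw [this]
    push_cast
    ring

private theorem b3x_geom (lam η : ℂ) (k : ℕ) (hk : 0 < k) (t : ℕ) :
    ∑ n ∈ Finset.range (k * t), (if k ∣ n then lam ^ n * η ^ (n / k) else 0) =
      ∑ j ∈ Finset.range t, (lam ^ k * η) ^ j := by
  induction t with
  | zero => simp
  | succ t ih =>
    rw [Nat.mul_succ, Finset.sum_range_add, ih, Finset.sum_range_succ]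
    congr 1
    rw [Finset.sum_eq_single 0]
    · rw [add_zero, if_pos (dvd_mul_right k t), Nat.mul_div_cancel_left _ hk, pow_mul, mul_pow]
    · intro b hb hb0
      rw [Finset.mem_range] at hb
      rw [if_neg]
      intro h
      rw [Nat.dvd_add_right (dvd_mul_right k t)] at h
      exact hb0 (Nat.eq_zero_of_dvd_of_lt h hb)
    · intro h
      exact absurd (Finset.mem_range.mpr hk) h

open Classical in
theorem seq_factX (lam : ℂ) {M : ℕ} (hM : 0 < M) (hlam : lam ^ M = 1) (G : ℕ → ℤ)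
    (hper : ∀ n, 1 ≤ n → G (n + M) = G n)
    (hsum : ∑ n ∈ Finset.Icc 1 M, lam ^ n * (G n : ℂ) = 0) {ι κ κ' : Type} (V : Finset ι)
    (k : ι → ℕ) (hk : ∀ v ∈ V, 0 < k v) (x : ι → ℤ) (Ψ : ι → Finset κ') (η : ι → κ' → ℂ)
    {e₀ : ℕ} (he₀ : 0 < e₀) (hη : ∀ v ∈ V, ∀ ψ ∈ Ψ v, η v ψ ^ e₀ = 1) (c : ℕ → ℂ)
    (U : Finset κ) (r : κ → ℂ) (e : κ → ℕ) (he : ∀ u ∈ U, r u * lam ^ e u ≠ 1)
    (P : Polynomial ℂ)
    (hP : (∏ u ∈ U, (1 - PowerSeries.C (r u) * (PowerSeries.X : PowerSeries ℂ) ^ e u)) *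
      PowerSeries.mk c = P)
    (n₀ : ℕ) (h : ∀ n, n₀ ≤ n → (G n : ℂ) = c (n + 1) +
      ∑ v ∈ V, if k v ∣ n then (x v : ℂ) * ∑ ψ ∈ Ψ v, η v ψ ^ (n / k v) else 0) :
    ∑ v ∈ V, (x v : ℂ) / (k v : ℂ) *
      ((Ψ v).filter fun ψ => lam ^ k v * η v ψ = 1).card = 0 := by
  obtain ⟨t, ht⟩ : ∃ t : ℕ, t = e₀ * ∏ v ∈ V, k v := ⟨_, rfl⟩
  have htpos : 0 < t := by
    rw [ht]
    exact Nat.mul_pos he₀ (Finset.prod_pos hk)
  obtain ⟨M', hM'⟩ : ∃ M' : ℕ, M' = M * t := ⟨_, rfl⟩
  have hM'pos : 0 < M' := by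
    rw [hM']
    positivity
  have hlam' : lam ^ M' = 1 := by
    rw [hM', pow_mul, hlam, one_pow]
  have hkq : ∀ v ∈ V, ∃ q : ℕ, M' = k v * (e₀ * q) := by
    intro v hv
    obtain ⟨q, hq⟩ := Finset.dvd_prod_of_mem k hv
    refine ⟨M * q, ?_⟩
    rw [hM', ht, hq]
    ring
  have hkdvd : ∀ v ∈ V, k v ∣ M' := by
    intro v hv
    obtain ⟨q, hq⟩ := hkq v hv
    exact ⟨_, hq⟩
  have hηM : ∀ v ∈ V, ∀ ψ ∈ Ψ v, η v ψ ^ (M' / k v) = 1 := by
    intro v hv ψ hψ
    obtain ⟨q, hq⟩ := hkq v hv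
    rw [hq, Nat.mul_div_cancel_left _ (hk v hv), pow_mul, hη v hv ψ hψ, one_pow]
  have hper' : ∀ s n, 1 ≤ n → G (n + M * s) = G n := by
    intro s
    induction s with
    | zero => intro n _; simp
    | succ s ih =>
      intro n hn
      rw [Nat.mul_succ, ← add_assoc, hper _ (by omega), ih n hn]
  have hperM' : ∀ n, 1 ≤ n → G (n + M') = G n := by
    intro n hn
    rw [hM']
    exact hper' t n hn
  -- the periodic sequence `B`
  let B : ℕ → ℂ := fun n => (G (n + M') : ℂ) -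
    ∑ v ∈ V, if k v ∣ n then (x v : ℂ) * ∑ ψ ∈ Ψ v, η v ψ ^ (n / k v) else 0
  have hBper : ∀ n, B (n + M') = B n := by
    intro n
    simp only [B]
    rw [hperM' (n + M') (by omega)]
    congr 1
    apply Finset.sum_congr rfl
    intro v hv
    by_cases hn : k v ∣ n
    · have hn' : k v ∣ n + M' := dvd_add hn (hkdvd v hv)
      rw [if_pos hn, if_pos hn']
      congr 1
      apply Finset.sum_congr rfl
      intro ψ hψ
      rw [Nat.add_div_of_dvd_left (hkdvd v hv), pow_add, hηM v hv ψ hψ, mul_one]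
    · have hn' : ¬ k v ∣ n + M' := fun h' => hn ((Nat.dvd_add_left (hkdvd v hv)).mp h')
      rw [if_neg hn, if_neg hn']
  have hBc : ∀ n, n₀ ≤ n → 1 ≤ n → B n = c (n + 1) := by
    intro n h1 h2
    simp only [B]
    rw [hperM' n h2, h n h1]
    ring
  -- the polynomial `a`
  let a : Polynomial ℂ := ∑ n ∈ Finset.range M', Polynomial.monomial n (B n)
  have ha : (1 - (PowerSeries.X : PowerSeries ℂ) ^ M') * PowerSeries.mk B = (a : PowerSeries ℂ) := by
    ext n
    rw [sub_mul, one_mul, map_sub, PowerSeries.coeff_mk, PowerSeries.coeff_X_pow_mul',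
      Polynomial.coeff_coe]
    simp only [a, Polynomial.finsetSum_coeff, Polynomial.coeff_monomial]
    rw [Finset.sum_ite_eq' (Finset.range M') n B]
    by_cases hn : M' ≤ n
    · rw [if_pos hn, if_neg (by simp; omega), PowerSeries.coeff_mk]
      obtain ⟨m, rfl⟩ := Nat.exists_eq_add_of_le hn
      rw [add_comm M' m, hBper, Nat.add_sub_cancel, sub_self]
    · rw [if_neg hn, if_pos (by simp; omega), sub_zero]
  -- the difference is a polynomial
  obtain ⟨N, hN⟩ : ∃ N : ℕ, N = max n₀ 1 + 1 := ⟨_, rfl⟩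
  let D : Polynomial ℂ := PowerSeries.trunc N (PowerSeries.X * PowerSeries.mk B - PowerSeries.mk c)
  have hD : PowerSeries.X * PowerSeries.mk B - PowerSeries.mk c = (D : PowerSeries ℂ) := by
    ext n
    rw [Polynomial.coeff_coe]
    simp only [D]
    rw [PowerSeries.coeff_trunc]
    split_ifs with hn
    · rfl
    · obtain ⟨m, rfl⟩ : ∃ m, n = m + 1 := ⟨n - 1, by omega⟩
      rw [map_sub, PowerSeries.coeff_succ_X_mul, PowerSeries.coeff_mk, PowerSeries.coeff_mk,
        hBc m (by omega) (by omega), sub_self]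
  let Q : Polynomial ℂ := ∏ u ∈ U, (1 - Polynomial.C (r u) * Polynomial.X ^ e u)
  have hQ : (Q : PowerSeries ℂ) =
      ∏ u ∈ U, (1 - PowerSeries.C (r u) * (PowerSeries.X : PowerSeries ℂ) ^ e u) := by
    simp only [Q]
    rw [← Polynomial.coeToPowerSeries.ringHom_apply, map_prod]
    apply Finset.prod_congr rfl
    intro u _
    simp
  have hP₁ : (Q : PowerSeries ℂ) * (PowerSeries.X * PowerSeries.mk B) =
      ((Q * D + P : Polynomial ℂ) : PowerSeries ℂ) := by
    rw [Polynomial.coe_add, Polynomial.coe_mul, ← hD, ← hP, ← hQ]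
    ring
  have hkey : (1 - Polynomial.X ^ M') * (Q * D + P) = Q * (Polynomial.X * a) := by
    apply Polynomial.coe_injective
    rw [Polynomial.coe_mul, ← hP₁, Polynomial.coe_mul, Polynomial.coe_mul, ← ha]
    simp only [Polynomial.coe_sub, Polynomial.coe_one, Polynomial.coe_pow, Polynomial.coe_X]
    ring
  have hev := congrArg (Polynomial.eval lam) hkey
  simp only [Polynomial.eval_mul, Polynomial.eval_sub, Polynomial.eval_one, Polynomial.eval_pow,
    Polynomial.eval_X, hlam', sub_self, zero_mul] at hev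
  have hQlam : Polynomial.eval lam Q ≠ 0 := by
    simp only [Q, Polynomial.eval_prod, Polynomial.eval_sub, Polynomial.eval_one,
      Polynomial.eval_pow, Polynomial.eval_X, Polynomial.eval_mul, Polynomial.eval_C]
    rw [Finset.prod_ne_zero_iff]
    intro u hu h0
    exact he u hu (sub_eq_zero.mp h0).symm
  have hlam0 : lam ≠ 0 := by
    rintro rfl
    rw [zero_pow hM.ne'] at hlam
    exact zero_ne_one hlam
  have ha0 : Polynomial.eval lam a = 0 := by
    rcases mul_eq_zero.mp hev.symm with h1 | h1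
    · exact absurd h1 hQlam
    · rcases mul_eq_zero.mp h1 with h2 | h2
      · exact absurd h2 hlam0
      · exact h2
  -- evaluate
  have hG0 : ∑ n ∈ Finset.range M', lam ^ n * (G (n + M') : ℂ) = 0 := by
    have h1 := b3x_block M (fun n => lam ^ n * (G (n + M') : ℂ)) (by
      intro n
      rw [pow_add, hlam, mul_one, show n + M + M' = (n + M') + M by ring,
        hper (n + M') (by omega)]) t
    rw [← hM'] at h1
    rw [h1]
    have h2 : ∑ n ∈ Finset.range M, lam ^ n * (G (n + M') : ℂ) = 0 := by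
      rw [← hsum]
      obtain ⟨m, rfl⟩ : ∃ m, M = m + 1 := ⟨M - 1, by omega⟩
      rw [Finset.sum_range_succ', Finset.sum_Icc_succ_top (by omega)]
      have h3 : ((G (0 + M') : ℤ) : ℂ) = (G (m + 1) : ℂ) := by
        have h4 : 0 + M' = (m + 1) + (m + 1) * (t - 1) := by
          rw [hM']
          obtain ⟨s, rfl⟩ : ∃ s, t = s + 1 := ⟨t - 1, by omega⟩
          simp only [Nat.add_sub_cancel]
          ring
        rw [h4, hper' (t - 1) (m + 1) (by omega)]
      rw [h3, pow_zero, hlam]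
      congr 1
      rw [Finset.range_eq_Ico, Finset.sum_Ico_add' (fun n => lam ^ n * (G (n + M') : ℂ)) 0 m 1]
      have h5 : Finset.Ico (0 + 1) (m + 1) = Finset.Icc 1 m := by
        ext y
        simp only [Finset.mem_Ico, Finset.mem_Icc]
        omega
      rw [h5]
      apply Finset.sum_congr rfl
      intro y hy
      rw [Finset.mem_Icc] at hy
      rw [hperM' y hy.1]
    rw [h2, mul_zero]
  have haeval : Polynomial.eval lam a =
      ∑ n ∈ Finset.range M', lam ^ n * (G (n + M') : ℂ) -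
      ∑ v ∈ V, (x v : ℂ) * ∑ ψ ∈ Ψ v, ∑ n ∈ Finset.range M',
        (if k v ∣ n then lam ^ n * η v ψ ^ (n / k v) else 0) := by
    have e1 : ∀ v ∈ V, (x v : ℂ) * ∑ ψ ∈ Ψ v, ∑ n ∈ Finset.range M',
        (if k v ∣ n then lam ^ n * η v ψ ^ (n / k v) else 0) =
        ∑ n ∈ Finset.range M',
          (if k v ∣ n then (x v : ℂ) * ∑ ψ ∈ Ψ v, η v ψ ^ (n / k v) else 0) * lam ^ n := by
      intro v _
      rw [Finset.sum_comm, Finset.mul_sum]
      apply Finset.sum_congr rfl
      intro n _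
      split_ifs with hn
      · rw [← Finset.mul_sum]
        ring
      · rw [Finset.sum_const_zero]
        ring
    rw [Finset.sum_congr rfl e1, Finset.sum_comm, ← Finset.sum_sub_distrib]
    simp only [a, Polynomial.eval_finsetSum, Polynomial.eval_monomial, B]
    apply Finset.sum_congr rfl
    intro n _
    rw [sub_mul, mul_comm, Finset.sum_mul]
  rw [ha0, hG0, zero_sub] at haeval
  have hgeo : ∀ v ∈ V, ∀ ψ ∈ Ψ v, ∑ n ∈ Finset.range M',
      (if k v ∣ n then lam ^ n * η v ψ ^ (n / k v) else 0) =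
      if lam ^ k v * η v ψ = 1 then (M' : ℂ) / (k v : ℂ) else 0 := by
    intro v hv ψ hψ
    obtain ⟨s, hs⟩ := hkdvd v hv
    have hkv := hk v hv
    have hηs : η v ψ ^ s = 1 := by
      have h1 := hηM v hv ψ hψ
      rwa [hs, Nat.mul_div_cancel_left _ hkv] at h1
    rw [hs, b3x_geom lam (η v ψ) (k v) hkv s]
    split_ifs with h1
    · rw [h1]
      simp only [one_pow, Finset.sum_const, Finset.card_range, nsmul_eq_mul, mul_one]
      push_cast
      have hkc : (k v : ℂ) ≠ 0 := by exact_mod_cast hkv.ne'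
      field_simp
    · rw [geom_sum_eq h1, mul_pow, ← pow_mul, ← hs, hlam', hηs, mul_one, sub_self, zero_div]
  have h6 : ∑ v ∈ V, (x v : ℂ) *
      ∑ ψ ∈ Ψ v, (if lam ^ k v * η v ψ = 1 then (M' : ℂ) / (k v : ℂ) else 0) = 0 := by
    have h7 := haeval.symm
    rw [neg_eq_zero] at h7
    refine Eq.trans ?_ h7
    apply Finset.sum_congr rfl
    intro v hv
    rw [Finset.sum_congr rfl fun ψ hψ => hgeo v hv ψ hψ]
  have hM'c : (M' : ℂ) ≠ 0 := by
    exact_mod_cast hM'pos.ne'
  have h8 : (M' : ℂ) * ∑ v ∈ V, (x v : ℂ) / (k v : ℂ) *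
      ((Ψ v).filter fun ψ => lam ^ k v * η v ψ = 1).card = 0 := by
    rw [← h6, Finset.mul_sum]
    apply Finset.sum_congr rfl
    intro v _
    rw [← Finset.sum_filter, Finset.sum_const, nsmul_eq_mul]
    ring
  exact (mul_eq_zero.mp h8).resolve_left hM'c

end LFM
end MotMono
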