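import Pool.Agent.Lib.MP_4e5fcd_ag.LF.Base
import Pool.Agent.Lib.MP_4e5fcd_ag.Mon.Defs

/-!
# LFM-Base: auxiliary definitions for ideals generated by products of linear forms in disjoint
monomials
-/

open MvPolynomial

namespace MotMono
namespace LFM

variable {I Γ : Type} {N s : ℕ}

/-! ### Jets of the monomials -/

/-- the values of the monomials `y_k = ∏_{β l = k} x_l ^ (d_l)` -/
def yv (β : Fin N → Fin s) (d : Fin N → ℕ) (x : Fin N → ℂ) (k : Fin s) : ℂ :=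
  ∏ l ∈ Finset.univ.filter (fun l => β l = k), x l ^ d l

/-- the jet of the monomials along a jet -/
noncomputable def yj (β : Fin N → Fin s) (d : Fin N → ℕ) {n : ℕ} (γ : Fin N × Fin n → ℂ) :
    Fin s × Fin n → ℂ :=
  fun q => Mon.zc β d γ q.2 q.1

/-- the pairs (leading coefficients, jet of the monomials) of the jets with orders `o` -/
def XYM (β : Fin N → Fin s) (d : Fin N → ℕ) (Fr : Finset (Fin N)) (o : Fin N → ℕ) (n : ℕ) :
    Set (Fin N ⊕ Fin s × Fin n → ℂ) :=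
  {z | (∀ k, ∀ j : Fin n, (j : ℕ) < Mon.nuv β d o k → z (Sum.inr (k, j)) = 0) ∧
    (∀ k, ∀ h : Mon.nuv β d o k < n, z (Sum.inr (k, ⟨Mon.nuv β d o k, h⟩)) =
      ∏ l ∈ Finset.univ.filter (fun l => β l = k), z (Sum.inl l) ^ d l) ∧
    (∀ l, l ∉ Fr → o l < n → z (Sum.inl l) ≠ 0) ∧ ∀ l, n ≤ o l → z (Sum.inl l) = 0}

/-- the number of free coefficients -/
def mo (β : Fin N → Fin s) (d o : Fin N → ℕ) (n : ℕ) : ℕ :=
  (∑ l, (n - 1 - o l)) - ∑ k, (n - 1 - Mon.nuv β d o k)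

/-! ### Essential vectors -/

open Classical in
/-- the indices which are visible at `u` or in `X` -/
noncomputable def DuX [Fintype I] [Fintype Γ] (w : Γ → I → ℕ) (X : Finset I) (u : I → ℕ) :
    Finset I :=
  Finset.univ.filter fun i => u i ≠ 0 ∧ (i ∈ X ∨ ∃ g ∈ LF.Fc w u, w g i ≠ 0)

/-- essential vectors -/
structure EssX [Fintype I] [Fintype Γ] (a : I → Fin s → ℂ) (w : Γ → I → ℕ) (X : Finset I)
    (u : I → ℕ) : Prop where
  pos : 0 < LF.mn w u
  closed : ∀ i, LF.clo a (DuX w X u) u i = u i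
  ext : ∀ z ∈ LF.LinM a (DuX w X u) u,
    (∀ g ∈ LF.Fc w u, ∀ g' ∈ LF.Fc w u, LF.pq (w g) z = LF.pq (w g') z) →
      ∃ c : ℚ, ∀ i ∈ DuX w X u, z i = c * u i

/-! ### Cones and polyhedra -/

/-- generators of extreme rays -/
structure ExtRay {ι : Type} [Fintype ι] (Z : Set ι) (Ls : Finset (ι → ℤ)) (u : ι → ℕ) : Prop where
  ne : u ≠ 0
  zero : ∀ i ∈ Z, u i = 0
  nonneg : ∀ l ∈ Ls, 0 ≤ ∑ i, l i * (u i : ℤ)
  ext : ∀ y : ι → ℚ, (∀ i, u i = 0 → y i = 0) →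
    (∀ l ∈ Ls, ∑ i, l i * (u i : ℤ) = 0 → ∑ i, (l i : ℚ) * y i = 0) → ∃ c : ℚ, ∀ i, y i = c * u i

/-- the monomial with exponents `b` -/
def wtm {ι R : Type*} [Fintype ι] [CommRing R] (ρ : ι → R) (b : ι → ℕ) : R := ∏ i, ρ i ^ b i

open Classical in
/-- the alternating sum `∑ (-1) ^ |Z| [b - f_Z ∈ V]` over the subsets `Z` of `Fr` -/
noncomputable def muV {ι κ : Type} (V : Set (ι → ℕ)) (Fr : Finset κ) (f : κ → ι → ℕ)
    (b : ι → ℕ) : ℤ :=
  ∑ Z ∈ Fr.powerset, (-1) ^ Z.card * (if ∃ b' ∈ V, b = b' + ∑ l ∈ Z, f l then 1 else 0)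

/-! ### Global data -/

/-- the data -/
structure Dat (J Γ : Type) (N s : ℕ) where
  /-- the blocks of variables -/
  β : Fin N → Fin s
  /-- the exponents of the monomials -/
  d : Fin N → ℕ
  /-- the linear forms -/
  a : J → Fin s → ℂ
  /-- the exponents of the linear forms -/
  w : Γ → J → ℕ
  /-- the exponents of the variables -/
  c : Γ → Fin N → ℕ
  /-- the units -/
  U : Γ → MvPolynomial (Fin N) ℂ
  hβ : Function.Surjective β
  hd : ∀ l, 0 < d l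
  ha : ∀ j, a j ≠ 0
  hc : ∀ g l l', l ≠ l' → β l = β l' → c g l = 0
  hU : ∀ g, eval 0 (U g) ≠ 0

variable {J : Type}

/-- the linear forms and the coordinates -/
noncomputable def Dat.av (D : Dat J Γ N s) : J ⊕ Fin s → Fin s → ℂ :=
  Sum.elim D.a fun k => Pi.single k 1

/-- a common multiple of the exponents -/
def Dat.E (D : Dat J Γ N s) : ℕ := ∏ l, D.d l

/-- the weights -/
def Dat.W (D : Dat J Γ N s) (g : Γ) : J ⊕ Fin s → ℕ :=
  Sum.elim (fun j => D.E * D.w g j) fun k =>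
    ∑ l ∈ Finset.univ.filter (fun l => D.β l = k), D.E / D.d l * D.c g l

/-- the blocks which are not plain variables -/
def Dat.KX (D : Dat J Γ N s) : Finset (Fin s) :=
  Finset.univ.filter fun k => ∃ l, D.β l = k ∧ (2 ≤ D.d l ∨ ∃ l', l' ≠ l ∧ D.β l' = k)

/-- their indices -/
def Dat.XI (D : Dat J Γ N s) : Finset (J ⊕ Fin s) :=
  D.KX.map ⟨Sum.inr, Sum.inr_injective⟩

/-- the plain variables -/
def Dat.Pl (D : Dat J Γ N s) : Finset (Fin N) :=
  Finset.univ.filter fun l => D.β l ∉ D.KX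

/-- the generators -/
noncomputable def Dat.gen [Fintype J] (D : Dat J Γ N s) (g : Γ) : MvPolynomial (Fin N) ℂ :=
  D.U g * (∏ l, X l ^ D.c g l) *
    ∏ j, (∑ k, C (D.a j k) * Mon.blockMon D.β D.d k) ^ D.w g j

/-- the ideal -/
noncomputable def Dat.Id [Fintype J] (D : Dat J Γ N s) : Ideal (MvPolynomial (Fin N) ℂ) :=
  Ideal.span (Set.range D.gen)

/-- the log discrepancy of a vector -/
noncomputable def Dat.sig [Fintype J] (D : Dat J Γ N s) (ch : Fin s → Fin N)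
    (u : J ⊕ Fin s → ℕ) : ℚ :=
  (LF.nu D.av u : ℚ) - ∑ k ∈ D.KX, (u (Sum.inr k) : ℚ) +
    ∑ k ∈ D.KX, (u (Sum.inr k) : ℚ) / D.d (ch k)

open Classical in
/-- the indices which are kept exact for the characters `ψ` -/
noncomputable def Dat.XS (D : Dat J Γ N s) (ch : Fin s → Fin N) (ψ : Fin s → ℕ) :
    Finset (J ⊕ Fin s) :=
  (D.KX.filter fun k => D.d (ch k) = 1 ∨ ¬ D.d (ch k) ∣ ψ k).map ⟨Sum.inr, Sum.inr_injective⟩

/-- resonant triples -/
structure Dat.Res [Fintype J] [Fintype Γ] (D : Dat J Γ N s) (lam : ℂ) (ch : Fin s → Fin N)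
    (ψ : Fin s → ℕ) (u : J ⊕ Fin s → ℕ) : Prop where
  hch : ∀ k, D.β (ch k) = k
  prim : Prim u
  ess : EssX D.av D.W (D.XS ch ψ) u
  eq : lam ^ LF.mn D.W u * ∏ k ∈ D.KX,
    Complex.exp (2 * Real.pi * Complex.I * (ψ k * u (Sum.inr k) / D.d (ch k))) = 1

/-! ### The pole side -/

open Classical in
/-- the free blocks: those which are in all bases of maximal weight -/
noncomputable def Dat.Fb (D : Dat J Γ N s) (BB : Finset (Finset (J ⊕ Fin s))) : Finset (Fin s) :=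
  D.KX.filter fun k => ∀ B ∈ BB, Sum.inr k ∈ B

open Classical in
/-- the free variables -/
noncomputable def Dat.Fv (D : Dat J Γ N s) (BB : Finset (Finset (J ⊕ Fin s))) : Finset (Fin N) :=
  Finset.univ.filter fun l => D.β l ∈ D.Fb BB

/-- the points of the polyhedron of a pattern -/
def Dat.VP [Fintype J] [Fintype Γ] (D : Dat J Γ N s) (P : LF.Pat (J ⊕ Fin s) Γ) :
    Set (Option (J ⊕ Fin s) ⊕ Fin N → ℕ) :=
  {b | 1 ≤ b (Sum.inl none) ∧ (∀ l, D.β l ∉ D.KX → b (Sum.inr l) = 0) ∧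
    (∀ l, D.β l ∈ D.KX → 1 ≤ b (Sum.inr l)) ∧
    (∀ k ∈ D.KX, ∑ l ∈ Finset.univ.filter (fun l => D.β l = k), D.d l * b (Sum.inr l) =
      b (Sum.inl (some (Sum.inr k))) + 1) ∧
    (∀ i, i ∉ LF.DT D.W D.XI P.T → b (Sum.inl (some i)) = 0) ∧
    (∀ i ∈ LF.DT D.W D.XI P.T, LF.clo D.av (LF.DT D.W D.XI P.T) (fun j => b (Sum.inl (some j))) i =
      b (Sum.inl (some i))) ∧
    LF.IsPat D.av D.W ∅ D.XI (D.E * b (Sum.inl none))
      (LF.clo D.av (LF.DT D.W D.XI P.T) fun j => b (Sum.inl (some j))) P}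

open Classical in
/-- the direction of a free variable -/
noncomputable def Dat.fl (D : Dat J Γ N s) (l : Fin N) : Option (J ⊕ Fin s) ⊕ Fin N → ℕ :=
  Sum.elim (fun o => if o = some (Sum.inr (D.β l)) then D.d l else 0)
    (fun l' => if l' = l then 1 else 0)

open Classical in
/-- the weights of the coordinates; `B₀` is a basis of maximal weight -/
noncomputable def Dat.rho (D : Dat J Γ N s) (BB : Finset (Finset (J ⊕ Fin s)))
    (B₀ : Finset (J ⊕ Fin s)) : Option (J ⊕ Fin s) ⊕ Fin N → MC :=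
  Sum.elim
    (fun o => o.elim 1 fun i =>
      (if i ∈ B₀ ∧ i ∉ (D.Fb BB).map ⟨Sum.inr, Sum.inr_injective⟩ then
          ((Lu⁻¹ : MCˣ) : MC) else 1) *
        (if i ∈ (D.KX \ D.Fb BB).map ⟨Sum.inr, Sum.inr_injective⟩ then ((Lu : MCˣ) : MC) else 1))
    fun l => if D.β l ∈ D.KX then ((Lu⁻¹ : MCˣ) : MC) else 1

/-- The normalised class of the set of jets at the origin with `n + 1` levels along which all
generators vanish to order at least `K`. -/
noncomputable def Dat.AK [Fintype J] (D : Dat J Γ N s) (K n : ℕ) : MC :=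
  algebraMap K0 MC (cls {γ : Fin N × Fin (n + 1) → ℂ | (∀ l, γ (l, 0) = 0) ∧
      ∀ g, D.E * K ≤ pair (D.W g) fun i => LF.vv D.av (yj D.β D.d γ) i + 1}) *
    ((Lu ^ (-(N * (n + 1) : ℤ)) : MCˣ) : MC)

/-- the part of the jets with orders `o` and `vv ≥ mh` -/
def Dat.cell [Fintype J] (D : Dat J Γ N s) (n : ℕ) (o : Fin N → ℕ) (mh : J ⊕ Fin s → ℕ) :
    Set (Fin N × Fin (n + 1) → ℂ) :=
  {γ | γ ∈ Mon.Yset D.Pl o (n + 1) ∧ ∀ i, mh i ≤ LF.vv D.av (yj D.β D.d γ) i}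

open Classical in
/-- the set of leading coefficients of the blocks which are not free -/
noncomputable def Dat.XH (D : Dat J Γ N s) (BB : Finset (Finset (J ⊕ Fin s)))
    (B₀ : Finset (J ⊕ Fin s)) (x : J ⊕ Fin s → ℕ) : Set (Fin N ⊕ B₀ → ℂ) :=
  {z | (∀ l, D.β l ∈ D.KX \ D.Fb BB → z (Sum.inl l) ≠ 0) ∧
    (∀ l, D.β l ∉ D.KX \ D.Fb BB → z (Sum.inl l) = 0) ∧
    (∀ k ∈ D.Fb BB, ∀ h : Sum.inr k ∈ B₀, z (Sum.inr ⟨Sum.inr k, h⟩) = 0) ∧
    ∀ k ∈ D.KX \ D.Fb BB, ∏ l ∈ Finset.univ.filter (fun l => D.β l = k), z (Sum.inl l) ^ D.d l =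
      LF.ci D.av B₀ x (fun b => z (Sum.inr b)) (Sum.inr k)}

open Classical in
/-- the constant part of the exponent of `L⁻¹` in the class of a cell -/
noncomputable def Dat.cst (D : Dat J Γ N s) (BB : Finset (Finset (J ⊕ Fin s)))
    (B₀ : Finset (J ⊕ Fin s)) : ℤ :=
  ((B₀ \ (D.Fb BB).map ⟨Sum.inr, Sum.inr_injective⟩).card : ℤ) - (D.KX \ D.Fb BB).card +
    (Finset.univ.filter fun l => D.β l ∈ D.KX \ D.Fb BB).card + s - D.KX.card

/-! ### Local data on the monodromy side -/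

/-- local data: the forms `a i` vanish at the point, `K` is the set of the indices of the
coordinates `y_k` which are not plain variables -/
structure MLoc (I Γ : Type) (N s : ℕ) where
  /-- the blocks of variables -/
  β : Fin N → Fin s
  /-- the exponents -/
  d : Fin N → ℕ
  /-- the forms -/
  a : I → Fin s → ℂ
  /-- the exponents of the leading coefficients -/
  w : Γ → I → ℕ
  /-- a common multiple -/
  E : ℕ
  /-- the coordinates which are not plain variables -/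
  K : Finset I
  /-- their blocks -/
  bl : I → Fin s
  /-- the vanishing variable of the block -/
  ch : I → Fin N
  /-- its partner -/
  cp : I → Fin N
  /-- the point -/
  p : Fin N → ℂ
  hβ : Function.Surjective β
  hd : ∀ l, 0 < d l
  ha : ∀ i, a i ≠ 0
  hE : 0 < E
  hdE : ∀ i ∈ K, d (ch i) ∣ E
  hq : ∀ i, a i ⬝ᵥ yv β d p = 0
  hK : ∀ i ∈ K, a i = Pi.single (bl i) 1
  hbl : ∀ i ∈ K, ∀ i' ∈ K, bl i = bl i' → i = i'
  hch : ∀ i ∈ K, β (ch i) = bl i ∧ p (ch i) = 0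
  hcp : ∀ i ∈ K, d (ch i) = 1 → β (cp i) = bl i ∧ cp i ≠ ch i ∧ ∀ g, w g i = 0
  hp : ∀ l, p l = 0 → (∃ i ∈ K, l = ch i) ∨
    (d l = 1 ∧ (∀ l', β l' = β l → l' = l) ∧ ∀ i ∈ K, bl i ≠ β l)

variable (L : MLoc I Γ N s)

open Classical in
/-- the exponent of the vanishing variable -/
noncomputable def MLoc.dh (i : I) : ℕ := if i ∈ L.K then L.d (L.ch i) else 1

/-- the weights -/
noncomputable def MLoc.W (g : Γ) (i : I) : ℕ := L.E / L.dh i * L.w g i

/-- the light coordinates -/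
def MLoc.Lam : Finset I := L.K.filter fun i => L.d (L.ch i) = 1

/-- the heavy coordinates -/
def MLoc.Hv : Finset I := L.K.filter fun i => L.d (L.ch i) ≠ 1

open Classical in
/-- the deep points -/
noncomputable def MLoc.pC (C : Finset I) (l : Fin N) : ℂ := if ∃ i ∈ C, L.cp i = l then 0 else L.p l

/-- the value of the other variables of a block -/
def MLoc.kap (i : I) : ℂ :=
  ∏ l ∈ Finset.univ.filter (fun l => L.β l = L.bl i ∧ l ≠ L.ch i), L.p l ^ L.d l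

/-- the data on the side of the monomials -/
noncomputable def MLoc.yl : LF.Loc I Γ s where
  a := L.a
  w := L.W
  V := fun _ => 1
  p := yv L.β L.d L.p
  ha := L.ha
  hp := L.hq
  hV := by intro g; simp

open Classical in
/-- the refined leading coefficients -/
noncomputable def MLoc.lx {n : ℕ} (γ : Fin N × Fin (n + 1) → ℂ) (i : I) : ℂ :=
  if i ∈ L.K then Mon.lead1 (fun j => γ (L.ch i, j)) else LF.lc L.a (yj L.β L.d γ) i

/-- the level of the jets used for the order `n` -/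
noncomputable def MLoc.lv [Fintype I] [Fintype Γ] (n : ℕ) : ℕ := n + L.E + LF.Hb L.W

/-- the contact jets of order `n₁ / E` with `n + 1` levels -/
def MLoc.CX [Fintype I] (C : Finset I) (n₁ n : ℕ) (S : Finset Γ) (t : Γ → ℂ) :
    Set (Fin N × Fin (n + 1) → ℂ) :=
  {γ | (∀ l, γ (l, 0) = L.pC C l) ∧ LF.Sx L.W S (n₁ + 1) (LF.vv L.a (yj L.β L.d γ)) ∧
    (∀ g, g ∉ S → n₁ + 1 ≤ pair (L.W g) fun i => LF.vv L.a (yj L.β L.d γ) i + 1) ∧
    ∀ g ∈ S, ∏ i, L.lx γ i ^ L.w g i = t g}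

/-- the same with conditions on the leading coefficients of the forms along the monomials -/
def MLoc.CR [Fintype I] (C : Finset I) (n₁ n : ℕ) (S R₀ : Finset Γ) :
    Set (Fin N × Fin (n + 1) → ℂ) :=
  {γ | (∀ l, γ (l, 0) = L.pC C l) ∧ LF.Sx L.W S (n₁ + 1) (LF.vv L.a (yj L.β L.d γ)) ∧
    (∀ g, g ∉ S → n₁ + 1 ≤ pair (L.W g) fun i => LF.vv L.a (yj L.β L.d γ) i + 1) ∧
    LF.lc L.a (yj L.β L.d γ) ∈ LF.Th L.W R₀ fun _ => 1}

/-- the generators `f g` have the expected orders and leading coefficients at the deep point -/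
structure MLoc.Gens [Fintype I] (C : Finset I) (f : Γ → MvPolynomial (Fin N) ℂ) (V : Γ → ℂ) :
    Prop where
  hV : ∀ g, V g ≠ 0
  lt_iff : ∀ (n : ℕ) (γ : Fin N × Fin (n + 1) → ℂ), (∀ l, γ (l, 0) = L.pC C l) →
    ∀ (g : Γ) (k : ℕ), L.E * k ≤ n + 1 → ((∀ l < k, (along (f g) γ).coeff l = 0) ↔
      L.E * k ≤ pair (L.W g) fun i => LF.vv L.a (yj L.β L.d γ) i + 1)
  coeff : ∀ (n : ℕ) (γ : Fin N × Fin (n + 1) → ℂ), (∀ l, γ (l, 0) = L.pC C l) →
    ∀ (g : Γ) (k : ℕ), (pair (L.W g) fun i => LF.vv L.a (yj L.β L.d γ) i + 1) = L.E * k →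
      L.E * k ≤ n → (along (f g) γ).coeff k = V g * ∏ i, L.lx γ i ^ L.w g i

open Classical in
/-- The Euler characteristic of the fibres over the jets of the monomials with orders `v`; the
leading coefficients of the variables with index in `A` are prescribed. -/
noncomputable def MLoc.wt (C A : Finset I) (n : ℕ) (v : I → ℕ) : ℤ :=
  (∏ i ∈ A, if L.d (L.ch i) ∣ v i + 1 then 1 else 0) *
    (∏ i ∈ (L.K \ C) \ A,
      if v i < n then (if L.d (L.ch i) ∣ v i + 1 then (L.d (L.ch i) : ℤ) else 0) else 1) *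
    ∏ i ∈ C, if v i < n then 0 else 1

/-- jets of the monomials with orders `v` and leading coefficients of the variables with index
in `A` -/
def MLoc.YV (A : Finset I) (n : ℕ) (v : I → ℕ) (R : Set (I ⊕ I → ℂ)) :
    Set ((Fin s × Fin (n + 1)) ⊕ I → ℂ) :=
  {z | (∀ k, z (Sum.inl (k, 0)) = yv L.β L.d L.p k) ∧
    LF.vv L.a (fun q => z (Sum.inl q)) = v ∧
    (∀ i ∈ A, L.kap i * z (Sum.inr i) ^ L.d (L.ch i) = LF.lc L.a (fun q => z (Sum.inl q)) i) ∧
    (∀ i, i ∉ A → z (Sum.inr i) = 1) ∧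
    Sum.elim (fun i => z (Sum.inr i)) (LF.lc L.a fun q => z (Sum.inl q)) ∈ R}

open Classical in
/-- the coordinates in `K` which occur in the generators with index in `S` -/
noncomputable def MLoc.Act (S : Finset Γ) : Finset I := L.K.filter fun i => ∃ g ∈ S, L.w g i ≠ 0

open Classical in
/-- the support of the generators with index in `S` -/
noncomputable def sup [Fintype I] (w : Γ → I → ℕ) (S : Finset Γ) : Finset I :=
  Finset.univ.filter fun i => ∃ g ∈ S, w g i ≠ 0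

open Classical in
/-- the conditions on the leading coefficients -/
def MLoc.Rt [Fintype I] (S : Finset Γ) (t : Γ → ℂ) : Set (I ⊕ I → ℂ) :=
  {z | ∀ g ∈ S, ∏ i, (if i ∈ L.K then z (Sum.inl i) else z (Sum.inr i)) ^ L.w g i = t g}

/-- jets of the monomials with `vv = m < n` on `D`, and the leading coefficients of the
variables -/
def MLoc.YK [Fintype I] (n : ℕ) (S : Finset Γ) (D : Finset I) (m : I → ℕ) (t : Γ → ℂ) :
    Set ((Fin s × Fin (n + 1)) ⊕ I → ℂ) :=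
  {z | (fun q => z (Sum.inl q)) ∈ LF.YS L.yl n D D m Set.univ ∧
    (∀ i ∈ L.Act S,
      L.kap i * z (Sum.inr i) ^ L.d (L.ch i) = LF.lc L.a (fun q => z (Sum.inl q)) i) ∧
    (∀ i, i ∉ L.Act S → z (Sum.inr i) = 1) ∧
    Sum.elim (fun i => z (Sum.inr i)) (LF.lc L.a fun q => z (Sum.inl q)) ∈ L.Rt S t}

/-- the leading coefficients -/
def MLoc.XK [Fintype I] (B : Finset I) (x : I → ℕ) (S : Finset Γ) (D : Finset I) (t : Γ → ℂ) :
    Set (B ⊕ I → ℂ) :=
  {z | (∀ i ∈ D, LF.ci L.a B x (fun b => z (Sum.inl b)) i ≠ 0) ∧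
    (∀ i ∈ L.Act S,
      L.kap i * z (Sum.inr i) ^ L.d (L.ch i) = LF.ci L.a B x (fun b => z (Sum.inl b)) i) ∧
    (∀ i, i ∉ L.Act S → z (Sum.inr i) = 1) ∧
    Sum.elim (fun i => z (Sum.inr i)) (LF.ci L.a B x fun b => z (Sum.inl b)) ∈ L.Rt S t}

/-- `d - 1` if `d` divides `c`, and `-1` otherwise -/
def om (d c : ℕ) : ℤ := if d ∣ c then (d : ℤ) - 1 else -1

open Classical in
/-- the set of exact indices belonging to `Q` -/
noncomputable def MLoc.DQ [Fintype I] (S : Finset Γ) (Q : Finset I) : Finset I :=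
  sup L.W S ∪ Q ∪ L.Lam

open Classical in
/-- the Euler characteristic of the contact jets, on the side of the monomials -/
noncomputable def MLoc.Hn [Fintype I] [Fintype Γ] (χ : K0 →+* ℤ) (S R₀ : Finset Γ)
    (n₁ : ℕ) : ℤ :=
  ∑ v ∈ Fintype.piFinset fun _ : I => Finset.range (L.lv n₁ + 1),
    if LF.Sx L.W S (n₁ + 1) v ∧ LF.UC L.W Sᶜ (n₁ + 1) v then
      (∏ i ∈ L.Lam, if v i < L.lv n₁ then 1 else 0) *
        (∏ i ∈ L.Hv, if v i < L.lv n₁ then
          (if L.d (L.ch i) ∣ v i + 1 then (L.d (L.ch i) : ℤ) else 0) else 1) *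
        χ (cls {γ : Fin s × Fin (L.lv n₁ + 1) → ℂ | (∀ k, γ (k, 0) = yv L.β L.d L.p k) ∧
          LF.vv L.a γ = v ∧ LF.lc L.a γ ∈ LF.Th L.W R₀ fun _ => 1})
    else 0

open Classical in
/-- the summands of `Hn` after Moebius inversion -/
noncomputable def MLoc.FQ [Fintype I] [Fintype Γ] (χ : K0 →+* ℤ) (S R₀ : Finset Γ)
    (𝒯 : Set (Finset Γ)) (Q : Finset I) (n₁ : ℕ) : ℤ :=
  ∑ mh ∈ Fintype.piFinset fun _ : I => Finset.range (L.lv n₁ + 1),
    if (∀ i, LF.clo L.a Finset.univ mh i = mh i) ∧ LF.Sx L.W S (n₁ + 1) mh ∧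
        LF.TT L.W Sᶜ (n₁ + 1) mh ∈ 𝒯 ∧ ∀ i ∈ L.DQ S Q, mh i < L.lv n₁ then
      LF.al L.a (L.DQ S Q) (LF.ucf L.W Sᶜ (n₁ + 1)) mh * (∏ i ∈ Q, om (L.d (L.ch i)) (mh i + 1)) *
        χ (cls (LF.YS L.yl (L.lv n₁) Finset.univ (L.DQ S Q) mh (LF.Th L.W R₀ fun _ => 1)))
    else 0

/-- the directions of the strata in `F2` -/
def VVX [Fintype I] [Fintype Γ] (a : I → Fin s → ℂ) (w : Γ → I → ℕ) (S R₀ : Finset Γ)
    (D : Finset I) : Set (I → ℕ) :=
  {v | (∀ i ∈ D, 0 < v i) ∧ Prim v ∧ (∀ i, LF.clo a D v i = v i) ∧ LF.Fc w v = S ∧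
    LF.Sep w R₀ (LF.LinM a D v)}

open Classical in
/-- the coefficients of the weighted generating function -/
noncomputable def GX [Fintype I] [Fintype Γ] {R : Type*} [CommRing R] (a : I → Fin s → ℂ)
    (w : Γ → I → ℕ) (S : Finset Γ) (X : Finset I) (𝒯 : Set (Finset Γ))
    (φ : Finset I → (I → ℕ) → R) (ρ : I → R) (lv : ℕ → ℕ) (K : ℕ) : R :=
  ∑ mh ∈ Fintype.piFinset (fun _ : I => Finset.range (lv K + 1)),
    if (∀ i, LF.clo a Finset.univ mh i = mh i) ∧ LF.Sx w S K mh ∧ LF.TT w Sᶜ K mh ∈ 𝒯 ∧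
        ∀ i ∈ sup w S ∪ X, mh i < lv K then
      (LF.al a (sup w S ∪ X) (LF.ucf w Sᶜ K) mh : R) *
        φ (LF.DT w (sup w S ∪ X) (LF.TT w Sᶜ K mh)) mh * wtm ρ (fun i => mh i + 1)
    else 0

/-- a root of unity -/
noncomputable def zt (x : ℚ) : ℂ := Complex.exp (2 * Real.pi * Complex.I * x)

open Classical in
/-- the characters: `1 ≤ ψ i < d_i` for `i ∈ Q`, and `ψ i = 0` otherwise -/
noncomputable def MLoc.Ps [Fintype I] (Q : Finset I) : Finset (I → ℕ) :=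
  (Fintype.piFinset fun i => Finset.range (L.dh i + 1)).filter fun ψ =>
    (∀ i ∈ Q, 1 ≤ ψ i ∧ ψ i < L.dh i) ∧ ∀ i, i ∉ Q → ψ i = 0

/-- the phase of a character at a vector -/
noncomputable def MLoc.ph [Fintype I] (ψ v : I → ℕ) : ℚ := ∑ i, (ψ i : ℚ) * v i / L.dh i

open Classical in
/-- local resonant triples -/
structure MLoc.LRes [Fintype I] [Fintype Γ] (lam : ℂ) (Q : Finset I) (ψ u : I → ℕ) : Prop where
  hQ : Q ⊆ L.Hv
  hpsi : ψ ∈ L.Ps Q
  prim : Prim u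
  ess : EssX L.a L.W (Q ∪ L.Lam) u
  eq : lam ^ LF.mn L.W u * zt (L.ph ψ u) = 1

end LFM
end MotMono
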