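import Pool.Agent.Lib.MP_4e5fcd_ag.LFM.X2
import Pool.Agent.Lib.MP_4e5fcd_ag.LF.C1
import Pool.Agent.Lib.MP_4e5fcd_ag.LF.B1

/-!
# LFM-C1: cone points and contact jets

As LF/C1 (copy its proof). `J := Ideal.span (Set.range f)`.
`pair_dvd`: if `pair (W g) (vv + 1) ≤ n` then `vv i < n` for all `i` with `W g i ≠ 0`, and `E` divides the sum:
for `i ∈ K`, `w g i ≠ 0`: `W g i * (vv i + 1) = E / d * w g i * (vv i + 1)` and `d ∣ vv i + 1` (`hdiv`), `d ∣ E`; for
`i ∉ K`: `W g i = E * w g i`. Consequence: for `γ` with `n + 1` levels over `pC C` and `E (m + 1) ≤ n + 1`: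
`E m + 1 ≤ pair` implies `E (m + 1) ≤ pair` (either `pair ≤ n` and `E ∣ pair`, or `pair ≥ n + 1`), and
`E m ≤ pair`, not `E (m + 1) ≤ pair` imply `pair = E m`.
Let `γ₀ ∈ CX C (E m₀) n₀ S t`: all `F ∈ J` vanish to order `≥ m₀` along `γ₀` (`hG.lt_iff`, `k = m₀`, for the
generators, then as `LF.along_J_lt`).
`Det/M7.exists_conePoint_curve` gives `y` with `y.φ 1 F = (along F γ₀).coeff m₀` for `F ∈ J`.
For `m ≥ 1`, `E (m + 1) ≤ n + 1` and `γ` with `n + 1` levels, `γ'` its truncation to `m + 1` levels: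
the coefficients `≤ m` of `along F γ` and `along F γ'` agree. `γ' ∈ contactArcs J p y m` iff `γ ∈ CX C (E m) n S t`:
as in LF/C1: for `g ∈ S`: the coefficients `< m` of `along (f g) γ` vanish and the coefficient `m` is
`V g * t g ≠ 0`: iff `E m ≤ pair`, not `E (m + 1) ≤ pair`, so `pair = E m` (`pair_dvd`) and `hG.coeff`.
-/

open MvPolynomial

namespace MotMono
namespace LFM

variable {I Γ : Type} [Fintype I] [Fintype Γ] {N s : ℕ} (L : MLoc I Γ N s)

theorem pair_dvd {n : ℕ} {v : I → ℕ} (hdiv : ∀ i ∈ L.K, v i < n → ∀ g, L.w g i ≠ 0 →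
      L.d (L.ch i) ∣ v i + 1) (g : Γ)
    (h : (pair (L.W g) fun i => v i + 1) ≤ n) : L.E ∣ pair (L.W g) fun i => v i + 1 := by
  classical
  unfold pair at h ⊢
  refine Finset.dvd_sum fun i _ => ?_
  by_cases hw : L.w g i = 0
  · have : L.W g i = 0 := by
      unfold MLoc.W
      rw [hw, mul_zero]
    rw [this, zero_mul]
    exact dvd_zero _
  · by_cases hi : i ∈ L.K
    · have hdE := L.hdE i hi
      have hdh : L.dh i = L.d (L.ch i) := by
        unfold MLoc.dh
        rw [if_pos hi]
      obtain ⟨e, he⟩ := hdE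
      have hdp : 0 < L.d (L.ch i) := L.hd _
      have hE := L.hE
      have he0 : 0 < e := by
        rcases Nat.eq_zero_or_pos e with h0 | h0
        · rw [h0, mul_zero] at he
          omega
        · exact h0
      have hW : L.W g i = e * L.w g i := by
        unfold MLoc.W
        rw [hdh, he, Nat.mul_div_cancel_left _ hdp]
      have hWpos : 0 < L.W g i := by
        rw [hW]
        exact Nat.mul_pos he0 (Nat.pos_of_ne_zero hw)
      have h1 : L.W g i * (v i + 1) ≤ ∑ i, L.W g i * (v i + 1) :=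
        Finset.single_le_sum (f := fun i => L.W g i * (v i + 1)) (fun _ _ => Nat.zero_le _)
          (Finset.mem_univ i)
      have h2 : v i + 1 ≤ L.W g i * (v i + 1) := Nat.le_mul_of_pos_left _ hWpos
      have h3 : v i < n := by
        have h4 := h
        simp only at h4
        omega
      obtain ⟨k, hk⟩ := hdiv i hi h3 g hw
      show L.E ∣ L.W g i * (v i + 1)
      rw [hW, hk, he]
      exact ⟨L.w g i * k, by ring⟩
    · have hW : L.W g i = L.E * L.w g i := by
        unfold MLoc.W MLoc.dh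
        rw [if_neg hi, Nat.div_one]
      show L.E ∣ L.W g i * (v i + 1)
      rw [hW, mul_assoc]
      exact dvd_mul_right _ _

/-- the truncation of a jet -/
def trunc {N m n : ℕ} (h : m ≤ n) (γ : Fin N × Fin (n + 1) → ℂ) : Fin N × Fin (m + 1) → ℂ :=
  fun q => γ (q.1, Fin.castLE (Nat.succ_le_succ h) q.2)

theorem along_trunc {m n : ℕ} (h : m ≤ n) (γ : Fin N × Fin (n + 1) → ℂ)
    (F : MvPolynomial (Fin N) ℂ) (e : ℕ) (he : e ≤ m) :
    (along F (trunc h γ)).coeff e = (along F γ).coeff e := by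
  revert e
  induction F using MvPolynomial.induction_on with
  | C a =>
    intro e _
    rw [along, along, aeval_C, aeval_C]
  | add p q hp hq =>
    intro e he
    have h1 : along (p + q) γ = along p γ + along q γ := map_add _ _ _
    have h2 : along (p + q) (trunc h γ) = along p (trunc h γ) + along q (trunc h γ) :=
      map_add _ _ _
    rw [h1, h2, Polynomial.coeff_add, Polynomial.coeff_add, hp e he, hq e he]
  | mul_X p i hp =>
    intro e he
    have h1 : along (p * X i) γ = along p γ * arc γ i := by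
      rw [along, map_mul, aeval_X]
      rfl
    have h2 : along (p * X i) (trunc h γ) = along p (trunc h γ) * arc (trunc h γ) i := by
      rw [along, map_mul, aeval_X]
      rfl
    rw [h1, h2, Polynomial.coeff_mul, Polynomial.coeff_mul]
    refine Finset.sum_congr rfl fun x hx => ?_
    have hx' := Finset.HasAntidiagonal.mem_antidiagonal.1 hx
    have e1 : x.1 ≤ m := by omega
    have e2 : x.2 < m + 1 := by omega
    have e3 : x.2 < n + 1 := by omega
    rw [hp x.1 e1, a1_arc_coeff, a1_arc_coeff, dif_pos e2, dif_pos e3]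
    rfl

/-- the elements of the ideal vanish to the same order as the generators -/
private theorem c1_span {n K : ℕ} (γ : Fin N × Fin (n + 1) → ℂ)
    (f : Γ → MvPolynomial (Fin N) ℂ) (hg : ∀ g, ∀ l < K, (along (f g) γ).coeff l = 0) :
    ∀ F ∈ Ideal.span (Set.range f), ∀ l < K, (along F γ).coeff l = 0 := by
  intro F hF
  have hF' : F ∈ Submodule.span (MvPolynomial (Fin N) ℂ) (Set.range f) := hF
  clear hF
  induction hF' using Submodule.span_induction with
  | mem x hx =>
    obtain ⟨g, rfl⟩ := hx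
    exact hg g
  | zero =>
    intro l _
    simp [along]
  | add x z hx hz ihx ihz =>
    intro l hl
    have h1 : along (x + z) γ = along x γ + along z γ := map_add _ _ _
    rw [h1, Polynomial.coeff_add, ihx l hl, ihz l hl, add_zero]
  | smul q x hx ihx =>
    have hd : (Polynomial.X : Polynomial ℂ) ^ K ∣ along x γ := Polynomial.X_pow_dvd_iff.mpr ihx
    have h1 : along (q • x) γ = along q γ * along x γ := by
      unfold along
      rw [smul_eq_mul, map_mul]
    rw [h1]
    exact Polynomial.X_pow_dvd_iff.mp (Dvd.dvd.mul_left hd _)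

/-- the arithmetic of the orders -/
private theorem c1_next {n m : ℕ} {v : I → ℕ} (hdiv : ∀ i ∈ L.K, v i < n → ∀ g, L.w g i ≠ 0 →
      L.d (L.ch i) ∣ v i + 1) (g : Γ) (hm : L.E * (m + 1) ≤ n + 1)
    (h : L.E * m + 1 ≤ pair (L.W g) fun i => v i + 1) :
    L.E * (m + 1) ≤ pair (L.W g) fun i => v i + 1 := by
  by_cases h1 : (pair (L.W g) fun i => v i + 1) ≤ n
  · obtain ⟨k, hk⟩ := pair_dvd L hdiv g h1
    rw [hk] at h ⊢
    have h2 : m < k := by
      by_contra hlt
      push Not at hlt
      have := Nat.mul_le_mul_left L.E hlt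
      omega
    exact Nat.mul_le_mul_left _ h2
  · omega

theorem exists_cone {C : Finset I} (f : Γ → MvPolynomial (Fin N) ℂ) (V : Γ → ℂ)
    (hG : L.Gens C f V)
    (hdiv : ∀ (n : ℕ) (γ : Fin N × Fin (n + 1) → ℂ), (∀ l, γ (l, 0) = L.pC C l) →
      ∀ i ∈ L.K, LF.vv L.a (yj L.β L.d γ) i < n → ∀ g, L.w g i ≠ 0 →
        L.d (L.ch i) ∣ LF.vv L.a (yj L.β L.d γ) i + 1)
    (S : Finset Γ) (hS : S.Nonempty) (t : Γ → ℂ) (ht : ∀ g ∈ S, t g ≠ 0) {m₀ n₀ : ℕ}
    (hm₀ : 1 ≤ m₀) (hn₀ : L.E * (m₀ + 1) ≤ n₀ + 1) (hne : (L.CX C (L.E * m₀) n₀ S t).Nonempty) :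
    ∃ y : ConePoint (Ideal.span (Set.range f)) (L.pC C), y.Nonzero ∧
      ∀ (m : ℕ), 1 ≤ m → ∀ (n : ℕ) (hmn : m ≤ n), L.E * (m + 1) ≤ n + 1 →
        ∀ γ : Fin N × Fin (n + 1) → ℂ,
          trunc hmn γ ∈ contactArcs (Ideal.span (Set.range f)) (L.pC C) y m ↔
            γ ∈ L.CX C (L.E * m) n S t := by
  obtain ⟨γ₀, hγ0, hS0, hT0, hlc0⟩ := hne
  have hE := L.hE
  -- levels
  have hlev : ∀ {m n : ℕ}, L.E * (m + 1) ≤ n + 1 → L.E * m ≤ n := by
    intro m n h
    rw [mul_add, mul_one] at h
    omega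
  -- orders of the generators along a jet in CX
  have hord : ∀ {m n : ℕ} {γ : Fin N × Fin (n + 1) → ℂ}, L.E * (m + 1) ≤ n + 1 →
      (∀ l, γ (l, 0) = L.pC C l) →
      LF.Sx L.W S (L.E * m + 1) (LF.vv L.a (yj L.β L.d γ)) →
      (∀ g, g ∉ S → L.E * m + 1 ≤ pair (L.W g) fun i => LF.vv L.a (yj L.β L.d γ) i + 1) →
      ∀ F ∈ Ideal.span (Set.range f), ∀ l < m, (along F γ).coeff l = 0 := by
    intro m n γ hmn h0 h1 h2 F hF
    refine c1_span γ f (fun g => ?_) F hF
    have := hlev hmn
    rw [hG.lt_iff n γ h0 g m (by omega)]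
    by_cases hg : g ∈ S
    · have := h1 g hg
      omega
    · have := h2 g hg
      omega
  have h := hord hn₀ hγ0 hS0 hT0
  have hp : (fun i => (arc γ₀ i).eval 0) = L.pC C := by
    funext i
    rw [← hγ0 i, ← Polynomial.coeff_zero_eq_eval_zero]
    have h1 := LF.coeff_along_zero (γ := γ₀) (X i)
    rw [eval_X] at h1
    rw [← h1]
    unfold along
    rw [aeval_X]
  have key : ∃ y : ConePoint (Ideal.span (Set.range f)) (L.pC C),
      ∀ F ∈ Ideal.span (Set.range f), y.φ 1 F = (along F γ₀).coeff m₀ := by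
    rw [← hp]
    exact exists_conePoint_curve (Ideal.span (Set.range f)) (arc γ₀) m₀ h
  obtain ⟨y, hy⟩ := key
  have hmem : ∀ g, f g ∈ Ideal.span (Set.range f) := fun g => Ideal.subset_span ⟨g, rfl⟩
  have hin : ∀ g ∈ S, y.φ 1 (f g) = V g * t g := by
    intro g hg
    rw [hy _ (hmem g), hG.coeff n₀ γ₀ hγ0 g m₀ (by have := hS0 g hg; omega) (hlev hn₀)]
    rw [hlc0 g hg]
  have hout0 : ∀ g, g ∉ S → (along (f g) γ₀).coeff m₀ = 0 := by
    intro g hg
    exact (hG.lt_iff n₀ γ₀ hγ0 g (m₀ + 1) hn₀).2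
      (c1_next L (hdiv n₀ γ₀ hγ0) g hn₀ (hT0 g hg)) m₀ (Nat.lt_succ_self m₀)
  have hout : ∀ g, g ∉ S → y.φ 1 (f g) = 0 := by
    intro g hg
    rw [hy _ (hmem g)]
    exact hout0 g hg
  refine ⟨y, ?_, fun m hm n hmn hn γ => ?_⟩
  · obtain ⟨g, hg⟩ := hS
    exact ⟨f g, hmem g, by rw [hin g hg]; exact mul_ne_zero (hG.hV g) (ht g hg)⟩
  · have hmE := hlev hn
    constructor
    · rintro ⟨h0', hc'⟩
      have h0 : ∀ l, γ (l, 0) = L.pC C l := h0'
      have hc : ∀ F ∈ Ideal.span (Set.range f), (∀ l < m, (along F γ).coeff l = 0) ∧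
          (along F γ).coeff m = y.φ 1 F := by
        intro F hF
        obtain ⟨hc1, hc2⟩ := hc' F hF
        refine ⟨fun l hl => ?_, ?_⟩
        · rw [← along_trunc hmn γ F l hl.le]
          exact hc1 l hl
        · rw [← along_trunc hmn γ F m le_rfl]
          exact hc2
      have hin' : ∀ g ∈ S, (pair (L.W g) fun i => LF.vv L.a (yj L.β L.d γ) i + 1) =
          L.E * m := by
        intro g hg
        obtain ⟨hc1, hc2⟩ := hc _ (hmem g)
        have h1 := (hG.lt_iff n γ h0 g m (by omega)).1 hc1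
        have h2 : ¬ L.E * (m + 1) ≤ pair (L.W g) fun i => LF.vv L.a (yj L.β L.d γ) i + 1 := by
          intro h2
          have h3 := (hG.lt_iff n γ h0 g (m + 1) hn).2 h2 m (Nat.lt_succ_self m)
          rw [h3, hin g hg] at hc2
          exact mul_ne_zero (hG.hV g) (ht g hg) hc2.symm
        by_contra hne
        exact h2 (c1_next L (hdiv n γ h0) g hn (by omega))
      refine ⟨h0, fun g hg => ?_, fun g hg => ?_, fun g hg => ?_⟩
      · rw [hin' g hg]
      · have h1 : L.E * (m + 1) ≤ pair (L.W g) fun i => LF.vv L.a (yj L.β L.d γ) i + 1 := by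
          rw [← hG.lt_iff n γ h0 g (m + 1) hn]
          intro l hl
          rcases Nat.lt_succ_iff_lt_or_eq.mp hl with hl | rfl
          · exact (hc _ (hmem g)).1 l hl
          · rw [(hc _ (hmem g)).2, hout g hg]
        rw [mul_add, mul_one] at h1
        omega
      · have h1 := (hc _ (hmem g)).2
        rw [hG.coeff n γ h0 g m (hin' g hg) hmE, hin g hg] at h1
        exact mul_left_cancel₀ (hG.hV g) h1
    · rintro ⟨h0, h1, h2, h3⟩
      have hlt := hord hn h0 h1 h2
      have hout' : ∀ g, g ∉ S → (along (f g) γ).coeff m = 0 := by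
        intro g hg
        exact (hG.lt_iff n γ h0 g (m + 1) hn).2
          (c1_next L (hdiv n γ h0) g hn (h2 g hg)) m (Nat.lt_succ_self m)
      refine ⟨h0, fun F hF => ⟨fun l hl => ?_, ?_⟩⟩
      · rw [along_trunc hmn γ F l hl.le]
        exact hlt F hF l hl
      rw [along_trunc hmn γ F m le_rfl, hy F hF]
      have hz : ∀ (q : MvPolynomial (Fin N) ℂ), (along q γ).coeff 0 = (along q γ₀).coeff 0 := by
        intro q
        rw [LF.coeff_along_zero, LF.coeff_along_zero]
        congr 2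
        funext j
        rw [h0 j, hγ0 j]
      have hF' : F ∈ Submodule.span (MvPolynomial (Fin N) ℂ) (Set.range f) := hF
      clear hF
      induction hF' using Submodule.span_induction with
      | mem x hx =>
        obtain ⟨g, rfl⟩ := hx
        by_cases hg : g ∈ S
        · rw [hG.coeff n γ h0 g m (by have := h1 g hg; omega) hmE,
            hG.coeff n₀ γ₀ hγ0 g m₀ (by have := hS0 g hg; omega) (hlev hn₀),
            h3 g hg, hlc0 g hg]
        · rw [hout' g hg, hout0 g hg]
      | zero => simp [along]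
      | add x z hx hz' ihx ihz =>
        have e3 : along (x + z) γ = along x γ + along z γ := map_add _ _ _
        have e4 : along (x + z) γ₀ = along x γ₀ + along z γ₀ := map_add _ _ _
        rw [e3, e4, Polynomial.coeff_add, Polynomial.coeff_add, ihx, ihz]
      | smul q x hx ihx =>
        have hd1 : (Polynomial.X : Polynomial ℂ) ^ m ∣ along x γ :=
          Polynomial.X_pow_dvd_iff.mpr (hlt x hx)
        have hd2 : (Polynomial.X : Polynomial ℂ) ^ m₀ ∣ along x γ₀ :=
          Polynomial.X_pow_dvd_iff.mpr (h x hx)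
        have e2 := m7_coeff (F := along q γ) (a := 0) (by rw [pow_zero]; exact one_dvd _) hd1
        have e3 := m7_coeff (F := along q γ₀) (a := 0) (by rw [pow_zero]; exact one_dvd _) hd2
        rw [zero_add] at e2 e3
        have e4 : along (q • x) γ = along q γ * along x γ := by
          unfold along
          rw [smul_eq_mul, map_mul]
        have e5 : along (q • x) γ₀ = along q γ₀ * along x γ₀ := by
          unfold along
          rw [smul_eq_mul, map_mul]
        rw [e4, e5, e2, e3, ihx, hz q]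

end LFM
end MotMono
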