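import Pool.Agent.Lib.MP_4e5fcd_ag.LFM.X3a
import Pool.Agent.Lib.MP_4e5fcd_ag.Mon.G2

/-!
# LFM-X3b: jets over a deep point: orders of the variables

`A1` is the set of the fixed points in `chi_A0_fixed`.
`ord_block`: let `i ∈ K`, `γ (l, 0) = pC l` for all `l`, `i ∉ C`. Let `r = Mon.ord1 (fun j => γ (ch i, j))` (`n + 1`
if this is zero). The other variables `l` of the block `bl i` have `γ (l, 0) = p l ≠ 0` (`p_ne_zero`;
`cp i'`, `i' ∈ C`, is in another block). `Mon.zc_lt`, `Mon.zc_eq` for `o (ch i) = r`, `o = 0` elsewhere: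
`yj (bl i, e) = 0` for `e < d r` and, if `d r ≤ n`, `yj (bl i, d r) = kap i * (lead1 ..) ^ d ≠ 0`
(`Mon.nuv β d o (bl i) = d r`). So (`vv_single`, `r ≥ 1`): `vv i = v i < n` iff `d r ≤ n`, and then `v i + 1 = d r`,
`lc i = kap i * lead1 ^ d`.
`A1_empty`: if `i ∈ C`, then `γ (ch i, ·) = 0`, so `yj (bl i, ·) = 0` (`yj_eq_zero`) and `vv i = n`
(`vv_single`), a contradiction to `v i < n`. If `i ∈ K \ C`, `v i < n`, then `d ∣ v i + 1` by `ord_block`.
`A1_eq`: `γ ∈ A1`: orders: `l = ch i`, `i ∈ C` or `n ≤ v i`: `γ (l, ·) = 0`, `o l = n + 1`; `i ∈ K \ C`, `v i < n`: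
`o l = (v i + 1) / d`, `ord_block`; `l = cp i`, `i ∈ C`: `0`, `o l = n + 1`; other `l`: if `p l = 0` then `l ∈ Fr`,
`o l = 1`, `γ (l, 0) = 0`; if `p l ≠ 0` then `o l = 0`, `γ (l, 0) = p l ≠ 0`. The conditions are then the ones
in `QV`: `lead1 (γ (ch i, ·)) = Mon.lc o γ (ch i)` for `i ∈ A`. Conversely for `γ ∈ Yset Fr o (n + 1)` with
`Sum.elim (lc o γ) (yj γ) ∈ QV` the base point is `pC C`.
-/

open MvPolynomial

namespace MotMono
namespace LFM

variable {I Γ : Type} [Fintype I] {N s : ℕ} (L : MLoc I Γ N s)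

open Classical in
/-- the fixed points -/
noncomputable def MLoc.A1 (C A : Finset I) (n : ℕ) (v : I → ℕ) (R : Set (I ⊕ I → ℂ)) :
    Set (Fin N × Fin (n + 1) → ℂ) :=
  {γ | γ ∈ L.A0 C A n v R ∧
      ∀ i ∈ L.K, i ∈ C ∨ n ≤ v i → (∀ j, γ (L.ch i, j) = 0) ∧ (i ∈ C → ∀ j, γ (L.cp i, j) = 0)}

open Classical in
/-- the orders of the variables -/
noncomputable def MLoc.oV (C : Finset I) (n : ℕ) (v : I → ℕ) (l : Fin N) : ℕ :=
  if h : ∃ i ∈ L.K, L.ch i = l then
    (if h.choose ∈ C ∨ n ≤ v h.choose then n + 1 else (v h.choose + 1) / L.d l)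
  else if ∃ i ∈ C, L.cp i = l then n + 1 else if L.p l = 0 then 1 else 0

open Classical in
/-- the plain variables which vanish at the point -/
noncomputable def MLoc.Fr : Finset (Fin N) :=
  Finset.univ.filter fun l => L.p l = 0 ∧ ∀ i ∈ L.K, L.ch i ≠ l

open Classical in
/-- the conditions -/
noncomputable def MLoc.QV (C A : Finset I) (n : ℕ) (v : I → ℕ) (R : Set (I ⊕ I → ℂ)) :
    Set (Fin N ⊕ Fin s × Fin (n + 1) → ℂ) :=
  {z | (∀ l, L.oV C n v l = 0 → z (Sum.inl l) = L.p l) ∧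
    (∀ k, z (Sum.inr (k, 0)) = yv L.β L.d L.p k) ∧ LF.vv L.a (fun q => z (Sum.inr q)) = v ∧
    Sum.elim (fun i => if i ∈ A then z (Sum.inl (L.ch i)) else 1)
      (LF.lc L.a fun q => z (Sum.inr q)) ∈ R}

/-- the polynomial whose value at `γ` is `a ⬝ᵥ lev γ l` -/
private noncomputable def x3bP {n : ℕ} (a : Fin s → ℂ) (l : Fin (n + 1)) :
    MvPolynomial (Fin N ⊕ Fin s × Fin (n + 1)) ℂ := ∑ j, C (a j) * X (Sum.inr (j, l))

private theorem x3bP_eval {n : ℕ} (a : Fin s → ℂ) (l : Fin (n + 1))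
    (z : Fin N ⊕ Fin s × Fin (n + 1) → ℂ) :
    eval z (x3bP a l) = a ⬝ᵥ lev (fun q => z (Sum.inr q)) l := by
  simp [x3bP, dotProduct, lev]

theorem constr_QV (C A : Finset I) (n : ℕ) (v : I → ℕ) {R : Set (I ⊕ I → ℂ)} (hR : Constr R) :
    Constr (L.QV C A n v R) := by
  classical
  have h1 : Constr {z : Fin N ⊕ Fin s × Fin (n + 1) → ℂ |
      ∀ l, L.oV C n v l = 0 → z (Sum.inl l) = L.p l} := by
    have : {z : Fin N ⊕ Fin s × Fin (n + 1) → ℂ |
        ∀ l, L.oV C n v l = 0 → z (Sum.inl l) = L.p l} =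
        ⋂ l : {l // L.oV C n v l = 0}, {z | eval z (X (Sum.inl l.1)) =
          eval z (MvPolynomial.C (L.p l.1))} := by
      ext z
      simp
    rw [this]
    exact constr_iInter fun l => constr_eq _ _
  have h2 : Constr {z : Fin N ⊕ Fin s × Fin (n + 1) → ℂ |
      ∀ k, z (Sum.inr (k, 0)) = yv L.β L.d L.p k} := by
    have : {z : Fin N ⊕ Fin s × Fin (n + 1) → ℂ |
        ∀ k, z (Sum.inr (k, 0)) = yv L.β L.d L.p k} =
        ⋂ k, {z | eval z (X (Sum.inr (k, 0))) =
          eval z (MvPolynomial.C (yv L.β L.d L.p k))} := by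
      ext z
      simp
    rw [this]
    exact constr_iInter fun l => constr_eq _ _
  have h3 := (LF.constr_vv (n := n) L.a v).comp (Sum.inr : _ → Fin N ⊕ Fin s × Fin (n + 1))
  let G : I ⊕ I → MvPolynomial (Fin N ⊕ Fin s × Fin (n + 1)) ℂ :=
    Sum.elim (fun i => if i ∈ A then X (Sum.inl (L.ch i)) else 1)
      fun i => if h : v i < n then x3bP (L.a i) (Fin.succ ⟨v i, h⟩) else 1
  have h4 := hR.preimage G
  have h5 := ((h1.inter h2).inter h3).inter h4
  have : L.QV C A n v R = ((({z : Fin N ⊕ Fin s × Fin (n + 1) → ℂ |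
      ∀ l, L.oV C n v l = 0 → z (Sum.inl l) = L.p l} ∩
      {z | ∀ k, z (Sum.inr (k, 0)) = yv L.β L.d L.p k}) ∩
      {z | (fun q => z (Sum.inr q)) ∈ {γ | LF.vv L.a γ = v}}) ∩
      {z | (fun j => eval z (G j)) ∈ R}) := by
    ext z
    unfold MLoc.QV
    simp only [Set.mem_ofPred_eq, Set.mem_inter_iff, and_assoc]
    refine and_congr_right fun _ => and_congr_right fun _ => and_congr_right fun h => ?_
    have h6 : (Sum.elim (fun i => if i ∈ A then z (Sum.inl (L.ch i)) else 1)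
        (LF.lc L.a fun q => z (Sum.inr q))) = fun j => eval z (G j) := by
      funext i
      rcases i with i | i
      · simp only [Sum.elim_inl, G]
        split_ifs <;> simp
      · simp only [Sum.elim_inr, G]
        subst h
        by_cases hi : LF.vv L.a (fun q => z (Sum.inr q)) i < n
        · rw [LF.lc_eq hi, dif_pos hi, x3bP_eval]
        · rw [dif_neg hi, LF.lc, dif_neg hi, map_one]
    rw [h6]
  rw [this]
  exact h5

private theorem x3b_ch {i i' : I} (hi : i ∈ L.K) (hi' : i' ∈ L.K) (h : L.ch i = L.ch i') :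
    i = i' := by
  refine L.hbl i hi i' hi' ?_
  rw [← (L.hch i hi).1, ← (L.hch i' hi').1, h]

private theorem x3b_LamK {i : I} (hi : i ∈ L.Lam) : i ∈ L.K ∧ L.d (L.ch i) = 1 := by
  unfold MLoc.Lam at hi
  exact Finset.mem_filter.1 hi

private theorem x3b_cp {C : Finset I} (hC : C ⊆ L.Lam) {i i' : I} (hi : i ∈ C) (hi' : i' ∈ L.K) :
    L.ch i' ≠ L.cp i := by
  intro h
  obtain ⟨h1, h2⟩ := x3b_LamK L (hC hi)
  obtain ⟨h3, h4, h5⟩ := L.hcp i h1 h2
  have h6 : i = i' := by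
    refine L.hbl i h1 i' hi' ?_
    rw [← h3, ← (L.hch i' hi').1, h]
  exact h4 (by rw [← h, h6])

open Classical in
private theorem x3b_oV_ch {C : Finset I} {n : ℕ} {v : I → ℕ} {i : I} (hi : i ∈ L.K) :
    L.oV C n v (L.ch i) = if i ∈ C ∨ n ≤ v i then n + 1 else (v i + 1) / L.d (L.ch i) := by
  have h : ∃ i' ∈ L.K, L.ch i' = L.ch i := ⟨i, hi, rfl⟩
  have h1 : h.choose = i := x3b_ch L h.choose_spec.1 hi h.choose_spec.2
  unfold MLoc.oV
  rw [dif_pos h, h1]

open Classical in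
private theorem x3b_oV_cp {C : Finset I} (hC : C ⊆ L.Lam) {n : ℕ} {v : I → ℕ} {i : I}
    (hi : i ∈ C) : L.oV C n v (L.cp i) = n + 1 := by
  have h : ¬ ∃ i' ∈ L.K, L.ch i' = L.cp i := by
    rintro ⟨i', hi', h⟩
    exact x3b_cp L hC hi hi' h
  unfold MLoc.oV
  rw [dif_neg h, if_pos ⟨i, hi, rfl⟩]

open Classical in
private theorem x3b_oV_else {C : Finset I} {n : ℕ} {v : I → ℕ} {l : Fin N}
    (h1 : ¬ ∃ i ∈ L.K, L.ch i = l) (h2 : ¬ ∃ i ∈ C, L.cp i = l) :
    L.oV C n v l = if L.p l = 0 then 1 else 0 := by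
  unfold MLoc.oV
  rw [dif_neg h1, if_neg h2]

private theorem x3b_pC_ch {C : Finset I} {i : I} (hi : i ∈ L.K) : L.pC C (L.ch i) = 0 := by
  unfold MLoc.pC
  split_ifs
  · rfl
  · exact (L.hch i hi).2

private theorem x3b_ord0 {n : ℕ} {x : Fin (n + 1) → ℂ} (h : x 0 = 0) : 1 ≤ Mon.ord1 x := by
  by_contra h1
  have h2 : Mon.ord1 x = 0 := by omega
  rw [Mon.ord1_eq_iff _ _ (Nat.zero_le _)] at h2
  exact h2.2 (Nat.succ_pos n) h

theorem ord_block {C : Finset I} (hC : C ⊆ L.Lam) {n : ℕ} {γ : Fin N × Fin (n + 1) → ℂ}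
    (h0 : ∀ l, γ (l, 0) = L.pC C l) {i : I} (hi : i ∈ L.K) (hiC : i ∉ C) :
    (LF.vv L.a (yj L.β L.d γ) i < n ↔
      L.d (L.ch i) * Mon.ord1 (fun j => γ (L.ch i, j)) ≤ n) ∧
    (LF.vv L.a (yj L.β L.d γ) i < n →
      LF.vv L.a (yj L.β L.d γ) i + 1 = L.d (L.ch i) * Mon.ord1 (fun j => γ (L.ch i, j)) ∧
      LF.lc L.a (yj L.β L.d γ) i =
        L.kap i * Mon.lead1 (fun j => γ (L.ch i, j)) ^ L.d (L.ch i)) := by
  classical
  have hd := L.hd (L.ch i)
  obtain ⟨s1, s2, s3⟩ := vv_single (a := L.a) (L.hK i hi) (yj L.β L.d γ)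
  set vv := LF.vv L.a (yj L.β L.d γ) i with hvv
  set r := Mon.ord1 (fun j => γ (L.ch i, j)) with hr
  have hr1 : 1 ≤ r := x3b_ord0 (by rw [h0, x3b_pC_ch L hi])
  have hrn : r ≤ n + 1 := Mon.ord1_le _
  let o : Fin N → ℕ := fun l => if l = L.ch i then r else 0
  have ho : ∀ l (j : Fin (n + 1)), (j : ℕ) < o l → γ (l, j) = 0 := by
    intro l j hj
    by_cases hl : l = L.ch i
    · subst hl
      simp only [o, if_true] at hj
      exact Mon.eq_zero_of_lt_ord1 (fun j => γ (L.ch i, j)) j hj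
    · simp only [o, if_neg hl] at hj
      exact absurd hj (Nat.not_lt_zero _)
  have hnu : Mon.nuv L.β L.d o (L.bl i) = L.d (L.ch i) * r := by
    unfold Mon.nuv
    rw [Finset.sum_eq_single (L.ch i)]
    · simp only [o, if_true]
    · intro l _ hl
      simp only [o, if_neg hl, mul_zero]
    · intro h
      exact (h (Finset.mem_filter.2 ⟨Finset.mem_univ _, (L.hch i hi).1⟩)).elim
  have z1 : ∀ e (h : e < n + 1), e < L.d (L.ch i) * r → yj L.β L.d γ (L.bl i, ⟨e, h⟩) = 0 := by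
    intro e _ he
    exact Mon.zc_lt L.β L.d o γ ho (L.bl i) e (by rw [hnu]; exact he)
  have z2 : ∀ h : L.d (L.ch i) * r < n + 1, yj L.β L.d γ (L.bl i, ⟨L.d (L.ch i) * r, h⟩) =
      L.kap i * Mon.lead1 (fun j => γ (L.ch i, j)) ^ L.d (L.ch i) := by
    intro h
    have hrn' : r < n + 1 := lt_of_le_of_lt (Nat.le_mul_of_pos_left _ hd) h
    have h1 := Mon.zc_eq L.β L.d o L.hd γ ho (L.bl i)
    rw [hnu] at h1
    refine h1.trans ?_
    have hmem : L.ch i ∈ Finset.univ.filter (fun l => L.β l = L.bl i) :=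
      Finset.mem_filter.2 ⟨Finset.mem_univ _, (L.hch i hi).1⟩
    rw [← Finset.mul_prod_erase _ _ hmem, mul_comm]
    congr 1
    · unfold MLoc.kap
      refine Finset.prod_congr ?_ fun l hl => ?_
      · ext l
        simp only [Finset.mem_erase, Finset.mem_filter, Finset.mem_univ, true_and, and_comm]
      · rw [Finset.mem_filter] at hl
        have hol : o l = 0 := by simp only [o, if_neg hl.2.2]
        have h2 : Mon.lc o γ l = γ (l, 0) := by
          unfold Mon.lc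
          rw [dif_pos (by rw [hol]; exact Nat.succ_pos n)]
          congr 2
          exact Fin.ext hol
        rw [h2, h0, MLoc.pC, if_neg]
        rintro ⟨i', hi', h3⟩
        obtain ⟨h4, h5⟩ := x3b_LamK L (hC hi')
        have h6 := (L.hcp i' h4 h5).1
        rw [h3, hl.2.1] at h6
        have h7 := L.hbl i hi i' h4 h6
        exact hiC (h7 ▸ hi')
    · congr 1
      have hol : o (L.ch i) = r := by simp only [o, if_true]
      unfold Mon.lc Mon.lead1
      rw [dif_pos (by rw [hol]; exact hrn'), dif_pos (by rw [← hr]; exact hrn')]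
      congr 2
      exact Fin.ext hol
  have hkap : L.kap i ≠ 0 := by
    unfold MLoc.kap
    refine Finset.prod_ne_zero_iff.2 fun l hl => pow_ne_zero _ ?_
    rw [Finset.mem_filter] at hl
    exact p_ne_zero L hi hl.2.1 hl.2.2
  have z3 : ∀ h : L.d (L.ch i) * r < n + 1,
      yj L.β L.d γ (L.bl i, ⟨L.d (L.ch i) * r, h⟩) ≠ 0 := by
    intro h
    rw [z2 h]
    exact mul_ne_zero hkap (pow_ne_zero _ (Mon.lead1_ne_zero _
      (lt_of_le_of_lt (Nat.le_mul_of_pos_left _ hd) h)))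
  have hdr : 1 ≤ L.d (L.ch i) * r := Nat.succ_le_of_lt (Nat.mul_pos hd hr1)
  have hA : vv < n → L.d (L.ch i) * r ≤ vv + 1 := by
    intro h
    by_contra h1
    have h2 := s2 h
    have h3 := z1 (vv + 1) (by omega) (by omega)
    exact LF.lc_ne_zero L.a (yj L.β L.d γ) i (h2.trans h3)
  have hB : vv < n → vv + 1 = L.d (L.ch i) * r := by
    intro h
    have h1 := hA h
    by_contra h2
    have h3 := s3 ⟨L.d (L.ch i) * r - 1, by omega⟩ (by simp only; omega)
    refine z3 (by omega) (Eq.trans ?_ h3)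
    congr 2
    exact Fin.ext (by simp only [Fin.val_succ]; omega)
  refine ⟨⟨fun h => by have := hA h; omega, fun h => ?_⟩, fun h => ⟨hB h, ?_⟩⟩
  · by_contra h1
    have h2 := (s1.1 (not_lt.1 h1)) ⟨L.d (L.ch i) * r - 1, by omega⟩
    refine z3 (by omega) (Eq.trans ?_ h2)
    congr 2
    exact Fin.ext (by simp only [Fin.val_succ]; omega)
  · have h1 := hB h
    rw [← z2 (by omega), s2 h]
    congr 2
    exact Fin.ext (by simpa using h1)

open Classical in
theorem A1_empty {C A : Finset I} (hC : C ⊆ L.Lam) {n : ℕ} {v : I → ℕ} (R : Set (I ⊕ I → ℂ))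
    (h : (∃ i ∈ C, v i < n) ∨ ∃ i ∈ L.K \ C, v i < n ∧ ¬ L.d (L.ch i) ∣ v i + 1) :
    L.A1 C A n v R = ∅ := by
  ext γ
  simp only [Set.mem_empty_iff_false, iff_false]
  rintro ⟨⟨h0, hv, -⟩, hf⟩
  rcases h with ⟨i, hi, hi2⟩ | ⟨i, hi, hi2, hi3⟩
  · have hK := (x3b_LamK L (hC hi)).1
    have h1 := (hf i hK (Or.inl hi)).1
    have h2 : n ≤ LF.vv L.a (yj L.β L.d γ) i := by
      rw [(vv_single (a := L.a) (L.hK i hK) (yj L.β L.d γ)).1]
      intro j
      rw [← (L.hch i hK).1]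
      exact yj_eq_zero L.β L.d L.hd γ (L.ch i) h1 j.succ
    rw [hv] at h2
    omega
  · rw [Finset.mem_sdiff] at hi
    have h1 := ((ord_block L hC h0 hi.1 hi.2).2 (by rw [hv]; exact hi2)).1
    rw [hv] at h1
    exact hi3 ⟨_, h1⟩

open Classical in
theorem A1_eq {C A : Finset I} (hC : C ⊆ L.Lam) (hA : A ⊆ L.K \ C) {n : ℕ} {v : I → ℕ}
    (hv : ∀ i ∈ A, v i < n) (R : Set (I ⊕ I → ℂ)) (h1 : ∀ i ∈ C, n ≤ v i)
    (h2 : ∀ i ∈ L.K \ C, v i < n → L.d (L.ch i) ∣ v i + 1) :
    L.A1 C A n v R = {γ | γ ∈ Mon.Yset L.Fr (L.oV C n v) (n + 1) ∧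
      Sum.elim (Mon.lc (L.oV C n v) γ) (yj L.β L.d γ) ∈ L.QV C A n v R} := by
  ext γ
  constructor
  · rintro ⟨⟨h0, hvv, hR⟩, hf⟩
    have hoK : ∀ i ∈ L.K, ¬ (i ∈ C ∨ n ≤ v i) → L.oV C n v (L.ch i) =
        Mon.ord1 (fun j => γ (L.ch i, j)) ∧ Mon.ord1 (fun j => γ (L.ch i, j)) < n + 1 := by
      intro i hi hn
      rw [x3b_oV_ch L hi, if_neg hn]
      push Not at hn
      obtain ⟨b1, b2⟩ := ord_block L hC h0 hi hn.1
      have hlt : LF.vv L.a (yj L.β L.d γ) i < n := by rw [hvv]; exact hn.2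
      have b3 := (b2 hlt).1
      rw [hvv] at b3
      have b4 := b1.1 hlt
      rw [b3, Nat.mul_div_cancel_left _ (L.hd _)]
      refine ⟨rfl, ?_⟩
      have : Mon.ord1 (fun j => γ (L.ch i, j)) ≤
        L.d (L.ch i) * Mon.ord1 (fun j => γ (L.ch i, j)) := Nat.le_mul_of_pos_left _ (L.hd _)
      omega
    refine ⟨⟨?_, ?_⟩, ?_, ?_, ?_, ?_⟩
    · intro l j hj
      by_cases hl : ∃ i ∈ L.K, L.ch i = l
      · obtain ⟨i, hi, rfl⟩ := hl
        by_cases hn : i ∈ C ∨ n ≤ v i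
        · exact (hf i hi hn).1 j
        · rw [(hoK i hi hn).1] at hj
          exact Mon.eq_zero_of_lt_ord1 (fun j => γ (L.ch i, j)) j hj
      · by_cases hl2 : ∃ i ∈ C, L.cp i = l
        · obtain ⟨i, hi, rfl⟩ := hl2
          exact (hf i (x3b_LamK L (hC hi)).1 (Or.inl hi)).2 hi j
        · rw [x3b_oV_else L hl hl2] at hj
          split_ifs at hj with hp
          · have hj0 : j = 0 := Fin.ext (by simp only [Fin.val_zero]; omega)
            rw [hj0, h0, MLoc.pC, if_neg hl2, hp]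
          · exact absurd hj (Nat.not_lt_zero _)
    · intro l hlF h
      by_cases hl : ∃ i ∈ L.K, L.ch i = l
      · obtain ⟨i, hi, rfl⟩ := hl
        by_cases hn : i ∈ C ∨ n ≤ v i
        · rw [x3b_oV_ch L hi, if_pos hn] at h
          omega
        · have h3 := hoK i hi hn
          have h4 := Mon.lead1_ne_zero (fun j => γ (L.ch i, j)) h3.2
          unfold Mon.lead1 at h4
          rw [dif_pos h3.2] at h4
          have h5 : (⟨L.oV C n v (L.ch i), h⟩ : Fin (n + 1)) =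
            ⟨Mon.ord1 (fun j => γ (L.ch i, j)), h3.2⟩ := Fin.ext h3.1
          rw [h5]
          exact h4
      · by_cases hl2 : ∃ i ∈ C, L.cp i = l
        · obtain ⟨i, hi, rfl⟩ := hl2
          rw [x3b_oV_cp L hC hi] at h
          omega
        · by_cases hp : L.p l = 0
          · exact absurd (Finset.mem_filter.2 ⟨Finset.mem_univ _, hp,
              fun i hi h => hl ⟨i, hi, h⟩⟩) hlF
          · have h3 : L.oV C n v l = 0 := by rw [x3b_oV_else L hl hl2, if_neg hp]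
            have h4 : (⟨L.oV C n v l, h⟩ : Fin (n + 1)) = 0 := Fin.ext h3
            rw [h4, h0, MLoc.pC, if_neg hl2]
            exact hp
    · intro l hl
      have hl1 : ¬ ∃ i ∈ L.K, L.ch i = l := by
        rintro ⟨i, hi, rfl⟩
        by_cases hn : i ∈ C ∨ n ≤ v i
        · rw [x3b_oV_ch L hi, if_pos hn] at hl
          omega
        · have h3 := hoK i hi hn
          have h4 := x3b_ord0 (x := fun j => γ (L.ch i, j)) (by rw [h0, x3b_pC_ch L hi])
          omega
      have hl2 : ¬ ∃ i ∈ C, L.cp i = l := by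
        rintro ⟨i, hi, rfl⟩
        rw [x3b_oV_cp L hC hi] at hl
        omega
      show Mon.lc (L.oV C n v) γ l = L.p l
      unfold Mon.lc
      rw [dif_pos (by omega)]
      have h4 : (⟨L.oV C n v l, by omega⟩ : Fin (n + 1)) = 0 := Fin.ext hl
      rw [h4, h0, MLoc.pC, if_neg hl2]
    · intro k
      show yj L.β L.d γ (k, 0) = yv L.β L.d L.p k
      rw [yj_zero, ← yv_pC L hC]
      congr 1
      exact funext h0
    · exact hvv
    · have h3 : (fun i => if i ∈ A then Mon.lc (L.oV C n v) γ (L.ch i) else 1) =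
          fun i => if i ∈ A then Mon.lead1 (fun j => γ (L.ch i, j)) else 1 := by
        funext i
        split_ifs with hi
        · have hi2 := Finset.mem_sdiff.1 (hA hi)
          have hn : ¬ (i ∈ C ∨ n ≤ v i) := by
            push Not
            exact ⟨hi2.2, hv i hi⟩
          have h3 := hoK i hi2.1 hn
          unfold Mon.lc Mon.lead1
          rw [dif_pos (by rw [h3.1]; exact h3.2), dif_pos h3.2]
          congr 2
          exact Fin.ext h3.1
        · rfl
      show Sum.elim (fun i => if i ∈ A then Mon.lc (L.oV C n v) γ (L.ch i) else 1)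
        (LF.lc L.a (yj L.β L.d γ)) ∈ R
      rw [h3]
      exact hR
  · rintro ⟨⟨hY1, hY2⟩, q1, q2, q3, q4⟩
    have q3' : LF.vv L.a (yj L.β L.d γ) = v := q3
    have hchz : ∀ i ∈ L.K, i ∈ C ∨ n ≤ v i → ∀ j, γ (L.ch i, j) = 0 := by
      intro i hi hn j
      refine hY1 _ j ?_
      rw [x3b_oV_ch L hi, if_pos hn]
      exact j.2
    have hcpz : ∀ i ∈ C, ∀ j, γ (L.cp i, j) = 0 := by
      intro i hi j
      refine hY1 _ j ?_
      rw [x3b_oV_cp L hC hi]
      exact j.2
    have h0 : ∀ l, γ (l, 0) = L.pC C l := by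
      intro l
      by_cases hl : ∃ i ∈ L.K, L.ch i = l
      · obtain ⟨i, hi, rfl⟩ := hl
        rw [x3b_pC_ch L hi]
        by_cases hn : i ∈ C ∨ n ≤ v i
        · exact hchz i hi hn 0
        · refine hY1 _ 0 ?_
          rw [x3b_oV_ch L hi, if_neg hn]
          push Not at hn
          have h3 := h2 i (Finset.mem_sdiff.2 ⟨hi, hn.1⟩) hn.2
          exact Nat.div_pos (Nat.le_of_dvd (Nat.succ_pos _) h3) (L.hd _)
      · by_cases hl2 : ∃ i ∈ C, L.cp i = l
        · obtain ⟨i, hi, rfl⟩ := hl2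
          rw [hcpz i hi, MLoc.pC, if_pos ⟨i, hi, rfl⟩]
        · rw [MLoc.pC, if_neg hl2]
          by_cases hp : L.p l = 0
          · rw [hp]
            refine hY1 _ 0 ?_
            rw [x3b_oV_else L hl hl2, if_pos hp]
            exact Nat.one_pos
          · have h3 : L.oV C n v l = 0 := by rw [x3b_oV_else L hl hl2, if_neg hp]
            have h4 : Mon.lc (L.oV C n v) γ l = L.p l := q1 l h3
            rw [← h4]
            unfold Mon.lc
            rw [dif_pos (by omega)]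
            congr 2
            exact Fin.ext h3.symm
    refine ⟨⟨h0, q3', ?_⟩, fun i hi hn => ⟨hchz i hi hn, fun hiC => hcpz i hiC⟩⟩
    have h3 : (fun i => if i ∈ A then Mon.lc (L.oV C n v) γ (L.ch i) else 1) =
        fun i => if i ∈ A then Mon.lead1 (fun j => γ (L.ch i, j)) else 1 := by
      funext i
      split_ifs with hi
      · have hi2 := Finset.mem_sdiff.1 (hA hi)
        have hn : ¬ (i ∈ C ∨ n ≤ v i) := by
          push Not
          exact ⟨hi2.2, hv i hi⟩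
        have ho : L.oV C n v (L.ch i) = (v i + 1) / L.d (L.ch i) := by
          rw [x3b_oV_ch L hi2.1, if_neg hn]
        have hlt : L.oV C n v (L.ch i) < n + 1 := by
          have h5 := hv i hi
          have h6 : (v i + 1) / L.d (L.ch i) ≤ v i + 1 := Nat.div_le_self _ _
          omega
        have hFr : L.ch i ∉ L.Fr := by
          intro h6
          exact (Finset.mem_filter.1 h6).2.2 i hi2.1 rfl
        have h7 : Mon.ord1 (fun j => γ (L.ch i, j)) = L.oV C n v (L.ch i) := by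
          rw [Mon.ord1_eq_iff _ _ hlt.le]
          exact ⟨fun j hj => hY1 _ j hj, fun h => hY2 _ hFr h⟩
        unfold Mon.lc Mon.lead1
        rw [dif_pos hlt, dif_pos (by rw [h7]; exact hlt)]
        congr 2
        exact Fin.ext h7.symm
      · rfl
    show Sum.elim (fun i => if i ∈ A then Mon.lead1 (fun j => γ (L.ch i, j)) else 1)
      (LF.lc L.a (yj L.β L.d γ)) ∈ R
    rw [← h3]
    exact q4

end LFM
end MotMono
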