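import Pool.Agent.Lib.MP_4e5fcd_ag.LFM.C1
import Pool.Agent.Lib.MP_4e5fcd_ag.LFM.X3b

/-!
# LFM-C2: Euler characteristics of the contact jets

`constr_contactArcs`: the conditions for all `F ∈ I` are infinitely many polynomial conditions on `γ`, but
zero sets of arbitrary families of polynomials are finite intersections (Hilbert: for the family of
polynomials `P_{F,l} = coeff l (along F γ)`, `coeff m (along F γ) - y.φ 1 F` take the ideal `𝔞` they span, which is
finitely generated (`IsNoetherian.noetherian`, `Submodule.fg_span...`), and the zero set of the family is the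
zero set of `𝔞`; `LF.exists_alongPoly`). Look for an existing lemma first (grep contactArcs, `constr`).
`cls_trunc`: `{γ | trunc γ ∈ A} ≅ A × A^(N (n - m))` (`cls_mul`, `RegIso.reindex`), so `= cls A * LL ^ (N * (n - m))`.
`exists_cone'`: `exists_cone` with `hdiv` from `ord_block` (`i ∈ K` with `w g i ≠ 0` is not in `C ⊆ Lam` by
`hcp`), then `χ` of both sides of `cls_trunc` (`χ LL = 1`).
-/

open MvPolynomial

namespace MotMono
namespace LFM

variable {I Γ : Type} [Fintype I] [Fintype Γ] {N s : ℕ} (L : MLoc I Γ N s)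

private theorem c2_zeroLocus {σ : Type} [Finite σ] (S : Set (MvPolynomial σ ℂ)) :
    Constr {x | ∀ f ∈ S, eval x f = 0} := by
  classical
  obtain ⟨S', hS', hspan⟩ := (Submodule.fg_span_iff_fg_span_finset_subset S).1
    (IsNoetherian.noetherian (Submodule.span (MvPolynomial σ ℂ) S))
  have e : {x : σ → ℂ | ∀ f ∈ S, eval x f = 0} = ⋂ f ∈ S', {x | eval x f = 0} := by
    ext x
    simp only [Set.mem_ofPred_eq, Set.mem_iInter]
    constructor
    · intro h f hf
      exact h f (hS' hf)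
    · intro h f hf
      have h1 : f ∈ Submodule.span (MvPolynomial σ ℂ) (S' : Set (MvPolynomial σ ℂ)) := by
        rw [← hspan]
        exact Submodule.subset_span hf
      clear hf
      induction h1 using Submodule.span_induction with
      | mem y hy => exact h y hy
      | zero => exact map_zero _
      | add y z _ _ hy hz => rw [map_add, hy, hz, add_zero]
      | smul a y _ hy => rw [smul_eq_mul, map_mul, hy, mul_zero]
  rw [e]
  exact constr_biInter_finset S' fun f _ => Constr.zeroSet f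

theorem constr_contactArcs (I₀ : Ideal (MvPolynomial (Fin N) ℂ)) (p : Fin N → ℂ)
    (y : ConePoint I₀ p) (m : ℕ) : Constr (contactArcs I₀ p y m) := by
  classical
  choose P hP using fun (f : MvPolynomial (Fin N) ℂ) (l : ℕ) =>
    LF.exists_alongPoly (N := N) (n := m + 1) f l
  have h1 := c2_zeroLocus {Q : MvPolynomial (Fin N × Fin (m + 1)) ℂ |
    ∃ i, Q = X (i, 0) - C (p i)}
  have h2 := c2_zeroLocus {Q : MvPolynomial (Fin N × Fin (m + 1)) ℂ |
    ∃ f ∈ I₀, ∃ l < m, Q = P f l}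
  have h3 := c2_zeroLocus {Q : MvPolynomial (Fin N × Fin (m + 1)) ℂ |
    ∃ f ∈ I₀, Q = P f m - C (y.φ 1 f)}
  convert (h1.inter h2).inter h3 using 1
  ext γ
  simp only [Set.mem_inter_iff, Set.mem_ofPred_eq, contactArcs]
  constructor
  · rintro ⟨a1, a2⟩
    refine ⟨⟨?_, ?_⟩, ?_⟩
    · rintro _ ⟨i, rfl⟩
      rw [map_sub, eval_X, eval_C, a1, sub_self]
    · rintro _ ⟨f, hf, l, hl, rfl⟩
      rw [hP]
      exact (a2 f hf).1 l hl
    · rintro _ ⟨f, hf, rfl⟩
      rw [map_sub, eval_C, hP, (a2 f hf).2, sub_self]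
  · rintro ⟨⟨b1, b2⟩, b3⟩
    refine ⟨fun i => ?_, fun f hf => ⟨fun l hl => ?_, ?_⟩⟩
    · have := b1 _ ⟨i, rfl⟩
      rwa [map_sub, eval_X, eval_C, sub_eq_zero] at this
    · have := b2 _ ⟨f, hf, l, hl, rfl⟩
      rwa [hP] at this
    · have := b3 _ ⟨f, hf, rfl⟩
      rwa [map_sub, eval_C, hP, sub_eq_zero] at this

private theorem c2_constr {m n : ℕ} (h : m ≤ n) (A : Set (Fin N × Fin (m + 1) → ℂ))
    (hA : Constr A) : Constr {γ : Fin N × Fin (n + 1) → ℂ | trunc h γ ∈ A} :=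
  hA.comp (σ := Fin N × Fin (n + 1)) fun q => (q.1, Fin.castLE (Nat.succ_le_succ h) q.2)

/-- the levels -/
private def c2_equiv {m n : ℕ} (h : m ≤ n) :
    (Fin N × Fin (m + 1)) ⊕ (Fin N × Fin (n - m)) ≃ Fin N × Fin (n + 1) where
  toFun := Sum.elim (fun q => (q.1, Fin.castLE (Nat.succ_le_succ h) q.2))
    fun q => (q.1, ⟨m + 1 + q.2, by have := q.2.2; omega⟩)
  invFun q := if h1 : (q.2 : ℕ) < m + 1 then Sum.inl (q.1, ⟨q.2, h1⟩)
    else Sum.inr (q.1, ⟨q.2 - (m + 1), by have := q.2.2; omega⟩)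
  left_inv := by
    rintro (⟨i, j⟩ | ⟨i, j⟩)
    · simp
      omega
    · simp
      omega
  right_inv := by
    rintro ⟨i, j⟩
    by_cases h1 : (j : ℕ) < m + 1
    · simp [h1]
    · simp only [h1, dif_neg, not_false_eq_true, Sum.elim_inr, Prod.mk.injEq, true_and]
      ext
      simp only
      omega

theorem cls_trunc {m n : ℕ} (h : m ≤ n) (A : Set (Fin N × Fin (m + 1) → ℂ)) (hA : Constr A) :
    Constr {γ : Fin N × Fin (n + 1) → ℂ | trunc h γ ∈ A} ∧
      cls {γ : Fin N × Fin (n + 1) → ℂ | trunc h γ ∈ A} = cls A * LL ^ (N * (n - m)) := by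
  refine ⟨c2_constr h A hA, ?_⟩
  have h1 : cls {γ : Fin N × Fin (n + 1) → ℂ | trunc h γ ∈ A} =
      cls (prodSet A (Set.univ : Set (Fin N × Fin (n - m) → ℂ))) := by
    refine (cls_iso (hA.prodSet constr_univ) (c2_constr h A hA) ?_).symm
    have h2 := RegIso.reindex (c2_equiv (N := N) h)
      (prodSet A (Set.univ : Set (Fin N × Fin (n - m) → ℂ)))
    convert h2 using 1
    ext γ
    simp only [Set.mem_ofPred_eq, prodSet, Set.mem_univ, and_true]
    exact Iff.rfl
  rw [h1, cls_prodSet hA constr_univ, cls_univ, Fintype.card_prod, Fintype.card_fin,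
    Fintype.card_fin]

theorem exists_cone' {χ : K0 →+* ℤ} (hχ : χ LL = 1) {C : Finset I} (hC : C ⊆ L.Lam)
    (f : Γ → MvPolynomial (Fin N) ℂ) (V : Γ → ℂ) (hG : L.Gens C f V) (S : Finset Γ)
    (hS : S.Nonempty) (t : Γ → ℂ) (ht : ∀ g ∈ S, t g ≠ 0) {m₀ n₀ : ℕ} (hm₀ : 1 ≤ m₀)
    (hn₀ : L.E * (m₀ + 1) ≤ n₀ + 1) (hne : (L.CX C (L.E * m₀) n₀ S t).Nonempty) :
    ∃ y : ConePoint (Ideal.span (Set.range f)) (L.pC C), y.Nonzero ∧
      ∀ m n : ℕ, 1 ≤ m → L.E * (m + 1) ≤ n + 1 →
        χ (cls (contactArcs (Ideal.span (Set.range f)) (L.pC C) y m)) =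
          χ (cls (L.CX C (L.E * m) n S t)) := by
  obtain ⟨y, hy, hyc⟩ := exists_cone L f V hG (fun n γ h0 i hi hv g hg => by
    have hiC : i ∉ C := by
      intro hiC
      have h1 := hC hiC
      rw [MLoc.Lam, Finset.mem_filter] at h1
      exact hg ((L.hcp i hi h1.2).2.2 g)
    rw [((ord_block L hC h0 hi hiC).2 hv).1]
    exact dvd_mul_right _ _) S hS t ht hm₀ hn₀ hne
  refine ⟨y, hy, fun m n hm hmn => ?_⟩
  have hE := L.hE
  have hmn' : m ≤ n := by
    have h1 : 1 * (m + 1) ≤ L.E * (m + 1) := Nat.mul_le_mul_right _ hE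
    omega
  have h1 : L.CX C (L.E * m) n S t =
      {γ | trunc hmn' γ ∈ contactArcs (Ideal.span (Set.range f)) (L.pC C) y m} := by
    ext γ
    exact (hyc m hm n hmn' hmn γ).symm
  rw [h1, (cls_trunc hmn' _ (constr_contactArcs _ _ y m)).2, map_mul, map_pow, hχ, one_pow,
    mul_one]

end LFM
end MotMono
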