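import Pool.Agent.Lib.MP_4e5fcd_ag.LFM.C2
import Pool.Agent.Lib.MP_4e5fcd_ag.Kum.E3

/-!
# LFM-D1: strata of the contact jets: the case of trivial stabilisers

`St y d Σ` is the stratum of the contact jets of order `d` whose nonzero coefficients (of positive level) are
those with index in `Σ`. `cls_eq_sum_St`: a finite partition.
`dvd_St`: let the greatest common divisor of `d` and the levels of `Σ` be `1` (`hg`). There are integers `e_q`
(`q ∈ Σ`), `k` with `∑ e_q (level q) + k d = 1` (Bezout for finite sets, e.g. `Finset.gcd_eq_gcd_image`,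
`Finset.exists_sum_eq_gcd`-like, or induction). Let `A¹ ⊆ (jets) ⊕ Unit → ℂ` be the set of all `(γ', H)` with `H ≠ 0`,
`γ'` over `p` with support `Σ`, `(along f γ').coeff l = 0` for `l < d`, `H * (along f γ').coeff d = y.φ 1 f` for all
`f ∈ I`, and `∏_q γ'_q ^ e_q = H ^ k` (constructible: as `constr_contactArcs`; the last equation after
multiplication with the factors with negative exponents). Then `St y d Σ ≅ kummerCover A¹ (X (inr ())) d` by
`γ ↦ ((γ', τ ^ d), τ)`, `τ = ∏_q γ_q ^ e_q`, `γ'_q = γ_q τ ^ (-level q)`; inverse `((γ', H), u) ↦ γ`,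
`γ_q = γ'_q u ^ (level q)` (`u ^ d = H`). Use `(along f γ').coeff l = τ ^ (-l) (along f γ).coeff l` when
`γ'_(i,l) = τ ^ (-l) γ_(i,l)` (substitution `t ↦ t/τ`: an algebra map; both sides as functions of `f`),
`∏ γ'_q ^ e_q = τ * τ ^ (-∑ e_q level q) = τ ^ (k d) = H ^ k`, and conversely
`∏ γ_q ^ e_q = H ^ k u ^ (1 - k d) = u`. `hχ.kummer`: `χ (St) = d * χ (A¹)`.
-/

open MvPolynomial

namespace MotMono
namespace LFM

variable {N : ℕ} {I₀ : Ideal (MvPolynomial (Fin N) ℂ)} {p : Fin N → ℂ}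

/-- the contact jets whose nonzero coefficients of positive level have the index in `Σ` -/
def St (y : ConePoint I₀ p) (d : ℕ) (A : Finset (Fin N × Fin (d + 1))) :
    Set (Fin N × Fin (d + 1) → ℂ) :=
  {γ | γ ∈ contactArcs I₀ p y d ∧ ∀ q, 0 < (q.2 : ℕ) → (γ q ≠ 0 ↔ q ∈ A)}

private theorem d1_along {n : ℕ} (f : MvPolynomial (Fin N) ℂ) (γ : Fin N × Fin n → ℂ) (c : ℂ)
    (l : ℕ) : (along f fun q => γ q * c ^ (q.2 : ℕ)).coeff l = (along f γ).coeff l * c ^ l := by
  have h1 : ∀ i, arc (fun q : Fin N × Fin n => γ q * c ^ (q.2 : ℕ)) i =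
      Polynomial.aeval (Polynomial.C c * Polynomial.X : Polynomial ℂ) (arc γ i) := by
    intro i
    unfold arc
    rw [map_sum]
    refine Finset.sum_congr rfl fun j _ => ?_
    have e1 : Polynomial.aeval (Polynomial.C c * Polynomial.X : Polynomial ℂ)
        (Polynomial.C (γ (i, j)) * Polynomial.X ^ (j : ℕ)) =
        Polynomial.C (γ (i, j)) * (Polynomial.C c * Polynomial.X) ^ (j : ℕ) := by
      rw [map_mul, map_pow, Polynomial.aeval_X, Polynomial.aeval_C, Polynomial.algebraMap_eq]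
    rw [e1, mul_pow, Polynomial.C_mul, Polynomial.C_pow]
    ring
  have h2 : along f (fun q : Fin N × Fin n => γ q * c ^ (q.2 : ℕ)) =
      Polynomial.aeval (Polynomial.C c * Polynomial.X : Polynomial ℂ) (along f γ) := by
    unfold along
    have h3 : arc (fun q : Fin N × Fin n => γ q * c ^ (q.2 : ℕ)) =
        fun i => Polynomial.aeval (Polynomial.C c * Polynomial.X : Polynomial ℂ) (arc γ i) :=
      funext h1
    rw [h3, ← AlgHom.comp_apply, MvPolynomial.comp_aeval]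
  rw [h2, ← Polynomial.comp_eq_aeval, Polynomial.comp_C_mul_X_coeff]

private theorem d1_bezout {α : Type} (A : Finset α) (lev : α → ℕ) {d : ℕ} (hd : 2 ≤ d)
    (hg : ∀ g : ℕ, g ∣ d → (∀ q ∈ A, g ∣ lev q) → g = 1) :
    ∃ (e : α → ℕ) (K : ℕ), ∑ q ∈ A, e q * lev q = 1 + K * d := by
  classical
  have h1 : (1 : ℤ) ∈ Ideal.span (insert (d : ℤ) ((fun q => (lev q : ℤ)) '' (A : Set α))) := by
    obtain ⟨g, hgen⟩ : (Ideal.span (insert (d : ℤ)
        ((fun q => (lev q : ℤ)) '' (A : Set α)))).IsPrincipal := IsPrincipalIdealRing.principal _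
    have hdvd : ∀ x ∈ Ideal.span (insert (d : ℤ) ((fun q => (lev q : ℤ)) '' (A : Set α))),
        g ∣ x := by
      intro x hx
      rw [hgen] at hx
      exact Ideal.mem_span_singleton.1 hx
    have h2 : g.natAbs = 1 := by
      refine hg _ ?_ ?_
      · have := hdvd d (Ideal.subset_span (Set.mem_insert _ _))
        exact Int.natCast_dvd_natCast.1 (Int.natAbs_dvd.2 this)
      · intro q hq
        have := hdvd (lev q) (Ideal.subset_span (Set.mem_insert_of_mem _ ⟨q, hq, rfl⟩))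
        exact Int.natCast_dvd_natCast.1 (Int.natAbs_dvd.2 this)
    rw [hgen]
    refine Ideal.mem_span_singleton.2 ?_
    exact isUnit_iff_dvd_one.1 (Int.isUnit_iff_natAbs_eq.2 h2)
  obtain ⟨k, z, hz, hkz⟩ := Ideal.mem_span_insert.1 h1
  obtain ⟨c, hc⟩ : ∃ c : α → ℤ, ∑ q ∈ A, c q * (lev q : ℤ) = z := by
    obtain ⟨c, hc⟩ := (Submodule.mem_span_image_finset_iff_exists_fun ℤ).1 hz
    refine ⟨fun q => if h : q ∈ A then c ⟨q, h⟩ else 0, ?_⟩
    rw [← hc, ← Finset.sum_attach A]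
    refine Finset.sum_congr rfl fun q _ => ?_
    simp only [q.2, dif_pos, smul_eq_mul]
  refine ⟨fun q => (c q % d).toNat, (∑ q ∈ A, (c q % d).toNat * lev q) / d, ?_⟩
  have hd0 : (d : ℤ) ≠ 0 := by omega
  have h3 : ((∑ q ∈ A, (c q % d).toNat * lev q : ℕ) : ℤ) ≡ 1 [ZMOD d] := by
    push_cast
    have h4 : ∀ q ∈ A, (((c q % d).toNat : ℤ)) * (lev q : ℤ) ≡ c q * (lev q : ℤ) [ZMOD d] := by
      intro q _
      rw [Int.toNat_of_nonneg (Int.emod_nonneg _ hd0)]
      exact (Int.mod_modEq _ _).mul_right _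
    have h5 : ∑ q ∈ A, (((c q % d).toNat : ℤ)) * (lev q : ℤ) ≡
        ∑ q ∈ A, c q * (lev q : ℤ) [ZMOD d] := by
      rw [Int.modEq_iff_dvd, ← Finset.sum_sub_distrib]
      exact Finset.dvd_sum fun q hq => Int.modEq_iff_dvd.1 (h4 q hq)
    refine h5.trans ?_
    rw [hc]
    rw [Int.modEq_iff_dvd, hkz]
    exact ⟨k, by ring⟩
  have h6 : (∑ q ∈ A, (c q % d).toNat * lev q) % d = 1 := by
    have h7 : (∑ q ∈ A, (c q % d).toNat * lev q) ≡ 1 [MOD d] := by
      rw [← Int.natCast_modEq_iff]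
      simpa using h3
    have h8 : (∑ q ∈ A, (c q % d).toNat * lev q) % d = 1 % d := h7
    rw [h8, Nat.mod_eq_of_lt (by omega)]
  have h9 := Nat.mod_add_div (∑ q ∈ A, (c q % d).toNat * lev q) d
  rw [h6, mul_comm d] at h9
  exact h9.symm

private theorem d1_zeroLocus {σ : Type} [Finite σ] (S : Set (MvPolynomial σ ℂ)) :
    Constr {x | ∀ f ∈ S, eval x f = 0} := by
  classical
  obtain ⟨S', hS', hspan⟩ := (Submodule.fg_span_iff_fg_span_finset_subset S).1
    (IsNoetherian.noetherian (Submodule.span (MvPolynomial σ ℂ) S))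
  have e : {x : σ → ℂ | ∀ f ∈ S, eval x f = 0} = ⋂ f ∈ S', {x | eval x f = 0} := by
    ext x
    simp only [Set.mem_ofPred_eq, Set.mem_iInter]
    constructor
    · intro h f hf
      exact h f (hS' hf)
    · intro h f hf
      have h1 : f ∈ Submodule.span (MvPolynomial σ ℂ) (S' : Set (MvPolynomial σ ℂ)) := by
        rw [← hspan]
        exact Submodule.subset_span hf
      clear hf
      induction h1 using Submodule.span_induction with
      | mem y hy => exact h y hy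
      | zero => exact map_zero _
      | add y z _ _ hy hz => rw [map_add, hy, hz, add_zero]
      | smul a y _ hy => rw [smul_eq_mul, map_mul, hy, mul_zero]
  rw [e]
  exact constr_biInter_finset S' fun f _ => Constr.zeroSet f

private theorem d1_supp {n : ℕ} (A : Finset (Fin N × Fin n)) :
    Constr {γ : Fin N × Fin n → ℂ | ∀ q, 0 < (q.2 : ℕ) → (γ q ≠ 0 ↔ q ∈ A)} := by
  classical
  have h : ∀ q : Fin N × Fin n, Constr {γ : Fin N × Fin n → ℂ |
      0 < (q.2 : ℕ) → (γ q ≠ 0 ↔ q ∈ A)} := by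
    intro q
    by_cases h0 : 0 < (q.2 : ℕ)
    · by_cases hq : q ∈ A
      · have h1 := constr_ne (X q : MvPolynomial (Fin N × Fin n) ℂ)
        simpa [h0, hq] using h1
      · have h1 := Constr.zeroSet (X q : MvPolynomial (Fin N × Fin n) ℂ)
        simpa [h0, hq] using h1
    · have h1 := constr_univ (σ := Fin N × Fin n)
      simpa [h0, Set.ofPred_true] using h1
  have h2 := constr_iInter h
  have e : {γ : Fin N × Fin n → ℂ | ∀ q, 0 < (q.2 : ℕ) → (γ q ≠ 0 ↔ q ∈ A)} =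
      ⋂ q, {γ | 0 < (q.2 : ℕ) → (γ q ≠ 0 ↔ q ∈ A)} := by
    ext γ
    simp only [Set.mem_ofPred_eq, Set.mem_iInter]
  rw [e]
  exact h2

theorem D1_constr_St (y : ConePoint I₀ p) (d : ℕ) (A : Finset (Fin N × Fin (d + 1))) :
    Constr (St y d A) :=
  (constr_contactArcs I₀ p y d).inter (d1_supp A)

open Classical in
theorem cls_eq_sum_St (y : ConePoint I₀ p) (d : ℕ) :
    cls (contactArcs I₀ p y d) =
      ∑ A ∈ (Finset.univ.filter fun q : Fin N × Fin (d + 1) => 0 < (q.2 : ℕ)).powerset,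
        cls (St y d A) := by
  rw [← cls_biUnion _ (fun A _ => D1_constr_St y d A)]
  · congr 1
    ext γ
    simp only [Set.mem_iUnion, exists_prop, Finset.mem_powerset]
    constructor
    · intro h
      refine ⟨Finset.univ.filter fun q => 0 < (q.2 : ℕ) ∧ γ q ≠ 0, ?_, h, ?_⟩
      · intro q hq
        simp only [Finset.mem_filter, Finset.mem_univ, true_and] at hq ⊢
        exact hq.1
      · intro q hq
        rw [Finset.mem_filter]
        exact ⟨fun h1 => ⟨Finset.mem_univ _, hq, h1⟩, fun h1 => h1.2.2⟩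
    · rintro ⟨A, _, h⟩
      exact h.1
  · intro A hA B hB hAB
    rw [Set.disjoint_left]
    intro γ h1 h2
    apply hAB
    simp only [Finset.mem_powerset] at hA hB
    ext q
    constructor
    · intro hq
      have h3 : 0 < (q.2 : ℕ) := (Finset.mem_filter.1 (hA hq)).2
      exact (h2.2 q h3).1 ((h1.2 q h3).2 hq)
    · intro hq
      have h3 : 0 < (q.2 : ℕ) := (Finset.mem_filter.1 (hB hq)).2
      exact (h1.2 q h3).1 ((h2.2 q h3).2 hq)

/-- the slice -/
private def d1A (y : ConePoint I₀ p) (d : ℕ) (A : Finset (Fin N × Fin (d + 1)))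
    (e : Fin N × Fin (d + 1) → ℕ) (K : ℕ) : Set ((Fin N × Fin (d + 1)) ⊕ Unit → ℂ) :=
  {z | (∀ i, z (Sum.inl (i, 0)) = p i) ∧
    (∀ f ∈ I₀, (∀ l < d, (along f fun q => z (Sum.inl q)).coeff l = 0) ∧
      z (Sum.inr ()) * (along f fun q => z (Sum.inl q)).coeff d = y.φ 1 f) ∧
    (∀ q : Fin N × Fin (d + 1), 0 < (q.2 : ℕ) → (z (Sum.inl q) ≠ 0 ↔ q ∈ A)) ∧
    (∏ q ∈ A, z (Sum.inl q) ^ e q) * z (Sum.inr ()) ^ K = 1 ∧ z (Sum.inr ()) ≠ 0}

private theorem d1_constr (y : ConePoint I₀ p) (d : ℕ) (A : Finset (Fin N × Fin (d + 1)))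
    (e : Fin N × Fin (d + 1) → ℕ) (K : ℕ) : Constr (d1A y d A e K) := by
  classical
  choose P hP using fun (f : MvPolynomial (Fin N) ℂ) (l : ℕ) =>
    LF.exists_alongPoly (N := N) (n := d + 1) f l
  have hP' : ∀ f l (z : (Fin N × Fin (d + 1)) ⊕ Unit → ℂ),
      eval z (rename Sum.inl (P f l)) = (along f fun q => z (Sum.inl q)).coeff l := by
    intro f l z
    rw [eval_rename]
    exact hP f l _
  have h1 := d1_zeroLocus {Q : MvPolynomial ((Fin N × Fin (d + 1)) ⊕ Unit) ℂ |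
    ∃ i, Q = X (Sum.inl (i, 0)) - C (p i)}
  have h2 := d1_zeroLocus {Q : MvPolynomial ((Fin N × Fin (d + 1)) ⊕ Unit) ℂ |
    ∃ f ∈ I₀, ∃ l < d, Q = rename Sum.inl (P f l)}
  have h3 := d1_zeroLocus {Q : MvPolynomial ((Fin N × Fin (d + 1)) ⊕ Unit) ℂ |
    ∃ f ∈ I₀, Q = X (Sum.inr ()) * rename Sum.inl (P f d) - C (y.φ 1 f)}
  have h4 := (d1_supp A).comp (σ := (Fin N × Fin (d + 1)) ⊕ Unit) Sum.inl
  have h5 := constr_eq ((∏ q ∈ A, X (Sum.inl q) ^ e q) * X (Sum.inr ()) ^ K :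
    MvPolynomial ((Fin N × Fin (d + 1)) ⊕ Unit) ℂ) 1
  have h6 := constr_ne (X (Sum.inr ()) : MvPolynomial ((Fin N × Fin (d + 1)) ⊕ Unit) ℂ)
  have h7 := (((h1.inter h2).inter h3).inter h4).inter (h5.inter h6)
  convert h7 using 1
  ext z
  simp only [d1A, Set.mem_inter_iff, Set.mem_ofPred_eq]
  constructor
  · rintro ⟨a1, a2, a3, a4, a5⟩
    refine ⟨⟨⟨⟨?_, ?_⟩, ?_⟩, a3⟩, ?_, ?_⟩
    · rintro _ ⟨i, rfl⟩
      rw [map_sub, eval_X, eval_C, a1, sub_self]
    · rintro _ ⟨f, hf, l, hl, rfl⟩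
      rw [hP']
      exact (a2 f hf).1 l hl
    · rintro _ ⟨f, hf, rfl⟩
      rw [map_sub, map_mul, eval_X, eval_C, hP', (a2 f hf).2, sub_self]
    · rw [map_mul, map_prod, map_pow, eval_X, map_one]
      simpa using a4
    · rw [eval_X]
      exact a5
  · rintro ⟨⟨⟨⟨b1, b2⟩, b3⟩, b4⟩, b5, b6⟩
    refine ⟨fun i => ?_, fun f hf => ⟨fun l hl => ?_, ?_⟩, b4, ?_, ?_⟩
    · have := b1 _ ⟨i, rfl⟩
      rwa [map_sub, eval_X, eval_C, sub_eq_zero] at this
    · have := b2 _ ⟨f, hf, l, hl, rfl⟩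
      rwa [hP'] at this
    · have := b3 _ ⟨f, hf, rfl⟩
      rwa [map_sub, map_mul, eval_X, eval_C, hP', sub_eq_zero] at this
    · rw [map_mul, map_prod, map_pow, eval_X, map_one] at b5
      simpa using b5
    · rw [eval_X] at b6
      exact b6

private theorem d1_iso (y : ConePoint I₀ p) {d : ℕ} (hd : 0 < d)
    (A : Finset (Fin N × Fin (d + 1))) (hA : ∀ q ∈ A, 0 < (q.2 : ℕ))
    (e : Fin N × Fin (d + 1) → ℕ) (K : ℕ)
    (he : ∑ q ∈ A, e q * (q.2 : ℕ) = 1 + K * d) :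
    RegIso (St y d A) (kummerCover (d1A y d A e K) (X (Sum.inr ())) d) := by
  classical
  -- the function `τ`
  have htau : ∀ (γ : Fin N × Fin (d + 1) → ℂ) (c : ℂ),
      ∏ q ∈ A, (γ q * c ^ (q.2 : ℕ)) ^ e q = (∏ q ∈ A, γ q ^ e q) * c ^ (1 + K * d) := by
    intro γ c
    rw [← he, ← Finset.prod_pow_eq_pow_sum, ← Finset.prod_mul_distrib]
    refine Finset.prod_congr rfl fun q _ => ?_
    rw [mul_pow, ← pow_mul, mul_comm (q.2 : ℕ)]
  have hne : ∀ γ ∈ St y d A, ∏ q ∈ A, γ q ^ e q ≠ 0 := by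
    intro γ hγ
    rw [Finset.prod_ne_zero_iff]
    intro q hq
    exact pow_ne_zero _ ((hγ.2 q (hA q hq)).2 hq)
  have hu : ∀ z ∈ kummerCover (d1A y d A e K) (X (Sum.inr ())) d, z (Sum.inr ()) ≠ 0 := by
    intro z hz h0
    have h1 := hz.2
    rw [h0, zero_pow hd.ne', eval_X] at h1
    exact hz.1.2.2.2.2 h1.symm
  refine ⟨fun γ => Sum.elim (Sum.elim (fun q => γ q * (∏ q ∈ A, γ q ^ e q)⁻¹ ^ (q.2 : ℕ))
      fun _ => (∏ q ∈ A, γ q ^ e q) ^ d) fun _ => ∏ q ∈ A, γ q ^ e q,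
    fun z q => z (Sum.inl (Sum.inl q)) * z (Sum.inr ()) ^ (q.2 : ℕ), ?_, ?_, ?_, ?_, ?_, ?_⟩
  · have ht : RegFun (St y d A) fun γ => ∏ q ∈ A, γ q ^ e q := by
      refine (regFun_poly (St y d A) (∏ q ∈ A, X q ^ e q)).congr fun γ _ => ?_
      simp
    rintro ((q | u) | u)
    · exact (regFun_coord _ q).mul (Kum.E3_regFun_npow (ht.inv hne) _)
    · exact Kum.E3_regFun_npow ht d
    · exact ht
  · intro q
    exact (regFun_coord _ _).mul (Kum.E3_regFun_npow (regFun_coord _ _) _)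
  · intro γ hγ
    have ht := hne γ hγ
    set t := ∏ q ∈ A, γ q ^ e q with htdef
    refine ⟨⟨fun i => ?_, fun f hf => ⟨fun l hl => ?_, ?_⟩, fun q hq => ?_, ?_, ?_⟩, ?_⟩
    · simp only [Sum.elim_inl, Fin.val_zero, pow_zero, mul_one]
      exact hγ.1.1 i
    · simp only [Sum.elim_inl]
      rw [d1_along, (hγ.1.2 f hf).1 l hl, zero_mul]
    · simp only [Sum.elim_inl, Sum.elim_inr]
      rw [d1_along, (hγ.1.2 f hf).2, inv_pow, ← htdef, mul_left_comm,
        mul_inv_cancel₀ (pow_ne_zero _ ht), mul_one]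
    · simp only [Sum.elim_inl]
      rw [← hγ.2 q hq]
      constructor
      · intro h
        exact left_ne_zero_of_mul h
      · intro h
        exact mul_ne_zero h (pow_ne_zero _ (inv_ne_zero ht))
    · simp only [Sum.elim_inl, Sum.elim_inr]
      rw [htau, ← htdef, inv_pow, ← pow_mul, pow_add, pow_one, mul_comm K d]
      field_simp
    · simp only [Sum.elim_inl, Sum.elim_inr]
      exact pow_ne_zero _ ht
    · simp only [Sum.elim_inl, Sum.elim_inr, eval_X]
  · intro z hz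
    have h0 := hu z hz
    obtain ⟨⟨a1, a2, a3, a4, a5⟩, a6⟩ := hz
    rw [eval_X] at a6
    refine ⟨⟨fun i => ?_, fun f hf => ⟨fun l hl => ?_, ?_⟩⟩, fun q hq => ?_⟩
    · simp only [Fin.val_zero, pow_zero, mul_one]
      exact a1 i
    · rw [d1_along, (a2 f hf).1 l hl, zero_mul]
    · rw [d1_along, a6, mul_comm]
      exact (a2 f hf).2
    · rw [← a3 q hq]
      constructor
      · intro h
        exact left_ne_zero_of_mul h
      · intro h
        exact mul_ne_zero h (pow_ne_zero _ h0)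
  · intro γ hγ
    have ht := hne γ hγ
    funext q
    simp only [Sum.elim_inl, Sum.elim_inr]
    rw [mul_assoc, ← mul_pow, inv_mul_cancel₀ ht, one_pow, mul_one]
  · intro z hz
    have h0 := hu z hz
    obtain ⟨⟨a1, a2, a3, a4, a5⟩, a6⟩ := hz
    rw [eval_X] at a6
    have h1 : ∏ q ∈ A, (z (Sum.inl (Sum.inl q)) * z (Sum.inr ()) ^ (q.2 : ℕ)) ^ e q =
        z (Sum.inr ()) := by
      rw [htau (fun q => z (Sum.inl (Sum.inl q)))]
      have h2 : z (Sum.inr ()) ^ (1 + K * d) = z (Sum.inr ()) * z (Sum.inl (Sum.inr ())) ^ K := by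
        rw [← a6, ← pow_mul, pow_add, pow_one, mul_comm K d]
      rw [h2, mul_left_comm, a4, mul_one]
    funext s
    rcases s with (q | u) | u
    · simp only [Sum.elim_inl]
      rw [h1, mul_assoc, ← mul_pow, mul_inv_cancel₀ h0, one_pow, mul_one]
    · simp only [Sum.elim_inl, Sum.elim_inr]
      rw [h1, a6]
    · simp only [Sum.elim_inr]
      rw [h1]

theorem dvd_St {χ : K0 →+* ℤ} (hχ : IsEulerChar χ) (y : ConePoint I₀ p) {d : ℕ} (hd : 0 < d)
    (A : Finset (Fin N × Fin (d + 1))) (hA : ∀ q ∈ A, 0 < (q.2 : ℕ))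
    (hg : ∀ g : ℕ, g ∣ d → (∀ q ∈ A, g ∣ (q.2 : ℕ)) → g = 1) :
    (d : ℤ) ∣ χ (cls (St y d A)) := by
  rcases Nat.lt_or_ge 1 d with h | h
  · obtain ⟨e, K, he⟩ := d1_bezout A (fun q => (q.2 : ℕ)) h hg
    have hc := d1_constr y d A e K
    rw [cls_iso (D1_constr_St y d A) (Kum.E3_constr_kummer hc _ d) (d1_iso y hd A hA e K he),
      hχ.kummer _ hc _ (fun x hx => by rw [eval_X]; exact hx.2.2.2.2) d hd]
    exact dvd_mul_right _ _
  · have h1 : d = 1 := by omega
    subst h1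
    rw [Nat.cast_one]
    exact one_dvd _

end LFM
end MotMono
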