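import Pool.Agent.Lib.MP_4e5fcd_ag.LFM.D1

/-!
# LFM-D2: the congruences for the Lefschetz numbers

For `g ∣ d`, `0 < d` let `Λ' d` be the sum of `χ (St y d A)` over the `A` such that the greatest common
divisor of `d` and the levels of `A` is `1` (i.e. `hg` of `dvd_St` holds). Then `Λ d := χ (contactArcs d) =
∑_{g ∣ d} Λ' (d / g)`: group the `A` in `cls_eq_sum_St` by the greatest common divisor `g` of `d` and the levels;
`St y d A ≅ St y (d / g) A'`, `A' = {(i, l / g)}`, by `γ' (i, l) = γ (i, g l)`: `γ(t) = γ'(t ^ g)`, so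
`(along f γ).coeff (g l) = (along f γ').coeff l` and the coefficients with index not divisible by `g` vanish
(substitution `t ↦ t ^ g`: `Polynomial.expand`). `A ↦ A'` is a bijection of the sets `A` with greatest common
divisor `g` to the sets `A'` for `d / g` with greatest common divisor `1` (with `0 < level`).
Moebius inversion (`Nat.ArithmeticFunction`: `sum_eq_iff_sum_mul_moebius_eq`, stated with
`n.divisorsAntidiagonal`): `∑_{e ∣ d} μ (d / e) Λ e = Λ' d`, divisible by `d` by `dvd_St`.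
-/

open MvPolynomial

namespace MotMono
namespace LFM

variable {N : ℕ} {I₀ : Ideal (MvPolynomial (Fin N) ℂ)} {p : Fin N → ℂ}

theorem D2_constr_St (y : ConePoint I₀ p) (d : ℕ) (A : Finset (Fin N × Fin (d + 1))) :
    Constr (St y d A) := by
  have h1 := constr_contactArcs I₀ p y d
  have h2 : Constr (⋂ q : Fin N × Fin (d + 1),
      {γ : Fin N × Fin (d + 1) → ℂ | 0 < (q.2 : ℕ) → (γ q ≠ 0 ↔ q ∈ A)}) := by
    refine constr_iInter fun q => ?_
    by_cases hq : 0 < (q.2 : ℕ)
    · by_cases hA : q ∈ A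
      · have h := constr_ne (X q : MvPolynomial (Fin N × Fin (d + 1)) ℂ)
        simpa [hq, hA] using h
      · have h := Constr.zeroSet (X q : MvPolynomial (Fin N × Fin (d + 1)) ℂ)
        simpa [hq, hA] using h
    · have h := constr_univ (σ := Fin N × Fin (d + 1))
      have e : {γ : Fin N × Fin (d + 1) → ℂ | 0 < (q.2 : ℕ) → (γ q ≠ 0 ↔ q ∈ A)} = Set.univ := by
        ext γ
        simp only [Set.mem_ofPred_eq, Set.mem_univ, iff_true]
        intro h
        exact absurd h hq
      rw [e]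
      exact h
  have h3 := h1.inter h2
  have e : St y d A = contactArcs I₀ p y d ∩ ⋂ q : Fin N × Fin (d + 1),
      {γ : Fin N × Fin (d + 1) → ℂ | 0 < (q.2 : ℕ) → (γ q ≠ 0 ↔ q ∈ A)} := by
    ext γ
    simp only [St, Set.mem_ofPred_eq, Set.mem_inter_iff, Set.mem_iInter]
  rw [e]
  exact h3

/-- multiplication of the levels by `g` -/
def D2_mul (g e : ℕ) (hg : 0 < g) : Fin N × Fin (e + 1) ↪ Fin N × Fin (g * e + 1) where
  toFun q := (q.1, ⟨g * q.2, Nat.lt_succ_of_le (Nat.mul_le_mul_left g (Nat.le_of_lt_succ q.2.2))⟩)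
  inj' := by
    rintro ⟨i, l⟩ ⟨i', l'⟩ h
    simp only [Prod.mk.injEq, Fin.mk.injEq] at h
    obtain ⟨h1, h2⟩ := h
    have h3 := Nat.eq_of_mul_eq_mul_left hg h2
    rw [h1, Fin.ext h3]

theorem D2_mul_snd (g e : ℕ) (hg : 0 < g) (q : Fin N × Fin (e + 1)) :
    ((D2_mul g e hg q).2 : ℕ) = g * q.2 := rfl

theorem D2_mul_fst (g e : ℕ) (hg : 0 < g) (q : Fin N × Fin (e + 1)) :
    (D2_mul g e hg q).1 = q.1 := rfl

/-- the jet of `γ (t ^ g)` -/
noncomputable def D2_ext (g e : ℕ) (_ : 0 < g) (γ : Fin N × Fin (e + 1) → ℂ) :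
    Fin N × Fin (g * e + 1) → ℂ :=
  fun q => if g ∣ (q.2 : ℕ) then γ (q.1, ⟨(q.2 : ℕ) / g, by
    have := Nat.le_of_lt_succ q.2.2
    exact Nat.lt_succ_of_le (Nat.div_le_of_le_mul this)⟩) else 0

theorem D2_arc (g e : ℕ) (hg : 0 < g) (γ : Fin N × Fin (e + 1) → ℂ) (i : Fin N) :
    arc (D2_ext g e hg γ) i = Polynomial.expand ℂ g (arc γ i) := by
  ext n
  rw [Polynomial.coeff_expand hg]
  unfold arc
  simp only [Polynomial.finsetSum_coeff, Polynomial.coeff_C_mul, Polynomial.coeff_X_pow]
  by_cases hn : g ∣ n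
  · rw [if_pos hn]
    obtain ⟨k, rfl⟩ := hn
    rw [Nat.mul_div_cancel_left k hg]
    by_cases hk : k < e + 1
    · rw [Finset.sum_eq_single (⟨g * k, Nat.lt_succ_of_le
        (Nat.mul_le_mul_left g (Nat.le_of_lt_succ hk))⟩ : Fin (g * e + 1)),
        Finset.sum_eq_single (⟨k, hk⟩ : Fin (e + 1))]
      · simp [D2_ext, Nat.mul_div_cancel_left k hg]
      · intro b _ hb
        have : k ≠ (b : ℕ) := fun h => hb (Fin.ext h.symm)
        simp [this]
      · simp
      · intro b _ hb
        have : g * k ≠ (b : ℕ) := fun h => hb (Fin.ext h.symm)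
        simp [this]
      · simp
    · rw [Finset.sum_eq_zero, Finset.sum_eq_zero]
      · intro b _
        have : k ≠ (b : ℕ) := by have := b.2; omega
        simp [this]
      · intro b _
        have : g * k ≠ (b : ℕ) := by
          intro h
          have h1 := Nat.le_of_lt_succ b.2
          rw [← h] at h1
          have := Nat.le_of_mul_le_mul_left h1 hg
          omega
        simp [this]
  · rw [if_neg hn]
    refine Finset.sum_eq_zero fun b _ => ?_
    by_cases hb : n = (b : ℕ)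
    · have : ¬ g ∣ (b : ℕ) := by rwa [← hb]
      simp [D2_ext, this]
    · simp [hb]

theorem D2_along (g e : ℕ) (hg : 0 < g) (γ : Fin N × Fin (e + 1) → ℂ)
    (f : MvPolynomial (Fin N) ℂ) :
    along f (D2_ext g e hg γ) = Polynomial.expand ℂ g (along f γ) := by
  unfold along
  have h : (fun i => arc (D2_ext g e hg γ) i) = fun i => Polynomial.expand ℂ g (arc γ i) := by
    funext i
    exact D2_arc g e hg γ i
  change aeval (fun i => arc (D2_ext g e hg γ) i) f = _
  rw [h]
  induction f using MvPolynomial.induction_on with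
  | C a => simp
  | add p q hp hq => rw [map_add, hp, hq, map_add, map_add]
  | mul_X p i hp => rw [map_mul, hp, aeval_X, map_mul, map_mul, aeval_X]

theorem D2_contact (g e : ℕ) (hg : 0 < g) (y : ConePoint I₀ p) (γ : Fin N × Fin (e + 1) → ℂ) :
    D2_ext g e hg γ ∈ contactArcs I₀ p y (g * e) ↔ γ ∈ contactArcs I₀ p y e := by
  unfold contactArcs
  simp only [Set.mem_ofPred_eq]
  refine and_congr ?_ ?_
  · refine forall_congr' fun i => ?_
    have : D2_ext g e hg γ (i, 0) = γ (i, 0) := by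
      simp [D2_ext]
    rw [this]
  · refine forall_congr' fun f => forall_congr' fun hf => ?_
    rw [D2_along]
    refine and_congr ?_ ?_
    · constructor
      · intro h l hl
        have h1 := h (g * l) (Nat.mul_lt_mul_of_pos_left hl hg)
        rwa [Polynomial.coeff_expand hg, if_pos (dvd_mul_right g l),
          Nat.mul_div_cancel_left l hg] at h1
      · intro h l hl
        rw [Polynomial.coeff_expand hg]
        by_cases hd : g ∣ l
        · rw [if_pos hd]
          obtain ⟨k, rfl⟩ := hd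
          rw [Nat.mul_div_cancel_left k hg]
          exact h k (Nat.lt_of_mul_lt_mul_left hl)
        · rw [if_neg hd]
    · rw [Polynomial.coeff_expand hg, if_pos (dvd_mul_right g e), Nat.mul_div_cancel_left e hg]

theorem D2_iso (g e : ℕ) (hg : 0 < g) (y : ConePoint I₀ p) (A : Finset (Fin N × Fin (e + 1))) :
    RegIso (St y (g * e) (A.map (D2_mul g e hg))) (St y e A) := by
  have key : ∀ γ ∈ St y (g * e) (A.map (D2_mul g e hg)),
      D2_ext g e hg (fun q => γ (D2_mul g e hg q)) = γ := by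
    intro γ hγ
    funext q
    obtain ⟨i, l⟩ := q
    by_cases hd : g ∣ (l : ℕ)
    · simp only [D2_ext, if_pos hd]
      exact congrArg γ (Prod.ext rfl (Fin.ext (Nat.mul_div_cancel' hd)))
    · simp only [D2_ext, if_neg hd]
      have hl : 0 < (l : ℕ) := by
        rcases Nat.eq_zero_or_pos (l : ℕ) with h | h
        · exact absurd (h ▸ dvd_zero g) hd
        · exact h
      have h1 := (hγ.2 (i, l) hl).not
      rw [not_ne_iff] at h1
      symm
      apply h1.mpr
      intro hmem
      rw [Finset.mem_map] at hmem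
      obtain ⟨q, _, hq⟩ := hmem
      apply hd
      have h2 := congrArg (fun z => (z.2 : ℕ)) hq
      simp only [D2_mul_snd] at h2
      rw [← h2]
      exact dvd_mul_right _ _
  have key2 : ∀ γ : Fin N × Fin (e + 1) → ℂ,
      (fun q => D2_ext g e hg γ (D2_mul g e hg q)) = γ := by
    intro γ
    funext q
    have hd : g ∣ ((D2_mul g e hg q).2 : ℕ) := by
      rw [D2_mul_snd]
      exact dvd_mul_right _ _
    simp only [D2_ext, if_pos hd]
    exact congrArg γ (Prod.ext rfl (Fin.ext (Nat.mul_div_cancel_left _ hg)))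
  have hpos : ∀ q : Fin N × Fin (e + 1), (0 < ((D2_mul g e hg q).2 : ℕ)) ↔ 0 < (q.2 : ℕ) := by
    intro q
    rw [D2_mul_snd]
    simp [hg]
  refine ⟨fun γ q => γ (D2_mul g e hg q), fun γ => D2_ext g e hg γ, fun j => regFun_coord _ _,
    fun j => ?_, ?_, ?_, key, fun γ _ => key2 γ⟩
  · by_cases hd : g ∣ (j.2 : ℕ)
    · simp only [D2_ext, if_pos hd]
      exact regFun_coord _ _
    · simp only [D2_ext, if_neg hd]
      exact regFun_const _ 0
  · intro γ hγ
    refine ⟨?_, fun q hq => ?_⟩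
    · rw [← D2_contact g e hg, key γ hγ]
      exact hγ.1
    · have h := hγ.2 (D2_mul g e hg q) ((hpos q).mpr hq)
      rw [Finset.mem_map' (D2_mul g e hg)] at h
      exact h
  · intro γ hγ
    refine ⟨(D2_contact g e hg y γ).mpr hγ.1, fun q hq => ?_⟩
    by_cases hd : g ∣ (q.2 : ℕ)
    · obtain ⟨q', rfl⟩ : ∃ q', D2_mul g e hg q' = q := by
        refine ⟨(q.1, ⟨(q.2 : ℕ) / g, Nat.lt_succ_of_le
          (Nat.div_le_of_le_mul (Nat.le_of_lt_succ q.2.2))⟩), ?_⟩
        exact Prod.ext rfl (Fin.ext (Nat.mul_div_cancel' hd))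
      rw [Finset.mem_map' (D2_mul g e hg), ← hγ.2 q' ((hpos q').mp hq)]
      have h8 : D2_ext g e hg γ (D2_mul g e hg q') = γ q' := congrFun (key2 γ) q'
      exact not_congr (by rw [← h8])
    · have h1 : D2_ext g e hg γ q = 0 := by simp only [D2_ext, if_neg hd]
      rw [Finset.mem_map]
      refine ⟨fun h => absurd h1 h, ?_⟩
      rintro ⟨q', _, rfl⟩
      exfalso
      exact hd (dvd_mul_right _ _)

/-- the greatest common divisor of `d` and the levels -/
def D2_gcd (d : ℕ) (A : Finset (Fin N × Fin (d + 1))) : ℕ :=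
  Nat.gcd d (A.gcd fun q => (q.2 : ℕ))

theorem D2_dvd_gcd (d g : ℕ) (A : Finset (Fin N × Fin (d + 1))) :
    g ∣ D2_gcd d A ↔ g ∣ d ∧ ∀ q ∈ A, g ∣ (q.2 : ℕ) := by
  unfold D2_gcd
  rw [Nat.dvd_gcd_iff, Finset.dvd_gcd_iff]

open Classical in
/-- the sum over the strata with greatest common divisor `1` -/
noncomputable def D2_sum (χ : K0 →+* ℤ) (y : ConePoint I₀ p) (d : ℕ) : ℤ :=
  ∑ A ∈ ((Finset.univ.filter fun q : Fin N × Fin (d + 1) => 0 < (q.2 : ℕ)).powerset).filter
    (fun A => D2_gcd d A = 1), χ (cls (St y d A))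

theorem D2_gcd_map (g e : ℕ) (hg : 0 < g) (A : Finset (Fin N × Fin (e + 1))) :
    D2_gcd (g * e) (A.map (D2_mul g e hg)) = g * D2_gcd e A := by
  classical
  unfold D2_gcd
  have h3 : (A.map (D2_mul g e hg)).gcd (fun q => (q.2 : ℕ)) =
      g * A.gcd fun q => (q.2 : ℕ) := by
    rw [Finset.map_eq_image, Finset.gcd_image]
    have := Finset.gcd_mul_left (s := A) (f := fun q : Fin N × Fin (e + 1) => (q.2 : ℕ)) (a := g)
    simpa [Function.comp_def, D2_mul_snd] using this
  rw [h3, Nat.gcd_mul_left]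

open Classical in
theorem D2_group (χ : K0 →+* ℤ) (y : ConePoint I₀ p) {g e : ℕ} (hg : 0 < g) :
    ∑ A ∈ ((Finset.univ.filter fun q : Fin N × Fin (g * e + 1) => 0 < (q.2 : ℕ)).powerset).filter
      (fun A => D2_gcd (g * e) A = g), χ (cls (St y (g * e) A)) = D2_sum χ y e := by
  symm
  unfold D2_sum
  refine Finset.sum_bij (fun A _ => A.map (D2_mul g e hg)) ?_ ?_ ?_ ?_
  · intro A hA
    rw [Finset.mem_filter, Finset.mem_powerset] at hA ⊢
    obtain ⟨h1, h2⟩ := hA
    refine ⟨?_, ?_⟩
    · intro q hq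
      rw [Finset.mem_map] at hq
      obtain ⟨q', hq', rfl⟩ := hq
      have h3 := h1 hq'
      simp only [Finset.mem_filter, Finset.mem_univ, true_and] at h3 ⊢
      rw [D2_mul_snd]
      exact Nat.mul_pos hg h3
    · rw [D2_gcd_map, h2, mul_one]
  · intro A _ B _ h
    exact Finset.map_injective _ h
  · intro B hB
    rw [Finset.mem_filter, Finset.mem_powerset] at hB
    obtain ⟨h1, h2⟩ := hB
    have h3 := ((D2_dvd_gcd (g * e) g B).mp h2.symm.dvd).2
    have hpre : ∀ q ∈ B, ∃ q', D2_mul g e hg q' = q := by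
      intro q hq
      refine ⟨(q.1, ⟨(q.2 : ℕ) / g, Nat.lt_succ_of_le
        (Nat.div_le_of_le_mul (Nat.le_of_lt_succ q.2.2))⟩), ?_⟩
      exact Prod.ext rfl (Fin.ext (Nat.mul_div_cancel' (h3 q hq)))
    have hmap : (Finset.univ.filter fun q => D2_mul g e hg q ∈ B).map (D2_mul g e hg) = B := by
      ext q
      rw [Finset.mem_map]
      constructor
      · rintro ⟨q', hq', rfl⟩
        simpa using hq'
      · intro hq
        obtain ⟨q', rfl⟩ := hpre q hq
        exact ⟨q', by simpa using hq, rfl⟩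
    refine ⟨Finset.univ.filter fun q => D2_mul g e hg q ∈ B, ?_, hmap⟩
    rw [Finset.mem_filter, Finset.mem_powerset]
    refine ⟨fun q hq => ?_, ?_⟩
    · have h4 : D2_mul g e hg q ∈ B := by simpa using hq
      have h5 := h1 h4
      simp only [Finset.mem_filter, Finset.mem_univ, true_and] at h5 ⊢
      rw [D2_mul_snd] at h5
      exact Nat.pos_of_ne_zero fun h => by rw [h, mul_zero] at h5; exact lt_irrefl _ h5
    · have h6 : D2_gcd (g * e) ((Finset.univ.filter fun q => D2_mul g e hg q ∈ B).map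
          (D2_mul g e hg)) = g * D2_gcd e (Finset.univ.filter fun q => D2_mul g e hg q ∈ B) :=
        D2_gcd_map g e hg _
      rw [hmap, h2] at h6
      exact Nat.eq_of_mul_eq_mul_left hg (by rw [← h6, mul_one])
  · intro A hA
    rw [cls_iso (D2_constr_St y _ _) (D2_constr_St y _ _) (D2_iso g e hg y A)]

theorem dold {χ : K0 →+* ℤ} (hχ : IsEulerChar χ) (y : ConePoint I₀ p) {d : ℕ} (hd : 0 < d) :
    (d : ℤ) ∣ ∑ x ∈ d.divisorsAntidiagonal,
      ArithmeticFunction.moebius x.1 * χ (cls (contactArcs I₀ p y x.2)) := by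
  classical
  have h1 : ∀ n > 0, ∑ i ∈ n.divisors, D2_sum χ y i = χ (cls (contactArcs I₀ p y n)) := by
    intro n hn
    rw [cls_eq_sum_St, map_sum, ← Nat.sum_div_divisors]
    rw [← Finset.sum_fiberwise_of_maps_to (s := (Finset.univ.filter fun q : Fin N × Fin (n + 1) =>
      0 < (q.2 : ℕ)).powerset) (t := n.divisors) (g := fun A => D2_gcd n A)]
    · refine Finset.sum_congr rfl fun g hg => ?_
      rw [Nat.mem_divisors] at hg
      obtain ⟨⟨e, rfl⟩, hne⟩ := hg
      have hg0 : 0 < g := Nat.pos_of_ne_zero fun h => hne (by rw [h, zero_mul])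
      rw [Nat.mul_div_cancel_left e hg0]
      exact (D2_group χ y hg0).symm
    · intro A _
      rw [Nat.mem_divisors]
      exact ⟨Nat.gcd_dvd_left _ _, hn.ne'⟩
  have h2 := ArithmeticFunction.sum_eq_iff_sum_mul_moebius_eq.mp h1 d hd
  simp only [Int.cast_id] at h2
  rw [h2]
  refine Finset.dvd_sum fun A hA => ?_
  rw [Finset.mem_filter, Finset.mem_powerset] at hA
  refine dvd_St hχ y hd A (fun q hq => ?_) fun g hg1 hg2 => ?_
  · have := hA.1 hq
    simpa using this
  · have := (D2_dvd_gcd d g A).mpr ⟨hg1, hg2⟩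
    rw [hA.2] at this
    exact Nat.dvd_one.mp this

end LFM
end MotMono
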