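import Pool.Agent.Lib.MP_4e5fcd_ag.LF.Defs
import Pool.Agent.Lib.MP_4e5fcd_ag.Mon.Defs

/-!
# Ideals generated by products of monomials and of linear forms in disjoint monomials: definitions
-/

open MvPolynomial

namespace MotMono

/-- Let `y_k = ∏_{β l = k} x_l ^ (d l)`. The polynomial `f` is the product of a factor which does not
vanish at the origin, of powers of variables `x_l` which are the only variables of `y_(β l)`, and of
linear forms in the monomials `y_k`. -/
def IsProdMon {N s : ℕ} (β : Fin N → Fin s) (d : Fin N → ℕ) (f : MvPolynomial (Fin N) ℂ) : Prop :=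
  ∃ (u : MvPolynomial (Fin N) ℂ) (c : Fin N → ℕ) (n : ℕ) (a : Fin n → Fin s → ℂ),
    eval 0 u ≠ 0 ∧ (∀ l l', l ≠ l' → β l = β l' → c l = 0) ∧
    f = u * (∏ l, X l ^ c l) * ∏ j, ∑ k, C (a j k) * Mon.blockMon β d k

end MotMono
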