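import Pool.Agent.Lib.MP_4e5fcd_ag.LFM.Base
import Pool.Agent.Lib.MP_4e5fcd_ag.LF.T2
import Pool.Agent.Lib.MP_4e5fcd_ag.LF.T4

/-!
# LFM-E1: essential vectors: restriction to a flat, and positive vectors

`essX_ex`: as `ess_ex` (LF/T2, copy the proof): `DuX W X (ex F u) = mp F (DuX (restricted) X' u)`, the rest is
`maxB_mp`, `clo_ex`, `t2_linM`, `fc_ex`, `mn_ex`.
`flat_sptX`: as `flat_spt` (LF/T2).
`duX_eq`: `v > 0` on `sup W S ∪ X`, `Fc = S`.
`sep_of_essX`: as `sep_of_ess` (LF/T4): `z ∈ LinM (sup W S ∪ X) v`, `W_g · z = 0` on `S`: `z = c v` on `DuX`, and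
`0 = W_g · z = c * pair (W g) v = c * mn`, `mn > 0`, so `c = 0`; `z = 0` outside `DuX` by the definition of `LinM`.
(`W g` is supported in `sup W S` for `g ∈ S`.)
`essX_of_VV`: as `ess_of_VV` (LF/T4): `pos`: `v|D ∈ LinM` is not `0` (`D` is not empty: `Prim v` implies that `I`
is not empty, and `clo a ∅ v = 0`), so some `g ∈ R₀` has `pair (W g) v ≠ 0`; `closed`: `duX_eq`; `ext`: for
`z ∈ LinM` with `W_g · z = k_z` on `S` the vector `z - (k_z / mn) v|D` is in `LinM` and annihilated by all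
`g ∈ R₀ ⊆ S`.
-/

open MvPolynomial

namespace MotMono
namespace LFM

variable {J Γ : Type} [Fintype J] [Fintype Γ] {s : ℕ}

open Classical in
private theorem E1_mem_DuX {W : Γ → J → ℕ} {X : Finset J} {u : J → ℕ} {i : J} :
    i ∈ DuX W X u ↔ u i ≠ 0 ∧ (i ∈ X ∨ ∃ g ∈ LF.Fc W u, W g i ≠ 0) := by
  unfold DuX
  rw [Finset.mem_filter]
  exact ⟨fun h => h.2, fun h => ⟨Finset.mem_univ i, h⟩⟩

open Classical in
omit [Fintype Γ] in
private theorem E1_mem_sup {W : Γ → J → ℕ} {S : Finset Γ} {i : J} :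
    i ∈ sup W S ↔ ∃ g ∈ S, W g i ≠ 0 := by
  unfold sup
  rw [Finset.mem_filter]
  exact ⟨fun h => h.2, fun h => ⟨Finset.mem_univ i, h⟩⟩

open Classical in
private theorem E1_duX_ex {F : Finset J} (W : Γ → J → ℕ) (X : Finset J)
    (u : {i // i ∈ F} → ℕ) :
    DuX W X (LF.ex F u) = LF.mp F (DuX (fun g (i : {i // i ∈ F}) => W g i)
      (Finset.univ.filter fun i : {i // i ∈ F} => (i : J) ∈ X) u) := by
  ext i
  rw [LF.t2_mem_mp', E1_mem_DuX, LF.fc_ex]
  constructor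
  · rintro ⟨h1, h2⟩
    have hi : i ∈ F := by
      by_contra hi
      exact h1 (LF.t2_ex_of_notMem u hi)
    refine ⟨hi, ?_⟩
    rw [E1_mem_DuX, Finset.mem_filter]
    rw [LF.t2_ex_of_mem u hi] at h1
    exact ⟨h1, h2.imp (fun h => ⟨Finset.mem_univ _, h⟩) id⟩
  · rintro ⟨hi, h⟩
    rw [E1_mem_DuX, Finset.mem_filter] at h
    rw [LF.t2_ex_of_mem u hi]
    exact ⟨h.1, h.2.imp (fun h => h.2) id⟩

open Classical in
theorem essX_ex {lam : J → Fin s → ℂ} {F : Finset J} (W : Γ → J → ℕ)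
    (hF : ∀ i, lam i ∈ LF.sp lam (F : Set J) → i ∈ F) (X : Finset J) (u : {i // i ∈ F} → ℕ) :
    EssX lam W X (LF.ex F u) ↔
      EssX (fun i : {i // i ∈ F} => lam i) (fun g (i : {i // i ∈ F}) => W g i)
        (Finset.univ.filter fun i : {i // i ∈ F} => (i : J) ∈ X) u := by
  constructor
  · rintro ⟨h1, h2, h3⟩
    rw [E1_duX_ex] at h2 h3
    refine ⟨by rwa [LF.mn_ex] at h1, fun i => ?_, fun z hz hg => ?_⟩
    · have := h2 i
      rwa [LF.clo_ex hF, LF.t2_ex_coe, LF.t2_ex_coe] at this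
    · obtain ⟨c, hc⟩ := h3 (LF.ex F z) ((LF.t2_linM _ _ _).2 hz) (by
        intro g hg1 g' hg2
        rw [LF.fc_ex] at hg1 hg2
        rw [LF.t2_pq_ex, LF.t2_pq_ex]
        exact hg g hg1 g' hg2)
      refine ⟨c, fun i hi => ?_⟩
      have := hc i (by rwa [LF.t2_mem_mp])
      rwa [LF.t2_ex_coe, LF.t2_ex_coe] at this
  · rintro ⟨h1, h2, h3⟩
    refine ⟨by rwa [LF.mn_ex], fun i => ?_, fun z hz hg => ?_⟩
    · rw [E1_duX_ex, LF.clo_ex hF]
      congr 1
      exact funext h2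
    · rw [E1_duX_ex] at hz ⊢
      have hzz : z = LF.ex F (fun i : {i // i ∈ F} => z i) := by
        funext i
        by_cases hi : i ∈ F
        · rw [LF.t2_ex_of_mem _ hi]
        · rw [LF.t2_ex_of_notMem _ hi]
          refine hz.1 i fun h => hi ?_
          rw [LF.t2_mem_mp'] at h
          exact h.1
      rw [hzz] at hz
      obtain ⟨c, hc⟩ := h3 _ ((LF.t2_linM _ _ _).1 hz) (by
        intro g hg1 g' hg2
        have h4 := hg g (by rwa [LF.fc_ex]) g' (by rwa [LF.fc_ex])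
        rw [hzz, LF.t2_pq_ex, LF.t2_pq_ex] at h4
        exact h4)
      refine ⟨c, fun i hi => ?_⟩
      rw [LF.t2_mem_mp'] at hi
      obtain ⟨hiF, hi2⟩ := hi
      rw [LF.t2_ex_of_mem _ hiF]
      exact hc _ hi2

/-- only the part of `X` in the support matters -/
theorem essX_congr {lam : J → Fin s → ℂ} {W : Γ → J → ℕ} {X X' : Finset J} {u : J → ℕ}
    (h : ∀ i, u i ≠ 0 → (i ∈ X ↔ i ∈ X')) (he : EssX lam W X u) : EssX lam W X' u := by
  have hd : DuX W X u = DuX W X' u := by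
    ext i
    rw [E1_mem_DuX, E1_mem_DuX]
    constructor
    · rintro ⟨h1, h2⟩
      exact ⟨h1, h2.imp (h i h1).1 id⟩
    · rintro ⟨h1, h2⟩
      exact ⟨h1, h2.imp (h i h1).2 id⟩
  obtain ⟨h1, h2, h3⟩ := he
  rw [hd] at h2 h3
  exact ⟨h1, h2, h3⟩

/-- the support of a closed vector is a flat -/
theorem flat_sptX {lam : J → Fin s → ℂ} {W : Γ → J → ℕ} (hlam : ∀ i, lam i ≠ 0) {X : Finset J}
    {u : J → ℕ} (hu : EssX lam W X u) :
    ∀ i, lam i ∈ LF.sp lam (LF.spt u : Set J) → i ∈ LF.spt u := by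
  intro i hi
  have h1 := LF.clo_of_clo hlam (Finset.subset_univ (DuX W X u)) hu.closed i
  have h2 : (LF.spt u : Set J) = {j | j ∈ (Finset.univ : Finset J) ∧ 1 ≤ u j} := by
    ext j
    unfold LF.spt
    simp [Nat.one_le_iff_ne_zero]
  rw [h2, ← LF.le_clo_iff (hlam i) one_pos, h1] at hi
  unfold LF.spt
  simp only [Finset.mem_filter, Finset.mem_univ, true_and]
  omega

open Classical in
theorem duX_eq {W : Γ → J → ℕ} {S : Finset Γ} {X : Finset J} {v : J → ℕ}
    (hv : ∀ i ∈ sup W S ∪ X, 0 < v i) (hS : LF.Fc W v = S) : DuX W X v = sup W S ∪ X := by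
  ext i
  rw [E1_mem_DuX, hS, Finset.mem_union, E1_mem_sup]
  constructor
  · rintro ⟨-, h⟩
    exact h.symm
  · intro h
    refine ⟨(hv i ?_).ne', h.symm⟩
    rw [Finset.mem_union, E1_mem_sup]
    exact h

omit [Fintype Γ] in
/-- on the face the pairing with a multiple of `v` -/
private theorem E1_pair {W : Γ → J → ℕ} {S : Finset Γ} {v : J → ℕ} {z : J → ℚ} {c : ℚ}
    (hz : ∀ i ∈ sup W S, z i = c * v i) {g : Γ} (hg : g ∈ S) :
    LF.pq (W g) z = c * pair (W g) v := by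
  have h1 : LF.pq (W g) z = LF.pq (W g) (fun i => c * (v i : ℚ)) :=
    LF.pq_congr fun i hi => hz i (E1_mem_sup.mpr ⟨g, hg, hi⟩)
  rw [h1, ← LF.pq_natCast]
  unfold LF.pq
  rw [Finset.mul_sum]
  exact Finset.sum_congr rfl fun i _ => by ring

private theorem E1_pq_sub (v : J → ℕ) (y z : J → ℚ) (c : ℚ) :
    LF.pq v (y - c • z) = LF.pq v y - c * LF.pq v z := by
  unfold LF.pq
  rw [Finset.mul_sum, ← Finset.sum_sub_distrib]
  refine Finset.sum_congr rfl fun i _ => ?_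
  simp only [Pi.sub_apply, Pi.smul_apply, smul_eq_mul]
  ring

open Classical in
theorem sep_of_essX [Nonempty Γ] {lam : J → Fin s → ℂ} {W : Γ → J → ℕ} {S : Finset Γ}
    {X : Finset J} {v : J → ℕ} (hv : ∀ i ∈ sup W S ∪ X, 0 < v i) (hS : LF.Fc W v = S)
    (he : EssX lam W X v) : LF.Sep W S (LF.LinM lam (sup W S ∪ X) v) := by
  intro z hz hz0
  have hdu := duX_eq hv hS
  obtain ⟨c, hc⟩ := he.ext z (by rw [hdu]; exact hz) (by
    rw [hS]
    intro g hg g' hg'
    rw [hz0 g hg, hz0 g' hg'])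
  rw [hdu] at hc
  obtain ⟨g, hg⟩ := LF.Fc_nonempty W v
  have hmn := LF.mn_eq hg
  rw [hS] at hg
  have h1 := E1_pair (v := v) (fun i hi => hc i (Finset.mem_union_left X hi)) hg
  rw [hz0 g hg, ← hmn] at h1
  have hpos : (LF.mn W v : ℚ) ≠ 0 := by exact_mod_cast he.pos.ne'
  have hc0 : c = 0 := by
    rcases mul_eq_zero.mp h1.symm with h | h
    · exact h
    · exact absurd h hpos
  funext i
  by_cases hi : i ∈ sup W S ∪ X
  · rw [hc i hi, hc0, zero_mul]
    rfl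
  · exact hz.1 i hi

open Classical in
theorem essX_of_VV [Nonempty Γ] {lam : J → Fin s → ℂ} {W : Γ → J → ℕ} (hlam : ∀ i, lam i ≠ 0)
    {S R₀ : Finset Γ} {X : Finset J} {v : J → ℕ} (hR : R₀ ⊆ S)
    (hv : v ∈ VVX lam W S R₀ (sup W S ∪ X)) : EssX lam W X v := by
  obtain ⟨hpos, hprim, hcl, hS, hsep⟩ := hv
  have hdu := duX_eq hpos hS
  set D : Finset J := sup W S ∪ X with hDdef
  have hv' : (fun i => if i ∈ D then (v i : ℚ) else 0) ∈ LF.LinM lam D v := by
    convert LF.self_mem_LinM lam D v using 3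
  have hpv : ∀ g ∈ S, LF.pq (W g) (fun i => if i ∈ D then (v i : ℚ) else 0) = LF.mn W v := by
    intro g hg
    rw [E1_pair (v := v) (c := 1) (fun i hi => by
      rw [if_pos (Finset.mem_union_left X hi), one_mul]) hg, one_mul, LF.mn_eq (hS ▸ hg)]
  have hmn : 0 < LF.mn W v := by
    rw [Nat.pos_iff_ne_zero]
    intro h0
    have h1 := hsep _ hv' (fun g hg => by rw [hpv g (hR hg), h0]; rfl)
    have hDe : D = ∅ := by
      rw [Finset.eq_empty_iff_forall_notMem]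
      intro i hi
      have h2 := congrFun h1 i
      simp only [if_pos hi, Pi.zero_apply, Nat.cast_eq_zero] at h2
      exact (hpos i hi).ne' h2
    have hv0 : ∀ i : J, v i = 0 := by
      intro i
      by_contra hi
      have h2 := (LF.le_clo_iff (a := lam) (D := D) (x := v) (i := i) (hlam i)
        (Nat.pos_of_ne_zero hi)).mp (hcl i).ge
      rw [hDe] at h2
      apply hlam i
      simpa [LF.sp] using h2
    have := hprim 0 (fun i => by rw [hv0 i])
    exact absurd this (by norm_num)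
  refine ⟨hmn, ?_, ?_⟩
  · rw [hdu]
    exact hcl
  · rw [hdu, hS]
    intro z hz hzz
    obtain ⟨g₀, hg₀⟩ := LF.Fc_nonempty W v
    rw [hS] at hg₀
    have hmn' : (LF.mn W v : ℚ) ≠ 0 := by exact_mod_cast hmn.ne'
    refine ⟨LF.pq (W g₀) z / LF.mn W v, ?_⟩
    have h1 := hsep (z - (LF.pq (W g₀) z / LF.mn W v) • (fun i => if i ∈ D then (v i : ℚ) else 0))
      (Submodule.sub_mem _ hz (Submodule.smul_mem _ _ hv')) (by
        intro g hg
        rw [E1_pq_sub, hpv g (hR hg), hzz g (hR hg) g₀ hg₀, div_mul_cancel₀ _ hmn', sub_self])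
    intro i hi
    have h2 := congrFun h1 i
    simp only [Pi.sub_apply, Pi.smul_apply, if_pos hi, smul_eq_mul, Pi.zero_apply] at h2
    linarith

end LFM
end MotMono
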