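import Pool.Agent.Lib.MP_4e5fcd_ag.LFM.Base
import Pool.Agent.Lib.MP_4e5fcd_ag.LF.T2
import Pool.Agent.Lib.MP_4e5fcd_ag.LF.S2

/-!
# LFM-E2: multiples of essential vectors

`Fc W (e u) = Fc W u`, `mn W (e u) = e mn W u`, `DuX W X (e u) = DuX W X u`, `clo a D (e u) = e clo a D u` (`LF.clo_smul`),
`MaxB a D (e u) B ↔ MaxB a D u B` (`LF.maxB_smul`), so `LinM a D (e u) = LinM a D u` (`LF.linM_congr`); in `ext` replace `c` by `e c` or
`c / e`. `nu_smul`: `LF.nu_clo`: for a closed vector `nu a u = ∑_{b ∈ B} u b` for `MaxB a univ u B`; for arbitrary `u` use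
`nu a u = ∑_{c} rkS {c + 1 ≤ u j}`: for `MaxB a univ u B` the rank of the level `c` is the number of `b ∈ B` with `c ≤ u b`
(`MaxB.card_level`), so `nu a u = ∑_{b ∈ B} u b` in general.
`exists_prim`: `e` = the greatest common divisor of the `u i`.
-/

open MvPolynomial

namespace MotMono
namespace LFM

variable {J Γ : Type} [Fintype J] [Fintype Γ] {s : ℕ}

private theorem e2_pair (v u : J → ℕ) (e : ℕ) : pair v (fun i => e * u i) = e * pair v u := by
  unfold pair
  rw [Finset.mul_sum]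
  refine Finset.sum_congr rfl fun i _ => ?_
  ring

theorem fc_smul (W : Γ → J → ℕ) (u : J → ℕ) {e : ℕ} (he : 0 < e) :
    LF.Fc W (fun i => e * u i) = LF.Fc W u ∧ LF.mn W (fun i => e * u i) = e * LF.mn W u := by
  constructor
  · unfold LF.Fc
    simp only [e2_pair, Nat.mul_le_mul_left_iff he]
  · unfold LF.mn
    simp only [e2_pair]
    rcases isEmpty_or_nonempty Γ with hΓ | hΓ
    · rw [Set.range_eq_empty, Set.range_eq_empty, Nat.sInf_empty, mul_zero]
    · apply le_antisymm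
      · obtain ⟨g, hg⟩ := Nat.sInf_mem (Set.range_nonempty fun g => pair (W g) u)
        rw [← hg]
        exact Nat.sInf_le ⟨g, rfl⟩
      · obtain ⟨g, hg⟩ := Nat.sInf_mem (Set.range_nonempty fun g => e * pair (W g) u)
        rw [← hg]
        exact Nat.mul_le_mul_left e (Nat.sInf_le ⟨g, rfl⟩)

private theorem e2_nu {a : J → Fin s → ℂ} {u : J → ℕ} {B : Finset J}
    (hB : LF.MaxB a Finset.univ u B) : LF.nu a u = ∑ b ∈ B, u b := by
  classical
  unfold LF.nu
  have h1 : ∀ c, LF.rkS a {j | c + 1 ≤ u j} = ∑ b ∈ B, if c + 1 ≤ u b then 1 else 0 := by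
    intro c
    have h2 : {j | c + 1 ≤ u j} = {j | j ∈ (Finset.univ : Finset J) ∧ c + 1 ≤ u j} := by
      ext j
      simp
    rw [h2, ← hB.card_level (c + 1), Finset.card_filter]
  simp only [h1]
  rw [Finset.sum_comm]
  refine Finset.sum_congr rfl fun b _ => ?_
  have h3 : u b ≤ ∑ j, u j :=
    Finset.single_le_sum (f := u) (fun _ _ => Nat.zero_le _) (Finset.mem_univ b)
  rw [← Finset.card_filter]
  have h4 : (Finset.range (∑ j, u j)).filter (fun c => c + 1 ≤ u b) = Finset.range (u b) := by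
    ext c
    simp only [Finset.mem_filter, Finset.mem_range]
    omega
  rw [h4, Finset.card_range]

theorem nu_smul (a : J → Fin s → ℂ) (u : J → ℕ) (e : ℕ) :
    LF.nu a (fun i => e * u i) = e * LF.nu a u := by
  obtain ⟨B, hB⟩ := LF.exists_maxB a Finset.univ u
  rcases Nat.eq_zero_or_pos e with he | he
  · subst he
    simp [LF.nu]
  · rw [e2_nu hB, e2_nu ((LF.maxB_smul he).2 hB), Finset.mul_sum]

theorem essX_smul {a : J → Fin s → ℂ} (ha : ∀ i, a i ≠ 0) {W : Γ → J → ℕ} {X : Finset J}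
    {u : J → ℕ} {e : ℕ} (he : 0 < e) (h : EssX a W X fun i => e * u i) : EssX a W X u := by
  obtain ⟨hFc, hmn⟩ := fc_smul W u he
  have hDu : DuX W X (fun i => e * u i) = DuX W X u := by
    ext i
    unfold DuX
    simp only [Finset.mem_filter, Finset.mem_univ, true_and, hFc]
    refine and_congr_left fun _ => ?_
    rw [Nat.mul_ne_zero_iff]
    exact ⟨fun h => h.2, fun h => ⟨he.ne', h⟩⟩
  obtain ⟨h1, h2, h3⟩ := h
  rw [hDu] at h2 h3
  rw [hFc] at h3
  refine ⟨?_, fun i => ?_, fun z hz hz' => ?_⟩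
  · rw [hmn] at h1
    exact Nat.pos_of_mul_pos_left h1
  · have h4 := h2 i
    rw [LF.clo_smul (ha i) he] at h4
    exact Nat.eq_of_mul_eq_mul_left he h4
  · have h5 : LF.LinM a (DuX W X u) (fun i => e * u i) = LF.LinM a (DuX W X u) u :=
      LF.linM_congr fun B => LF.maxB_smul he
    obtain ⟨c, hc⟩ := h3 z (by rw [h5]; exact hz) hz'
    refine ⟨c * e, fun i hi => ?_⟩
    rw [hc i hi]
    push_cast
    ring

theorem exists_prim {u : J → ℕ} (hu : u ≠ 0) :
    ∃ (e : ℕ) (v : J → ℕ), 0 < e ∧ Prim v ∧ u = fun i => e * v i := by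
  have hpos : 0 < Finset.univ.gcd u := by
    rw [Nat.pos_iff_ne_zero]
    intro h
    apply hu
    funext i
    exact Finset.gcd_eq_zero_iff.1 h i (Finset.mem_univ i)
  have hdv : ∀ i, Finset.univ.gcd u ∣ u i := fun i => Finset.gcd_dvd (Finset.mem_univ i)
  refine ⟨Finset.univ.gcd u, fun i => u i / Finset.univ.gcd u, hpos, fun d hd => ?_, ?_⟩
  · have h1 : Finset.univ.gcd u * d ∣ Finset.univ.gcd u * 1 := by
      rw [mul_one]
      refine Finset.dvd_gcd fun i _ => ?_
      obtain ⟨k, hk⟩ := hd i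
      refine ⟨k, ?_⟩
      have h2 := Nat.mul_div_cancel' (hdv i)
      simp only at hk
      rw [hk] at h2
      rw [← h2, mul_assoc]
    exact Nat.dvd_one.1 (Nat.dvd_of_mul_dvd_mul_left hpos h1)
  · funext i
    exact (Nat.mul_div_cancel' (hdv i)).symm

end LFM
end MotMono
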