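import Pool.Agent.Lib.MP_4e5fcd_ag.LFM.X2
import Pool.Agent.Lib.MP_4e5fcd_ag.LF.J2
import Pool.Agent.Lib.MP_4e5fcd_ag.Kum.S3a
import Pool.Agent.Lib.MP_4e5fcd_ag.Mon.G2

/-!
# LFM-G1: orders and leading coefficients of the generators
-/

open MvPolynomial

namespace MotMono
namespace LFM

variable {J Γ : Type} [Fintype J] {N s : ℕ} (D : Dat J Γ N s)

/-- the forms which vanish at the point -/
noncomputable def Dat.Fp (p : Fin N → ℂ) : Finset (J ⊕ Fin s) := by
  classical
  exact Finset.univ.filter fun i => D.av i ⬝ᵥ yv D.β D.d p = 0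

private theorem g1_mul {P Q : Polynomial ℂ} {p q : ℕ} (hP : ∀ e < p, P.coeff e = 0)
    (hQ : ∀ e < q, Q.coeff e = 0) :
    (∀ e < p + q, (P * Q).coeff e = 0) ∧ (P * Q).coeff (p + q) = P.coeff p * Q.coeff q := by
  obtain ⟨P', rfl⟩ := Polynomial.X_pow_dvd_iff.2 hP
  obtain ⟨Q', rfl⟩ := Polynomial.X_pow_dvd_iff.2 hQ
  have h1 : Polynomial.X ^ p * P' * (Polynomial.X ^ q * Q') =
      Polynomial.X ^ (p + q) * (P' * Q') := by ring
  rw [h1]
  refine ⟨fun e he => ?_, ?_⟩
  · rw [Polynomial.coeff_X_pow_mul', if_neg (not_le.2 he)]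
  · simp only [Polynomial.coeff_X_pow_mul', le_refl, if_true, Nat.sub_self,
      Polynomial.mul_coeff_zero]

private theorem g1_pow {P : Polynomial ℂ} {p : ℕ} (hP : ∀ e < p, P.coeff e = 0) (m : ℕ) :
    (∀ e < m * p, (P ^ m).coeff e = 0) ∧ (P ^ m).coeff (m * p) = P.coeff p ^ m := by
  induction m with
  | zero => simp
  | succ m ih =>
    have h := g1_mul ih.1 hP
    rw [pow_succ, pow_succ, show (m + 1) * p = m * p + p by ring, h.2, ih.2]
    exact ⟨h.1, rfl⟩

theorem prod_ord {ι : Type} (A : Finset ι) (F : ι → Polynomial ℂ) (m r : ι → ℕ) (c : ι → ℂ)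
    (h1 : ∀ i ∈ A, ∀ e < r i, (F i).coeff e = 0) (h2 : ∀ i ∈ A, (F i).coeff (r i) = c i) :
    (∀ e < ∑ i ∈ A, m i * r i, (∏ i ∈ A, F i ^ m i).coeff e = 0) ∧
      (∏ i ∈ A, F i ^ m i).coeff (∑ i ∈ A, m i * r i) = ∏ i ∈ A, c i ^ m i := by
  classical
  induction A using Finset.induction_on with
  | empty => simp
  | insert a A ha ih =>
    have h3 := ih (fun i hi => h1 i (Finset.mem_insert_of_mem hi))
      (fun i hi => h2 i (Finset.mem_insert_of_mem hi))
    have h4 := g1_pow (h1 a (Finset.mem_insert_self _ _)) (m a)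
    have h5 := g1_mul h4.1 h3.1
    rw [Finset.prod_insert ha, Finset.sum_insert ha, Finset.prod_insert ha]
    refine ⟨h5.1, ?_⟩
    rw [h5.2, h4.2, h3.2, h2 a (Finset.mem_insert_self _ _)]

theorem E_pos : 0 < D.E := Finset.prod_pos fun l _ => D.hd l

private theorem g1_dvd (l : Fin N) : D.d l ∣ D.E := Finset.dvd_prod_of_mem _ (Finset.mem_univ l)

private theorem g1_arc {n : ℕ} (γ : Fin N × Fin (n + 1) → ℂ) (l : Fin N) :
    (∀ e < Mon.ord1 (fun j => γ (l, j)), (arc γ l).coeff e = 0) ∧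
      (arc γ l).coeff (Mon.ord1 fun j => γ (l, j)) = Mon.lead1 fun j => γ (l, j) := by
  refine ⟨fun e he => ?_, ?_⟩
  · rw [a1_arc_coeff]
    split_ifs with h
    · exact Mon.eq_zero_of_lt_ord1 (fun j => γ (l, j)) ⟨e, h⟩ he
    · rfl
  · rw [a1_arc_coeff, Mon.lead1]

private theorem g1_ord0 {n : ℕ} {γ : Fin N × Fin (n + 1) → ℂ} {l : Fin N} (h : γ (l, 0) ≠ 0) :
    Mon.ord1 (fun j => γ (l, j)) = 0 ∧ Mon.lead1 (fun j => γ (l, j)) = γ (l, 0) := by
  have h1 : Mon.ord1 (fun j => γ (l, j)) = 0 := by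
    rw [Mon.ord1_eq_iff _ _ (Nat.zero_le _)]
    exact ⟨fun j hj => absurd hj (Nat.not_lt_zero _), fun h' => h⟩
  refine ⟨h1, ?_⟩
  have h2 := (g1_arc γ l).2
  rw [h1, a1_arc_coeff, dif_pos (Nat.succ_pos n)] at h2
  exact h2.symm

private theorem g1_alone {g : Γ} {l : Fin N} (h : D.c g l ≠ 0) :
    Finset.univ.filter (fun l' => D.β l' = D.β l) = {l} := by
  ext l'
  simp only [Finset.mem_filter, Finset.mem_univ, true_and, Finset.mem_singleton]
  constructor
  · intro h1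
    by_contra h2
    exact h (D.hc g l l' (fun h3 => h2 h3.symm) h1.symm)
  · rintro rfl
    rfl

private theorem g1_yv {g : Γ} {l : Fin N} (h : D.c g l ≠ 0) (p : Fin N → ℂ) :
    yv D.β D.d p (D.β l) = p l ^ D.d l := by
  unfold yv
  rw [g1_alone D h, Finset.prod_singleton]

private theorem g1_zc {g : Γ} {l : Fin N} (h : D.c g l ≠ 0) {n : ℕ} (γ : Fin N × Fin n → ℂ)
    (e : ℕ) : Mon.zc D.β D.d γ e (D.β l) = (arc γ l ^ D.d l).coeff e := by
  unfold Mon.zc
  rw [g1_alone D h, Finset.prod_singleton]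

private theorem g1_mem {p : Fin N → ℂ} (i : J ⊕ Fin s) :
    i ∈ D.Fp p ↔ D.av i ⬝ᵥ yv D.β D.d p = 0 := by
  classical
  unfold Dat.Fp
  simp

private theorem g1_avr (k : Fin s) (v : Fin s → ℂ) : D.av (Sum.inr k) ⬝ᵥ v = v k := by
  simp [Dat.av]

private theorem g1_memr {g : Γ} {l : Fin N} (h : D.c g l ≠ 0) (p : Fin N → ℂ) :
    Sum.inr (D.β l) ∈ D.Fp p ↔ p l = 0 := by
  rw [g1_mem, g1_avr, g1_yv D h]
  exact pow_eq_zero_iff (D.hd l).ne'

private theorem g1_vv {I : Type} {a : I → Fin s → ℂ} {n : ℕ} {y : Fin s × Fin (n + 1) → ℂ}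
    {i : I} {P : Polynomial ℂ} (hP : ∀ e (h : e < n + 1), P.coeff e = a i ⬝ᵥ lev y ⟨e, h⟩)
    (h0 : P.coeff 0 = 0) :
    (∀ e < LF.vv a y i + 1, P.coeff e = 0) ∧
      (LF.vv a y i < n → P.coeff (LF.vv a y i + 1) = LF.lc a y i) := by
  constructor
  · intro e he
    rcases e with _ | e
    · exact h0
    · have h1 := LF.vv_le a y i
      rw [hP (e + 1) (by omega)]
      exact (LF.le_vv_iff (a := a) (γ := y) (i := i) h1).1 le_rfl ⟨e, by omega⟩
        (by simpa using (by omega : e < LF.vv a y i))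
  · intro h
    rw [hP _ (by omega), LF.lc_eq h]
    rfl

private theorem g1_A {n : ℕ} (γ : Fin N × Fin n → ℂ) (j : J) (e : ℕ) :
    (along (∑ k, C (D.a j k) * Mon.blockMon D.β D.d k) γ).coeff e =
      D.a j ⬝ᵥ Mon.zc D.β D.d γ e := by
  unfold along Mon.blockMon
  rw [map_sum, Polynomial.finsetSum_coeff, dotProduct]
  refine Finset.sum_congr rfl fun k _ => ?_
  rw [map_mul, aeval_C, Polynomial.algebraMap_eq, Polynomial.coeff_C_mul, map_prod]
  simp only [map_pow, aeval_X]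
  rfl

private theorem g1_gen {n : ℕ} (γ : Fin N × Fin n → ℂ) (g : Γ) :
    along (D.gen g) γ = along (D.U g) γ * (∏ l, arc γ l ^ D.c g l) *
      ∏ j, along (∑ k, C (D.a j k) * Mon.blockMon D.β D.d k) γ ^ D.w g j := by
  unfold Dat.gen along
  rw [map_mul, map_mul, map_prod, map_prod]
  simp only [map_pow, aeval_X]

/-- the order of the variable of a block of one variable -/
private theorem g1_blk {g : Γ} {l : Fin N} (hc : D.c g l ≠ 0) {n : ℕ}
    {γ : Fin N × Fin (n + 1) → ℂ} (h0 : γ (l, 0) = 0) :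
    (LF.vv D.av (yj D.β D.d γ) (Sum.inr (D.β l)) < n →
      LF.vv D.av (yj D.β D.d γ) (Sum.inr (D.β l)) + 1 = D.d l * Mon.ord1 (fun j => γ (l, j)) ∧
        Mon.ord1 (fun j => γ (l, j)) < n + 1) ∧
    (LF.vv D.av (yj D.β D.d γ) (Sum.inr (D.β l)) = n →
      n + 1 ≤ D.d l * Mon.ord1 (fun j => γ (l, j))) := by
  have hd := D.hd l
  have hP : ∀ e (h : e < n + 1), (arc γ l ^ D.d l).coeff e =
      D.av (Sum.inr (D.β l)) ⬝ᵥ lev (yj D.β D.d γ) ⟨e, h⟩ := by
    intro e h
    rw [g1_avr, ← g1_zc D hc]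
    rfl
  have hP0 : (arc γ l ^ D.d l).coeff 0 = 0 := by
    rw [Polynomial.coeff_zero_eq_eval_zero, Polynomial.eval_pow,
      ← Polynomial.coeff_zero_eq_eval_zero, a1_arc_coeff, dif_pos (Nat.succ_pos n)]
    exact (congrArg (· ^ D.d l) h0).trans (zero_pow hd.ne')
  obtain ⟨v1, v2⟩ := g1_vv (a := D.av) (y := yj D.β D.d γ) hP hP0
  obtain ⟨p1, p2⟩ := g1_pow (g1_arc γ l).1 (D.d l)
  rw [(g1_arc γ l).2] at p2
  set v := LF.vv D.av (yj D.β D.d γ) (Sum.inr (D.β l)) with hv
  set O := Mon.ord1 (fun j => γ (l, j)) with hO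
  have hne : O < n + 1 → (arc γ l ^ D.d l).coeff (D.d l * O) ≠ 0 := by
    intro h
    rw [p2]
    exact pow_ne_zero _ (Mon.lead1_ne_zero _ h)
  have hOle : O ≤ n + 1 := Mon.ord1_le _
  constructor
  · intro h
    have h1 : ¬ v + 1 < D.d l * O := by
      intro h2
      have h3 := p1 _ h2
      rw [v2 h] at h3
      exact LF.lc_ne_zero _ _ _ h3
    have h2 : O < n + 1 := by
      have : O ≤ D.d l * O := Nat.le_mul_of_pos_left _ hd
      omega
    have h3 : ¬ D.d l * O < v + 1 := fun h4 => hne h2 (v1 _ h4)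
    exact ⟨by omega, h2⟩
  · intro h
    rcases Nat.lt_or_ge O (n + 1) with h1 | h1
    · have h3 : ¬ D.d l * O < v + 1 := fun h4 => hne h1 (v1 _ h4)
      omega
    · have : O ≤ D.d l * O := Nat.le_mul_of_pos_left _ hd
      omega

private theorem g1_Wr {g : Γ} {l : Fin N} (hc : D.c g l ≠ 0) : D.W g (Sum.inr (D.β l)) ≠ 0 := by
  have h1 : D.W g (Sum.inr (D.β l)) = D.E / D.d l * D.c g l := by
    unfold Dat.W
    simp only [Sum.elim_inr]
    rw [g1_alone D hc, Finset.sum_singleton]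
  rw [h1]
  exact mul_ne_zero (Nat.div_pos (Nat.le_of_dvd (E_pos D) (g1_dvd D l)) (D.hd l)).ne' hc

open Classical in
private theorem g1_caseA {n : ℕ} (γ : Fin N × Fin (n + 1) → ℂ) (p : Fin N → ℂ)
    (h0 : ∀ l, γ (l, 0) = p l) (g : Γ) (hU : eval p (D.U g) ≠ 0)
    (ha : ∀ i ∈ D.Fp p, D.W g i ≠ 0 → LF.vv D.av (yj D.β D.d γ) i < n) :
    ∃ r, D.E * r = ∑ i ∈ D.Fp p, D.W g i * (LF.vv D.av (yj D.β D.d γ) i + 1) ∧
      (∀ e < r, (along (D.gen g) γ).coeff e = 0) ∧
      (along (D.gen g) γ).coeff r = eval p (D.U g) *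
        (∏ l, if p l = 0 then Mon.lead1 (fun j => γ (l, j)) ^ D.c g l else p l ^ D.c g l) *
        (∏ j, if Sum.inl j ∈ D.Fp p then LF.lc D.av (yj D.β D.d γ) (Sum.inl j) ^ D.w g j
          else (D.a j ⬝ᵥ yv D.β D.d p) ^ D.w g j) ∧
      (along (D.gen g) γ).coeff r ≠ 0 := by
  set vv := LF.vv D.av (yj D.β D.d γ) with hvv
  set O : Fin N → ℕ := fun l => Mon.ord1 (fun j => γ (l, j)) with hO
  set rj : J → ℕ := fun j => if Sum.inl j ∈ D.Fp p then vv (Sum.inl j) + 1 else 0 with hrj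
  set cj : J → ℂ := fun j => if Sum.inl j ∈ D.Fp p then LF.lc D.av (yj D.β D.d γ) (Sum.inl j)
    else D.a j ⬝ᵥ yv D.β D.d p with hcj
  have hp0 : (fun l => γ (l, 0)) = p := funext h0
  -- the factor of the unit
  have hUc : (along (D.U g) γ).coeff 0 = eval p (D.U g) := by
    rw [LF.coeff_along_zero, hp0]
  -- the variables
  have hL := prod_ord Finset.univ (fun l => arc γ l) (D.c g) O
    (fun l => Mon.lead1 (fun j => γ (l, j))) (fun l _ => (g1_arc γ l).1)
    (fun l _ => (g1_arc γ l).2)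
  have hLv : ∏ l, Mon.lead1 (fun j => γ (l, j)) ^ D.c g l =
      ∏ l, if p l = 0 then Mon.lead1 (fun j => γ (l, j)) ^ D.c g l else p l ^ D.c g l := by
    refine Finset.prod_congr rfl fun l _ => ?_
    split_ifs with h
    · rfl
    · rw [← h0 l] at h
      rw [(g1_ord0 h).2, h0 l]
  have hLn : ∏ l, Mon.lead1 (fun j => γ (l, j)) ^ D.c g l ≠ 0 := by
    refine Finset.prod_ne_zero_iff.2 fun l _ => ?_
    by_cases hc : D.c g l = 0
    · rw [hc, pow_zero]
      exact one_ne_zero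
    · refine pow_ne_zero _ ?_
      by_cases hp : p l = 0
      · have h1 := ha _ ((g1_memr D hc p).2 hp) (g1_Wr D hc)
        exact Mon.lead1_ne_zero _ ((g1_blk D hc ((h0 l).trans hp)).1 h1).2
      · rw [← h0 l] at hp
        rw [(g1_ord0 hp).2]
        exact hp
  -- the forms
  have hA0 : ∀ j, (along (∑ k, C (D.a j k) * Mon.blockMon D.β D.d k) γ).coeff 0 =
      D.a j ⬝ᵥ yv D.β D.d p := by
    intro j
    rw [g1_A]
    congr 1
    funext k
    have := yj_zero D.β D.d γ k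
    rw [hp0] at this
    exact this
  have hAe : ∀ j e (h : e < n + 1),
      (along (∑ k, C (D.a j k) * Mon.blockMon D.β D.d k) γ).coeff e =
      D.av (Sum.inl j) ⬝ᵥ lev (yj D.β D.d γ) ⟨e, h⟩ := by
    intro j e h
    rw [g1_A]
    rfl
  have hWl : ∀ j, D.w g j ≠ 0 → D.W g (Sum.inl j) ≠ 0 := by
    intro j hj
    unfold Dat.W
    simp only [Sum.elim_inl]
    exact mul_ne_zero (E_pos D).ne' hj
  have hJ := prod_ord (Finset.univ.filter fun j => D.w g j ≠ 0)
    (fun j => along (∑ k, C (D.a j k) * Mon.blockMon D.β D.d k) γ) (D.w g) rj cj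
    (by
      intro j _ e he
      by_cases hj : Sum.inl j ∈ D.Fp p
      · have h1 : (along (∑ k, C (D.a j k) * Mon.blockMon D.β D.d k) γ).coeff 0 = 0 := by
          rw [hA0]
          exact (g1_mem D _).1 hj
        rw [hrj] at he
        simp only [if_pos hj] at he
        exact (g1_vv (a := D.av) (y := yj D.β D.d γ) (hAe j) h1).1 e he
      · rw [hrj] at he
        simp only [if_neg hj] at he
        exact absurd he (Nat.not_lt_zero _))
    (by
      intro j hjw
      rw [Finset.mem_filter] at hjw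
      by_cases hj : Sum.inl j ∈ D.Fp p
      · have h1 : (along (∑ k, C (D.a j k) * Mon.blockMon D.β D.d k) γ).coeff 0 = 0 := by
          rw [hA0]
          exact (g1_mem D _).1 hj
        rw [hrj, hcj]
        simp only [if_pos hj]
        exact (g1_vv (a := D.av) (y := yj D.β D.d γ) (hAe j) h1).2 (ha _ hj (hWl j hjw.2))
      · rw [hrj, hcj]
        simp only [if_neg hj]
        exact hA0 j)
  have hJ1 : ∏ j ∈ Finset.univ.filter (fun j => D.w g j ≠ 0),
      along (∑ k, C (D.a j k) * Mon.blockMon D.β D.d k) γ ^ D.w g j =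
      ∏ j, along (∑ k, C (D.a j k) * Mon.blockMon D.β D.d k) γ ^ D.w g j := by
    refine Finset.prod_subset (Finset.filter_subset _ _) fun j _ hj => ?_
    have : D.w g j = 0 := by
      by_contra h
      exact hj (Finset.mem_filter.2 ⟨Finset.mem_univ _, h⟩)
    rw [this, pow_zero]
  have hJ2 : ∏ j ∈ Finset.univ.filter (fun j => D.w g j ≠ 0), cj j ^ D.w g j =
      ∏ j, cj j ^ D.w g j := by
    refine Finset.prod_subset (Finset.filter_subset _ _) fun j _ hj => ?_
    have : D.w g j = 0 := by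
      by_contra h
      exact hj (Finset.mem_filter.2 ⟨Finset.mem_univ _, h⟩)
    rw [this, pow_zero]
  have hJ3 : ∑ j ∈ Finset.univ.filter (fun j => D.w g j ≠ 0), D.w g j * rj j =
      ∑ j, D.w g j * rj j := by
    refine Finset.sum_subset (Finset.filter_subset _ _) fun j _ hj => ?_
    have : D.w g j = 0 := by
      by_contra h
      exact hj (Finset.mem_filter.2 ⟨Finset.mem_univ _, h⟩)
    rw [this, zero_mul]
  rw [hJ1, hJ2, hJ3] at hJ
  have hJn : ∏ j, cj j ^ D.w g j ≠ 0 := by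
    refine Finset.prod_ne_zero_iff.2 fun j _ => pow_ne_zero _ ?_
    rw [hcj]
    by_cases hj : Sum.inl j ∈ D.Fp p
    · simp only [if_pos hj]
      exact LF.lc_ne_zero _ _ _
    · simp only [if_neg hj]
      intro h
      exact hj ((g1_mem D _).2 h)
  have hJv : ∏ j, cj j ^ D.w g j = ∏ j, if Sum.inl j ∈ D.Fp p then
      LF.lc D.av (yj D.β D.d γ) (Sum.inl j) ^ D.w g j else (D.a j ⬝ᵥ yv D.β D.d p) ^ D.w g j := by
    refine Finset.prod_congr rfl fun j _ => ?_
    rw [hcj]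
    by_cases hj : Sum.inl j ∈ D.Fp p
    · simp only [if_pos hj]
    · simp only [if_neg hj]
  -- the product
  have hUL := g1_mul (P := along (D.U g) γ) (p := 0)
    (fun e he => absurd he (Nat.not_lt_zero _)) hL.1
  have hT := g1_mul hUL.1 hJ.1
  rw [← g1_gen D γ g, hUL.2, hUc, hL.2, hJ.2] at hT
  refine ⟨_, ?_, hT.1, ?_, ?_⟩
  · rw [mul_add, mul_add, mul_zero, zero_add]
    have hR : ∑ i ∈ D.Fp p, D.W g i * (vv i + 1) =
        ∑ i, if i ∈ D.Fp p then D.W g i * (vv i + 1) else 0 := by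
      rw [Finset.sum_ite_mem, Finset.univ_inter]
    rw [hR, Fintype.sum_sum_type, add_comm]
    congr 1
    · rw [Finset.mul_sum]
      refine Finset.sum_congr rfl fun j _ => ?_
      rw [hrj]
      unfold Dat.W
      simp only [Sum.elim_inl]
      split_ifs <;> ring
    · have h1 : ∀ l, (if Sum.inr (D.β l) ∈ D.Fp p then
          D.E / D.d l * D.c g l * (vv (Sum.inr (D.β l)) + 1) else 0) =
            D.E * (D.c g l * O l) := by
        intro l
        by_cases hc : D.c g l = 0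
        · rw [hc]
          simp
        · by_cases hp : p l = 0
          · rw [if_pos ((g1_memr D hc p).2 hp)]
            have h1 := ha _ ((g1_memr D hc p).2 hp) (g1_Wr D hc)
            rw [((g1_blk D hc ((h0 l).trans hp)).1 h1).1]
            calc D.E / D.d l * D.c g l * (D.d l * O l) =
                (D.E / D.d l * D.d l) * (D.c g l * O l) := by ring
              _ = D.E * (D.c g l * O l) := by rw [Nat.div_mul_cancel (g1_dvd D l)]
          · rw [if_neg (fun h => hp ((g1_memr D hc p).1 h))]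
            have h2 : O l = 0 := (g1_ord0 (by rw [h0 l]; exact hp)).1
            rw [h2]
            ring
      have h2 : ∑ l, D.E * (D.c g l * O l) = ∑ k, ∑ l ∈ Finset.univ.filter (fun l => D.β l = k),
          (if Sum.inr (D.β l) ∈ D.Fp p then
            D.E / D.d l * D.c g l * (vv (Sum.inr (D.β l)) + 1) else 0) := by
        rw [Finset.sum_fiberwise Finset.univ D.β (fun l => if Sum.inr (D.β l) ∈ D.Fp p then
          D.E / D.d l * D.c g l * (vv (Sum.inr (D.β l)) + 1) else 0)]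
        exact (Finset.sum_congr rfl fun l _ => h1 l).symm
      rw [Finset.mul_sum, h2]
      refine Finset.sum_congr rfl fun k _ => ?_
      unfold Dat.W
      simp only [Sum.elim_inr]
      split_ifs with h
      · rw [Finset.sum_mul]
        refine Finset.sum_congr rfl fun l hl => ?_
        rw [(Finset.mem_filter.1 hl).2, if_pos h]
      · refine Finset.sum_eq_zero fun l hl => ?_
        rw [(Finset.mem_filter.1 hl).2, if_neg h]
  · rw [hT.2, hLv, hJv]
  · rw [hT.2]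
    exact mul_ne_zero (mul_ne_zero hU hLn) hJn

private theorem g1_caseB {n : ℕ} (γ : Fin N × Fin (n + 1) → ℂ) (p : Fin N → ℂ)
    (h0 : ∀ l, γ (l, 0) = p l) (g : Γ) {i : J ⊕ Fin s} (hi : i ∈ D.Fp p) (hW : D.W g i ≠ 0)
    (hv : LF.vv D.av (yj D.β D.d γ) i = n) :
    n + 1 ≤ ∑ i ∈ D.Fp p, D.W g i * (LF.vv D.av (yj D.β D.d γ) i + 1) ∧
      ∀ k, D.E * k ≤ n + 1 → ∀ e < k, (along (D.gen g) γ).coeff e = 0 := by
  constructor
  · have h1 := Finset.single_le_sum
      (f := fun i => D.W g i * (LF.vv D.av (yj D.β D.d γ) i + 1)) (s := D.Fp p)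
      (fun _ _ => Nat.zero_le _) hi
    refine le_trans ?_ h1
    simp only [hv]
    exact Nat.le_mul_of_pos_left _ (Nat.pos_of_ne_zero hW)
  · intro k hk
    rw [← Polynomial.X_pow_dvd_iff, g1_gen]
    rcases i with j | k'
    · refine Dvd.dvd.mul_left ?_ _
      have hw : D.w g j ≠ 0 := by
        intro h
        apply hW
        unfold Dat.W
        simp only [Sum.elim_inl]
        rw [h, mul_zero]
      refine Dvd.dvd.trans ?_ (Finset.dvd_prod_of_mem _ (Finset.mem_univ j))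
      refine Dvd.dvd.trans ?_ (dvd_pow_self _ hw)
      rw [Polynomial.X_pow_dvd_iff]
      intro e he
      have h1 : (along (∑ k, C (D.a j k) * Mon.blockMon D.β D.d k) γ).coeff 0 = 0 := by
        rw [g1_A]
        have h2 := (g1_mem D (p := p) _).1 hi
        have h3 : Mon.zc D.β D.d γ 0 = yv D.β D.d p := by
          funext k
          have := yj_zero D.β D.d γ k
          rw [show (fun l => γ (l, 0)) = p from funext h0] at this
          exact this
        rw [h3]
        exact h2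
      refine (g1_vv (a := D.av) (y := yj D.β D.d γ) (i := Sum.inl j) (fun e h => ?_) h1).1 e ?_
      · rw [g1_A]
        rfl
      · rw [hv]
        have : k ≤ D.E * k := Nat.le_mul_of_pos_left _ (E_pos D)
        omega
    · refine Dvd.dvd.mul_right (Dvd.dvd.mul_left ?_ _) _
      have h1 : ∑ l ∈ Finset.univ.filter (fun l => D.β l = k'), D.E / D.d l * D.c g l ≠ 0 := hW
      obtain ⟨l, hl, hl2⟩ := Finset.exists_ne_zero_of_sum_ne_zero h1
      have hc : D.c g l ≠ 0 := fun h => hl2 (by rw [h, mul_zero])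
      have hlk : D.β l = k' := (Finset.mem_filter.1 hl).2
      subst hlk
      have hp : p l = 0 := (g1_memr D hc p).1 hi
      have h3 := (g1_blk D hc ((h0 l).trans hp)).2 hv
      have h4 : D.E * k ≤ D.E * Mon.ord1 (fun j => γ (l, j)) :=
        hk.trans (h3.trans (Nat.mul_le_mul_right _ (Nat.le_of_dvd (E_pos D) (g1_dvd D l))))
      have h5 : k ≤ Mon.ord1 (fun j => γ (l, j)) := Nat.le_of_mul_le_mul_left h4 (E_pos D)
      refine Dvd.dvd.trans ?_ (Finset.dvd_prod_of_mem _ (Finset.mem_univ l))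
      refine Dvd.dvd.trans ?_ (dvd_pow_self _ hc)
      rw [Polynomial.X_pow_dvd_iff]
      exact fun e he => (g1_arc γ l).1 e (lt_of_lt_of_le he h5)

theorem gen_lt_iff {n : ℕ} (γ : Fin N × Fin (n + 1) → ℂ) (p : Fin N → ℂ)
    (h0 : ∀ l, γ (l, 0) = p l) (g : Γ) (hU : eval p (D.U g) ≠ 0) (k : ℕ) (hk : D.E * k ≤ n + 1) :
    (∀ l < k, (along (D.gen g) γ).coeff l = 0) ↔
      D.E * k ≤ ∑ i ∈ D.Fp p, D.W g i * (LF.vv D.av (yj D.β D.d γ) i + 1) := by
  by_cases h : ∃ i ∈ D.Fp p, D.W g i ≠ 0 ∧ LF.vv D.av (yj D.β D.d γ) i = n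
  · obtain ⟨i, hi, hW, hv⟩ := h
    obtain ⟨h1, h2⟩ := g1_caseB D γ p h0 g hi hW hv
    exact ⟨fun _ => hk.trans h1, fun _ => h2 k hk⟩
  · push Not at h
    obtain ⟨r, h1, h2, h3, h4⟩ := g1_caseA D γ p h0 g hU
      (fun i hi hW => lt_of_le_of_ne (LF.vv_le _ _ _) (h i hi hW))
    rw [← h1]
    constructor
    · intro h5
      refine Nat.mul_le_mul_left _ ?_
      by_contra h6
      exact h4 (h5 r (not_le.1 h6))
    · intro h5 l hl
      exact h2 l (lt_of_lt_of_le hl (Nat.le_of_mul_le_mul_left h5 (E_pos D)))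

open Classical in
theorem gen_coeff {n : ℕ} (γ : Fin N × Fin (n + 1) → ℂ) (p : Fin N → ℂ)
    (h0 : ∀ l, γ (l, 0) = p l) (g : Γ) (hU : eval p (D.U g) ≠ 0) (k : ℕ) (hk : D.E * k ≤ n)
    (h : ∑ i ∈ D.Fp p, D.W g i * (LF.vv D.av (yj D.β D.d γ) i + 1) = D.E * k) :
    (along (D.gen g) γ).coeff k = eval p (D.U g) *
      (∏ l, if p l = 0 then Mon.lead1 (fun j => γ (l, j)) ^ D.c g l else p l ^ D.c g l) *
      ∏ j, if Sum.inl j ∈ D.Fp p then LF.lc D.av (yj D.β D.d γ) (Sum.inl j) ^ D.w g j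
        else (D.a j ⬝ᵥ yv D.β D.d p) ^ D.w g j := by
  obtain ⟨r, h1, h2, h3, h4⟩ := g1_caseA D γ p h0 g hU (by
    intro i hi hW
    refine lt_of_le_of_ne (LF.vv_le _ _ _) fun hv => ?_
    have := (g1_caseB D γ p h0 g hi hW hv).1
    omega)
  have h5 : r = k := Nat.eq_of_mul_eq_mul_left (E_pos D) (h1.trans h)
  rw [← h5]
  exact h3

end LFM
end MotMono
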