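import Pool.Agent.Lib.MP_4e5fcd_ag.LFM.X2
import Pool.Agent.Lib.MP_4e5fcd_ag.LF.X4
import Pool.Agent.Lib.MP_4e5fcd_ag.Mon.R2a
import Pool.Agent.Lib.MP_4e5fcd_ag.Mon.G2

/-!
# LFM-X3a: jets over a deep point: reduction to the fixed points of a torus

`constr_A0`: `constr_yj`, `LF.constr_vv_lc` for the condition `vv = v` and `lc ∈ ..`; `Mon.lead1` is a coordinate on
the pieces where the first nonzero coefficient is fixed (finite union over the possible values of
`Mon.ord1`), so the set `{γ | Sum.elim (lead1 ..) (lc ..) ∈ R}` intersected with `vv = v` is a finite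
union of constructible sets.
`chi_A0_fixed`: `Mon.chi_fixed` for the weights `w q = ω q.1`, `ω (ch i) = d (cp i)`, `ω (cp i) = -1`
for `i ∈ C`; `ω (ch i) = 1` for `i ∈ K \ C` with `n ≤ v i`; `ω = 0` otherwise (the variables `ch i`, `cp i` for
different `i` are in different blocks `bl i`, so `ω` is well defined: `hbl`, `hch`, `hcp`).
-/

open MvPolynomial

namespace MotMono
namespace LFM

variable {I Γ : Type} [Fintype I] {N s : ℕ} (L : MLoc I Γ N s)

open Classical in
/-- the jets at the deep point with orders `v` and a condition on leading coefficients -/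
noncomputable def MLoc.A0 (C A : Finset I) (n : ℕ) (v : I → ℕ) (R : Set (I ⊕ I → ℂ)) :
    Set (Fin N × Fin (n + 1) → ℂ) :=
  {γ | (∀ l, γ (l, 0) = L.pC C l) ∧ LF.vv L.a (yj L.β L.d γ) = v ∧
    Sum.elim (fun i => if i ∈ A then Mon.lead1 (fun j => γ (L.ch i, j)) else 1)
      (LF.lc L.a (yj L.β L.d γ)) ∈ R}

omit [Fintype I] in
private theorem X3a_lc (a : I → Fin s → ℂ) (v : I → ℕ) {n : ℕ} (i : I) :
    ∃ g : MvPolynomial (Fin s × Fin (n + 1)) ℂ, ∀ γ : Fin s × Fin (n + 1) → ℂ,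
      LF.vv a γ i = v i → LF.lc a γ i = eval γ g := by
  classical
  by_cases h : v i < n
  · refine ⟨∑ j, C (a i j) * X (j, Fin.succ ⟨v i, h⟩), fun γ hγ => ?_⟩
    have h1 : LF.vv a γ i < n := by rw [hγ]; exact h
    rw [LF.lc_eq h1]
    simp only [hγ, map_sum, map_mul, eval_C, eval_X, dotProduct, lev]
  · refine ⟨1, fun γ hγ => ?_⟩
    unfold LF.lc
    rw [dif_neg (by rw [hγ]; exact h), map_one]

private theorem X3a_Q (a : I → Fin s → ℂ) (v : I → ℕ) {n : ℕ} {R : Set (I ⊕ I → ℂ)}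
    (hR : Constr R) (q : I → MvPolynomial (Fin N × Fin (n + 1)) ℂ) :
    Constr {z : (Fin N × Fin (n + 1)) ⊕ Fin s × Fin (n + 1) → ℂ |
      LF.vv a (fun x => z (Sum.inr x)) = v ∧
      Sum.elim (fun i => eval (fun x => z (Sum.inl x)) (q i))
        (LF.lc a fun x => z (Sum.inr x)) ∈ R} := by
  classical
  have hex := fun i => X3a_lc (s := s) a v (n := n) i
  choose g hg using hex
  have h1 : Constr {z : (Fin N × Fin (n + 1)) ⊕ Fin s × Fin (n + 1) → ℂ |
      LF.vv a (fun x => z (Sum.inr x)) = v} := (LF.constr_vv (n := n) a v).comp Sum.inr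
  have h2 := hR.preimage (fun j : I ⊕ I => Sum.elim
    (fun i => rename (Sum.inl : Fin N × Fin (n + 1) → (Fin N × Fin (n + 1)) ⊕ Fin s × Fin (n + 1))
      (q i))
    (fun i => rename (Sum.inr : Fin s × Fin (n + 1) → (Fin N × Fin (n + 1)) ⊕ Fin s × Fin (n + 1))
      (g i)) j)
  have h3 := h1.inter h2
  refine (congrArg Constr ?_).mp h3
  ext z
  simp only [Set.mem_inter_iff, Set.mem_ofPred_eq]
  refine and_congr_right fun hz => ?_
  have h4 : (fun j : I ⊕ I => eval z (Sum.elim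
      (fun i => rename (Sum.inl : Fin N × Fin (n + 1) → (Fin N × Fin (n + 1)) ⊕ Fin s × Fin (n + 1))
        (q i))
      (fun i => rename (Sum.inr : Fin s × Fin (n + 1) → (Fin N × Fin (n + 1)) ⊕ Fin s × Fin (n + 1))
        (g i)) j)) = Sum.elim (fun i => eval (fun x => z (Sum.inl x)) (q i))
        (LF.lc a fun x => z (Sum.inr x)) := by
    funext j
    rcases j with i | i
    · simp only [Sum.elim_inl, eval_rename]
      rfl
    · simp only [Sum.elim_inr, eval_rename]
      rw [hg i (fun x => z (Sum.inr x)) (congrFun hz i)]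
      rfl
  rw [h4]

theorem constr_A0 (C A : Finset I) (n : ℕ) (v : I → ℕ) {R : Set (I ⊕ I → ℂ)} (hR : Constr R) :
    Constr (L.A0 C A n v R) := by
  classical
  -- the pieces
  let q : (I → Fin (n + 2)) → I → MvPolynomial (Fin N × Fin (n + 1)) ℂ := fun o i =>
    if i ∈ A then (if h : (o i : ℕ) < n + 1 then X (L.ch i, ⟨o i, h⟩) else 0) else 1
  have hbase : Constr {γ : Fin N × Fin (n + 1) → ℂ | ∀ l, γ (l, 0) = L.pC C l} := by
    have h1 : {γ : Fin N × Fin (n + 1) → ℂ | ∀ l, γ (l, 0) = L.pC C l} =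
        ⋂ l, {γ | eval γ (X (l, 0) : MvPolynomial (Fin N × Fin (n + 1)) ℂ) =
          eval γ (MvPolynomial.C (L.pC C l))} := by
      ext γ
      simp
    rw [h1]
    exact constr_iInter fun l => constr_eq _ _
  have hord : ∀ o : I → Fin (n + 2),
      Constr {γ : Fin N × Fin (n + 1) → ℂ | ∀ i, Mon.ord1 (fun j => γ (L.ch i, j)) = o i} := by
    intro o
    have h1 : {γ : Fin N × Fin (n + 1) → ℂ | ∀ i, Mon.ord1 (fun j => γ (L.ch i, j)) = o i} =
        ⋂ i, {γ | Mon.ord1 (fun j => γ (L.ch i, j)) = o i} := by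
      ext γ
      simp
    rw [h1]
    exact constr_iInter fun i => Mon.constr_ord1 _ _
  have hpiece : ∀ o : I → Fin (n + 2), Constr {γ : Fin N × Fin (n + 1) → ℂ |
      LF.vv L.a (yj L.β L.d γ) = v ∧ Sum.elim (fun i => eval γ (q o i))
        (LF.lc L.a (yj L.β L.d γ)) ∈ R} := by
    intro o
    exact constr_yj L.β L.d _ (X3a_Q L.a v hR (q o))
  have hunion : L.A0 C A n v R = ⋃ o : I → Fin (n + 2),
      (({γ : Fin N × Fin (n + 1) → ℂ | ∀ l, γ (l, 0) = L.pC C l} ∩
        {γ : Fin N × Fin (n + 1) → ℂ | ∀ i, Mon.ord1 (fun j => γ (L.ch i, j)) = o i}) ∩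
        {γ : Fin N × Fin (n + 1) → ℂ |
          LF.vv L.a (yj L.β L.d γ) = v ∧ Sum.elim (fun i => eval γ (q o i))
            (LF.lc L.a (yj L.β L.d γ)) ∈ R}) := by
    have hq : ∀ (o : I → Fin (n + 2)) (γ : Fin N × Fin (n + 1) → ℂ),
        (∀ i, Mon.ord1 (fun j => γ (L.ch i, j)) = o i) →
        (fun i => eval γ (q o i)) =
          fun i => if i ∈ A then Mon.lead1 (fun j => γ (L.ch i, j)) else 1 := by
      intro o γ ho
      funext i
      simp only [q]
      split_ifs with hi h2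
      · rw [eval_X]
        unfold Mon.lead1
        have h3 : Mon.ord1 (fun j => γ (L.ch i, j)) < n + 1 := by rw [ho i]; exact h2
        rw [dif_pos h3]
        simp only [ho i]
      · unfold Mon.lead1
        have h3 : ¬ Mon.ord1 (fun j => γ (L.ch i, j)) < n + 1 := by rw [ho i]; exact h2
        rw [dif_neg h3, map_zero]
      · rw [map_one]
    ext γ
    simp only [Set.mem_iUnion, Set.mem_inter_iff, Set.mem_ofPred_eq]
    constructor
    · rintro ⟨h1, h2, h3⟩
      refine ⟨fun i => ⟨Mon.ord1 (fun j => γ (L.ch i, j)), Nat.lt_succ_of_le (Mon.ord1_le _)⟩,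
        ⟨h1, fun i => rfl⟩, h2, ?_⟩
      rw [hq _ γ fun i => rfl]
      exact h3
    · rintro ⟨o, ⟨h1, h2⟩, h3, h4⟩
      rw [hq o γ h2] at h4
      exact ⟨h1, h3, h4⟩
  rw [hunion]
  exact constr_iUnion fun o => (hbase.inter (hord o)).inter (hpiece o)

/-- the other variables of the blocks do not vanish -/
theorem p_ne_zero {i : I} (hi : i ∈ L.K) {l : Fin N} (hl : L.β l = L.bl i) (hne : l ≠ L.ch i) :
    L.p l ≠ 0 := by
  intro h
  rcases L.hp l h with ⟨i', hi', hl'⟩ | ⟨-, -, h3⟩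
  · have h1 : L.bl i = L.bl i' := by
      rw [← hl, hl']
      exact (L.hch i' hi').1
    have h2 := L.hbl i hi i' hi' h1
    rw [← h2] at hl'
    exact hne hl'
  · exact h3 i hi hl.symm

private theorem X3a_Lam {i : I} (hi : i ∈ L.Lam) : i ∈ L.K ∧ L.d (L.ch i) = 1 :=
  Finset.mem_filter.1 hi

private theorem X3a_pC_ch (C : Finset I) {i : I} (hi : i ∈ L.K) : L.pC C (L.ch i) = 0 := by
  classical
  unfold MLoc.pC
  split_ifs
  · rfl
  · exact (L.hch i hi).2

private theorem X3a_pC_cp (C : Finset I) {i : I} (hi : i ∈ C) : L.pC C (L.cp i) = 0 := by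
  classical
  unfold MLoc.pC
  rw [if_pos ⟨i, hi, rfl⟩]

theorem yv_pC {C : Finset I} (hC : C ⊆ L.Lam) : yv L.β L.d (L.pC C) = yv L.β L.d L.p := by
  classical
  funext k
  unfold yv
  by_cases h : ∃ i ∈ C, L.bl i = k
  · obtain ⟨i, hi, hk⟩ := h
    obtain ⟨hiK, hid⟩ := X3a_Lam L (hC hi)
    have hmem : L.ch i ∈ Finset.univ.filter (fun l => L.β l = k) := by
      rw [Finset.mem_filter]
      exact ⟨Finset.mem_univ _, by rw [(L.hch i hiK).1, hk]⟩
    rw [Finset.prod_eq_zero hmem, Finset.prod_eq_zero hmem]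
    · rw [(L.hch i hiK).2, zero_pow (L.hd _).ne']
    · rw [X3a_pC_ch L C hiK, zero_pow (L.hd _).ne']
  · refine Finset.prod_congr rfl (fun l hl => ?_)
    have hl2 : L.β l = k := (Finset.mem_filter.1 hl).2
    unfold MLoc.pC
    rw [if_neg]
    rintro ⟨i, hi, hil⟩
    obtain ⟨hiK, hid⟩ := X3a_Lam L (hC hi)
    refine h ⟨i, hi, ?_⟩
    rw [← hl2, ← hil]
    exact (L.hcp i hiK hid).1.symm

open Classical in
/-- the weights of the torus -/
private noncomputable def X3a_om (L : MLoc I Γ N s) (C : Finset I) (n : ℕ) (v : I → ℕ)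
    (l : Fin N) : ℤ :=
  ∑ i ∈ C, ((if l = L.ch i then (L.d (L.cp i) : ℤ) else 0) - (if l = L.cp i then 1 else 0)) +
    ∑ i ∈ (L.K \ C).filter (fun i => n ≤ v i), (if l = L.ch i then 1 else 0)

private theorem X3a_om_ch {C : Finset I} (hC : C ⊆ L.Lam) (n : ℕ) (v : I → ℕ) {i : I}
    (hi : i ∈ C) : X3a_om L C n v (L.ch i) = L.d (L.cp i) := by
  classical
  obtain ⟨hiK, hid⟩ := X3a_Lam L (hC hi)
  unfold X3a_om
  rw [Finset.sum_eq_single i, Finset.sum_eq_zero]
  · rw [if_pos rfl, if_neg (L.hcp i hiK hid).2.1.symm]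
    ring
  · intro i' hi'
    rw [Finset.mem_filter, Finset.mem_sdiff] at hi'
    rw [if_neg]
    intro h
    have h1 : L.bl i = L.bl i' := by
      rw [← (L.hch i hiK).1, ← (L.hch i' hi'.1.1).1, h]
    exact hi'.1.2 (L.hbl i hiK i' hi'.1.1 h1 ▸ hi)
  · intro i' hi' hne
    obtain ⟨hiK', hid'⟩ := X3a_Lam L (hC hi')
    have h0 : L.bl i ≠ L.bl i' := fun h => hne (L.hbl i hiK i' hiK' h).symm
    rw [if_neg, if_neg, sub_zero]
    · intro h
      apply h0
      rw [← (L.hch i hiK).1, ← (L.hcp i' hiK' hid').1, h]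
    · intro h
      apply h0
      rw [← (L.hch i hiK).1, ← (L.hch i' hiK').1, h]
  · intro h
    exact absurd hi h

private theorem X3a_om_cp {C : Finset I} (hC : C ⊆ L.Lam) (n : ℕ) (v : I → ℕ) {i : I}
    (hi : i ∈ C) : X3a_om L C n v (L.cp i) = -1 := by
  classical
  obtain ⟨hiK, hid⟩ := X3a_Lam L (hC hi)
  have hcpi := L.hcp i hiK hid
  unfold X3a_om
  rw [Finset.sum_eq_single i, Finset.sum_eq_zero]
  · rw [if_pos rfl, if_neg hcpi.2.1]
    ring
  · intro i' hi'
    rw [Finset.mem_filter, Finset.mem_sdiff] at hi'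
    rw [if_neg]
    intro h
    have h1 : L.bl i = L.bl i' := by
      rw [← hcpi.1, ← (L.hch i' hi'.1.1).1, h]
    exact hi'.1.2 (L.hbl i hiK i' hi'.1.1 h1 ▸ hi)
  · intro i' hi' hne
    obtain ⟨hiK', hid'⟩ := X3a_Lam L (hC hi')
    have h0 : L.bl i ≠ L.bl i' := fun h => hne (L.hbl i hiK i' hiK' h).symm
    rw [if_neg, if_neg, sub_zero]
    · intro h
      apply h0
      rw [← hcpi.1, ← (L.hcp i' hiK' hid').1, h]
    · intro h
      apply h0
      rw [← hcpi.1, ← (L.hch i' hiK').1, h]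
  · intro h
    exact absurd hi h

private theorem X3a_om_top {C : Finset I} (hC : C ⊆ L.Lam) (n : ℕ) (v : I → ℕ) {i : I}
    (hi : i ∈ L.K) (hiC : i ∉ C) :
    X3a_om L C n v (L.ch i) = if n ≤ v i then 1 else 0 := by
  classical
  unfold X3a_om
  have h1 : ∑ i' ∈ C, ((if L.ch i = L.ch i' then (L.d (L.cp i') : ℤ) else 0) -
      (if L.ch i = L.cp i' then 1 else 0)) = 0 := by
    refine Finset.sum_eq_zero (fun i' hi' => ?_)
    obtain ⟨hiK', hid'⟩ := X3a_Lam L (hC hi')
    have h0 : L.bl i ≠ L.bl i' := fun h => hiC (L.hbl i hi i' hiK' h ▸ hi')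
    rw [if_neg, if_neg, sub_zero]
    · intro h
      apply h0
      rw [← (L.hch i hi).1, ← (L.hcp i' hiK' hid').1, h]
    · intro h
      apply h0
      rw [← (L.hch i hi).1, ← (L.hch i' hiK').1, h]
  have h2 : ∀ i' ∈ (L.K \ C).filter (fun i => n ≤ v i), i' ≠ i →
      (if L.ch i = L.ch i' then (1 : ℤ) else 0) = 0 := by
    intro i' hi' hne
    rw [Finset.mem_filter, Finset.mem_sdiff] at hi'
    rw [if_neg]
    intro h
    apply hne
    refine (L.hbl i hi i' hi'.1.1 ?_).symm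
    rw [← (L.hch i hi).1, ← (L.hch i' hi'.1.1).1, h]
  rw [h1, zero_add]
  split_ifs with h
  · rw [Finset.sum_eq_single i h2, if_pos rfl]
    intro h3
    exact absurd (Finset.mem_filter.2 ⟨Finset.mem_sdiff.2 ⟨hi, hiC⟩, h⟩) h3
  · refine Finset.sum_eq_zero (fun i' hi' => h2 i' hi' ?_)
    rintro rfl
    exact h (Finset.mem_filter.1 hi').2

private theorem X3a_om_ne {C : Finset I} (hC : C ⊆ L.Lam) (n : ℕ) (v : I → ℕ) {l : Fin N}
    (h : X3a_om L C n v l ≠ 0) :
    (∃ i ∈ C, l = L.ch i ∨ l = L.cp i) ∨ ∃ i ∈ L.K, i ∉ C ∧ n ≤ v i ∧ l = L.ch i := by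
  classical
  by_contra hcon
  push Not at hcon
  apply h
  unfold X3a_om
  rw [Finset.sum_eq_zero, Finset.sum_eq_zero, add_zero]
  · intro i hi
    rw [Finset.mem_filter, Finset.mem_sdiff] at hi
    rw [if_neg (hcon.2 i hi.1.1 hi.1.2 hi.2)]
  · intro i hi
    rw [if_neg (hcon.1 i hi).1, if_neg (hcon.1 i hi).2, sub_zero]

private theorem X3a_one (m : Fin N) (c : ℤ) (k : Fin s) (d : Fin N → ℕ) (β : Fin N → Fin s) :
    ∑ l ∈ Finset.univ.filter (fun l => β l = k), (if l = m then c else 0) * (d l : ℤ) =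
      if β m = k then c * d m else 0 := by
  classical
  split_ifs with h
  · rw [Finset.sum_eq_single m]
    · rw [if_pos rfl]
    · intro l _ hl
      rw [if_neg hl, zero_mul]
    · intro h2
      exact (h2 (Finset.mem_filter.2 ⟨Finset.mem_univ m, h⟩)).elim
  · refine Finset.sum_eq_zero (fun l hl => ?_)
    rw [if_neg, zero_mul]
    rintro rfl
    exact h (Finset.mem_filter.1 hl).2

/-- the weight of the monomials -/
private theorem X3a_wt {C : Finset I} (hC : C ⊆ L.Lam) (n : ℕ) (v : I → ℕ) (k : Fin s)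
    (h : ∀ i ∈ L.K, i ∉ C → n ≤ v i → L.bl i ≠ k) :
    ∑ l ∈ Finset.univ.filter (fun l => L.β l = k), X3a_om L C n v l * (L.d l : ℤ) = 0 := by
  classical
  unfold X3a_om
  simp only [add_mul, Finset.sum_mul, Finset.sum_add_distrib, sub_mul]
  rw [Finset.sum_comm, Finset.sum_comm (t := (L.K \ C).filter (fun i => n ≤ v i))]
  rw [Finset.sum_eq_zero, Finset.sum_eq_zero, add_zero]
  · intro i hi
    rw [Finset.mem_filter, Finset.mem_sdiff] at hi
    rw [X3a_one, if_neg]
    rw [(L.hch i hi.1.1).1]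
    exact h i hi.1.1 hi.1.2 hi.2
  · intro i hi
    obtain ⟨hiK, hid⟩ := X3a_Lam L (hC hi)
    rw [Finset.sum_sub_distrib, X3a_one, X3a_one, (L.hch i hiK).1, (L.hcp i hiK hid).1, hid]
    split_ifs
    · push_cast
      ring
    · ring

open Classical in
theorem chi_A0_fixed {χ : K0 →+* ℤ} (hχ : IsEulerChar χ) {C A : Finset I} (hC : C ⊆ L.Lam)
    (hA : A ⊆ L.K \ C) {n : ℕ} {v : I → ℕ} (hv : ∀ i ∈ A, v i < n) {R : Set (I ⊕ I → ℂ)}
    (hR : Constr R) :
    χ (cls (L.A0 C A n v R)) = χ (cls {γ | γ ∈ L.A0 C A n v R ∧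
      ∀ i ∈ L.K, i ∈ C ∨ n ≤ v i → (∀ j, γ (L.ch i, j) = 0) ∧
        (i ∈ C → ∀ j, γ (L.cp i, j) = 0)}) := by
  have hinv : ∀ x ∈ L.A0 C A n v R, ∀ τ : ℂ, τ ≠ 0 →
      (fun q : Fin N × Fin (n + 1) => τ ^ X3a_om L C n v q.1 * x q) ∈ L.A0 C A n v R := by
    rintro γ ⟨h1, h2, h3⟩ τ hτ
    have hyj : yj L.β L.d (fun q : Fin N × Fin (n + 1) => τ ^ X3a_om L C n v q.1 * γ q) =
        yj L.β L.d γ := by
      funext q
      obtain ⟨k, j⟩ := q
      rw [yj_scale L.β L.d γ (X3a_om L C n v) τ hτ k j]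
      by_cases htop : ∃ i ∈ L.K, i ∉ C ∧ n ≤ v i ∧ L.bl i = k
      · obtain ⟨i, hiK, hiC, hvi, hk⟩ := htop
        have h4 : yj L.β L.d γ (k, j) = 0 := by
          rw [← hk]
          refine Fin.cases ?_ (fun j => ?_) j
          · rw [yj_zero]
            have h5 : (fun l => γ (l, 0)) = L.pC C := funext h1
            rw [h5, yv_pC L hC]
            have h6 := L.hq i
            rw [L.hK i hiK] at h6
            rwa [single_dotProduct, one_mul] at h6
          · have h5 := (vv_single (L.hK i hiK) (yj L.β L.d γ)).1.1 (by rw [h2]; exact hvi)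
            exact h5 j
        rw [h4, mul_zero]
      · push Not at htop
        rw [X3a_wt L hC n v k htop, zpow_zero, one_mul]
    refine ⟨fun l => ?_, by rw [hyj]; exact h2, ?_⟩
    · show τ ^ X3a_om L C n v l * γ (l, 0) = L.pC C l
      by_cases h0 : X3a_om L C n v l = 0
      · rw [h0, zpow_zero, one_mul, h1 l]
      · have h4 : L.pC C l = 0 := by
          rcases X3a_om_ne L hC n v h0 with ⟨i, hi, rfl | rfl⟩ | ⟨i, hi, _, _, rfl⟩
          · exact X3a_pC_ch L C (X3a_Lam L (hC hi)).1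
          · exact X3a_pC_cp L C hi
          · exact X3a_pC_ch L C hi
        rw [h1 l, h4, mul_zero]
    · rw [hyj]
      have h4 : (fun i => if i ∈ A then Mon.lead1 (fun j : Fin (n + 1) =>
          (fun q : Fin N × Fin (n + 1) => τ ^ X3a_om L C n v q.1 * γ q) (L.ch i, j)) else 1) =
          fun i => if i ∈ A then Mon.lead1 (fun j => γ (L.ch i, j)) else 1 := by
        funext i
        split_ifs with hi
        · have h5 := Finset.mem_sdiff.1 (hA hi)
          have h6 : X3a_om L C n v (L.ch i) = 0 := by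
            rw [X3a_om_top L hC n v h5.1 h5.2, if_neg (by have := hv i hi; omega)]
          simp only [h6, zpow_zero, one_mul]
        · rfl
      rw [h4]
      exact h3
  rw [Mon.chi_fixed χ hχ (L.A0 C A n v R) (constr_A0 L C A n v hR)
    (fun q => X3a_om L C n v q.1) hinv]
  congr 2
  ext γ
  simp only [Set.mem_ofPred_eq]
  refine and_congr_right fun _ => ?_
  constructor
  · intro h i hi hcase
    have hch : X3a_om L C n v (L.ch i) ≠ 0 := by
      by_cases hiC : i ∈ C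
      · rw [X3a_om_ch L hC n v hiC]
        have := L.hd (L.cp i)
        positivity
      · rw [X3a_om_top L hC n v hi hiC, if_pos (hcase.resolve_left hiC)]
        exact one_ne_zero
    refine ⟨fun j => h (L.ch i, j) hch, fun hiC j => h (L.cp i, j) ?_⟩
    show X3a_om L C n v (L.cp i) ≠ 0
    rw [X3a_om_cp L hC n v hiC]
    norm_num
  · rintro h ⟨l, j⟩ hl
    have hl' : X3a_om L C n v l ≠ 0 := hl
    rcases X3a_om_ne L hC n v hl' with ⟨i, hi, h1 | h1⟩ | ⟨i, hi, _, h2, h1⟩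
    · rw [h1]
      exact (h i (X3a_Lam L (hC hi)).1 (Or.inl hi)).1 j
    · rw [h1]
      exact (h i (X3a_Lam L (hC hi)).1 (Or.inl hi)).2 hi j
    · rw [h1]
      exact (h i hi (Or.inr h2)).1 j

end LFM
end MotMono
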