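import Pool.Agent.Lib.MP_4e5fcd_ag.LFM.G1
import Pool.Agent.Lib.MP_4e5fcd_ag.LFM.X3a
import Pool.Agent.Lib.MP_4e5fcd_ag.A1
import Pool.Agent.Lib.MP_4e5fcd_ag.Mon.G2

/-!
# LFM-G2: the local data at a point

`Dat.loc`: all fields are immediate from the hypotheses `LocHyp`: `hE` (`E_pos`), `hdE` (`Finset.dvd_prod_of_mem`),
`hcp`: for `k ∈ KX` with `d (ch k) = 1` the block has a second variable, so `c g l = 0` in this block
(`D.hc`); `hp`: `p l = 0` implies `inr (β l) ∈ F` (a factor of `y_k` vanishes); if `β l ∈ KX` then `l = ch (β l)`,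
otherwise the block is plain (definition of `KX`).
`loc_W`: `inl j`: `dh = 1`; `inr k`, `k ∈ KX`: if the block is `{ch k}`: `E / d * c`; if it has two variables
both sides vanish; `k ∉ KX`: `d l = 1`.
`loc_gens`: `p' = pC C` satisfies `yv p' = yv p` (`yv_pC`), so `Fp p' = F`; the sum over `F` is `pair (L.W g)` on the
subtype (`loc_W`, `Finset.sum_coe_sort`/`Finset.sum_subtype`; `vv` and `lc` of the restricted family are the
restrictions). `gen_lt_iff` gives `lt_iff`. `gen_coeff` gives `coeff` with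
`V g = eval p' (U g) * ∏_{p' l ≠ 0} p' l ^ c g l * ∏_{inl j ∉ F} (a j ⬝ᵥ yv p) ^ w g j`: compare the remaining factors
with `∏_{i ∈ F} lx i ^ w i`: `inl j`: the same. `i = inr k`, `k ∈ KX`: the variables of the block with
`p' = 0` and `c g l ≠ 0` are only `l = ch k`, when the block is `{ch k}`, `lx = lead1 (γ (ch k, ·))`; in all
other cases both factors are `1`. `i = inr k`, `k ∉ KX`, the block is `{l}`, `d l = 1`, `p' l = 0`:
`lx = lc (inr k)`, `yj (k, ·) = γ (l, ·)`, so `lc = lead1` if `vv (inr k) < n` (which holds if the exponent is not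
`0`, since the sum is `≤ n`).
-/

open MvPolynomial

namespace MotMono
namespace LFM

variable {J Γ : Type} [Fintype J] {N s : ℕ} (D : Dat J Γ N s)

/-- the hypotheses on the point -/
structure Dat.LocHyp (F : Finset (J ⊕ Fin s)) (ch cp : Fin s → Fin N) (p : Fin N → ℂ) : Prop where
  hF : ∀ i, i ∈ F ↔ D.av i ⬝ᵥ yv D.β D.d p = 0
  hch : ∀ k, D.β (ch k) = k
  hcp : ∀ k ∈ D.KX, D.d (ch k) = 1 → D.β (cp k) = k ∧ cp k ≠ ch k
  h0 : ∀ k ∈ D.KX, Sum.inr k ∈ F → p (ch k) = 0
  h1 : ∀ l, p l = 0 → D.β l ∈ D.KX → l = ch (D.β l)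

omit [Fintype J] in
private theorem g2_av_ne (i : J ⊕ Fin s) : D.av i ≠ 0 := by
  rcases i with j | k
  · exact D.ha j
  · intro h
    have h1 := congrFun h k
    simp [Dat.av] at h1

omit [Fintype J] in
private theorem g2_av_inr (k : Fin s) (y : Fin s → ℂ) : D.av (Sum.inr k) ⬝ᵥ y = y k := by
  unfold Dat.av
  rw [Sum.elim_inr, single_one_dotProduct]

omit [Fintype J] in
private theorem g2_KX {l : Fin N} (h : D.β l ∉ D.KX) :
    D.d l = 1 ∧ ∀ l', D.β l' = D.β l → l' = l := by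
  unfold Dat.KX at h
  rw [Finset.mem_filter] at h
  push Not at h
  have h1 := h (Finset.mem_univ _) l rfl
  refine ⟨?_, fun l' hl' => ?_⟩
  · have := D.hd l
    omega
  · by_contra hne
    exact h1.2 l' hne hl'

omit [Fintype J] in
private theorem g2_yv {p : Fin N → ℂ} {k : Fin s} :
    yv D.β D.d p k = 0 ↔ ∃ l, D.β l = k ∧ p l = 0 := by
  unfold yv
  rw [Finset.prod_eq_zero_iff]
  constructor
  · rintro ⟨l, hl, h⟩
    exact ⟨l, (Finset.mem_filter.1 hl).2, (pow_eq_zero_iff (D.hd l).ne').1 h⟩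
  · rintro ⟨l, hl, h⟩
    exact ⟨l, Finset.mem_filter.2 ⟨Finset.mem_univ l, hl⟩, by
      rw [h, zero_pow (D.hd l).ne']⟩

open Classical in
/-- the local data -/
noncomputable def Dat.loc {F : Finset (J ⊕ Fin s)} {ch cp : Fin s → Fin N} {p : Fin N → ℂ}
    (h : D.LocHyp F ch cp p) : MLoc {i // i ∈ F} Γ N s where
  β := D.β
  d := D.d
  a := fun i => D.av i
  w := fun g i => Sum.elim (D.w g)
    (fun k => ∑ l ∈ Finset.univ.filter (fun l => D.β l = k), D.c g l) i.1
  E := D.E
  K := Finset.univ.filter fun i => ∃ k ∈ D.KX, i.1 = Sum.inr k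
  bl := fun i => Sum.elim (fun j => (Function.ne_iff.1 (D.ha j)).choose) id i.1
  ch := fun i => ch (Sum.elim (fun j => (Function.ne_iff.1 (D.ha j)).choose) id i.1)
  cp := fun i => cp (Sum.elim (fun j => (Function.ne_iff.1 (D.ha j)).choose) id i.1)
  p := p
  hβ := D.hβ
  hd := D.hd
  ha := fun i => g2_av_ne D i.1
  hE := E_pos D
  hdE := fun _ _ => Finset.dvd_prod_of_mem _ (Finset.mem_univ _)
  hq := fun i => (h.hF i.1).1 i.2
  hK := by
    rintro ⟨i, hi⟩ hiK
    obtain ⟨-, k, -, rfl⟩ := Finset.mem_filter.1 hiK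
    rfl
  hbl := by
    rintro ⟨i, hi⟩ hiK ⟨i', hi'⟩ hiK' hbl
    obtain ⟨-, k, -, rfl⟩ := Finset.mem_filter.1 hiK
    obtain ⟨-, k', -, rfl⟩ := Finset.mem_filter.1 hiK'
    have hkk : k = k' := hbl
    subst hkk
    rfl
  hch := by
    rintro ⟨i, hi⟩ hiK
    obtain ⟨-, k, hk, rfl⟩ := Finset.mem_filter.1 hiK
    exact ⟨h.hch k, h.h0 k hk hi⟩
  hcp := by
    rintro ⟨i, hi⟩ hiK hd1
    obtain ⟨-, k, hk, rfl⟩ := Finset.mem_filter.1 hiK
    obtain ⟨h1, h2⟩ := h.hcp k hk hd1
    refine ⟨h1, h2, fun g => ?_⟩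
    show ∑ l ∈ Finset.univ.filter (fun l => D.β l = k), D.c g l = 0
    refine Finset.sum_eq_zero fun l hl => ?_
    have hlk : D.β l = k := (Finset.mem_filter.1 hl).2
    by_cases hlc : l = ch k
    · exact D.hc g l (cp k) (fun he => h2 (by
        show cp k = ch k
        rw [← he, hlc])) (by rw [hlk, h1])
    · exact D.hc g l (ch k) hlc (by rw [hlk, h.hch k])
  hp := by
    intro l hl
    have hy : yv D.β D.d p (D.β l) = 0 := (g2_yv D).2 ⟨l, rfl, hl⟩
    have hF : Sum.inr (D.β l) ∈ F := (h.hF _).2 (by rw [g2_av_inr, hy])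
    by_cases hK : D.β l ∈ D.KX
    · refine Or.inl ⟨⟨Sum.inr (D.β l), hF⟩, Finset.mem_filter.2 ⟨Finset.mem_univ _,
        D.β l, hK, rfl⟩, h.h1 l hl hK⟩
    · obtain ⟨h1, h2⟩ := g2_KX D hK
      refine Or.inr ⟨h1, h2, ?_⟩
      rintro ⟨i, hi⟩ hiK
      obtain ⟨-, k, hk, rfl⟩ := Finset.mem_filter.1 hiK
      intro hbl
      have hkk : k = D.β l := hbl
      exact hK (hkk ▸ hk)

variable {D}

open Classical in
private theorem g2_memK {F : Finset (J ⊕ Fin s)} {ch cp : Fin s → Fin N} {p : Fin N → ℂ}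
    (h : D.LocHyp F ch cp p) (i : {i // i ∈ F}) :
    i ∈ (D.loc h).K ↔ ∃ k ∈ D.KX, i.1 = Sum.inr k := by
  unfold Dat.loc
  rw [Finset.mem_filter]
  exact ⟨fun h => h.2, fun h => ⟨Finset.mem_univ _, h⟩⟩

omit [Fintype J] in
/-- the only exponent in a block -/
private theorem g2_c {F : Finset (J ⊕ Fin s)} {ch cp : Fin s → Fin N} {p : Fin N → ℂ}
    (h : D.LocHyp F ch cp p) (g : Γ) {k : Fin s} {l : Fin N} (hl : D.β l = k) (hne : l ≠ ch k) :
    D.c g l = 0 := D.hc g l (ch k) hne (by rw [hl, h.hch k])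

omit [Fintype J] in
/-- the plain blocks -/
private theorem g2_plain (k : Fin s) (hk : k ∉ D.KX) :
    ∃ l, D.β l = k ∧ D.d l = 1 ∧ Finset.univ.filter (fun l => D.β l = k) = {l} := by
  obtain ⟨l, rfl⟩ := D.hβ k
  obtain ⟨h1, h2⟩ := g2_KX D hk
  refine ⟨l, rfl, h1, ?_⟩
  ext l'
  rw [Finset.mem_filter, Finset.mem_singleton]
  exact ⟨fun h => h2 l' h.2, fun h => ⟨Finset.mem_univ _, by rw [h]⟩⟩

theorem loc_W {F : Finset (J ⊕ Fin s)} {ch cp : Fin s → Fin N} {p : Fin N → ℂ}
    (h : D.LocHyp F ch cp p) (g : Γ) (i : {i // i ∈ F}) : (D.loc h).W g i = D.W g i := by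
  classical
  obtain ⟨i, hi⟩ := i
  unfold MLoc.W MLoc.dh
  rcases i with j | k
  · rw [if_neg]
    · show D.E / 1 * D.w g j = D.E * D.w g j
      rw [Nat.div_one]
    · rw [g2_memK]
      rintro ⟨k, -, hk⟩
      exact absurd hk (by simp)
  · by_cases hk : k ∈ D.KX
    · rw [if_pos ((g2_memK h _).2 ⟨k, hk, rfl⟩)]
      show D.E / D.d (ch k) * (∑ l ∈ Finset.univ.filter (fun l => D.β l = k), D.c g l) =
        ∑ l ∈ Finset.univ.filter (fun l => D.β l = k), D.E / D.d l * D.c g l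
      rw [Finset.mul_sum]
      refine Finset.sum_congr rfl fun l hl => ?_
      by_cases hlc : l = ch k
      · rw [hlc]
      · rw [g2_c h g (Finset.mem_filter.1 hl).2 hlc, mul_zero, mul_zero]
    · rw [if_neg]
      · show D.E / 1 * (∑ l ∈ Finset.univ.filter (fun l => D.β l = k), D.c g l) =
          ∑ l ∈ Finset.univ.filter (fun l => D.β l = k), D.E / D.d l * D.c g l
        obtain ⟨l, hl, hd, hb⟩ := g2_plain k hk
        rw [hb, Finset.sum_singleton, Finset.sum_singleton, hd]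
      · rw [g2_memK]
        rintro ⟨k', hk', he⟩
        have := Sum.inr_injective he
        exact hk (this ▸ hk')

/-- the factors of a block -/
private theorem g2_block {F : Finset (J ⊕ Fin s)} {ch cp : Fin s → Fin N} {p : Fin N → ℂ}
    (h : D.LocHyp F ch cp p) {p' : Fin N → ℂ} (hyv : yv D.β D.d p' = yv D.β D.d p)
    (h0 : ∀ k ∈ D.KX, Sum.inr k ∈ F → p' (ch k) = 0) {n : ℕ} (γ : Fin N × Fin (n + 1) → ℂ)
    (hγ : ∀ l, γ (l, 0) = p' l) (g : Γ) (k : Fin s) [Decidable (k ∈ D.KX)]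
    [Decidable (Sum.inr k ∈ F)] [∀ l, Decidable (p' l = 0)]
    (hlt : Sum.inr k ∈ F → D.W g (Sum.inr k) ≠ 0 →
      LF.vv D.av (yj D.β D.d γ) (Sum.inr k) < n) :
    (if Sum.inr k ∈ F then (if k ∈ D.KX then Mon.lead1 (fun j => γ (ch k, j)) else
      LF.lc D.av (yj D.β D.d γ) (Sum.inr k)) ^ ∑ l ∈ Finset.univ.filter (fun l => D.β l = k),
        D.c g l else 1) = ∏ l ∈ Finset.univ.filter (fun l => D.β l = k),
      if p' l = 0 then Mon.lead1 (fun j => γ (l, j)) ^ D.c g l else 1 := by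
  classical
  by_cases hF : Sum.inr k ∈ F
  · rw [if_pos hF]
    by_cases hK : k ∈ D.KX
    · rw [if_pos hK, ← Finset.prod_pow_eq_pow_sum]
      refine Finset.prod_congr rfl fun l hl => ?_
      by_cases hlc : l = ch k
      · rw [if_pos (by rw [hlc]; exact h0 k hK hF), hlc]
      · rw [g2_c h g (Finset.mem_filter.1 hl).2 hlc, pow_zero, pow_zero, ite_self]
    · obtain ⟨l, hl, hd, hb⟩ := g2_plain k hK
      rw [if_neg hK, hb, Finset.sum_singleton, Finset.prod_singleton]
      have hy : yv D.β D.d p' k = 0 := by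
        rw [hyv, ← g2_av_inr D k (yv D.β D.d p)]
        exact (h.hF _).1 hF
      have hpl : p' l = 0 := by
        obtain ⟨l', hl', h1⟩ := (g2_yv D).1 hy
        have h2 : l' ∈ Finset.univ.filter (fun l => D.β l = k) :=
          Finset.mem_filter.2 ⟨Finset.mem_univ _, hl'⟩
        rw [hb, Finset.mem_singleton] at h2
        rw [← h2]
        exact h1
      rw [if_pos hpl]
      by_cases hc : D.c g l = 0
      · rw [hc, pow_zero, pow_zero]
      · have hW : D.W g (Sum.inr k) ≠ 0 := by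
          show ∑ l ∈ Finset.univ.filter (fun l => D.β l = k), D.E / D.d l * D.c g l ≠ 0
          rw [hb, Finset.sum_singleton, hd, Nat.div_one]
          exact Nat.mul_ne_zero (E_pos D).ne' hc
        have hlt' := hlt hF hW
        have hyj : ∀ e : Fin (n + 1), yj D.β D.d γ (k, e) = γ (l, e) := by
          intro e
          show (∏ l ∈ Finset.univ.filter (fun l => D.β l = k), arc γ l ^ D.d l).coeff e = _
          rw [hb, Finset.prod_singleton, hd, pow_one, a1_arc_coeff, dif_pos e.2]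
        obtain ⟨hv1, hv2, hv3⟩ := vv_single (a := D.av) (i := Sum.inr k) (k := k) rfl
          (yj D.β D.d γ)
        have hlc := hv2 hlt'
        rw [hyj] at hlc
        congr 1
        rw [hlc]
        have hne := LF.lc_ne_zero D.av (yj D.β D.d γ) (Sum.inr k)
        rw [hlc] at hne
        have hord : Mon.ord1 (fun j => γ (l, j)) =
            LF.vv D.av (yj D.β D.d γ) (Sum.inr k) + 1 := by
          rw [Mon.ord1_eq_iff _ _ (by omega)]
          refine ⟨fun j hj => ?_, fun hh => hne⟩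
          rcases Fin.eq_zero_or_eq_succ j with rfl | ⟨j, rfl⟩
          · rw [hγ l, hpl]
          · rw [← hyj]
            exact hv3 j (by rw [Fin.val_succ] at hj; omega)
        unfold Mon.lead1
        rw [dif_pos (by omega)]
        congr 2
        exact Fin.ext hord.symm
  · rw [if_neg hF]
    symm
    refine Finset.prod_eq_one fun l hl => if_neg fun hl0 => hF ?_
    rw [h.hF, g2_av_inr, ← hyv]
    exact (g2_yv D).2 ⟨l, (Finset.mem_filter.1 hl).2, hl0⟩

theorem loc_gens {F : Finset (J ⊕ Fin s)} {ch cp : Fin s → Fin N} {p : Fin N → ℂ}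
    (h : D.LocHyp F ch cp p) {C : Finset {i // i ∈ F}} (hC : C ⊆ (D.loc h).Lam)
    (hU : ∀ g, eval ((D.loc h).pC C) (D.U g) ≠ 0) : ∃ V, (D.loc h).Gens C D.gen V := by
  classical
  have hyv : yv D.β D.d ((D.loc h).pC C) = yv D.β D.d p := yv_pC (D.loc h) hC
  obtain ⟨p', hp'⟩ : ∃ p', p' = (D.loc h).pC C := ⟨_, rfl⟩
  rw [← hp'] at hyv hU
  have hFp : D.Fp p' = F := by
    ext i
    unfold Dat.Fp
    rw [Finset.mem_filter, hyv, h.hF]
    exact ⟨fun h => h.2, fun h => ⟨Finset.mem_univ _, h⟩⟩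
  have hsum : ∀ (g : Γ) {n : ℕ} (γ : Fin N × Fin (n + 1) → ℂ),
      (pair ((D.loc h).W g) fun i => LF.vv (D.loc h).a (yj (D.loc h).β (D.loc h).d γ) i + 1) =
        ∑ i ∈ D.Fp p', D.W g i * (LF.vv D.av (yj D.β D.d γ) i + 1) := by
    intro g n γ
    rw [hFp, ← Finset.sum_coe_sort]
    unfold pair
    refine Finset.sum_congr rfl fun i _ => ?_
    rw [loc_W h g i]
    rfl
  refine ⟨fun g => eval p' (D.U g) * (∏ l, if p' l = 0 then 1 else p' l ^ D.c g l) *
      ∏ j, if Sum.inl j ∈ F then 1 else (D.a j ⬝ᵥ yv D.β D.d p') ^ D.w g j, ?_, ?_, ?_⟩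
  · intro g
    refine mul_ne_zero (mul_ne_zero (hU g) (Finset.prod_ne_zero_iff.2 fun l _ => ?_))
      (Finset.prod_ne_zero_iff.2 fun j _ => ?_)
    · split_ifs with h0
      · exact one_ne_zero
      · exact pow_ne_zero _ h0
    · split_ifs with h0
      · exact one_ne_zero
      · refine pow_ne_zero _ fun h1 => h0 ((h.hF _).2 ?_)
        rw [← hyv]
        exact h1
  · intro n γ hγ g k hk
    rw [hsum]
    exact gen_lt_iff D γ p' (fun l => by rw [hγ l, hp']) g (hU g) k hk
  · intro n γ hγ g k hk1 hk2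
    rw [hsum] at hk1
    have hγ' : ∀ l, γ (l, 0) = p' l := fun l => by rw [hγ l, hp']
    rw [gen_coeff D γ p' hγ' g (hU g) k hk2 hk1, hFp]
    rw [hFp] at hk1
    have h0' : ∀ k ∈ D.KX, Sum.inr k ∈ F → p' (ch k) = 0 := by
      intro k hk hkF
      rw [hp']
      unfold MLoc.pC
      split_ifs with hex
      · rfl
      · exact h.h0 k hk hkF
    have hlt : ∀ k : Fin s, Sum.inr k ∈ F → D.W g (Sum.inr k) ≠ 0 →
        LF.vv D.av (yj D.β D.d γ) (Sum.inr k) < n := by
      intro k' hkF hW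
      have h1 : D.W g (Sum.inr k') * (LF.vv D.av (yj D.β D.d γ) (Sum.inr k') + 1) ≤
          ∑ i ∈ F, D.W g i * (LF.vv D.av (yj D.β D.d γ) i + 1) :=
        Finset.single_le_sum (f := fun i => D.W g i * (LF.vv D.av (yj D.β D.d γ) i + 1))
          (fun _ _ => Nat.zero_le _) hkF
      have h2 : LF.vv D.av (yj D.β D.d γ) (Sum.inr k') + 1 ≤
          D.W g (Sum.inr k') * (LF.vv D.av (yj D.β D.d γ) (Sum.inr k') + 1) :=
        Nat.le_mul_of_pos_left _ (Nat.pos_of_ne_zero hW)
      omega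
    have hkey : ∏ i, (D.loc h).lx γ i ^ (D.loc h).w g i =
        (∏ l, if p' l = 0 then Mon.lead1 (fun j => γ (l, j)) ^ D.c g l else 1) *
        ∏ j, if Sum.inl j ∈ F then LF.lc D.av (yj D.β D.d γ) (Sum.inl j) ^ D.w g j else 1 := by
      have e1 : ∏ i, (D.loc h).lx γ i ^ (D.loc h).w g i = ∏ i : {i // i ∈ F},
          (fun i : J ⊕ Fin s => Sum.elim
            (fun j => LF.lc D.av (yj D.β D.d γ) (Sum.inl j) ^ D.w g j)
            (fun k => (if k ∈ D.KX then Mon.lead1 (fun j => γ (ch k, j)) else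
              LF.lc D.av (yj D.β D.d γ) (Sum.inr k)) ^
                ∑ l ∈ Finset.univ.filter (fun l => D.β l = k), D.c g l) i) i.1 := by
        refine Finset.prod_congr rfl fun i _ => ?_
        obtain ⟨i, hi⟩ := i
        unfold MLoc.lx
        rcases i with j | k
        · rw [if_neg]
          · rfl
          · rw [g2_memK]
            rintro ⟨k, -, hk⟩
            exact absurd hk (by simp)
        · by_cases hk : k ∈ D.KX
          · rw [if_pos ((g2_memK h _).2 ⟨k, hk, rfl⟩)]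
            simp only [Sum.elim_inr, if_pos hk]
            rfl
          · rw [if_neg]
            · simp only [Sum.elim_inr, if_neg hk]
              rfl
            · rw [g2_memK]
              rintro ⟨k', hk', he⟩
              have := Sum.inr_injective he
              exact hk (this ▸ hk')
      rw [e1, Finset.prod_coe_sort F]
      have e2 : ∀ f : J ⊕ Fin s → ℂ, ∏ i ∈ F, f i = ∏ i, if i ∈ F then f i else 1 := by
        intro f
        rw [Finset.prod_ite_mem, Finset.univ_inter]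
      rw [e2, Fintype.prod_sum_type, mul_comm]
      congr 1
      rw [← Finset.prod_fiberwise Finset.univ D.β]
      refine Finset.prod_congr rfl fun k _ => ?_
      exact g2_block h hyv h0' γ hγ' g k (hlt k)
    rw [hkey]
    have hA : (∏ l, if p' l = 0 then Mon.lead1 (fun j => γ (l, j)) ^ D.c g l
        else p' l ^ D.c g l) =
        (∏ l, if p' l = 0 then Mon.lead1 (fun j => γ (l, j)) ^ D.c g l else 1) *
          ∏ l, if p' l = 0 then 1 else p' l ^ D.c g l := by
      rw [← Finset.prod_mul_distrib]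
      refine Finset.prod_congr rfl fun l _ => ?_
      split_ifs
      · rw [mul_one]
      · rw [one_mul]
    have hB : (∏ j, if Sum.inl j ∈ F then LF.lc D.av (yj D.β D.d γ) (Sum.inl j) ^ D.w g j
        else (D.a j ⬝ᵥ yv D.β D.d p') ^ D.w g j) =
        (∏ j, if Sum.inl j ∈ F then LF.lc D.av (yj D.β D.d γ) (Sum.inl j) ^ D.w g j else 1) *
          ∏ j, if Sum.inl j ∈ F then 1 else (D.a j ⬝ᵥ yv D.β D.d p') ^ D.w g j := by
      rw [← Finset.prod_mul_distrib]
      refine Finset.prod_congr rfl fun l _ => ?_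
      split_ifs
      · rw [mul_one]
      · rw [one_mul]
    rw [hA, hB]
    ring

end LFM
end MotMono
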