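import Pool.Agent.Lib.MP_4e5fcd_ag.LFM.Base
import Pool.Agent.Lib.MP_4e5fcd_ag.LF.P1
import Pool.Agent.Lib.MP_4e5fcd_ag.LF.P2

/-!
# LFM-GF1: generating functions of polyhedra with arbitrary weights

Copy LF/P1 (and what it uses) with `q ^ pair ν b` replaced by `wtm ρ b = ∏ ρ i ^ b i` (multiplicative:
`wtm ρ (b + u) = wtm ρ b * wtm ρ u`, `Finset.prod_mul_distrib`, `pow_add`). `exists_ext_rays`: `exists_prim_rays`
(LF/P2) gives primitive generators; `IsRays` contains the fields of `ExtRay`.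
-/

open MvPolynomial

namespace MotMono
namespace LFM

theorem wtm_add {ι R : Type*} [Fintype ι] [CommRing R] (ρ : ι → R) (b u : ι → ℕ) :
    wtm ρ (b + u) = wtm ρ b * wtm ρ u := by
  unfold wtm
  rw [← Finset.prod_mul_distrib]
  refine Finset.prod_congr rfl fun i _ => ?_
  rw [Pi.add_apply, pow_add]

theorem exists_ext_rays {ι : Type} [Fintype ι] (Z : Set ι) (Ls : Finset (ι → ℤ)) :
    ∃ U, IsRays Z Ls U ∧ ∀ u ∈ U, Prim u ∧ ExtRay Z Ls u := by
  obtain ⟨U, hU, hp⟩ := LF.exists_prim_rays Z Ls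
  exact ⟨U, hU, fun u hu => ⟨hp u hu, hU.ne u hu, hU.zero u hu, hU.nonneg u hu, hU.ext u hu⟩⟩

section

variable {ι : Type} {R : Type*} [Fintype ι] [CommRing R]

/-- the generating function of a set -/
private noncomputable def gfx (ρ : ι → R) (o : ι) (V : Set (ι → ℕ)) : PowerSeries R :=
  PowerSeries.mk fun k => ∑ᶠ b ∈ {b : ι → ℕ | b ∈ V ∧ b o = k}, wtm ρ b

private theorem gfx_coeff (ρ : ι → R) (o : ι) (V : Set (ι → ℕ)) (k : ℕ) :
    PowerSeries.coeff k (gfx ρ o V) = ∑ᶠ b ∈ {b : ι → ℕ | b ∈ V ∧ b o = k}, wtm ρ b := by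
  rw [gfx, PowerSeries.coeff_mk]

private theorem gfx_union (ρ : ι → R) (o : ι) {V V' : Set (ι → ℕ)} (hV : LF.p1Fin o V)
    (hV' : LF.p1Fin o V') (h : Disjoint V V') :
    gfx ρ o (V ∪ V') = gfx ρ o V + gfx ρ o V' := by
  ext1 k
  rw [map_add, gfx_coeff, gfx_coeff, gfx_coeff]
  rw [← finsum_mem_union _ (hV k) (hV' k)]
  · refine finsum_mem_congr ?_ fun _ _ => rfl
    ext b
    simp only [Set.mem_union, Set.mem_ofPred_eq]
    tauto
  · rw [Set.disjoint_left] at h ⊢
    rintro b ⟨hb, _⟩ ⟨hb', _⟩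
    exact h hb hb'

private theorem gfx_diff (ρ : ι → R) (o : ι) {V V' : Set (ι → ℕ)} (hV : LF.p1Fin o V)
    (h : V' ⊆ V) : gfx ρ o (V \ V') = gfx ρ o V - gfx ρ o V' := by
  have h1 := gfx_union ρ o (V := V \ V') (V' := V') (LF.p1Fin_mono hV Set.sdiff_subset)
    (LF.p1Fin_mono hV h) Set.disjoint_sdiff_left
  rw [Set.sdiff_union_of_subset h] at h1
  rw [h1]
  abel

private theorem gfx_shift (ρ : ι → R) (o : ι) {V : Set (ι → ℕ)} (hV : LF.p1Fin o V) (u : ι → ℕ) :
    gfx ρ o ((fun b => b + u) '' V) =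
      PowerSeries.C (wtm ρ u) * PowerSeries.X ^ u o * gfx ρ o V := by
  ext1 k
  rw [mul_assoc, PowerSeries.coeff_C_mul, PowerSeries.coeff_X_pow_mul', gfx_coeff]
  split_ifs with hk
  · rw [gfx_coeff]
    have h1 : {b | b ∈ (fun b => b + u) '' V ∧ b o = k} =
        (fun b => b + u) '' {b | b ∈ V ∧ b o = k - u o} := by
      ext b
      constructor
      · rintro ⟨⟨b', hb', rfl⟩, hb2⟩
        refine ⟨b', ⟨hb', ?_⟩, rfl⟩
        dsimp only at hb2
        rw [Pi.add_apply] at hb2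
        omega
      · rintro ⟨b', ⟨hb', hb2⟩, rfl⟩
        refine ⟨⟨b', hb', rfl⟩, ?_⟩
        dsimp only
        rw [Pi.add_apply]
        omega
    rw [h1, finsum_mem_image (fun a _ b _ hab => add_right_cancel hab),
      mul_finsum_mem' _ _ (hV (k - u o))]
    refine finsum_mem_congr rfl fun b _ => ?_
    rw [wtm_add, mul_comm]
  · rw [mul_zero]
    have h1 : {b | b ∈ (fun b => b + u) '' V ∧ b o = k} = ∅ := by
      ext b
      simp only [Set.mem_ofPred_eq, Set.mem_empty_iff_false, iff_false]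
      rintro ⟨⟨b', hb', rfl⟩, hb2⟩
      dsimp only at hb2
      rw [Pi.add_apply] at hb2
      omega
    rw [h1, finsum_mem_empty]

private theorem gfx_isPoly (ρ : ι → R) (o : ι) (U : Finset (ι → ℕ)) (M M' : Set (ι → ℕ))
    (hfin : LF.p1Fin o M) (hM'M : M' ⊆ M)
    (hM : ∀ u ∈ U, ∀ b ∈ M, b + u ∈ M) (hM' : ∀ u ∈ U, ∀ b ∈ M', b + u ∈ M')
    (F : Finset (ι → ℕ)) (hF : ∀ f ∈ F, f ∈ M \ M')
    (hgen : ∀ b ∈ M \ M', ∃ f ∈ F, ∃ α : (ι → ℕ) → ℕ, b = f + ∑ u ∈ U, α u • u) :
    LF.p1Poly ((∏ u ∈ U, (1 - PowerSeries.C (wtm ρ u) * PowerSeries.X ^ u o)) *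
      gfx ρ o (M \ M')) := by
  classical
  induction U using Finset.induction_on generalizing M M' F with
  | empty =>
    rw [Finset.prod_empty, one_mul]
    refine ⟨F.sup (fun f => f o) + 1, fun k hk => ?_⟩
    rw [gfx_coeff]
    have h1 : {b | b ∈ M \ M' ∧ b o = k} = ∅ := by
      ext b
      simp only [Set.mem_ofPred_eq, Set.mem_empty_iff_false, iff_false]
      rintro ⟨hb, hb2⟩
      obtain ⟨f, hf, α, hα⟩ := hgen b hb
      rw [Finset.sum_empty, add_zero] at hα
      rw [hα] at hb2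
      have : f o ≤ F.sup (fun f => f o) := Finset.le_sup (f := fun f : ι → ℕ => f o) hf
      omega
    rw [h1, finsum_mem_empty]
  | insert u U hu ih =>
    have hMu := hM u (Finset.mem_insert_self _ _)
    have hM'u := hM' u (Finset.mem_insert_self _ _)
    have hMU : ∀ u ∈ U, ∀ b ∈ M, b + u ∈ M := fun u' hu' => hM u' (Finset.mem_insert_of_mem hu')
    have hM'U : ∀ u ∈ U, ∀ b ∈ M', b + u ∈ M' :=
      fun u' hu' => hM' u' (Finset.mem_insert_of_mem hu')
    let S : Set (ι → ℕ) := (fun b => b + u) '' M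
    let N : Set (ι → ℕ) := {b | b ∈ M ∧ b + u ∈ M'}
    have hSM : S ⊆ M := by
      rintro _ ⟨b, hb, rfl⟩
      exact hMu b hb
    have hM'N : M' ⊆ N := fun b hb => ⟨hM'M hb, hM'u b hb⟩
    have hNM : N ⊆ M := fun b hb => hb.1
    have hSU : ∀ u ∈ U, ∀ b ∈ S, b + u ∈ S := by
      rintro u' hu' _ ⟨b, hb, rfl⟩
      exact ⟨b + u', hMU u' hu' b hb, by dsimp only; abel⟩
    have hNU : ∀ u ∈ U, ∀ b ∈ N, b + u ∈ N := by
      rintro u' hu' b ⟨hb, hb'⟩
      refine ⟨hMU u' hu' b hb, ?_⟩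
      rw [show b + u' + u = b + u + u' by abel]
      exact hM'U u' hu' _ hb'
    -- the decomposition
    have hdec : (1 - PowerSeries.C (wtm ρ u) * PowerSeries.X ^ u o) * gfx ρ o (M \ M') =
        gfx ρ o (M \ (M' ∪ S)) - PowerSeries.C (wtm ρ u) *
          PowerSeries.X ^ u o * gfx ρ o (N \ M') := by
      have h1 : M \ M' = (M \ (M' ∪ S)) ∪ ((fun b => b + u) '' (M \ N)) := by
        ext b
        constructor
        · rintro ⟨hb, hb'⟩
          by_cases hbS : b ∈ S
          · right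
            obtain ⟨c, hc, rfl⟩ := hbS
            exact ⟨c, ⟨hc, fun h => hb' h.2⟩, rfl⟩
          · left
            exact ⟨hb, fun h => h.elim hb' hbS⟩
        · rintro (⟨hb, hb'⟩ | ⟨c, ⟨hc, hc'⟩, rfl⟩)
          · exact ⟨hb, fun h => hb' (Or.inl h)⟩
          · exact ⟨hMu c hc, fun h => hc' ⟨hc, h⟩⟩
      have h2 : Disjoint (M \ (M' ∪ S)) ((fun b => b + u) '' (M \ N)) := by
        rw [Set.disjoint_left]
        rintro _ ⟨_, hb'⟩ ⟨c, ⟨hc, _⟩, rfl⟩
        exact hb' (Or.inr ⟨c, hc, rfl⟩)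
      have hf1 : LF.p1Fin o (M \ (M' ∪ S)) := LF.p1Fin_mono hfin Set.sdiff_subset
      have hf2 : LF.p1Fin o ((fun b => b + u) '' (M \ N)) := by
        refine LF.p1Fin_mono hfin ?_
        rintro _ ⟨c, hc, rfl⟩
        exact hMu c hc.1
      have h3 : gfx ρ o (M \ M') = gfx ρ o (M \ (M' ∪ S)) +
          PowerSeries.C (wtm ρ u) * PowerSeries.X ^ u o * gfx ρ o (M \ N) := by
        rw [← gfx_shift ρ o (LF.p1Fin_mono hfin Set.sdiff_subset), ← gfx_union ρ o hf1 hf2 h2,
          ← h1]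
      have h4 : gfx ρ o (M \ N) = gfx ρ o (M \ M') - gfx ρ o (N \ M') := by
        rw [gfx_diff ρ o hfin hNM, gfx_diff ρ o hfin hM'M,
          gfx_diff ρ o (LF.p1Fin_mono hfin hNM) hM'N]
        abel
      rw [h4] at h3
      linear_combination h3
    have hsplit : (∏ u ∈ insert u U, (1 - PowerSeries.C (wtm ρ u) * PowerSeries.X ^ u o)) *
          gfx ρ o (M \ M') =
        (∏ u ∈ U, (1 - PowerSeries.C (wtm ρ u) * PowerSeries.X ^ u o)) *
          gfx ρ o (M \ (M' ∪ S)) +
        (-(PowerSeries.C (wtm ρ u) * PowerSeries.X ^ u o)) *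
          ((∏ u ∈ U, (1 - PowerSeries.C (wtm ρ u) * PowerSeries.X ^ u o)) *
            gfx ρ o (N \ M')) := by
      rw [Finset.prod_insert hu, mul_right_comm, hdec]
      ring
    rw [hsplit]
    apply LF.p1Poly_add
    · refine ih M (M' ∪ S) hfin (Set.union_subset hM'M hSM) hMU ?_
        (F.filter fun f => f ∈ M \ (M' ∪ S)) (fun f hf => (Finset.mem_filter.1 hf).2) ?_
      · rintro u' hu' b (hb | hb)
        · exact Or.inl (hM'U u' hu' b hb)
        · exact Or.inr (hSU u' hu' b hb)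
      · rintro b ⟨hb, hb'⟩
        obtain ⟨f, hf, α, hα⟩ := hgen b ⟨hb, fun h => hb' (Or.inl h)⟩
        have hfM := hF f hf
        rw [Finset.sum_insert hu] at hα
        have hα0 : α u = 0 := by
          by_contra h
          apply hb'
          right
          refine ⟨f + (∑ u' ∈ U, α u' • u' + (α u - 1) • u), ?_, ?_⟩
          · have h1 := g3_stable hMU α f hfM.1
            have h2 := g3_stable (U := {u}) (M := M) (by
              intro u' hu'
              rw [Finset.mem_singleton] at hu'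
              rw [hu']
              exact hMu) (fun _ => α u - 1) _ h1
            rw [Finset.sum_singleton] at h2
            rwa [← add_assoc]
          · dsimp only
            rw [hα]
            have h3 : α u • u = (α u - 1) • u + u := by
              conv_lhs => rw [show α u = (α u - 1) + 1 by omega]
              rw [add_smul, one_smul]
            rw [h3]
            abel
        rw [hα0, zero_smul, zero_add] at hα
        refine ⟨f, Finset.mem_filter.2 ⟨hf, hfM.1, ?_⟩, α, hα⟩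
        rintro (h | h)
        · exact hfM.2 h
        · apply hb'
          right
          rw [hα]
          exact g3_stable hSU α f h
    · apply LF.p1Poly_mul
      · refine ⟨u o + 1, fun k hk => ?_⟩
        rw [map_neg, PowerSeries.coeff_C_mul, PowerSeries.coeff_X_pow, if_neg (by omega)]
        simp
      · obtain ⟨G, hG, hG'⟩ := g3_fg (insert u U) M M' N hNM F hgen
        refine ih N M' (LF.p1Fin_mono hfin hNM) hM'N hNU hM'U G hG ?_
        intro b hb
        obtain ⟨g, hg, α, hα⟩ := hG' b hb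
        have hgN := hG g hg
        rw [Finset.sum_insert hu] at hα
        have hα0 : α u = 0 := by
          by_contra h
          apply hb.2
          have h1 := g3_stable hM'U α _ hgN.1.2
          have h2 := g3_stable (U := {u}) (M := M') (by
            intro u' hu'
            rw [Finset.mem_singleton] at hu'
            rw [hu']
            exact hM'u) (fun _ => α u - 1) _ h1
          rw [Finset.sum_singleton] at h2
          have h3 : α u • u = (α u - 1) • u + u := by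
            conv_lhs => rw [show α u = (α u - 1) + 1 by omega]
            rw [add_smul, one_smul]
          have h4 : b = g + u + ∑ u' ∈ U, α u' • u' + (α u - 1) • u := by
            rw [hα, h3]
            abel
          rw [h4]
          exact h2
        rw [hα0, zero_smul, zero_add] at hα
        exact ⟨g, hg, α, hα⟩

end

open Classical in
theorem gf_polyX {ι : Type} {R : Type*} [Fintype ι] [CommRing R] (ρ : ι → R) (o : ι) (Z : Set ι)
    (Cs : Finset ((ι → ℤ) × ℤ)) (U : Finset (ι → ℕ)) (hU : IsRays Z (Cs.image Prod.fst) U)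
    (hpos : ∀ u ∈ U, 0 < u o) :
    (∀ k, {b : ι → ℕ | LF.InP Z Cs b ∧ b o = k}.Finite) ∧
      ∃ P : Polynomial R,
        (∏ u ∈ U, (1 - PowerSeries.C (wtm ρ u) * PowerSeries.X ^ u o)) *
          PowerSeries.mk (fun k => ∑ᶠ (b : ι → ℕ) (_ : LF.InP Z Cs b ∧ b o = k), wtm ρ b) =
        (P : PowerSeries R) := by
  obtain ⟨β, hβ1, hβ2⟩ := LF.p1_beta Cs
  have hβ : ∀ b : ι → ℕ, (∀ l ∈ Cs.image Prod.fst, β l ≤ ∑ i, l i * (b i : ℤ)) ↔
      ∀ c ∈ Cs, c.2 ≤ ∑ i, c.1 i * (b i : ℤ) := by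
    intro b
    constructor
    · intro h c hc
      exact le_trans (hβ1 c hc) (h c.1 (Finset.mem_image_of_mem _ hc))
    · intro h l hl
      obtain ⟨c, hc, rfl⟩ := Finset.mem_image.1 hl
      obtain ⟨c', hc', h1, h2⟩ := hβ2 c hc
      rw [h2, ← h1]
      exact h c' hc'
  obtain ⟨F, hF, hF'⟩ := exists_gens Z (Cs.image Prod.fst) U hU β (fun i => if i ∈ Z then 0 else 1)
  let Q : Set (ι → ℕ) := {b | LF.InP Z Cs b}
  have hmem : ∀ b : ι → ℕ, b ∈ Q ↔ ((∀ i ∈ Z, b i = 0) ∧
      (∀ i, (if i ∈ Z then 0 else 1) ≤ b i) ∧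
        ∀ l ∈ Cs.image Prod.fst, β l ≤ ∑ i, l i * (b i : ℤ)) := by
    intro b
    rw [hβ b]
    constructor
    · rintro ⟨h1, h2, h3⟩
      refine ⟨h1, fun i => ?_, h3⟩
      split_ifs with h
      · exact Nat.zero_le _
      · exact h2 i h
    · rintro ⟨h1, h2, h3⟩
      refine ⟨h1, fun i hi => ?_, h3⟩
      have := h2 i
      rwa [if_neg hi] at this
  have hgen : ∀ b ∈ Q, ∃ f ∈ F, ∃ α : (ι → ℕ) → ℕ, b = f + ∑ u ∈ U, α u • u := by
    intro b hb
    rw [hmem] at hb
    exact hF' b hb.1 hb.2.1 hb.2.2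
  have hfin : LF.p1Fin o Q := LF.p1_fin o U hpos Q F hgen
  refine ⟨hfin, ?_⟩
  have key := gfx_isPoly ρ o U Q ∅ hfin (Set.empty_subset _) ?_ ?_ F ?_ ?_
  · rw [Set.sdiff_empty] at key
    exact LF.p1Poly_coe key
  · rintro u hu b ⟨h1, h2, h3⟩
    refine ⟨fun i hi => ?_, fun i hi => ?_, fun c hc => ?_⟩
    · rw [Pi.add_apply, h1 i hi, hU.zero u hu i hi]
    · exact le_trans (h2 i hi) (Nat.le_add_right _ _)
    · have h4 := hU.nonneg u hu c.1 (Finset.mem_image_of_mem _ hc)
      have h5 := h3 c hc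
      have h6 : ∑ i, c.1 i * (((b + u) i : ℕ) : ℤ) =
          ∑ i, c.1 i * (b i : ℤ) + ∑ i, c.1 i * (u i : ℤ) := by
        rw [← Finset.sum_add_distrib]
        refine Finset.sum_congr rfl fun i _ => ?_
        rw [Pi.add_apply]
        push_cast
        ring
      rw [h6]
      linarith
  · intro u _ b hb
    exact absurd hb (Set.notMem_empty b)
  · intro f hf
    rw [Set.sdiff_empty, hmem]
    exact hF f hf
  · intro b hb
    rw [Set.sdiff_empty] at hb
    exact hgen b hb

end LFM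
end MotMono
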