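import Pool.Agent.Lib.MP_4e5fcd_ag.LFM.GF1

/-!
# LFM-GF2: generating functions of alternating sums

`V = {b | InP Z Cs b}`, `μ = muV V Fr f b`, `F_Z = ∑_{l ∈ Z} f l`. We split the vectors `b` with `μ b ≠ 0` into
finitely many polyhedra (types) on which `μ` is constant; the rays of those polyhedra with `μ ≠ 0` have a positive
coordinate `o`.
-/

open MvPolynomial

namespace MotMono
namespace LFM

section

variable {ι κ : Type} [Fintype ι]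

open Classical in
/-- the constraints, with the constraints `1 ≤ b i` for `i ∉ Z` -/
noncomputable def gf2Cs (Z : Set ι) (Cs : Finset ((ι → ℤ) × ℤ)) : Finset ((ι → ℤ) × ℤ) :=
  Cs ∪ (Finset.univ.filter fun i => i ∉ Z).image fun i => (Pi.single i 1, 1)

open Classical in
theorem gf2_single (i : ι) (b : ι → ℕ) :
    ∑ j, (Pi.single i 1 : ι → ℤ) j * (b j : ℤ) = b i := by
  rw [Finset.sum_eq_single i]
  · simp
  · intro j _ hj
    simp [Pi.single_eq_of_ne hj]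
  · intro h
    exact absurd (Finset.mem_univ i) h

theorem gf2_inP (Z : Set ι) (Cs : Finset ((ι → ℤ) × ℤ)) (b : ι → ℕ) :
    LF.InP Z Cs b ↔ (∀ i ∈ Z, b i = 0) ∧
      ∀ c ∈ gf2Cs Z Cs, c.2 ≤ ∑ i, c.1 i * (b i : ℤ) := by
  classical
  constructor
  · rintro ⟨h1, h2, h3⟩
    refine ⟨h1, fun c hc => ?_⟩
    rw [gf2Cs, Finset.mem_union] at hc
    rcases hc with hc | hc
    · exact h3 c hc
    · obtain ⟨i, hi, rfl⟩ := Finset.mem_image.1 hc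
      have hi' := (Finset.mem_filter.1 hi).2
      have h := h2 i hi'
      have h4 := gf2_single i b
      simp only
      rw [h4]
      exact_mod_cast h
  · rintro ⟨h1, h2⟩
    refine ⟨h1, fun i hi => ?_, fun c hc => h2 c (Finset.mem_union_left _ hc)⟩
    have h := h2 (Pi.single i 1, 1) (Finset.mem_union_right _
      (Finset.mem_image.2 ⟨i, Finset.mem_filter.2 ⟨Finset.mem_univ _, hi⟩, rfl⟩))
    simp only at h
    rw [gf2_single i b] at h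
    exact_mod_cast h

theorem gf2_evF (c : ι → ℤ) (f : κ → ι → ℕ) (Z' : Finset κ) :
    ∑ i, c i * (((∑ l ∈ Z', f l) i : ℕ) : ℤ) = ∑ l ∈ Z', ∑ i, c i * (f l i : ℤ) := by
  rw [Finset.sum_comm]
  refine Finset.sum_congr rfl fun i _ => ?_
  rw [Finset.sum_apply]
  push_cast
  rw [Finset.mul_sum]

theorem gf2_evadd (c : ι → ℤ) (b u : ι → ℕ) :
    ∑ i, c i * (((b + u) i : ℕ) : ℤ) = ∑ i, c i * (b i : ℤ) + ∑ i, c i * (u i : ℤ) := by
  rw [← Finset.sum_add_distrib]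
  refine Finset.sum_congr rfl fun i _ => ?_
  rw [Pi.add_apply]
  push_cast
  ring

theorem gf2_shift (Z : Set ι) (Cs : Finset ((ι → ℤ) × ℤ)) (Fr : Finset κ) (f : κ → ι → ℕ)
    (hfZ : ∀ l ∈ Fr, ∀ i ∈ Z, f l i = 0) (Z' : Finset κ) (hZ' : Z' ⊆ Fr) (b : ι → ℕ)
    (hb : ∀ i ∈ Z, b i = 0) :
    (∃ b' ∈ {b : ι → ℕ | LF.InP Z Cs b}, b = b' + ∑ l ∈ Z', f l) ↔
      ∀ c ∈ gf2Cs Z Cs, c.2 ≤ ∑ i, c.1 i * (b i : ℤ) - ∑ l ∈ Z', ∑ i, c.1 i * (f l i : ℤ) := by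
  classical
  have hF0 : ∀ i ∈ Z, (∑ l ∈ Z', f l) i = 0 := by
    intro i hi
    rw [Finset.sum_apply]
    exact Finset.sum_eq_zero fun l hl => hfZ l (hZ' hl) i hi
  constructor
  · rintro ⟨b', hb', rfl⟩ c hc
    have h := ((gf2_inP Z Cs b').1 hb').2 c hc
    rw [gf2_evadd, gf2_evF]
    linarith
  · intro h
    have hle : ∀ i, (∑ l ∈ Z', f l) i ≤ b i := by
      intro i
      by_cases hi : i ∈ Z
      · rw [hF0 i hi]
        exact Nat.zero_le _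
      · have h1 := h (Pi.single i 1, 1) (Finset.mem_union_right _
          (Finset.mem_image.2 ⟨i, Finset.mem_filter.2 ⟨Finset.mem_univ _, hi⟩, rfl⟩))
        simp only at h1
        rw [← gf2_evF, gf2_single, gf2_single] at h1
        omega
    refine ⟨fun i => b i - (∑ l ∈ Z', f l) i, ?_, ?_⟩
    · show LF.InP Z Cs _
      rw [gf2_inP]
      refine ⟨fun i hi => ?_, fun c hc => ?_⟩
      · show b i - _ = 0
        rw [hb i hi, Nat.zero_sub]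
      · have h2 := h c hc
        have h3 := gf2_evadd c.1 (fun i => b i - (∑ l ∈ Z', f l) i) (∑ l ∈ Z', f l)
        have h4 : ((fun i => b i - (∑ l ∈ Z', f l) i) + ∑ l ∈ Z', f l) = b := by
          funext i
          rw [Pi.add_apply]
          exact Nat.sub_add_cancel (hle i)
        rw [h4, gf2_evF] at h3
        linarith
    · funext i
      rw [Pi.add_apply]
      exact (Nat.sub_add_cancel (hle i)).symm

/-- the value `x` has the type `t` -/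
def gf2ok (H : ℕ) (t : Option (Fin (2 * H))) (x : ℤ) : Prop :=
  (∀ j : Fin (2 * H), t = some j → x = ((j : ℕ) : ℤ) - H) ∧ (t = none → (H : ℤ) ≤ x)

theorem gf2_ok_exists (H : ℕ) (x : ℤ) (hx : -(H : ℤ) ≤ x) : ∃ t, gf2ok H t x := by
  by_cases h : x < H
  · refine ⟨some ⟨(x + H).toNat, by omega⟩, fun j hj => ?_, fun hj => ?_⟩
    · rw [Option.some.injEq] at hj
      rw [← hj]
      simp only
      omega
    · exact absurd hj (by simp)
  · exact ⟨none, fun j hj => absurd hj (by simp), fun _ => by omega⟩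

theorem gf2_ok_unique (H : ℕ) (x : ℤ) (t t' : Option (Fin (2 * H))) (h : gf2ok H t x)
    (h' : gf2ok H t' x) : t = t' := by
  cases t with
  | none =>
    cases t' with
    | none => rfl
    | some j' =>
      have h1 := h.2 rfl
      have h2 := h'.1 j' rfl
      have := j'.2
      omega
  | some j =>
    cases t' with
    | none =>
      have h1 := h'.2 rfl
      have h2 := h.1 j rfl
      have := j.2
      omega
    | some j' =>
      have h1 := h'.1 j' rfl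
      have h2 := h.1 j rfl
      congr 1
      apply Fin.ext
      omega

/-- the vectors of type `τ` -/
def gf2V (Z : Set ι) (Cs' : Finset ((ι → ℤ) × ℤ)) (H : ℕ) (τ : Cs' → Option (Fin (2 * H))) :
    Set (ι → ℕ) :=
  {b | (∀ i ∈ Z, b i = 0) ∧ (∀ i, i ∉ Z → 1 ≤ b i) ∧
    ∀ c : Cs', gf2ok H (τ c) (∑ i, c.1.1 i * (b i : ℤ) - c.1.2)}

open Classical in
/-- the constraints of a type -/
noncomputable def gf2Ct (Cs' : Finset ((ι → ℤ) × ℤ)) (H : ℕ) (τ : Cs' → Option (Fin (2 * H))) :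
    Finset ((ι → ℤ) × ℤ) :=
  Cs'.attach.biUnion fun c => (τ c).elim {(c.1.1, c.1.2 + H)} fun j =>
    {(c.1.1, c.1.2 + ((j : ℕ) : ℤ) - H), (-c.1.1, -(c.1.2 + ((j : ℕ) : ℤ) - H))}

theorem gf2_mem_Ct (Cs' : Finset ((ι → ℤ) × ℤ)) (H : ℕ) (τ : Cs' → Option (Fin (2 * H)))
    (x : (ι → ℤ) × ℤ) : x ∈ gf2Ct Cs' H τ ↔ ∃ c : Cs',
      (τ c = none ∧ x = (c.1.1, c.1.2 + H)) ∨
      ∃ j, τ c = some j ∧ (x = (c.1.1, c.1.2 + ((j : ℕ) : ℤ) - H) ∨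
        x = (-c.1.1, -(c.1.2 + ((j : ℕ) : ℤ) - H))) := by
  classical
  rw [gf2Ct, Finset.mem_biUnion]
  constructor
  · rintro ⟨c, _, hc⟩
    refine ⟨c, ?_⟩
    cases h : τ c with
    | none =>
      rw [h] at hc
      left
      exact ⟨rfl, by simpa using hc⟩
    | some j =>
      rw [h] at hc
      right
      exact ⟨j, rfl, by simpa using hc⟩
  · rintro ⟨c, h | ⟨j, h, hx⟩⟩
    · refine ⟨c, Finset.mem_attach _ _, ?_⟩
      rw [h.1, h.2]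
      simp
    · refine ⟨c, Finset.mem_attach _ _, ?_⟩
      rw [h]
      simpa using hx

theorem gf2_inP_Ct (Z : Set ι) (Cs' : Finset ((ι → ℤ) × ℤ)) (H : ℕ)
    (τ : Cs' → Option (Fin (2 * H))) (b : ι → ℕ) :
    LF.InP Z (gf2Ct Cs' H τ) b ↔ b ∈ gf2V Z Cs' H τ := by
  constructor
  · rintro ⟨h1, h2, h3⟩
    refine ⟨h1, h2, fun c => ⟨fun j hj => ?_, fun hj => ?_⟩⟩
    · have h4 := h3 (c.1.1, c.1.2 + ((j : ℕ) : ℤ) - H)
        ((gf2_mem_Ct Cs' H τ _).2 ⟨c, Or.inr ⟨j, hj, Or.inl rfl⟩⟩)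
      have h5 := h3 (-c.1.1, -(c.1.2 + ((j : ℕ) : ℤ) - H))
        ((gf2_mem_Ct Cs' H τ _).2 ⟨c, Or.inr ⟨j, hj, Or.inr rfl⟩⟩)
      simp only [Pi.neg_apply, neg_mul, Finset.sum_neg_distrib] at h4 h5
      linarith
    · have h4 := h3 (c.1.1, c.1.2 + H) ((gf2_mem_Ct Cs' H τ _).2 ⟨c, Or.inl ⟨hj, rfl⟩⟩)
      simp only at h4
      linarith
  · rintro ⟨h1, h2, h3⟩
    refine ⟨h1, h2, fun x hx => ?_⟩
    obtain ⟨c, ⟨hc, rfl⟩ | ⟨j, hj, rfl | rfl⟩⟩ := (gf2_mem_Ct Cs' H τ _).1 hx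
    · have h4 := (h3 c).2 hc
      simp only
      linarith
    · have h4 := (h3 c).1 j hj
      simp only
      linarith
    · have h4 := (h3 c).1 j hj
      simp only [Pi.neg_apply, neg_mul, Finset.sum_neg_distrib]
      linarith

open Classical in
/-- the value of the alternating sum on a type -/
noncomputable def gf2mu (Cs' : Finset ((ι → ℤ) × ℤ)) (Fr : Finset κ) (f : κ → ι → ℕ) (H : ℕ)
    (τ : Cs' → Option (Fin (2 * H))) : ℤ :=
  ∑ Z' ∈ Fr.powerset, (-1) ^ Z'.card * (if ∀ c : Cs', ∀ j : Fin (2 * H), τ c = some j →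
    ∑ l ∈ Z', ∑ i, c.1.1 i * (f l i : ℤ) ≤ ((j : ℕ) : ℤ) - H then 1 else 0)

theorem gf2_muV (Z : Set ι) (Cs : Finset ((ι → ℤ) × ℤ)) (Fr : Finset κ) (f : κ → ι → ℕ)
    (hfZ : ∀ l ∈ Fr, ∀ i ∈ Z, f l i = 0) (H : ℕ)
    (hH : ∀ c ∈ gf2Cs Z Cs, ∀ Z' ⊆ Fr, |∑ l ∈ Z', ∑ i, c.1 i * (f l i : ℤ)| < (H : ℤ))
    (τ : gf2Cs Z Cs → Option (Fin (2 * H))) (b : ι → ℕ) (hb : b ∈ gf2V Z (gf2Cs Z Cs) H τ) :
    muV {b : ι → ℕ | LF.InP Z Cs b} Fr f b = gf2mu (gf2Cs Z Cs) Fr f H τ := by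
  classical
  obtain ⟨h1, h2, h3⟩ := hb
  rw [muV, gf2mu]
  refine Finset.sum_congr rfl fun Z' hZ' => ?_
  rw [Finset.mem_powerset] at hZ'
  congr 1
  have hiff : (∃ b' ∈ {b : ι → ℕ | LF.InP Z Cs b}, b = b' + ∑ l ∈ Z', f l) ↔
      ∀ c : gf2Cs Z Cs, ∀ j : Fin (2 * H), τ c = some j →
        ∑ l ∈ Z', ∑ i, c.1.1 i * (f l i : ℤ) ≤ ((j : ℕ) : ℤ) - H := by
    rw [gf2_shift Z Cs Fr f hfZ Z' hZ' b h1]
    constructor
    · intro h c j hj
      have h4 := h c.1 c.2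
      have h5 := (h3 c).1 j hj
      linarith
    · intro h c hc
      cases ht : τ ⟨c, hc⟩ with
      | none =>
        have h5 := (h3 ⟨c, hc⟩).2 ht
        have h6 := hH c hc Z' hZ'
        have h7 := (abs_lt.1 h6).2
        simp only at h5
        linarith
      | some j =>
        have h4 := h ⟨c, hc⟩ j ht
        have h5 := (h3 ⟨c, hc⟩).1 j ht
        simp only at h4 h5
        linarith
  by_cases hc : (∃ b' ∈ {b : ι → ℕ | LF.InP Z Cs b}, b = b' + ∑ l ∈ Z', f l)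
  · rw [if_pos hc, if_pos (hiff.1 hc)]
  · rw [if_neg hc, if_neg (fun h => hc (hiff.2 h))]

theorem gf2_exists (Z : Set ι) (Cs : Finset ((ι → ℤ) × ℤ)) (Fr : Finset κ) (f : κ → ι → ℕ)
    (hfZ : ∀ l ∈ Fr, ∀ i ∈ Z, f l i = 0) (H : ℕ)
    (hH : ∀ c ∈ gf2Cs Z Cs, ∀ Z' ⊆ Fr, |∑ l ∈ Z', ∑ i, c.1 i * (f l i : ℤ)| < (H : ℤ))
    (b : ι → ℕ) (hb : muV {b : ι → ℕ | LF.InP Z Cs b} Fr f b ≠ 0) :
    ∃ τ, b ∈ gf2V Z (gf2Cs Z Cs) H τ := by
  classical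
  rw [muV] at hb
  obtain ⟨Z', hZ', hne⟩ := Finset.exists_ne_zero_of_sum_ne_zero hb
  rw [Finset.mem_powerset] at hZ'
  have hex : ∃ b' ∈ {b : ι → ℕ | LF.InP Z Cs b}, b = b' + ∑ l ∈ Z', f l := by
    by_contra hcon
    rw [if_neg hcon, mul_zero] at hne
    exact hne rfl
  obtain ⟨b', hb', rfl⟩ := hex
  have hb'2 := (gf2_inP Z Cs b').1 hb'
  have hge : ∀ c : gf2Cs Z Cs,
      -(H : ℤ) ≤ ∑ i, c.1.1 i * (((b' + ∑ l ∈ Z', f l) i : ℕ) : ℤ) - c.1.2 := by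
    intro c
    rw [gf2_evadd, gf2_evF]
    have h1 := hb'2.2 c.1 c.2
    have h2 := (abs_lt.1 (hH c.1 c.2 Z' hZ')).1
    linarith
  choose τ hτ using fun c : gf2Cs Z Cs => gf2_ok_exists H _ (hge c)
  refine ⟨τ, fun i hi => ?_, fun i hi => ?_, hτ⟩
  · rw [Pi.add_apply, hb'.1 i hi, Finset.sum_apply,
      Finset.sum_eq_zero fun l hl => hfZ l (hZ' hl) i hi, Nat.add_zero]
  · exact le_trans (hb'.2.1 i hi) (Nat.le_add_right _ _)

theorem gf2_cancel (Fr : Finset κ) (l : κ) (hl : l ∈ Fr) (g : Finset κ → ℤ)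
    (hg : ∀ Z' Z'' : Finset κ, l ∉ Z' → (∀ x, x ∈ Z'' ↔ x = l ∨ x ∈ Z') → g Z'' = g Z') :
    ∑ Z' ∈ Fr.powerset, (-1) ^ Z'.card * g Z' = 0 := by
  classical
  obtain ⟨s, hs, rfl⟩ : ∃ s, l ∉ s ∧ Fr = insert l s :=
    ⟨Fr.erase l, Finset.notMem_erase _ _, (Finset.insert_erase hl).symm⟩
  rw [Finset.sum_powerset_insert hs, ← Finset.sum_add_distrib]
  refine Finset.sum_eq_zero fun t ht => ?_
  have hlt : l ∉ t := fun h => hs (Finset.mem_powerset.1 ht h)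
  rw [Finset.card_insert_of_notMem hlt, hg t (insert l t) hlt (fun x => Finset.mem_insert),
    pow_succ]
  ring

theorem gf2_nonzero (Cs' : Finset ((ι → ℤ) × ℤ)) (Fr : Finset κ) (f : κ → ι → ℕ) (H : ℕ)
    (τ : Cs' → Option (Fin (2 * H))) (hμ : gf2mu Cs' Fr f H τ ≠ 0) (l : κ) (hl : l ∈ Fr) :
    ∃ c : Cs', ∃ j, τ c = some j ∧ ∑ i, c.1.1 i * (f l i : ℤ) ≠ 0 := by
  classical
  by_contra hcon
  push Not at hcon
  apply hμ
  rw [gf2mu]
  refine gf2_cancel Fr l hl _ fun Z' Z'' hZ' hZ'' => ?_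
  have hins : Z'' = insert l Z' := by
    ext x
    rw [hZ'', Finset.mem_insert]
  subst hins
  have hiff : (∀ c : Cs', ∀ j : Fin (2 * H), τ c = some j →
      ∑ l ∈ insert l Z', ∑ i, c.1.1 i * (f l i : ℤ) ≤ ((j : ℕ) : ℤ) - H) ↔
      (∀ c : Cs', ∀ j : Fin (2 * H), τ c = some j →
      ∑ l ∈ Z', ∑ i, c.1.1 i * (f l i : ℤ) ≤ ((j : ℕ) : ℤ) - H) := by
    refine forall_congr' fun c => forall_congr' fun j => forall_congr' fun hj => ?_
    rw [Finset.sum_insert hZ', hcon c j hj, zero_add]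
  by_cases hc : (∀ c : Cs', ∀ j : Fin (2 * H), τ c = some j →
      ∑ l ∈ Z', ∑ i, c.1.1 i * (f l i : ℤ) ≤ ((j : ℕ) : ℤ) - H)
  · rw [if_pos hc, if_pos (hiff.2 hc)]
  · rw [if_neg hc, if_neg (fun h => hc (hiff.1 h))]

theorem gf2_bound (Cs' : Finset ((ι → ℤ) × ℤ)) (Fr : Finset κ) (f : κ → ι → ℕ) :
    ∃ H : ℕ, ∀ c ∈ Cs', ∀ Z' ⊆ Fr, |∑ l ∈ Z', ∑ i, c.1 i * (f l i : ℤ)| < (H : ℤ) := by
  classical
  refine ⟨(∑ c ∈ Cs', ∑ l ∈ Fr, |∑ i, c.1 i * (f l i : ℤ)|).toNat + 1, fun c hc Z' hZ' => ?_⟩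
  have h1 : |∑ l ∈ Z', ∑ i, c.1 i * (f l i : ℤ)| ≤ ∑ l ∈ Z', |∑ i, c.1 i * (f l i : ℤ)| :=
    Finset.abs_sum_le_sum_abs _ _
  have h2 : ∑ l ∈ Z', |∑ i, c.1 i * (f l i : ℤ)| ≤ ∑ l ∈ Fr, |∑ i, c.1 i * (f l i : ℤ)| :=
    Finset.sum_le_sum_of_subset_of_nonneg hZ' fun _ _ _ => abs_nonneg _
  have h3 : ∑ l ∈ Fr, |∑ i, c.1 i * (f l i : ℤ)| ≤
      ∑ c ∈ Cs', ∑ l ∈ Fr, |∑ i, c.1 i * (f l i : ℤ)| :=
    Finset.single_le_sum (f := fun c : (ι → ℤ) × ℤ => ∑ l ∈ Fr, |∑ i, c.1 i * (f l i : ℤ)|)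
      (fun _ _ => Finset.sum_nonneg fun _ _ => abs_nonneg _) hc
  push_cast
  omega

theorem gf2_ray (o : ι) (Z : Set ι) (Cs : Finset ((ι → ℤ) × ℤ)) (Fr : Finset κ)
    (f : κ → ι → ℕ) (H : ℕ) (τ : gf2Cs Z Cs → Option (Fin (2 * H))) (Ls Lt : Finset (ι → ℤ))
    (hLs : ∀ l, l ∈ Ls ↔ ∃ c ∈ Cs, c.1 = l)
    (hLt : ∀ l, l ∈ Lt ↔ ∃ c ∈ gf2Ct (gf2Cs Z Cs) H τ, c.1 = l)
    (hray : ∀ u, ExtRay Z Ls u → u o = 0 → ∃ l ∈ Fr, ∃ c : ℚ, ∀ i, (u i : ℚ) = c * f l i)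
    (hμ : gf2mu (gf2Cs Z Cs) Fr f H τ ≠ 0) (u : ι → ℕ) (hu : ExtRay Z Lt u) :
    ExtRay Z Ls u ∧ 0 < u o := by
  classical
  have hmem : ∀ c : gf2Cs Z Cs, c.1.1 ∈ Lt := by
    intro c
    rw [hLt]
    cases h : τ c with
    | none => exact ⟨_, (gf2_mem_Ct _ H τ _).2 ⟨c, Or.inl ⟨h, rfl⟩⟩, rfl⟩
    | some j => exact ⟨_, (gf2_mem_Ct _ H τ _).2 ⟨c, Or.inr ⟨j, h, Or.inl rfl⟩⟩, rfl⟩
  have hE : ExtRay Z Ls u := by
    refine ⟨hu.ne, hu.zero, fun l hl => ?_, fun y hy hly => ?_⟩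
    · obtain ⟨c, hc, rfl⟩ := (hLs l).1 hl
      exact hu.nonneg _ (hmem ⟨c, Finset.mem_union_left _ hc⟩)
    · refine hu.ext y hy fun l hl hlu => ?_
      -- `l = ± c.1`
      have key : ∀ c : gf2Cs Z Cs, ∑ i, c.1.1 i * (u i : ℤ) = 0 →
          ∑ i, (c.1.1 i : ℚ) * y i = 0 := by
        rintro ⟨c, hc⟩ hcu
        rcases Finset.mem_union.1 hc with hc1 | hc1
        · exact hly c.1 ((hLs _).2 ⟨c, hc1, rfl⟩) hcu
        · obtain ⟨i, _, rfl⟩ := Finset.mem_image.1 hc1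
          simp only at hcu ⊢
          rw [gf2_single i u] at hcu
          have hyi : y i = 0 := hy i (by exact_mod_cast hcu)
          rw [Finset.sum_eq_single i]
          · rw [hyi, mul_zero]
          · intro j _ hj
            simp [Pi.single_eq_of_ne hj]
          · intro h
            exact absurd (Finset.mem_univ i) h
      obtain ⟨x, hx, rfl⟩ := (hLt l).1 hl
      obtain ⟨c, ⟨_, rfl⟩ | ⟨j, _, rfl | rfl⟩⟩ := (gf2_mem_Ct _ H τ _).1 hx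
      · exact key c hlu
      · exact key c hlu
      · simp only [Pi.neg_apply, neg_mul, Finset.sum_neg_distrib, neg_eq_zero, Int.cast_neg]
          at hlu ⊢
        exact key c hlu
  refine ⟨hE, ?_⟩
  by_contra hcon
  have hu0 : u o = 0 := by omega
  obtain ⟨l, hl, c₀, hc₀⟩ := hray u hE hu0
  obtain ⟨c, j, hj, hne⟩ := gf2_nonzero _ Fr f H τ hμ l hl
  have h1 := hu.nonneg c.1.1 (hmem c)
  have h2 := hu.nonneg (-c.1.1) ((hLt _).2
    ⟨_, (gf2_mem_Ct _ H τ _).2 ⟨c, Or.inr ⟨j, hj, Or.inr rfl⟩⟩, rfl⟩)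
  simp only [Pi.neg_apply, neg_mul, Finset.sum_neg_distrib] at h2
  have h3 : ∑ i, c.1.1 i * (u i : ℤ) = 0 := by linarith
  have h4 : ((∑ i, c.1.1 i * (u i : ℤ) : ℤ) : ℚ) =
      c₀ * ((∑ i, c.1.1 i * (f l i : ℤ) : ℤ) : ℚ) := by
    push_cast
    rw [Finset.mul_sum]
    refine Finset.sum_congr rfl fun i _ => ?_
    rw [hc₀ i]
    ring
  rw [h3, Int.cast_zero] at h4
  have h5 : ((∑ i, c.1.1 i * (f l i : ℤ) : ℤ) : ℚ) ≠ 0 := by
    exact_mod_cast hne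
  have h6 : c₀ = 0 := by
    rcases mul_eq_zero.1 h4.symm with h | h
    · exact h
    · exact absurd h h5
  apply hu.ne
  funext i
  have h7 := hc₀ i
  rw [h6, zero_mul] at h7
  exact_mod_cast h7

end

open Classical in
theorem gf_tel {ι κ : Type} {R : Type*} [Fintype ι] [CommRing R] (ρ : ι → R) (o : ι) (Z : Set ι)
    (Cs : Finset ((ι → ℤ) × ℤ)) (Fr : Finset κ) (f : κ → ι → ℕ) (hfo : ∀ l ∈ Fr, f l o = 0)
    (hfZ : ∀ l ∈ Fr, ∀ i ∈ Z, f l i = 0)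
    (hray : ∀ u, ExtRay Z (Cs.image Prod.fst) u → u o = 0 →
      ∃ l ∈ Fr, ∃ c : ℚ, ∀ i, (u i : ℚ) = c * f l i) :
    (∀ k, {b : ι → ℕ | muV {b | LF.InP Z Cs b} Fr f b ≠ 0 ∧ b o = k}.Finite) ∧
      ∃ U : Finset (ι → ℕ), (∀ u ∈ U, ExtRay Z (Cs.image Prod.fst) u ∧ 0 < u o) ∧
        ∃ P : Polynomial R,
          (∏ u ∈ U, (1 - PowerSeries.C (wtm ρ u) * PowerSeries.X ^ u o)) *
            PowerSeries.mk (fun k => ∑ᶠ (b : ι → ℕ) (_ : b o = k),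
              (muV {b | LF.InP Z Cs b} Fr f b : R) * wtm ρ b) =
          (P : PowerSeries R) := by
  obtain ⟨H, hH⟩ := gf2_bound (gf2Cs Z Cs) Fr f
  choose U hU1 hU2 using fun τ : gf2Cs Z Cs → Option (Fin (2 * H)) =>
    exists_ext_rays Z ((gf2Ct (gf2Cs Z Cs) H τ).image Prod.fst)
  set T : Finset (gf2Cs Z Cs → Option (Fin (2 * H))) :=
    Finset.univ.filter fun τ => gf2mu (gf2Cs Z Cs) Fr f H τ ≠ 0 with hT
  have hT' : ∀ τ, τ ∈ T ↔ gf2mu (gf2Cs Z Cs) Fr f H τ ≠ 0 := by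
    intro τ
    rw [hT, Finset.mem_filter]
    exact ⟨fun h => h.2, fun h => ⟨Finset.mem_univ _, h⟩⟩
  have hR : ∀ τ ∈ T, ∀ u ∈ U τ, ExtRay Z (Cs.image Prod.fst) u ∧ 0 < u o := by
    intro τ hτ u hu
    refine gf2_ray o Z Cs Fr f H τ (Cs.image Prod.fst)
      ((gf2Ct (gf2Cs Z Cs) H τ).image Prod.fst) ?_ ?_ hray ((hT' τ).1 hτ) u (hU2 τ u hu).2
    · intro l
      exact Finset.mem_image
    · intro l
      exact Finset.mem_image
  have hG : ∀ τ ∈ T, (∀ k, {b : ι → ℕ | LF.InP Z (gf2Ct (gf2Cs Z Cs) H τ) b ∧ b o = k}.Finite) ∧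
      ∃ P : Polynomial R,
        (∏ u ∈ U τ, (1 - PowerSeries.C (wtm ρ u) * PowerSeries.X ^ u o)) *
          PowerSeries.mk (fun k => ∑ᶠ (b : ι → ℕ)
            (_ : LF.InP Z (gf2Ct (gf2Cs Z Cs) H τ) b ∧ b o = k), wtm ρ b) =
        (P : PowerSeries R) := by
    intro τ hτ
    exact gf_polyX ρ o Z _ (U τ) (hU1 τ) fun u hu => (hR τ hτ u hu).2
  have hG' : ∀ τ, ∃ P : Polynomial R, τ ∈ T →
      (∏ u ∈ U τ, (1 - PowerSeries.C (wtm ρ u) * PowerSeries.X ^ u o)) *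
          PowerSeries.mk (fun k => ∑ᶠ (b : ι → ℕ)
            (_ : LF.InP Z (gf2Ct (gf2Cs Z Cs) H τ) b ∧ b o = k), wtm ρ b) =
        (P : PowerSeries R) := by
    intro τ
    by_cases hτ : τ ∈ T
    · obtain ⟨P, hP⟩ := (hG τ hτ).2
      exact ⟨P, fun _ => hP⟩
    · exact ⟨0, fun h => absurd h hτ⟩
  choose P hP using hG'
  -- the slices
  have hfinB : ∀ k, (⋃ τ ∈ T, {b : ι → ℕ | LF.InP Z (gf2Ct (gf2Cs Z Cs) H τ) b ∧ b o = k}).Finite :=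
    fun k => T.finite_toSet.biUnion fun τ hτ => (hG τ hτ).1 k
  have hsub : ∀ k, {b : ι → ℕ | muV {b | LF.InP Z Cs b} Fr f b ≠ 0 ∧ b o = k} ⊆
      ⋃ τ ∈ T, {b : ι → ℕ | LF.InP Z (gf2Ct (gf2Cs Z Cs) H τ) b ∧ b o = k} := by
    rintro k b ⟨hb, hbk⟩
    obtain ⟨τ, hτ⟩ := gf2_exists Z Cs Fr f hfZ H hH b hb
    rw [Set.mem_iUnion₂]
    refine ⟨τ, ?_, (gf2_inP_Ct Z _ H τ b).2 hτ, hbk⟩
    rw [hT', ← gf2_muV Z Cs Fr f hfZ H hH τ b hτ]
    exact hb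
  refine ⟨fun k => (hfinB k).subset (hsub k), T.biUnion U, ?_, ?_⟩
  · intro u hu
    obtain ⟨τ, hτ, hu'⟩ := Finset.mem_biUnion.1 hu
    exact hR τ hτ u hu'
  -- the decomposition
  have hdec : PowerSeries.mk (fun k => ∑ᶠ (b : ι → ℕ) (_ : b o = k),
      (muV {b | LF.InP Z Cs b} Fr f b : R) * wtm ρ b) =
      ∑ τ ∈ T, PowerSeries.C ((gf2mu (gf2Cs Z Cs) Fr f H τ : ℤ) : R) *
        PowerSeries.mk (fun k => ∑ᶠ (b : ι → ℕ)
            (_ : LF.InP Z (gf2Ct (gf2Cs Z Cs) H τ) b ∧ b o = k), wtm ρ b) := by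
    ext k
    rw [map_sum, PowerSeries.coeff_mk]
    simp only [PowerSeries.coeff_C_mul, PowerSeries.coeff_mk]
    have hL : ∑ᶠ (b : ι → ℕ) (_ : b o = k), (muV {b | LF.InP Z Cs b} Fr f b : R) * wtm ρ b =
        ∑ b ∈ (hfinB k).toFinset, (muV {b | LF.InP Z Cs b} Fr f b : R) * wtm ρ b := by
      rw [finsum_eq_sum_of_support_subset (s := (hfinB k).toFinset)]
      · refine Finset.sum_congr rfl fun b hb => ?_
        rw [Set.Finite.mem_toFinset, Set.mem_iUnion₂] at hb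
        obtain ⟨τ, _, _, hbk⟩ := hb
        rw [finsum_eq_if, if_pos hbk]
      · intro b hb
        rw [Function.mem_support, finsum_eq_if] at hb
        by_cases hbk : b o = k
        · rw [if_pos hbk] at hb
          rw [Set.Finite.coe_toFinset]
          refine hsub k ⟨fun h0 => hb ?_, hbk⟩
          rw [h0, Int.cast_zero, zero_mul]
        · rw [if_neg hbk] at hb
          exact absurd rfl hb
    have hRt : ∀ τ ∈ T, ∑ᶠ (b : ι → ℕ) (_ : LF.InP Z (gf2Ct (gf2Cs Z Cs) H τ) b ∧ b o = k),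
        wtm ρ b = ∑ b ∈ (hfinB k).toFinset,
          if LF.InP Z (gf2Ct (gf2Cs Z Cs) H τ) b then wtm ρ b else 0 := by
      intro τ hτ
      rw [finsum_eq_sum_of_support_subset (s := (hfinB k).toFinset)]
      · refine Finset.sum_congr rfl fun b hb => ?_
        rw [Set.Finite.mem_toFinset, Set.mem_iUnion₂] at hb
        obtain ⟨τ', _, _, hbk⟩ := hb
        rw [finsum_eq_if]
        by_cases hb2 : LF.InP Z (gf2Ct (gf2Cs Z Cs) H τ) b
        · rw [if_pos ⟨hb2, hbk⟩, if_pos hb2]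
        · rw [if_neg (fun h => hb2 h.1), if_neg hb2]
      · intro b hb
        rw [Function.mem_support, finsum_eq_if] at hb
        by_cases hbk : LF.InP Z (gf2Ct (gf2Cs Z Cs) H τ) b ∧ b o = k
        · rw [Set.Finite.coe_toFinset, Set.mem_iUnion₂]
          exact ⟨τ, hτ, hbk⟩
        · rw [if_neg hbk] at hb
          exact absurd rfl hb
    rw [hL]
    refine Eq.trans ?_ (Finset.sum_congr rfl fun τ hτ => by rw [hRt τ hτ]).symm
    simp only [Finset.mul_sum]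
    rw [Finset.sum_comm]
    refine Finset.sum_congr rfl fun b hb => ?_
    rw [Set.Finite.mem_toFinset, Set.mem_iUnion₂] at hb
    obtain ⟨τ₀, hτ₀, hb1, hbk⟩ := hb
    rw [Finset.sum_eq_single τ₀]
    · rw [if_pos hb1, gf2_muV Z Cs Fr f hfZ H hH τ₀ b ((gf2_inP_Ct Z _ H τ₀ b).1 hb1)]
    · intro τ _ hne
      rw [if_neg, mul_zero]
      intro hb2
      apply hne
      funext c
      exact gf2_ok_unique H _ _ _ (((gf2_inP_Ct Z _ H τ b).1 hb2).2.2 c)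
        (((gf2_inP_Ct Z _ H τ₀ b).1 hb1).2.2 c)
    · intro h
      exact absurd hτ₀ h
  refine ⟨∑ τ ∈ T, Polynomial.C ((gf2mu (gf2Cs Z Cs) Fr f H τ : ℤ) : R) *
    ((∏ u ∈ T.biUnion U \ U τ, (1 - Polynomial.C (wtm ρ u) * Polynomial.X ^ u o)) * P τ), ?_⟩
  rw [hdec, Finset.mul_sum, ← Polynomial.coeToPowerSeries.ringHom_apply, map_sum]
  refine Finset.sum_congr rfl fun τ hτ => ?_
  have hsubU : U τ ⊆ T.biUnion U := fun u hu => Finset.mem_biUnion.2 ⟨τ, hτ, hu⟩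
  rw [map_mul, map_mul, map_prod, Polynomial.coeToPowerSeries.ringHom_apply,
    Polynomial.coeToPowerSeries.ringHom_apply, ← hP τ hτ, ← Finset.prod_sdiff hsubU]
  have h1 : ∏ u ∈ T.biUnion U \ U τ,
      Polynomial.coeToPowerSeries.ringHom (1 - Polynomial.C (wtm ρ u) * Polynomial.X ^ u o) =
      ∏ u ∈ T.biUnion U \ U τ, (1 - PowerSeries.C (wtm ρ u) * PowerSeries.X ^ u o) := by
    refine Finset.prod_congr rfl fun u _ => ?_
    rw [map_sub, map_mul, map_pow, map_one]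
    simp [Polynomial.coeToPowerSeries.ringHom_apply]
  rw [h1, Polynomial.coe_C]
  ring

end LFM
end MotMono
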