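import Pool.Agent.Lib.MP_4e5fcd_ag.LFM.X3
import Pool.Agent.Lib.MP_4e5fcd_ag.LFM.C1

/-!
# LFM-H1: the alternating sum over the deep points

`chi_CR`: partition by `v = vv (yj γ)`; the part is `A0 C ∅ n v R`, `R = {z | z ∘ inr ∈ Th L.W R₀ 1}`; `xyv`;
`YV ∅ n v R ≅ {γ | at yv p, vv = v, lc ∈ Th ..}` (the coordinates `inr i` are all `1`: projection).
`sum_C`: exchange the sums; `∑_{C ⊆ Lam} (-1) ^ |C| wt C ∅ n v`: for `i ∈ Hv`: a factor `(v i < n : (d ∣ v i + 1 : d; 0); 1)`;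
for `i ∈ Lam` (`d = 1`): `1` if `i ∉ C`, `[v i = n]` if `i ∈ C` (`v i ≤ n`: `[¬ v i < n]`); so
`∏_{i ∈ Lam} (1 - [¬ v i < n]) = ∏_{Lam} [v i < n]` (`Finset.prod_one_sub..`/`Finset.prod_sub`,
`K \ C = Hv ∪ (Lam \ C)`).
`Hn_eq_zero`: a summand which is not zero has `Sx`, `d (ch i) ∣ v i + 1` for all `i ∈ K` with `v i < n`
(`d = 1` for `i ∈ Lam`), so `pair_dvd` for `g ∈ S`, `pair (W g) (v + 1) = n₁ ≤ lv n₁` gives `E ∣ n₁`.
-/

open MvPolynomial

namespace MotMono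
namespace LFM

variable {I Γ : Type} [Fintype I] [Fintype Γ] {N s : ℕ} (L : MLoc I Γ N s)

/-- the stratum of jets with `vv = v` -/
private def h1St (n : ℕ) (Θ : Set (I → ℂ)) (v : I → ℕ) : Set (Fin s × Fin (n + 1) → ℂ) :=
  {γ | (∀ k, γ (k, 0) = yv L.β L.d L.p k) ∧ LF.vv L.a γ = v ∧ LF.lc L.a γ ∈ Θ}

omit [Fintype Γ] in
private theorem h1_constr (n : ℕ) {Θ : Set (I → ℂ)} (hΘ : Constr Θ) (v : I → ℕ) :
    Constr (h1St L n Θ v) := by
  have h1 : Constr {γ : Fin s × Fin (n + 1) → ℂ | ∀ k, γ (k, 0) = yv L.β L.d L.p k} := by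
    have : {γ : Fin s × Fin (n + 1) → ℂ | ∀ k, γ (k, 0) = yv L.β L.d L.p k} =
        ⋂ k, {γ | eval γ (X (k, 0)) = eval γ (C (yv L.β L.d L.p k))} := by
      ext γ
      simp
    rw [this]
    exact constr_iInter fun k => constr_eq _ _
  have h2 := LF.constr_vv_lc (n := n) L.a v hΘ
  have h3 : h1St L n Θ v = {γ : Fin s × Fin (n + 1) → ℂ | ∀ k, γ (k, 0) = yv L.β L.d L.p k} ∩
      {γ | LF.vv L.a γ = v ∧ LF.lc L.a γ ∈ Θ} := by
    ext γ
    simp [h1St]
  rw [h3]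
  exact h1.inter h2

/-- the conditions on the second half of the coordinates -/
private def h1R (Θ : Set (I → ℂ)) : Set (I ⊕ I → ℂ) := {z | (fun i => z (Sum.inr i)) ∈ Θ}

omit [Fintype I] [Fintype Γ] in
private theorem h1_YV (n : ℕ) (Θ : Set (I → ℂ)) (v : I → ℕ) :
    L.YV ∅ n v (h1R Θ) = prodSet (h1St L n Θ v) {fun _ : I => (1 : ℂ)} := by
  ext z
  constructor
  · rintro ⟨h1, h2, _, h4, h5⟩
    refine ⟨⟨h1, h2, h5⟩, ?_⟩
    rw [Set.mem_singleton_iff]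
    funext i
    exact h4 i (Finset.notMem_empty i)
  · rintro ⟨⟨h1, h2, h3⟩, h4⟩
    rw [Set.mem_singleton_iff] at h4
    exact ⟨h1, h2, fun i hi => absurd hi (Finset.notMem_empty i), fun i _ => congrFun h4 i, h3⟩

omit [Fintype Γ] in
private theorem h1_chi {χ : K0 →+* ℤ} (hχ : IsEulerChar χ) {C : Finset I} (hC : C ⊆ L.Lam)
    (n : ℕ) (v : I → ℕ) {Θ : Set (I → ℂ)} (hΘ : Constr Θ) :
    χ (cls (L.A0 C ∅ n v (h1R Θ))) = L.wt C ∅ n v * χ (cls (h1St L n Θ v)) := by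
  classical
  have hR : Constr (h1R Θ) := hΘ.comp (fun i : I => (Sum.inr i : I ⊕ I))
  rw [xyv L hχ hC (Finset.empty_subset _) (fun i hi => absurd hi (Finset.notMem_empty i)) hR,
    h1_YV, cls_prodSet (h1_constr L n hΘ v) (constr_singleton _), cls_singleton, mul_one]

open Classical in
theorem chi_CR {χ : K0 →+* ℤ} (hχ : IsEulerChar χ) {C : Finset I} (hC : C ⊆ L.Lam)
    (n₁ n : ℕ) (S R₀ : Finset Γ) :
    χ (cls (L.CR C n₁ n S R₀)) = ∑ v ∈ Fintype.piFinset fun _ : I => Finset.range (n + 1),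
      if LF.Sx L.W S (n₁ + 1) v ∧ LF.UC L.W Sᶜ (n₁ + 1) v then
        L.wt C ∅ n v *
          χ (cls {γ : Fin s × Fin (n + 1) → ℂ | (∀ k, γ (k, 0) = yv L.β L.d L.p k) ∧
            LF.vv L.a γ = v ∧ LF.lc L.a γ ∈ LF.Th L.W R₀ fun _ => 1})
      else 0 := by
  set Θ : Set (I → ℂ) := LF.Th L.W R₀ fun _ => 1 with hΘd
  have hΘ : Constr Θ := LF.constr_Th L.W R₀ _
  have hR : Constr (h1R Θ) := hΘ.comp (fun i : I => (Sum.inr i : I ⊕ I))
  have h1 : L.CR C n₁ n S R₀ = ⋃ v ∈ (Fintype.piFinset fun _ : I =>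
      Finset.range (n + 1)).filter (fun v => LF.Sx L.W S (n₁ + 1) v ∧
        LF.UC L.W Sᶜ (n₁ + 1) v), L.A0 C ∅ n v (h1R Θ) := by
    ext γ
    simp only [Set.mem_iUnion, Finset.mem_filter, Fintype.mem_piFinset, Finset.mem_range,
      exists_prop]
    constructor
    · rintro ⟨h1, h2, h3, h4⟩
      refine ⟨LF.vv L.a (yj L.β L.d γ), ⟨fun i => ?_, h2, ?_⟩, h1, rfl, h4⟩
      · have := LF.vv_le L.a (yj L.β L.d γ) i
        omega
      · intro g hg
        exact h3 g (Finset.mem_compl.1 hg)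
    · rintro ⟨v, ⟨_, h2, h3⟩, h4, rfl, h5⟩
      exact ⟨h4, h2, fun g hg => h3 g (Finset.mem_compl.2 hg), h5⟩
  rw [h1, cls_biUnion _ (fun v _ => constr_A0 L C ∅ n v hR), map_sum, Finset.sum_filter]
  · refine Finset.sum_congr rfl fun v _ => ?_
    split_ifs
    · exact h1_chi L hχ hC n v hΘ
    · rfl
  · intro v _ v' _ hvv
    rw [Set.disjoint_left]
    rintro γ ⟨_, h1, _⟩ ⟨_, h2, _⟩
    exact hvv (h1.symm.trans h2)

omit [Fintype I] [Fintype Γ] in
private theorem h1_wt (n : ℕ) (v : I → ℕ) :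
    ∑ C ∈ L.Lam.powerset, (-1) ^ C.card * L.wt C ∅ n v =
      (∏ i ∈ L.Lam, if v i < n then (1 : ℤ) else 0) *
        (∏ i ∈ L.Hv, if v i < n then
          (if L.d (L.ch i) ∣ v i + 1 then (L.d (L.ch i) : ℤ) else 0) else 1) := by
  classical
  have h1 : ∀ C ∈ L.Lam.powerset, (-1 : ℤ) ^ C.card * L.wt C ∅ n v =
      (∏ i ∈ C, -(if v i < n then (0 : ℤ) else 1)) * (∏ i ∈ L.Hv, if v i < n then
          (if L.d (L.ch i) ∣ v i + 1 then (L.d (L.ch i) : ℤ) else 0) else 1) := by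
    intro C hC
    rw [Finset.mem_powerset] at hC
    have h2 : (L.K \ C) \ ∅ = L.Hv ∪ (L.Lam \ C) := by
      ext i
      unfold MLoc.Hv MLoc.Lam
      simp only [Finset.sdiff_empty, Finset.mem_sdiff, Finset.mem_union, Finset.mem_filter]
      constructor
      · rintro ⟨h3, h4⟩
        by_cases h5 : L.d (L.ch i) = 1
        · exact Or.inr ⟨⟨h3, h5⟩, h4⟩
        · exact Or.inl ⟨h3, h5⟩
      · rintro (⟨h3, h4⟩ | ⟨⟨h3, h4⟩, h5⟩)
        · refine ⟨h3, fun h5 => h4 ?_⟩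
          have h6 := hC h5
          unfold MLoc.Lam at h6
          rw [Finset.mem_filter] at h6
          exact h6.2
        · exact ⟨h3, h5⟩
    have h3 : Disjoint L.Hv (L.Lam \ C) := by
      rw [Finset.disjoint_left]
      intro i hi hi2
      unfold MLoc.Hv at hi
      unfold MLoc.Lam at hi2
      rw [Finset.mem_filter] at hi
      rw [Finset.mem_sdiff, Finset.mem_filter] at hi2
      exact hi.2 hi2.1.2
    have h4 : (∏ i ∈ L.Lam \ C, if v i < n then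
          (if L.d (L.ch i) ∣ v i + 1 then (L.d (L.ch i) : ℤ) else 0) else 1) = 1 := by
      refine Finset.prod_eq_one fun i hi => ?_
      unfold MLoc.Lam at hi
      rw [Finset.mem_sdiff, Finset.mem_filter] at hi
      rw [hi.1.2]
      simp
    unfold MLoc.wt
    rw [Finset.prod_empty, one_mul, h2, Finset.prod_union h3, h4, mul_one, Finset.prod_neg]
    ring
  rw [Finset.sum_congr rfl h1, ← Finset.sum_mul, ← Finset.prod_one_add]
  congr 1
  refine Finset.prod_congr rfl fun i _ => ?_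
  split_ifs <;> norm_num

theorem sum_C {χ : K0 →+* ℤ} (hχ : IsEulerChar χ) (n₁ : ℕ) (S R₀ : Finset Γ) :
    ∑ C ∈ L.Lam.powerset, (-1) ^ C.card * χ (cls (L.CR C n₁ (L.lv n₁) S R₀)) =
      L.Hn χ S R₀ n₁ := by
  classical
  have h1 : ∀ C ∈ L.Lam.powerset, (-1 : ℤ) ^ C.card * χ (cls (L.CR C n₁ (L.lv n₁) S R₀)) =
      ∑ v ∈ Fintype.piFinset fun _ : I => Finset.range (L.lv n₁ + 1),
      (-1 : ℤ) ^ C.card * (if LF.Sx L.W S (n₁ + 1) v ∧ LF.UC L.W Sᶜ (n₁ + 1) v then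
        L.wt C ∅ (L.lv n₁) v *
          χ (cls {γ : Fin s × Fin (L.lv n₁ + 1) → ℂ | (∀ k, γ (k, 0) = yv L.β L.d L.p k) ∧
            LF.vv L.a γ = v ∧ LF.lc L.a γ ∈ LF.Th L.W R₀ fun _ => 1})
      else 0) := by
    intro C hC
    rw [chi_CR L hχ (Finset.mem_powerset.1 hC), Finset.mul_sum]
  rw [Finset.sum_congr rfl h1, Finset.sum_comm]
  unfold MLoc.Hn
  refine Finset.sum_congr rfl fun v _ => ?_
  split_ifs with h
  · rw [← h1_wt, Finset.sum_mul]
    refine Finset.sum_congr rfl fun C _ => ?_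
    ring
  · exact Finset.sum_eq_zero fun C _ => mul_zero _

theorem Hn_eq_zero (χ : K0 →+* ℤ) {S : Finset Γ} (hS : S.Nonempty) (R₀ : Finset Γ) {n₁ : ℕ}
    (h : ¬ L.E ∣ n₁) : L.Hn χ S R₀ n₁ = 0 := by
  classical
  unfold MLoc.Hn
  refine Finset.sum_eq_zero fun v _ => ?_
  split_ifs with hc
  · have h1 : ∏ i ∈ L.Hv, (if v i < L.lv n₁ then
          (if L.d (L.ch i) ∣ v i + 1 then (L.d (L.ch i) : ℤ) else 0) else 1) = 0 := by
      by_contra hne
      rw [← Ne, Finset.prod_ne_zero_iff] at hne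
      apply h
      obtain ⟨g, hg⟩ := hS
      have h2 := hc.1 g hg
      have h3 : (pair (L.W g) fun i => v i + 1) = n₁ := by omega
      rw [← h3]
      refine pair_dvd L (n := L.lv n₁) ?_ g ?_
      · intro i hi hvi _ _
        by_cases hd : L.d (L.ch i) = 1
        · rw [hd]
          exact one_dvd _
        · have h4 := hne i (by
            unfold MLoc.Hv
            exact Finset.mem_filter.2 ⟨hi, hd⟩)
          by_contra h5
          rw [if_pos hvi, if_neg h5] at h4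
          exact h4 rfl
      · rw [h3]
        unfold MLoc.lv
        omega
    rw [h1, mul_zero, zero_mul]
  · rfl

end LFM
end MotMono
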