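import Pool.Agent.Lib.MP_4e5fcd_ag.LFM.Base
import Pool.Agent.Lib.MP_4e5fcd_ag.LF.J4

/-!
# LFM-H3: Moebius inversion

`n = lv n₁`, `D = DQ S Q`. `∏_{i ∈ Hv} (v i < n : (d ∣ v i + 1 : d; 0); 1) = ∑_{Q ⊆ Hv} ∏_{i ∈ Q} [v i < n] om d (v i + 1)`
(`om = d [d ∣ ·] - 1`, `Finset.prod_one_add`). So `Hn = ∑_Q ∑_v ucf(v) g_Q(v)`, `ucf = ucf W Sᶜ (n₁ + 1)` (`UC`),
`g_Q v = [Sx v] [v i < n for i ∈ Q ∪ Lam] ∏_Q om (v i + 1) · χ {vv = v, lc ∈ Θ}`; `χ {vv = v, ..} = 0` if `v` is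
not closed (`vv_closed`, `cls_empty`). For closed `v`: `ucf v = ∑_{mh ∈ Bd D v, closed} al a D ucf mh` (`f0`,
LF/F3). Exchange: for closed `mh` and `v ≥ mh`, `v = mh` on `D`: `Sx v ↔ Sx mh` (`W g`, `g ∈ S`, is supported in
`sup W S ⊆ D`), `v i < n ↔ mh i < n` on `D`; for `i ∈ sup W S` `mh i < n` follows from `Sx`
(`mh i + 1 ≤ pair = n₁ ≤ n`). `∑_{v ≥ mh, v = mh on D} χ {vv = v, lc ∈ Θ} = χ (YS yl n univ D mh Θ)` if
`mh i < n` on `D` (partition, see LF/J4, whose proof can be adapted).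
-/

open MvPolynomial

namespace MotMono
namespace LFM

variable {I Γ : Type} [Fintype I] [Fintype Γ] {N s : ℕ} (L : MLoc I Γ N s)

/-- the stratum of jets with `vv = v` -/
private def h3St (n : ℕ) (Θ : Set (I → ℂ)) (v : I → ℕ) : Set (Fin s × Fin (n + 1) → ℂ) :=
  {γ | (∀ k, γ (k, 0) = yv L.β L.d L.p k) ∧ LF.vv L.a γ = v ∧ LF.lc L.a γ ∈ Θ}

omit [Fintype Γ] in
private theorem h3_constr (n : ℕ) {Θ : Set (I → ℂ)} (hΘ : Constr Θ) (v : I → ℕ) :
    Constr (h3St L n Θ v) := by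
  have h1 : Constr {γ : Fin s × Fin (n + 1) → ℂ | ∀ k, γ (k, 0) = yv L.β L.d L.p k} := by
    have : {γ : Fin s × Fin (n + 1) → ℂ | ∀ k, γ (k, 0) = yv L.β L.d L.p k} =
        ⋂ k, {γ | eval γ (X (k, 0)) = eval γ (C (yv L.β L.d L.p k))} := by
      ext γ
      simp
    rw [this]
    exact constr_iInter fun k => constr_eq _ _
  have h2 := LF.constr_vv_lc (n := n) L.a v hΘ
  have h3 : h3St L n Θ v = {γ : Fin s × Fin (n + 1) → ℂ | ∀ k, γ (k, 0) = yv L.β L.d L.p k} ∩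
      {γ | LF.vv L.a γ = v ∧ LF.lc L.a γ ∈ Θ} := by
    ext γ
    simp [h3St]
  rw [h3]
  exact h1.inter h2

omit [Fintype I] [Fintype Γ] in
private theorem h3_disj (n : ℕ) (Θ : Set (I → ℂ)) {v v' : I → ℕ}
    (h : v ≠ v') : Disjoint (h3St L n Θ v) (h3St L n Θ v') := by
  rw [Set.disjoint_left]
  rintro γ ⟨_, h1, _⟩ ⟨_, h2, _⟩
  exact h (h1.symm.trans h2)

omit [Fintype Γ] in
private theorem h3_empty (n : ℕ) (Θ : Set (I → ℂ)) {v : I → ℕ}
    (h : ¬ LF.clo L.a Finset.univ v = v) : cls (h3St L n Θ v) = 0 := by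
  have h1 : h3St L n Θ v = ∅ := by
    ext γ
    simp only [Set.mem_empty_iff_false, iff_false]
    rintro ⟨_, h2, _⟩
    apply h
    rw [← h2]
    funext i
    exact LF.vv_closed L.ha γ i
  rw [h1, cls_empty]

open Classical in
private theorem h3_mem_Bd (D : Finset I) (v m : I → ℕ) :
    m ∈ LF.Bd D v ↔ (∀ i ∈ D, m i = v i) ∧ ∀ i, m i ≤ v i := by
  simp only [LF.Bd, Fintype.mem_piFinset]
  constructor
  · intro h
    refine ⟨fun i hi => ?_, fun i => ?_⟩
    · have := h i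
      rw [if_pos hi] at this
      simpa using this
    · have := h i
      by_cases hi : i ∈ D
      · rw [if_pos hi] at this
        simp at this
        exact this.le
      · rw [if_neg hi] at this
        simp at this
        omega
  · rintro ⟨h1, h2⟩ i
    by_cases hi : i ∈ D
    · rw [if_pos hi]
      simp [h1 i hi]
    · rw [if_neg hi]
      simp
      have := h2 i
      omega

omit [Fintype Γ] in
open Classical in
private theorem h3_cls_union (n : ℕ) {Θ : Set (I → ℂ)} (hΘ : Constr Θ)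
    (A : Set (Fin s × Fin (n + 1) → ℂ)) (P : (I → ℕ) → Prop) [DecidablePred P]
    (hA : ∀ γ, γ ∈ A ↔ (∀ k, γ (k, 0) = yv L.β L.d L.p k) ∧ P (LF.vv L.a γ) ∧
      LF.lc L.a γ ∈ Θ) :
    cls A = ∑ v ∈ (Fintype.piFinset (fun _ : I => Finset.range (n + 1))).filter
      (fun v => LF.clo L.a Finset.univ v = v), if P v then cls (h3St L n Θ v) else 0 := by
  rw [← Finset.sum_filter]
  rw [← cls_biUnion _ (fun v _ => h3_constr L n hΘ v) (fun v _ v' _ h => h3_disj L n Θ h)]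
  congr 1
  ext γ
  simp only [Set.mem_iUnion, Finset.mem_filter, Fintype.mem_piFinset, Finset.mem_range,
    exists_prop]
  rw [hA]
  constructor
  · rintro ⟨h1, h2, h3⟩
    refine ⟨LF.vv L.a γ, ⟨⟨fun i => ?_, ?_⟩, h2⟩, h1, rfl, h3⟩
    · have := LF.vv_le L.a γ i
      omega
    · funext i
      exact LF.vv_closed L.ha γ i
  · rintro ⟨v, ⟨_, h2⟩, h3, rfl, h4⟩
    exact ⟨h3, h2, h4⟩

open Classical in
/-- the factor of `Q` at `m` -/
private noncomputable def h3g (S : Finset Γ) (Q : Finset I) (n₁ : ℕ) (m : I → ℕ) : ℤ :=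
  if LF.Sx L.W S (n₁ + 1) m ∧ ∀ i ∈ L.DQ S Q, m i < L.lv n₁ then
    ∏ i ∈ Q, om (L.d (L.ch i)) (m i + 1) else 0

open Classical in
private theorem h3_Sx_congr (S : Finset Γ) (Q : Finset I) (K : ℕ) {v mh : I → ℕ}
    (h : mh ∈ LF.Bd (L.DQ S Q) v) : LF.Sx L.W S K mh ↔ LF.Sx L.W S K v := by
  rw [h3_mem_Bd] at h
  refine forall₂_congr fun g hg => ?_
  have : pair (L.W g) (fun i => mh i + 1) = pair (L.W g) (fun i => v i + 1) := by
    unfold pair
    refine Finset.sum_congr rfl fun i _ => ?_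
    by_cases hi : L.W g i = 0
    · rw [hi]; simp
    · dsimp only
      rw [h.1 i]
      unfold MLoc.DQ sup
      simp only [Finset.mem_union, Finset.mem_filter, Finset.mem_univ, true_and]
      exact Or.inl (Or.inl ⟨g, hg, hi⟩)
  rw [this]

private theorem h3_g_congr (S : Finset Γ) (Q : Finset I) (n₁ : ℕ) {v mh : I → ℕ}
    (h : mh ∈ LF.Bd (L.DQ S Q) v) : h3g L S Q n₁ mh = h3g L S Q n₁ v := by
  classical
  have h1 := h3_Sx_congr L S Q (n₁ + 1) h
  rw [h3_mem_Bd] at h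
  unfold h3g
  have h2 : (∀ i ∈ L.DQ S Q, mh i < L.lv n₁) ↔ ∀ i ∈ L.DQ S Q, v i < L.lv n₁ :=
    forall₂_congr fun i hi => by rw [h.1 i hi]
  by_cases h3 : LF.Sx L.W S (n₁ + 1) v ∧ ∀ i ∈ L.DQ S Q, v i < L.lv n₁
  · rw [if_pos h3, if_pos ⟨h1.2 h3.1, h2.2 h3.2⟩]
    refine Finset.prod_congr rfl fun i hi => ?_
    rw [h.1 i]
    unfold MLoc.DQ
    simp only [Finset.mem_union]
    exact Or.inl (Or.inr hi)
  · rw [if_neg h3, if_neg fun h4 => h3 ⟨h1.1 h4.1, h2.1 h4.2⟩]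

private theorem h3_lt (S : Finset Γ) {n₁ : ℕ} {v : I → ℕ} (h : LF.Sx L.W S (n₁ + 1) v) {i : I}
    (hi : i ∈ sup L.W S) : v i < L.lv n₁ := by
  classical
  unfold sup at hi
  rw [Finset.mem_filter] at hi
  obtain ⟨_, g, hg, hgi⟩ := hi
  have h5 := h g hg
  have h6 : L.W g i * (v i + 1) ≤ pair (L.W g) (fun i => v i + 1) :=
    Finset.single_le_sum (f := fun i => L.W g i * (v i + 1)) (fun _ _ => Nat.zero_le _)
      (Finset.mem_univ i)
  have h7 : 1 * (v i + 1) ≤ L.W g i * (v i + 1) :=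
    Nat.mul_le_mul_right _ (Nat.one_le_iff_ne_zero.2 hgi)
  unfold MLoc.lv
  omega

open Classical in
/-- the product over the heavy coordinates -/
private theorem h3_prod (S : Finset Γ) (n₁ : ℕ) (v : I → ℕ) (hv : LF.Sx L.W S (n₁ + 1) v) :
    (∏ i ∈ L.Lam, if v i < L.lv n₁ then (1 : ℤ) else 0) *
        (∏ i ∈ L.Hv, if v i < L.lv n₁ then
          (if L.d (L.ch i) ∣ v i + 1 then (L.d (L.ch i) : ℤ) else 0) else 1) =
      ∑ Q ∈ L.Hv.powerset, h3g L S Q n₁ v := by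
  have h1 : ∀ i ∈ L.Hv, (if v i < L.lv n₁ then
          (if L.d (L.ch i) ∣ v i + 1 then (L.d (L.ch i) : ℤ) else 0) else 1) =
      1 + (if v i < L.lv n₁ then om (L.d (L.ch i)) (v i + 1) else 0) := by
    intro i _
    unfold om
    split_ifs <;> ring
  rw [Finset.prod_congr rfl h1, Finset.prod_one_add, Finset.mul_sum]
  refine Finset.sum_congr rfl fun Q _ => ?_
  unfold h3g
  by_cases hD : ∀ i ∈ L.DQ S Q, v i < L.lv n₁
  · rw [if_pos ⟨hv, hD⟩]
    rw [Finset.prod_eq_one, one_mul]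
    · refine Finset.prod_congr rfl fun i hi => ?_
      rw [if_pos (hD i _)]
      unfold MLoc.DQ
      simp only [Finset.mem_union]
      exact Or.inl (Or.inr hi)
    · intro i hi
      rw [if_pos (hD i _)]
      unfold MLoc.DQ
      simp only [Finset.mem_union]
      exact Or.inr hi
  · rw [if_neg fun h => hD h.2]
    push Not at hD
    obtain ⟨i, hi, hi2⟩ := hD
    unfold MLoc.DQ at hi
    simp only [Finset.mem_union] at hi
    rcases hi with (hi | hi) | hi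
    · exact absurd (h3_lt L S hv hi) (by omega)
    · rw [Finset.prod_eq_zero (i := i) hi (if_neg (by omega)), mul_zero]
    · rw [Finset.prod_eq_zero (i := i) hi (if_neg (by omega)), zero_mul]

theorem Hn_eq (χ : K0 →+* ℤ) (S R₀ : Finset Γ) (n₁ : ℕ) :
    L.Hn χ S R₀ n₁ = ∑ Q ∈ L.Hv.powerset, L.FQ χ S R₀ Set.univ Q n₁ := by
  classical
  set n := L.lv n₁ with hn
  set Θ : Set (I → ℂ) := LF.Th L.W R₀ fun _ => 1 with hΘd
  have hΘ : Constr Θ := LF.constr_Th L.W R₀ _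
  set R := Fintype.piFinset (fun _ : I => Finset.range (n + 1)) with hR
  set V := R.filter (fun v => LF.clo L.a Finset.univ v = v) with hV
  set E : (I → ℕ) → ℤ := fun v => χ (cls (h3St L n Θ v)) with hE
  have hE0 : ∀ v, ¬ LF.clo L.a Finset.univ v = v → E v = 0 := by
    intro v hv
    rw [hE]
    show χ (cls (h3St L n Θ v)) = 0
    rw [h3_empty L n Θ hv, map_zero]
  -- the left side
  have h1 : L.Hn χ S R₀ n₁ = ∑ v ∈ V, ∑ Q ∈ L.Hv.powerset,
      LF.ucf L.W Sᶜ (n₁ + 1) v * h3g L S Q n₁ v * E v := by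
    rw [hV, Finset.sum_filter]
    unfold MLoc.Hn
    refine Finset.sum_congr rfl fun v _ => ?_
    by_cases hc : LF.clo L.a Finset.univ v = v
    · rw [if_pos hc]
      by_cases hs : LF.Sx L.W S (n₁ + 1) v
      · by_cases hu : LF.UC L.W Sᶜ (n₁ + 1) v
        · rw [if_pos ⟨hs, hu⟩, h3_prod L S n₁ v hs, Finset.sum_mul]
          refine Finset.sum_congr rfl fun Q _ => ?_
          unfold LF.ucf
          rw [if_pos hu, one_mul]
          rfl
        · rw [if_neg fun h => hu h.2]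
          symm
          refine Finset.sum_eq_zero fun Q _ => ?_
          unfold LF.ucf
          rw [if_neg hu, zero_mul, zero_mul]
      · rw [if_neg fun h => hs h.1]
        symm
        refine Finset.sum_eq_zero fun Q _ => ?_
        unfold h3g
        rw [if_neg fun h => hs h.1, mul_zero, zero_mul]
    · rw [if_neg hc]
      have h2 : χ (cls {γ : Fin s × Fin (L.lv n₁ + 1) → ℂ |
          (∀ k, γ (k, 0) = yv L.β L.d L.p k) ∧ LF.vv L.a γ = v ∧
            LF.lc L.a γ ∈ LF.Th L.W R₀ fun _ => 1}) = 0 := hE0 v hc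
      rw [h2, mul_zero, ite_self]
  rw [h1, Finset.sum_comm]
  refine Finset.sum_congr rfl fun Q _ => ?_
  set D := L.DQ S Q with hD
  have h2 : ∀ mh ∈ R, (∀ i ∈ D, mh i < n) → χ (cls (LF.YS L.yl n Finset.univ D mh Θ)) =
      ∑ v ∈ V, if mh ∈ LF.Bd D v then E v else 0 := by
    intro mh _ hs
    have h3 := h3_cls_union L n hΘ (LF.YS L.yl n Finset.univ D mh Θ)
      (fun v => mh ∈ LF.Bd D v) (by
        intro γ
        simp only [LF.YS, Set.mem_ofPred_eq, Finset.mem_univ, true_imp_iff, h3_mem_Bd]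
        constructor
        · rintro ⟨h1, h2, h3, h4⟩
          exact ⟨h1, ⟨fun i hi => (h3 i hi).1.symm, h2⟩, h4⟩
        · rintro ⟨h1, ⟨h2, h3⟩, h4⟩
          exact ⟨h1, h3, fun i hi => ⟨(h2 i hi).symm, hs i hi⟩, h4⟩)
    rw [h3, map_sum]
    refine Finset.sum_congr rfl fun v _ => ?_
    split_ifs
    · rfl
    · rw [map_zero]
  have h3 : ∀ v ∈ V, (LF.ucf L.W Sᶜ (n₁ + 1) v : ℤ) =
      ∑ mh ∈ R, if mh ∈ LF.Bd D v ∧ LF.clo L.a Finset.univ mh = mh then
        LF.al L.a D (LF.ucf L.W Sᶜ (n₁ + 1)) mh else 0 := by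
    intro v hv
    rw [hV, Finset.mem_filter] at hv
    have := LF.f0 L.ha D (LF.ucf L.W Sᶜ (n₁ + 1)) v hv.2
    rw [← Finset.sum_filter]
    refine this.trans (Finset.sum_congr ?_ fun _ _ => rfl)
    ext mh
    simp only [Finset.mem_filter]
    refine ⟨fun h => ⟨?_, h⟩, fun h => h.2⟩
    have h4 := (h3_mem_Bd D v mh).1 h.1
    have h5 := hv.1
    rw [hR, Fintype.mem_piFinset] at h5 ⊢
    intro i
    have h6 := h5 i
    have h7 := h4.2 i
    rw [Finset.mem_range] at h6 ⊢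
    omega
  calc ∑ v ∈ V, LF.ucf L.W Sᶜ (n₁ + 1) v * h3g L S Q n₁ v * E v
      = ∑ v ∈ V, ∑ mh ∈ R, if (∀ i, LF.clo L.a Finset.univ mh i = mh i) ∧ mh ∈ LF.Bd D v then
          LF.al L.a D (LF.ucf L.W Sᶜ (n₁ + 1)) mh * h3g L S Q n₁ mh * E v else 0 := by
        refine Finset.sum_congr rfl fun v hv => ?_
        rw [h3 v hv, Finset.sum_mul, Finset.sum_mul]
        refine Finset.sum_congr rfl fun mh _ => ?_
        by_cases hb : mh ∈ LF.Bd D v
        · by_cases hc : LF.clo L.a Finset.univ mh = mh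
          · rw [if_pos ⟨hb, hc⟩, if_pos ⟨fun i => congrFun hc i, hb⟩, h3_g_congr L S Q n₁ hb]
          · rw [if_neg fun h => hc h.2, if_neg fun h => hc (funext h.1), zero_mul, zero_mul]
        · rw [if_neg fun h => hb h.1, if_neg fun h => hb h.2, zero_mul, zero_mul]
    _ = ∑ mh ∈ R, ∑ v ∈ V, if (∀ i, LF.clo L.a Finset.univ mh i = mh i) ∧ mh ∈ LF.Bd D v then
          LF.al L.a D (LF.ucf L.W Sᶜ (n₁ + 1)) mh * h3g L S Q n₁ mh * E v else 0 :=
        Finset.sum_comm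
    _ = L.FQ χ S R₀ Set.univ Q n₁ := by
        unfold MLoc.FQ
        refine Finset.sum_congr rfl fun mh hmh => ?_
        by_cases hc : ∀ i, LF.clo L.a Finset.univ mh i = mh i
        · by_cases hs : LF.Sx L.W S (n₁ + 1) mh ∧ ∀ i ∈ D, mh i < n
          · rw [if_pos ⟨hc, hs.1, Set.mem_univ _, hs.2⟩, h2 mh hmh hs.2, Finset.mul_sum]
            refine Finset.sum_congr rfl fun v _ => ?_
            have hg : h3g L S Q n₁ mh = ∏ i ∈ Q, om (L.d (L.ch i)) (mh i + 1) := by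
              unfold h3g
              rw [if_pos hs]
            by_cases hb : mh ∈ LF.Bd D v
            · rw [if_pos ⟨hc, hb⟩, if_pos hb, hg]
            · rw [if_neg fun h => hb h.2, if_neg hb, mul_zero]
          · rw [if_neg fun h => hs ⟨h.2.1, h.2.2.2⟩]
            refine Finset.sum_eq_zero fun v _ => ?_
            have hg : h3g L S Q n₁ mh = 0 := by
              unfold h3g
              rw [if_neg hs]
            rw [hg, mul_zero, zero_mul, ite_self]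
        · rw [if_neg fun h => hc h.1]
          exact Finset.sum_eq_zero fun v _ => if_neg fun h => hc h.1

theorem FQ_split (χ : K0 →+* ℤ) (S R₀ : Finset Γ) (Q : Finset I) (n₁ : ℕ) :
    L.FQ χ S R₀ Set.univ Q n₁ =
      L.FQ χ S R₀ {T | T.Nonempty} Q n₁ + L.FQ χ S R₀ {∅} Q n₁ := by
  classical
  unfold MLoc.FQ
  rw [← Finset.sum_add_distrib]
  refine Finset.sum_congr rfl fun mh _ => ?_
  by_cases h1 : ∀ i, LF.clo L.a Finset.univ mh i = mh i
  · by_cases h2 : LF.Sx L.W S (n₁ + 1) mh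
    · by_cases h3 : ∀ i ∈ L.DQ S Q, mh i < L.lv n₁
      · by_cases h4 : (LF.TT L.W Sᶜ (n₁ + 1) mh).Nonempty
        · have h5 : ¬ LF.TT L.W Sᶜ (n₁ + 1) mh ∈ ({∅} : Set (Finset Γ)) := by
            rw [Set.mem_singleton_iff]
            exact h4.ne_empty
          rw [if_pos ⟨h1, h2, Set.mem_univ _, h3⟩, if_pos ⟨h1, h2, h4, h3⟩,
            if_neg fun h => h5 h.2.2.1, add_zero]
        · have h5 : LF.TT L.W Sᶜ (n₁ + 1) mh ∈ ({∅} : Set (Finset Γ)) := by
            rw [Set.mem_singleton_iff]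
            exact Finset.not_nonempty_iff_eq_empty.1 h4
          rw [if_pos ⟨h1, h2, Set.mem_univ _, h3⟩, if_neg fun h => h4 h.2.2.1,
            if_pos ⟨h1, h2, h5, h3⟩, zero_add]
      · rw [if_neg fun h => h3 h.2.2.2, if_neg fun h => h3 h.2.2.2, if_neg fun h => h3 h.2.2.2,
          add_zero]
    · rw [if_neg fun h => h2 h.2.1, if_neg fun h => h2 h.2.1, if_neg fun h => h2 h.2.1, add_zero]
  · rw [if_neg fun h => h1 h.1, if_neg fun h => h1 h.1, if_neg fun h => h1 h.1, add_zero]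

end LFM
end MotMono
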