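import Pool.Agent.Lib.MP_4e5fcd_ag.LFM.Base
import Pool.Agent.Lib.MP_4e5fcd_ag.LF.G1

/-!
# LFM-H4: the strata without small generators

`D = DQ S Q`, `n = lv n₁`, `Θ = Th W R₀ 1`.
`YS_univ`: if `clo a D' mh = mh` then the conditions `mh i ≤ vv i` for all `i` follow from those for `i ∈ D'`:
`vv` is closed (`vv_closed`): `mh i = clo a D' mh i ≤ clo a univ vv i = vv i` (`clo_mono`).
`finite_VVX`: as `finite_VV` (LF/G1): `v ∈ VVX` is determined by the set of `B` with `MaxB a D v B`: `v|D` and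
`v'|D` are in the same `LinM` (`linM_congr`), `W_g · v = mn v` for `g ∈ R₀ ⊆ S = Fc v`; so
`mn v' v - mn v v' = 0` on `D` by `Sep`, hence everywhere (`clo_smul`, `clo_congr`), `s2_prim`. (`mn v > 0`: `v|D`
is a nonzero element of `LinM`: `D` is not empty because otherwise `v = clo a ∅ v = 0`, not primitive if `I`
is not empty; if `I` is empty `Prim v` fails.)
`F2_formula` (as `f2_formula`, LF/G1): a summand of `FQ .. {∅} Q n₁`: `TT = ∅` means that
`n₁ + 1 + Hb ≤ pair (W g) (mh + 1)` for `g ∉ S`; `al_one`: `al = 1` if `clo a D mh = mh` and `0` otherwise. `YS_univ` with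
`D' = D`, `chi_YS` (`E = D`): `χ (YS ..) = χ (XM a (Bc a D mh) mh D Θ)`; it is `0` unless `R₀` separates `LinM a D mh`
(`chi_XM_eq_zero`) and `mh` is closed on `D`. If it does: `S`, `D` nonempty..., as in `exists_UU`: the vectors
`mh + 1` on `D` and (by `Sep`) ... there is a primitive `v`, `v > 0` on `D`, `clo a D v = v`, `α > 0`,
`mh + 1 = α v` on `D` and on all `i` with `a i ∈ sp a D` (`clo_shift`, `clo_smul`), `mh i = v i = 0` for the others;
`α pair (W g) v = n₁` for `g ∈ S`. For `n₁ ≥ n₀` (`n₀ = 1 + ∑_v (Hb + 1) mn v` as in LF/G1, or the maximum over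
the finite set of the directions `v` for all possible `MaxB`-sets) `TT = ∅` holds iff `mn w v < pair (W g) v` for
all `g ∉ S`: `pair (W g) (mh + 1) = α pair (W g) v + ∑_{i : a i ∉ sp a D} W g i`, and the last sum is `< Hb`.
So `Fc v = S` and `v ∈ VVX`. Conversely for `v ∈ VVX`, `mn v ∣ n₁` take `mh = α v - 1` on `sp a D`. The only point
is `mh i < n = lv n₁` for `i ∈ D`: if `α v i > n₁`, then all `j ∈ D` with `v j ≥ v i` are in `(Q ∪ Lam) \ sup W S`
(for `j ∈ sup W S`: `v j ≤ mn v`), their vectors are independent (`hK`, `hbl`), so `i` is in all `B` with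
`MaxB a D v B`, `e_i ∈ LinM a D v`, `W_g · e_i = 0` for `g ∈ R₀ ⊆ S`: a contradiction to `Sep`.
`XM_congr`, `Bc_congr`, `maxB_dir`. `mh i + 1 = α v i` in `om`.
-/

open MvPolynomial

namespace MotMono
namespace LFM

variable {I Γ : Type} [Fintype I] [Fintype Γ] {N s : ℕ} (L : MLoc I Γ N s)

omit [Fintype Γ] in
theorem YS_univ (n : ℕ) (D D' : Finset I) {mh : I → ℕ} (h : ∀ i, LF.clo L.a D' mh i = mh i)
    (Θ : Set (I → ℂ)) :
    LF.YS L.yl n Finset.univ D mh Θ = LF.YS L.yl n D' D mh Θ := by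
  ext γ
  constructor
  · rintro ⟨h1, h2, h3, h4⟩
    exact ⟨h1, fun i _ => h2 i (Finset.mem_univ i), h3, h4⟩
  · rintro ⟨h1, h2, h3, h4⟩
    refine ⟨h1, fun i _ => ?_, h3, h4⟩
    calc mh i = LF.clo L.a D' mh i := (h i).symm
      _ ≤ LF.clo L.a Finset.univ (LF.vv L.a γ) i :=
          LF.clo_mono (L.ha i) (Finset.subset_univ D') h2
      _ = LF.vv L.a γ i := LF.vv_closed L.ha γ i

omit [Fintype Γ] in
private theorem h4_pair_le {v m u : I → ℕ} {α : ℕ} (h : ∀ i, α * u i ≤ m i + 1) :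
    α * pair v u ≤ pair v (fun i => m i + 1) := by
  simp only [pair, Finset.mul_sum]
  refine Finset.sum_le_sum fun i _ => ?_
  calc α * (v i * u i) = v i * (α * u i) := by ring
    _ ≤ v i * (m i + 1) := Nat.mul_le_mul_left _ (h i)

omit [Fintype Γ] in
private theorem h4_pair {v m u : I → ℕ} {α : ℕ} (h : ∀ i, v i ≠ 0 → m i + 1 = α * u i) :
    pair v (fun i => m i + 1) = α * pair v u := by
  simp only [pair, Finset.mul_sum]
  refine Finset.sum_congr rfl fun i _ => ?_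
  by_cases hi : v i = 0
  · rw [hi]; ring
  · rw [h i hi]; ring

omit [Fintype Γ] in
private theorem h4_term_le {v u : I → ℕ} {i : I} (h : v i ≠ 0) : u i ≤ pair v u := by
  have h1 : v i * u i ≤ pair v u :=
    Finset.single_le_sum (f := fun i => v i * u i) (fun _ _ => Nat.zero_le _) (Finset.mem_univ i)
  exact (Nat.le_mul_of_pos_left _ (Nat.pos_of_ne_zero h)).trans h1

omit [Fintype Γ] in
private theorem h4_pq_lin (v : I → ℕ) (c d : ℚ) (y z : I → ℚ) :
    LF.pq v (c • y - d • z) = c * LF.pq v y - d * LF.pq v z := by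
  simp only [LF.pq, Pi.sub_apply, Pi.smul_apply, smul_eq_mul, Finset.mul_sum]
  rw [← Finset.sum_sub_distrib]
  exact Finset.sum_congr rfl fun i _ => by ring

private theorem h4_pos {a : I → Fin s → ℂ} (ha : ∀ i, a i ≠ 0) {w : Γ → I → ℕ}
    {S R₀ : Finset Γ} {D : Finset I} (hD : ∀ g ∈ S, ∀ i, w g i ≠ 0 → i ∈ D) (hR : R₀ ⊆ S)
    {v : I → ℕ} (hv : v ∈ VVX a w S R₀ D) :
    (∀ g ∈ S, pair (w g) v = LF.mn w v) ∧ 0 < LF.mn w v := by
  classical
  obtain ⟨hpos, hprim, hclo, hF, hsep⟩ := hv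
  have h1 : ∀ g ∈ S, pair (w g) v = LF.mn w v := fun g hg => LF.mem_Fc_iff.1 (hF ▸ hg)
  refine ⟨h1, Nat.pos_of_ne_zero fun h0 => ?_⟩
  obtain ⟨i, hi⟩ : ∃ i, 0 < v i := by
    by_contra hcon
    push Not at hcon
    have := hprim 2 fun i => by
      rw [Nat.le_zero.1 (hcon i)]
      exact dvd_zero 2
    omega
  obtain ⟨j, hj, hj'⟩ := LF.exists_clo_value (D := D) (x := v) (ha i) (by rw [hclo i]; exact hi)
  have h2 : (fun i => if i ∈ D then (v i : ℚ) else 0) = 0 := by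
    refine hsep _ (LF.self_mem_LinM a D v) fun g hg => ?_
    rw [LF.pq_congr (z := fun i => (v i : ℚ)) fun i hi =>
      if_pos (hD g (hR hg) i hi), LF.pq_natCast, h1 g (hR hg), h0, Nat.cast_zero]
  have h3 := congrFun h2 j
  simp only [if_pos hj, Pi.zero_apply, Nat.cast_eq_zero] at h3
  have := hpos j hj
  omega

private theorem h4_inj {a : I → Fin s → ℂ} (ha : ∀ i, a i ≠ 0) {w : Γ → I → ℕ}
    {S R₀ : Finset Γ} {D : Finset I} (hD : ∀ g ∈ S, ∀ i, w g i ≠ 0 → i ∈ D) (hR : R₀ ⊆ S)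
    {v v' : I → ℕ} (hv : v ∈ VVX a w S R₀ D) (hv' : v' ∈ VVX a w S R₀ D)
    (h : ∀ B, LF.MaxB a D v B ↔ LF.MaxB a D v' B) : v = v' := by
  classical
  obtain ⟨hp1, hk⟩ := h4_pos ha hD hR hv
  obtain ⟨hp1', hk'⟩ := h4_pos ha hD hR hv'
  have hpq : ∀ x : I → ℕ, ∀ g ∈ R₀,
      LF.pq (w g) (fun i => if i ∈ D then (x i : ℚ) else 0) = (pair (w g) x : ℚ) :=
    fun x g hg => by
      rw [LF.pq_congr (z := fun i => (x i : ℚ)) fun i hi =>
        if_pos (hD g (hR hg) i hi), LF.pq_natCast]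
  have h1 : (LF.mn w v' : ℚ) • (fun i => if i ∈ D then (v i : ℚ) else 0) -
      (LF.mn w v : ℚ) • (fun i => if i ∈ D then (v' i : ℚ) else 0) = 0 := by
    refine hv.2.2.2.2 _ ?_ fun g hg => ?_
    · refine Submodule.sub_mem _ (Submodule.smul_mem _ _ (LF.self_mem_LinM a D v))
        (Submodule.smul_mem _ _ ?_)
      rw [LF.linM_congr h]
      exact LF.self_mem_LinM a D v'
    · rw [h4_pq_lin, hpq v g hg, hpq v' g hg, hp1 g (hR hg), hp1' g (hR hg)]
      ring
  have h2 : ∀ j ∈ D, LF.mn w v' * v j = LF.mn w v * v' j := fun j hj => by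
    have h3 := congrFun h1 j
    simp only [Pi.sub_apply, Pi.smul_apply, if_pos hj, smul_eq_mul, Pi.zero_apply] at h3
    have h4 : (LF.mn w v' : ℚ) * v j = LF.mn w v * v' j := sub_eq_zero.1 h3
    exact_mod_cast h4
  refine LF.s2_prim (k' := LF.mn w v') hk hk' hv.2.1 hv'.2.1 fun i => ?_
  have h3 : LF.clo a D (fun j => LF.mn w v' * v j) i = LF.mn w v' * v i := by
    rw [LF.clo_smul (ha i) hk', hv.2.2.1 i]
  have h4 : LF.clo a D (fun j => LF.mn w v * v' j) i = LF.mn w v * v' i := by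
    rw [LF.clo_smul (ha i) hk, hv'.2.2.1 i]
  rw [← h3, ← h4]
  exact LF.clo_congr h2

private theorem h4_fin {a : I → Fin s → ℂ} (ha : ∀ i, a i ≠ 0) {w : Γ → I → ℕ}
    {S R₀ : Finset Γ} {D : Finset I} (hD : ∀ g ∈ S, ∀ i, w g i ≠ 0 → i ∈ D) (hR : R₀ ⊆ S) :
    (VVX a w S R₀ D).Finite := by
  refine Set.Finite.of_finite_image (f := fun v => {B | LF.MaxB a D v B}) (Set.toFinite _) ?_
  intro v hv v' hv' h
  exact h4_inj ha hD hR hv hv' fun B => Set.ext_iff.1 h B

omit [Fintype Γ] in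
private theorem h4_sup {w : Γ → I → ℕ} {S : Finset Γ} {g : Γ} (hg : g ∈ S) {i : I}
    (hi : w g i ≠ 0) : i ∈ sup w S := by
  unfold sup
  rw [Finset.mem_filter]
  exact ⟨Finset.mem_univ i, g, hg, hi⟩

open Classical in
theorem finite_VVX (S R₀ : Finset Γ) (hR : R₀ ⊆ S) (X : Finset I) :
    (VVX L.a L.W S R₀ (sup L.W S ∪ X)).Finite :=
  h4_fin L.ha (fun _ hg _ hi => Finset.mem_union_left _ (h4_sup hg hi)) hR

open Classical in
theorem finite_VVQ (S R₀ : Finset Γ) (hR : R₀ ⊆ S) (Q : Finset I) :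
    (VVX L.a L.W S R₀ (L.DQ S Q)).Finite := by
  unfold MLoc.DQ
  exact h4_fin L.ha (fun _ hg _ hi => Finset.mem_union_left _
    (Finset.mem_union_left _ (h4_sup hg hi))) hR

omit [Fintype I] in
/-- scaling of closures -/
private theorem h4_clo {a : I → Fin s → ℂ} (ha : ∀ i, a i ≠ 0) {D : Finset I}
    {α : ℕ} (hα : 0 < α) {m u : I → ℕ} (h : ∀ i ∈ D, m i + 1 = α * u i) {i : I}
    (hi : a i ∈ LF.sp a (D : Set I)) :
    LF.clo a D m i + 1 = α * LF.clo a D u i := by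
  have h1 : LF.clo a D (fun j => m j + 1) i = LF.clo a D m i + 1 := LF.clo_shift (ha i) hi 1
  have h2 : LF.clo a D (fun j => m j + 1) i = LF.clo a D (fun j => α * u j) i :=
    LF.clo_congr h
  rw [← h1, h2, LF.clo_smul (ha i) hα]

private theorem h4_TT {w : Γ → I → ℕ} {S : Finset Γ} {K : ℕ} {m : I → ℕ} [DecidableEq Γ] :
    LF.TT w Sᶜ K m = ∅ ↔ ∀ g, g ∉ S → K + LF.Hb w ≤ pair (w g) (fun i => m i + 1) := by
  classical
  unfold LF.TT
  rw [Finset.filter_eq_empty_iff]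
  constructor
  · intro h g hg
    exact not_lt.1 (h (Finset.mem_compl.2 hg))
  · intro h g hg
    exact not_lt.2 (h g (Finset.mem_compl.1 hg))

omit [Fintype I] [Fintype Γ] in
/-- coordinate vectors in the span of coordinate vectors -/
private theorem h4_coord {i : I} (hi : i ∈ L.K) {B : Set I} (hB : ∀ b ∈ B, b ∈ L.K)
    (h : L.a i ∈ LF.sp L.a B) : i ∈ B := by
  by_contra hcon
  have h1 : ∀ x ∈ LF.sp L.a B, x (L.bl i) = 0 := by
    intro x hx
    unfold LF.sp at hx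
    induction hx using Submodule.span_induction with
    | mem x hx =>
      obtain ⟨b, hb, rfl⟩ := hx
      rw [L.hK b (hB b hb)]
      refine Pi.single_eq_of_ne ?_ _
      intro hbl
      have := L.hbl i hi b (hB b hb) hbl
      exact hcon (this ▸ hb)
    | zero => rfl
    | add x y _ _ hx hy => rw [Pi.add_apply, hx, hy, add_zero]
    | smul c x _ hx => rw [Pi.smul_apply, hx, smul_zero]
  have h2 := h1 _ h
  rw [L.hK i hi, Pi.single_eq_same] at h2
  exact one_ne_zero h2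

open Classical in
/-- the values on `D` are at most `mn` -/
private theorem h4_le {S R₀ : Finset Γ} (hR : R₀ ⊆ S) {Q : Finset I} (hQ : Q ⊆ L.Hv)
    {v : I → ℕ} (hv : v ∈ VVX L.a L.W S R₀ (L.DQ S Q)) {i : I} (hi : i ∈ L.DQ S Q) :
    v i ≤ LF.mn L.W v := by
  by_contra hcon
  push Not at hcon
  have hD : ∀ g ∈ S, ∀ i, L.W g i ≠ 0 → i ∈ L.DQ S Q := fun _ hg _ hi => by
    unfold MLoc.DQ
    exact Finset.mem_union_left _ (Finset.mem_union_left _ (h4_sup hg hi))
  obtain ⟨hp1, hk⟩ := h4_pos L.ha hD hR hv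
  have hK : ∀ j ∈ L.DQ S Q, LF.mn L.W v < v j → j ∈ L.K ∧ j ∉ sup L.W S := by
    intro j hj hlt
    have hns : j ∉ sup L.W S := by
      intro hjs
      unfold sup at hjs
      rw [Finset.mem_filter] at hjs
      obtain ⟨-, g, hg, hgj⟩ := hjs
      have h1 : v j ≤ pair (L.W g) v := h4_term_le hgj
      rw [hp1 g hg] at h1
      omega
    refine ⟨?_, hns⟩
    unfold MLoc.DQ at hj
    rw [Finset.mem_union, Finset.mem_union] at hj
    rcases hj with (hj | hj) | hj
    · exact absurd hj hns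
    · have := hQ hj
      unfold MLoc.Hv at this
      exact (Finset.mem_filter.1 this).1
    · unfold MLoc.Lam at hj
      exact (Finset.mem_filter.1 hj).1
  obtain ⟨hiK, his⟩ := hK i hi hcon
  have hmem : ∀ B, LF.MaxB L.a (L.DQ S Q) v B → i ∈ B := by
    intro B hB
    have h1 := hB.2 i hi
    have h2 := h4_coord L hiK (B := {b | b ∈ B ∧ v i ≤ v b}) (fun b hb =>
      (hK b (hB.1.1 hb.1) (lt_of_lt_of_le hcon hb.2)).1) h1
    exact h2.1
  have hz := hv.2.2.2.2 (Pi.single i 1) ⟨fun j hj => ?_, fun B B' hB hB' => ?_⟩ fun g hg => ?_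
  · have h3 := congrFun hz i
    rw [Pi.single_eq_same, Pi.zero_apply] at h3
    exact one_ne_zero h3
  · refine Pi.single_eq_of_ne ?_ _
    rintro rfl
    exact hj hi
  · rw [Finset.sum_pi_single', Finset.sum_pi_single', if_pos (hmem B hB), if_pos (hmem B' hB')]
  · unfold LF.pq
    refine Finset.sum_eq_zero fun j _ => ?_
    by_cases hji : j = i
    · subst hji
      have h0 : L.W g j = 0 := by
        by_contra hne
        exact his (h4_sup (hR hg) hne)
      rw [h0, Nat.cast_zero, zero_mul]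
    · rw [Pi.single_eq_of_ne hji, mul_zero]

omit [Fintype I] [Fintype Γ] in
private theorem h4_out {a : I → Fin s → ℂ} {D : Finset I} {v : I → ℕ}
    (h : ∀ i, LF.clo a D v i = v i) {i : I} (hi : a i ∉ LF.sp a (D : Set I)) : v i = 0 := by
  rw [← h i]
  exact LF.clo_eq_zero hi

private theorem h4_Hb {w : Γ → I → ℕ} (g : Γ) (P : I → Prop) [DecidablePred P] {m : I → ℕ}
    (hm : ∀ i, ¬ P i → m i = 0) {α : ℕ} {v : I → ℕ} (h : ∀ i, P i → m i + 1 = α * v i) :
    pair (w g) (fun i => m i + 1) < α * pair (w g) v + LF.Hb w := by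
  have h1 : pair (w g) (fun i => m i + 1) ≤ α * pair (w g) v + ∑ i, w g i := by
    simp only [pair, Finset.mul_sum]
    rw [← Finset.sum_add_distrib]
    refine Finset.sum_le_sum fun i _ => ?_
    by_cases hi : P i
    · rw [h i hi]
      have : w g i * (α * v i) = α * (w g i * v i) := by ring
      omega
    · rw [hm i hi]
      have : w g i * (0 + 1) = w g i := by ring
      omega
  have h2 : ∑ i, w g i ≤ ∑ g, ∑ i, w g i :=
    Finset.single_le_sum (f := fun g => ∑ i, w g i) (fun _ _ => Nat.zero_le _)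
      (Finset.mem_univ g)
  unfold LF.Hb
  omega

open Classical in
private theorem h4_core {χ : K0 →+* ℤ} (hχ : IsEulerCharF χ) {S R₀ : Finset Γ} {g₀ : Γ}
    (hg₀ : g₀ ∈ S) (hR : R₀ ⊆ S) {Q D : Finset I}
    (hD : ∀ g ∈ S, ∀ i, L.W g i ≠ 0 → i ∈ D) (hQD : Q ⊆ D)
    (hle : ∀ {v : I → ℕ}, v ∈ VVX L.a L.W S R₀ D → ∀ {i : I}, i ∈ D → v i ≤ LF.mn L.W v)
    (hfin : (VVX L.a L.W S R₀ D).Finite) {n : ℕ} (hn1 : 1 ≤ n)
    (hnv : ∀ v ∈ VVX L.a L.W S R₀ D, (LF.Hb L.W + 1) * LF.mn L.W v ≤ n) :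
    (∑ mh ∈ Fintype.piFinset (fun _ : I => Finset.range (L.lv n + 1)),
      if (∀ i, LF.clo L.a Finset.univ mh i = mh i) ∧ LF.Sx L.W S (n + 1) mh ∧
        LF.TT L.W Sᶜ (n + 1) mh ∈ ({∅} : Set (Finset Γ)) ∧ ∀ i ∈ D, mh i < L.lv n then
      LF.al L.a D (LF.ucf L.W Sᶜ (n + 1)) mh * (∏ i ∈ Q, om (L.d (L.ch i)) (mh i + 1)) *
        χ (cls (LF.YS L.yl (L.lv n) Finset.univ D mh (LF.Th L.W R₀ fun _ => 1)))
      else 0) =
      ∑ v ∈ hfin.toFinset,
        if LF.mn L.W v ∣ n then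
          (∏ i ∈ Q, om (L.d (L.ch i)) (n / LF.mn L.W v * v i)) *
            χ (cls (LF.XM L.a (LF.Bc L.a D v) v D (LF.Th L.W R₀ fun _ => 1)))
        else 0 := by
  have hlv : n < L.lv n := by
    have := L.hE
    unfold MLoc.lv
    omega
  have hsup : ∀ g ∈ R₀, ∀ i, L.W g i ≠ 0 → i ∈ D := fun g hg i hi => hD g (hR hg) i hi
  have hdep : ∀ c c' : I → ℂ, (∀ i ∈ D, c i = c' i) → c ∈ LF.Th L.W R₀ (fun _ => 1) →
      c' ∈ LF.Th L.W R₀ (fun _ => 1) := fun c c' h hc => LF.Th_dep hsup c c' h hc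
  have hterm : ∀ mh ∈ Fintype.piFinset (fun _ : I => Finset.range (L.lv n + 1)),
      (if (∀ i, LF.clo L.a Finset.univ mh i = mh i) ∧ LF.Sx L.W S (n + 1) mh ∧
        LF.TT L.W Sᶜ (n + 1) mh ∈ ({∅} : Set (Finset Γ)) ∧ ∀ i ∈ D, mh i < L.lv n then
      LF.al L.a D (LF.ucf L.W Sᶜ (n + 1)) mh * (∏ i ∈ Q, om (L.d (L.ch i)) (mh i + 1)) *
        χ (cls (LF.YS L.yl (L.lv n) Finset.univ D mh (LF.Th L.W R₀ fun _ => 1)))
      else 0) =
      if LF.Sx L.W S (n + 1) mh ∧ LF.TT L.W Sᶜ (n + 1) mh = ∅ ∧ (∀ i ∈ D, mh i < L.lv n) ∧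
        (∀ i, LF.clo L.a D mh i = mh i) ∧ LF.Sep L.W R₀ (LF.LinM L.a D mh) then
        (∏ i ∈ Q, om (L.d (L.ch i)) (mh i + 1)) *
          χ (cls (LF.XM L.a (LF.Bc L.a D mh) mh D (LF.Th L.W R₀ fun _ => 1))) else 0 := by
    intro mh hmh
    rw [Fintype.mem_piFinset] at hmh
    by_cases hA : (∀ i, LF.clo L.a Finset.univ mh i = mh i) ∧ LF.Sx L.W S (n + 1) mh ∧
        LF.TT L.W Sᶜ (n + 1) mh ∈ ({∅} : Set (Finset Γ)) ∧ ∀ i ∈ D, mh i < L.lv n
    · rw [if_pos hA]
      obtain ⟨hA1, hA2, hA3, hA4⟩ := hA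
      rw [Set.mem_singleton_iff] at hA3
      rw [LF.al_one L.ha (funext hA1) (h4_TT.1 hA3)]
      by_cases hC : LF.clo L.a D mh = mh
      · have hC' : ∀ i, LF.clo L.a D mh i = mh i := fun i => congrFun hC i
        rw [if_pos hC, one_mul, YS_univ L (L.lv n) D D hC',
          LF.chi_YS hχ.line L.yl (subset_refl D) (fun i hi => (hA4 i hi).le) hA4
            (LF.Bc_spec L.a D mh) (LF.constr_Th L.W R₀ _) hdep]
        split_ifs with hG
        · rfl
        · have h0 : χ (cls (LF.XM L.a (LF.Bc L.a D mh) mh D (LF.Th L.W R₀ fun _ => 1))) = 0 :=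
            LF.chi_XM_eq_zero (LF.isEulerChar_of_F hχ) hsup (LF.Bc_spec L.a D mh)
              fun hs => hG ⟨hA2, hA3, hA4, hC', hs⟩
          show _ * χ (cls (LF.XM L.a (LF.Bc L.a D mh) mh D (LF.Th L.W R₀ fun _ => 1))) = 0
          rw [h0, mul_zero]
      · rw [if_neg hC, zero_mul, zero_mul, if_neg]
        rintro ⟨-, -, -, h3, -⟩
        exact hC (funext h3)
    · rw [if_neg hA, if_neg]
      rintro ⟨h1, h2, h3, h4, -⟩
      exact hA ⟨fun i => LF.clo_of_clo L.ha (Finset.subset_univ D) h4 i, h1, h2, h3⟩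
  rw [Finset.sum_congr rfl hterm, ← Finset.sum_filter, ← Finset.sum_filter]
  symm
  have hspD : ∀ i ∈ D, L.a i ∈ LF.sp L.a (D : Set I) := fun i hi => LF.mem_sp_of_mem hi
  have hvpos : ∀ v, v ∈ VVX L.a L.W S R₀ D → ∀ i, L.a i ∈ LF.sp L.a (D : Set I) → 0 < v i := by
    intro v hv i hi
    rw [← hv.2.2.1 i, Nat.lt_iff_add_one_le, zero_add, LF.le_clo_iff (L.ha i) one_pos]
    refine LF.sp_mono ?_ hi
    intro j hj
    exact ⟨hj, hv.1 j hj⟩
  have hkey : ∀ v, v ∈ VVX L.a L.W S R₀ D → LF.mn L.W v ∣ n →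
      0 < n / LF.mn L.W v ∧ n / LF.mn L.W v * LF.mn L.W v = n ∧
      (∀ i, L.a i ∈ LF.sp L.a (D : Set I) →
        (n / LF.mn L.W v * v i - 1) + 1 = n / LF.mn L.W v * v i) ∧
      ∀ i ∈ D, n / LF.mn L.W v * v i ≤ n := by
    intro v hv hd
    have hk := (h4_pos L.ha hD hR hv).2
    have hα : 0 < n / LF.mn L.W v := Nat.div_pos (Nat.le_of_dvd hn1 hd) hk
    refine ⟨hα, Nat.div_mul_cancel hd, fun i hi => ?_, fun i hi => ?_⟩
    · have h1 : 0 < n / LF.mn L.W v * v i := Nat.mul_pos hα (hvpos v hv i hi)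
      omega
    · calc n / LF.mn L.W v * v i ≤ n / LF.mn L.W v * LF.mn L.W v :=
            Nat.mul_le_mul_left _ (hle hv hi)
        _ = n := Nat.div_mul_cancel hd
  refine Finset.sum_bij (fun v _ i => n / LF.mn L.W v * v i - 1) ?_ ?_ ?_ ?_
  · intro v hv
    rw [Finset.mem_filter, Set.Finite.mem_toFinset] at hv
    obtain ⟨hv, hd⟩ := hv
    obtain ⟨hα, hmul, hadd, hDle⟩ := hkey v hv hd
    obtain ⟨hpS, hk⟩ := h4_pos L.ha hD hR hv
    rw [Finset.mem_filter, Fintype.mem_piFinset]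
    refine ⟨fun i => ?_, fun g hg => ?_, h4_TT.2 fun g hg => ?_, fun i hi => ?_, fun i => ?_, ?_⟩
    · rw [Finset.mem_range]
      rcases Nat.eq_zero_or_pos (v i) with h0 | h0
      · rw [h0, mul_zero]
        omega
      · obtain ⟨j, hj, hj'⟩ := LF.exists_clo_value (D := D) (x := v) (L.ha i)
          (by rw [hv.2.2.1 i]; exact h0)
        rw [hv.2.2.1 i] at hj'
        have h1 := hDle j hj
        rw [hj'] at h1
        omega
    · rw [h4_pair (u := v) (α := n / LF.mn L.W v) fun i hi => hadd i (hspD i (hD g hg i hi)),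
        hpS g hg, hmul]
    · have h0 : n / LF.mn L.W v * pair (L.W g) v ≤
          pair (L.W g) (fun i => (n / LF.mn L.W v * v i - 1) + 1) :=
        h4_pair_le fun i => by omega
      have h1 : LF.mn L.W v + 1 ≤ pair (L.W g) v := by
        have h2 := LF.mn_le L.W v g
        have h3 : pair (L.W g) v ≠ LF.mn L.W v := fun h => hg (by
          rw [← hv.2.2.2.1]; exact LF.mem_Fc_iff.2 h)
        omega
      have h4 : LF.Hb L.W + 1 ≤ n / LF.mn L.W v := (Nat.le_div_iff_mul_le hk).2 (hnv v hv)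
      refine le_trans ?_ h0
      calc n + 1 + LF.Hb L.W ≤ n + n / LF.mn L.W v := by omega
        _ = n / LF.mn L.W v * (LF.mn L.W v + 1) := by rw [mul_add, hmul, mul_one]
        _ ≤ _ := Nat.mul_le_mul_left _ h1
    · have h1 := hDle i hi
      show n / LF.mn L.W v * v i - 1 < L.lv n
      omega
    · by_cases hi : L.a i ∈ LF.sp L.a (D : Set I)
      · have h1 := h4_clo L.ha hα (fun j hj => hadd j (hspD j hj)) hi
        rw [hv.2.2.1 i] at h1
        have h2 := hadd i hi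
        show _ = n / LF.mn L.W v * v i - 1
        omega
      · rw [LF.clo_eq_zero hi]
        simp only [h4_out hv.2.2.1 hi, mul_zero, Nat.zero_sub]
    · rw [LF.linM_congr fun B => LF.maxB_dir hα fun i hi => hadd i (hspD i hi)]
      exact hv.2.2.2.2
  · intro v hv v' hv' heq
    rw [Finset.mem_filter, Set.Finite.mem_toFinset] at hv hv'
    obtain ⟨hα, hmul, hadd, -⟩ := hkey v hv.1 hv.2
    obtain ⟨hα', hmul', hadd', -⟩ := hkey v' hv'.1 hv'.2
    refine h4_inj L.ha hD hR hv.1 hv'.1 fun B => ?_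
    rw [← LF.maxB_dir hα fun i hi => hadd i (hspD i hi),
      ← LF.maxB_dir hα' fun i hi => hadd' i (hspD i hi), heq]
  · intro mh hmh
    rw [Finset.mem_filter, Fintype.mem_piFinset] at hmh
    obtain ⟨hmn, hSx, hTT, -, hcl, hsep⟩ := hmh
    rw [h4_TT] at hTT
    obtain ⟨i₀, hi₀⟩ : ∃ i, i ∈ D := by
      have h1 := hSx g₀ hg₀
      by_contra hcon
      push Not at hcon
      have h2 : pair (L.W g₀) (fun i => mh i + 1) = 0 := by
        unfold pair
        refine Finset.sum_eq_zero fun i _ => ?_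
        have : L.W g₀ i = 0 := by
          by_contra h3
          exact hcon i (hD g₀ hg₀ i h3)
        rw [this, zero_mul]
      omega
    set P : Finset I := Finset.univ.filter fun i => L.a i ∈ LF.sp L.a (D : Set I) with hP
    have hPmem : ∀ i, i ∈ P ↔ L.a i ∈ LF.sp L.a (D : Set I) := fun i => by
      rw [hP, Finset.mem_filter]
      exact ⟨fun h => h.2, fun h => ⟨Finset.mem_univ i, h⟩⟩
    have hDP : ∀ i ∈ D, i ∈ P := fun i hi => (hPmem i).2 (hspD i hi)
    have hm0 : ∀ i, i ∉ P → mh i = 0 := fun i hi =>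
      h4_out hcl fun h => hi ((hPmem i).2 h)
    set α := P.gcd (fun i => mh i + 1) with hαdef
    have hdvd : ∀ i ∈ P, α ∣ mh i + 1 := fun i hi => Finset.gcd_dvd hi
    have hα : 0 < α := Nat.pos_of_dvd_of_pos (hdvd i₀ (hDP i₀ hi₀)) (Nat.succ_pos _)
    obtain ⟨v, hvdef⟩ : ∃ v : I → ℕ, v = fun i => if i ∈ P then (mh i + 1) / α else 0 := ⟨_, rfl⟩
    have hmv : ∀ i ∈ P, mh i + 1 = α * v i := fun i hi => by
      rw [hvdef]
      simp only [if_pos hi]
      exact (Nat.mul_div_cancel' (hdvd i hi)).symm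
    have hv0 : ∀ i, i ∉ P → v i = 0 := fun i hi => by
      rw [hvdef]
      simp only [if_neg hi]
    have hpS : ∀ g ∈ S, α * pair (L.W g) v = n := fun g hg => by
      have h1 := hSx g hg
      rw [h4_pair (u := v) (α := α) fun i hi => hmv i (hDP i (hD g hg i hi))] at h1
      omega
    have hpT : ∀ g, g ∉ S → n < α * pair (L.W g) v := fun g hg => by
      have h1 := hTT g hg
      have h2 := h4_Hb (w := L.W) g (fun i => i ∈ P) (m := mh) hm0 hmv
      omega
    have hF : LF.Fc L.W v = S := by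
      ext g
      unfold LF.Fc
      rw [Finset.mem_filter]
      constructor
      · rintro ⟨-, h⟩
        by_contra hg
        have h1 := Nat.mul_le_mul_left α (h g₀)
        rw [hpS g₀ hg₀] at h1
        exact absurd (hpT g hg) (not_lt.2 h1)
      · intro hg
        refine ⟨Finset.mem_univ g, fun g' => ?_⟩
        refine Nat.le_of_mul_le_mul_left ?_ hα
        rw [hpS g hg]
        by_cases hg' : g' ∈ S
        · rw [hpS g' hg']
        · exact (hpT g' hg').le
    have hmn' : LF.mn L.W v = pair (L.W g₀) v := LF.mn_eq (hF ▸ hg₀)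
    have hVV : v ∈ VVX L.a L.W S R₀ D := by
      refine ⟨fun i hi => ?_, fun d hd => ?_, fun i => ?_, hF, ?_⟩
      · have h1 := hmv i (hDP i hi)
        refine Nat.pos_of_ne_zero fun h0 => ?_
        rw [h0, mul_zero] at h1
        omega
      · have h1 : α * d ∣ α := by
          conv_rhs => rw [hαdef]
          refine Finset.dvd_gcd fun i hi => ?_
          rw [hmv i hi]
          exact Nat.mul_dvd_mul_left α (hd i)
        have h2 : α * d ∣ α * 1 := by rwa [mul_one]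
        exact Nat.dvd_one.1 (Nat.dvd_of_mul_dvd_mul_left hα h2)
      · by_cases hi : i ∈ P
        · have h1 := h4_clo L.ha hα (fun j hj => hmv j (hDP j hj)) ((hPmem i).1 hi)
          rw [hcl i, hmv i hi] at h1
          exact (Nat.eq_of_mul_eq_mul_left hα h1).symm
        · rw [LF.clo_eq_zero fun h => hi ((hPmem i).2 h), hv0 i hi]
      · rw [← LF.linM_congr fun B => LF.maxB_dir hα fun i hi => hmv i (hDP i hi)]
        exact hsep
    have hk := (h4_pos L.ha hD hR hVV).2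
    have hn' : α * LF.mn L.W v = n := by rw [hmn', hpS g₀ hg₀]
    have hα' : n / LF.mn L.W v = α := by
      conv_lhs => rw [← hn']
      exact Nat.mul_div_cancel _ hk
    refine ⟨v, ?_, ?_⟩
    · rw [Finset.mem_filter, Set.Finite.mem_toFinset]
      exact ⟨hVV, ⟨α, by rw [mul_comm]; exact hn'.symm⟩⟩
    · simp only [hα']
      funext i
      by_cases hi : i ∈ P
      · rw [← hmv i hi, Nat.add_sub_cancel]
      · rw [hv0 i hi, hm0 i hi, mul_zero, Nat.zero_sub]
  · intro v hv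
    rw [Finset.mem_filter, Set.Finite.mem_toFinset] at hv
    obtain ⟨hα, hmul, hadd, -⟩ := hkey v hv.1 hv.2
    have hB : ∀ B, LF.MaxB L.a D v B ↔
        LF.MaxB L.a D (fun i => n / LF.mn L.W v * v i - 1) B :=
      fun B => (LF.maxB_dir hα fun i hi => hadd i (hspD i hi)).symm
    rw [← LF.Bc_congr hB, LF.XM_congr (subset_refl _) (LF.Bc_spec L.a D v) hB hdep]
    congr 1
    exact Finset.prod_congr rfl fun i hi => by rw [hadd i (hspD i (hQD hi))]

theorem F2_formula {χ : K0 →+* ℤ} (hχ : IsEulerCharF χ) {S R₀ : Finset Γ} (hS : S.Nonempty)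
    (hR : R₀ ⊆ S) {Q : Finset I} (hQ : Q ⊆ L.Hv) :
    ∃ n₀, ∀ n₁, n₀ ≤ n₁ → L.FQ χ S R₀ {∅} Q n₁ =
      ∑ v ∈ (finite_VVQ L S R₀ hR Q).toFinset,
        if LF.mn L.W v ∣ n₁ then
          (∏ i ∈ Q, om (L.d (L.ch i)) (n₁ / LF.mn L.W v * v i)) *
            χ (cls (LF.XM L.a (LF.Bc L.a (L.DQ S Q) v) v (L.DQ S Q) (LF.Th L.W R₀ fun _ => 1)))
        else 0 := by
  classical
  obtain ⟨g₀, hg₀⟩ := hS
  have hD : ∀ g ∈ S, ∀ i, L.W g i ≠ 0 → i ∈ L.DQ S Q := fun _ hg _ hi => by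
    unfold MLoc.DQ
    exact Finset.mem_union_left _ (Finset.mem_union_left _ (h4_sup hg hi))
  have hQD : Q ⊆ L.DQ S Q := fun i hi => by
    unfold MLoc.DQ
    exact Finset.mem_union_left _ (Finset.mem_union_right _ hi)
  have hle := fun {v : I → ℕ} (hv : v ∈ VVX L.a L.W S R₀ (L.DQ S Q)) {i : I}
    (hi : i ∈ L.DQ S Q) => h4_le L hR hQ hv hi
  refine ⟨1 + ∑ v ∈ (finite_VVQ L S R₀ hR Q).toFinset, (LF.Hb L.W + 1) * LF.mn L.W v,
    fun n hn => ?_⟩
  have hfin : (VVX L.a L.W S R₀ (L.DQ S Q)).Finite := finite_VVQ L S R₀ hR Q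
  have hnv : ∀ v ∈ VVX L.a L.W S R₀ (L.DQ S Q), (LF.Hb L.W + 1) * LF.mn L.W v ≤ n :=
    fun v hv => by
      have h1 := Finset.single_le_sum (f := fun v => (LF.Hb L.W + 1) * LF.mn L.W v)
        (fun _ _ => Nat.zero_le _)
        ((Set.Finite.mem_toFinset (finite_VVQ L S R₀ hR Q)).2 hv)
      exact (h1.trans (Nat.le_add_left _ _)).trans hn
  have hn1 : 1 ≤ n := le_trans (Nat.le_add_right _ _) hn
  clear hn
  unfold MLoc.FQ
  convert h4_core L hχ hg₀ hR hD hQD hle hfin hn1 hnv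

end LFM
end MotMono
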