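import Pool.Agent.Lib.MP_4e5fcd_ag.LFM.Base

/-!
# LFM-H6: sums over characters

`om_sum`: for `d ≥ 1`: `∑_{ψ=1}^{d-1} zt (ψ c / d) = om d c` (geometric sum: `∑_{ψ=0}^{d-1} zt (c / d) ^ ψ` is `d` if
`d ∣ c` and `0` otherwise; `zt x = 1` iff `x` is an integer).
`om_prod`: `Finset.prod_sum` over `Q` (the functions `ψ ∈ Ps Q` are the choices of `ψ i ∈ {1, …, d_i - 1}` for
`i ∈ Q`, `0` elsewhere; `dh i = d (ch i)` for `i ∈ Q ⊆ K`).
-/

open MvPolynomial

namespace MotMono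
namespace LFM

variable {I Γ : Type} [Fintype I] {N s : ℕ} (L : MLoc I Γ N s)

theorem zt_add (x y : ℚ) : zt (x + y) = zt x * zt y := by
  unfold zt
  rw [← Complex.exp_add]
  congr 1
  push_cast
  ring

theorem zt_eq_one_iff (x : ℚ) : zt x = 1 ↔ ∃ z : ℤ, x = z := by
  unfold zt
  rw [Complex.exp_eq_one_iff]
  have hpi : (2 * (Real.pi : ℂ) * Complex.I) ≠ 0 := Complex.two_pi_I_ne_zero
  constructor
  · rintro ⟨n, hn⟩
    refine ⟨n, ?_⟩
    rw [mul_comm (n : ℂ)] at hn
    have h2 := mul_left_cancel₀ hpi hn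
    exact_mod_cast h2
  · rintro ⟨z, rfl⟩
    refine ⟨z, ?_⟩
    push_cast
    ring

theorem zt_nsmul (n : ℕ) (x : ℚ) : zt (n * x) = zt x ^ n := by
  unfold zt
  rw [← Complex.exp_nat_mul]
  congr 1
  push_cast
  ring

theorem om_sum {d : ℕ} (hd : 0 < d) (c : ℕ) :
    ∑ ψ ∈ (Finset.range d).filter (fun ψ => 1 ≤ ψ), zt ((ψ : ℚ) * c / d) = (om d c : ℂ) := by
  have hd0 : (d : ℚ) ≠ 0 := by exact_mod_cast hd.ne'
  set w : ℂ := zt ((c : ℚ) / d) with hw
  have hterm : ∀ ψ : ℕ, zt ((ψ : ℚ) * c / d) = w ^ ψ := by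
    intro ψ
    rw [hw, ← zt_nsmul, mul_div_assoc]
  have hwd : w ^ d = 1 := by
    rw [hw, ← zt_nsmul, zt_eq_one_iff]
    refine ⟨c, ?_⟩
    rw [mul_div_cancel₀ _ hd0]
    simp
  have hsplit : ∑ ψ ∈ Finset.range d, w ^ ψ =
      1 + ∑ ψ ∈ (Finset.range d).filter (fun ψ => 1 ≤ ψ), w ^ ψ := by
    rw [← Finset.sum_filter_add_sum_filter_not (Finset.range d) (fun ψ => 1 ≤ ψ), add_comm]
    congr 1
    have : (Finset.range d).filter (fun ψ => ¬ 1 ≤ ψ) = {0} := by
      ext ψ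
      simp only [Finset.mem_filter, Finset.mem_range, Finset.mem_singleton]
      omega
    rw [this, Finset.sum_singleton, pow_zero]
  have hsum : ∑ ψ ∈ (Finset.range d).filter (fun ψ => 1 ≤ ψ), zt ((ψ : ℚ) * c / d) =
      ∑ ψ ∈ (Finset.range d).filter (fun ψ => 1 ≤ ψ), w ^ ψ :=
    Finset.sum_congr rfl fun ψ _ => hterm ψ
  rw [hsum]
  have hdiv : w = 1 ↔ d ∣ c := by
    rw [hw, zt_eq_one_iff]
    constructor
    · rintro ⟨z, hz⟩
      rw [div_eq_iff hd0] at hz
      have h2 : (c : ℤ) = z * d := by exact_mod_cast hz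
      have h3 : (d : ℤ) ∣ c := ⟨z, by rw [h2]; ring⟩
      exact_mod_cast h3
    · rintro ⟨e, rfl⟩
      refine ⟨e, ?_⟩
      push_cast
      field_simp
  unfold om
  by_cases h : d ∣ c
  · rw [if_pos h]
    have h1 : w = 1 := hdiv.2 h
    rw [h1] at hsplit ⊢
    simp only [one_pow, Finset.sum_const, Finset.card_range, nsmul_eq_mul, mul_one] at hsplit ⊢
    push_cast
    rw [hsplit]
    ring
  · rw [if_neg h]
    have h1 : w ≠ 1 := fun h2 => h (hdiv.1 h2)
    have h2 : ∑ ψ ∈ Finset.range d, w ^ ψ = 0 := by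
      rw [geom_sum_eq h1, hwd, sub_self, zero_div]
    rw [h2] at hsplit
    push_cast
    linear_combination -hsplit

private theorem zt_zero : zt 0 = 1 := by
  unfold zt
  simp

private theorem zt_sum {κ : Type*} (s : Finset κ) (f : κ → ℚ) :
    zt (∑ i ∈ s, f i) = ∏ i ∈ s, zt (f i) := by
  classical
  induction s using Finset.induction_on with
  | empty => simp [zt_zero]
  | insert a s ha ih => rw [Finset.sum_insert ha, Finset.prod_insert ha, zt_add, ih]

theorem om_prod {Q : Finset I} (hQ : Q ⊆ L.Hv) (c : I → ℕ) :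
    ((∏ i ∈ Q, om (L.d (L.ch i)) (c i) : ℤ) : ℂ) = ∑ ψ ∈ L.Ps Q, zt (L.ph ψ c) := by
  classical
  have hK : ∀ i ∈ Q, i ∈ L.K := fun i hi => (Finset.mem_filter.1 (hQ hi)).1
  have hdh : ∀ i ∈ Q, L.dh i = L.d (L.ch i) := fun i hi => by
    unfold MLoc.dh
    rw [if_pos (hK i hi)]
  have hdpos : ∀ i, 0 < L.dh i := by
    intro i
    unfold MLoc.dh
    split_ifs
    · exact L.hd _
    · exact one_pos
  let t : I → Finset ℕ := fun i =>
    if i ∈ Q then (Finset.range (L.dh i)).filter (fun ψ => 1 ≤ ψ) else {0}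
  have hPs : L.Ps Q = Fintype.piFinset t := by
    ext ψ
    unfold MLoc.Ps
    rw [Finset.mem_filter, Fintype.mem_piFinset, Fintype.mem_piFinset]
    constructor
    · rintro ⟨-, h1, h2⟩ i
      by_cases hi : i ∈ Q
      · simp only [t, if_pos hi, Finset.mem_filter, Finset.mem_range]
        exact ⟨(h1 i hi).2, (h1 i hi).1⟩
      · simp only [t, if_neg hi, Finset.mem_singleton]
        exact h2 i hi
    · intro h
      have h1 : ∀ i ∈ Q, 1 ≤ ψ i ∧ ψ i < L.dh i := by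
        intro i hi
        have := h i
        simp only [t, if_pos hi, Finset.mem_filter, Finset.mem_range] at this
        exact ⟨this.2, this.1⟩
      have h2 : ∀ i, i ∉ Q → ψ i = 0 := by
        intro i hi
        have := h i
        simpa only [t, if_neg hi, Finset.mem_singleton] using this
      refine ⟨fun i => ?_, h1, h2⟩
      rw [Finset.mem_range]
      by_cases hi : i ∈ Q
      · have := (h1 i hi).2
        omega
      · rw [h2 i hi]
        omega
  rw [hPs]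
  have hR : ∀ ψ : I → ℕ, zt (L.ph ψ c) = ∏ i, zt ((ψ i : ℚ) * c i / L.dh i) := by
    intro ψ
    unfold MLoc.ph
    exact zt_sum _ _
  rw [Finset.sum_congr rfl fun ψ _ => hR ψ,
    ← Finset.prod_univ_sum t fun i j => zt ((j : ℚ) * c i / L.dh i)]
  have hL : ∀ i : I, ∑ j ∈ t i, zt ((j : ℚ) * c i / L.dh i) =
      if i ∈ Q then ((om (L.d (L.ch i)) (c i) : ℤ) : ℂ) else 1 := by
    intro i
    by_cases hi : i ∈ Q
    · simp only [t, if_pos hi]
      rw [om_sum (hdpos i), hdh i hi]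
    · simp only [t, if_neg hi, Finset.sum_singleton]
      simp [zt_zero]
  rw [Finset.prod_congr rfl fun i _ => hL i, Finset.prod_ite_mem, Finset.univ_inter]
  push_cast
  rfl

end LFM
end MotMono
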