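import Pool.Agent.Lib.MP_4e5fcd_ag.LFM.PX
import Pool.Agent.Lib.MP_4e5fcd_ag.LFM.H4
import Pool.Agent.Lib.MP_4e5fcd_ag.LFM.H6
import Pool.Agent.Lib.MP_4e5fcd_ag.LF.X2
import Pool.Agent.Lib.MP_4e5fcd_ag.LF.X4
import Pool.Agent.Lib.MP_4e5fcd_ag.LF.X1b
import Pool.Agent.Lib.MP_4e5fcd_ag.LF.F5

/-!
# LFM-H5: the part with small generators is regular at `lam`

For `Q ⊆ Hv`, `ψ ∈ Ps Q` apply `patX` with `R = ℂ`, `X = Q ∪ Lam` (independent: `hK`, `hbl`: distinct coordinate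
vectors), `sup W S ∪ X = DQ S Q`, `𝒯 = {T | T.Nonempty}`,
`φ D' x = χ (cls (XM a (Bc a D' x) x (DQ S Q) (Th W R₀ 1)))`, `ρ i = zt (ψ i / dh i)` (`1` for `i ∉ Q`),
`lv K = L.lv (K - 1)`.
-/

open MvPolynomial

namespace MotMono
namespace LFM

variable {I Γ : Type} [Fintype I] [Fintype Γ] {N s : ℕ} (L : MLoc I Γ N s)

/-- regular power series -/
private def H5_Reg (lam : ℂ) (F : PowerSeries ℂ) : Prop :=
  ∃ (m : ℕ) (r : Fin m → ℂ) (e : Fin m → ℕ), (∀ j, r j * lam ^ e j ≠ 1) ∧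
    ∃ P : Polynomial ℂ,
      (∏ j, (1 - PowerSeries.C (r j) * PowerSeries.X ^ e j)) * F = (P : PowerSeries ℂ)

private theorem H5_Reg_zero (lam : ℂ) : H5_Reg lam 0 :=
  ⟨0, fun j => j.elim0, fun j => j.elim0, fun j => j.elim0, 0, by simp⟩

private theorem H5_coe_prod (n : ℕ) (q : Fin n → ℂ) (f : Fin n → ℕ) :
    ((∏ j, (1 - Polynomial.C (q j) * Polynomial.X ^ f j) : Polynomial ℂ) : PowerSeries ℂ) =
      ∏ j, (1 - PowerSeries.C (q j) * PowerSeries.X ^ f j) := by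
  rw [← Polynomial.coeToPowerSeries.ringHom_apply, map_prod]
  refine Finset.prod_congr rfl (fun j _ => ?_)
  simp

private theorem H5_Reg_add {lam : ℂ} {F G : PowerSeries ℂ} (hF : H5_Reg lam F)
    (hG : H5_Reg lam G) : H5_Reg lam (F + G) := by
  obtain ⟨m, r, e, h1, P, hP⟩ := hF
  obtain ⟨m', r', e', h1', P', hP'⟩ := hG
  refine ⟨m + m', Fin.append r r', Fin.append e e', ?_,
    P * (∏ j, (1 - Polynomial.C (r' j) * Polynomial.X ^ e' j)) +
      P' * ∏ j, (1 - Polynomial.C (r j) * Polynomial.X ^ e j), ?_⟩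
  · intro j
    refine Fin.addCases (fun i => ?_) (fun i => ?_) j
    · rw [Fin.append_left, Fin.append_left]
      exact h1 i
    · rw [Fin.append_right, Fin.append_right]
      exact h1' i
  · rw [Fin.prod_univ_add]
    simp only [Fin.append_left, Fin.append_right]
    rw [Polynomial.coe_add, Polynomial.coe_mul, Polynomial.coe_mul, ← hP, ← hP', H5_coe_prod,
      H5_coe_prod]
    ring

private theorem H5_Reg_sum {lam : ℂ} {ι : Type*} (T : Finset ι) (F : ι → PowerSeries ℂ)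
    (h : ∀ i ∈ T, H5_Reg lam (F i)) : H5_Reg lam (∑ i ∈ T, F i) := by
  classical
  induction T using Finset.induction_on with
  | empty => simpa using H5_Reg_zero lam
  | insert i T hi ih =>
    rw [Finset.sum_insert hi]
    exact H5_Reg_add (h i (Finset.mem_insert_self _ _))
      (ih fun j hj => h j (Finset.mem_insert_of_mem hj))

private theorem H5_Reg_finset {lam : ℂ} {ι : Type*} (U : Finset ι) (r : ι → ℂ) (e : ι → ℕ)
    (h : ∀ u ∈ U, r u * lam ^ e u ≠ 1) (F : PowerSeries ℂ) (P : Polynomial ℂ)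
    (hP : (∏ u ∈ U, (1 - PowerSeries.C (r u) * PowerSeries.X ^ e u)) * F = (P : PowerSeries ℂ)) :
    H5_Reg lam F := by
  refine ⟨U.card, fun j => r (U.equivFin.symm j), fun j => e (U.equivFin.symm j),
    fun j => h _ (U.equivFin.symm j).2, P, ?_⟩
  rw [← hP]
  congr 1
  rw [← Finset.prod_coe_sort U]
  exact Equiv.prod_comp U.equivFin.symm
    (fun u : U => 1 - PowerSeries.C (r u) * PowerSeries.X ^ e u)

private theorem H5_mem_sup {w : Γ → I → ℕ} {S : Finset Γ} {i : I} :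
    i ∈ sup w S ↔ ∃ g ∈ S, w g i ≠ 0 := by
  simp [sup]

open Classical in
private noncomputable def H5_phi (L : MLoc I Γ N s) (χ : K0 →+* ℤ) (S R₀ : Finset Γ)
    (Q : Finset I) (D' : Finset I) (x : I → ℕ) : ℂ :=
  ((χ (cls (LF.XM L.a (LF.Bc L.a D' x) x (L.DQ S Q) (LF.Th L.W R₀ fun _ => 1))) : ℤ) : ℂ)

/-- the weights of a character -/
private noncomputable def H5_rho (L : MLoc I Γ N s) (ψ : I → ℕ) (i : I) : ℂ :=
  zt ((ψ i : ℚ) / L.dh i)

private theorem H5_DQ (S : Finset Γ) (Q : Finset I) : open Classical in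
    L.DQ S Q = sup L.W S ∪ (Q ∪ L.Lam) := by
  classical
  unfold MLoc.DQ
  ext i
  simp only [Finset.mem_union]
  tauto

private theorem H5_dep {S R₀ : Finset Γ} (hR : R₀ ⊆ S) :
    ∀ g ∈ R₀, ∀ i, L.W g i ≠ 0 → i ∈ sup L.W S :=
  fun g hg i hi => H5_mem_sup.2 ⟨g, hR hg, hi⟩

private theorem H5_dep' {S R₀ : Finset Γ} (hR : R₀ ⊆ S) (Q : Finset I) :
    ∀ g ∈ R₀, ∀ i, L.W g i ≠ 0 → i ∈ L.DQ S Q := by
  classical
  intro g hg i hi
  rw [H5_DQ]
  exact Finset.mem_union_left _ (H5_dep L hR g hg i hi)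

private theorem H5_phi_aux (χ : K0 →+* ℤ) {S R₀ : Finset Γ} (hR : R₀ ⊆ S) (Q : Finset I)
    (D' : Finset I) (x x' : I → ℕ) (hDD : L.DQ S Q ⊆ D')
    (h : ∀ B, LF.MaxB L.a D' x B ↔ LF.MaxB L.a D' x' B) (B1 B2 : Finset I)
    (hb : B1 = B2) (hB : LF.MaxB L.a D' x B1) :
    ((χ (cls (LF.XM L.a B1 x (L.DQ S Q) (LF.Th L.W R₀ fun _ => 1))) : ℤ) : ℂ) =
      ((χ (cls (LF.XM L.a B2 x' (L.DQ S Q) (LF.Th L.W R₀ fun _ => 1))) : ℤ) : ℂ) := by
  subst hb
  have h1 := LF.XM_congr hDD hB h (Θ := LF.Th L.W R₀ fun _ => 1) fun c c' hc hc' =>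
    LF.Th_dep (H5_dep' L hR Q) c c' hc hc'
  rw [h1]

private theorem H5_phi_zero {χ : K0 →+* ℤ} (hχ : IsEulerChar χ) {S R₀ : Finset Γ} (hR : R₀ ⊆ S)
    (Q : Finset I) (D' : Finset I) (x : I → ℕ) (k : I) (hDD : L.DQ S Q ⊆ D')
    (hk : k ∈ L.DQ S Q) (hks : k ∉ sup L.W S) (h : ∀ B, LF.MaxB L.a D' x B → k ∈ B) :
    H5_phi L χ S R₀ Q D' x = 0 := by
  classical
  unfold H5_phi
  set B := LF.Bc L.a D' x with hBdef
  have hB : LF.MaxB L.a D' x B := LF.Bc_spec L.a D' x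
  have hkB : k ∈ B := h B hB
  set z : I → ℤ := fun i => if i = k then 1 else 0 with hz
  have hex : ∀ i ∈ L.DQ S Q, ∀ b ∈ B, LF.cf L.a B i b ≠ 0 → x b = x i → z b = z i := by
    intro i hi b hb hc hx
    by_cases hbk : b = k
    · subst hbk
      have h1 := (hB.exchange (hDD hi) hc).2 hx
      have h2 := h _ h1
      rw [Finset.mem_insert, Finset.mem_erase] at h2
      rcases h2 with h2 | h2
      · rw [h2]
      · exact absurd rfl h2.1
    · have hik : i ≠ k := by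
        rintro rfl
        exact hc (LF.cf_self_ne hB.1.2.1 hkB hbk)
      simp only [hz, if_neg hbk, if_neg hik]
  have htor : ∀ i ∈ L.DQ S Q, ∀ (τ : ℂ) (c : B → ℂ),
      LF.ci L.a B x (fun b => τ ^ z b * c b) i = τ ^ z i * LF.ci L.a B x c i := fun i hi τ c =>
    LF.ci_torus (hex i hi) τ c
  obtain ⟨P, hP⟩ := LF.exists_ciPoly L.a B x k
  have h0 : χ (cls (LF.XM L.a B x (L.DQ S Q) (LF.Th L.W R₀ fun _ => 1))) = 0 := by
    refine Kum.chi_torus χ hχ _ (LF.constr_XM L.a B x _ (LF.constr_Th L.W R₀ fun _ => 1))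
      (fun b => z b) P 1 one_pos ?_ ?_ ?_
    · rintro c ⟨h1, h2⟩ τ hτ
      refine ⟨fun i hi => ?_, ?_⟩
      · rw [htor i hi]
        exact mul_ne_zero (zpow_ne_zero _ hτ) (h1 i hi)
      · refine LF.Th_dep (H5_dep L hR) (LF.ci L.a B x c) _ (fun i hi => ?_) h2
        have hi2 : i ∈ L.DQ S Q := by
          rw [H5_DQ]
          exact Finset.mem_union_left _ hi
        have hik : i ≠ k := by
          rintro rfl
          exact hks hi
        rw [htor i hi2]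
        simp only [hz, if_neg hik, zpow_zero, one_mul]
    · rintro c ⟨h1, -⟩
      rw [hP]
      exact h1 k hk
    · rintro c ⟨h1, -⟩ τ hτ
      rw [hP, hP, htor k hk]
      simp only [hz, if_true, zpow_one, pow_one]
  rw [h0, Int.cast_zero]

private theorem H5_indep {X : Finset I} (hX : X ⊆ L.K) :
    LinearIndepOn ℂ L.a (X : Set I) := by
  have h1 : Function.Injective (fun x : (X : Set I) => L.bl x) := by
    intro x y hxy
    exact Subtype.ext (L.hbl x (hX x.2) y (hX y.2) hxy)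
  have h2 := (Pi.basisFun ℂ (Fin s)).linearIndependent.comp _ h1
  unfold LinearIndepOn
  convert h2 using 2
  rename_i x
  rw [L.hK x (hX x.2)]
  simp [Function.comp, Pi.basisFun_apply]

private theorem H5_wtm {ψ b : I → ℕ} :
    wtm (H5_rho L ψ) b = zt (L.ph ψ b) := by
  classical
  have h0 : zt 0 = 1 := by
    rw [zt_eq_one_iff]
    exact ⟨0, by simp⟩
  have hsum : ∀ (T : Finset I) (f : I → ℚ), zt (∑ i ∈ T, f i) = ∏ i ∈ T, zt (f i) := by
    intro T f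
    induction T using Finset.induction_on with
    | empty => simpa using h0
    | insert i T hi ih => rw [Finset.sum_insert hi, Finset.prod_insert hi, zt_add, ih]
  unfold wtm MLoc.ph
  rw [hsum]
  refine Finset.prod_congr rfl (fun i _ => ?_)
  unfold H5_rho
  rw [← zt_nsmul]
  congr 1
  ring

private theorem H5_GX_zero {S : Finset Γ} (hS : S.Nonempty) (X : Finset I)
    (𝒯 : Set (Finset Γ)) (φ : Finset I → (I → ℕ) → ℂ) (ρ : I → ℂ) (lv : ℕ → ℕ) :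
    GX L.a L.W S X 𝒯 φ ρ lv 0 = 0 := by
  unfold GX
  refine Finset.sum_eq_zero (fun mh _ => ?_)
  rw [if_neg]
  rintro ⟨-, h, -⟩
  obtain ⟨g, hg⟩ := hS
  have := h g hg
  omega

private theorem H5_FQ {χ : K0 →+* ℤ} (hχ : IsEulerCharF χ) {S R₀ : Finset Γ}
    (hR : R₀ ⊆ S) {Q : Finset I} (hQ : Q ⊆ L.Hv) (𝒯 : Set (Finset Γ)) (n₁ : ℕ) :
    open Classical in
    ((L.FQ χ S R₀ 𝒯 Q n₁ : ℤ) : ℂ) = ∑ ψ ∈ L.Ps Q, GX L.a L.W S (Q ∪ L.Lam) 𝒯
      (H5_phi L χ S R₀ Q) (H5_rho L ψ) (fun K => L.lv (K - 1)) (n₁ + 1) := by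
  classical
  unfold MLoc.FQ GX
  rw [Finset.sum_comm, Int.cast_sum]
  simp only [Nat.add_sub_cancel]
  refine Finset.sum_congr rfl (fun mh hmh => ?_)
  have hmn : ∀ i, mh i ≤ L.lv n₁ := fun i => by
    have := Finset.mem_range.1 ((Fintype.mem_piFinset.1 hmh) i)
    omega
  by_cases hc : (∀ i, LF.clo L.a Finset.univ mh i = mh i) ∧ LF.Sx L.W S (n₁ + 1) mh ∧
        LF.TT L.W Sᶜ (n₁ + 1) mh ∈ 𝒯 ∧ ∀ i ∈ L.DQ S Q, mh i < L.lv n₁
  · have hc' : (∀ i, LF.clo L.a Finset.univ mh i = mh i) ∧ LF.Sx L.W S (n₁ + 1) mh ∧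
        LF.TT L.W Sᶜ (n₁ + 1) mh ∈ 𝒯 ∧ ∀ i ∈ sup L.W S ∪ (Q ∪ L.Lam), mh i < L.lv n₁ := by
      rw [H5_DQ] at hc
      exact hc
    rw [if_pos hc]
    simp only [if_pos hc']
    rw [Int.cast_mul, Int.cast_mul, om_prod L hQ (fun i => mh i + 1)]
    simp only [H5_wtm]
    rw [← Finset.mul_sum, ← H5_DQ]
    by_cases hal : LF.al L.a (L.DQ S Q) (LF.ucf L.W Sᶜ (n₁ + 1)) mh = 0
    · rw [hal]
      simp
    · have hcl : LF.clo L.a Finset.univ mh = mh := funext hc.1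
      have hcl2 := LF.al_closed L.ha hcl hal
      set D' := LF.DT L.W (L.DQ S Q) (LF.TT L.W Sᶜ (n₁ + 1) mh) with hD'
      have hDD' : L.DQ S Q ⊆ D' := LF.f5_sub_DT _ _ _
      have h1 : χ (cls (LF.YS L.yl (L.lv n₁) Finset.univ (L.DQ S Q) mh
          (LF.Th L.W R₀ fun _ => 1))) =
          χ (cls (LF.XM L.a (LF.Bc L.a D' mh) mh (L.DQ S Q) (LF.Th L.W R₀ fun _ => 1))) := by
        rw [YS_univ L (L.lv n₁) (L.DQ S Q) D' (fun i => congrFun hcl2 i)]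
        exact LF.chi_YS hχ.line L.yl hDD' (fun i _ => hmn i) hc.2.2.2 (LF.Bc_spec L.a D' mh)
          (LF.constr_Th L.W R₀ fun _ => 1)
          fun c c' h1 h2 => LF.Th_dep (H5_dep' L hR Q) c c' h1 h2
      rw [h1]
      unfold H5_phi
      ring
  · have hc' : ¬ ((∀ i, LF.clo L.a Finset.univ mh i = mh i) ∧ LF.Sx L.W S (n₁ + 1) mh ∧
        LF.TT L.W Sᶜ (n₁ + 1) mh ∈ 𝒯 ∧ ∀ i ∈ sup L.W S ∪ (Q ∪ L.Lam), mh i < L.lv n₁) := by
      rw [H5_DQ] at hc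
      exact hc
    rw [if_neg hc]
    simp only [if_neg hc']
    simp

theorem F1_regular {χ : K0 →+* ℤ} (hχ : IsEulerCharF χ) {S R₀ : Finset Γ} (hS : S.Nonempty)
    (hR : R₀ ⊆ S) (lam : ℂ)
    (hmax : ∀ Q ψ u, L.LRes lam Q ψ u → ¬ S ⊂ LF.Fc L.W u) :
    ∃ (m : ℕ) (r : Fin m → ℂ) (e : Fin m → ℕ), (∀ j, r j * lam ^ e j ≠ 1) ∧
      ∃ P : Polynomial ℂ,
        (∏ j, (1 - PowerSeries.C (r j) * PowerSeries.X ^ e j)) *
          PowerSeries.mk (fun K => if K = 0 then (0 : ℂ) else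
            ((∑ Q ∈ L.Hv.powerset, L.FQ χ S R₀ {T | T.Nonempty} Q (K - 1) : ℤ) : ℂ)) =
        (P : PowerSeries ℂ) := by
  classical
  have hχ' : IsEulerChar χ := LF.isEulerChar_of_F hχ
  change H5_Reg lam _
  have hsum : PowerSeries.mk (fun K => if K = 0 then (0 : ℂ) else
      ((∑ Q ∈ L.Hv.powerset, L.FQ χ S R₀ {T | T.Nonempty} Q (K - 1) : ℤ) : ℂ)) =
      ∑ Q ∈ L.Hv.powerset, ∑ ψ ∈ L.Ps Q, PowerSeries.mk (GX L.a L.W S (Q ∪ L.Lam)
        {T | T.Nonempty} (H5_phi L χ S R₀ Q) (H5_rho L ψ) (fun K => L.lv (K - 1))) := by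
    ext K
    rw [PowerSeries.coeff_mk, map_sum]
    simp only [map_sum, PowerSeries.coeff_mk]
    rcases Nat.eq_zero_or_pos K with h | h
    · subst h
      rw [if_pos rfl]
      symm
      refine Finset.sum_eq_zero (fun Q _ => Finset.sum_eq_zero (fun ψ _ => ?_))
      exact H5_GX_zero L hS _ _ _ _ _
    · rw [if_neg h.ne', Int.cast_sum]
      refine Finset.sum_congr rfl (fun Q hQ => ?_)
      obtain ⟨n₁, rfl⟩ := Nat.exists_eq_succ_of_ne_zero h.ne'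
      exact H5_FQ L hχ hR (Finset.mem_powerset.1 hQ) _ n₁
  rw [hsum]
  refine H5_Reg_sum _ _ (fun Q hQ => H5_Reg_sum _ _ (fun ψ hψ => ?_))
  have hQ' : Q ⊆ L.Hv := Finset.mem_powerset.1 hQ
  have hQK : Q ∪ L.Lam ⊆ L.K :=
    Finset.union_subset (hQ'.trans (Finset.filter_subset _ _)) (Finset.filter_subset _ _)
  have hψ0 : ∀ i, i ∉ Q → ψ i = 0 := (Finset.mem_filter.1 hψ).2.2
  have hDQ := H5_DQ L S Q
  obtain ⟨U, hU, P, hP⟩ := patX (R := ℂ) L.ha hS (H5_indep L hQK) {T | T.Nonempty}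
    (H5_phi L χ S R₀ Q)
    (fun D' x x' hDD h => H5_phi_aux L χ hR Q D' x x' (by rw [hDQ]; exact hDD) h _ _
      (LF.Bc_congr h) (LF.Bc_spec L.a D' x))
    (fun D' x k hDD hk hks h => H5_phi_zero L hχ' hR Q D' x k (by rw [hDQ]; exact hDD)
      (by rw [hDQ]; exact Finset.mem_union_right _ hk) hks h)
    (H5_rho L ψ)
    (fun i hi => by
      have h1 : i ∉ Q := fun h => hi (Finset.mem_union_right _ (Finset.mem_union_left _ h))
      unfold H5_rho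
      rw [hψ0 i h1, zt_eq_one_iff]
      exact ⟨0, by simp⟩)
    (fun K => L.lv (K - 1))
    (fun K => by
      have := L.hE
      show K + LF.Hb L.W ≤ K - 1 + L.E + LF.Hb L.W
      omega)
  refine H5_Reg_finset U (wtm (H5_rho L ψ)) (LF.mn L.W) (fun u hu h1 => ?_) _ P hP
  obtain ⟨hprim, hess, hSF, T, hT, hTF, hdisj⟩ := hU u hu
  refine hmax Q ψ u ⟨hQ', hψ, hprim, hess, ?_⟩ ?_
  · rw [← H5_wtm, mul_comm]
    exact h1
  · obtain ⟨t, ht⟩ := (hT : T.Nonempty)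
    refine Finset.ssubset_iff_subset_ne.2 ⟨hSF, fun h => ?_⟩
    exact Finset.disjoint_left.1 hdisj ht (by rw [h]; exact hTF ht)

end LFM
end MotMono
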