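import Pool.Agent.Lib.MP_4e5fcd_ag.LFM.G2
import Pool.Agent.Lib.MP_4e5fcd_ag.LF.T3

/-!
# LFM-M0: deep points near the origin

By continuity there is `0 < δ < min ε 1` with `eval p (U g) ≠ 0` for all `g` and `‖p‖ < δ` (as in LF/T3). `LF.exists_base` (`lam = D.av`,
`U = 1`, `Γ = Unit`; `av i ≠ 0`) with a small `ε'` gives `q : Fin s → ℂ`, `‖q‖ < ε'`, `av i ⬝ᵥ q = 0` iff `i ∈ F`. In particular `q k = 0` iff
`inr k ∈ F`. Define `p`: `q k ≠ 0`: `r` with `r ^ (∑_{β l = k} d l) = q k` (`IsAlgClosed.exists_pow_nat_eq`; the exponent is positive: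
`hβ`, `hd`) and `p l = r` for `β l = k`; `‖r‖ < δ` if `ε' ≤ δ ^ M`, `M` larger than all exponents (`‖r‖ ^ m < δ ^ M ≤ δ ^ m`).
`q k = 0`, `k ∈ KX`: `p (ch k) = 0`, `p l = δ / 2` for the other `l`. `q k = 0`, `k ∉ KX`: `p l = 0` (the block is `{l}`).
Then `yv β d p = q`, so `hF`; `h0`, `h1` are clear. `cp`: for `k ∈ KX` with `d (ch k) = 1` the block has another variable (definition
of `KX`); arbitrary otherwise (e.g. `ch k`). `pC C` has coordinates `0` or `p l`: `‖pC C‖ ≤ ‖p‖ < δ`.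
-/

open MvPolynomial

namespace MotMono
namespace LFM

variable {J Γ : Type} [Fintype J] [Fintype Γ] {N s : ℕ} (D : Dat J Γ N s)

omit [Fintype J] [Fintype Γ] in
private theorem m0_KX {k : Fin s} :
    k ∈ D.KX ↔ ∃ l, D.β l = k ∧ (2 ≤ D.d l ∨ ∃ l', l' ≠ l ∧ D.β l' = k) := by
  unfold Dat.KX
  rw [Finset.mem_filter]
  exact ⟨fun h => h.2, fun h => ⟨Finset.mem_univ _, h⟩⟩

omit [Fintype J] [Fintype Γ] in
private theorem m0_av_ne (i : J ⊕ Fin s) : D.av i ≠ 0 := by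
  rcases i with j | k
  · exact D.ha j
  · intro h
    have h1 := congrFun h k
    simp [Dat.av] at h1

omit [Fintype J] [Fintype Γ] in
private theorem m0_av_inr (k : Fin s) (y : Fin s → ℂ) : D.av (Sum.inr k) ⬝ᵥ y = y k := by
  unfold Dat.av
  rw [Sum.elim_inr, single_one_dotProduct]

theorem exists_point {F : Finset (J ⊕ Fin s)} (hF : ∀ i, D.av i ∈ LF.sp D.av (F : Set (J ⊕ Fin s)) →
      i ∈ F) {ch : Fin s → Fin N} (hch : ∀ k, D.β (ch k) = k) (ε : ℝ) (hε : 0 < ε) :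
    ∃ (cp : Fin s → Fin N) (p : Fin N → ℂ) (h : D.LocHyp F ch cp p),
      ∀ C, ‖(D.loc h).pC C‖ < ε ∧ ∀ g, eval ((D.loc h).pC C) (D.U g) ≠ 0 := by
  classical
  -- a small radius
  obtain ⟨δ, hδ0, hδ1, hδε, hδU⟩ : ∃ δ : ℝ, 0 < δ ∧ δ ≤ 1 ∧ δ ≤ ε ∧
      ∀ q : Fin N → ℂ, ‖q‖ < δ → ∀ g, eval q (D.U g) ≠ 0 := by
    have h1 : ∀ᶠ q : Fin N → ℂ in nhds 0, ∀ g, eval q (D.U g) ≠ 0 := by
      rw [Filter.eventually_all]
      intro g
      have hc : Continuous fun q : Fin N → ℂ => eval q (D.U g) :=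
        MvPolynomial.continuous_eval (D.U g)
      exact (hc.tendsto 0).eventually_ne (D.hU g)
    obtain ⟨δ₁, hδ₁, h2⟩ := Metric.eventually_nhds_iff.1 h1
    refine ⟨min δ₁ (min 1 ε), lt_min hδ₁ (lt_min one_pos hε), (min_le_right _ _).trans
      (min_le_left _ _), (min_le_right _ _).trans (min_le_right _ _), fun q hq => h2 ?_⟩
    rw [dist_zero_right]
    exact lt_of_lt_of_le hq (min_le_left _ _)
  obtain ⟨M, hM⟩ : ∃ M, M = ∑ l, D.d l := ⟨_, rfl⟩
  obtain ⟨q, hq1, hq2, hq3, -⟩ := LF.exists_base (Γ := Unit) D.av F hF (fun _ => 1)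
    (fun _ => by rw [map_one]; exact one_ne_zero) (δ ^ M) (pow_pos hδ0 M)
  have hqF : ∀ i, i ∈ F ↔ D.av i ⬝ᵥ q = 0 := fun i => ⟨hq2 i, fun h => by
    by_contra hi
    exact hq3 i hi h⟩
  -- roots
  obtain ⟨m, hm⟩ : ∃ m : Fin s → ℕ, ∀ k, m k = ∑ l ∈ Finset.univ.filter (fun l => D.β l = k),
      D.d l := ⟨_, fun _ => rfl⟩
  have hm0 : ∀ k, 0 < m k := by
    intro k
    rw [hm]
    exact Finset.sum_pos (fun l _ => D.hd l) ⟨ch k, Finset.mem_filter.2 ⟨Finset.mem_univ _, hch k⟩⟩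
  have hmM : ∀ k, m k ≤ M := by
    intro k
    rw [hm, hM]
    exact Finset.sum_le_sum_of_subset (Finset.filter_subset _ _)
  have hr' : ∀ k, ∃ r : ℂ, r ^ m k = q k := fun k => IsAlgClosed.exists_pow_nat_eq (q k) (hm0 k)
  choose r hr using hr'
  have hrδ : ∀ k, ‖r k‖ < δ := by
    intro k
    by_contra hcon
    push Not at hcon
    have h1 : ‖q k‖ < δ ^ M := lt_of_le_of_lt (norm_le_pi_norm q k) hq1
    rw [← hr, norm_pow] at h1
    have h2 : δ ^ m k ≤ ‖r k‖ ^ m k := pow_le_pow_left₀ hδ0.le hcon _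
    have h3 : δ ^ M ≤ δ ^ m k := pow_le_pow_of_le_one hδ0.le hδ1 (hmM k)
    linarith
  -- the point
  obtain ⟨p, hp⟩ : ∃ p : Fin N → ℂ, ∀ l, p l = if q (D.β l) ≠ 0 then r (D.β l) else
      if D.β l ∈ D.KX then (if l = ch (D.β l) then 0 else ((δ / 2 : ℝ) : ℂ)) else 0 :=
    ⟨_, fun _ => rfl⟩
  have hpch : ∀ k, q k = 0 → p (ch k) = 0 := by
    intro k hk
    rw [hp, hch, if_neg (not_not.2 hk), if_pos rfl, ite_self]
  have hyv : yv D.β D.d p = q := by
    funext k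
    unfold yv
    by_cases hk : q k = 0
    · rw [hk]
      refine Finset.prod_eq_zero (Finset.mem_filter.2 ⟨Finset.mem_univ _, hch k⟩) ?_
      rw [hpch k hk, zero_pow (D.hd _).ne']
    · rw [← hr k, hm k, ← Finset.prod_pow_eq_pow_sum]
      refine Finset.prod_congr rfl fun l hl => ?_
      have hl' : D.β l = k := (Finset.mem_filter.1 hl).2
      rw [hp, hl', if_pos hk]
  have hpδ : ∀ l, ‖p l‖ < δ := by
    intro l
    rw [hp]
    split_ifs
    · exact hrδ _
    · rw [norm_zero]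
      exact hδ0
    · rw [Complex.norm_real, Real.norm_eq_abs, abs_of_pos (half_pos hδ0)]
      exact half_lt_self hδ0
    · rw [norm_zero]
      exact hδ0
  -- the second variable
  obtain ⟨cp, hcp⟩ : ∃ cp : Fin s → Fin N, ∀ k ∈ D.KX, D.d (ch k) = 1 →
      D.β (cp k) = k ∧ cp k ≠ ch k := by
    have h1 : ∀ k, ∃ l, k ∈ D.KX → D.d (ch k) = 1 → D.β l = k ∧ l ≠ ch k := by
      intro k
      by_cases hk : k ∈ D.KX ∧ D.d (ch k) = 1
      · obtain ⟨hk1, hk2⟩ := hk
        obtain ⟨l, hl, h2 | ⟨l', hl', hl2⟩⟩ := (m0_KX D).1 hk1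
        · refine ⟨l, fun _ _ => ⟨hl, ?_⟩⟩
          rintro rfl
          omega
        · by_cases hlc : l = ch k
          · exact ⟨l', fun _ _ => ⟨hl2, fun h => hl' (by rw [h, hlc])⟩⟩
          · exact ⟨l, fun _ _ => ⟨hl, hlc⟩⟩
      · exact ⟨ch k, fun h1 h2 => absurd ⟨h1, h2⟩ hk⟩
    choose cp hcp using h1
    exact ⟨cp, hcp⟩
  have hloc : D.LocHyp F ch cp p := by
    refine ⟨fun i => by rw [hyv]; exact hqF i, hch, hcp, ?_, ?_⟩
    · intro k _ hkF
      apply hpch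
      rw [← m0_av_inr D k q]
      exact (hqF _).1 hkF
    · intro l hl hk
      rw [hp] at hl
      by_contra hne
      by_cases hq0 : q (D.β l) = 0
      · rw [if_neg (not_not.2 hq0), if_pos hk, if_neg hne] at hl
        have h1 : δ / 2 = 0 := by exact_mod_cast hl
        linarith
      · rw [if_pos hq0] at hl
        apply hq0
        rw [← hr, hl, zero_pow (hm0 _).ne']
  refine ⟨cp, p, hloc, fun C => ?_⟩
  have hlt : ‖(D.loc hloc).pC C‖ < δ := by
    rw [pi_norm_lt_iff hδ0]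
    intro l
    unfold MLoc.pC
    split_ifs
    · rw [norm_zero]
      exact hδ0
    · exact hpδ l
  exact ⟨lt_of_lt_of_le hlt hδε, hδU _ hlt⟩

/-- the ideal vanishes at the deep points -/
theorem van_pC {F : Finset (J ⊕ Fin s)} {ch cp : Fin s → Fin N} {p : Fin N → ℂ}
    (h : D.LocHyp F ch cp p) {C : Finset {i // i ∈ F}} (hC : C ⊆ (D.loc h).Lam)
    {u : J ⊕ Fin s → ℕ} (hu : ∀ i, u i ≠ 0 → i ∈ F) (hmn : 0 < LF.mn D.W u) :
    ∀ f ∈ D.Id, eval ((D.loc h).pC C) f = 0 := by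
  classical
  have hyv : yv D.β D.d ((D.loc h).pC C) = yv D.β D.d p := yv_pC (D.loc h) hC
  obtain ⟨p', hp'⟩ : ∃ p', p' = (D.loc h).pC C := ⟨_, rfl⟩
  rw [← hp'] at hyv ⊢
  intro f hf
  unfold Dat.Id at hf
  refine Submodule.span_induction (p := fun f _ => eval p' f = 0) ?_ (by simp) ?_ ?_ hf
  · rintro _ ⟨g, rfl⟩
    have h1 : 0 < pair (D.W g) u := lt_of_lt_of_le hmn (Nat.sInf_le ⟨g, rfl⟩)
    obtain ⟨i, hi⟩ : ∃ i, D.W g i * u i ≠ 0 := by
      by_contra hcon
      push Not at hcon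
      unfold pair at h1
      rw [Finset.sum_eq_zero (fun i _ => hcon i)] at h1
      exact lt_irrefl _ h1
    have hi1 : D.W g i ≠ 0 := left_ne_zero_of_mul hi
    have hi2 : D.av i ⬝ᵥ yv D.β D.d p = 0 := (h.hF i).1 (hu i (right_ne_zero_of_mul hi))
    unfold Dat.gen
    rw [map_mul, map_mul, map_prod, map_prod]
    rcases i with j | k
    · have h2 : D.w g j ≠ 0 := by
        intro h0
        apply hi1
        show D.E * D.w g j = 0
        rw [h0, mul_zero]
      rw [Finset.prod_eq_zero (Finset.mem_univ j), mul_zero]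
      rw [map_pow, map_sum]
      have h3 : ∑ k, eval p' (MvPolynomial.C (D.a j k) * Mon.blockMon D.β D.d k) = 0 := by
        rw [← hyv] at hi2
        rw [← hi2]
        show _ = ∑ k, D.a j k * yv D.β D.d p' k
        refine Finset.sum_congr rfl fun k _ => ?_
        rw [map_mul, eval_C]
        congr 1
        unfold Mon.blockMon yv
        rw [map_prod]
        refine Finset.prod_congr rfl fun l _ => ?_
        rw [map_pow, eval_X]
      rw [h3, zero_pow h2]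
    · obtain ⟨l, hl, hcl⟩ : ∃ l, D.β l = k ∧ D.c g l ≠ 0 := by
        by_contra hcon
        push Not at hcon
        apply hi1
        show ∑ l ∈ Finset.univ.filter (fun l => D.β l = k), D.E / D.d l * D.c g l = 0
        refine Finset.sum_eq_zero fun l hl => ?_
        rw [hcon l (Finset.mem_filter.1 hl).2, mul_zero]
      rw [m0_av_inr, ← hyv] at hi2
      unfold yv at hi2
      rw [Finset.prod_eq_zero_iff] at hi2
      obtain ⟨l', hl', h2⟩ := hi2
      have h3 : p' l' = 0 := (pow_eq_zero_iff (D.hd l').ne').1 h2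
      have h4 : l = l' := by
        by_contra hne
        exact hcl (D.hc g l l' hne (by rw [hl, (Finset.mem_filter.1 hl').2]))
      have h5 : ∏ l, eval p' (X l ^ D.c g l) = 0 := by
        refine Finset.prod_eq_zero (Finset.mem_univ l) ?_
        rw [map_pow, eval_X, h4, h3, zero_pow (h4 ▸ hcl)]
      rw [h5, mul_zero, zero_mul]
  · intro f g _ _ hf hg
    rw [map_add, hf, hg, add_zero]
  · intro r f _ hf
    rw [smul_eq_mul, map_mul, hf, mul_zero]

end LFM
end MotMono
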