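import Pool.Agent.Lib.MP_4e5fcd_ag.LFM.B1
import Pool.Agent.Lib.MP_4e5fcd_ag.LFM.B2
import Pool.Agent.Lib.MP_4e5fcd_ag.LFM.B3
import Pool.Agent.Lib.MP_4e5fcd_ag.LFM.E1
import Pool.Agent.Lib.MP_4e5fcd_ag.LFM.H1
import Pool.Agent.Lib.MP_4e5fcd_ag.LFM.H3
import Pool.Agent.Lib.MP_4e5fcd_ag.LFM.H5
import Pool.Agent.Lib.MP_4e5fcd_ag.LF.N8
import Pool.Agent.Lib.MP_4e5fcd_ag.LF.X4

/-!
# LFM-M1: the local theorem

As LF/M1. Suppose that no cone point works. `S = Fc W v₀`. Let `(Q₁, ψ₁, v₁)` be a local resonant triple with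
`Fc W v₁ = S` and `finrank (LinM a (DQ S Q₁) v₁)` minimal; by `hmax` `v₁ > 0` (and the same for all such
triples). `S` separates `LinM a (DQ S Q₁) v₁` (`sep_of_essX`, `X = Q₁ ∪ Lam`, `DQ S Q = sup W S ∪ (Q ∪ Lam)`);
`exists_R0` (LF/T4): `R₀ ⊆ S`, `|R₀| = finrank`, `Sep W R₀ ..`.
For every `C ⊆ Lam`: `lambda_sumX` with `lam' ^ E` gives `M₀(C)`; let `M` be a common multiple (positive) of
them. `chi_transferX` (as in LF/M1) gives `χ (CR C (E (m + M)) (lv ..) S R₀) = χ (CR C (E m) (lv ..) S R₀)` for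
`m ≥ 1` and `∑_{m=1}^M (lam' ^ E) ^ m χ (CR C (E m) (lv (E m)) S R₀) = 0`. By `sum_C` the same for `Hn (E m)`.
With `Hn_eq_zero`: `G n₁ := Hn χ S R₀ n₁` satisfies `G (n₁ + E M) = G n₁` for `n₁ ≥ 1` (if `E ∤ n₁` both are `0`) and
`∑_{n₁=1}^{E M} lam' ^ n₁ G n₁ = ∑_{m=1}^M lam' ^ (E m) G (E m) = 0`; `lam' ^ (E M) = 1`.
`Hn_eq`, `FQ_split`, `F1_regular` (its `hmax`: `S ⊂ Fc u` contradicts `card ≤`), `F2_formula` for each
`Q ⊆ Hv` (`n₀` = the maximum), `om_prod` with `c i = α v i`: `zt (ph ψ (α v)) = zt (ph ψ v) ^ α` (`zt_nsmul`); `ph` uses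
`dh i`; `zt (ph ψ v) ^ E = 1` for `ψ ∈ Ps Q` as `dh i ∣ E` (`e₀ = E`). `seq_factX` with
`V = {(Q, v) : Q ⊆ Hv, v ∈ VVX .. (DQ S Q)}`, `k = mn W v` (`> 0` by `essX_of_VV`), `Ψ = Ps Q`, gives
`∑_{(Q, v)} x_{Q,v} / mn v * #{ψ ∈ Ps Q : lam' ^ mn v zt (ph ψ v) = 1} = 0`.
If the number of these `ψ` is not `0`, then `LRes lam' Q ψ v` (`essX_of_VV`), so `v > 0` by `hmax`
(`Fc v = S`), and by minimality `finrank (LinM a (DQ S Q) v) ≥ |R₀|`, and `≤` by `finrank_le_of_sep`. `sign`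
(LF/N8) gives `0 < (-1) ^ (|B| + |R₀|) x_{Q,v}`, `B = Bc a (DQ S Q) v`, `|B| = rkS a (DQ S Q) = rkS a univ` since
`v > 0` is closed (`span_of_pos`, LF/T4; `isBas_card`). `(Q₁, v₁)` is one of the terms (`v₁ ∈ VVX`: `closed` by
`duX_eq`). So the sum is not `0`.
-/

open MvPolynomial

namespace MotMono
namespace LFM

variable {I Γ : Type} [Fintype I] [Fintype Γ] [Nonempty Γ] {N s : ℕ} (L : MLoc I Γ N s)

omit [Nonempty Γ] [Fintype Γ] in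
open Classical in
private theorem M1_DQ (S : Finset Γ) (Q : Finset I) : L.DQ S Q = sup L.W S ∪ (Q ∪ L.Lam) := by
  unfold MLoc.DQ
  ext i
  simp only [Finset.mem_union, or_assoc]

omit [Nonempty Γ] [Fintype Γ] in
private theorem M1_mem_sup {S : Finset Γ} {g : Γ} (hg : g ∈ S) {i : I} (hi : L.W g i ≠ 0)
    (Q : Finset I) : i ∈ L.DQ S Q := by
  classical
  rw [M1_DQ, Finset.mem_union]
  left
  unfold sup
  rw [Finset.mem_filter]
  exact ⟨Finset.mem_univ _, g, hg, hi⟩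

omit [Fintype Γ] [Nonempty Γ] [Fintype I] in
private theorem M1_dh_dvd (i : I) : L.dh i ∣ L.E := by
  unfold MLoc.dh
  split_ifs with h
  · exact L.hdE i h
  · exact one_dvd _

omit [Fintype Γ] [Nonempty Γ] [Fintype I] in
private theorem M1_dh_pos (i : I) : 0 < L.dh i := by
  unfold MLoc.dh
  split_ifs with h
  · exact L.hd _
  · exact one_pos

omit [Fintype Γ] [Nonempty Γ] in
private theorem M1_zt_pow (ψ v : I → ℕ) : zt (L.ph ψ v) ^ L.E = 1 := by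
  rw [← zt_nsmul, zt_eq_one_iff]
  choose k hk using M1_dh_dvd L
  refine ⟨((∑ i, ψ i * v i * k i : ℕ) : ℤ), ?_⟩
  unfold MLoc.ph
  rw [Finset.mul_sum]
  push_cast
  refine Finset.sum_congr rfl fun i _ => ?_
  have h2 : (L.dh i : ℚ) ≠ 0 := by exact_mod_cast (M1_dh_pos L i).ne'
  have h3 : (L.E : ℚ) = L.dh i * k i := by exact_mod_cast hk i
  rw [h3]
  field_simp

omit [Fintype Γ] [Nonempty Γ] in
private theorem M1_ph_smul (ψ v : I → ℕ) (α : ℕ) :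
    zt (L.ph ψ fun i => α * v i) = zt (L.ph ψ v) ^ α := by
  rw [← zt_nsmul]
  congr 1
  unfold MLoc.ph
  rw [Finset.mul_sum]
  refine Finset.sum_congr rfl fun i _ => ?_
  push_cast
  ring

/-- the Lefschetz numbers of the deep points -/
private theorem M1_C {χ : K0 →+* ℤ} (hχ : IsEulerCharF χ) {C : Finset I} (hC : C ⊆ L.Lam)
    (f : Γ → MvPolynomial (Fin N) ℂ) (V : Γ → ℂ) (hG : L.Gens C f V) {S R₀ : Finset Γ}
    (hR : R₀ ⊆ S) (lam : ℂ) {M : ℕ}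
    (h : ∀ t : Γ → ℂ, (∀ g ∈ S, t g ≠ 0) →
        (∀ m, 1 ≤ m → χ (cls (L.CX C (L.E * (m + M)) (L.lv (L.E * (m + M))) S t)) =
          χ (cls (L.CX C (L.E * m) (L.lv (L.E * m)) S t))) ∧
        ∑ m ∈ Finset.Icc 1 M,
          lam ^ m * ((χ (cls (L.CX C (L.E * m) (L.lv (L.E * m)) S t)) : ℤ) : ℂ) = 0) :
    (∀ m, 1 ≤ m → χ (cls (L.CR C (L.E * (m + M)) (L.lv (L.E * (m + M))) S R₀)) =
      χ (cls (L.CR C (L.E * m) (L.lv (L.E * m)) S R₀))) ∧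
    ∑ m ∈ Finset.Icc 1 M,
      lam ^ m * ((χ (cls (L.CR C (L.E * m) (L.lv (L.E * m)) S R₀)) : ℤ) : ℂ) = 0 := by
  have hlv : ∀ m, L.E * m ≤ L.lv (L.E * m) := fun m => by
    unfold MLoc.lv
    omega
  constructor
  · intro m hm
    have h1 := chi_transferX L hχ hC f V hG hR (fun b : Bool => cond b (m + M) m)
      (fun b : Bool => L.lv (L.E * cond b (m + M) m))
      (fun b => by cases b <;> simp only [cond_true, cond_false] <;> omega)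
      (fun b => hlv _) (fun b => cond b (1 : ℂ) (-1)) (fun t ht => by
        rw [Fintype.sum_bool]
        change (1 : ℂ) *
          ((χ (cls (L.CX C (L.E * (m + M)) (L.lv (L.E * (m + M))) S t)) : ℤ) : ℂ) +
          (-1) * ((χ (cls (L.CX C (L.E * m) (L.lv (L.E * m)) S t)) : ℤ) : ℂ) = 0
        rw [(h t ht).1 m hm]
        ring)
    rw [Fintype.sum_bool] at h1
    change (1 : ℂ) *
          ((χ (cls (L.CR C (L.E * (m + M)) (L.lv (L.E * (m + M))) S R₀)) : ℤ) : ℂ) +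
          (-1) * ((χ (cls (L.CR C (L.E * m) (L.lv (L.E * m)) S R₀)) : ℤ) : ℂ) = 0 at h1
    have h2 : ((χ (cls (L.CR C (L.E * (m + M)) (L.lv (L.E * (m + M))) S R₀)) : ℤ) : ℂ) =
        ((χ (cls (L.CR C (L.E * m) (L.lv (L.E * m)) S R₀)) : ℤ) : ℂ) := by
      linear_combination h1
    exact_mod_cast h2
  · have h1 := chi_transferX L hχ hC f V hG hR (fun n : Finset.Icc 1 M => (n : ℕ))
      (fun n : Finset.Icc 1 M => L.lv (L.E * (n : ℕ)))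
      (fun n => (Finset.mem_Icc.1 n.2).1) (fun n => hlv _)
      (fun n => lam ^ (n : ℕ)) (fun t ht => by
        rw [Finset.sum_coe_sort (Finset.Icc 1 M)
          (fun n => lam ^ n * ((χ (cls (L.CX C (L.E * n) (L.lv (L.E * n)) S t)) : ℤ) : ℂ))]
        exact (h t ht).2)
    rw [Finset.sum_coe_sort (Finset.Icc 1 M)
      (fun n => lam ^ n * ((χ (cls (L.CR C (L.E * n) (L.lv (L.E * n)) S R₀)) : ℤ) : ℂ))] at h1
    exact h1

/-- a sum over the multiples of `E` -/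
private theorem M1_sum {E M : ℕ} (hE : 0 < E) (G : ℕ → ℂ) (hG : ∀ n, ¬ E ∣ n → G n = 0) :
    ∑ n ∈ Finset.Icc 1 (E * M), G n = ∑ m ∈ Finset.Icc 1 M, G (E * m) := by
  classical
  have h1 : ∑ n ∈ Finset.Icc 1 (E * M), G n =
      ∑ n ∈ (Finset.Icc 1 (E * M)).filter (fun n => E ∣ n), G n := by
    rw [Finset.sum_filter]
    refine Finset.sum_congr rfl fun n _ => ?_
    split_ifs with h
    · rfl
    · exact hG n h
  rw [h1]
  symm
  refine Finset.sum_bij (fun m _ => E * m) ?_ ?_ ?_ ?_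
  · intro m hm
    rw [Finset.mem_Icc] at hm
    rw [Finset.mem_filter, Finset.mem_Icc]
    exact ⟨⟨Nat.mul_pos hE hm.1, Nat.mul_le_mul_left _ hm.2⟩, dvd_mul_right _ _⟩
  · intro m _ m' _ h
    exact Nat.eq_of_mul_eq_mul_left hE h
  · intro n hn
    rw [Finset.mem_filter, Finset.mem_Icc] at hn
    obtain ⟨⟨h2, h3⟩, m, rfl⟩ := hn
    refine ⟨m, ?_, rfl⟩
    rw [Finset.mem_Icc]
    refine ⟨?_, Nat.le_of_mul_le_mul_left h3 hE⟩
    rcases Nat.eq_zero_or_pos m with h | h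
    · subst h
      omega
    · exact h
  · intro m _
    rfl

theorem loc_mainX {χ : K0 →+* ℤ} (hχ : IsEulerCharF χ) (f : Γ → MvPolynomial (Fin N) ℂ)
    (hG : ∀ C, C ⊆ L.Lam → ∃ V, L.Gens C f V) (lam : ℂ) {k₀ : ℕ} (hk₀ : 0 < k₀)
    (hlam : (lam ^ L.E) ^ k₀ = 1) (Q₀ : Finset I) (ψ₀ v₀ : I → ℕ) (hres : L.LRes lam Q₀ ψ₀ v₀)
    (hpos : ∀ i, 0 < v₀ i)
    (hmax : ∀ Q ψ u, L.LRes lam Q ψ u → (LF.Fc L.W u).card ≤ (LF.Fc L.W v₀).card ∧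
      ((LF.Fc L.W u).card = (LF.Fc L.W v₀).card → ∀ i, 0 < u i)) :
    ∃ C, C ⊆ L.Lam ∧ ∃ y : ConePoint (Ideal.span (Set.range f)) (L.pC C), y.Nonzero ∧
      ∃ Z, IsZeta (fun d => χ (cls (contactArcs (Ideal.span (Set.range f)) (L.pC C) y d))) Z ∧
        ZeroOrPole Z (lam ^ L.E) := by
  classical
  by_contra hcon
  have hno : ∀ C, C ⊆ L.Lam → ∀ y : ConePoint (Ideal.span (Set.range f)) (L.pC C), y.Nonzero →
      ∀ Z, IsZeta (fun d => χ (cls (contactArcs (Ideal.span (Set.range f)) (L.pC C) y d))) Z →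
        ¬ ZeroOrPole Z (lam ^ L.E) :=
    fun C hC y hy Z hZ hZP => hcon ⟨C, hC, y, hy, Z, hZ, hZP⟩
  set S := LF.Fc L.W v₀ with hSdef
  have hS : S.Nonempty := LF.Fc_nonempty _ _
  -- a stratum of minimal dimension
  let good : Finset I → (I → ℕ) → (I → ℕ) → Prop := fun Q ψ v => L.LRes lam Q ψ v ∧
    LF.Fc L.W v = S
  have hgpos : ∀ Q ψ v, good Q ψ v → ∀ i, 0 < v i := fun Q ψ v h =>
    (hmax Q ψ v h.1).2 (by rw [h.2])
  have hgood₀ : good Q₀ ψ₀ v₀ := ⟨hres, rfl⟩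
  have hex : ∃ k, ∃ Q ψ v, good Q ψ v ∧ Module.finrank ℚ (LF.LinM L.a (L.DQ S Q) v) = k :=
    ⟨_, Q₀, ψ₀, v₀, hgood₀, rfl⟩
  obtain ⟨Q₁, ψ₁, v₁, hg₁, hk₁⟩ := Nat.find_spec hex
  have hmin : ∀ Q ψ v, good Q ψ v →
      Module.finrank ℚ (LF.LinM L.a (L.DQ S Q₁) v₁) ≤
        Module.finrank ℚ (LF.LinM L.a (L.DQ S Q) v) := fun Q ψ v hv => by
    rw [hk₁]
    exact Nat.find_min' hex ⟨Q, ψ, v, hv, rfl⟩
  have hpos₁ := hgpos _ _ _ hg₁
  obtain ⟨hres₁, hfc₁⟩ := hg₁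
  have hsepS : LF.Sep L.W S (LF.LinM L.a (L.DQ S Q₁) v₁) := by
    rw [M1_DQ]
    exact sep_of_essX (fun i _ => hpos₁ i) hfc₁ hres₁.ess
  obtain ⟨R₀, hR, hRc, hRsep⟩ := LF.exists_R0 hsepS
  have hcl₁ : ∀ i, LF.clo L.a (L.DQ S Q₁) v₁ i = v₁ i := by
    have h1 := hres₁.ess.closed
    have h2 : DuX L.W (Q₁ ∪ L.Lam) v₁ = sup L.W S ∪ (Q₁ ∪ L.Lam) :=
      duX_eq (fun i _ => hpos₁ i) hfc₁
    rw [M1_DQ, ← h2]
    exact h1
  have hw : ∀ Q : Finset I, ∀ g ∈ R₀, ∀ i, L.W g i ≠ 0 → i ∈ L.DQ S Q :=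
    fun Q g hg i hi => M1_mem_sup L (hR hg) hi Q
  -- the Lefschetz numbers
  have hM₀ : ∀ C : Finset I, ∃ M₀, 0 < M₀ ∧ (C ⊆ L.Lam → ∀ M, 0 < M → M₀ ∣ M →
      (lam ^ L.E) ^ M = 1 ∧
      (∀ m, 1 ≤ m → χ (cls (L.CR C (L.E * (m + M)) (L.lv (L.E * (m + M))) S R₀)) =
        χ (cls (L.CR C (L.E * m) (L.lv (L.E * m)) S R₀))) ∧
      ∑ m ∈ Finset.Icc 1 M, (lam ^ L.E) ^ m *
        ((χ (cls (L.CR C (L.E * m) (L.lv (L.E * m)) S R₀)) : ℤ) : ℂ) = 0) := by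
    intro C
    by_cases hC : C ⊆ L.Lam
    · obtain ⟨V, hV⟩ := hG C hC
      obtain ⟨M₀, h1, h2⟩ := lambda_sumX L hχ hC f V hV hS (lam ^ L.E) hk₀ hlam (hno C hC)
      refine ⟨M₀, h1, fun _ M h3 h4 => ?_⟩
      obtain ⟨h5, h6⟩ := h2 M h3 h4
      obtain ⟨h7, h8⟩ := M1_C L hχ hC f V hV hR (lam ^ L.E) h6
      exact ⟨h5, h7, h8⟩
    · exact ⟨1, one_pos, fun h => absurd h hC⟩
  choose M₀ hM₀pos hM₀' using hM₀
  obtain ⟨M, hMdef⟩ : ∃ M, M = ∏ C ∈ L.Lam.powerset, M₀ C := ⟨_, rfl⟩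
  have hM : 0 < M := by
    rw [hMdef]
    exact Finset.prod_pos fun C _ => hM₀pos C
  have hMC : ∀ C, C ⊆ L.Lam → (lam ^ L.E) ^ M = 1 ∧
      (∀ m, 1 ≤ m → χ (cls (L.CR C (L.E * (m + M)) (L.lv (L.E * (m + M))) S R₀)) =
        χ (cls (L.CR C (L.E * m) (L.lv (L.E * m)) S R₀))) ∧
      ∑ m ∈ Finset.Icc 1 M, (lam ^ L.E) ^ m *
        ((χ (cls (L.CR C (L.E * m) (L.lv (L.E * m)) S R₀)) : ℤ) : ℂ) = 0 := fun C hC =>
    hM₀' C hC M hM (by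
      rw [hMdef]
      exact Finset.dvd_prod_of_mem _ (Finset.mem_powerset.2 hC))
  have hEχ := LF.isEulerChar_of_F hχ
  obtain ⟨G, hGdef⟩ : ∃ G : ℕ → ℤ, G = fun n => L.Hn χ S R₀ n := ⟨_, rfl⟩
  have hGC : ∀ n, G n =
      ∑ C ∈ L.Lam.powerset, (-1) ^ C.card * χ (cls (L.CR C n (L.lv n) S R₀)) := fun n => by
    rw [hGdef]
    exact (sum_C L hEχ n S R₀).symm
  have hG0 : ∀ n, ¬ L.E ∣ n → G n = 0 := fun n hn => by
    rw [hGdef]
    exact Hn_eq_zero L χ hS R₀ hn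
  have hlamM : lam ^ (L.E * M) = 1 := by
    rw [pow_mul]
    exact (hMC ∅ (Finset.empty_subset _)).1
  have hGper : ∀ n, 1 ≤ n → G (n + L.E * M) = G n := by
    intro n hn
    by_cases hE : L.E ∣ n
    · obtain ⟨m, rfl⟩ := hE
      have hm : 1 ≤ m := by
        rcases Nat.eq_zero_or_pos m with h | h
        · subst h
          omega
        · exact h
      rw [← Nat.mul_add, hGC, hGC]
      refine Finset.sum_congr rfl fun C hC => ?_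
      rw [(hMC C (Finset.mem_powerset.1 hC)).2.1 m hm]
    · rw [hG0 _ hE, hG0 _ (fun h => hE ((Nat.dvd_add_left (dvd_mul_right _ _)).1 h))]
  have hGsum : ∑ n ∈ Finset.Icc 1 (L.E * M), lam ^ n * (G n : ℂ) = 0 := by
    rw [M1_sum L.hE (fun n => lam ^ n * (G n : ℂ)) (fun n hn => by rw [hG0 n hn]; simp)]
    have h1 : ∀ m ∈ Finset.Icc 1 M, lam ^ (L.E * m) * (G (L.E * m) : ℂ) =
        ∑ C ∈ L.Lam.powerset, (-1) ^ C.card * ((lam ^ L.E) ^ m *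
          ((χ (cls (L.CR C (L.E * m) (L.lv (L.E * m)) S R₀)) : ℤ) : ℂ)) := by
      intro m _
      rw [hGC, pow_mul]
      push_cast
      rw [Finset.mul_sum]
      refine Finset.sum_congr rfl fun C _ => ?_
      ring
    rw [Finset.sum_congr rfl h1, Finset.sum_comm]
    refine Finset.sum_eq_zero fun C hC => ?_
    rw [← Finset.mul_sum, (hMC C (Finset.mem_powerset.1 hC)).2.2, mul_zero]
  -- the generating functions
  obtain ⟨m₁, r, e, hre, P, hP⟩ := F1_regular L hχ hS hR lam (fun Q ψ u h hss =>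
    absurd (hmax Q ψ u h).1 (not_le.2 (Finset.card_lt_card hss)))
  have hF2 : ∀ Q : Finset I, ∃ n₀, Q ⊆ L.Hv → ∀ n₁, n₀ ≤ n₁ → L.FQ χ S R₀ {∅} Q n₁ =
      ∑ v ∈ (finite_VVQ L S R₀ hR Q).toFinset,
        if LF.mn L.W v ∣ n₁ then
          (∏ i ∈ Q, om (L.d (L.ch i)) (n₁ / LF.mn L.W v * v i)) *
            χ (cls (LF.XM L.a (LF.Bc L.a (L.DQ S Q) v) v (L.DQ S Q) (LF.Th L.W R₀ fun _ => 1)))
        else 0 := by
    intro Q
    by_cases hQ : Q ⊆ L.Hv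
    · obtain ⟨n₀, h⟩ := F2_formula L hχ hS hR hQ
      exact ⟨n₀, fun _ => h⟩
    · exact ⟨0, fun h => absurd h hQ⟩
  choose n₀ hn₀ using hF2
  obtain ⟨V, hV⟩ : ∃ V : Finset (Σ _ : Finset I, (I → ℕ)),
      V = L.Hv.powerset.sigma fun Q => (finite_VVQ L S R₀ hR Q).toFinset := ⟨_, rfl⟩
  obtain ⟨x, hx⟩ : ∃ x : (Σ _ : Finset I, (I → ℕ)) → ℤ, x = fun v =>
      χ (cls (LF.XM L.a (LF.Bc L.a (L.DQ S v.1) v.2) v.2 (L.DQ S v.1)
        (LF.Th L.W R₀ fun _ => 1))) := ⟨_, rfl⟩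
  have hVV : ∀ v ∈ V, v.1 ⊆ L.Hv ∧ v.2 ∈ VVX L.a L.W S R₀ (L.DQ S v.1) ∧
      EssX L.a L.W (v.1 ∪ L.Lam) v.2 := by
    intro v hv
    rw [hV, Finset.mem_sigma, Finset.mem_powerset, Set.Finite.mem_toFinset] at hv
    refine ⟨hv.1, hv.2, ?_⟩
    refine essX_of_VV L.ha hR ?_
    have h1 := hv.2
    rw [M1_DQ] at h1
    exact h1
  have key := seq_factX lam (Nat.mul_pos L.hE hM) hlamM G hGper hGsum V
    (fun v => LF.mn L.W v.2) (fun v hv => (hVV v hv).2.2.pos) x (fun v => L.Ps v.1)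
    (fun v ψ => zt (L.ph ψ v.2)) L.hE (fun v _ ψ _ => M1_zt_pow L ψ v.2) _ Finset.univ r e
    (fun u _ => hre u) P hP (L.Hv.powerset.sup n₀) (fun n hn => by
      rw [if_neg (Nat.succ_ne_zero n), Nat.add_sub_cancel, hV, Finset.sum_sigma]
      have h1 : G n = ∑ Q ∈ L.Hv.powerset, L.FQ χ S R₀ {T | T.Nonempty} Q n +
          ∑ Q ∈ L.Hv.powerset, L.FQ χ S R₀ {∅} Q n := by
        rw [hGdef, ← Finset.sum_add_distrib]
        change L.Hn χ S R₀ n = _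
        rw [Hn_eq L χ S R₀ n]
        exact Finset.sum_congr rfl fun Q _ => FQ_split L χ S R₀ Q n
      rw [h1, Int.cast_add]
      congr 1
      rw [Int.cast_sum]
      refine Finset.sum_congr rfl fun Q hQ => ?_
      have hQ' := Finset.mem_powerset.1 hQ
      rw [hn₀ Q hQ' n (le_trans (Finset.le_sup hQ) hn), Int.cast_sum]
      refine Finset.sum_congr rfl fun v _ => ?_
      split_ifs with hd
      · rw [Int.cast_mul, om_prod L hQ' (fun i => n / LF.mn L.W v * v i), mul_comm, hx]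
        congr 1
        exact Finset.sum_congr rfl fun ψ _ => M1_ph_smul L ψ v _
      · rw [Int.cast_zero])
  -- all terms have the same sign
  have hsgn : ∀ v ∈ V, 0 < ((L.Ps v.1).filter
      (fun ψ => lam ^ LF.mn L.W v.2 * zt (L.ph ψ v.2) = 1)).card →
      0 < (-1 : ℤ) ^ (LF.rkS L.a Set.univ + R₀.card) * x v := by
    intro v hv hcard
    obtain ⟨ψ, hψ⟩ := Finset.card_pos.1 hcard
    rw [Finset.mem_filter] at hψ
    obtain ⟨hQ, hv2, hess⟩ := hVV v hv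
    obtain ⟨hv3, hv4, hv5, hv6, hv7⟩ := hv2
    have hg : good v.1 ψ v.2 := ⟨⟨hQ, hψ.1, hv4, hess, hψ.2⟩, hv6⟩
    have h0 := hgpos _ _ _ hg
    have h1 := hmin _ _ _ hg
    have h2 := LF.finrank_le_of_sep hv7
    have h3 : Module.finrank ℚ (LF.LinM L.a (L.DQ S v.1) v.2) = R₀.card := by
      rw [← hRc] at h1
      omega
    have h4 := LF.Bc_spec L.a (L.DQ S v.1) v.2
    have h5 := LF.sign hχ L.ha (hw v.1) (fun i _ => hv5 i) h4 hv7 h3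
    have hspan : ∀ i, L.a i ∈ LF.sp L.a (L.DQ S v.1 : Set I) := LF.span_of_pos L.ha h0 hv5
    have h6 : LF.rkS L.a (L.DQ S v.1 : Set I) = LF.rkS L.a Set.univ := by
      unfold LF.rkS
      have h7 : LF.sp L.a (L.DQ S v.1 : Set I) = LF.sp L.a Set.univ := by
        refine le_antisymm (LF.sp_mono (Set.subset_univ _)) (Submodule.span_le.2 ?_)
        rintro _ ⟨j, -, rfl⟩
        exact hspan j
      rw [h7]
    rw [LF.isBas_card h4.1, h6] at h5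
    rw [hx]
    exact h5
  have hv₁V : (⟨Q₁, v₁⟩ : Σ _ : Finset I, (I → ℕ)) ∈ V := by
    rw [hV, Finset.mem_sigma, Finset.mem_powerset, Set.Finite.mem_toFinset]
    exact ⟨hres₁.hQ, fun i _ => hpos₁ i, hres₁.prim, hcl₁, hfc₁, hRsep⟩
  have hterm : ∀ v ∈ V, 0 ≤
      (((-1 : ℤ) ^ (LF.rkS L.a Set.univ + R₀.card) * x v : ℤ) : ℝ) / (LF.mn L.W v.2 : ℝ) *
        (((L.Ps v.1).filter
          (fun ψ => lam ^ LF.mn L.W v.2 * zt (L.ph ψ v.2) = 1)).card : ℝ) := by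
    intro v hv
    rcases Nat.eq_zero_or_pos ((L.Ps v.1).filter
      (fun ψ => lam ^ LF.mn L.W v.2 * zt (L.ph ψ v.2) = 1)).card with h | h
    · rw [h, Nat.cast_zero, mul_zero]
    · have h1 : (0 : ℝ) < (((-1 : ℤ) ^ (LF.rkS L.a Set.univ + R₀.card) * x v : ℤ) : ℝ) := by
        exact_mod_cast hsgn v hv h
      exact mul_nonneg (div_nonneg h1.le (Nat.cast_nonneg _)) (Nat.cast_nonneg _)
  have hpos' : 0 < ∑ v ∈ V,
      (((-1 : ℤ) ^ (LF.rkS L.a Set.univ + R₀.card) * x v : ℤ) : ℝ) / (LF.mn L.W v.2 : ℝ) *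
        (((L.Ps v.1).filter
          (fun ψ => lam ^ LF.mn L.W v.2 * zt (L.ph ψ v.2) = 1)).card : ℝ) := by
    refine Finset.sum_pos' hterm ⟨⟨Q₁, v₁⟩, hv₁V, ?_⟩
    have h1 : 0 < ((L.Ps Q₁).filter
        (fun ψ => lam ^ LF.mn L.W v₁ * zt (L.ph ψ v₁) = 1)).card :=
      Finset.card_pos.2 ⟨ψ₁, Finset.mem_filter.2 ⟨hres₁.hpsi, hres₁.eq⟩⟩
    have h2 := hsgn ⟨Q₁, v₁⟩ hv₁V h1
    have h3 : (0 : ℝ) < (((-1 : ℤ) ^ (LF.rkS L.a Set.univ + R₀.card) * x ⟨Q₁, v₁⟩ : ℤ) : ℝ) := by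
      exact_mod_cast h2
    have h4 : (0 : ℝ) < (LF.mn L.W v₁ : ℝ) := by
      exact_mod_cast (hVV _ hv₁V).2.2.pos
    have h5 : (0 : ℝ) < (((L.Ps Q₁).filter
        (fun ψ => lam ^ LF.mn L.W v₁ * zt (L.ph ψ v₁) = 1)).card : ℝ) := by
      exact_mod_cast h1
    exact mul_pos (div_pos h3 h4) h5
  have hzero : ((∑ v ∈ V,
      (((-1 : ℤ) ^ (LF.rkS L.a Set.univ + R₀.card) * x v : ℤ) : ℝ) / (LF.mn L.W v.2 : ℝ) *
        (((L.Ps v.1).filter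
          (fun ψ => lam ^ LF.mn L.W v.2 * zt (L.ph ψ v.2) = 1)).card : ℝ) : ℝ) : ℂ) = 0 := by
    have h1 : ((∑ v ∈ V,
      (((-1 : ℤ) ^ (LF.rkS L.a Set.univ + R₀.card) * x v : ℤ) : ℝ) / (LF.mn L.W v.2 : ℝ) *
        (((L.Ps v.1).filter
          (fun ψ => lam ^ LF.mn L.W v.2 * zt (L.ph ψ v.2) = 1)).card : ℝ) : ℝ) : ℂ) =
      (-1 : ℂ) ^ (LF.rkS L.a Set.univ + R₀.card) *
        ∑ v ∈ V, (x v : ℂ) / (LF.mn L.W v.2 : ℂ) * (((L.Ps v.1).filter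
          (fun ψ => lam ^ LF.mn L.W v.2 * zt (L.ph ψ v.2) = 1)).card : ℂ) := by
      rw [Finset.mul_sum]
      push_cast
      refine Finset.sum_congr rfl fun v _ => ?_
      ring
    rw [h1]
    have h2 : ∑ v ∈ V, (x v : ℂ) / (LF.mn L.W v.2 : ℂ) * (((L.Ps v.1).filter
          (fun ψ => lam ^ LF.mn L.W v.2 * zt (L.ph ψ v.2) = 1)).card : ℂ) = 0 := by
      convert key using 3
    rw [h2, mul_zero]
  have hzero' := Complex.ofReal_eq_zero.1 hzero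
  rw [hzero'] at hpos'
  exact lt_irrefl _ hpos'

end LFM
end MotMono
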