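import Pool.Agent.Lib.MP_4e5fcd_ag.LFM.G2
import Pool.Agent.Lib.MP_4e5fcd_ag.LFM.E1
import Pool.Agent.Lib.MP_4e5fcd_ag.LFM.H6

/-!
# LFM-M2a: global and local resonant triples

`L = D.loc h`, `L.K` = the indices of the form `inr k`, `k ∈ KX`, in `F`; `L.bl (inr k) = k`, `L.ch (inr k) = ch k`, `L.dh i = d (ch k)` for `i ∈ K`,
`1` otherwise; `L.W g i = D.W g i` (`loc_W`), `L.a i = D.av i`.
`res_of_lres`: `ψ' k = ψ ⟨inr k, _⟩` if `inr k ∈ F`, `k ∈ KX`; `0` otherwise. `prim_ex`, `mn_ex` (LF/T2). `ess`: `essX_ex` (E1): the filter of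
`XS ch ψ'` to `F` is `Q ∪ Lam`: for `i = inr k ∈ F`, `k ∈ KX`: `d (ch k) = 1` iff `i ∈ Lam`; if `d (ch k) ≠ 1`: `i ∈ Q` implies `1 ≤ ψ i < d`, not
divisible; `i ∉ Q`: `ψ i = 0` (`Ps`). `eq`: `ex F v (inr k) = 0` if `inr k ∉ F`; `zt (ph ψ v) = ∏ zt (ψ i v i / dh i)` (`zt_add`), and
`zt x = exp (2 π i x)`.
`lres_of_res`: `Q = {i ∈ Hv | ¬ d (ch k) ∣ ψ k}`, `ψ' i = ψ k % d (ch k)` for `i ∈ Q`, `0` otherwise; `ψ' i < dh i + 1`. `ess`: `essX_congr` and
`essX_ex` (`u = ex F v`). `eq`: for each `k ∈ KX`: if `inr k ∉ F` then `u (inr k) = 0`, the factor is `1`; if `inr k ∈ F`: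
`ψ k u / d - ψ' u / d` is an integer (`ψ k - ψ' k` is divisible by `d`; also for `Lam`, `d = 1`).
-/

open MvPolynomial

namespace MotMono
namespace LFM

variable {J Γ : Type} [Fintype J] [Fintype Γ] {N s : ℕ} {D : Dat J Γ N s}

private theorem m2a_union {α : Type*} (i₁ i₂ : DecidableEq α) (A B : Finset α) :
    @Union.union _ (@Finset.instUnion _ i₁) A B = @Union.union _ (@Finset.instUnion _ i₂) A B := by
  rw [Subsingleton.elim i₁ i₂]

private theorem m2a_filt {α : Type*} [Fintype α] (p : α → Prop) (i₁ i₂ : DecidablePred p) :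
    @Finset.filter _ p i₁ Finset.univ = @Finset.filter _ p i₂ Finset.univ := by
  rw [Subsingleton.elim i₁ i₂]

private theorem m2a_zt_zero : zt 0 = 1 := by
  unfold zt
  simp

private theorem m2a_zt_nat (n : ℕ) : zt n = 1 := (zt_eq_one_iff _).2 ⟨n, by simp⟩

private theorem m2a_zt_sum {κ : Type*} (s : Finset κ) (f : κ → ℚ) :
    zt (∑ i ∈ s, f i) = ∏ i ∈ s, zt (f i) := by
  classical
  induction s using Finset.induction_on with
  | empty => simp [m2a_zt_zero]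
  | insert i s hi ih => rw [Finset.sum_insert hi, Finset.prod_insert hi, zt_add, ih]

omit [Fintype Γ] in
private theorem m2a_mem_K {F : Finset (J ⊕ Fin s)} {ch cp : Fin s → Fin N} {p : Fin N → ℂ}
    (h : D.LocHyp F ch cp p) {i : {i // i ∈ F}} :
    i ∈ (D.loc h).K ↔ ∃ k ∈ D.KX, i.1 = Sum.inr k := by
  classical
  show i ∈ Finset.univ.filter (fun i : {i // i ∈ F} => ∃ k ∈ D.KX, i.1 = Sum.inr k) ↔ _
  rw [Finset.mem_filter]
  exact ⟨fun h => h.2, fun h => ⟨Finset.mem_univ _, h⟩⟩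

omit [Fintype Γ] in
open Classical in
private theorem m2a_prod {F : Finset (J ⊕ Fin s)} {ch cp : Fin s → Fin N} {p : Fin N → ℂ}
    (h : D.LocHyp F ch cp p) (f : {i // i ∈ F} → ℂ) (hf : ∀ i, i ∉ (D.loc h).K → f i = 1) :
    ∏ i, f i = ∏ k ∈ D.KX, if hk : Sum.inr k ∈ F then f ⟨Sum.inr k, hk⟩ else 1 := by
  symm
  have hne : ∀ k, (if hk : Sum.inr k ∈ F then f ⟨Sum.inr k, hk⟩ else 1) ≠ 1 →
      Sum.inr k ∈ F := by
    intro k hk
    by_contra hc
    rw [dif_neg hc] at hk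
    exact hk rfl
  refine Finset.prod_bij_ne_one (fun k _ hk => ⟨Sum.inr k, hne k hk⟩) ?_ ?_ ?_ ?_
  · intro k _ _
    exact Finset.mem_univ _
  · intro k _ _ k' _ _ he
    exact Sum.inr_injective (congrArg Subtype.val he)
  · intro i _ hi
    have hiK : i ∈ (D.loc h).K := by
      by_contra hc
      exact hi (hf i hc)
    obtain ⟨k, hk, hik⟩ := (m2a_mem_K h).1 hiK
    obtain ⟨i, hiF⟩ := i
    have hik' : i = Sum.inr k := hik
    subst hik'
    refine ⟨k, hk, ?_, rfl⟩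
    rw [dif_pos hiF]
    exact hi
  · intro k _ hk
    rw [dif_pos (hne k hk)]

omit [Fintype Γ] in
private theorem m2a_exp (ψ u d : ℕ) :
    Complex.exp (2 * Real.pi * Complex.I * (ψ * u / d)) = zt ((ψ : ℚ) * u / d) := by
  unfold zt
  congr 1
  push_cast
  ring

omit [Fintype Γ] in
private theorem m2a_dh {F : Finset (J ⊕ Fin s)} {ch cp : Fin s → Fin N} {p : Fin N → ℂ}
    (h : D.LocHyp F ch cp p) {k : Fin s} (hk : k ∈ D.KX) (hF : Sum.inr k ∈ F) :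
    (D.loc h).dh ⟨Sum.inr k, hF⟩ = D.d (ch k) := by
  classical
  unfold MLoc.dh
  rw [if_pos ((m2a_mem_K h).2 ⟨k, hk, rfl⟩)]
  rfl

private theorem m2a_filter {F : Finset (J ⊕ Fin s)} {ch cp : Fin s → Fin N} {p : Fin N → ℂ}
    (h : D.LocHyp F ch cp p) (hF : ∀ i, D.av i ∈ LF.sp D.av (F : Set (J ⊕ Fin s)) → i ∈ F)
    {X : Finset {i // i ∈ F}} {ψ' : Fin s → ℕ} {v : {i // i ∈ F} → ℕ}
    (hX : ∀ i, i ∈ X ↔ i.1 ∈ D.XS ch ψ') :
    EssX D.av D.W (D.XS ch ψ') (LF.ex F v) ↔ EssX (D.loc h).a (D.loc h).W X v := by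
  classical
  rw [essX_ex D.W hF]
  have h2 : (fun g (i : {i // i ∈ F}) => D.W g i) = (D.loc h).W := by
    funext g i
    exact (loc_W h g i).symm
  have h3 : (fun i : {i // i ∈ F} => D.av i) = (D.loc h).a := rfl
  have h4 : (Finset.univ.filter fun i : {i // i ∈ F} => (i : J ⊕ Fin s) ∈ D.XS ch ψ') = X := by
    ext i
    rw [hX i]
    simp
  rw [← h2, h3, ← h4]
  exact iff_of_eq (congrArg (fun X => EssX (D.loc h).a (fun g (i : {i // i ∈ F}) => D.W g i) X v)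
    (m2a_filt _ _ _))

omit [Fintype J] [Fintype Γ] in
private theorem m2a_XS {ch : Fin s → Fin N} {ψ : Fin s → ℕ} {i : J ⊕ Fin s} :
    i ∈ D.XS ch ψ ↔ ∃ k ∈ D.KX, (D.d (ch k) = 1 ∨ ¬ D.d (ch k) ∣ ψ k) ∧ i = Sum.inr k := by
  simp only [Dat.XS, Finset.mem_map, Finset.mem_filter, Function.Embedding.coeFn_mk]
  constructor
  · rintro ⟨k, ⟨h1, h2⟩, h3⟩
    exact ⟨k, h1, h2, h3.symm⟩
  · rintro ⟨k, h1, h2, h3⟩
    exact ⟨k, ⟨h1, h2⟩, h3.symm⟩

omit [Fintype Γ] in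
private theorem m2a_ph {F : Finset (J ⊕ Fin s)} {ch cp : Fin s → Fin N} {p : Fin N → ℂ}
    (h : D.LocHyp F ch cp p) {ψ' : {i // i ∈ F} → ℕ} (hψ : ∀ i, i ∉ (D.loc h).K → ψ' i = 0)
    {ψ : Fin s → ℕ} (v : {i // i ∈ F} → ℕ)
    (hc : ∀ k ∈ D.KX, ∀ hk : Sum.inr k ∈ F, ∃ q, ψ k = ψ' ⟨Sum.inr k, hk⟩ + D.d (ch k) * q) :
    ∏ k ∈ D.KX, Complex.exp (2 * Real.pi * Complex.I *
      (ψ k * (LF.ex F v (Sum.inr k) : ℕ) / D.d (ch k))) = zt ((D.loc h).ph ψ' v) := by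
  classical
  unfold MLoc.ph
  rw [m2a_zt_sum, m2a_prod h _ (fun i hi => by rw [hψ i hi]; simp [m2a_zt_zero])]
  refine Finset.prod_congr rfl fun k hk => ?_
  rw [m2a_exp]
  by_cases hF : Sum.inr k ∈ F
  · rw [dif_pos hF, LF.t2_ex_of_mem v hF, m2a_dh h hk hF]
    obtain ⟨q, hq⟩ := hc k hk hF
    have hd : (D.d (ch k) : ℚ) ≠ 0 := by exact_mod_cast (D.hd _).ne'
    have h1 : ((ψ k : ℕ) : ℚ) * (v ⟨Sum.inr k, hF⟩ : ℚ) / D.d (ch k) =
        (ψ' ⟨Sum.inr k, hF⟩ : ℚ) * v ⟨Sum.inr k, hF⟩ / D.d (ch k) +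
          ((q * v ⟨Sum.inr k, hF⟩ : ℕ) : ℚ) := by
      rw [hq]
      push_cast
      field_simp
    rw [h1, zt_add, m2a_zt_nat, mul_one]
  · rw [dif_neg hF, LF.t2_ex_of_notMem v hF]
    simp [m2a_zt_zero]

private theorem m2a_mn {F : Finset (J ⊕ Fin s)} {ch cp : Fin s → Fin N} {p : Fin N → ℂ}
    (h : D.LocHyp F ch cp p) (v : {i // i ∈ F} → ℕ) :
    LF.mn D.W (LF.ex F v) = LF.mn (D.loc h).W v := by
  have h2 : (fun g (i : {i // i ∈ F}) => D.W g i) = (D.loc h).W := by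
    funext g i
    exact (loc_W h g i).symm
  rw [LF.mn_ex, h2]

theorem res_of_lres {F : Finset (J ⊕ Fin s)} {ch cp : Fin s → Fin N} {p : Fin N → ℂ}
    (h : D.LocHyp F ch cp p) (hF : ∀ i, D.av i ∈ LF.sp D.av (F : Set (J ⊕ Fin s)) → i ∈ F)
    {lam : ℂ} {Q : Finset {i // i ∈ F}} {ψ v : {i // i ∈ F} → ℕ}
    (hr : (D.loc h).LRes lam Q ψ v) : ∃ ψ', D.Res lam ch ψ' (LF.ex F v) := by
  classical
  have hps : (∀ i ∈ Q, 1 ≤ ψ i ∧ ψ i < (D.loc h).dh i) ∧ ∀ i, i ∉ Q → ψ i = 0 := by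
    have h1 := hr.hpsi
    simp only [MLoc.Ps, Finset.mem_filter] at h1
    exact h1.2
  have hQK : ∀ i ∈ Q, i ∈ (D.loc h).K := fun i hi => (Finset.mem_filter.1 (hr.hQ hi)).1
  refine ⟨fun k => LF.ex F ψ (Sum.inr k), h.hch, (LF.prim_ex v).2 hr.prim, ?_, ?_⟩
  · rw [m2a_filter h hF (X := Q ∪ (D.loc h).Lam)]
    · refine (congrArg (fun X => EssX (D.loc h).a (D.loc h).W X v) ?_).mpr hr.ess
      exact m2a_union _ _ _ _
    · rintro ⟨i, hi⟩
      rw [Finset.mem_union, m2a_XS]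
      constructor
      · rintro (h1 | h1)
        · obtain ⟨k, hk, hik⟩ := (m2a_mem_K h).1 (hQK _ h1)
          have hik' : i = Sum.inr k := hik
          subst hik'
          refine ⟨k, hk, Or.inr ?_, rfl⟩
          have h2 := hps.1 _ h1
          rw [m2a_dh h hk hi] at h2
          show ¬ D.d (ch k) ∣ LF.ex F ψ (Sum.inr k)
          rw [LF.t2_ex_of_mem ψ hi]
          intro hd
          exact absurd (Nat.le_of_dvd h2.1 hd) (not_le.2 h2.2)
        · unfold MLoc.Lam at h1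
          rw [Finset.mem_filter] at h1
          obtain ⟨k, hk, hik⟩ := (m2a_mem_K h).1 h1.1
          have hik' : i = Sum.inr k := hik
          subst hik'
          exact ⟨k, hk, Or.inl h1.2, rfl⟩
      · rintro ⟨k, hk, h1, h2⟩
        have hik' : i = Sum.inr k := h2
        subst hik'
        by_cases hd : D.d (ch k) = 1
        · right
          unfold MLoc.Lam
          rw [Finset.mem_filter]
          exact ⟨(m2a_mem_K h).2 ⟨k, hk, rfl⟩, hd⟩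
        · left
          by_contra hQ
          rcases h1 with h1 | h1
          · exact hd h1
          · apply h1
            show D.d (ch k) ∣ LF.ex F ψ (Sum.inr k)
            rw [LF.t2_ex_of_mem ψ hi, hps.2 _ hQ]
            exact dvd_zero _
  · rw [m2a_mn h, m2a_ph h (ψ' := ψ)]
    · exact hr.eq
    · exact fun i hi => hps.2 i fun hQ => hi (hQK i hQ)
    · intro k hk hkF
      exact ⟨0, by rw [LF.t2_ex_of_mem ψ hkF, mul_zero, add_zero]⟩

theorem lres_of_res {F : Finset (J ⊕ Fin s)} {ch cp : Fin s → Fin N} {p : Fin N → ℂ}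
    (h : D.LocHyp F ch cp p) (hF : ∀ i, D.av i ∈ LF.sp D.av (F : Set (J ⊕ Fin s)) → i ∈ F)
    {lam : ℂ} {ψ : Fin s → ℕ} {v : {i // i ∈ F} → ℕ} (hr : D.Res lam ch ψ (LF.ex F v)) :
    ∃ Q ψ', (D.loc h).LRes lam Q ψ' v := by
  classical
  set L := D.loc h with hL
  set Q : Finset {i // i ∈ F} := L.Hv.filter fun i => ¬ L.d (L.ch i) ∣ ψ (L.bl i) with hQ
  set ψ' : {i // i ∈ F} → ℕ := fun i => if i ∈ Q then ψ (L.bl i) % L.dh i else 0 with hψ'
  have hQK : ∀ i ∈ Q, i ∈ L.K := fun i hi =>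
    (Finset.mem_filter.1 (Finset.mem_filter.1 hi).1).1
  have hmQ : ∀ k ∈ D.KX, ∀ hk : Sum.inr k ∈ F, ((⟨Sum.inr k, hk⟩ : {i // i ∈ F}) ∈ Q ↔
      D.d (ch k) ≠ 1 ∧ ¬ D.d (ch k) ∣ ψ k) := by
    intro k hk hkF
    rw [hQ, Finset.mem_filter]
    unfold MLoc.Hv
    rw [Finset.mem_filter]
    constructor
    · rintro ⟨⟨-, h1⟩, h2⟩
      exact ⟨h1, h2⟩
    · rintro ⟨h1, h2⟩
      exact ⟨⟨(m2a_mem_K h).2 ⟨k, hk, rfl⟩, h1⟩, h2⟩
  have hQps : ∀ i ∈ Q, 1 ≤ ψ' i ∧ ψ' i < L.dh i := by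
    intro i hi
    obtain ⟨k, hk, hik⟩ := (m2a_mem_K h).1 (hQK _ hi)
    obtain ⟨i, hiF⟩ := i
    have hik' : i = Sum.inr k := hik
    subst hik'
    have h1 := (hmQ k hk hiF).1 hi
    have h2 : ψ' ⟨Sum.inr k, hiF⟩ = ψ k % D.d (ch k) := by
      rw [hψ']
      simp only
      rw [if_pos hi, m2a_dh h hk hiF]
      rfl
    rw [h2, m2a_dh h hk hiF]
    refine ⟨Nat.pos_of_ne_zero fun h0 => h1.2 (Nat.dvd_of_mod_eq_zero h0), ?_⟩
    exact Nat.mod_lt _ (D.hd _)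
  have h0 : ∀ i, i ∉ Q → ψ' i = 0 := by
    intro i hi
    rw [hψ']
    simp only
    rw [if_neg hi]
  refine ⟨Q, ψ', ?_, ?_, (LF.prim_ex v).1 hr.prim, ?_, ?_⟩
  · exact Finset.filter_subset _ _
  · simp only [MLoc.Ps, Finset.mem_filter, Fintype.mem_piFinset, Finset.mem_range]
    refine ⟨fun i => ?_, hQps, h0⟩
    by_cases hi : i ∈ Q
    · exact (hQps i hi).2.trans (Nat.lt_succ_self _)
    · rw [h0 i hi]
      exact Nat.succ_pos _
  · have h1 := (m2a_filter h hF (X := Q ∪ (D.loc h).Lam) ?_).1 hr.ess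
    · refine (congrArg (fun X => EssX (D.loc h).a (D.loc h).W X v) ?_).mpr h1
      exact m2a_union _ _ _ _
    · rintro ⟨i, hi⟩
      rw [Finset.mem_union, m2a_XS]
      constructor
      · rintro (h1 | h1)
        · obtain ⟨k, hk, hik⟩ := (m2a_mem_K h).1 (hQK _ h1)
          have hik' : i = Sum.inr k := hik
          subst hik'
          exact ⟨k, hk, Or.inr ((hmQ k hk hi).1 h1).2, rfl⟩
        · unfold MLoc.Lam at h1
          rw [Finset.mem_filter] at h1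
          obtain ⟨k, hk, hik⟩ := (m2a_mem_K h).1 h1.1
          have hik' : i = Sum.inr k := hik
          subst hik'
          exact ⟨k, hk, Or.inl h1.2, rfl⟩
      · rintro ⟨k, hk, h1, h2⟩
        have hik' : i = Sum.inr k := h2
        subst hik'
        by_cases hd : D.d (ch k) = 1
        · right
          unfold MLoc.Lam
          rw [Finset.mem_filter]
          exact ⟨(m2a_mem_K h).2 ⟨k, hk, rfl⟩, hd⟩
        · left
          rw [hmQ k hk hi]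
          exact ⟨hd, h1.resolve_left hd⟩
  · have h1 := hr.eq
    rw [m2a_mn h, m2a_ph h (ψ' := ψ')] at h1
    · exact h1
    · exact fun i hi => h0 i fun hQ => hi (hQK i hQ)
    · intro k hk hkF
      by_cases hiQ : (⟨Sum.inr k, hkF⟩ : {i // i ∈ F}) ∈ Q
      · refine ⟨ψ k / D.d (ch k), ?_⟩
        have h2 : ψ' ⟨Sum.inr k, hkF⟩ = ψ k % D.d (ch k) := by
          rw [hψ']
          simp only
          rw [if_pos hiQ, m2a_dh h hk hkF]
          rfl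
        rw [h2]
        exact (Nat.mod_add_div _ _).symm
      · rw [h0 _ hiQ]
        have h2 : D.d (ch k) ∣ ψ k := by
          by_contra hc
          by_cases hd : D.d (ch k) = 1
          · exact hc (hd ▸ one_dvd _)
          · exact hiQ ((hmQ k hk hkF).2 ⟨hd, hc⟩)
        obtain ⟨q, hq⟩ := h2
        exact ⟨q, by rw [hq, zero_add]⟩

end LFM
end MotMono
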