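import Pool.Agent.Lib.MP_4e5fcd_ag.LFM.PH2
import Pool.Agent.Lib.MP_4e5fcd_ag.LFM.M0
import Pool.Agent.Lib.MP_4e5fcd_ag.LFM.M1
import Pool.Agent.Lib.MP_4e5fcd_ag.LFM.M2a

/-!
# LFM-M2: the global theorem for finitely many generators

As LF/M2. `lam = exp (2 π i s₀ / E)`, `lam ^ E = exp (2 π i s₀)`, `(lam ^ E) ^ s₀.den = 1`. `exists_res_of_pole` gives a resonant triple. Among
all resonant triples `(ch, ψ, u)` choose one with `|Fc W u|` maximal, and among those one with `|LF.spt u|` minimal (`Nat.find` or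
`Set.exists_...` on `(card Γ - |Fc|) * (card (J ⊕ Fin s) + 1) + |spt|`). `F = LF.spt u₀`, a flat (`flat_sptX`); `u₀ = ex F v₀`, `v₀ > 0`.
`exists_point` with this `ch`, `F`, `ε`. `lres_of_res` gives `Q₀, ψ₀'` for `v₀`. `loc_mainX` for `L = D.loc h`, `f = D.gen`: `hG` by `loc_gens`
(`exists_point`); `hmax`: let `LRes lam Q ψ v`; `res_of_lres`: `Res lam ch ψ' (ex F v)`, so `|Fc| ≤ |Fc u₀|` (`fc_ex`, `loc_W`), and if equal
then `|spt (ex F v)| ≥ |spt u₀| = |F|`, `spt (ex F v) ⊆ F`, so `v > 0`. The point is `pC C`, `van_pC` (`u = u₀`, `0 < mn` by `EssX.pos`).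
`D.Id = Ideal.span (Set.range D.gen)` by definition.
-/

open MvPolynomial

namespace MotMono
namespace LFM

variable {J Γ : Type} [Fintype J] [Fintype Γ] [Nonempty Γ] {N s : ℕ}

theorem glob_mainX (D : Dat J Γ N s) (s₀ : ℚ) (hpole : IsPole (Zmot D.Id) s₀) {χ : K0 →+* ℤ}
    (hχ : IsEulerCharF χ) (ε : ℝ) (hε : 0 < ε) :
    ∃ p : Fin N → ℂ, ‖p‖ < ε ∧ (∀ f ∈ D.Id, eval p f = 0) ∧
      ∃ y : ConePoint D.Id p, y.Nonzero ∧
        ∃ Z, IsZeta (fun d => χ (cls (contactArcs D.Id p y d))) Z ∧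
          ZeroOrPole Z (Complex.exp (2 * Real.pi * Complex.I * s₀)) := by
  classical
  have hE : 0 < D.E := E_pos D
  have hEC : (D.E : ℂ) ≠ 0 := by exact_mod_cast hE.ne'
  obtain ⟨lam, hlamdef⟩ : ∃ lam : ℂ, lam = Complex.exp (2 * Real.pi * Complex.I * (s₀ / D.E)) :=
    ⟨_, rfl⟩
  have hlamE : lam ^ D.E = Complex.exp (2 * Real.pi * Complex.I * s₀) := by
    rw [hlamdef, ← Complex.exp_nat_mul]
    congr 1
    field_simp
  have hlam1 : (lam ^ D.E) ^ s₀.den = 1 := by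
    rw [hlamE, ← Complex.exp_nat_mul]
    have h1 : (s₀.den : ℂ) * (2 * Real.pi * Complex.I * s₀) =
        (s₀.num : ℂ) * (2 * Real.pi * Complex.I) := by
      have h2 : (s₀ : ℂ) * (s₀.den : ℂ) = (s₀.num : ℂ) := by
        exact_mod_cast congrArg (fun q : ℚ => (q : ℂ)) (Rat.mul_den_eq_num s₀)
      rw [← h2]
      ring
    rw [h1]
    exact Complex.exp_int_mul_two_pi_mul_I _
  have hav : ∀ i, D.av i ≠ 0 := by
    intro i
    rcases i with j | k
    · exact D.ha j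
    · intro h
      have h1 := congrFun h k
      simp [Dat.av] at h1
  obtain ⟨ch₁, u₁, hres₁⟩ := exists_res_of_pole D s₀ hpole
  rw [← hlamdef] at hres₁
  -- a resonant triple with maximal face and minimal support
  have hex : ∃ k, ∃ ch ψ u, D.Res lam ch ψ u ∧ (Fintype.card Γ - (LF.Fc D.W u).card) *
      (Fintype.card (J ⊕ Fin s) + 1) + (LF.spt u).card = k := ⟨_, ch₁, _, u₁, hres₁, rfl⟩
  obtain ⟨ch, ψ₀, u₀, hres, hk₀⟩ := Nat.find_spec hex
  have hmin : ∀ ch' ψ u, D.Res lam ch' ψ u → (LF.Fc D.W u).card ≤ (LF.Fc D.W u₀).card ∧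
      ((LF.Fc D.W u).card = (LF.Fc D.W u₀).card → (LF.spt u₀).card ≤ (LF.spt u).card) := by
    intro ch' ψ u hr
    have h1 := Nat.find_min' hex ⟨ch', ψ, u, hr, rfl⟩
    rw [← hk₀] at h1
    have h2 : (LF.Fc D.W u).card ≤ Fintype.card Γ := Finset.card_le_univ _
    have h3 : (LF.Fc D.W u₀).card ≤ Fintype.card Γ := Finset.card_le_univ _
    have h4 : (LF.spt u).card ≤ Fintype.card (J ⊕ Fin s) := Finset.card_le_univ _
    constructor
    · by_contra hcon
      push Not at hcon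
      have h5 : (Fintype.card Γ - (LF.Fc D.W u).card) + 1 ≤
          Fintype.card Γ - (LF.Fc D.W u₀).card := by omega
      have h6 := Nat.mul_le_mul_right (Fintype.card (J ⊕ Fin s) + 1) h5
      rw [Nat.add_mul, one_mul] at h6
      omega
    · intro h5
      rw [h5] at h1
      omega
  obtain ⟨F, hFdef⟩ : ∃ F, F = LF.spt u₀ := ⟨_, rfl⟩
  have hF : ∀ i, D.av i ∈ LF.sp D.av (F : Set (J ⊕ Fin s)) → i ∈ F := by
    rw [hFdef]
    exact flat_sptX hav hres.ess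
  have hF' : ∀ i, i ∈ F ↔ u₀ i ≠ 0 := fun i => by simp [hFdef, LF.spt]
  obtain ⟨v₀, hv₀⟩ : ∃ v₀ : {i // i ∈ F} → ℕ, v₀ = fun (i : {i // i ∈ F}) => u₀ i.1 :=
    ⟨fun i => u₀ i.1, rfl⟩
  have hex₀ : LF.ex F v₀ = u₀ := by
    funext i
    by_cases hi : i ∈ F
    · rw [LF.t2_ex_of_mem v₀ hi, hv₀]
    · rw [LF.t2_ex_of_notMem v₀ hi]
      have := (hF' i).not.1 hi
      push Not at this
      exact this.symm
  obtain ⟨cp, p, h, hpt⟩ := exists_point D hF hres.hch ε hε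
  have hW : (D.loc h).W = fun g (i : {i // i ∈ F}) => D.W g i := by
    funext g i
    exact loc_W h g i
  have hfc : ∀ v : {i // i ∈ F} → ℕ, LF.Fc (D.loc h).W v = LF.Fc D.W (LF.ex F v) := by
    intro v
    rw [hW, LF.fc_ex]
  obtain ⟨Q₀, ψ₁, hlres⟩ := lres_of_res h hF (lam := lam) (ψ := ψ₀) (v := v₀)
    (by rw [hex₀]; exact hres)
  obtain ⟨C, hC, y, hy, Z, hZ1, hZ2⟩ := loc_mainX (D.loc h) hχ D.gen
    (fun C hC => loc_gens h hC (hpt C).2) lam s₀.den_pos hlam1 Q₀ ψ₁ v₀ hlres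
    (fun i => by
      rw [hv₀]
      exact Nat.pos_of_ne_zero ((hF' i).1 i.2))
    (fun Q ψ v hr => by
      obtain ⟨ψ', hr'⟩ := res_of_lres h hF hr
      obtain ⟨h1, h2⟩ := hmin ch ψ' (LF.ex F v) hr'
      rw [hfc v, hfc v₀, hex₀]
      refine ⟨h1, fun h3 => ?_⟩
      have h4 := h2 h3
      have h5 : LF.spt (LF.ex F v) ⊆ F := by
        intro i hi
        by_contra hcon
        have h6 : LF.ex F v i ≠ 0 := by simpa [LF.spt] using hi
        exact h6 (LF.t2_ex_of_notMem v hcon)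
      rw [← hFdef] at h4
      have h6 := Finset.eq_of_subset_of_card_le h5 h4
      intro i
      have h7 : (i : J ⊕ Fin s) ∈ LF.spt (LF.ex F v) := by
        rw [h6]
        exact i.2
      have h8 : LF.ex F v i ≠ 0 := by simpa [LF.spt] using h7
      rw [LF.t2_ex_coe] at h8
      exact Nat.pos_of_ne_zero h8)
  refine ⟨(D.loc h).pC C, (hpt C).1, ?_, y, hy, Z, hZ1, ?_⟩
  · exact van_pC D h hC (u := u₀) (fun i hi => (hF' i).2 hi) hres.ess.pos
  · rw [← hlamE]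
    exact hZ2

end LFM
end MotMono
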