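import Pool.Agent.Lib.MP_4e5fcd_ag.LFM.Defs
import Pool.Agent.Lib.MP_4e5fcd_ag.LFM.M2
import Pool.Agent.Lib.MP_4e5fcd_ag.LF.M3

/-!
# LFM-M3: ideals generated by products of monomials and linear forms in disjoint monomials

As LF/M3: finitely many nonzero generators `P''` (Noether), `Γ = P''`, `J = Σ f : P'', Fin (n f)`,
`a i = a i.1 i.2` (not zero: otherwise `f = 0`), `w g i = if i.1 = g then 1 else 0`, `c`, `U` from
`IsProdMon`. The `Dat` has `gen g = g`, so `D.Id = Ideal.span P`. If `P''` is empty,
`LF.zmot_bot`.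
-/

open MvPolynomial

namespace MotMono
namespace LFM

theorem set_mainX {N s : ℕ} (β : Fin N → Fin s) (hβ : Function.Surjective β) (d : Fin N → ℕ)
    (hd : ∀ l, 0 < d l) (P : Set (MvPolynomial (Fin N) ℂ)) (hP : ∀ f ∈ P, IsProdMon β d f)
    (s₀ : ℚ) (hpole : IsPole (Zmot (Ideal.span P)) s₀) {χ : K0 →+* ℤ} (hχ : IsEulerCharF χ)
    (ε : ℝ) (hε : 0 < ε) :
    ∃ p : Fin N → ℂ, ‖p‖ < ε ∧ (∀ f ∈ Ideal.span P, eval p f = 0) ∧
      ∃ y : ConePoint (Ideal.span P) p, y.Nonzero ∧
        ∃ Z, IsZeta (fun d => χ (cls (contactArcs (Ideal.span P) p y d))) Z ∧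
          ZeroOrPole Z (Complex.exp (2 * Real.pi * Complex.I * s₀)) := by
  classical
  obtain ⟨P', hP', hspan⟩ := (Submodule.fg_span_iff_fg_span_finset_subset P).1
    (IsNoetherian.noetherian (Submodule.span (MvPolynomial (Fin N) ℂ) P))
  set P'' : Finset (MvPolynomial (Fin N) ℂ) := P'.filter fun f => f ≠ 0 with hP''
  have hspan' : Ideal.span P = Ideal.span (P'' : Set (MvPolynomial (Fin N) ℂ)) := by
    have h1 : Ideal.span P = Ideal.span (P' : Set (MvPolynomial (Fin N) ℂ)) := hspan
    rw [h1]
    apply le_antisymm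
    · rw [Ideal.span_le]
      intro f hf
      by_cases hf0 : f = 0
      · rw [hf0]; exact Submodule.zero_mem _
      · exact Ideal.subset_span (by
          rw [Finset.mem_coe, hP'', Finset.mem_filter]
          exact ⟨hf, hf0⟩)
    · apply Ideal.span_mono
      intro f hf
      rw [Finset.mem_coe, hP'', Finset.mem_filter] at hf
      exact hf.1
  have hmem : ∀ f : P'', IsProdMon β d (f : MvPolynomial (Fin N) ℂ) ∧
      (f : MvPolynomial (Fin N) ℂ) ≠ 0 := by
    intro f
    have h1 := Finset.mem_filter.1 f.2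
    exact ⟨hP _ (hP' h1.1), h1.2⟩
  choose U c n a hU hc hf using fun f : P'' => (hmem f).1
  by_cases hne : Nonempty P''
  · have hane : ∀ (f : P'') (j : Fin (n f)), a f j ≠ 0 := by
      intro f j h0
      apply (hmem f).2
      rw [hf f, Finset.prod_eq_zero (Finset.mem_univ j), mul_zero]
      rw [h0]
      simp
    let D : Dat (Σ f : P'', Fin (n f)) P'' N s :=
      { β := β
        d := d
        a := fun i => a i.1 i.2
        w := fun g i => if i.1 = g then 1 else 0
        c := c
        U := U
        hβ := hβ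
        hd := hd
        ha := fun i => hane i.1 i.2
        hc := hc
        hU := hU }
    have hgen : ∀ g : P'', D.gen g = (g : MvPolynomial (Fin N) ℂ) := by
      intro g
      show U g * (∏ l, X l ^ c g l) * ∏ i : (Σ f : P'', Fin (n f)),
        (∑ k, C (a i.1 i.2 k) * Mon.blockMon β d k) ^ (if i.1 = g then 1 else 0) = _
      rw [Fintype.prod_sigma, Finset.prod_eq_single g]
      · rw [hf g]
        congr 1
        refine Finset.prod_congr rfl fun j _ => ?_
        rw [if_pos rfl, pow_one]
      · intro g' _ hg'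
        refine Finset.prod_eq_one fun j _ => ?_
        rw [if_neg hg', pow_zero]
      · intro h
        exact absurd (Finset.mem_univ g) h
    have hId : D.Id = Ideal.span P := by
      rw [hspan']
      unfold Dat.Id
      congr 1
      ext f
      rw [Finset.mem_coe, Set.mem_range]
      constructor
      · rintro ⟨g, hg⟩
        rw [← hg, hgen g]
        exact g.2
      · intro hf1
        exact ⟨⟨f, hf1⟩, hgen ⟨f, hf1⟩⟩
    rw [← hId] at hpole ⊢
    exact glob_mainX D s₀ hpole hχ ε hε
  · exfalso
    rw [not_nonempty_iff] at hne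
    have h1 : P'' = ∅ := by
      by_contra h
      obtain ⟨f, hf1⟩ := Finset.nonempty_iff_ne_empty.2 h
      exact hne.false ⟨f, hf1⟩
    apply hpole
    rw [hspan', h1, Finset.coe_empty, Ideal.span_empty, LF.zmot_bot]
    exact Subring.zero_mem _

end LFM
end MotMono
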