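import Pool.Agent.Lib.MP_4e5fcd_ag.LFM.Base
import Pool.Agent.Lib.MP_4e5fcd_ag.LF.P4

/-!
# LFM-PA: the polyhedron of a pattern, for `D ⊇ sup w S`

The proof of `inP_iff` (LF/P4) uses its hypothesis `hD` only through `supp_le` (LF/P3), and this only uses that
`w g i ≠ 0`, `g ∈ S`, implies `i ∈ D`. Copy the proof.
-/

open MvPolynomial

namespace MotMono
namespace LFM

variable {I Γ : Type} [Fintype I] [Fintype Γ] {s : ℕ} {a : I → Fin s → ℂ} {w : Γ → I → ℕ}
  {S : Finset Γ} {D : Finset I} {K₁ : ℕ} {mh₁ : I → ℕ} {P : LF.Pat I Γ}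

theorem supp_leX (hD : ∀ g ∈ S, ∀ i, w g i ≠ 0 → i ∈ D) {g : Γ} (hg : g ∈ S ∨ g ∈ P.T) {i : I}
    (hi : w g i ≠ 0) : i ∈ LF.DT w D P.T := by
  classical
  rw [LF.DT, Finset.mem_filter]
  refine ⟨Finset.mem_univ i, ?_⟩
  rcases hg with hg | hg
  · exact Or.inl (hD g hg i hi)
  · exact Or.inr ⟨g, hg, hi⟩

open LF

private theorem pa_pair_add_one (v x : I → ℕ) :
    pair v (fun i => x i + 1) = pair v x + ∑ i, v i := by
  unfold pair
  rw [← Finset.sum_add_distrib]
  exact Finset.sum_congr rfl fun i _ => by ring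

private theorem pa_pair_congr {v x y : I → ℕ} (h : ∀ i, v i ≠ 0 → x i = y i) :
    pair v x = pair v y := by
  unfold pair
  refine Finset.sum_congr rfl fun i _ => ?_
  by_cases hi : v i = 0
  · simp [hi]
  · rw [h i hi]

private theorem pa_pair_cast (v x : I → ℕ) :
    ((pair v x : ℕ) : ℤ) = ∑ i, (v i : ℤ) * (x i : ℤ) := by
  unfold pair
  push_cast
  rfl

open Classical in
private theorem pa_sum_ind (B B' : Finset I) (x : I → ℕ) :
    ∑ i, ((if i ∈ B then (1 : ℤ) else 0) - (if i ∈ B' then 1 else 0)) * (x i : ℤ) =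
      ((∑ i ∈ B, x i : ℕ) : ℤ) - ((∑ i ∈ B', x i : ℕ) : ℤ) := by
  simp only [sub_mul, Finset.sum_sub_distrib, ite_mul, one_mul, zero_mul]
  push_cast
  rw [← Finset.sum_filter, ← Finset.sum_filter]
  simp

private theorem pa_cp_iff (B₀ : Finset I) (b : Option I → ℕ) :
    (∀ c ∈ Cp a w S D P B₀, c.2 ≤ ∑ i, c.1 i * (b i : ℤ)) ↔
      (∀ g ∈ S, pair (w g) (fun i => b (some i)) + (∑ i, w g i) + 1 = b none) ∧
      (∀ g ∈ P.T, pair (w g) (fun i => b (some i)) + (∑ i, w g i) = b none + P.off g) ∧
      (∀ B ∈ P.BB, ∑ i ∈ B₀, b (some i) ≤ ∑ i ∈ B, b (some i)) ∧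
      (∀ B, IsBas a (DT w D P.T) B → B ∈ P.BB → ∑ i ∈ B, b (some i) ≤ ∑ i ∈ B₀, b (some i)) ∧
      (∀ B, IsBas a (DT w D P.T) B → B ∉ P.BB →
        (∑ i ∈ B, b (some i)) + 1 ≤ ∑ i ∈ B₀, b (some i)) ∧
      (∀ g, g ∉ S → g ∉ P.T → ∀ c ∈ Cc a (DT w D P.T) B₀,
        (Hb w : ℤ) + b none ≤ ∑ j, cform a (DT w D P.T) (w g) c j * (b (some j) : ℤ) +
          ∑ i, (w g i : ℤ)) := by
  classical
  have e1 : ∀ g, ∑ i, (w g i : ℤ) * (b (some i) : ℤ) =
      ((pair (w g) (fun i => b (some i)) : ℕ) : ℤ) := fun g => (pa_pair_cast _ _).symm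
  have e2 : ∀ g, ∑ i, (-(w g i : ℤ)) * (b (some i) : ℤ) =
      -((pair (w g) (fun i => b (some i)) : ℕ) : ℤ) := by
    intro g
    rw [← e1, ← Finset.sum_neg_distrib]
    exact Finset.sum_congr rfl fun i _ => by ring
  have e3 : ∀ g, ((∑ i, w g i : ℕ) : ℤ) = ∑ i, (w g i : ℤ) := fun g => by push_cast; rfl
  constructor
  · intro h
    have hmem : ∀ c, c ∈ Cp a w S D P B₀ → c.2 ≤ ∑ i, c.1 i * (b i : ℤ) := h
    refine ⟨?_, ?_, ?_, ?_, ?_, ?_⟩
    · intro g hg
      have h1 := hmem (fo (fun i => (w g i : ℤ)) (-1), -(∑ i, (w g i : ℤ)) - 1) (by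
        unfold Cp
        simp only [Finset.mem_union]
        exact Or.inl (Or.inl (Or.inl (Or.inl (Or.inl (Or.inl (Finset.mem_image_of_mem _ hg)))))))
      have h2 := hmem (fo (fun i => -(w g i : ℤ)) 1, (∑ i, (w g i : ℤ)) + 1) (by
        unfold Cp
        simp only [Finset.mem_union]
        exact Or.inl (Or.inl (Or.inl (Or.inl (Or.inl (Or.inr (Finset.mem_image_of_mem _ hg)))))))
      simp only at h1 h2
      rw [sum_fo] at h1 h2
      rw [e1] at h1
      rw [e2] at h2
      have := e3 g
      omega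
    · intro g hg
      have h1 := hmem (fo (fun i => (w g i : ℤ)) (-1), (P.off g : ℤ) - ∑ i, (w g i : ℤ)) (by
        unfold Cp
        simp only [Finset.mem_union]
        exact Or.inl (Or.inl (Or.inl (Or.inl (Or.inr (Finset.mem_image_of_mem _ hg))))))
      have h2 := hmem (fo (fun i => -(w g i : ℤ)) 1, (∑ i, (w g i : ℤ)) - P.off g) (by
        unfold Cp
        simp only [Finset.mem_union]
        exact Or.inl (Or.inl (Or.inl (Or.inr (Finset.mem_image_of_mem _ hg)))))
      simp only at h1 h2
      rw [sum_fo] at h1 h2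
      rw [e1] at h1
      rw [e2] at h2
      have := e3 g
      omega
    · intro B hB
      have h1 := hmem (fo (fun i => (if i ∈ B then 1 else 0) - (if i ∈ B₀ then 1 else 0)) 0, 0) (by
        unfold Cp
        simp only [Finset.mem_union]
        refine Or.inl (Or.inl (Or.inr ?_))
        exact Finset.mem_image.2 ⟨B, hB, rfl⟩)
      simp only at h1
      rw [sum_fo, pa_sum_ind] at h1
      omega
    · intro B hB hBB
      have h1 := hmem (fo (fun i => (if i ∈ B₀ then 1 else 0) - (if i ∈ B then 1 else 0)) 0,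
          if B ∈ P.BB then 0 else 1) (by
        unfold Cp
        simp only [Finset.mem_union]
        refine Or.inl (Or.inr ?_)
        exact Finset.mem_image.2 ⟨B, Finset.mem_filter.2 ⟨Finset.mem_univ _, hB⟩, rfl⟩)
      simp only at h1
      rw [sum_fo, pa_sum_ind, if_pos hBB] at h1
      omega
    · intro B hB hBB
      have h1 := hmem (fo (fun i => (if i ∈ B₀ then 1 else 0) - (if i ∈ B then 1 else 0)) 0,
          if B ∈ P.BB then 0 else 1) (by
        unfold Cp
        simp only [Finset.mem_union]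
        refine Or.inl (Or.inr ?_)
        exact Finset.mem_image.2 ⟨B, Finset.mem_filter.2 ⟨Finset.mem_univ _, hB⟩, rfl⟩)
      simp only at h1
      rw [sum_fo, pa_sum_ind, if_neg hBB] at h1
      omega
    · intro g hg hgT c hc
      have h1 := hmem (fo (cform a (DT w D P.T) (w g) c) (-1), (Hb w : ℤ) - ∑ i, (w g i : ℤ)) (by
        unfold Cp
        simp only [Finset.mem_union]
        refine Or.inr ?_
        exact Finset.mem_image.2 ⟨(g, c), Finset.mem_filter.2 ⟨Finset.mem_univ _, hg, hgT, hc⟩, rfl⟩)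
      simp only at h1
      rw [sum_fo] at h1
      linarith
  · rintro ⟨hs, ht, hb1, hb2, hb3, hc⟩ c hcm
    unfold Cp at hcm
    simp only [Finset.mem_union, or_assoc] at hcm
    rcases hcm with h | h | h | h | h | h | h
    · obtain ⟨g, hg, rfl⟩ := Finset.mem_image.1 h
      simp only
      rw [sum_fo, e1]
      have := hs g hg
      have := e3 g
      omega
    · obtain ⟨g, hg, rfl⟩ := Finset.mem_image.1 h
      simp only
      rw [sum_fo, e2]
      have := hs g hg
      have := e3 g
      omega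
    · obtain ⟨g, hg, rfl⟩ := Finset.mem_image.1 h
      simp only
      rw [sum_fo, e1]
      have := ht g hg
      have := e3 g
      omega
    · obtain ⟨g, hg, rfl⟩ := Finset.mem_image.1 h
      simp only
      rw [sum_fo, e2]
      have := ht g hg
      have := e3 g
      omega
    · obtain ⟨B, hB, rfl⟩ := Finset.mem_image.1 h
      simp only
      rw [sum_fo, pa_sum_ind]
      have := hb1 B hB
      omega
    · obtain ⟨B, hB, rfl⟩ := Finset.mem_image.1 h
      simp only
      rw [sum_fo, pa_sum_ind]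
      have hB' := (Finset.mem_filter.1 hB).2
      by_cases hBB : B ∈ P.BB
      · rw [if_pos hBB]
        have := hb2 B hB' hBB
        omega
      · rw [if_neg hBB]
        have := hb3 B hB' hBB
        omega
    · obtain ⟨⟨g, c⟩, hgc, rfl⟩ := Finset.mem_image.1 h
      have h2 := (Finset.mem_filter.1 hgc).2
      simp only at h2 ⊢
      rw [sum_fo]
      have := hc g h2.1 h2.2.1 c h2.2.2
      linarith

theorem inP_iffX (ha : ∀ i, a i ≠ 0) (hD : ∀ g ∈ S, ∀ i, w g i ≠ 0 → i ∈ D)
    (hP : LF.IsPat a w S D K₁ mh₁ P) {B₀ : Finset I} (hB₀ : B₀ ∈ P.BB) (b : Option I → ℕ) :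
    LF.InP (LF.Zp w D P) (LF.Cp a w S D P B₀) b ↔
      1 ≤ b none ∧ (∀ i, i ∉ LF.DT w D P.T → b (some i) = 0) ∧
      (∀ i ∈ LF.DT w D P.T, LF.clo a (LF.DT w D P.T) (fun j => b (some j)) i = b (some i)) ∧
      LF.IsPat a w S D (b none) (LF.clo a (LF.DT w D P.T) (fun j => b (some j))) P := by
  have hbasBB : ∀ B ∈ P.BB, IsBas a (DT w D P.T) B := fun B hB => ((hP.BB B).1 hB).1
  have hsupp : ∀ g, g ∈ S ∨ g ∈ P.T → (∀ i ∈ DT w D P.T,
      clo a (DT w D P.T) (fun j => b (some j)) i = b (some i)) →
      pair (w g) (fun i => clo a (DT w D P.T) (fun j => b (some j)) i + 1) =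
        pair (w g) (fun i => b (some i)) + ∑ i, w g i := by
    intro g hg hmh
    rw [pa_pair_add_one]
    congr 1
    refine pa_pair_congr fun i hi => ?_
    exact hmh i (supp_leX hD hg hi)
  unfold InP
  rw [pa_cp_iff]
  constructor
  · rintro ⟨hz, hp, hs, ht, hb1, hb2, hb3, hc⟩
    have hmax : ∀ B ∈ P.BB, MaxB a (DT w D P.T) (fun i => b (some i)) B := by
      refine maxB_of_ineq hP (fun i => b (some i)) B₀ ?_ ?_
      · intro B hB
        exact le_antisymm (hb2 B (hbasBB B hB) hB) (hb1 B hB)
      · intro B hB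
        by_cases hBB : B ∈ P.BB
        · exact hb2 B hB hBB
        · have := hb3 B hB hBB
          omega
    have hmh : ∀ i ∈ DT w D P.T,
        clo a (DT w D P.T) (fun j => b (some j)) i = b (some i) := fun i hi =>
      clo_eq_self ha hP (fun i => b (some i)) hmax hi
    refine ⟨?_, ?_, hmh, ?_⟩
    · exact hp none (by rintro ⟨i, hi, _⟩; cases hi)
    · intro i hi
      exact hz (some i) ⟨i, rfl, Or.inl hi⟩
    · refine ⟨?_, ?_, ?_, ?_, hP.off0, ?_, ?_⟩
      · intro i
        exact clo_clo ha (Finset.Subset.refl _) i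
      · intro g hg
        rw [hsupp g (Or.inl hg) hmh]
        exact hs g hg
      · intro g
        constructor
        · intro hg
          refine ⟨((hP.T g).1 hg).1, ?_⟩
          rw [hsupp g (Or.inr hg) hmh, ht g hg]
          have h1 := hP.off g hg
          have h2 := ((hP.T g).1 hg).2
          omega
        · rintro ⟨hgS, hlt⟩
          by_contra hgT
          obtain ⟨c, hcC, hce⟩ := exists_pair_clo_eq ha (hmax B₀ hB₀) hmh
          have h1 := hc g hgS hgT c hcC
          have h2 := hce (w g)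
          rw [pa_pair_add_one] at hlt
          rw [← h2] at h1
          have h3 : ((∑ i, w g i : ℕ) : ℤ) = ∑ i, (w g i : ℤ) := by push_cast; rfl
          omega
      · intro g hg
        rw [hsupp g (Or.inr hg) hmh]
        exact ht g hg
      · intro B
        rw [maxB_congr (x := clo a (DT w D P.T) (fun j => b (some j)))
          (x' := fun i => b (some i)) hmh]
        constructor
        · exact hmax B
        · intro hB
          by_contra hBB
          have h1 := hb3 B hB.1 hBB
          have h2 := hB.weight_le (hbasBB B₀ hB₀)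
          omega
      · intro i
        constructor
        · intro hi
          have hi' := ((hP.Z0 i).1 hi).1
          refine ⟨hi', ?_⟩
          rw [hmh i hi']
          exact hz (some i) ⟨i, rfl, Or.inr hi⟩
        · rintro ⟨hi, h0⟩
          rw [hmh i hi] at h0
          by_contra hZ
          have := hp (some i) (by
            rintro ⟨j, hj, hj'⟩
            cases hj
            rcases hj' with h | h
            · exact h hi
            · exact hZ h)
          omega
  · rintro ⟨hK, hX, hmh, hP'⟩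
    have hmax : ∀ B, B ∈ P.BB ↔ MaxB a (DT w D P.T) (fun i => b (some i)) B := by
      intro B
      rw [hP'.BB B]
      exact maxB_congr hmh
    have hB₀m := (hmax B₀).1 hB₀
    refine ⟨?_, ?_, ?_, ?_, ?_, ?_, ?_, ?_⟩
    · rintro o ⟨i, rfl, hi⟩
      rcases hi with hi | hi
      · exact hX i hi
      · have := (hP'.Z0 i).1 hi
        rw [← hmh i this.1]
        exact this.2
    · intro o ho
      cases o with
      | none => exact hK
      | some i =>
        have hi : i ∈ DT w D P.T := by
          by_contra h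
          exact ho ⟨i, rfl, Or.inl h⟩
        have hZ : i ∉ P.Z0 := fun h => ho ⟨i, rfl, Or.inr h⟩
        by_contra h0
        apply hZ
        rw [hP'.Z0]
        refine ⟨hi, ?_⟩
        rw [hmh i hi]
        omega
    · intro g hg
      have := hP'.sx g hg
      rw [hsupp g (Or.inl hg) hmh] at this
      exact this
    · intro g hg
      have := hP'.off g hg
      rw [hsupp g (Or.inr hg) hmh] at this
      exact this
    · intro B hB
      exact ((hmax B).1 hB).weight_le hB₀m.1
    · intro B hB hBB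
      exact hB₀m.weight_le hB
    · intro B hB hBB
      have h1 := hB₀m.weight_le hB
      by_contra hlt
      apply hBB
      rw [hmax]
      refine hB₀m.of_weight hB ?_
      omega
    · intro g hgS hgT c hcC
      have h1 : ¬ (pair (w g) (fun i => clo a (DT w D P.T) (fun j => b (some j)) i + 1) <
          b none + Hb w) := fun h => hgT ((hP'.T g).2 ⟨hgS, h⟩)
      rw [pa_pair_add_one] at h1
      have h2 := pair_clo_le ha hB₀m hmh (w g) hcC
      have h3 : ((∑ i, w g i : ℕ) : ℤ) = ∑ i, (w g i : ℤ) := by push_cast; rfl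
      omega

end LFM
end MotMono
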