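import Pool.Agent.Lib.MP_4e5fcd_ag.LFM.PA
import Pool.Agent.Lib.MP_4e5fcd_ag.LF.P6

/-!
# LFM-PB: extreme rays of the polyhedron of a pattern

`D' = DT w D P.T`, `y j = u (some j)`, `uh = clo a D' y`.
`ray_basic` (`u` is a vector of the recession cone, not necessarily an extreme ray): as in `ray_data` (LF/P5; the proof only
uses `zero`, `nonneg`, and `hD` for `supp_le`): `y = 0` off `D'`
(`Zp`), `∑_B y = ∑_{B₀} y` (`B ∈ BB`), `∑_B y ≤ ∑_{B₀} y` for all bases of `D'`, so `maxB_of_ineq`, `clo_eq_self`;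
`pair (w g) uh = u none` for `g ∈ S ∪ T` (supports in `D'`), `≥ u none` for the others (`exists_pair_clo_eq`);
`nu a uh = ∑_{B₀} y` (`nu_clo`).
`ray_zero`: `u none = 0`. For `g ∈ S ∪ T`: `∑ w g i y i = 0`, so `y i = 0` if `w g i ≠ 0`. Let `y k ≠ 0`; then `k ∈ D'`, and
`k ∈ D` (otherwise `k` is in the support of some `g ∈ T`), `k ∈ X` by `hDX`. Let `B ∈ P.BB`: by `MaxB`
`a k ∈ sp {b ∈ B : y b ≥ y k}`; these `b` have `y b ≠ 0`, so they are in `X`; `X` is independent (`hX`), so
`k ∈ B` (`LinearIndepOn` and membership in the span of a subset).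
`ray_essX`: `u` an `ExtRay`, `0 < u none` (`ray_basic` applies to `u` by `hu.zero`, `hu.nonneg`). `mn w uh = u none`: `≥` by `ray_basic`; equality if `S ∪ T` is not empty. Otherwise suppose
`pair (w g) uh > u none` for all `g`. Put `Y none = 1`, `Y (some i) = 0`. All `l ∈ (Cp ..).image fst` with `l · u = 0`
have `l · Y = 0`: for `S = T = ∅` only the choice inequalities involve `none`, and
`cform · y - u none ≥ pair (w g) uh - u none > 0` (`pair_clo_le`). So `Y = c u` by `ext`, `c ≠ 0`, `y = 0`, `uh = 0`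
(`clo` of `0`), `pair (w g) uh = 0 < u none`, a contradiction (`Nonempty Γ`).
`EssX a w X uh`: as `ray_ess` (LF/P6), with `DuX w X uh` in place of `Du w uh`: (i) `i ∈ D'`, `y i ≠ 0` implies
`i ∈ DuX`: `i ∈ D`: `i ∈ X` or `w g i ≠ 0` for some `g ∈ S ⊆ Fc w uh`; or `w g i ≠ 0`, `g ∈ T ⊆ Fc w uh`. The rest of
the proof is the same.
`prim`: as in `ray_data`: if `S ∪ T` is not empty and `e` divides all `uh i`, it divides `pair (w g) uh = u none` and
all `y i = uh i` (`i ∈ D'`).
-/

open MvPolynomial

namespace MotMono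
namespace LFM

variable {I Γ : Type} [Fintype I] [Fintype Γ] {s : ℕ} {a : I → Fin s → ℂ} {w : Γ → I → ℕ}
  {S : Finset Γ} {D : Finset I} {K₁ : ℕ} {mh₁ : I → ℕ} {P : LF.Pat I Γ}

open Classical in
/-- the basic properties of a ray -/
structure RayB (a : I → Fin s → ℂ) (w : Γ → I → ℕ) (S : Finset Γ) (D : Finset I)
    (P : LF.Pat I Γ) (B₀ : Finset I) (u : Option I → ℕ) : Prop where
  zero : ∀ i, i ∉ LF.DT w D P.T → u (some i) = 0
  maxB : ∀ B ∈ P.BB, LF.MaxB a (LF.DT w D P.T) (fun j => u (some j)) B
  clo : ∀ i ∈ LF.DT w D P.T, LF.clo a (LF.DT w D P.T) (fun j => u (some j)) i = u (some i)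
  eq : ∀ g, g ∈ S ∨ g ∈ P.T →
    pair (w g) (LF.clo a (LF.DT w D P.T) fun j => u (some j)) = u none
  le : ∀ g, u none ≤ pair (w g) (LF.clo a (LF.DT w D P.T) fun j => u (some j))
  nu : LF.nu a (LF.clo a (LF.DT w D P.T) fun j => u (some j)) = ∑ b ∈ B₀, u (some b)

section
open LF

private theorem pb_cform_fo {D' : Finset I} (v : I → ℕ) (c : I → I) (u : Option I → ℕ) :
    ∑ o, fo (cform a D' v c) (-1) o * (u o : ℤ) =
      -(u none : ℤ) + ∑ j, cform a D' v c j * (u (some j) : ℤ) := by
  rw [sum_fo]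
  ring

end

open LF

open Classical in
theorem ray_basic (ha : ∀ i, a i ≠ 0) (hD : ∀ g ∈ S, ∀ i, w g i ≠ 0 → i ∈ D)
    (hP : LF.IsPat a w S D K₁ mh₁ P) {B₀ : Finset I} (hB₀ : B₀ ∈ P.BB) {u : Option I → ℕ}
    (hz : ∀ i ∈ LF.Zp w D P, u i = 0)
    (hn : ∀ l ∈ (LF.Cp a w S D P B₀).image Prod.fst, 0 ≤ ∑ i, l i * (u i : ℤ)) :
    RayB a w S D P B₀ u := by
  -- the inequalities
  have hnn : ∀ c ∈ Cp a w S D P B₀, 0 ≤ ∑ o, c.1 o * (u o : ℤ) := fun c hc =>
    hn c.1 (Finset.mem_image_of_mem _ hc)
  have hz : ∀ i, i ∉ DT w D P.T → u (some i) = 0 := fun i hi =>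
    hz (some i) ⟨i, rfl, Or.inl hi⟩
  have hST : ∀ g, (g ∈ S ∨ g ∈ P.T) → pair (w g) (fun j => u (some j)) = u none := by
    intro g hg
    have hle : 0 ≤ ∑ o, fo (fun i => (w g i : ℤ)) (-1) o * (u o : ℤ) := by
      rcases hg with hg | hg
      · refine hnn (fo (fun i => (w g i : ℤ)) (-1), -(∑ i, (w g i : ℤ)) - 1) ?_
        simp only [Cp, Finset.mem_union]
        exact Or.inl (Or.inl (Or.inl (Or.inl (Or.inl (Or.inl
          (Finset.mem_image_of_mem (fun g => (fo (fun i => (w g i : ℤ)) (-1),
            -(∑ i, (w g i : ℤ)) - 1)) hg))))))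
      · refine hnn (fo (fun i => (w g i : ℤ)) (-1), (P.off g : ℤ) - ∑ i, (w g i : ℤ)) ?_
        simp only [Cp, Finset.mem_union]
        exact Or.inl (Or.inl (Or.inl (Or.inl (Or.inr
          (Finset.mem_image_of_mem (fun g => (fo (fun i => (w g i : ℤ)) (-1),
            (P.off g : ℤ) - ∑ i, (w g i : ℤ))) hg)))))
    have hge : 0 ≤ ∑ o, fo (fun i => -(w g i : ℤ)) 1 o * (u o : ℤ) := by
      rcases hg with hg | hg
      · refine hnn (fo (fun i => -(w g i : ℤ)) 1, (∑ i, (w g i : ℤ)) + 1) ?_
        simp only [Cp, Finset.mem_union]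
        exact Or.inl (Or.inl (Or.inl (Or.inl (Or.inl (Or.inr
          (Finset.mem_image_of_mem (fun g => (fo (fun i => -(w g i : ℤ)) 1,
            (∑ i, (w g i : ℤ)) + 1)) hg))))))
      · refine hnn (fo (fun i => -(w g i : ℤ)) 1, (∑ i, (w g i : ℤ)) - P.off g) ?_
        simp only [Cp, Finset.mem_union]
        exact Or.inl (Or.inl (Or.inl (Or.inr
          (Finset.mem_image_of_mem (fun g => (fo (fun i => -(w g i : ℤ)) 1,
            (∑ i, (w g i : ℤ)) - (P.off g : ℤ))) hg))))
    rw [sum_fo] at hle hge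
    have e : ∑ i, -(w g i : ℤ) * (u (some i) : ℤ) = -∑ i, (w g i : ℤ) * (u (some i) : ℤ) := by
      rw [← Finset.sum_neg_distrib]
      exact Finset.sum_congr rfl fun i _ => by ring
    rw [e] at hge
    have h1 : ((pair (w g) (fun j => u (some j)) : ℕ) : ℤ) = (u none : ℤ) := by
      rw [pair]
      push_cast
      linarith
    exact_mod_cast h1
  have hsum : ∀ (B : Finset I), ∑ i, ((if i ∈ B then 1 else 0 : ℤ)) * (u (some i) : ℤ) =
      ((∑ b ∈ B, u (some b) : ℕ) : ℤ) := by
    intro B
    push_cast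
    simp [Finset.sum_ite_mem]
  have hdiff : ∀ (B B' : Finset I),
      ∑ o, fo (fun i => (if i ∈ B then 1 else 0) - (if i ∈ B' then 1 else 0)) 0 o * (u o : ℤ) =
        ((∑ b ∈ B, u (some b) : ℕ) : ℤ) - ((∑ b ∈ B', u (some b) : ℕ) : ℤ) := by
    intro B B'
    rw [sum_fo, ← hsum, ← hsum, ← Finset.sum_sub_distrib, zero_mul, zero_add]
    exact Finset.sum_congr rfl fun i _ => by ring
  have hbas : ∀ B, IsBas a (DT w D P.T) B → ∑ b ∈ B, u (some b) ≤ ∑ b ∈ B₀, u (some b) := by
    intro B hB
    have h := hnn (fo (fun i => (if i ∈ B₀ then 1 else 0) - (if i ∈ B then 1 else 0)) 0,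
      if B ∈ P.BB then 0 else 1) (by
        simp only [Cp, Finset.mem_union]
        exact Or.inl (Or.inr (Finset.mem_image_of_mem (fun B =>
          (fo (fun i => (if i ∈ B₀ then 1 else 0) - (if i ∈ B then 1 else 0)) 0,
            if B ∈ P.BB then (0 : ℤ) else 1)) (Finset.mem_filter.mpr ⟨Finset.mem_univ B, hB⟩))))
    simp only at h
    rw [hdiff] at h
    have h' := sub_nonneg.mp h
    exact_mod_cast h'
  have hBB : ∀ B ∈ P.BB, ∑ b ∈ B, u (some b) = ∑ b ∈ B₀, u (some b) := by
    intro B hB
    refine le_antisymm (hbas B ((hP.BB B).1 hB).1) ?_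
    have h := hnn (fo (fun i => (if i ∈ B then 1 else 0) - (if i ∈ B₀ then 1 else 0)) 0,
      0) (by
        simp only [Cp, Finset.mem_union]
        exact Or.inl (Or.inl (Or.inr (Finset.mem_image_of_mem (fun B =>
          (fo (fun i => (if i ∈ B then 1 else 0) - (if i ∈ B₀ then 1 else 0)) 0,
            (0 : ℤ))) hB))))
    simp only at h
    rw [hdiff] at h
    have h' := sub_nonneg.mp h
    exact_mod_cast h'
  have hcc : ∀ g, g ∉ S → g ∉ P.T → ∀ c ∈ Cc a (DT w D P.T) B₀,
      (u none : ℤ) ≤ ∑ j, cform a (DT w D P.T) (w g) c j * (u (some j) : ℤ) := by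
    intro g hS hT c hc
    have h := hnn (fo (cform a (DT w D P.T) (w g) c) (-1), (Hb w : ℤ) - ∑ i, (w g i : ℤ)) (by
        simp only [Cp, Finset.mem_union]
        exact Or.inr (Finset.mem_image_of_mem (fun gc : Γ × (I → I) =>
          (fo (cform a (DT w D P.T) (w gc.1) gc.2) (-1), (Hb w : ℤ) - ∑ i, (w gc.1 i : ℤ)))
          (Finset.mem_filter.mpr ⟨Finset.mem_univ (g, c), hS, hT, hc⟩)))
    simp only at h
    rw [pb_cform_fo] at h
    linarith
  have hmax : ∀ B ∈ P.BB, MaxB a (DT w D P.T) (fun j => u (some j)) B :=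
    maxB_of_ineq hP (fun j => u (some j)) B₀ hBB hbas
  have hclo : ∀ i ∈ DT w D P.T, clo a (DT w D P.T) (fun j => u (some j)) i = u (some i) :=
    fun i hi => clo_eq_self ha hP (fun j => u (some j)) hmax hi
  have hpST : ∀ g, (g ∈ S ∨ g ∈ P.T) →
      pair (w g) (clo a (DT w D P.T) (fun j => u (some j))) = u none := by
    intro g hg
    rw [← hST g hg, pair, pair]
    refine Finset.sum_congr rfl fun i _ => ?_
    by_cases hi : w g i = 0
    · simp [hi]
    · rw [hclo i (supp_leX hD hg hi)]
  have hall : ∀ g, u none ≤ pair (w g) (clo a (DT w D P.T) (fun j => u (some j))) := by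
    intro g
    by_cases hg : g ∈ S ∨ g ∈ P.T
    · exact (hpST g hg).ge
    · rw [not_or] at hg
      obtain ⟨c, hc, hc'⟩ := exists_pair_clo_eq ha (hmax B₀ hB₀) hclo
      have h := hcc g hg.1 hg.2 c hc
      rw [← hc' (w g)] at h
      exact_mod_cast h
  refine ⟨hz, hmax, hclo, hpST, hall, ?_⟩
  exact nu_clo ha (hmax B₀ hB₀)

open Classical in
theorem ray_zero {X : Finset I} (hX : LinearIndepOn ℂ a (X : Set I))
    (hDX : ∀ i ∈ D, i ∈ X ∨ ∃ g ∈ S, w g i ≠ 0) {B₀ : Finset I} {u : Option I → ℕ}
    (hR : RayB a w S D P B₀ u) (h0 : u none = 0) (k : I) (hk : u (some k) ≠ 0) :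
    k ∈ X ∧ (∀ g, g ∈ S ∨ g ∈ P.T → w g k = 0) ∧ ∀ B ∈ P.BB, k ∈ B := by
  have h00 : ∀ j, u (some j) ≠ 0 → ∀ g, g ∈ S ∨ g ∈ P.T → w g j = 0 := by
    intro j hj g hg
    by_contra hw
    have h1 := hR.eq g hg
    rw [h0, pair, Finset.sum_eq_zero_iff] at h1
    have h2 := h1 j (Finset.mem_univ j)
    rcases Nat.mul_eq_zero.mp h2 with h3 | h3
    · exact hw h3
    · by_cases hjD : j ∈ LF.DT w D P.T
      · rw [hR.clo j hjD] at h3
        exact hj h3
      · exact hj (hR.zero j hjD)
  have hXj : ∀ j, u (some j) ≠ 0 → j ∈ X := by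
    intro j hj
    have hjD : j ∈ LF.DT w D P.T := by
      by_contra h
      exact hj (hR.zero j h)
    have h1 := (Finset.mem_filter.mp hjD).2
    rcases h1 with h1 | ⟨g, hg, hw⟩
    · rcases hDX j h1 with h2 | ⟨g, hg, hw⟩
      · exact h2
      · exact absurd (h00 j hj g (Or.inl hg)) hw
    · exact absurd (h00 j hj g (Or.inr hg)) hw
  refine ⟨hXj k hk, h00 k hk, fun B hB => ?_⟩
  have hkD : k ∈ LF.DT w D P.T := by
    by_contra h
    exact hk (hR.zero k h)
  have h1 := (hR.maxB B hB).2 k hkD
  have hsub : {b | b ∈ B ∧ u (some k) ≤ u (some b)} ⊆ (X : Set I) := by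
    rintro b ⟨-, hb⟩
    exact Finset.mem_coe.2 (hXj b (by omega))
  have h2 : k ∈ {b | b ∈ B ∧ u (some k) ≤ u (some b)} := by
    by_contra hk'
    have h3 : LinearIndepOn ℂ a (insert k {b | b ∈ B ∧ u (some k) ≤ u (some b)}) :=
      hX.mono (Set.insert_subset (Finset.mem_coe.2 (hXj k hk)) hsub)
    exact ((linearIndepOn_insert hk').1 h3).2 h1
  exact h2.1

open Classical in
theorem ray_essX [Nonempty Γ] (ha : ∀ i, a i ≠ 0) (hD : ∀ g ∈ S, ∀ i, w g i ≠ 0 → i ∈ D)
    {X : Finset I} (hDX : ∀ i ∈ D, i ∈ X ∨ ∃ g ∈ S, w g i ≠ 0)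
    (hP : LF.IsPat a w S D K₁ mh₁ P) {B₀ : Finset I} (hB₀ : B₀ ∈ P.BB) {u : Option I → ℕ}
    (hu : ExtRay (LF.Zp w D P) ((LF.Cp a w S D P B₀).image Prod.fst) u) (h0 : 0 < u none) :
    LF.mn w (LF.clo a (LF.DT w D P.T) fun j => u (some j)) = u none ∧
      S ⊆ LF.Fc w (LF.clo a (LF.DT w D P.T) fun j => u (some j)) ∧
      P.T ⊆ LF.Fc w (LF.clo a (LF.DT w D P.T) fun j => u (some j)) ∧
      EssX a w X (LF.clo a (LF.DT w D P.T) fun j => u (some j)) := by
  have Rd := ray_basic ha hD hP hB₀ hu.zero hu.nonneg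
  have hsupp : ∀ g, g ∈ S ∨ g ∈ P.T → ∀ i, i ∉ DT w D P.T → w g i = 0 := by
    intro g hg i hi
    by_contra hc
    exact hi (supp_leX hD hg hc)
  have hBm := Rd.maxB B₀ hB₀
  have hzero := Rd.zero
  have hclo := Rd.clo
  have heq := Rd.eq
  have hle := Rd.le
  have hmaxB := Rd.maxB
  clear Rd
  have hDTm : ∀ i ∈ DT w D P.T, i ∈ X ∨ ∃ g, (g ∈ S ∨ g ∈ P.T) ∧ w g i ≠ 0 := by
    intro i hi
    unfold DT at hi
    rw [Finset.mem_filter] at hi
    rcases hi.2 with h | ⟨g, hg, h⟩
    · rcases hDX i h with h | ⟨g, hg, h⟩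
      · exact Or.inl h
      · exact Or.inr ⟨g, Or.inl hg, h⟩
    · exact Or.inr ⟨g, Or.inr hg, h⟩
  set D' : Finset I := DT w D P.T with hD'
  set y : I → ℕ := fun j => u (some j) with hy
  set uh : I → ℕ := clo a D' y with huh
  have hyu : ∀ i ∈ D', uh i = y i := hclo
  -- the minimal order
  have hmn : mn w uh = u none := by
    apply le_antisymm
    · by_contra hlt
      push Not at hlt
      have hno : ∀ g, u none < pair (w g) uh := fun g => lt_of_lt_of_le hlt (mn_le w uh g)
      have hnST : ∀ g, ¬ (g ∈ S ∨ g ∈ P.T) := fun g hg => absurd (heq g hg) (hno g).ne'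
      obtain ⟨c, hc⟩ := hu.ext (fun o => o.elim 1 (fun _ => 0)) (by
        intro o ho
        cases o with
        | none => exact absurd ho h0.ne'
        | some i => rfl) (by
        intro l hl hl0
        rw [Finset.mem_image] at hl
        obtain ⟨⟨l', s'⟩, hmem, hll⟩ := hl
        simp only at hll
        subst hll
        unfold Cp at hmem
        rw [← hD'] at hmem
        simp only [Finset.mem_union, Finset.mem_image, Prod.mk.injEq, Finset.mem_filter,
          Finset.mem_univ, true_and] at hmem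
        rcases hmem with (((((h | h) | h) | h) | h) | h) | h
        · obtain ⟨g, hg, _⟩ := h
          exact absurd (Or.inl hg) (hnST g)
        · obtain ⟨g, hg, _⟩ := h
          exact absurd (Or.inl hg) (hnST g)
        · obtain ⟨g, hg, _⟩ := h
          exact absurd (Or.inr hg) (hnST g)
        · obtain ⟨g, hg, _⟩ := h
          exact absurd (Or.inr hg) (hnST g)
        · obtain ⟨B, hB, rfl, _⟩ := h
          rw [p6_sum_fo]
          simp
        · obtain ⟨B, hB, rfl, _⟩ := h
          rw [p6_sum_fo]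
          simp
        · obtain ⟨⟨g, c⟩, ⟨hgS, hgT, hcc'⟩, rfl, _⟩ := h
          exfalso
          simp only at hgS hgT hcc' hl0
          rw [sum_fo] at hl0
          have hle' := pair_clo_le ha hBm hyu (w g) hcc'
          have h1 : (pair (w g) uh : ℤ) ≤ u none := by linarith
          have h2 : pair (w g) uh ≤ u none := by exact_mod_cast h1
          exact absurd h2 (not_le.2 (hno g)))
      have hc0 : c ≠ 0 := by
        rintro rfl
        have := hc none
        simp at this
      have hy0 : ∀ i, y i = 0 := by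
        intro i
        have := hc (some i)
        simp only [Option.elim_some] at this
        rcases mul_eq_zero.1 this.symm with h | h
        · exact absurd h hc0
        · exact_mod_cast h
      have huh0 : ∀ i, uh i = 0 := by
        intro i
        by_contra hi
        obtain ⟨j, _, hj⟩ := exists_clo_value (ha i) (Nat.pos_of_ne_zero hi)
        rw [hy0 j] at hj
        exact hi hj.symm
      obtain ⟨g⟩ := (inferInstance : Nonempty Γ)
      have h1 := hno g
      rw [pair, Finset.sum_eq_zero fun i _ => by rw [huh0 i, mul_zero]] at h1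
      omega
    · refine le_csInf (Set.range_nonempty _) ?_
      rintro _ ⟨g', rfl⟩
      exact hle g'
  have hFc : ∀ g, (g ∈ S ∨ g ∈ P.T) → g ∈ Fc w uh := by
    intro g hg
    rw [Fc, Finset.mem_filter]
    refine ⟨Finset.mem_univ g, fun g' => ?_⟩
    rw [heq g hg]
    exact hle g'
  have hpos : 0 < u none := h0
  have hE : ∀ i, i ∈ DuX w X uh ↔ uh i ≠ 0 ∧ (i ∈ X ∨ ∃ g ∈ Fc w uh, w g i ≠ 0) := by
    intro i
    unfold DuX
    rw [Finset.mem_filter]
    exact ⟨fun h => h.2, fun h => ⟨Finset.mem_univ _, h⟩⟩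
  have hST := hFc
  have hDE : ∀ i ∈ D', uh i ≠ 0 → i ∈ DuX w X uh := by
    intro i hi h0
    rcases hDTm i hi with h | ⟨g, hg, hgi⟩
    · exact (hE i).2 ⟨h0, Or.inl h⟩
    · exact (hE i).2 ⟨h0, Or.inr ⟨g, hST g hg, hgi⟩⟩
  have hEne : ∀ i ∈ DuX w X uh, uh i ≠ 0 := fun i hi => ((hE i).1 hi).1
  have hcc : ∀ i, clo a D' uh i = uh i := clo_clo ha (Finset.Subset.refl _)
  refine ⟨hmn, fun g hg => hFc g (Or.inl hg), fun g hg => hFc g (Or.inr hg), ?_⟩
  -- restriction of the bases
  have hres : ∀ B, MaxB a D' y B → MaxB a (DuX w X uh) uh (B.filter fun b => uh b ≠ 0) := by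
    intro B hB
    exact MaxB.restrict ha hcc hDE hEne ((maxB_congr fun j hj => (hyu j hj).symm).1 hB)
  refine ⟨by rw [hmn]; exact hpos, ?_, ?_⟩
  · intro i
    apply le_antisymm
    · have h1 : clo a (DuX w X uh) uh i ≤ clo a Finset.univ uh i :=
        clo_mono (ha i) (Finset.subset_univ _) fun _ _ => le_rfl
      have h2 : clo a Finset.univ uh i = uh i := clo_clo ha (Finset.subset_univ _) i
      rwa [h2] at h1
    · rcases Nat.eq_zero_or_pos (uh i) with h0 | h0
      · rw [h0]
        exact Nat.zero_le _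
      · rw [le_clo_iff (ha i) h0]
        have h1 : a i ∈ sp a {j | j ∈ D' ∧ uh i ≤ y j} :=
          (le_clo_iff (ha i) h0).1 (le_refl (clo a D' y i))
        refine sp_mono ?_ h1
        rintro j ⟨hj1, hj2⟩
        have h3 : uh i ≤ uh j := by rw [hyu j hj1]; exact hj2
        exact ⟨hDE j hj1 (by omega), h3⟩
  · intro z hz hzF
    obtain ⟨g₀, hg₀F⟩ := Fc_nonempty w uh
    have hkz : ∀ g ∈ Fc w uh, pq (w g) z = pq (w g₀) z := fun g hg => hzF g hg g₀ hg₀F
    generalize pq (w g₀) z = kz at hkz
    have hz0 : ∀ i, i ∉ DuX w X uh → z i = 0 := hz.1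
    have hz00 : ∀ i, uh i = 0 → z i = 0 := fun i hi => hz0 i fun h => hEne i h hi
    -- exchange
    have hexch : ∀ i b, i ∈ DuX w X uh → b ∈ B₀ → cf a B₀ i b ≠ 0 → uh i = y b → z b = z i := by
      intro i b hi hb hc hib
      have hbD : b ∈ D' := hBm.1.1 hb
      have hub : uh b = uh i := by rw [hyu b hbD, hib]
      have hBr := hres B₀ hBm
      have hbr : b ∈ B₀.filter fun b => uh b ≠ 0 :=
        Finset.mem_filter.2 ⟨hb, by rw [hub]; exact hEne i hi⟩
      have hcf := cf_subset hBm.1.2.1 (Finset.filter_subset (fun b => uh b ≠ 0) B₀)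
        (hBr.1.2.2 i hi) b hbr
      exact LinM_exchange hz hBr hi (by rw [hcf]; exact hc) hub
    -- sums over bases
    have hsum : ∀ B, MaxB a D' y B → ∑ b ∈ B, (if b ∈ D' then z b else 0)
        = ∑ b ∈ B.filter (fun b => uh b ≠ 0), z b := by
      intro B hB
      rw [Finset.sum_filter]
      refine Finset.sum_congr rfl fun b hb => ?_
      rw [if_pos (hB.1.1 hb)]
      by_cases h0 : uh b ≠ 0
      · rw [if_pos h0]
      · rw [if_neg h0]
        exact hz00 b (not_not.1 h0)
    have hsumeq : ∀ B, MaxB a D' y B → ∑ b ∈ B, (if b ∈ D' then z b else 0)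
        = ∑ b ∈ B₀, (if b ∈ D' then z b else 0) := by
      intro B hB
      rw [hsum B hB, hsum B₀ hBm]
      exact hz.2 _ _ (hres B hB) (hres B₀ hBm)
    have hpqD : ∀ g, g ∈ S ∨ g ∈ P.T → ∑ i, ((w g i : ℤ) : ℚ) * (if i ∈ D' then z i else 0) = kz := by
      intro g hg
      rw [← hkz g (hST g hg)]
      unfold pq
      refine Finset.sum_congr rfl fun i _ => ?_
      by_cases hi : i ∈ D'
      · rw [if_pos hi]
        push_cast
        rfl
      · rw [hsupp g hg i hi]
        simp
    obtain ⟨c, hc⟩ := hu.ext (fun o => o.elim kz (fun i => if i ∈ D' then z i else 0)) (by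
      intro o ho
      cases o with
      | none => exact absurd ho hpos.ne'
      | some i =>
        show (if i ∈ D' then z i else 0) = 0
        split_ifs with hi
        · apply hz00
          rw [hyu i hi]
          exact ho
        · rfl) (by
      intro l hl hl0
      rw [Finset.mem_image] at hl
      obtain ⟨⟨l', s'⟩, hmem, hll⟩ := hl
      simp only at hll
      subst hll
      unfold Cp at hmem
      rw [← hD'] at hmem
      simp only [Finset.mem_union, Finset.mem_image, Prod.mk.injEq, Finset.mem_filter,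
        Finset.mem_univ, true_and] at hmem
      rcases hmem with (((((h | h) | h) | h) | h) | h) | h
      · obtain ⟨g, hg, rfl, _⟩ := h
        rw [p6_sum_fo]
        have := hpqD g (Or.inl hg)
        simp only [Option.elim_none, Option.elim_some]
        rw [this]
        push_cast
        ring
      · obtain ⟨g, hg, rfl, _⟩ := h
        rw [p6_sum_fo]
        have := hpqD g (Or.inl hg)
        simp only [Option.elim_none, Option.elim_some, Int.cast_neg, neg_mul,
          Finset.sum_neg_distrib]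
        rw [this]
        push_cast
        ring
      · obtain ⟨g, hg, rfl, _⟩ := h
        rw [p6_sum_fo]
        have := hpqD g (Or.inr hg)
        simp only [Option.elim_none, Option.elim_some]
        rw [this]
        push_cast
        ring
      · obtain ⟨g, hg, rfl, _⟩ := h
        rw [p6_sum_fo]
        have := hpqD g (Or.inr hg)
        simp only [Option.elim_none, Option.elim_some, Int.cast_neg, neg_mul,
          Finset.sum_neg_distrib]
        rw [this]
        push_cast
        ring
      · obtain ⟨B, hB, rfl, _⟩ := h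
        rw [p6_sum_fo]
        simp only [Option.elim_none, Option.elim_some]
        rw [p6_sum_ind, hsumeq B (hmaxB B hB)]
        push_cast
        ring
      · obtain ⟨B, hB, rfl, _⟩ := h
        have hBw : ∑ b ∈ B₀, (y b : ℚ) - ∑ b ∈ B, (y b : ℚ) = 0 := by
          have h1 := congrArg (fun n : ℤ => (n : ℚ)) hl0
          have h2 := p6_sum_fo (fun i => (if i ∈ B₀ then 1 else 0) - (if i ∈ B then 1 else 0)) 0
            (fun o => (u o : ℚ))
          rw [p6_sum_ind] at h2
          push_cast at h1 h2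
          rw [h1] at h2
          linarith
        have hBw' : ∑ b ∈ B₀, y b ≤ ∑ b ∈ B, y b := by
          have : ((∑ b ∈ B₀, y b : ℕ) : ℚ) = ((∑ b ∈ B, y b : ℕ) : ℚ) := by
            push_cast
            linarith
          exact le_of_eq (by exact_mod_cast this)
        have hBM : MaxB a D' y B := hBm.of_weight hB hBw'
        rw [p6_sum_fo]
        simp only [Option.elim_none, Option.elim_some]
        rw [p6_sum_ind, hsumeq B hBM]
        push_cast
        ring
      · obtain ⟨⟨g, c⟩, ⟨hgS, hgT, hcc'⟩, rfl, _⟩ := h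
        simp only at hgS hgT hcc' hl0
        rw [p6_sum_fo]
        simp only [Option.elim_none, Option.elim_some]
        have hcm : ∀ i, i ∉ D' → a i ∈ sp a (D' : Set I) → c i ∈ B₀ ∧ cf a B₀ i (c i) ≠ 0 := by
          unfold Cc at hcc'
          rw [Finset.mem_filter] at hcc'
          exact hcc'.2
        -- the order of the generator
        rw [sum_fo] at hl0
        have hle := pair_clo_le ha hBm hyu (w g) hcc'
        have hmle := mn_le w uh g
        have hpair : pair (w g) uh = u none := by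
          have h1 : (pair (w g) uh : ℤ) ≤ u none := by linarith
          rw [hmn] at hmle
          have h2 : pair (w g) uh ≤ u none := by exact_mod_cast h1
          omega
        have hgF : g ∈ Fc w uh := mem_Fc_iff.2 (by rw [hpair, hmn])
        -- the terms
        have hterm : ∀ i, w g i * uh i ≤ w g i *
            (if i ∈ D' then y i else if a i ∈ sp a (D' : Set I) then y (c i) else 0) := by
          intro i
          refine Nat.mul_le_mul_left _ ?_
          split_ifs with h1 h2
          · exact le_of_eq (hyu i h1)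
          · exact clo_le_of_cf (ha i) hBm h2 (hcm i h1 h2).2
          · exact le_of_eq (clo_eq_zero h2)
        have hsumt : ∑ i, w g i * uh i = ∑ i, w g i *
            (if i ∈ D' then y i else if a i ∈ sp a (D' : Set I) then y (c i) else 0) := by
          have h1 := sum_cform (a := a) (D' := D') (w g) c (fun j => (y j : ℚ))
          have h2 : ∑ j, (cform a D' (w g) c j : ℚ) * (y j : ℚ) = (u none : ℚ) := by
            have h3 : ∑ j, cform a D' (w g) c j * (y j : ℤ) = (u none : ℤ) := by
              linarith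
            exact_mod_cast h3
          rw [h2] at h1
          have h4 : ((∑ i, w g i * (if i ∈ D' then y i else if a i ∈ sp a (D' : Set I) then
              y (c i) else 0) : ℕ) : ℚ) = (u none : ℚ) := by
            rw [h1]
            push_cast
            rfl
          have h5 : ∑ i, w g i * (if i ∈ D' then y i else if a i ∈ sp a (D' : Set I) then
              y (c i) else 0) = u none := by exact_mod_cast h4
          rw [h5, ← hpair]
          rfl
        have hteq := (Finset.sum_eq_sum_iff_of_le fun i _ => hterm i).1 hsumt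
        have hgoal : ∑ j, (cform a D' (w g) c j : ℚ) * (if j ∈ D' then z j else 0) = kz := by
          rw [sum_cform (a := a) (D' := D') (w g) c (fun j => if j ∈ D' then z j else 0),
            ← hkz g hgF]
          unfold pq
          refine Finset.sum_congr rfl fun i _ => ?_
          by_cases hwi : w g i = 0
          · rw [hwi]
            simp
          · congr 1
            have h1 := Nat.eq_of_mul_eq_mul_left (Nat.pos_of_ne_zero hwi)
              (hteq i (Finset.mem_univ i))
            by_cases hiD : i ∈ D'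
            · rw [if_pos hiD, if_pos hiD]
            · rw [if_neg hiD]
              rw [if_neg hiD] at h1
              by_cases his : a i ∈ sp a (D' : Set I)
              · rw [if_pos his] at h1 ⊢
                have hci := hcm i hiD his
                have hciD : c i ∈ D' := hBm.1.1 hci.1
                rw [if_pos hciD]
                by_cases h0 : uh i = 0
                · rw [hz00 i h0]
                  apply hz00
                  rw [hyu _ hciD, ← h1, h0]
                · exact hexch i (c i) ((hE i).2 ⟨h0, Or.inr ⟨g, hgF, hwi⟩⟩) hci.1 hci.2 h1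
              · rw [if_neg his, hz00 i (clo_eq_zero his)]
        rw [hgoal]
        push_cast
        ring)
    refine ⟨c, fun i hi => ?_⟩
    have hDc : ∀ j ∈ D', z j = c * y j := by
      intro j hj
      have := hc (some j)
      simp only [Option.elim_some] at this
      rwa [if_pos hj] at this
    by_cases hiD : i ∈ D'
    · rw [hDc i hiD, hyu i hiD]
    · have his : a i ∈ sp a (D' : Set I) := by
        by_contra hcon
        exact hEne i hi (clo_eq_zero hcon)
      obtain ⟨b, hb, hcf, hcl⟩ := exists_clo_eq (ha i) hBm his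
      rw [← hexch i b hi hb hcf hcl, hDc b (hBm.1.1 hb)]
      congr 2
      exact hcl.symm

theorem ray_prim {B₀ : Finset I} {u : Option I → ℕ} (hR : RayB a w S D P B₀ u)
    (hne : ∃ g, g ∈ S ∨ g ∈ P.T) (hp : Prim u) :
    Prim (LF.clo a (LF.DT w D P.T) fun j => u (some j)) := by
  intro d hd
  apply hp d
  have hdy : ∀ i, d ∣ u (some i) := by
    intro i
    by_cases hi : i ∈ LF.DT w D P.T
    · rw [← hR.clo i hi]
      exact hd i
    · rw [hR.zero i hi]
      exact dvd_zero d
  intro o
  rcases o with _ | i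
  · obtain ⟨g, hg⟩ := hne
    rw [← hR.eq g hg, pair]
    exact Finset.dvd_sum fun i _ => Dvd.dvd.mul_left (hd i) _
  · exact hdy i

end LFM
end MotMono
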