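import Pool.Agent.Lib.MP_4e5fcd_ag.LFM.PB
import Pool.Agent.Lib.MP_4e5fcd_ag.LFM.G1

/-!
# LFM-PD1: the polyhedron of a pattern with the exponents of the variables

`XI_indep`: distinct coordinate vectors. `sum_lE`, `sum_lk`: expand the sums over `Option ⊕ Fin N`
(`Fintype.sum_sum_type`, `Fintype.sum_option`).
`inP_VP`: `LF.InP (ZV P) (CV P B₀) b` iff `LF.InP (Zp W XI P) (Cp av W ∅ XI P B₀) (Ph b)` and `1 ≤ b (inl none)` (for the
vector `Ph b`, `none ∉ Zp` gives `1 ≤ E * b (inl none)`, the same since `0 < E`), `b (inr l) = 0` for `β l ∉ KX`,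
`1 ≤ b (inr l)` for `β l ∈ KX`, `∑ d b = b (some (inr k)) + 1` for `k ∈ KX` (the two inequalities of `lk k`). Then
`inP_iffX` (`S = ∅`, `D = XI`, `hD` is trivial, `hP`: from `hb₁`, with `K₁ = E * b₁ (inl none)`).
`fl_ZV`: `fl l` is not zero only at `inr l` (`β l ∈ Fb ⊆ KX`, so not in `ZV`) and `inl (some (inr (β l)))`; this is in
`DT W XI T` as `inr (β l) ∈ XI`, and not in `Z0`: by `hb₁`: `clo .. (inr k) = b₁ (inl (some (inr k)))` and
`b₁ (..) + 1 = ∑_{β l' = k} d l' * b₁ (inr l') ≥ 2` because the block `k ∈ KX` has two variables or a variable with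
`d ≥ 2` (`IsPat.Z0`).
`ray_basicV`: `ray_basic` for `Ph u`; `sum_lE`, `sum_lk` (both `lk k` and `- lk k` are nonnegative on `u`).
-/

open MvPolynomial

namespace MotMono
namespace LFM

variable {J Γ : Type} [Fintype J] [Fintype Γ] {N s : ℕ} (D : Dat J Γ N s)

omit [Fintype J] [Fintype Γ] in
private theorem pd1_mem_XI (k : Fin s) : (Sum.inr k : J ⊕ Fin s) ∈ D.XI ↔ k ∈ D.KX := by
  unfold Dat.XI
  rw [Finset.mem_map]
  constructor
  · rintro ⟨k', hk', h⟩
    have : k' = k := Sum.inr_injective h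
    rw [← this]
    exact hk'
  · intro h
    exact ⟨k, h, rfl⟩

omit [Fintype Γ] in
private theorem pd1_DT {T : Finset Γ} {i : J ⊕ Fin s} (h : i ∈ D.XI) :
    i ∈ LF.DT D.W D.XI T := by
  unfold LF.DT
  simp only [Finset.mem_filter, Finset.mem_univ, true_and]
  exact Or.inl h

omit [Fintype J] [Fintype Γ] in
private theorem pd1_Fv {BB : Finset (Finset (J ⊕ Fin s))} {l : Fin N} (h : l ∈ D.Fv BB) :
    D.β l ∈ D.KX := by
  classical
  unfold Dat.Fv at h
  have h1 := (Finset.mem_filter.mp h).2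
  unfold Dat.Fb at h1
  exact (Finset.mem_filter.mp h1).1

omit [Fintype Γ] in
theorem XI_indep : LinearIndepOn ℂ D.av (D.XI : Set (J ⊕ Fin s)) := by
  classical
  have h1 : ((D.XI : Finset (J ⊕ Fin s)) : Set (J ⊕ Fin s)) = Sum.inr '' (D.KX : Set (Fin s)) := by
    unfold Dat.XI
    rw [Finset.coe_map]
    rfl
  rw [h1]
  apply LinearIndepOn.image_of_comp
  have h2 : D.av ∘ Sum.inr = fun k => Pi.single k 1 := by
    funext k
    rfl
  rw [h2]
  have h3 : LinearIndependent ℂ (fun k : Fin s => (Pi.single k 1 : Fin s → ℂ)) := by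
    have h4 := (Pi.basisFun ℂ (Fin s)).linearIndependent
    have h5 : (⇑(Pi.basisFun ℂ (Fin s)) : Fin s → Fin s → ℂ) = fun k => Pi.single k 1 := by
      funext k
      exact Pi.basisFun_apply ℂ (Fin s) k
    rw [h5] at h4
    exact h4
  exact h3.linearIndepOn _

/-- the coordinates of the polyhedron without the exponents of the variables -/
def Dat.Ph {R : Type*} [Semiring R] (u : Option (J ⊕ Fin s) ⊕ Fin N → R) :
    Option (J ⊕ Fin s) → R :=
  fun o => o.elim ((D.E : R) * u (Sum.inl none)) fun i => u (Sum.inl (some i))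

/-- the linear forms of the polyhedron of the pattern -/
def Dat.lE (l : Option (J ⊕ Fin s) → ℤ) : Option (J ⊕ Fin s) ⊕ Fin N → ℤ :=
  Sum.elim (fun o => o.elim ((D.E : ℤ) * l none) fun i => l (some i)) fun _ => 0

open Classical in
/-- the linear forms `∑_{β l = k} d_l m_l - x_k` -/
noncomputable def Dat.lk (k : Fin s) : Option (J ⊕ Fin s) ⊕ Fin N → ℤ :=
  Sum.elim (fun o => if o = some (Sum.inr k) then -1 else 0) fun l =>
    if D.β l = k then (D.d l : ℤ) else 0

/-- the vanishing coordinates -/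
def Dat.ZV (P : LF.Pat (J ⊕ Fin s) Γ) : Set (Option (J ⊕ Fin s) ⊕ Fin N) :=
  {i | (∃ o ∈ LF.Zp D.W D.XI P, i = Sum.inl o) ∨ ∃ l, D.β l ∉ D.KX ∧ i = Sum.inr l}

open Classical in
/-- the inequalities -/
noncomputable def Dat.CV (P : LF.Pat (J ⊕ Fin s) Γ) (B₀ : Finset (J ⊕ Fin s)) :
    Finset ((Option (J ⊕ Fin s) ⊕ Fin N → ℤ) × ℤ) :=
  (LF.Cp D.av D.W ∅ D.XI P B₀).image (fun c => (D.lE c.1, c.2)) ∪
    D.KX.image (fun k => (D.lk k, 1)) ∪ D.KX.image (fun k => (-D.lk k, -1))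

omit [Fintype Γ] in
theorem sum_lE {R : Type*} [CommRing R] (l : Option (J ⊕ Fin s) → ℤ)
    (y : Option (J ⊕ Fin s) ⊕ Fin N → R) :
    ∑ i, (D.lE l i : R) * y i = ∑ o, (l o : R) * D.Ph y o := by
  rw [Fintype.sum_sum_type, Fintype.sum_option, Fintype.sum_option]
  unfold Dat.lE Dat.Ph
  simp only [Sum.elim_inl, Sum.elim_inr, Option.elim_none, Option.elim_some, Int.cast_zero,
    zero_mul, Finset.sum_const_zero, add_zero]
  push_cast
  ring

omit [Fintype Γ] in
theorem sum_lk {R : Type*} [CommRing R] (k : Fin s) (y : Option (J ⊕ Fin s) ⊕ Fin N → R) :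
    ∑ i, (D.lk k i : R) * y i =
      ∑ l ∈ Finset.univ.filter (fun l => D.β l = k), (D.d l : R) * y (Sum.inr l) -
        y (Sum.inl (some (Sum.inr k))) := by
  classical
  rw [Fintype.sum_sum_type]
  unfold Dat.lk
  simp only [Sum.elim_inl, Sum.elim_inr]
  rw [Finset.sum_eq_single (some (Sum.inr k))]
  · rw [if_pos rfl, Finset.sum_filter]
    have h1 : ∀ l : Fin N, (((if D.β l = k then (D.d l : ℤ) else 0 : ℤ)) : R) * y (Sum.inr l) =
        if D.β l = k then (D.d l : R) * y (Sum.inr l) else 0 := by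
      intro l
      split_ifs
      · push_cast
        ring
      · push_cast
        ring
    rw [Finset.sum_congr rfl fun l _ => h1 l]
    push_cast
    ring
  · intro o _ ho
    rw [if_neg ho]
    simp
  · intro h
    exact absurd (Finset.mem_univ _) h

omit [Fintype J] [Fintype Γ] in
private theorem pd1_cast (u : Option (J ⊕ Fin s) ⊕ Fin N → ℕ) (o : Option (J ⊕ Fin s)) :
    D.Ph (fun i => (u i : ℤ)) o = ((D.Ph u o : ℕ) : ℤ) := by
  unfold Dat.Ph
  cases o with
  | none =>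
    simp
  | some i =>
    simp

omit [Fintype Γ] in
private theorem pd1_sumE (l : Option (J ⊕ Fin s) → ℤ) (u : Option (J ⊕ Fin s) ⊕ Fin N → ℕ) :
    ∑ i, D.lE l i * (u i : ℤ) = ∑ o, l o * ((D.Ph u o : ℕ) : ℤ) := by
  have h := sum_lE D l (fun i => (u i : ℤ))
  simp only [Int.cast_id] at h
  rw [h]
  exact Finset.sum_congr rfl fun o _ => by rw [pd1_cast]

omit [Fintype Γ] in
private theorem pd1_sumk (k : Fin s) (u : Option (J ⊕ Fin s) ⊕ Fin N → ℕ) :
    ∑ i, D.lk k i * (u i : ℤ) =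
      ((∑ l ∈ Finset.univ.filter (fun l => D.β l = k), D.d l * u (Sum.inr l) : ℕ) : ℤ) -
        (u (Sum.inl (some (Sum.inr k))) : ℤ) := by
  have h := sum_lk D k (fun i => (u i : ℤ))
  simp only [Int.cast_id] at h
  rw [h]
  push_cast
  rfl

omit [Fintype Γ] in
private theorem pd1_sumkn (k : Fin s) (u : Option (J ⊕ Fin s) ⊕ Fin N → ℕ) :
    ∑ i, (-D.lk k) i * (u i : ℤ) =
      -(((∑ l ∈ Finset.univ.filter (fun l => D.β l = k), D.d l * u (Sum.inr l) : ℕ) : ℤ) -
        (u (Sum.inl (some (Sum.inr k))) : ℤ)) := by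
  rw [← pd1_sumk, ← Finset.sum_neg_distrib]
  exact Finset.sum_congr rfl fun i _ => by rw [Pi.neg_apply]; ring

omit [Fintype J] [Fintype Γ] in
private theorem pd1_av_ne (i : J ⊕ Fin s) : D.av i ≠ 0 := by
  cases i with
  | inl j => exact D.ha j
  | inr k =>
    intro h
    have h1 := congrFun h k
    simp [Dat.av] at h1

omit [Fintype J] [Fintype Γ] in
private theorem pd1_hD : ∀ g ∈ (∅ : Finset Γ), ∀ i, D.W g i ≠ 0 → i ∈ D.XI := by
  intro g hg
  exact absurd hg (Finset.notMem_empty g)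

variable {D} {P : LF.Pat (J ⊕ Fin s) Γ} {b₁ : Option (J ⊕ Fin s) ⊕ Fin N → ℕ}

open Classical in
private theorem pd1_C {B₀ : Finset (J ⊕ Fin s)} (b : Option (J ⊕ Fin s) ⊕ Fin N → ℕ) :
    (∀ c ∈ D.CV P B₀, c.2 ≤ ∑ i, c.1 i * (b i : ℤ)) ↔
      (∀ c ∈ LF.Cp D.av D.W ∅ D.XI P B₀, c.2 ≤ ∑ o, c.1 o * ((D.Ph b o : ℕ) : ℤ)) ∧
      ∀ k ∈ D.KX, ∑ l ∈ Finset.univ.filter (fun l => D.β l = k), D.d l * b (Sum.inr l) =
        b (Sum.inl (some (Sum.inr k))) + 1 := by
  unfold Dat.CV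
  constructor
  · intro h
    constructor
    · intro c hc
      have h1 := h (D.lE c.1, c.2) (Finset.mem_union_left _ (Finset.mem_union_left _
        (Finset.mem_image.mpr ⟨c, hc, rfl⟩)))
      simp only at h1
      rw [pd1_sumE] at h1
      exact h1
    · intro k hk
      have h1 := h (D.lk k, 1) (Finset.mem_union_left _ (Finset.mem_union_right _
        (Finset.mem_image.mpr ⟨k, hk, rfl⟩)))
      have h2 := h (-D.lk k, -1) (Finset.mem_union_right _
        (Finset.mem_image.mpr ⟨k, hk, rfl⟩))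
      simp only at h1 h2
      rw [pd1_sumk] at h1
      rw [pd1_sumkn] at h2
      omega
  · rintro ⟨h1, h2⟩ c hc
    rw [Finset.mem_union, Finset.mem_union] at hc
    rcases hc with (hc | hc) | hc
    · obtain ⟨c', hc', rfl⟩ := Finset.mem_image.mp hc
      simp only
      rw [pd1_sumE]
      exact h1 c' hc'
    · obtain ⟨k, hk, rfl⟩ := Finset.mem_image.mp hc
      simp only
      rw [pd1_sumk]
      have := h2 k hk
      omega
    · obtain ⟨k, hk, rfl⟩ := Finset.mem_image.mp hc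
      simp only
      rw [pd1_sumkn]
      have := h2 k hk
      omega

private theorem pd1_inP {B₀ : Finset (J ⊕ Fin s)} (b : Option (J ⊕ Fin s) ⊕ Fin N → ℕ) :
    LF.InP (D.ZV P) (D.CV P B₀) b ↔
      LF.InP (LF.Zp D.W D.XI P) (LF.Cp D.av D.W ∅ D.XI P B₀) (D.Ph b) ∧
      (∀ l, D.β l ∉ D.KX → b (Sum.inr l) = 0) ∧ (∀ l, D.β l ∈ D.KX → 1 ≤ b (Sum.inr l)) ∧
      ∀ k ∈ D.KX, ∑ l ∈ Finset.univ.filter (fun l => D.β l = k), D.d l * b (Sum.inr l) =
        b (Sum.inl (some (Sum.inr k))) + 1 := by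
  have hE := E_pos D
  have hnone : none ∉ LF.Zp D.W D.XI P := by
    rintro ⟨i, hi, _⟩
    cases hi
  unfold LF.InP
  rw [pd1_C]
  constructor
  · rintro ⟨h1, h2, h3, h4⟩
    refine ⟨⟨?_, ?_, h3⟩, ?_, ?_, h4⟩
    · intro o ho
      cases o with
      | none => exact absurd ho hnone
      | some i => exact h1 (Sum.inl (some i)) (Or.inl ⟨some i, ho, rfl⟩)
    · intro o ho
      have h5 : Sum.inl o ∉ D.ZV P := by
        rintro (⟨o', ho', h6⟩ | ⟨l, _, h6⟩)
        · rw [Sum.inl_injective h6] at ho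
          exact ho ho'
        · cases h6
      have h6 := h2 _ h5
      cases o with
      | none =>
        show 1 ≤ D.E * b (Sum.inl none)
        exact Nat.mul_pos hE h6
      | some i => exact h6
    · intro l hl
      exact h1 (Sum.inr l) (Or.inr ⟨l, hl, rfl⟩)
    · intro l hl
      apply h2
      rintro (⟨o', _, h6⟩ | ⟨l', hl', h6⟩)
      · cases h6
      · rw [← Sum.inr_injective h6] at hl'
        exact hl' hl
  · rintro ⟨⟨h1, h2, h3⟩, h4, h5, h6⟩
    refine ⟨?_, ?_, h3, h6⟩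
    · rintro i (⟨o, ho, rfl⟩ | ⟨l, hl, rfl⟩)
      · cases o with
        | none => exact absurd ho hnone
        | some i => exact h1 (some i) ho
      · exact h4 l hl
    · intro i hi
      cases i with
      | inl o =>
        have h7 : o ∉ LF.Zp D.W D.XI P := fun h => hi (Or.inl ⟨o, h, rfl⟩)
        have h8 := h2 o h7
        cases o with
        | none =>
          have h9 : 1 ≤ D.E * b (Sum.inl none) := h8
          exact Nat.pos_of_ne_zero fun h => by rw [h, mul_zero] at h9; omega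
        | some i => exact h8
      | inr l =>
        apply h5
        by_contra h
        exact hi (Or.inr ⟨l, h, rfl⟩)

theorem inP_VP (hb₁ : b₁ ∈ D.VP P) {B₀ : Finset (J ⊕ Fin s)} (hB₀ : B₀ ∈ P.BB) :
    {b | LF.InP (D.ZV P) (D.CV P B₀) b} = D.VP P := by
  have hE := E_pos D
  obtain ⟨-, -, -, -, -, -, hP⟩ := hb₁
  ext b
  rw [Set.mem_ofPred_eq, pd1_inP, inP_iffX (pd1_av_ne D) (pd1_hD D) hP hB₀ (D.Ph b)]
  constructor
  · rintro ⟨⟨h1, h2, h3, h4⟩, h5, h6, h7⟩
    have h8 : 1 ≤ D.E * b (Sum.inl none) := h1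
    exact ⟨Nat.pos_of_ne_zero fun h => by rw [h, mul_zero] at h8; omega, h5, h6, h7, h2, h3, h4⟩
  · rintro ⟨h1, h5, h6, h7, h2, h3, h4⟩
    exact ⟨⟨Nat.mul_pos hE h1, h2, h3, h4⟩, h5, h6, h7⟩

theorem fl_ZV (hb₁ : b₁ ∈ D.VP P) {l : Fin N} (hl : l ∈ D.Fv P.BB) :
    D.fl l (Sum.inl none) = 0 ∧ ∀ i ∈ D.ZV P, D.fl l i = 0 := by
  classical
  obtain ⟨-, -, hpos, hsum, -, hclo, hP⟩ := hb₁
  have hk : D.β l ∈ D.KX := pd1_Fv D hl
  unfold Dat.fl
  constructor
  · simp
  · rintro i (⟨o, ⟨i', rfl, hi'⟩, rfl⟩ | ⟨l', hl', rfl⟩)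
    · simp only [Sum.elim_inl]
      rw [if_neg]
      intro h
      have h1 : i' = Sum.inr (D.β l) := Option.some_injective _ h
      subst h1
      have hDT : (Sum.inr (D.β l) : J ⊕ Fin s) ∈ LF.DT D.W D.XI P.T :=
        pd1_DT D ((pd1_mem_XI D _).mpr hk)
      rcases hi' with h2 | h2
      · exact h2 hDT
      · have h3 := ((hP.Z0 _).mp h2).2
        rw [hclo _ hDT] at h3
        have h4 := hsum _ hk
        rw [h3] at h4
        have hk' := hk
        unfold Dat.KX at hk'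
        rw [Finset.mem_filter] at hk'
        obtain ⟨-, l₀, hl₀, h5⟩ := hk'
        have hterm : ∀ l' : Fin N, D.β l' = D.β l → 1 ≤ D.d l' * b₁ (Sum.inr l') := by
          intro l' hl'
          exact Nat.mul_pos (D.hd l') (hpos l' (by rw [hl']; exact hk))
        have hm : l₀ ∈ Finset.univ.filter (fun l' => D.β l' = D.β l) := by
          rw [Finset.mem_filter]
          exact ⟨Finset.mem_univ _, hl₀⟩
        have h6 : D.d l₀ * b₁ (Sum.inr l₀) +
            ∑ l' ∈ (Finset.univ.filter (fun l' => D.β l' = D.β l)).erase l₀,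
              D.d l' * b₁ (Sum.inr l') = 0 + 1 := by
          rw [← h4]
          exact Finset.add_sum_erase _ (fun l' => D.d l' * b₁ (Sum.inr l')) hm
        rcases h5 with h5 | ⟨l', hne, hl'⟩
        · have h7 : 2 ≤ D.d l₀ * b₁ (Sum.inr l₀) := by
            have h8 := hpos l₀ (by rw [hl₀]; exact hk)
            calc 2 = 2 * 1 := rfl
              _ ≤ D.d l₀ * b₁ (Sum.inr l₀) := Nat.mul_le_mul h5 h8
          omega
        · have h7 := hterm l₀ hl₀
          have h8 := hterm l' hl'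
          have h9 : D.d l' * b₁ (Sum.inr l') ≤
              ∑ l' ∈ (Finset.univ.filter (fun l' => D.β l' = D.β l)).erase l₀,
                D.d l' * b₁ (Sum.inr l') :=
            Finset.single_le_sum (f := fun l' => D.d l' * b₁ (Sum.inr l'))
              (fun _ _ => Nat.zero_le _) (by
                rw [Finset.mem_erase, Finset.mem_filter]
                exact ⟨hne, Finset.mem_univ _, hl'⟩)
          omega
    · simp only [Sum.elim_inr]
      rw [if_neg]
      rintro rfl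
      exact hl' hk

theorem ray_basicV (hb₁ : b₁ ∈ D.VP P) {B₀ : Finset (J ⊕ Fin s)} (hB₀ : B₀ ∈ P.BB)
    {u : Option (J ⊕ Fin s) ⊕ Fin N → ℕ} (hz : ∀ i ∈ D.ZV P, u i = 0)
    (hn : ∀ l ∈ (D.CV P B₀).image Prod.fst, 0 ≤ ∑ i, l i * (u i : ℤ)) :
    RayB D.av D.W ∅ D.XI P B₀ (D.Ph u) ∧
      (∀ k ∈ D.KX, ∑ l ∈ Finset.univ.filter (fun l => D.β l = k), D.d l * u (Sum.inr l) =
        u (Sum.inl (some (Sum.inr k)))) ∧
      ∀ l, D.β l ∉ D.KX → u (Sum.inr l) = 0 := by
  classical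
  obtain ⟨-, -, -, -, -, -, hP⟩ := hb₁
  refine ⟨?_, ?_, ?_⟩
  · apply ray_basic (pd1_av_ne D) (pd1_hD D) hP hB₀
    · rintro o ⟨i, rfl, hi⟩
      exact hz (Sum.inl (some i)) (Or.inl ⟨some i, ⟨i, rfl, hi⟩, rfl⟩)
    · intro l hl
      obtain ⟨c, hc, rfl⟩ := Finset.mem_image.mp hl
      have h1 := hn (D.lE c.1) (by
        rw [Finset.mem_image]
        refine ⟨(D.lE c.1, c.2), ?_, rfl⟩
        unfold Dat.CV
        exact Finset.mem_union_left _ (Finset.mem_union_left _
          (Finset.mem_image.mpr ⟨c, hc, rfl⟩)))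
      rw [pd1_sumE] at h1
      exact h1
  · intro k hk
    have h1 := hn (D.lk k) (by
      rw [Finset.mem_image]
      refine ⟨(D.lk k, 1), ?_, rfl⟩
      unfold Dat.CV
      exact Finset.mem_union_left _ (Finset.mem_union_right _
        (Finset.mem_image.mpr ⟨k, hk, rfl⟩)))
    have h2 := hn (-D.lk k) (by
      rw [Finset.mem_image]
      refine ⟨(-D.lk k, -1), ?_, rfl⟩
      unfold Dat.CV
      exact Finset.mem_union_right _ (Finset.mem_image.mpr ⟨k, hk, rfl⟩))
    rw [pd1_sumk] at h1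
    rw [pd1_sumkn] at h2
    omega
  · intro l hl
    exact hz (Sum.inr l) (Or.inr ⟨l, hl, rfl⟩)

end LFM
end MotMono
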