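import Pool.Agent.Lib.MP_4e5fcd_ag.LFM.PD1

/-!
# LFM-PD2: the extreme rays at level zero

`y i = u (inl (some i))`. `ray_basicV` gives `RayB` for `Ph u` (level `E * 0 = 0`). Since `u ≠ 0` there is `l` with
`u (inr l) ≠ 0`: if `y i ≠ 0` then by `ray_zero` (`X = D = XI`, `S = ∅`, `XI_indep`) `i ∈ XI`, `i = inr k`, `k ∈ KX`, and
`∑_{β l = k} d l * u (inr l) = y i ≠ 0`. Let `k = β l`; `k ∈ KX` (`ray_basicV`), `y (inr k) ≥ d l * u (inr l) > 0`, so
by `ray_zero`: `W g (inr k) = 0` for `g ∈ T` and `inr k ∈ B` for all `B ∈ BB`: `k ∈ Fb`, `l ∈ Fv`. All `i` with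
`y i ≠ 0` are in `XI` and in all `B ∈ BB`, in particular in `B₀`.
Claim: `fl l` satisfies the hypotheses of `u.ext`. It vanishes where `u` does. Let `c ∈ CV` with `c.1 · u = 0`
(`sum_lE`, `sum_lk`; `Ph (fl l) none = 0`, `Ph (fl l) (some i) = d l` for `i = inr k`, `0` otherwise):
(a) `c.1 = ± lk k'`: `∑ d fl - fl (some (inr k'))` is `d l - d l = 0` for `k' = k`, and `0 - 0` for `k' ≠ k`.
(b) `g ∈ P.T`: the value at `fl l` is `± W g (inr k) * d l = 0`.
(c) `B ∈ BB`: `inr k ∈ B`, `inr k ∈ B₀`: `d l - d l = 0`.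
(d) `B` a basis of `D'`, the form `∑_{B₀} y - ∑_B y = 0`: all `i` with `y i ≠ 0` are in `B₀`, so
`∑_B y = ∑_{B ∩ supp y} y = ∑_{supp y} y` forces `supp y ⊆ B`, so `inr k ∈ B` and the value at `fl l` is `0`.
(e) the choice forms (`g ∉ P.T`, `c'`): `cform .. · y - 0 = 0`, a sum of nonnegative terms, so all are `0`:
`W g (inr k) * y (inr k) = 0` (`inr k ∈ D'`) and `W g i = 0` for all `i ∉ D'`, `a i ∈ sp D'`, `c' i = inr k`; so
`cform .. (inr k) = 0` and the value at `fl l` is `0` (`none` has the coefficient `-1`, `fl l none = 0`).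
So `fl l = c u`, `c ≠ 0`, `u = c⁻¹ fl l`.
-/

open MvPolynomial

namespace MotMono
namespace LFM

variable {J Γ : Type} [Fintype J] [Fintype Γ] {N s : ℕ} {D : Dat J Γ N s}
  {P : LF.Pat (J ⊕ Fin s) Γ} {b₁ : Option (J ⊕ Fin s) ⊕ Fin N → ℕ}

omit [Fintype Γ] in
private theorem pd2_cast (u : Option (J ⊕ Fin s) ⊕ Fin N → ℕ) (o : Option (J ⊕ Fin s)) :
    D.Ph (fun i => (u i : ℤ)) o = ((D.Ph u o : ℕ) : ℤ) := by
  cases o with
  | none =>
    simp only [Dat.Ph, Option.elim_none]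
    push_cast
    rfl
  | some i => rfl

omit [Fintype J] [Fintype Γ] in
private theorem pd2_Fb {BB : Finset (Finset (J ⊕ Fin s))} {k : Fin s} :
    k ∈ D.Fb BB ↔ k ∈ D.KX ∧ ∀ B ∈ BB, Sum.inr k ∈ B := by
  simp only [Dat.Fb, Finset.mem_filter]

/-- the coordinates with `u ≠ 0` for a vector of the recession cone at level zero -/
theorem zero_supp (hb₁ : b₁ ∈ D.VP P) {B₀ : Finset (J ⊕ Fin s)} (hB₀ : B₀ ∈ P.BB)
    {u : Option (J ⊕ Fin s) ⊕ Fin N → ℕ} (hz : ∀ i ∈ D.ZV P, u i = 0)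
    (hn : ∀ l ∈ (D.CV P B₀).image Prod.fst, 0 ≤ ∑ i, l i * (u i : ℤ))
    (h0 : u (Sum.inl none) = 0) :
    (∀ i, u (Sum.inl (some i)) ≠ 0 → ∃ k ∈ D.Fb P.BB, i = Sum.inr k ∧ ∀ g ∈ P.T, D.W g i = 0) ∧
      ∀ l, u (Sum.inr l) ≠ 0 → l ∈ D.Fv P.BB ∧ u (Sum.inl (some (Sum.inr (D.β l)))) ≠ 0 := by
  classical
  obtain ⟨hR, hsum, hoff⟩ := ray_basicV hb₁ hB₀ hz hn
  have hnone : D.Ph u none = 0 := by
    simp only [Dat.Ph, Option.elim_none, h0, mul_zero]
  have key : ∀ i, u (Sum.inl (some i)) ≠ 0 →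
      ∃ k ∈ D.Fb P.BB, i = Sum.inr k ∧ ∀ g ∈ P.T, D.W g i = 0 := by
    intro i hi
    obtain ⟨h1, h2, h3⟩ := ray_zero (X := D.XI) (XI_indep D) (fun i hi => Or.inl hi) hR hnone i hi
    unfold Dat.XI at h1
    rw [Finset.mem_map] at h1
    obtain ⟨k, hk, rfl⟩ := h1
    exact ⟨k, pd2_Fb.2 ⟨hk, h3⟩, rfl, fun g hg => h2 g (Or.inr hg)⟩
  refine ⟨key, fun l hl => ?_⟩
  have hk : D.β l ∈ D.KX := by
    by_contra hcon
    exact hl (hoff l hcon)
  have hy : u (Sum.inl (some (Sum.inr (D.β l)))) ≠ 0 := by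
    rw [← hsum _ hk]
    intro h
    rw [Finset.sum_eq_zero_iff] at h
    have h1 := h l (Finset.mem_filter.2 ⟨Finset.mem_univ _, rfl⟩)
    rcases Nat.mul_eq_zero.1 h1 with h1 | h1
    · exact (D.hd l).ne' h1
    · exact hl h1
  refine ⟨?_, hy⟩
  obtain ⟨k, hk', hkl, -⟩ := key _ hy
  have hkk : D.β l = k := Sum.inr_injective hkl
  unfold Dat.Fv
  rw [Finset.mem_filter]
  exact ⟨Finset.mem_univ _, hkk ▸ hk'⟩

private theorem pd2_cform {a : (J ⊕ Fin s) → Fin s → ℂ} (D' : Finset (J ⊕ Fin s))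
    (v : (J ⊕ Fin s) → ℕ) (c : (J ⊕ Fin s) → (J ⊕ Fin s)) (j : J ⊕ Fin s) :
    0 ≤ LF.cform a D' v c j := by
  unfold LF.cform
  refine add_nonneg ?_ (Finset.sum_nonneg fun i _ => ?_)
  · split_ifs
    · exact Int.natCast_nonneg _
    · exact le_rfl
  · split_ifs
    · exact Int.natCast_nonneg _
    · exact le_rfl

/-- the direction of a free variable satisfies all equations satisfied by a ray -/
theorem fl_eqs (hb₁ : b₁ ∈ D.VP P) {B₀ : Finset (J ⊕ Fin s)} (hB₀ : B₀ ∈ P.BB)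
    {u : Option (J ⊕ Fin s) ⊕ Fin N → ℕ} (hz : ∀ i ∈ D.ZV P, u i = 0)
    (hn : ∀ l ∈ (D.CV P B₀).image Prod.fst, 0 ≤ ∑ i, l i * (u i : ℤ))
    (h0 : u (Sum.inl none) = 0) {l : Fin N} (hl : u (Sum.inr l) ≠ 0) :
    (∀ i, u i = 0 → D.fl l i = 0) ∧ ∀ c ∈ (D.CV P B₀).image Prod.fst,
      ∑ i, c i * (u i : ℤ) = 0 → ∑ i, c i * (D.fl l i : ℤ) = 0 := by
  classical
  obtain ⟨hs1, hs2⟩ := zero_supp hb₁ hB₀ hz hn h0
  obtain ⟨hlF, hy⟩ := hs2 l hl
  obtain ⟨k', hk', hkl, hT⟩ := hs1 _ hy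
  have hkk : D.β l = k' := Sum.inr_injective hkl
  subst hkk
  have hBB : ∀ B ∈ P.BB, Sum.inr (D.β l) ∈ B := (pd2_Fb.1 hk').2
  have hsup : ∀ i, u (Sum.inl (some i)) ≠ 0 → i ∈ B₀ := by
    intro i hi
    obtain ⟨k, hk, rfl, -⟩ := hs1 i hi
    exact (pd2_Fb.1 hk).2 B₀ hB₀
  refine ⟨?_, ?_⟩
  · rintro (o | l') hi
    · simp only [Dat.fl, Sum.elim_inl]
      rw [if_neg]
      rintro rfl
      exact hy hi
    · simp only [Dat.fl, Sum.elim_inr]
      rw [if_neg]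
      rintro rfl
      exact hl hi
  -- the forms of the polyhedron of the pattern
  have hnone : D.Ph u none = 0 := by
    simp only [Dat.Ph, Option.elim_none, h0, mul_zero]
  have hsum : ∀ c : Option (J ⊕ Fin s) → ℤ, ∑ o, c o * ((D.Ph u o : ℕ) : ℤ) =
      ∑ i, c (some i) * (u (Sum.inl (some i)) : ℤ) := by
    intro c
    rw [Fintype.sum_option, hnone, Nat.cast_zero, mul_zero, zero_add]
    rfl
  have hfl : ∀ c : Option (J ⊕ Fin s) → ℤ, ∑ o, c o * ((D.Ph (D.fl l) o : ℕ) : ℤ) =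
      c (some (Sum.inr (D.β l))) * D.d l := by
    intro c
    rw [Fintype.sum_option]
    have e1 : D.Ph (D.fl l) none = 0 := by
      simp [Dat.Ph, Dat.fl]
    have e2 : ∀ i, D.Ph (D.fl l) (some i) = if i = Sum.inr (D.β l) then D.d l else 0 := by
      intro i
      simp only [Dat.Ph, Dat.fl, Option.elim_some, Sum.elim_inl, Option.some.injEq]
    rw [e1, Nat.cast_zero, mul_zero, zero_add, Finset.sum_eq_single (Sum.inr (D.β l))]
    · rw [e2, if_pos rfl]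
    · intro i _ hi
      rw [e2, if_neg hi, Nat.cast_zero, mul_zero]
    · intro h
      exact absurd (Finset.mem_univ _) h
  have hCp : ∀ c ∈ LF.Cp D.av D.W ∅ D.XI P B₀,
      ∑ i, c.1 (some i) * (u (Sum.inl (some i)) : ℤ) = 0 →
      c.1 (some (Sum.inr (D.β l))) = 0 := by
    intro c hc hce
    unfold LF.Cp at hc
    simp only [Finset.mem_union, Finset.mem_image, Finset.notMem_empty, false_and, exists_false,
      false_or, Finset.mem_filter, Finset.mem_univ, true_and] at hc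
    rcases hc with (((⟨g, hg, rfl⟩ | ⟨g, hg, rfl⟩) | ⟨B, hB, rfl⟩) | ⟨B, hB, rfl⟩) | ⟨gc, hgc, rfl⟩
    · simp only [LF.fo, Option.elim_some, hT g hg, Nat.cast_zero]
    · simp only [LF.fo, Option.elim_some, hT g hg, Nat.cast_zero, neg_zero]
    · simp only [LF.fo, Option.elim_some, if_pos (hBB B hB), if_pos (hBB B₀ hB₀), sub_self]
    · simp only [LF.fo, Option.elim_some] at hce ⊢
      rw [if_pos (hBB B₀ hB₀)]
      have h2 := (Finset.sum_eq_zero_iff_of_nonneg (fun i _ => by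
        by_cases hi : u (Sum.inl (some i)) = 0
        · rw [hi]
          simp
        · rw [if_pos (hsup i hi)]
          refine mul_nonneg ?_ (Int.natCast_nonneg _)
          split_ifs <;> norm_num)).1 hce (Sum.inr (D.β l)) (Finset.mem_univ _)
      rcases mul_eq_zero.1 h2 with h3 | h3
      · rw [if_pos (hBB B₀ hB₀)] at h3
        exact h3
      · exact absurd (Int.natCast_eq_zero.1 h3) hy
    · simp only [LF.fo, Option.elim_some] at hce ⊢
      rw [Finset.sum_eq_zero_iff_of_nonneg (fun i _ =>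
        mul_nonneg (pd2_cform _ _ _ i) (Int.natCast_nonneg _))] at hce
      have h2 := hce (Sum.inr (D.β l)) (Finset.mem_univ _)
      rcases mul_eq_zero.1 h2 with h3 | h3
      · exact h3
      · exact absurd (Int.natCast_eq_zero.1 h3) hy
  have hlk : ∀ k, ∑ i, D.lk k i * (D.fl l i : ℤ) = 0 := by
    intro k
    have h1 := sum_lk (D := D) (R := ℤ) k (fun i => (D.fl l i : ℤ))
    simp only [Int.cast_id] at h1
    rw [h1]
    simp only [Dat.fl, Sum.elim_inl, Sum.elim_inr, Option.some.injEq, Sum.inr.injEq]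
    by_cases hk : k = D.β l
    · rw [if_pos hk, Finset.sum_eq_single l]
      · rw [if_pos rfl]
        push_cast
        ring
      · intro l' _ hl'
        rw [if_neg hl']
        simp
      · intro h
        exact absurd (Finset.mem_filter.2 ⟨Finset.mem_univ l, hk.symm⟩) h
    · rw [if_neg hk, Finset.sum_eq_zero]
      · simp
      · intro l' hl'
        rw [if_neg]
        · simp
        · rintro rfl
          exact hk (Finset.mem_filter.1 hl').2.symm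
  intro c hc hce
  rw [Finset.mem_image] at hc
  obtain ⟨c', hc', rfl⟩ := hc
  unfold Dat.CV at hc'
  simp only [Finset.mem_union, Finset.mem_image] at hc'
  rcases hc' with (⟨c, hc, rfl⟩ | ⟨k, hk, rfl⟩) | ⟨k, hk, rfl⟩
  · have h1 := sum_lE (D := D) (R := ℤ) c.1 (fun i => (u i : ℤ))
    have h2 := sum_lE (D := D) (R := ℤ) c.1 (fun i => (D.fl l i : ℤ))
    simp only [Int.cast_id, pd2_cast] at h1 h2
    dsimp only at hce ⊢
    rw [h1, hsum] at hce
    rw [h2, hfl, hCp c hc hce, zero_mul]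
  · exact hlk k
  · dsimp only
    have h1 : ∑ i, (-D.lk k) i * (D.fl l i : ℤ) = -∑ i, D.lk k i * (D.fl l i : ℤ) := by
      rw [← Finset.sum_neg_distrib]
      refine Finset.sum_congr rfl fun i _ => ?_
      rw [Pi.neg_apply, neg_mul]
    rw [h1, hlk k, neg_zero]

theorem ray_zeroV (hb₁ : b₁ ∈ D.VP P) {B₀ : Finset (J ⊕ Fin s)} (hB₀ : B₀ ∈ P.BB)
    {u : Option (J ⊕ Fin s) ⊕ Fin N → ℕ} (hu : ExtRay (D.ZV P) ((D.CV P B₀).image Prod.fst) u)
    (h0 : u (Sum.inl none) = 0) :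
    ∃ l ∈ D.Fv P.BB, ∃ c : ℚ, ∀ i, (u i : ℚ) = c * D.fl l i := by
  classical
  obtain ⟨hR, hsum, hoff⟩ := ray_basicV hb₁ hB₀ hu.zero hu.nonneg
  obtain ⟨hs1, hs2⟩ := zero_supp hb₁ hB₀ hu.zero hu.nonneg h0
  obtain ⟨l, hl⟩ : ∃ l, u (Sum.inr l) ≠ 0 := by
    by_contra hcon
    push Not at hcon
    apply hu.ne
    funext i
    rcases i with (_ | i) | l
    · exact h0
    · by_contra hi
      obtain ⟨k, hk, rfl, -⟩ := hs1 i hi
      apply hi
      rw [← hsum k (pd2_Fb.1 hk).1]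
      exact Finset.sum_eq_zero fun l _ => by rw [hcon l, mul_zero]
    · exact hcon l
  obtain ⟨h1, h2⟩ := fl_eqs hb₁ hB₀ hu.zero hu.nonneg h0 hl
  obtain ⟨c, hc⟩ := hu.ext (fun i => (D.fl l i : ℚ)) (fun i hi => by rw [h1 i hi, Nat.cast_zero])
    (fun c hc hce => by
      have h3 := h2 c hc hce
      have h4 : ((∑ i, c i * (D.fl l i : ℤ) : ℤ) : ℚ) = 0 := by rw [h3, Int.cast_zero]
      push_cast at h4
      exact h4)
  have hcl : (1 : ℚ) = c * u (Sum.inr l) := by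
    have h3 := hc (Sum.inr l)
    have h4 : D.fl l (Sum.inr l) = 1 := by simp [Dat.fl]
    rw [h4, Nat.cast_one] at h3
    exact h3
  have hc0 : c ≠ 0 := by
    rintro rfl
    rw [zero_mul] at hcl
    exact one_ne_zero hcl
  refine ⟨l, (hs2 l hl).1, c⁻¹, fun i => ?_⟩
  have h3 := hc i
  rw [h3, inv_mul_cancel_left₀ hc0]

end LFM
end MotMono
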