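import Pool.Agent.Lib.MP_4e5fcd_ag.LFM.PD1

/-!
# LFM-PD3: the extreme rays of positive level

`y i = u (inl (some i))`, `m l = u (inr l)`, `∑_{β l = k} d l * m l = y (inr k)` for `k ∈ KX` (`ray_basicV`).
`ray_ch`: if `m l ≠ 0`, `m l' ≠ 0`, `l ≠ l'`, `β l = β l'`, then `Y = d l' e_l - d l e_l'` (on the coordinates `inr`)
vanishes where `u` does; `lE c · Y = 0` always (`sum_lE`: `Ph Y = 0`), `lk k · Y = d l d l' - d l' d l = 0`; so `Y = c u`
by `hu.ext`, but `u (inl none) > 0`, `Y (inl none) = 0`, so `c = 0`, `Y = 0`, a contradiction. So for `k ∈ KX` choose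
`ch k` in the block with `m (ch k) ≠ 0` if there is one, and any element of the block otherwise (`D.hβ`), also for
`k ∉ KX`. Then `m l = 0` for `β l ∈ KX`, `l ≠ ch (β l)`, and `d (ch k) * m (ch k) = y (inr k)`.
`ray_extV`: `Ph u` is an extreme ray for `(Zp W XI P, Cp av W ∅ XI P B₀)`: `ne`: `Ph u none = E u none > 0`;
`zero`, `nonneg`: from `u` (`ZV`, `CV`, `sum_lE`); `ext`: let `z` vanish where `Ph u` does and `l · z = 0` for the
`l` with `l · Ph u = 0`. Put `Y none = z none / E`, `Y (some i) = z (some i)`, `Y (inr (ch k)) = z (some (inr k)) / d (ch k)`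
for `k ∈ KX`, `Y (inr l) = 0` for the other `l`. `Y` vanishes where `u` does (if `u (inr (ch k)) = 0` then `y (inr k) = 0`, so
`z (some (inr k)) = 0`), `Ph Y = z`, `lk k · Y = 0`. So `Y = c u`, `z = Ph Y = c Ph u`.
`ray_posV`: `ray_essX` (`S = ∅`, `D = X = XI`) for `Ph u`: `uh = clo av D' y`, `EssX`, `mn W uh = E u none`. `uh i = y i`
for `i ∈ D' ⊇ XI` (`RayB.clo`), `nu av uh = ∑_{B₀} y`. `Fb`-indices are in `B₀`. Let
`m = ∑_{b ∈ B₀} y b - ∑_{k ∈ KX} y (inr k) + ∑_{l, β l ∈ KX} m l` (an integer): `= sig ch uh`, since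
`∑_{β l ∈ KX} m l = ∑_{k ∈ KX} m (ch k) = ∑_{k ∈ KX} y (inr k) / d (ch k)`; and
`wtm (rho BB B₀) u = Lu ^ (- m)`: the exponent of `Lu⁻¹` is `∑_{B₀ \ Fb} y - ∑_{KX \ Fb} y + ∑_{β l ∈ KX} m l`, and the
elements of `Fb` occur in both `∑_{B₀}` and `∑_{KX}` (`D.Fb BB ⊆ D.KX`).
-/

open MvPolynomial

namespace MotMono
namespace LFM

variable {J Γ : Type} [Fintype J] [Fintype Γ] {N s : ℕ} {D : Dat J Γ N s}
  {P : LF.Pat (J ⊕ Fin s) Γ} {b₁ : Option (J ⊕ Fin s) ⊕ Fin N → ℕ}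

private theorem pd3_av_ne (i : J ⊕ Fin s) : D.av i ≠ 0 := by
  rcases i with j | k
  · exact D.ha j
  · intro h
    have h1 := congrFun h k
    unfold Dat.av at h1
    simp at h1

private theorem pd3_XI {i : J ⊕ Fin s} : i ∈ D.XI ↔ ∃ k ∈ D.KX, i = Sum.inr k := by
  unfold Dat.XI
  rw [Finset.mem_map]
  constructor
  · rintro ⟨k, hk, rfl⟩
    exact ⟨k, hk, rfl⟩
  · rintro ⟨k, hk, rfl⟩
    exact ⟨k, hk, rfl⟩

private theorem pd3_cases {B₀ : Finset (J ⊕ Fin s)} {c : Option (J ⊕ Fin s) ⊕ Fin N → ℤ}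
    (hc : c ∈ (D.CV P B₀).image Prod.fst) :
    (∃ l ∈ (LF.Cp D.av D.W ∅ D.XI P B₀).image Prod.fst, c = D.lE l) ∨
      (∃ k ∈ D.KX, c = D.lk k) ∨ ∃ k ∈ D.KX, c = -D.lk k := by
  classical
  rw [Finset.mem_image] at hc
  obtain ⟨q, hq, rfl⟩ := hc
  unfold Dat.CV at hq
  rw [Finset.mem_union, Finset.mem_union, Finset.mem_image, Finset.mem_image,
    Finset.mem_image] at hq
  rcases hq with (⟨c, hc, rfl⟩ | ⟨k, hk, rfl⟩) | ⟨k, hk, rfl⟩
  · exact Or.inl ⟨c.1, Finset.mem_image_of_mem _ hc, rfl⟩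
  · exact Or.inr (Or.inl ⟨k, hk, rfl⟩)
  · exact Or.inr (Or.inr ⟨k, hk, rfl⟩)

private theorem pd3_mem {B₀ : Finset (J ⊕ Fin s)} {l : Option (J ⊕ Fin s) → ℤ}
    (hl : l ∈ (LF.Cp D.av D.W ∅ D.XI P B₀).image Prod.fst) :
    D.lE l ∈ (D.CV P B₀).image Prod.fst := by
  classical
  rw [Finset.mem_image] at hl ⊢
  obtain ⟨c, hc, rfl⟩ := hl
  refine ⟨(D.lE c.1, c.2), ?_, rfl⟩
  unfold Dat.CV
  rw [Finset.mem_union, Finset.mem_union, Finset.mem_image]
  exact Or.inl (Or.inl ⟨c, hc, rfl⟩)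

omit [Fintype Γ] [Fintype J] in
private theorem pd3_Ph (u : Option (J ⊕ Fin s) ⊕ Fin N → ℕ) (o : Option (J ⊕ Fin s)) :
    D.Ph (fun i => (u i : ℤ)) o = ((D.Ph u o : ℕ) : ℤ) := by
  unfold Dat.Ph
  cases o <;> simp

private theorem pd3_lEu (l : Option (J ⊕ Fin s) → ℤ) (u : Option (J ⊕ Fin s) ⊕ Fin N → ℕ) :
    ∑ i, D.lE l i * (u i : ℤ) = ∑ o, l o * ((D.Ph u o : ℕ) : ℤ) := by
  have h := sum_lE D (R := ℤ) l (fun i => (u i : ℤ))
  simp only [Int.cast_id, pd3_Ph] at h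
  exact h

/-- a rational vector which satisfies the equations -/
private theorem pd3_ext {B₀ : Finset (J ⊕ Fin s)} {u : Option (J ⊕ Fin s) ⊕ Fin N → ℕ}
    (hu : ExtRay (D.ZV P) ((D.CV P B₀).image Prod.fst) u) {Y : Option (J ⊕ Fin s) ⊕ Fin N → ℚ}
    (h1 : ∀ i, u i = 0 → Y i = 0)
    (h2 : ∀ l ∈ (LF.Cp D.av D.W ∅ D.XI P B₀).image Prod.fst,
      ∑ o, l o * ((D.Ph u o : ℕ) : ℤ) = 0 → ∑ o, (l o : ℚ) * D.Ph Y o = 0)
    (h3 : ∀ k ∈ D.KX, ∑ l ∈ Finset.univ.filter (fun l => D.β l = k), (D.d l : ℚ) * Y (Sum.inr l) =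
      Y (Sum.inl (some (Sum.inr k)))) : ∃ c : ℚ, ∀ i, Y i = c * u i := by
  refine hu.ext Y h1 fun c hc h0 => ?_
  rcases pd3_cases hc with ⟨l, hl, rfl⟩ | ⟨k, hk, rfl⟩ | ⟨k, hk, rfl⟩
  · rw [sum_lE D l Y]
    refine h2 l hl ?_
    rw [← pd3_lEu]
    exact h0
  · rw [sum_lk D k Y, h3 k hk, sub_self]
  · have h4 := sum_lk D k Y
    rw [h3 k hk, sub_self] at h4
    simp only [Pi.neg_apply, Int.cast_neg, neg_mul, Finset.sum_neg_distrib, h4, neg_zero]

private theorem pd3_one (hb₁ : b₁ ∈ D.VP P) {B₀ : Finset (J ⊕ Fin s)} (hB₀ : B₀ ∈ P.BB)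
    {u : Option (J ⊕ Fin s) ⊕ Fin N → ℕ} (hu : ExtRay (D.ZV P) ((D.CV P B₀).image Prod.fst) u)
    (h0 : 0 < u (Sum.inl none)) {l l' : Fin N} (hl : u (Sum.inr l) ≠ 0)
    (hl' : u (Sum.inr l') ≠ 0) (hb : D.β l = D.β l') : l = l' := by
  classical
  by_contra hne
  let Y : Option (J ⊕ Fin s) ⊕ Fin N → ℚ := Sum.elim (fun _ => 0)
    fun m => if m = l then (D.d l' : ℚ) else if m = l' then -(D.d l : ℚ) else 0
  have hYl : Y (Sum.inr l) = D.d l' := by simp [Y]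
  have hYl' : Y (Sum.inr l') = -(D.d l : ℚ) := by
    simp only [Y, Sum.elim_inr]
    rw [if_neg (fun h => hne h.symm)]
    simp
  have hY0 : ∀ m, m ≠ l → m ≠ l' → Y (Sum.inr m) = 0 := by
    intro m h1 h2
    simp only [Y, Sum.elim_inr]
    rw [if_neg h1, if_neg h2]
  have hPh : ∀ o, D.Ph Y o = 0 := by
    intro o
    unfold Dat.Ph
    cases o <;> simp [Y]
  obtain ⟨c, hc⟩ := pd3_ext hu (Y := Y) (by
      intro i hi
      rcases i with o | m
      · rfl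
      · exact hY0 m (fun h => hl (h ▸ hi)) (fun h => hl' (h ▸ hi))) (by
      intro l _ _
      refine Finset.sum_eq_zero fun o _ => ?_
      rw [hPh, mul_zero]) (by
      intro k _
      have hR : Y (Sum.inl (some (Sum.inr k))) = 0 := rfl
      rw [hR]
      by_cases hk : D.β l = k
      · have hk' : D.β l' = k := hb ▸ hk
        rw [← Finset.add_sum_erase _ _ (Finset.mem_filter.2 ⟨Finset.mem_univ l, hk⟩),
          ← Finset.add_sum_erase _ _ (Finset.mem_erase.2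
            ⟨fun h => hne h.symm, Finset.mem_filter.2 ⟨Finset.mem_univ l', hk'⟩⟩),
          Finset.sum_eq_zero (fun m hm => by
            rw [Finset.mem_erase, Finset.mem_erase] at hm
            rw [hY0 m hm.2.1 hm.1, mul_zero]), hYl, hYl']
        ring
      · refine Finset.sum_eq_zero fun m hm => ?_
        rw [Finset.mem_filter] at hm
        rw [hY0 m (fun h => hk (h ▸ hm.2)) (fun h => hk (by rw [hb, ← h]; exact hm.2)),
          mul_zero])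
  have h1 := hc (Sum.inl none)
  have h2 : Y (Sum.inl none) = 0 := rfl
  rw [h2] at h1
  have h3 : c = 0 := by
    rcases mul_eq_zero.1 h1.symm with h | h
    · exact h
    · exfalso
      have : u (Sum.inl none) = 0 := by exact_mod_cast h
      omega
  have h4 := hc (Sum.inr l)
  rw [hYl, h3, zero_mul] at h4
  have h5 : D.d l' = 0 := by exact_mod_cast h4
  have := D.hd l'
  omega

theorem ray_ch (hb₁ : b₁ ∈ D.VP P) {B₀ : Finset (J ⊕ Fin s)} (hB₀ : B₀ ∈ P.BB)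
    {u : Option (J ⊕ Fin s) ⊕ Fin N → ℕ} (hu : ExtRay (D.ZV P) ((D.CV P B₀).image Prod.fst) u)
    (h0 : 0 < u (Sum.inl none)) :
    ∃ ch : Fin s → Fin N, (∀ k, D.β (ch k) = k) ∧
      (∀ l, D.β l ∈ D.KX → l ≠ ch (D.β l) → u (Sum.inr l) = 0) ∧
      ∀ k ∈ D.KX, D.d (ch k) * u (Sum.inr (ch k)) = u (Sum.inl (some (Sum.inr k))) := by
  classical
  obtain ⟨-, hsum, -⟩ := ray_basicV hb₁ hB₀ hu.zero hu.nonneg
  have hex : ∀ k, ∃ m, D.β m = k ∧ ((∃ l, D.β l = k ∧ u (Sum.inr l) ≠ 0) →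
      u (Sum.inr m) ≠ 0) := by
    intro k
    by_cases h : ∃ l, D.β l = k ∧ u (Sum.inr l) ≠ 0
    · obtain ⟨l, hl, hl'⟩ := h
      exact ⟨l, hl, fun _ => hl'⟩
    · obtain ⟨m, hm⟩ := D.hβ k
      exact ⟨m, hm, fun h' => absurd h' h⟩
  choose ch hch hch' using hex
  have hz : ∀ l, l ≠ ch (D.β l) → u (Sum.inr l) = 0 := by
    intro l hl
    by_contra h
    exact hl (pd3_one hb₁ hB₀ hu h0 h (hch' _ ⟨l, rfl, h⟩) (hch _).symm)
  refine ⟨ch, hch, fun l _ hl => hz l hl, fun k hk => ?_⟩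
  rw [← hsum k hk, Finset.sum_eq_single (ch k)]
  · intro l hl hne
    rw [Finset.mem_filter] at hl
    rw [hz l (by rw [hl.2]; exact hne), mul_zero]
  · intro h
    exact absurd (by simp [hch k]) h

theorem ray_extV (hb₁ : b₁ ∈ D.VP P) {B₀ : Finset (J ⊕ Fin s)} (hB₀ : B₀ ∈ P.BB)
    {u : Option (J ⊕ Fin s) ⊕ Fin N → ℕ} (hu : ExtRay (D.ZV P) ((D.CV P B₀).image Prod.fst) u)
    (h0 : 0 < u (Sum.inl none)) :
    ExtRay (LF.Zp D.W D.XI P) ((LF.Cp D.av D.W ∅ D.XI P B₀).image Prod.fst) (D.Ph u) := by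
  classical
  obtain ⟨ch, hch, hz, hd⟩ := ray_ch hb₁ hB₀ hu h0
  have hE := E_pos D
  refine ⟨?_, ?_, ?_, ?_⟩
  · intro h
    have h1 := congrFun h none
    have h2 : D.Ph u none = D.E * u (Sum.inl none) := rfl
    rw [h2, Pi.zero_apply] at h1
    have := Nat.mul_pos hE h0
    omega
  · rintro o ho
    obtain ⟨i, rfl, -⟩ := id ho
    exact hu.zero (Sum.inl (some i)) (Or.inl ⟨_, ho, rfl⟩)
  · intro l hl
    rw [← pd3_lEu l u]
    exact hu.nonneg _ (pd3_mem hl)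
  · intro z hz0 hzl
    let Y : Option (J ⊕ Fin s) ⊕ Fin N → ℚ := Sum.elim
      (fun o => o.elim (z none / D.E) fun i => z (some i))
      fun l => if D.β l ∈ D.KX ∧ l = ch (D.β l) then z (some (Sum.inr (D.β l))) / D.d l else 0
    have hE' : (D.E : ℚ) ≠ 0 := by
      exact_mod_cast hE.ne'
    have hPh : ∀ o, D.Ph Y o = z o := by
      intro o
      rcases o with _ | i
      · show (D.E : ℚ) * (z none / D.E) = z none
        field_simp
      · rfl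
    obtain ⟨c, hc⟩ := pd3_ext hu (Y := Y) (by
      intro i hi
      rcases i with (_ | i) | l
      · omega
      · exact hz0 (some i) hi
      · show (if D.β l ∈ D.KX ∧ l = ch (D.β l) then z (some (Sum.inr (D.β l))) / D.d l else 0) =
          (0 : ℚ)
        split_ifs with hl
        · have h1 := hd _ hl.1
          rw [← hl.2, hi, mul_zero] at h1
          rw [hz0 (some (Sum.inr (D.β l))) h1.symm, zero_div]
        · rfl) (by
      intro l hl h1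
      simp only [hPh]
      exact hzl l hl h1) (by
      intro k hk
      rw [Finset.sum_eq_single (ch k)]
      · show (D.d (ch k) : ℚ) * (if D.β (ch k) ∈ D.KX ∧ ch k = ch (D.β (ch k)) then
          z (some (Sum.inr (D.β (ch k)))) / D.d (ch k) else 0) = z (some (Sum.inr k))
        rw [hch k, if_pos ⟨hk, rfl⟩]
        have : (D.d (ch k) : ℚ) ≠ 0 := by
          exact_mod_cast (D.hd (ch k)).ne'
        field_simp
      · intro l hl hne
        rw [Finset.mem_filter] at hl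
        have h1 : Y (Sum.inr l) = 0 := by
          show (if D.β l ∈ D.KX ∧ l = ch (D.β l) then
            z (some (Sum.inr (D.β l))) / D.d l else 0) = (0 : ℚ)
          rw [if_neg]
          rintro ⟨-, h⟩
          rw [hl.2] at h
          exact hne h
        rw [h1, mul_zero]
      · intro h
        exact absurd (by simp [hch k]) h)
    refine ⟨c, fun o => ?_⟩
    rw [← hPh o]
    rcases o with _ | i
    · show (D.E : ℚ) * Y (Sum.inl none) = c * ((D.E * u (Sum.inl none) : ℕ) : ℚ)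
      rw [hc]
      push_cast
      ring
    · exact hc (Sum.inl (some i))

private theorem pd3_prod {ι : Type} [Fintype ι] (p : ι → Prop) [DecidablePred p] (x : MCˣ)
    (y : ι → ℕ) :
    ∏ i, (if p i then (x : MC) else 1) ^ y i =
      ((x ^ (∑ i ∈ Finset.univ.filter p, y i) : MCˣ) : MC) := by
  rw [← Finset.prod_pow_eq_pow_sum, Finset.prod_filter, Units.coe_prod]
  refine Finset.prod_congr rfl fun i _ => ?_
  split_ifs <;> simp

/-- the weight of a ray -/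
private theorem pd3_wtm {BB : Finset (Finset (J ⊕ Fin s))} {B₀ : Finset (J ⊕ Fin s)}
    (hB₀ : B₀ ∈ BB) (u : Option (J ⊕ Fin s) ⊕ Fin N → ℕ) :
    wtm (D.rho BB B₀) u = ((Lu ^ (-(∑ b ∈ B₀, (u (Sum.inl (some b)) : ℤ) -
      ∑ k ∈ D.KX, (u (Sum.inl (some (Sum.inr k))) : ℤ) +
      ∑ l ∈ Finset.univ.filter (fun l => D.β l ∈ D.KX), (u (Sum.inr l) : ℤ))) : MCˣ) : MC) := by
  classical
  unfold wtm
  rw [Fintype.prod_sum_type, Fintype.prod_option]
  have e0 : D.rho BB B₀ (Sum.inl none) = 1 := rfl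
  rw [e0, one_pow, one_mul]
  unfold Dat.rho
  simp only [Sum.elim_inl, Sum.elim_inr, Option.elim_some, mul_pow, Finset.prod_mul_distrib]
  rw [pd3_prod, pd3_prod, pd3_prod, ← Units.val_mul, ← Units.val_mul]
  congr 1
  rw [← zpow_natCast, ← zpow_natCast, ← zpow_natCast, inv_zpow', inv_zpow', ← zpow_add,
    ← zpow_add]
  congr 1
  push_cast
  have hFK : D.Fb BB ⊆ D.KX := by
    intro k hk
    simp only [Dat.Fb, Finset.mem_filter] at hk
    exact hk.1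
  have hFB : ∀ k ∈ D.Fb BB, Sum.inr k ∈ B₀ := by
    intro k hk
    simp only [Dat.Fb, Finset.mem_filter] at hk
    exact hk.2 B₀ hB₀
  have hm : ∀ (A : Finset (Fin s)) (i : J ⊕ Fin s),
      i ∈ A.map ⟨Sum.inr, Sum.inr_injective⟩ ↔ ∃ k ∈ A, i = Sum.inr k := by
    intro A i
    rw [Finset.mem_map]
    constructor
    · rintro ⟨k, hk, rfl⟩
      exact ⟨k, hk, rfl⟩
    · rintro ⟨k, hk, rfl⟩
      exact ⟨k, hk, rfl⟩
  have e1 : (∑ i ∈ Finset.univ.filter (fun i =>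
      i ∈ B₀ ∧ i ∉ (D.Fb BB).map ⟨Sum.inr, Sum.inr_injective⟩), (u (Sum.inl (some i)) : ℤ)) +
      ∑ k ∈ D.Fb BB, (u (Sum.inl (some (Sum.inr k))) : ℤ) =
      ∑ b ∈ B₀, (u (Sum.inl (some b)) : ℤ) := by
    rw [← Finset.sum_filter_add_sum_filter_not B₀
      (fun i => i ∉ (D.Fb BB).map ⟨Sum.inr, Sum.inr_injective⟩)
      (fun b => (u (Sum.inl (some b)) : ℤ))]
    congr 1
    · refine Finset.sum_congr ?_ fun _ _ => rfl
      ext i
      simp
    · have e3 : B₀.filter (fun i => ¬ i ∉ (D.Fb BB).map ⟨Sum.inr, Sum.inr_injective⟩) =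
          (D.Fb BB).map ⟨Sum.inr, Sum.inr_injective⟩ := by
        ext i
        rw [Finset.mem_filter, not_not]
        constructor
        · exact fun h => h.2
        · intro h
          refine ⟨?_, h⟩
          obtain ⟨k, hk, rfl⟩ := (hm _ _).1 h
          exact hFB k hk
      rw [e3, Finset.sum_map]
      rfl
  have e2 : (∑ i ∈ Finset.univ.filter (fun i : J ⊕ Fin s =>
      i ∈ (D.KX \ D.Fb BB).map ⟨Sum.inr, Sum.inr_injective⟩), (u (Sum.inl (some i)) : ℤ)) +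
      ∑ k ∈ D.Fb BB, (u (Sum.inl (some (Sum.inr k))) : ℤ) =
      ∑ k ∈ D.KX, (u (Sum.inl (some (Sum.inr k))) : ℤ) := by
    rw [← Finset.sum_sdiff hFK (f := fun k => (u (Sum.inl (some (Sum.inr k))) : ℤ))]
    congr 1
    have e3 : (Finset.univ.filter (fun i : J ⊕ Fin s =>
        i ∈ (D.KX \ D.Fb BB).map ⟨Sum.inr, Sum.inr_injective⟩)) =
        (D.KX \ D.Fb BB).map ⟨Sum.inr, Sum.inr_injective⟩ := by
      ext i
      simp
    rw [e3, Finset.sum_map]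
    rfl
  have e4 := e1
  have e5 := e2
  have h1 : (∑ i ∈ Finset.univ.filter (fun i =>
      i ∈ B₀ ∧ i ∉ (D.Fb BB).map ⟨Sum.inr, Sum.inr_injective⟩), (u (Sum.inl (some i)) : ℤ)) =
      ∑ b ∈ B₀, (u (Sum.inl (some b)) : ℤ) -
        ∑ k ∈ D.Fb BB, (u (Sum.inl (some (Sum.inr k))) : ℤ) := by linarith
  have h2 : (∑ i ∈ Finset.univ.filter (fun i : J ⊕ Fin s =>
      i ∈ (D.KX \ D.Fb BB).map ⟨Sum.inr, Sum.inr_injective⟩), (u (Sum.inl (some i)) : ℤ)) =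
      ∑ k ∈ D.KX, (u (Sum.inl (some (Sum.inr k))) : ℤ) -
      ∑ k ∈ D.Fb BB, (u (Sum.inl (some (Sum.inr k))) : ℤ) := by linarith
  convert (show -(∑ b ∈ B₀, (u (Sum.inl (some b)) : ℤ) -
        ∑ k ∈ D.Fb BB, (u (Sum.inl (some (Sum.inr k))) : ℤ)) +
      (∑ k ∈ D.KX, (u (Sum.inl (some (Sum.inr k))) : ℤ) -
      ∑ k ∈ D.Fb BB, (u (Sum.inl (some (Sum.inr k))) : ℤ)) +
      -(∑ l ∈ Finset.univ.filter (fun l => D.β l ∈ D.KX), (u (Sum.inr l) : ℤ)) =
      -(∑ b ∈ B₀, (u (Sum.inl (some b)) : ℤ) -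
      ∑ k ∈ D.KX, (u (Sum.inl (some (Sum.inr k))) : ℤ) +
      ∑ l ∈ Finset.univ.filter (fun l => D.β l ∈ D.KX), (u (Sum.inr l) : ℤ)) by ring) using 2
  · rw [← h1, ← h2]

theorem ray_posV [Nonempty Γ] (hb₁ : b₁ ∈ D.VP P) {B₀ : Finset (J ⊕ Fin s)} (hB₀ : B₀ ∈ P.BB)
    {u : Option (J ⊕ Fin s) ⊕ Fin N → ℕ} (hu : ExtRay (D.ZV P) ((D.CV P B₀).image Prod.fst) u)
    (h0 : 0 < u (Sum.inl none)) :
    ∃ uh, EssX D.av D.W D.XI uh ∧ LF.mn D.W uh = D.E * u (Sum.inl none) ∧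
      ∃ ch : Fin s → Fin N, (∀ k, D.β (ch k) = k) ∧ ∃ m : ℤ,
        wtm (D.rho P.BB B₀) u = ((Lu ^ (-m) : MCˣ) : MC) ∧ (m : ℚ) = D.sig ch uh := by
  classical
  obtain ⟨hR, -, -⟩ := ray_basicV hb₁ hB₀ hu.zero hu.nonneg
  obtain ⟨ch, hch, hz, hd⟩ := ray_ch hb₁ hB₀ hu h0
  have hext := ray_extV hb₁ hB₀ hu h0
  have hpos : 0 < D.Ph u none := Nat.mul_pos (E_pos D) h0
  obtain ⟨hmn, -, -, hess⟩ := ray_essX (w := D.W) (S := ∅) (X := D.XI) pd3_av_ne
    (fun g hg => absurd hg (Finset.notMem_empty g)) (fun i hi => Or.inl hi)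
    hb₁.2.2.2.2.2.2 hB₀ hext hpos
  refine ⟨_, hess, hmn, ch, hch, _, pd3_wtm hB₀ u, ?_⟩
  unfold Dat.sig
  rw [hR.nu]
  have hy : ∀ k ∈ D.KX, LF.clo D.av (LF.DT D.W D.XI P.T) (fun j => D.Ph u (some j)) (Sum.inr k) =
      u (Sum.inl (some (Sum.inr k))) := by
    intro k hk
    refine hR.clo (Sum.inr k) ?_
    simp only [LF.DT, Finset.mem_filter, Finset.mem_univ, true_and]
    exact Or.inl (pd3_XI.2 ⟨k, hk, rfl⟩)
  have e1 : ∑ k ∈ D.KX, ((LF.clo D.av (LF.DT D.W D.XI P.T) (fun j => D.Ph u (some j))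
      (Sum.inr k) : ℕ) : ℚ) = ∑ k ∈ D.KX, (u (Sum.inl (some (Sum.inr k))) : ℚ) :=
    Finset.sum_congr rfl fun k hk => by rw [hy k hk]
  have e2 : ∑ k ∈ D.KX, ((LF.clo D.av (LF.DT D.W D.XI P.T) (fun j => D.Ph u (some j))
      (Sum.inr k) : ℕ) : ℚ) / D.d (ch k) = ∑ k ∈ D.KX, (u (Sum.inr (ch k)) : ℚ) := by
    refine Finset.sum_congr rfl fun k hk => ?_
    rw [hy k hk, ← hd k hk]
    have : (D.d (ch k) : ℚ) ≠ 0 := by
      exact_mod_cast (D.hd (ch k)).ne'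
    push_cast
    field_simp
  have e3 : ∑ l ∈ Finset.univ.filter (fun l => D.β l ∈ D.KX), (u (Sum.inr l) : ℚ) =
      ∑ k ∈ D.KX, (u (Sum.inr (ch k)) : ℚ) := by
    rw [← Finset.sum_fiberwise_of_maps_to (t := D.KX) (g := D.β)
      (fun l hl => (Finset.mem_filter.1 hl).2)]
    refine Finset.sum_congr rfl fun k hk => ?_
    rw [Finset.sum_eq_single (ch k)]
    · intro l hl hne
      rw [Finset.mem_filter, Finset.mem_filter] at hl
      rw [hz l hl.1.2 (by rw [hl.2]; exact hne), Nat.cast_zero]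
    · intro h
      exact absurd (by simp [hch k, hk]) h
  rw [e1, e2]
  push_cast
  rw [e3]
  rfl

end LFM
end MotMono
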