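import Pool.Agent.Lib.MP_4e5fcd_ag.LFM.Base
import Pool.Agent.Lib.MP_4e5fcd_ag.LF.X0
import Pool.Agent.Lib.MP_4e5fcd_ag.LF.J5

/-!
# LFM-PE0: classes of preimages under surjective linear maps, spaces of jets

`cls_linFib`: the proof of `LF.chi_linFib` (copy it): `{..} ≅ prodSet (W ⊓ ker φ) X`, `cls_prodSet`, `cls_submodule`:
`LL ^ finrank (W ⊓ ker φ) * cls X`, and `finrank (W ⊓ ker φ) + card β = finrank W` (rank-nullity for `φ.domRestrict W`).
`finrank_jets`: `W ≅ ∏_{l : Fin n} W_l`, `W_l = {x | a i ⬝ᵥ x = 0 for all i with l < mh i}` (levels; level `0` is `0`);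
`LF.finrank_ann`: `finrank W_l + rkS a {i | l + 1 ≤ mh i} = s`; sum over `l` and `LF.nu_eq_sum` (LF/J5).
-/

open MvPolynomial

namespace MotMono
namespace LFM

theorem cls_linFib {σ β : Type} [Finite σ] [Fintype β] (W : Submodule ℂ (σ → ℂ)) (p₀ : σ → ℂ)
    (φ : (σ → ℂ) →ₗ[ℂ] (β → ℂ)) (hφ : ∀ y, ∃ x ∈ W, φ x = y) {X : Set (β → ℂ)}
    (hX : Constr X) :
    ∃ e, e + Fintype.card β = Module.finrank ℂ W ∧
      cls {γ : σ → ℂ | γ - p₀ ∈ W ∧ φ (γ - p₀) ∈ X} = LL ^ e * cls X := by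
  obtain ⟨s, hs⟩ : ∃ s : (β → ℂ) →ₗ[ℂ] W, (φ.domRestrict W).comp s = LinearMap.id := by
    apply LinearMap.exists_rightInverse_of_surjective
    rw [LinearMap.range_eq_top]
    intro y
    obtain ⟨x, hx, hxy⟩ := hφ y
    exact ⟨⟨x, hx⟩, hxy⟩
  have hs1 : ∀ y, φ (s y : σ → ℂ) = y := by
    intro y
    have := LinearMap.congr_fun hs y
    simpa using this
  let s' : (β → ℂ) →ₗ[ℂ] (σ → ℂ) := W.subtype.comp s
  have hs' : ∀ y, φ (s' y) = y := hs1
  have hsW : ∀ y, s' y ∈ W := fun y => (s y).2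
  let Q : Submodule ℂ (σ → ℂ) := W ⊓ LinearMap.ker φ
  let inlM : (σ → ℂ) →ₗ[ℂ] (σ ⊕ β → ℂ) :=
    LinearMap.pi (Sum.elim (fun i => LinearMap.proj i) (fun _ => 0))
  let inrM : (β → ℂ) →ₗ[ℂ] (σ ⊕ β → ℂ) :=
    LinearMap.pi (Sum.elim (fun _ => 0) (fun i => LinearMap.proj i))
  let prl : (σ ⊕ β → ℂ) →ₗ[ℂ] (σ → ℂ) := LinearMap.pi (fun i => LinearMap.proj (Sum.inl i))
  let prr : (σ ⊕ β → ℂ) →ₗ[ℂ] (β → ℂ) := LinearMap.pi (fun i => LinearMap.proj (Sum.inr i))
  have e1 : ∀ u v, prl (inlM u + inrM v) = u := by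
    intro u v
    funext i
    simp [prl, inlM, inrM]
  have e2 : ∀ u v, prr (inlM u + inrM v) = v := by
    intro u v
    funext i
    simp [prr, inlM, inrM]
  have e3 : ∀ z, inlM (prl z) + inrM (prr z) = z := by
    intro z
    funext i
    rcases i with i | i <;> simp [prl, prr, inlM, inrM]
  have hQ : Constr (Q : Set (σ → ℂ)) := constr_submodule Q
  have hiso : RegIso {γ : σ → ℂ | γ - p₀ ∈ W ∧ φ (γ - p₀) ∈ X} (prodSet (Q : Set (σ → ℂ)) X) := by
    have hmem : ∀ z : σ ⊕ β → ℂ, z ∈ prodSet (Q : Set (σ → ℂ)) X ↔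
        (prl z ∈ W ∧ φ (prl z) = 0) ∧ prr z ∈ X := by
      intro z
      rfl
    let Fm : (σ → ℂ) →ₗ[ℂ] (σ ⊕ β → ℂ) := inlM.comp (LinearMap.id - s'.comp φ) + inrM.comp φ
    have hFm : ∀ x, Fm x + (inlM (-p₀ + s' (φ p₀)) + inrM (-(φ p₀))) =
        inlM ((x - p₀) - s' (φ (x - p₀))) + inrM (φ (x - p₀)) := by
      intro x
      simp only [Fm, LinearMap.add_apply, LinearMap.comp_apply, LinearMap.sub_apply,
        LinearMap.id_apply, map_add, map_sub, map_neg]
      abel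
    refine RegIso.linear Fm
      (prl + s'.comp prr) (inlM (-p₀ + s' (φ p₀)) + inrM (-(φ p₀))) p₀ ?_ ?_ ?_ ?_
    · rintro x ⟨hx1, hx2⟩
      rw [hFm x, hmem, e1, e2]
      refine ⟨⟨W.sub_mem hx1 (hsW _), ?_⟩, hx2⟩
      rw [map_sub, hs', sub_self]
    · intro z hz
      rw [hmem] at hz
      obtain ⟨⟨hz1, hz2⟩, hz3⟩ := hz
      rw [Set.mem_ofPred_eq]
      have h1 : (prl + s'.comp prr) z + p₀ - p₀ = prl z + s' (prr z) := by
        simp
      rw [h1, map_add, hz2, hs', zero_add]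
      exact ⟨W.add_mem hz1 (hsW _), hz3⟩
    · rintro x ⟨hx1, hx2⟩
      rw [hFm x]
      simp only [LinearMap.add_apply, LinearMap.comp_apply, e1, e2]
      abel
    · intro z hz
      rw [hmem] at hz
      obtain ⟨⟨hz1, hz2⟩, hz3⟩ := hz
      have h0 : (prl + s'.comp prr) z + p₀ - p₀ = prl z + s' (prr z) := by
        simp
      rw [hFm, h0, map_add φ, hz2, hs', zero_add, add_sub_cancel_right, e3]
  have hE := LF.constr_linFib W p₀ φ hX
  refine ⟨Module.finrank ℂ Q, ?_, ?_⟩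
  · have h1 := LinearMap.finrank_range_add_finrank_ker (φ.domRestrict W)
    have h2 : LinearMap.range (φ.domRestrict W) = ⊤ := by
      rw [LinearMap.range_eq_top]
      intro y
      obtain ⟨x, hx, hxy⟩ := hφ y
      exact ⟨⟨x, hx⟩, hxy⟩
    rw [h2, finrank_top, Module.finrank_pi] at h1
    have h3 : Module.finrank ℂ (LinearMap.ker (φ.domRestrict W)) = Module.finrank ℂ Q := by
      have e4 : (LinearMap.ker (φ.domRestrict W)).map W.subtype = Q := by
        ext x
        simp only [Submodule.mem_map, LinearMap.mem_ker, LinearMap.domRestrict_apply,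
          Submodule.subtype_apply, Q, Submodule.mem_inf]
        constructor
        · rintro ⟨y, hy, rfl⟩
          exact ⟨y.2, hy⟩
        · rintro ⟨hx, hx'⟩
          exact ⟨⟨x, hx⟩, hx', rfl⟩
      rw [← e4]
      exact (Submodule.finrank_map_subtype_eq W _).symm
    rw [h3] at h1
    omega
  · rw [cls_iso hE (hQ.prodSet hX) hiso, cls_prodSet hQ hX, cls_submodule]

/-- the conditions on the level `l + 1` -/
private def pe0W {I : Type} {s : ℕ} (a : I → Fin s → ℂ) (mh : I → ℕ) (l : ℕ) :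
    Submodule ℂ (Fin s → ℂ) where
  carrier := {x | ∀ i, l + 1 ≤ mh i → a i ⬝ᵥ x = 0}
  zero_mem' := by
    intro i _
    simp
  add_mem' := by
    intro x y hx hy i hi
    rw [dotProduct_add, hx i hi, hy i hi, add_zero]
  smul_mem' := by
    intro c x hx i hi
    rw [dotProduct_smul, hx i hi, smul_zero]

theorem finrank_jets {I : Type} [Fintype I] {s n : ℕ} (a : I → Fin s → ℂ) (mh : I → ℕ)
    (h : ∀ i, mh i ≤ n) (W : Submodule ℂ (Fin s × Fin (n + 1) → ℂ))
    (hW : ∀ z, z ∈ W ↔ (∀ k, z (k, 0) = 0) ∧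
      ∀ i, ∀ l : Fin n, (l : ℕ) < mh i → a i ⬝ᵥ lev z l.succ = 0) :
    Module.finrank ℂ W + LF.nu a mh = s * n := by
  have e : W ≃ₗ[ℂ] ((l : Fin n) → pe0W a mh l) :=
    { toFun := fun z l => ⟨lev z.1 l.succ, fun i hi => ((hW z.1).1 z.2).2 i l hi⟩
      map_add' := fun z z' => rfl
      map_smul' := fun c z => rfl
      invFun := fun x => ⟨fun q => Fin.cases (motive := fun _ => ℂ) 0
          (fun l => (x l : Fin s → ℂ) q.1) q.2, by
        rw [hW]
        refine ⟨fun k => by simp, fun i l hl => ?_⟩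
        have h1 := (x l).2 i hl
        have h2 : lev (fun q : Fin s × Fin (n + 1) => Fin.cases (motive := fun _ => ℂ) 0
            (fun l => (x l : Fin s → ℂ) q.1) q.2) l.succ = (x l : Fin s → ℂ) := by
          funext k
          simp [lev]
        rw [h2]
        exact h1⟩
      left_inv := by
        intro z
        apply Subtype.ext
        funext q
        obtain ⟨k, l⟩ := q
        refine Fin.cases ?_ (fun l => ?_) l
        · simp only [Fin.cases_zero]
          exact (((hW z.1).1 z.2).1 k).symm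
        · simp only [Fin.cases_succ]
          rfl
      right_inv := by
        intro x
        funext l
        apply Subtype.ext
        funext k
        simp [lev] }
  rw [e.finrank_eq, Module.finrank_pi_fintype, LF.nu_eq_sum a mh n h,
    ← Fin.sum_univ_eq_sum_range (fun l => LF.rkS a {i | l + 1 ≤ mh i}) n,
    ← Finset.sum_add_distrib]
  have h1 : ∀ l : Fin n, Module.finrank ℂ (pe0W a mh (l : ℕ)) +
      LF.rkS a {i | (l : ℕ) + 1 ≤ mh i} = s := fun l =>
    LF.finrank_ann a {i | (l : ℕ) + 1 ≤ mh i} (pe0W a mh (l : ℕ)) (fun x => Iff.rfl)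
  simp only [h1]
  simp [mul_comm]

end LFM
end MotMono
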