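import Pool.Agent.Lib.MP_4e5fcd_ag.LFM.Base
import Pool.Agent.Lib.MP_4e5fcd_ag.LF.A2
import Pool.Agent.Lib.MP_4e5fcd_ag.LF.P3

/-!
# LFM-PT: large values of a vector with a given pattern (`S = ∅`, `D = X` independent)

`top_mem`: let `j ∈ DT w X P.T`, `n ≤ mh j`. For `g ∈ P.T` with `w g j ≠ 0`: `mh j + 1 ≤ pair (w g) (mh + 1) < K' + Hb w ≤ n`, a
contradiction. So `w g j = 0` for `g ∈ P.T`, and `j ∈ X` by the definition of `DT`. Apply this to all `j ∈ DT` with
`mh i ≤ mh j`. For `B ∈ P.BB` (`IsPat.BB`): `a i ∈ sp {b ∈ B | mh i ≤ mh b}` and `{b ∈ B | mh i ≤ mh b} ⊆ X`; `i ∈ X` and `X` is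
independent, so `i` is one of these `b` (`LF.mem_sp_iff` / `LinearIndepOn.notMem_span_iff`).
`min_clo`: for `c ≤ n` the sets `{j ∈ D' | c ≤ x j}` and `{j ∈ D' | c ≤ min (x j) n}` agree; for `c > n` the second one is empty and
`a i ≠ 0` is not in its span. The sets `{c | a i ∈ sp ..}` are downward closed and bounded.
`ins`: if `pair (w g) (mh + 1) < K' + Hb w ≤ n` then `mh i < n` for all `i` with `w g i ≠ 0`, so `mh' i = mh i` for these `i` and
`pair (w g) (mh' + 1) = pair (w g) (mh + 1)`; and symmetrically. This gives `T`, `off`. `Z0`: `n ≥ 1`. `sx` is trivial. `BB`: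
by symmetry (`top_mem` needs only the condition on `pair` for `g ∈ P.T`, which holds for `mh'` too) let
`MaxB a D' mh B`, `i ∈ D'`. If `mh' i < n`: `mh i = mh' i` and `{b ∈ B | mh i ≤ mh b} = {b ∈ B | mh' i ≤ mh' b}`. If `n ≤ mh' i`: then
`n ≤ mh i`, so `i ∈ B` (proof of `top_mem`), and `a i ∈ sp {b ∈ B | mh' i ≤ mh' b} ∋ i`.
-/

open MvPolynomial

namespace MotMono
namespace LFM

variable {I Γ : Type} [Fintype I] [Fintype Γ] {s : ℕ} {a : I → Fin s → ℂ} {w : Γ → I → ℕ}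
  {X : Finset I} {K' n : ℕ} {mh : I → ℕ} {P : LF.Pat I Γ}

omit [Fintype Γ] in
private theorem pt_val {n : ℕ} {x : I → ℕ} {T : Finset Γ}
    (hT : ∀ g ∈ T, pair (w g) (fun i => x i + 1) < n) {j : I} (hj : j ∈ LF.DT w X T)
    (h : n ≤ x j) : j ∈ X ∧ ∀ g ∈ T, w g j = 0 := by
  classical
  have h1 : ∀ g ∈ T, w g j = 0 := by
    intro g hg
    by_contra h2
    have h3 := hT g hg
    have h4 := Finset.single_le_sum (f := fun i => w g i * (x i + 1))
      (fun _ _ => Nat.zero_le _) (Finset.mem_univ j)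
    have h5 : x j + 1 ≤ w g j * (x j + 1) := Nat.le_mul_of_pos_left _ (Nat.pos_of_ne_zero h2)
    unfold pair at h3
    beta_reduce at h3 h4
    omega
  refine ⟨?_, h1⟩
  unfold LF.DT at hj
  rw [Finset.mem_filter] at hj
  rcases hj.2 with h2 | ⟨g, hg, h2⟩
  · exact h2
  · exact absurd (h1 g hg) h2

omit [Fintype Γ] in
private theorem pt_bas (hX : LinearIndepOn ℂ a (X : Set I)) {n : ℕ} {x : I → ℕ} {T : Finset Γ}
    (hT : ∀ g ∈ T, pair (w g) (fun i => x i + 1) < n) {i : I} (hi : i ∈ LF.DT w X T)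
    (h : n ≤ x i) {B : Finset I} (hB : LF.MaxB a (LF.DT w X T) x B) : i ∈ B := by
  by_contra hiB
  have h1 := (pt_val hT hi h).1
  have h2 := hB.2 i hi
  have h3 : ({b | b ∈ B ∧ x i ≤ x b} : Set I) ⊆ (X : Set I) := by
    rintro b ⟨hb, hb2⟩
    exact Finset.mem_coe.2 (pt_val hT (hB.1.1 hb) (h.trans hb2)).1
  have h4 := (LF.mem_sp_iff hX (LF.mem_sp_of_mem (Finset.mem_coe.2 h1)) h3).1 h2 i h1
    (fun h5 => hiB h5.1)
  rw [LF.cf_self hX h1] at h4
  exact one_ne_zero h4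

theorem top_mem (hX : LinearIndepOn ℂ a (X : Set I)) (hP : LF.IsPat a w ∅ X K' mh P)
    (hn : K' + LF.Hb w ≤ n) {i : I} (hi : i ∈ LF.DT w X P.T) (h : n ≤ mh i) :
    i ∈ X ∧ (∀ g ∈ P.T, w g i = 0) ∧ ∀ B ∈ P.BB, i ∈ B := by
  have hT : ∀ g ∈ P.T, pair (w g) (fun i => mh i + 1) < n := fun g hg =>
    lt_of_lt_of_le ((hP.T g).1 hg).2 hn
  have h1 := pt_val hT hi h
  exact ⟨h1.1, h1.2, fun B hB => pt_bas hX hT hi h ((hP.BB B).1 hB)⟩

theorem min_clo (ha : ∀ i, a i ≠ 0) (D' : Finset I) (x : I → ℕ) (n : ℕ) (i : I) :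
    min (LF.clo a D' x i) n = LF.clo a D' (fun j => min (x j) n) i := by
  have key : ∀ c, 0 < c → (c ≤ min (LF.clo a D' x i) n ↔
      c ≤ LF.clo a D' (fun j => min (x j) n) i) := by
    intro c hc
    rw [le_min_iff, LF.le_clo_iff (ha i) hc, LF.le_clo_iff (ha i) hc]
    by_cases hcn : c ≤ n
    · have h1 : ({j | j ∈ D' ∧ c ≤ min (x j) n} : Set I) = {j | j ∈ D' ∧ c ≤ x j} := by
        ext j
        simp only [Set.mem_ofPred_eq, le_min_iff]
        exact ⟨fun h => ⟨h.1, h.2.1⟩, fun h => ⟨h.1, h.2, hcn⟩⟩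
      rw [h1]
      exact ⟨fun h => h.1, fun h => ⟨h, hcn⟩⟩
    · have h1 : ({j | j ∈ D' ∧ c ≤ min (x j) n} : Set I) = ∅ := by
        ext j
        simp only [Set.mem_ofPred_eq, le_min_iff, Set.mem_empty_iff_false, iff_false]
        exact fun h => hcn h.2.2
      rw [h1]
      constructor
      · exact fun h => absurd h.2 hcn
      · intro h
        unfold LF.sp at h
        rw [Set.image_empty, Submodule.span_empty, Submodule.mem_bot] at h
        exact absurd h (ha i)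
  refine le_antisymm ?_ ?_
  · rcases Nat.eq_zero_or_pos (min (LF.clo a D' x i) n) with h | h
    · rw [h]
      exact Nat.zero_le _
    · exact (key _ h).1 le_rfl
  · rcases Nat.eq_zero_or_pos (LF.clo a D' (fun j => min (x j) n) i) with h | h
    · rw [h]
      exact Nat.zero_le _
    · exact (key _ h).2 le_rfl

omit [Fintype Γ] in
private theorem pt_pair {n K₀ : ℕ} {x y : I → ℕ} (hmin : ∀ i, min (x i) n = min (y i) n)
    (hK : K₀ ≤ n) {g : Γ} (h : pair (w g) (fun i => x i + 1) < K₀) :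
    pair (w g) (fun i => y i + 1) = pair (w g) (fun i => x i + 1) := by
  unfold pair at h ⊢
  refine Finset.sum_congr rfl fun i _ => ?_
  beta_reduce at h ⊢
  by_cases hw : w g i = 0
  · rw [hw, zero_mul, zero_mul]
  · have h4 := Finset.single_le_sum (f := fun i => w g i * (x i + 1))
      (fun _ _ => Nat.zero_le _) (Finset.mem_univ i)
    have h5 : x i + 1 ≤ w g i * (x i + 1) := Nat.le_mul_of_pos_left _ (Nat.pos_of_ne_zero hw)
    have h6 := hmin i
    have h7 : y i = x i := by omega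
    rw [h7]

omit [Fintype Γ] in
private theorem pt_maxB (hX : LinearIndepOn ℂ a (X : Set I)) {n : ℕ} {x y : I → ℕ}
    (hmin : ∀ i, min (x i) n = min (y i) n) {T : Finset Γ}
    (hT : ∀ g ∈ T, pair (w g) (fun i => x i + 1) < n) {B : Finset I}
    (hB : LF.MaxB a (LF.DT w X T) x B) : LF.MaxB a (LF.DT w X T) y B := by
  refine ⟨hB.1, fun i hi => ?_⟩
  have h6 := hmin i
  by_cases h : y i < n
  · refine LF.sp_mono ?_ (hB.2 i hi)
    rintro b ⟨hb, hb2⟩
    refine ⟨hb, ?_⟩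
    have h7 := hmin b
    omega
  · have h7 : n ≤ x i := by omega
    exact LF.mem_sp_of_mem ⟨pt_bas hX hT hi h7 hB, le_rfl⟩

/-- the pattern does not see values above `n` -/
theorem ins (hX : LinearIndepOn ℂ a (X : Set I)) (hP : LF.IsPat a w ∅ X K' mh P)
    (hn : K' + LF.Hb w ≤ n) {mh' : I → ℕ} (hmin : ∀ i, min (mh i) n = min (mh' i) n)
    (hcl : ∀ i, LF.clo a (LF.DT w X P.T) mh' i = mh' i) : LF.IsPat a w ∅ X K' mh' P := by
  have hmin' : ∀ i, min (mh' i) n = min (mh i) n := fun i => (hmin i).symm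
  have hT : ∀ g ∈ P.T, pair (w g) (fun i => mh i + 1) < K' + LF.Hb w := fun g hg =>
    ((hP.T g).1 hg).2
  have hT' : ∀ g ∈ P.T, pair (w g) (fun i => mh' i + 1) < K' + LF.Hb w := fun g hg => by
    rw [pt_pair hmin hn (hT g hg)]
    exact hT g hg
  have hn1 : 1 ≤ n := by
    have : 1 ≤ LF.Hb w := by
      unfold LF.Hb
      omega
    omega
  refine ⟨hcl, ?_, ?_, ?_, hP.off0, ?_, ?_⟩
  · intro g hg
    simp at hg
  · intro g
    rw [hP.T g]
    refine and_congr_right fun _ => ⟨fun h => ?_, fun h => ?_⟩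
    · rw [pt_pair hmin hn h]
      exact h
    · rw [pt_pair hmin' hn h]
      exact h
  · intro g hg
    rw [pt_pair hmin hn (hT g hg)]
    exact hP.off g hg
  · intro B
    rw [hP.BB B]
    exact ⟨fun h => pt_maxB hX hmin (fun g hg => lt_of_lt_of_le (hT g hg) hn) h,
      fun h => pt_maxB hX hmin' (fun g hg => lt_of_lt_of_le (hT' g hg) hn) h⟩
  · intro i
    rw [hP.Z0 i]
    refine and_congr_right fun _ => ?_
    have h6 := hmin i
    omega

end LFM
end MotMono
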