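import Pool.Agent.Lib.MP_4e5fcd_ag.LFM.Base
import Pool.Agent.Lib.MP_4e5fcd_ag.Mon.T3
import Pool.Agent.Lib.MP_4e5fcd_ag.Mon.H2

/-!
# LFM-X1: jets over the jets of the monomials

Choose `piv` with `β (piv k) = k` (`hβ`). `Mon.cls_theta` for `P c z = (Sum.elim c (fun q => z q.2 q.1) ∈ Q)`
(`hFr` implies its hypothesis; `zc β d γ e i = yj β d γ (i, e)`) replaces `yj` by
`zvj v = fun q => Mon.zv β d piv o v q.2 q.1`. Now `V = {v ∈ Yset Fr o n | Sum.elim (lc o v) (zvj v) ∈ Q}`.
By the definition of `zv`, for `v ∈ Yset`: `zvj v (k, e)` is `0` for `e < ν_k`, `ν_k = Mon.nuv β d o k`,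
`∏ lc ^ d` for `e = ν_k`, and `v (piv k, e - ν_k + o (piv k))` for `e > ν_k` (the index is `< n` since
`o (piv k) ≤ ν_k`, `d ≥ 1`). So
`V ≅ (XYM β d Fr o n ∩ Q) × A^mo` : `v ↦ ((lc o v, zvj v), the coefficients v (l, j) with o l < j which are
not of the form (piv k, e - ν_k + o (piv k)), ν_k < e < n)`. Inverse: `v (l, j) = 0` for `j < o l`,
`v (l, o l) = c_l` (`o l < n`), `v (piv k, e - ν_k + o (piv k)) = z (k, e)` for `ν_k < e < n`, the other
ones from the second factor. The number of the latter: for each `l` there are `n - 1 - o l`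
coefficients above `o l`, for each `k` exactly `n - 1 - ν_k` are used (natural subtraction, `o (piv k) ≤ ν_k`),
so `mo β d o n`. Everything is polynomial. A convenient way: `σ = {coordinates used} ⊕ {not used}`,
`cls_mul`/`Mon.cls_fibers` or `Mon.h2_box`; or write `V` and `prodSet (XYM ∩ Q) univ` and use `cls_iso`.
For the conditions `z_k[ν_k] = ∏ c ^ d` and `c_l ≠ 0` (`l ∉ Fr`, `o l < n`), `c_l = 0` (`n ≤ o l`: `lc = 0`).
-/

open MvPolynomial

namespace MotMono
namespace LFM

variable {N s : ℕ}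

theorem constr_XYM (β : Fin N → Fin s) (d : Fin N → ℕ) (Fr : Finset (Fin N)) (o : Fin N → ℕ)
    (n : ℕ) : Constr (XYM β d Fr o n) := by
  classical
  have h1 : Constr {z : Fin N ⊕ Fin s × Fin n → ℂ |
      ∀ k, ∀ j : Fin n, (j : ℕ) < Mon.nuv β d o k → z (Sum.inr (k, j)) = 0} := by
    have : {z : Fin N ⊕ Fin s × Fin n → ℂ |
        ∀ k, ∀ j : Fin n, (j : ℕ) < Mon.nuv β d o k → z (Sum.inr (k, j)) = 0} =
        ⋂ q : {q : Fin s × Fin n // (q.2 : ℕ) < Mon.nuv β d o q.1},
          {z | eval z (X (Sum.inr q.1)) = 0} := by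
      ext z
      simp
    rw [this]
    exact constr_iInter fun q => Constr.zeroSet _
  have h2 : Constr {z : Fin N ⊕ Fin s × Fin n → ℂ |
      ∀ k, ∀ h : Mon.nuv β d o k < n, z (Sum.inr (k, ⟨Mon.nuv β d o k, h⟩)) =
      ∏ l ∈ Finset.univ.filter (fun l => β l = k), z (Sum.inl l) ^ d l} := by
    have : {z : Fin N ⊕ Fin s × Fin n → ℂ |
      ∀ k, ∀ h : Mon.nuv β d o k < n, z (Sum.inr (k, ⟨Mon.nuv β d o k, h⟩)) =
      ∏ l ∈ Finset.univ.filter (fun l => β l = k), z (Sum.inl l) ^ d l} =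
        ⋂ k : {k : Fin s // Mon.nuv β d o k < n},
          {z | eval z (X (Sum.inr (k.1, ⟨_, k.2⟩))) =
            eval z (∏ l ∈ Finset.univ.filter (fun l => β l = k.1), X (Sum.inl l) ^ d l)} := by
      ext z
      simp
    rw [this]
    exact constr_iInter fun q => constr_eq _ _
  have h3 : Constr {z : Fin N ⊕ Fin s × Fin n → ℂ |
      ∀ l, l ∉ Fr → o l < n → z (Sum.inl l) ≠ 0} := by
    have : {z : Fin N ⊕ Fin s × Fin n → ℂ | ∀ l, l ∉ Fr → o l < n → z (Sum.inl l) ≠ 0} =
        ⋂ l : {l : Fin N // l ∉ Fr ∧ o l < n}, {z | eval z (X (Sum.inl l.1)) ≠ 0} := by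
      ext z
      simp
    rw [this]
    exact constr_iInter fun q => constr_ne _
  have h4 : Constr {z : Fin N ⊕ Fin s × Fin n → ℂ | ∀ l, n ≤ o l → z (Sum.inl l) = 0} := by
    have : {z : Fin N ⊕ Fin s × Fin n → ℂ | ∀ l, n ≤ o l → z (Sum.inl l) = 0} =
        ⋂ l : {l : Fin N // n ≤ o l}, {z | eval z (X (Sum.inl l.1)) = 0} := by
      ext z
      simp
    rw [this]
    exact constr_iInter fun q => Constr.zeroSet _
  exact h1.inter (h2.inter (h3.inter h4))

private theorem x1_piv_le (β : Fin N → Fin s) (d : Fin N → ℕ) (hd : ∀ l, 0 < d l)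
    (piv : Fin s → Fin N) (hpiv : ∀ k, β (piv k) = k) (o : Fin N → ℕ) (k : Fin s) :
    o (piv k) ≤ Mon.nuv β d o k := by
  unfold Mon.nuv
  have h1 := Finset.single_le_sum (f := fun l => d l * o l)
    (s := Finset.univ.filter (fun l => β l = k)) (fun _ _ => Nat.zero_le _)
    (Finset.mem_filter.2 ⟨Finset.mem_univ (piv k), hpiv k⟩)
  exact (Nat.le_mul_of_pos_left _ (hd _)).trans h1

private theorem x1_row (n a : ℕ) :
    (Finset.univ.filter (fun j : Fin n => a < (j : ℕ))).card = n - 1 - a := by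
  have h1 : ((Finset.univ.filter (fun j : Fin n => a < (j : ℕ))).map Fin.valEmbedding) =
      Finset.Ico (a + 1) n := by
    ext x
    simp only [Finset.mem_map, Finset.mem_filter, Finset.mem_univ, true_and,
      Fin.valEmbedding_apply, Finset.mem_Ico]
    constructor
    · rintro ⟨j, hj, rfl⟩
      exact ⟨hj, j.2⟩
    · rintro ⟨h1, h2⟩
      exact ⟨⟨x, h2⟩, h1, rfl⟩
  rw [← Finset.card_map Fin.valEmbedding, h1, Nat.card_Ico]
  omega

private theorem x1_rows {κ : Type} [Fintype κ] [DecidableEq κ] (n : ℕ) (a : κ → ℕ) :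
    (Finset.univ.filter (fun q : κ × Fin n => a q.1 < (q.2 : ℕ))).card =
      ∑ l, (n - 1 - a l) := by
  rw [Finset.card_eq_sum_ones, Finset.sum_filter, Fintype.sum_prod_type]
  refine Finset.sum_congr rfl fun l _ => ?_
  rw [← x1_row n (a l), Finset.card_eq_sum_ones, Finset.sum_filter]

/-- the coefficients which are not used -/
private def X1F (β : Fin N → Fin s) (d : Fin N → ℕ) (piv : Fin s → Fin N) (o : Fin N → ℕ)
    (n : ℕ) (q : Fin N × Fin n) : Prop :=
  o q.1 < (q.2 : ℕ) ∧ ¬ (q.1 = piv (β q.1) ∧ (q.2 : ℕ) - o q.1 + Mon.nuv β d o (β q.1) < n)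

open Classical in
private theorem x1_card (β : Fin N → Fin s) (d : Fin N → ℕ) (hd : ∀ l, 0 < d l)
    (piv : Fin s → Fin N) (hpiv : ∀ k, β (piv k) = k) (o : Fin N → ℕ) (n : ℕ) :
    Fintype.card {q : Fin N × Fin n // X1F β d piv o n q} = mo β d o n := by
  rw [Fintype.card_subtype]
  have h1 := x1_rows n o
  have h2 := x1_rows n (Mon.nuv β d o)
  have h3 : (Finset.univ.filter (fun q : Fin s × Fin n => Mon.nuv β d o q.1 < (q.2 : ℕ))).card =
      ((Finset.univ.filter (fun q : Fin N × Fin n => o q.1 < (q.2 : ℕ))).filter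
        fun q => q.1 = piv (β q.1) ∧ (q.2 : ℕ) - o q.1 + Mon.nuv β d o (β q.1) < n).card := by
    have hle := x1_piv_le β d hd piv hpiv o
    refine Finset.card_bij (fun q hq => (piv q.1, ⟨q.2 - Mon.nuv β d o q.1 + o (piv q.1), by
      have h4 := (Finset.mem_filter.1 hq).2
      have h5 := hle q.1
      have h6 := q.2.2
      omega⟩)) ?_ ?_ ?_
    · intro q hq
      have h4 := (Finset.mem_filter.1 hq).2
      have h5 := hle q.1
      have h6 := q.2.2
      simp only [Finset.mem_filter, Finset.mem_univ, true_and, hpiv]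
      exact ⟨by omega, by omega⟩
    · intro q hq q' hq' h
      have h4 := (Finset.mem_filter.1 hq).2
      have h4' := (Finset.mem_filter.1 hq').2
      simp only [Prod.mk.injEq, Fin.mk.injEq] at h
      have h7 : q.1 = q'.1 := by rw [← hpiv q.1, h.1, hpiv]
      have h8 := h.2
      rw [h7] at h8 h4
      exact Prod.ext h7 (Fin.ext (by omega))
    · intro q hq
      simp only [Finset.mem_filter, Finset.mem_univ, true_and] at hq
      obtain ⟨h4, h5, h6⟩ := hq
      refine ⟨(β q.1, ⟨(q.2 : ℕ) - o q.1 + Mon.nuv β d o (β q.1), h6⟩), ?_, ?_⟩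
      · simp only [Finset.mem_filter, Finset.mem_univ, true_and]
        omega
      · refine Prod.ext h5.symm (Fin.ext ?_)
        simp only [← h5]
        omega
  have h4 := Finset.card_filter_add_card_filter_not
    (s := Finset.univ.filter (fun q : Fin N × Fin n => o q.1 < (q.2 : ℕ)))
    (fun q => q.1 = piv (β q.1) ∧ (q.2 : ℕ) - o q.1 + Mon.nuv β d o (β q.1) < n)
  have h5 : (Finset.univ.filter (fun q : Fin N × Fin n => X1F β d piv o n q)) =
      ((Finset.univ.filter (fun q : Fin N × Fin n => o q.1 < (q.2 : ℕ))).filter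
        fun q => ¬ (q.1 = piv (β q.1) ∧ (q.2 : ℕ) - o q.1 + Mon.nuv β d o (β q.1) < n)) := by
    ext q
    simp only [Finset.mem_filter, Finset.mem_univ, true_and, X1F]
  rw [h5]
  unfold mo
  rw [h1, ← h3, h2] at h4
  omega

private noncomputable def x1lc (o : Fin N → ℕ) (n : ℕ) (l : Fin N) :
    MvPolynomial (Fin N × Fin n) ℂ :=
  if h : o l < n then X (l, ⟨o l, h⟩) else 0

private theorem x1lc_eval (o : Fin N → ℕ) {n : ℕ} (l : Fin N) (γ : Fin N × Fin n → ℂ) :
    eval γ (x1lc o n l) = Mon.lc o γ l := by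
  unfold x1lc Mon.lc
  split_ifs with h
  · rw [eval_X]
  · rw [map_zero]

open Classical in
private noncomputable def x1g (β : Fin N → Fin s) (d : Fin N → ℕ) (piv : Fin s → Fin N)
    (o : Fin N → ℕ) (n : ℕ)
    (w : (Fin N ⊕ Fin s × Fin n) ⊕ {q : Fin N × Fin n // X1F β d piv o n q} → ℂ)
    (q : Fin N × Fin n) : ℂ :=
  if (q.2 : ℕ) < o q.1 then 0
  else if (q.2 : ℕ) = o q.1 then w (Sum.inl (Sum.inl q.1))
  else if h : q.1 = piv (β q.1) ∧ (q.2 : ℕ) - o q.1 + Mon.nuv β d o (β q.1) < n then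
    w (Sum.inl (Sum.inr (β q.1, ⟨(q.2 : ℕ) - o q.1 + Mon.nuv β d o (β q.1), h.2⟩)))
  else if h : X1F β d piv o n q then w (Sum.inr ⟨q, h⟩) else 0

theorem cls_XY (β : Fin N → Fin s) (hβ : Function.Surjective β) (d : Fin N → ℕ)
    (hd : ∀ l, 0 < d l) (Fr : Finset (Fin N))
    (hFr : ∀ l ∈ Fr, d l = 1 ∧ ∀ l', β l' = β l → l' = l) (o : Fin N → ℕ) (n : ℕ)
    (Q : Set (Fin N ⊕ Fin s × Fin n → ℂ)) (hQ : Constr Q) :
    Constr {γ : Fin N × Fin n → ℂ | γ ∈ Mon.Yset Fr o n ∧
      Sum.elim (Mon.lc o γ) (yj β d γ) ∈ Q} ∧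
    cls {γ : Fin N × Fin n → ℂ | γ ∈ Mon.Yset Fr o n ∧ Sum.elim (Mon.lc o γ) (yj β d γ) ∈ Q} =
      LL ^ mo β d o n * cls (XYM β d Fr o n ∩ Q) := by
  classical
  choose piv hpiv using hβ
  have hle := x1_piv_le β d hd piv hpiv o
  have hPC : Mon.PC (N := N) (s := s) (n := n)
      (fun c z => Sum.elim c (fun q : Fin s × Fin n => z q.2 q.1) ∈ Q) := by
    have h := hQ.comp (Sum.elim Sum.inl (fun q => Sum.inr (q.2, q.1)) :
      Fin N ⊕ Fin s × Fin n → Fin N ⊕ Fin n × Fin s)
    unfold Mon.PC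
    convert h using 1
    ext w
    have e : (Sum.elim (fun l => w (Sum.inl l))
        fun q : Fin s × Fin n => w (Sum.inr (q.2, q.1))) =
        fun j => w ((Sum.elim Sum.inl (fun q => Sum.inr (q.2, q.1)) :
          Fin N ⊕ Fin s × Fin n → Fin N ⊕ Fin n × Fin s) j) := by
      funext j
      rcases j with j | j <;> rfl
    rw [Set.mem_ofPred_eq, Set.mem_ofPred_eq]
    beta_reduce
    rw [e]
  have e1 := Mon.constr_zc β d Fr o _ hPC
  have e3 := Mon.constr_zv β d piv Fr o _ hPC
  have e2 := Mon.cls_theta β d hd piv hpiv Fr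
    (fun l hl => ⟨((hFr l hl).2 _ (hpiv (β l))).symm, (hFr l hl).1⟩) o _ hPC
  refine ⟨e1, ?_⟩
  refine Eq.trans e2 ?_
  have hprod : cls (prodSet (XYM β d Fr o n ∩ Q)
      (Set.univ : Set ({q : Fin N × Fin n // X1F β d piv o n q} → ℂ))) =
      LL ^ mo β d o n * cls (XYM β d Fr o n ∩ Q) := by
    rw [cls_prodSet ((constr_XYM β d Fr o n).inter hQ) constr_univ, cls_univ,
      x1_card β d hd piv hpiv o n, mul_comm]
  rw [← hprod]
  refine cls_iso e3 (((constr_XYM β d Fr o n).inter hQ).prodSet constr_univ) ?_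
  -- the values on the target
  have key1 : ∀ w ∈ prodSet (XYM β d Fr o n ∩ Q)
      (Set.univ : Set ({q : Fin N × Fin n // X1F β d piv o n q} → ℂ)),
      ∀ l, Mon.lc o (x1g β d piv o n w) l = w (Sum.inl (Sum.inl l)) := by
    rintro w ⟨⟨⟨-, -, -, h4⟩, -⟩, -⟩ l
    unfold Mon.lc
    split_ifs with h
    · unfold x1g
      simp
    · exact (h4 l (not_lt.1 h)).symm
  have key2 : ∀ w ∈ prodSet (XYM β d Fr o n ∩ Q)
      (Set.univ : Set ({q : Fin N × Fin n // X1F β d piv o n q} → ℂ)),
      ∀ k (e : Fin n), Mon.zv β d piv o (x1g β d piv o n w) e k =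
        w (Sum.inl (Sum.inr (k, e))) := by
    rintro w hw k e
    have hw' := hw
    obtain ⟨⟨⟨h1, h2, h3, h4⟩, -⟩, -⟩ := hw'
    unfold Mon.zv
    by_cases c1 : (e : ℕ) < Mon.nuv β d o k
    · rw [if_pos c1]
      exact (h1 k e c1).symm
    · rw [if_neg c1]
      by_cases c2 : (e : ℕ) = Mon.nuv β d o k
      · rw [if_pos c2]
        have h5 : Mon.nuv β d o k < n := c2 ▸ e.2
        have h6 := h2 k h5
        have h7 : (⟨Mon.nuv β d o k, h5⟩ : Fin n) = e := Fin.ext c2.symm
        rw [h7] at h6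
        refine Eq.trans ?_ h6.symm
        refine Finset.prod_congr rfl fun l _ => ?_
        rw [key1 w hw l]
      · rw [if_neg c2]
        have h5 := hle k
        have h6 := e.2
        have h7 : (e : ℕ) - Mon.nuv β d o k + o (piv k) < n := by omega
        rw [dif_pos h7]
        unfold x1g
        simp only [hpiv]
        rw [if_neg (by omega), if_neg (by omega), dif_pos ⟨trivial, by omega⟩]
        congr 4
        exact Fin.ext (by simp only; omega)
  have key3 : ∀ w ∈ prodSet (XYM β d Fr o n ∩ Q)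
      (Set.univ : Set ({q : Fin N × Fin n // X1F β d piv o n q} → ℂ)),
      (Sum.elim (Mon.lc o (x1g β d piv o n w)) fun q : Fin s × Fin n =>
        Mon.zv β d piv o (x1g β d piv o n w) q.2 q.1) = fun i => w (Sum.inl i) := by
    intro w hw
    funext i
    rcases i with l | q
    · exact key1 w hw l
    · exact key2 w hw q.1 q.2
  refine ⟨fun v => Sum.elim (Sum.elim (Mon.lc o v) fun q : Fin s × Fin n =>
    Mon.zv β d piv o v q.2 q.1) fun φ => v φ.1, x1g β d piv o n, ?_, ?_, ?_, ?_, ?_, ?_⟩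
  · rintro ((l | q) | φ)
    · refine (regFun_poly _ (x1lc o n l)).congr fun v _ => ?_
      rw [x1lc_eval]
      rfl
    · simp only [Sum.elim_inl, Sum.elim_inr, Mon.zv]
      split_ifs with c1 c2 c3
      · exact regFun_const _ _
      · refine (regFun_poly _ (∏ l ∈ Finset.univ.filter (fun l => β l = q.1),
          x1lc o n l ^ d l)).congr fun v _ => ?_
        rw [map_prod]
        refine Finset.prod_congr rfl fun l _ => ?_
        rw [map_pow, x1lc_eval]
      · exact regFun_coord _ _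
      · exact regFun_const _ _
    · exact regFun_coord _ _
  · intro q
    simp only [x1g]
    split_ifs with c1 c2 c3 c4
    · exact regFun_const _ _
    · exact regFun_coord _ _
    · exact regFun_coord _ _
    · exact regFun_coord _ _
    · exact regFun_const _ _
  · rintro v ⟨⟨hY1, hY2⟩, hvQ⟩
    refine ⟨⟨⟨?_, ?_, ?_, ?_⟩, hvQ⟩, Set.mem_univ _⟩
    · intro k j hj
      show Mon.zv β d piv o v j k = 0
      unfold Mon.zv
      rw [if_pos hj]
    · intro k h
      show Mon.zv β d piv o v (Mon.nuv β d o k) k = _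
      unfold Mon.zv
      rw [if_neg (lt_irrefl _), if_pos rfl]
      rfl
    · intro l hl h
      show Mon.lc o v l ≠ 0
      unfold Mon.lc
      rw [dif_pos h]
      exact hY2 l hl h
    · intro l h
      show Mon.lc o v l = 0
      unfold Mon.lc
      rw [dif_neg (not_lt.2 h)]
  · intro w hw
    refine ⟨⟨?_, ?_⟩, ?_⟩
    · intro l j hj
      unfold x1g
      rw [if_pos hj]
    · intro l hl h
      have h1 := key1 w hw l
      unfold Mon.lc at h1
      rw [dif_pos h] at h1
      rw [h1]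
      exact hw.1.1.2.2.1 l hl h
    · show (Sum.elim (Mon.lc o (x1g β d piv o n w)) fun q : Fin s × Fin n =>
        Mon.zv β d piv o (x1g β d piv o n w) q.2 q.1) ∈ Q
      rw [key3 w hw]
      exact hw.1.2
  · rintro v ⟨⟨hY1, hY2⟩, hvQ⟩
    funext q
    obtain ⟨l, j⟩ := q
    unfold x1g
    simp only
    by_cases c1 : (j : ℕ) < o l
    · rw [if_pos c1]
      exact (hY1 l j c1).symm
    · rw [if_neg c1]
      by_cases c2 : (j : ℕ) = o l
      · rw [if_pos c2]
        simp only [Sum.elim_inl]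
        have h5 : o l < n := c2 ▸ j.2
        unfold Mon.lc
        rw [dif_pos h5]
        congr 2
        exact Fin.ext c2.symm
      · rw [if_neg c2]
        by_cases c3 : l = piv (β l) ∧ (j : ℕ) - o l + Mon.nuv β d o (β l) < n
        · rw [dif_pos c3]
          simp only [Sum.elim_inl, Sum.elim_inr]
          unfold Mon.zv
          rw [if_neg (by omega), if_neg (by omega)]
          have h5 : (j : ℕ) - o l + Mon.nuv β d o (β l) - Mon.nuv β d o (β l) +
              o (piv (β l)) = j := by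
            rw [← c3.1]
            omega
          rw [dif_pos (by rw [h5]; exact j.2)]
          congr 1
          exact Prod.ext c3.1.symm (Fin.ext h5)
        · rw [dif_neg c3]
          have h5 : X1F β d piv o n (l, j) := ⟨by simp only; omega, c3⟩
          rw [dif_pos h5]
          rfl
  · intro w hw
    funext i
    rcases i with i | φ
    · exact congrFun (key3 w hw) i
    · show x1g β d piv o n w φ.1 = w (Sum.inr φ)
      unfold x1g
      have h5 := φ.2
      have h6 := h5.1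
      rw [if_neg (by omega), if_neg (by omega), dif_neg h5.2, dif_pos h5]

end LFM
end MotMono
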