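import Pool.Agent.Lib.MP_4e5fcd_ag.LFM.Base
import Pool.Agent.Lib.MP_4e5fcd_ag.Mon.T3
import Pool.Agent.Lib.MP_4e5fcd_ag.LF.J3
import Pool.Agent.Lib.MP_4e5fcd_ag.Mon.G1
import Pool.Agent.Lib.MP_4e5fcd_ag.Kum.S3a

/-!
# LFM-X2: basic facts on the jets of the monomials

`Mon.zc β d γ e i = (∏_{β l = i} arc γ l ^ d l).coeff e`, `yj β d γ (k, e) = zc β d γ e k`.
`yj_zero`: the constant term of a product; `(arc γ l).coeff 0 = γ (l, 0)` (see `Mon.arc_coeff`, Mon/G1).
`yj_scale`: `arc (τ-scaled γ) l = C (τ ^ w l) * arc γ l`.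
`yj_eq_zero`: a factor vanishes, `d l > 0`.
`yj_trunc`: truncation does not change the coefficients of index `≤ m` of the arcs, and the
coefficients of index `≤ m` of products depend on those only (work modulo `X ^ (m + 1)`: `X ^ (m+1)` divides
`arc γ l - arc (trunc γ) l`, see `dvd_prod_sub`, `dvd_pow_sub` in Kum/S3a).
`constr_yj`: the coefficients of `yj β d γ` are polynomials in `γ` (`Mon.exists_poly_zc`), `Constr.comp`-like
lemma (`hP.preimage`, see Kum/E3b).
`vv_yj_top`: for `a i = Pi.single k 1`: `a i ⬝ᵥ lev γy l = γy (k, l)`; `vv = n` iff all levels `1 … n` vanish.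
-/

open MvPolynomial

namespace MotMono
namespace LFM

variable {I : Type} {N s : ℕ}

theorem yj_zero (β : Fin N → Fin s) (d : Fin N → ℕ) {n : ℕ} (γ : Fin N × Fin (n + 1) → ℂ)
    (k : Fin s) : yj β d γ (k, 0) = yv β d (fun l => γ (l, 0)) k := by
  show (∏ l ∈ Finset.univ.filter (fun l => β l = k), arc γ l ^ d l).coeff
    ((0 : Fin (n + 1)) : ℕ) = _
  unfold yv
  rw [Fin.val_zero, Polynomial.coeff_zero_eq_eval_zero, Polynomial.eval_prod]
  refine Finset.prod_congr rfl fun l _ => ?_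
  rw [Polynomial.eval_pow, ← Polynomial.coeff_zero_eq_eval_zero, Mon.arc_coeff,
    dif_pos (Nat.succ_pos n)]
  rfl

private lemma X2_zpow_sum {ι : Type} (S : Finset ι) (τ : ℂ) (hτ : τ ≠ 0) (f : ι → ℤ) :
    ∏ l ∈ S, τ ^ f l = τ ^ (∑ l ∈ S, f l) := by
  classical
  induction S using Finset.induction_on with
  | empty => simp
  | insert a s ha ih => rw [Finset.prod_insert ha, Finset.sum_insert ha, ih, zpow_add₀ hτ]

/-- the torus acts on the jets of the monomials -/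
theorem yj_scale (β : Fin N → Fin s) (d : Fin N → ℕ) {n : ℕ} (γ : Fin N × Fin n → ℂ)
    (w : Fin N → ℤ) (τ : ℂ) (hτ : τ ≠ 0) (k : Fin s) (j : Fin n) :
    yj β d (fun q => τ ^ w q.1 * γ q) (k, j) =
      τ ^ (∑ l ∈ Finset.univ.filter (fun l => β l = k), w l * d l) * yj β d γ (k, j) := by
  show (∏ l ∈ Finset.univ.filter (fun l => β l = k),
    arc (fun q : Fin N × Fin n => τ ^ w q.1 * γ q) l ^ d l).coeff (j : ℕ) =
    _ * (∏ l ∈ Finset.univ.filter (fun l => β l = k), arc γ l ^ d l).coeff (j : ℕ)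
  have h1 : ∀ l, arc (fun q : Fin N × Fin n => τ ^ w q.1 * γ q) l =
      Polynomial.C (τ ^ w l) * arc γ l := by
    intro l
    ext e
    rw [Polynomial.coeff_C_mul, Mon.arc_coeff, Mon.arc_coeff]
    by_cases he : e < n
    · rw [dif_pos he, dif_pos he]
    · rw [dif_neg he, dif_neg he, mul_zero]
  have h2 : ∏ l ∈ Finset.univ.filter (fun l => β l = k),
      arc (fun q : Fin N × Fin n => τ ^ w q.1 * γ q) l ^ d l =
      Polynomial.C (τ ^ (∑ l ∈ Finset.univ.filter (fun l => β l = k), w l * (d l : ℤ))) *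
        ∏ l ∈ Finset.univ.filter (fun l => β l = k), arc γ l ^ d l := by
    rw [← X2_zpow_sum _ τ hτ, map_prod, ← Finset.prod_mul_distrib]
    refine Finset.prod_congr rfl fun l _ => ?_
    rw [h1, mul_pow, zpow_mul, zpow_natCast, Polynomial.C_pow]
  rw [h2, Polynomial.coeff_C_mul]

theorem yj_eq_zero (β : Fin N → Fin s) (d : Fin N → ℕ) (hd : ∀ l, 0 < d l) {n : ℕ}
    (γ : Fin N × Fin n → ℂ) (l : Fin N) (h : ∀ j, γ (l, j) = 0) (j : Fin n) :
    yj β d γ (β l, j) = 0 := by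
  show (∏ l' ∈ Finset.univ.filter (fun l' => β l' = β l), arc γ l' ^ d l').coeff (j : ℕ) = 0
  have h1 : arc γ l = 0 := by
    ext e
    rw [Mon.arc_coeff, Polynomial.coeff_zero]
    by_cases he : e < n
    · rw [dif_pos he, h]
    · rw [dif_neg he]
  have h2 : ∏ l' ∈ Finset.univ.filter (fun l' => β l' = β l), arc γ l' ^ d l' = 0 := by
    refine Finset.prod_eq_zero (Finset.mem_filter.mpr ⟨Finset.mem_univ l, rfl⟩) ?_
    rw [h1, zero_pow (hd l).ne']
  rw [h2, Polynomial.coeff_zero]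

theorem yj_trunc (β : Fin N → Fin s) (d : Fin N → ℕ) {m n : ℕ} (hmn : m ≤ n)
    (γ : Fin N × Fin n → ℂ) (k : Fin s) (j : Fin m) :
    yj β d (fun q : Fin N × Fin m => γ (q.1, Fin.castLE hmn q.2)) (k, j) =
      yj β d γ (k, Fin.castLE hmn j) := by
  show (∏ l ∈ Finset.univ.filter (fun l => β l = k),
    arc (fun q : Fin N × Fin m => γ (q.1, Fin.castLE hmn q.2)) l ^ d l).coeff (j : ℕ) =
    (∏ l ∈ Finset.univ.filter (fun l => β l = k), arc γ l ^ d l).coeff (j : ℕ)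
  have h1 : ∀ l, Polynomial.X ^ m ∣
      arc (fun q : Fin N × Fin m => γ (q.1, Fin.castLE hmn q.2)) l - arc γ l := by
    intro l
    rw [Polynomial.X_pow_dvd_iff]
    intro e he
    rw [Polynomial.coeff_sub, Mon.arc_coeff, Mon.arc_coeff, dif_pos he,
      dif_pos (lt_of_lt_of_le he hmn)]
    exact sub_self _
  have h2 := Kum.dvd_prod_sub (Finset.univ.filter (fun l => β l = k)) m
    (fun l => arc (fun q : Fin N × Fin m => γ (q.1, Fin.castLE hmn q.2)) l ^ d l)
    (fun l => arc γ l ^ d l) (fun l _ => Kum.dvd_pow_sub m (d l) _ _ (h1 l))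
  rw [Polynomial.X_pow_dvd_iff] at h2
  have h3 := h2 j j.2
  rw [Polynomial.coeff_sub] at h3
  exact sub_eq_zero.mp h3

theorem constr_yj (β : Fin N → Fin s) (d : Fin N → ℕ) {n : ℕ}
    (Q : Set ((Fin N × Fin n) ⊕ Fin s × Fin n → ℂ)) (hQ : Constr Q) :
    Constr {γ : Fin N × Fin n → ℂ | Sum.elim γ (yj β d γ) ∈ Q} := by
  choose P hP using fun q : Fin s × Fin n => Mon.exists_poly_zc (n := n) β d (q.2 : ℕ) q.1
  have h := Constr.preimage hQ (fun j : (Fin N × Fin n) ⊕ Fin s × Fin n =>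
    Sum.elim (fun q => (X q : MvPolynomial (Fin N × Fin n) ℂ)) (fun q => P q) j)
  have e : {γ : Fin N × Fin n → ℂ | Sum.elim γ (yj β d γ) ∈ Q} =
      {x : Fin N × Fin n → ℂ | (fun j : (Fin N × Fin n) ⊕ Fin s × Fin n => eval x
        (Sum.elim (fun q => (X q : MvPolynomial (Fin N × Fin n) ℂ)) (fun q => P q) j)) ∈ Q} := by
    ext γ
    rw [Set.mem_ofPred_eq, Set.mem_ofPred_eq]
    have h1 : (fun j : (Fin N × Fin n) ⊕ Fin s × Fin n => eval γ
        (Sum.elim (fun q => (X q : MvPolynomial (Fin N × Fin n) ℂ)) (fun q => P q) j)) =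
        Sum.elim γ (yj β d γ) := by
      funext j
      rcases j with q | q
      · show eval γ (X q : MvPolynomial (Fin N × Fin n) ℂ) = γ q
        rw [eval_X]
      · exact hP q γ
    rw [h1]
  rw [e]
  exact h

theorem vv_single {a : I → Fin s → ℂ} {i : I} {k : Fin s} (h : a i = Pi.single k 1) {n : ℕ}
    (γ : Fin s × Fin (n + 1) → ℂ) :
    (n ≤ LF.vv a γ i ↔ ∀ j : Fin n, γ (k, j.succ) = 0) ∧
      (∀ hv : LF.vv a γ i < n, LF.lc a γ i = γ (k, Fin.succ ⟨LF.vv a γ i, hv⟩)) ∧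
      ∀ j : Fin n, (j : ℕ) < LF.vv a γ i → γ (k, j.succ) = 0 := by
  have h0 : ∀ l : Fin (n + 1), a i ⬝ᵥ lev γ l = γ (k, l) := by
    intro l
    rw [h, single_dotProduct, one_mul]
    rfl
  refine ⟨?_, ?_, ?_⟩
  · rw [LF.le_vv_iff (a := a) (γ := γ) (i := i) le_rfl]
    constructor
    · intro h1 j
      rw [← h0]
      exact h1 j j.2
    · intro h1 j _
      rw [h0]
      exact h1 j
  · intro hv
    rw [LF.lc_eq hv, h0]
  · intro j hj
    rw [← h0]
    exact (LF.le_vv_iff (a := a) (γ := γ) (i := i) (LF.vv_le a γ i)).mp le_rfl j hj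

end LFM
end MotMono
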