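import Pool.Agent.Lib.MP_4e5fcd_ag.LFM.PE0
import Pool.Agent.Lib.MP_4e5fcd_ag.LFM.PT
import Pool.Agent.Lib.MP_4e5fcd_ag.LFM.X1
import Pool.Agent.Lib.MP_4e5fcd_ag.LFM.X2
import Pool.Agent.Lib.MP_4e5fcd_ag.LF.X1b
import Pool.Agent.Lib.MP_4e5fcd_ag.LF.F5

/-!
# LFM-PE1: the cells and the sets of leading coefficients

`cls_XYM_MS`. Note `n ≥ Hb ≥ 1`. For `k ∉ KX` the block is `{l}`, `l ∈ Pl`, `d l = 1`, `nuv k = o l = 1`. For `k ∈ KX`: `nuv k ≤ n` iff
`mh (inr k) < n`, and then `nuv k = mh (inr k) + 1`. Write `z = (c, y)`. `z ∈ XYM ∩ Q` iff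
(i) `y (k, 0) = 0` for all `k` (`nuv k ≥ 1`) and `mh i ≤ vv i` for all `i` (for `k ∈ KX` this contains `y (k, j) = 0` for
`j < nuv k`: `vv_single`, X2), (ii) `c l = y (β l, 1)` for `l ∈ Pl` (the condition at `nuv k = 1`; `c l` is not restricted
otherwise), (iii) for `l ∉ Pl`: `c l ≠ 0` if `o l ≤ n`, `c l = 0` if `o l = n + 1`, (iv) for `k ∈ KX` with `mh (inr k) < n`:
`∏_{β l = k} c l ^ d l = y (k, mh (inr k) + 1) = av (inr k) ⬝ᵥ lev y (mh (inr k) + 1)`.
(i) is equivalent to: level `0` is `0` and `av b ⬝ᵥ lev y j = 0` for `b ∈ B₀`, `1 ≤ j ≤ mh b` (`hP.closed`: `av i` is in the span of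
`{j ∈ D' | mh i ≤ mh j}`, hence of `{b ∈ B₀ | mh i ≤ mh b}` (`MaxB.level`), if `mh i ≥ 1`; `LF.le_vv_iff`).
In (iv), since `inr k ∈ XI ⊆ D'`: the right side is `ci av B₀ mh (av b ⬝ᵥ lev y (mh b + 1))_b (inr k)` (as `X1a_ci`/`mem_YS_iff`,
LF/X1a: the terms `b` with `mh b > mh (inr k)` vanish by (i); `LF.cf_sum`, `MaxB.le`).
Let `W` be the submodule given by (i), (ii), `β' = {l // l ∉ Pl} ⊕ {b : B₀ // mh b < n}`,
`φ (c, y) = (c l, av b ⬝ᵥ lev y (mh b + 1))`; it maps `W` onto `ℂ^β'` (`LF.exists_dual` for `B₀`: for given values `t b` take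
`y (k, j) = ∑_{b, mh b + 1 = j} t b * e b k`, and `c l = y (β l, 1)` for `l ∈ Pl`). `cls_linFib` with `p₀ = 0`, `X'` = the conditions
(iii), (iv) (constructible), `finrank W = #{l ∉ Pl} + (s n - nu)` by `finrank_jets` (`W ≅ (functions on {l ∉ Pl}) × jets`).
`cls X' = cls MS`: extension by `0` (`cls_iso`).
`cls_cell_MS`: `cls_XY` (`Fr = Pl`, `hFr`: the blocks not in `KX` have one variable and `d = 1`).
-/

open MvPolynomial

namespace MotMono
namespace LFM

variable {J Γ : Type} [Fintype J] [Fintype Γ] {N s : ℕ} {D : Dat J Γ N s}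

open Classical in
/-- the leading coefficients of the variables which are not plain, and of the forms in `B₀` -/
noncomputable def Dat.MS (D : Dat J Γ N s) (B₀ : Finset (J ⊕ Fin s)) (n : ℕ) (o : Fin N → ℕ)
    (mh : J ⊕ Fin s → ℕ) : Set (Fin N ⊕ B₀ → ℂ) :=
  {z | (∀ l, l ∉ D.Pl → o l ≤ n → z (Sum.inl l) ≠ 0) ∧
    (∀ l, l ∈ D.Pl ∨ n < o l → z (Sum.inl l) = 0) ∧
    (∀ b : B₀, n ≤ mh b → z (Sum.inr b) = 0) ∧
    ∀ k ∈ D.KX, mh (Sum.inr k) < n →
      ∏ l ∈ Finset.univ.filter (fun l => D.β l = k), z (Sum.inl l) ^ D.d l =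
        LF.ci D.av B₀ mh (fun b => z (Sum.inr b)) (Sum.inr k)}

/-- the hypotheses on a cell -/
structure Dat.CellH (D : Dat J Γ N s) (P : LF.Pat (J ⊕ Fin s) Γ) (K n : ℕ) (o : Fin N → ℕ)
    (mh : J ⊕ Fin s → ℕ) : Prop where
  hP : LF.IsPat D.av D.W ∅ D.XI (D.E * K) mh P
  hn : D.E * K + LF.Hb D.W ≤ n
  hmh : ∀ i, mh i ≤ n
  ho1 : ∀ l, 1 ≤ o l
  ho2 : ∀ l, o l ≤ n + 1
  hPl : ∀ l ∈ D.Pl, o l = 1
  hk : ∀ k ∈ D.KX, mh (Sum.inr k) + 1 = min (Mon.nuv D.β D.d o k) (n + 1)

variable {P : LF.Pat (J ⊕ Fin s) Γ} {K n : ℕ} {o : Fin N → ℕ} {mh : J ⊕ Fin s → ℕ}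

omit [Fintype J] [Fintype Γ] in
private theorem pe1_KX {k : Fin s} :
    k ∈ D.KX ↔ ∃ l, D.β l = k ∧ (2 ≤ D.d l ∨ ∃ l', l' ≠ l ∧ D.β l' = k) := by
  unfold Dat.KX
  rw [Finset.mem_filter]
  exact ⟨fun h => h.2, fun h => ⟨Finset.mem_univ _, h⟩⟩

omit [Fintype J] [Fintype Γ] in
private theorem pe1_Pl {l : Fin N} : l ∈ D.Pl ↔ D.β l ∉ D.KX := by
  unfold Dat.Pl
  rw [Finset.mem_filter]
  exact ⟨fun h => h.2, fun h => ⟨Finset.mem_univ _, h⟩⟩

omit [Fintype J] [Fintype Γ] in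
private theorem pe1_block {k : Fin s} (hk : k ∉ D.KX) {l : Fin N} (hl : D.β l = k) :
    D.d l = 1 ∧ ∀ l', D.β l' = k → l' = l := by
  rw [pe1_KX] at hk
  push Not at hk
  obtain ⟨h1, h2⟩ := hk l hl
  have h3 := D.hd l
  refine ⟨by omega, fun l' hl' => ?_⟩
  by_contra hne
  exact h2 l' hne hl'

omit [Fintype J] [Fintype Γ] in
private theorem pe1_filter {k : Fin s} (hk : k ∉ D.KX) {l : Fin N} (hl : D.β l = k) :
    Finset.univ.filter (fun l' => D.β l' = k) = {l} := by
  ext l'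
  rw [Finset.mem_filter, Finset.mem_singleton]
  refine ⟨fun h => (pe1_block hk hl).2 l' h.2, ?_⟩
  rintro rfl
  exact ⟨Finset.mem_univ _, hl⟩

omit [Fintype Γ] in
theorem constr_MS (B₀ : Finset (J ⊕ Fin s)) (n : ℕ) (o : Fin N → ℕ) (mh : J ⊕ Fin s → ℕ) :
    Constr (D.MS B₀ n o mh) := by
  classical
  have hex : ∀ i, ∃ Q : MvPolynomial (Fin N ⊕ B₀) ℂ, ∀ z : Fin N ⊕ B₀ → ℂ,
      eval z Q = LF.ci D.av B₀ mh (fun b => z (Sum.inr b)) i := by
    intro i
    refine ⟨∑ b : B₀, if mh b = mh i then C (LF.cf D.av B₀ i b) * X (Sum.inr b) else 0,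
      fun c => ?_⟩
    simp only [LF.ci, map_sum]
    refine Finset.sum_congr rfl fun b _ => ?_
    split_ifs
    · simp
    · simp
  choose g hg using hex
  have h1 : Constr (⋂ l : {l : Fin N // l ∉ D.Pl ∧ o l ≤ n},
      {z : Fin N ⊕ B₀ → ℂ | eval z (X (Sum.inl l.1)) ≠ 0}) :=
    constr_iInter fun l => constr_ne _
  have h2 : Constr (⋂ l : {l : Fin N // l ∈ D.Pl ∨ n < o l},
      {z : Fin N ⊕ B₀ → ℂ | eval z (X (Sum.inl l.1)) = 0}) :=
    constr_iInter fun l => Constr.zeroSet _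
  have h3 : Constr (⋂ b : {b : B₀ // n ≤ mh b},
      {z : Fin N ⊕ B₀ → ℂ | eval z (X (Sum.inr b.1)) = 0}) :=
    constr_iInter fun l => Constr.zeroSet _
  have h4 : Constr (⋂ k : {k : Fin s // k ∈ D.KX ∧ mh (Sum.inr k) < n},
      {z : Fin N ⊕ B₀ → ℂ | eval z (∏ l ∈ Finset.univ.filter (fun l => D.β l = k.1),
        X (Sum.inl l) ^ D.d l) = eval z (g (Sum.inr k.1))}) :=
    constr_iInter fun l => constr_eq _ _
  have h5 := ((h1.inter h2).inter h3).inter h4
  convert h5 using 1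
  ext z
  simp only [Dat.MS, Set.mem_ofPred_eq, Set.mem_inter_iff, Set.mem_iInter, Subtype.forall, eval_X,
    map_prod, map_pow, hg, and_imp]
  constructor
  · rintro ⟨e1, e2, e3, e4⟩
    exact ⟨⟨⟨e1, e2⟩, e3⟩, e4⟩
  · rintro ⟨⟨⟨e1, e2⟩, e3⟩, e4⟩
    exact ⟨e1, e2, e3, e4⟩

omit [Fintype J] [Fintype Γ] in
private theorem pe1_av {n : ℕ} (k : Fin s) (y : Fin s × Fin (n + 1) → ℂ) (j : Fin (n + 1)) :
    D.av (Sum.inr k) ⬝ᵥ lev y j = y (k, j) := by
  simp [Dat.av, dotProduct, lev, Pi.single_apply]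

omit [Fintype J] [Fintype Γ] in
private theorem pe1_ci {a : (J ⊕ Fin s) → Fin s → ℂ} {E : Finset (J ⊕ Fin s)}
    {m : (J ⊕ Fin s) → ℕ} {B : Finset (J ⊕ Fin s)} (hB : LF.MaxB a E m B)
    {γ : Fin s × Fin (n + 1) → ℂ}
    (hz : ∀ b ∈ B, ∀ l : Fin n, (l : ℕ) < m b → a b ⬝ᵥ lev γ l.succ = 0) {i : J ⊕ Fin s}
    (hi : i ∈ E) (hn : m i < n) (c : B → ℂ)
    (hc : ∀ b : B, ∀ h : m b < n, c b = a b ⬝ᵥ lev γ (Fin.succ ⟨m b, h⟩)) :
    a i ⬝ᵥ lev γ (Fin.succ ⟨m i, hn⟩) = LF.ci a B m c i := by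
  classical
  have h1 := LF.cf_sum hB.1.2.1 (hB.1.2.2 i hi)
  have h2 : a i ⬝ᵥ lev γ (Fin.succ ⟨m i, hn⟩) =
      ∑ j ∈ B, LF.cf a B i j * (a j ⬝ᵥ lev γ (Fin.succ ⟨m i, hn⟩)) := by
    conv_lhs => rw [h1]
    rw [sum_dotProduct]
    refine Finset.sum_congr rfl fun j _ => ?_
    rw [smul_dotProduct, smul_eq_mul]
  rw [h2, LF.ci, ← Finset.sum_coe_sort B
    (fun j => LF.cf a B i j * (a j ⬝ᵥ lev γ (Fin.succ ⟨m i, hn⟩)))]
  refine Finset.sum_congr rfl fun b _ => ?_
  split_ifs with h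
  · have hb : m b < n := h ▸ hn
    rw [hc b hb]
    congr 4
    exact Fin.ext h.symm
  · by_cases hc : LF.cf a B i b = 0
    · rw [hc, zero_mul]
    · have h3 : m i ≤ m b := hB.le hi hc
      have h4 := hz b b.2 ⟨m i, hn⟩ (lt_of_le_of_ne h3 (Ne.symm h))
      rw [h4, mul_zero]

/-- vanishing of the forms in a basis of maximal weight implies vanishing of all forms -/
private theorem pe1_all (h : D.CellH P K n o mh) {B₀ : Finset (J ⊕ Fin s)} (hB₀ : B₀ ∈ P.BB)
    {y : Fin s × Fin (n + 1) → ℂ}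
    (hz : ∀ b ∈ B₀, ∀ l : Fin n, (l : ℕ) < mh b → D.av b ⬝ᵥ lev y l.succ = 0)
    (i : J ⊕ Fin s) (l : Fin n) (hl : (l : ℕ) < mh i) : D.av i ⬝ᵥ lev y l.succ = 0 := by
  have hne : D.av i ≠ 0 := by
    rcases i with j | k
    · exact D.ha j
    · simp [Dat.av]
  have hM := (h.hP.BB B₀).1 hB₀
  have h1 : D.av i ∈ LF.sp D.av {j | j ∈ LF.DT D.W D.XI P.T ∧ mh i ≤ mh j} := by
    rw [← LF.le_clo_iff hne (by omega), h.hP.closed i]
  rw [← hM.level] at h1
  exact LF.dot_eq_zero_of_mem_sp (fun b hb => hz b hb.1 l (lt_of_lt_of_le hl hb.2)) h1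

/-- the space of the jets of the monomials -/
private def pe1W' (D : Dat J Γ N s) (n : ℕ) (mh : J ⊕ Fin s → ℕ) :
    Submodule ℂ (Fin s × Fin (n + 1) → ℂ) where
  carrier := {y | (∀ k, y (k, 0) = 0) ∧
    ∀ i, ∀ l : Fin n, (l : ℕ) < mh i → D.av i ⬝ᵥ lev y l.succ = 0}
  zero_mem' := ⟨fun _ => rfl, fun i l _ => by
    have : lev (0 : Fin s × Fin (n + 1) → ℂ) l.succ = 0 := rfl
    rw [this, dotProduct_zero]⟩
  add_mem' := by
    rintro y z ⟨h1, h2⟩ ⟨h3, h4⟩
    refine ⟨fun k => by rw [Pi.add_apply, h1, h3, add_zero], fun i l hl => ?_⟩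
    have : lev (y + z) l.succ = lev y l.succ + lev z l.succ := rfl
    rw [this, dotProduct_add, h2 i l hl, h4 i l hl, add_zero]
  smul_mem' := by
    rintro c y ⟨h1, h2⟩
    refine ⟨fun k => by rw [Pi.smul_apply, h1, smul_zero], fun i l hl => ?_⟩
    have : lev (c • y) l.succ = c • lev y l.succ := rfl
    rw [this, dotProduct_smul, h2 i l hl, smul_zero]

/-- the space -/
private def pe1W (D : Dat J Γ N s) (n : ℕ) (hn : 0 < n) (mh : J ⊕ Fin s → ℕ) :
    Submodule ℂ (Fin N ⊕ Fin s × Fin (n + 1) → ℂ) where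
  carrier := {z | (fun q => z (Sum.inr q)) ∈ pe1W' D n mh ∧
    ∀ l ∈ D.Pl, z (Sum.inl l) = z (Sum.inr (D.β l, Fin.succ ⟨0, hn⟩))}
  zero_mem' := ⟨(pe1W' D n mh).zero_mem, fun _ _ => rfl⟩
  add_mem' := by
    rintro y z ⟨h1, h2⟩ ⟨h3, h4⟩
    refine ⟨(pe1W' D n mh).add_mem h1 h3, fun l hl => ?_⟩
    rw [Pi.add_apply, Pi.add_apply, h2 l hl, h4 l hl]
  smul_mem' := by
    rintro c y ⟨h1, h2⟩
    refine ⟨(pe1W' D n mh).smul_mem c h1, fun l hl => ?_⟩
    rw [Pi.smul_apply, Pi.smul_apply, h2 l hl]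

omit [Fintype J] [Fintype Γ] in
private theorem pe1_mem_W {hn : 0 < n} {z : Fin N ⊕ Fin s × Fin (n + 1) → ℂ} :
    z ∈ pe1W D n hn mh ↔ ((∀ k, z (Sum.inr (k, 0)) = 0) ∧
      ∀ i, ∀ l : Fin n, (l : ℕ) < mh i →
        D.av i ⬝ᵥ lev (fun q => z (Sum.inr q)) l.succ = 0) ∧
      ∀ l ∈ D.Pl, z (Sum.inl l) = z (Sum.inr (D.β l, Fin.succ ⟨0, hn⟩)) := Iff.rfl

omit [Fintype J] [Fintype Γ] in
private theorem pe1_finrank (hn : 0 < n) :
    Module.finrank ℂ (pe1W D n hn mh) =
      Fintype.card {l : Fin N // l ∉ D.Pl} + Module.finrank ℂ (pe1W' D n mh) := by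
  classical
  let e : pe1W D n hn mh ≃ₗ[ℂ] ({l : Fin N // l ∉ D.Pl} → ℂ) × pe1W' D n mh :=
    { toFun := fun z => (fun l => z.1 (Sum.inl l.1), ⟨fun q => z.1 (Sum.inr q), z.2.1⟩)
      map_add' := fun _ _ => rfl
      map_smul' := fun _ _ => rfl
      invFun := fun p => ⟨Sum.elim (fun l => if h : l ∈ D.Pl then
          p.2.1 (D.β l, Fin.succ ⟨0, hn⟩) else p.1 ⟨l, h⟩) (fun q => p.2.1 q),
        p.2.2, fun l hl => by
          simp only [Sum.elim_inl, Sum.elim_inr, dif_pos hl]⟩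
      left_inv := by
        rintro ⟨z, hz1, hz2⟩
        apply Subtype.ext
        funext i
        rcases i with l | q
        · simp only [Sum.elim_inl]
          split_ifs with h
          · exact (hz2 l h).symm
          · rfl
        · rfl
      right_inv := by
        rintro ⟨c, y, hy⟩
        refine Prod.ext ?_ ?_
        · funext l
          simp only [Sum.elim_inl, dif_neg l.2]
        · rfl }
  rw [e.finrank_eq, Module.finrank_prod, Module.finrank_fintype_fun_eq_card]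

theorem cls_XYM_MS (h : D.CellH P K n o mh) {B₀ : Finset (J ⊕ Fin s)} (hB₀ : B₀ ∈ P.BB) :
    ∃ e, e + LF.nu D.av mh + (B₀.filter fun b => mh b < n).card = s * n ∧
      cls (XYM D.β D.d D.Pl o (n + 1) ∩
        {z | ∀ i, mh i ≤ LF.vv D.av (fun q => z (Sum.inr q)) i}) = LL ^ e * cls (D.MS B₀ n o mh) := by
  classical
  have hn : 0 < n := by
    have h1 := h.hn
    have h2 : 0 < LF.Hb D.W := by unfold LF.Hb; omega
    omega
  have hM := (h.hP.BB B₀).1 hB₀
  -- the exponents of the monomials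
  have hnu1 : ∀ k, 1 ≤ Mon.nuv D.β D.d o k := by
    intro k
    obtain ⟨l, hl⟩ := D.hβ k
    unfold Mon.nuv
    have h1 : D.d l * o l ≤ ∑ l ∈ Finset.univ.filter (fun l => D.β l = k), D.d l * o l :=
      Finset.single_le_sum (f := fun l => D.d l * o l) (fun _ _ => Nat.zero_le _)
        (Finset.mem_filter.2 ⟨Finset.mem_univ _, hl⟩)
    have h2 := Nat.mul_pos (D.hd l) (h.ho1 l)
    omega
  have hnuP : ∀ l ∈ D.Pl, Mon.nuv D.β D.d o (D.β l) = 1 := by
    intro l hl
    have hk := pe1_Pl.1 hl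
    unfold Mon.nuv
    rw [pe1_filter hk rfl, Finset.sum_singleton, (pe1_block hk rfl).1, h.hPl l hl]
  -- the map to the leading coefficients
  let φ : (Fin N ⊕ Fin s × Fin (n + 1) → ℂ) →ₗ[ℂ]
      ({l : Fin N // l ∉ D.Pl} ⊕ {b : B₀ // mh b < n} → ℂ) :=
    LinearMap.pi (Sum.elim (fun l => LinearMap.proj (Sum.inl l.1)) fun b =>
      { toFun := fun z => D.av b.1 ⬝ᵥ lev (fun q => z (Sum.inr q)) (Fin.succ ⟨mh b.1, b.2⟩)
        map_add' := fun y z => by
          have : lev (fun q => (y + z) (Sum.inr q)) (Fin.succ ⟨mh b.1, b.2⟩) =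
            lev (fun q => y (Sum.inr q)) (Fin.succ ⟨mh b.1, b.2⟩) +
              lev (fun q => z (Sum.inr q)) (Fin.succ ⟨mh b.1, b.2⟩) := rfl
          rw [this, dotProduct_add]
        map_smul' := fun c y => by
          have : lev (fun q => (c • y) (Sum.inr q)) (Fin.succ ⟨mh b.1, b.2⟩) =
            c • lev (fun q => y (Sum.inr q)) (Fin.succ ⟨mh b.1, b.2⟩) := rfl
          rw [this, dotProduct_smul, RingHom.id_apply] })
  have hφl : ∀ z l, φ z (Sum.inl l) = z (Sum.inl l.1) := fun _ _ => rfl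
  have hφr : ∀ z b, φ z (Sum.inr b) =
      D.av b.1 ⬝ᵥ lev (fun q => z (Sum.inr q)) (Fin.succ ⟨mh b.1, b.2⟩) := fun _ _ => rfl
  -- extension by zero and restriction
  let ex : ({l : Fin N // l ∉ D.Pl} ⊕ {b : B₀ // mh b < n} → ℂ) →ₗ[ℂ] (Fin N ⊕ B₀ → ℂ) :=
    LinearMap.pi (Sum.elim (fun l => if h : l ∉ D.Pl then LinearMap.proj (Sum.inl ⟨l, h⟩) else 0)
      fun b => if h : mh b < n then LinearMap.proj (Sum.inr ⟨b, h⟩) else 0)
  let re : (Fin N ⊕ B₀ → ℂ) →ₗ[ℂ] ({l : Fin N // l ∉ D.Pl} ⊕ {b : B₀ // mh b < n} → ℂ) :=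
    LinearMap.pi (Sum.elim (fun l => LinearMap.proj (Sum.inl l.1))
      fun b => LinearMap.proj (Sum.inr b.1))
  have hexl : ∀ x l (hl : l ∉ D.Pl), ex x (Sum.inl l) = x (Sum.inl ⟨l, hl⟩) := by
    intro x l hl
    simp only [ex, LinearMap.pi_apply, Sum.elim_inl, dif_pos hl, LinearMap.proj_apply]
  have hexl0 : ∀ x l (_ : l ∈ D.Pl), ex x (Sum.inl l) = 0 := by
    intro x l hl
    simp only [ex, LinearMap.pi_apply, Sum.elim_inl, dif_neg (not_not.2 hl), LinearMap.zero_apply]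
  have hexr : ∀ x (b : B₀) (hb : mh b < n), ex x (Sum.inr b) = x (Sum.inr ⟨b, hb⟩) := by
    intro x b hb
    simp only [ex, LinearMap.pi_apply, Sum.elim_inr, dif_pos hb, LinearMap.proj_apply]
  have hexr0 : ∀ x (b : B₀) (_ : ¬ mh b < n), ex x (Sum.inr b) = 0 := by
    intro x b hb
    simp only [ex, LinearMap.pi_apply, Sum.elim_inr, dif_neg hb, LinearMap.zero_apply]
  have hre : ∀ x, re (ex x) = x := by
    intro x
    funext i
    rcases i with l | b
    · exact hexl x l.1 l.2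
    · exact hexr x b.1 b.2
  have hex : ∀ z ∈ D.MS B₀ n o mh, ex (re z) = z := by
    rintro z ⟨h1, h2, h3, h4⟩
    funext i
    rcases i with l | b
    · by_cases hl : l ∈ D.Pl
      · rw [hexl0 _ l hl, h2 l (Or.inl hl)]
      · rw [hexl _ l hl]
        rfl
    · by_cases hb : mh b < n
      · rw [hexr _ b hb]
        rfl
      · rw [hexr0 _ b hb, h3 b (not_lt.1 hb)]
  set X' : Set ({l : Fin N // l ∉ D.Pl} ⊕ {b : B₀ // mh b < n} → ℂ) :=
    {x | ex x ∈ D.MS B₀ n o mh} with hX'def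
  have hX' : Constr X' := by
    have h1 := LF.constr_linFib (⊤ : Submodule ℂ _) 0 ex (constr_MS (D := D) B₀ n o mh)
    convert h1 using 1
    ext x
    simp [hX'def]
  have hclsX' : cls X' = cls (D.MS B₀ n o mh) := by
    refine cls_iso hX' (constr_MS B₀ n o mh) ?_
    refine RegIso.linear ex re 0 0 ?_ ?_ ?_ ?_
    · intro x hx
      rw [add_zero]
      exact hx
    · intro z hz
      rw [add_zero]
      change ex (re z) ∈ D.MS B₀ n o mh
      rw [hex z hz]
      exact hz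
    · intro x _
      rw [add_zero, add_zero, hre]
    · intro z hz
      rw [add_zero, add_zero, hex z hz]
  -- surjectivity
  have hsurj : ∀ x, ∃ z ∈ pe1W D n hn mh, φ z = x := by
    intro x
    obtain ⟨e, he⟩ := LF.exists_dual hM.1.2.1
    set y : Fin s × Fin (n + 1) → ℂ := fun jl =>
      ∑ b : {b : B₀ // mh b < n}, if mh b.1 + 1 = (jl.2 : ℕ) then x (Sum.inr b) * e b.1 jl.1
        else 0 with hy
    have key : ∀ (b' : J ⊕ Fin s) (hb' : b' ∈ B₀) (l : Fin n), D.av b' ⬝ᵥ lev y l.succ =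
        if h : mh b' = (l : ℕ) then x (Sum.inr ⟨⟨b', hb'⟩, by rw [h]; exact l.2⟩) else 0 := by
      intro b' hb' l
      have h2 : D.av b' ⬝ᵥ lev y l.succ =
          ∑ b : {b : B₀ // mh b < n}, if mh b.1 = (l : ℕ) then
            x (Sum.inr b) * (if b' = b.1 then 1 else 0) else 0 := by
        simp only [dotProduct, lev, hy, Finset.mul_sum]
        rw [Finset.sum_comm]
        refine Finset.sum_congr rfl fun b _ => ?_
        by_cases h : mh b.1 = (l : ℕ)
        · have h' : mh b.1 + 1 = ((l.succ : Fin (n + 1)) : ℕ) := by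
            rw [Fin.val_succ, h]
          simp only [if_pos h, if_pos h']
          have h3 : D.av b' ⬝ᵥ e b.1 = if b' = b.1 then 1 else 0 := by
            convert he b.1 b.1.2 b' hb'
          rw [← h3]
          simp only [dotProduct, Finset.mul_sum]
          refine Finset.sum_congr rfl fun j _ => ?_
          ring
        · have h' : ¬ mh b.1 + 1 = ((l.succ : Fin (n + 1)) : ℕ) := by
            rw [Fin.val_succ]
            omega
          simp only [if_neg h, if_neg h', mul_zero, Finset.sum_const_zero]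
      rw [h2]
      split_ifs with h
      · rw [Finset.sum_eq_single ⟨⟨b', hb'⟩, by rw [h]; exact l.2⟩]
        · rw [if_pos h, if_pos rfl, mul_one]
        · intro b _ hb
          split_ifs with h4 h5
          · exfalso
            apply hb
            apply Subtype.ext
            apply Subtype.ext
            exact h5.symm
          · rw [mul_zero]
          · rfl
        · intro h4
          exact absurd (Finset.mem_univ _) h4
      · refine Finset.sum_eq_zero fun b _ => ?_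
        split_ifs with h4 h5
        · exfalso
          apply h
          rw [h5]
          exact h4
        · rw [mul_zero]
        · rfl
    refine ⟨Sum.elim (fun l => if h : l ∈ D.Pl then y (D.β l, Fin.succ ⟨0, hn⟩) else
      x (Sum.inl ⟨l, h⟩)) y, ?_, ?_⟩
    · rw [pe1_mem_W]
      refine ⟨⟨?_, ?_⟩, ?_⟩
      · intro k
        simp only [Sum.elim_inr, hy]
        refine Finset.sum_eq_zero fun b _ => ?_
        rw [if_neg]
        simp
      · refine pe1_all h hB₀ ?_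
        intro b hb l hl
        have h1 := key b hb l
        rw [dif_neg (by omega)] at h1
        exact h1
      · intro l hl
        simp only [Sum.elim_inl, Sum.elim_inr, dif_pos hl]
    · funext i
      rcases i with l | b
      · rw [hφl]
        simp only [Sum.elim_inl, dif_neg l.2]
      · rw [hφr]
        have h1 := key b.1 b.1.2 ⟨mh b.1, b.2⟩
        rw [dif_pos rfl] at h1
        exact h1
  obtain ⟨e, he, hcls⟩ := cls_linFib (pe1W D n hn mh) 0 φ hsurj hX'
  refine ⟨e, ?_, ?_⟩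
  · have h1 := finrank_jets D.av mh h.hmh (pe1W' D n mh) (fun z => Iff.rfl)
    rw [pe1_finrank, Fintype.card_sum] at he
    have h2 : Fintype.card {b : B₀ // mh b < n} = (B₀.filter fun b => mh b < n).card := by
      rw [Fintype.card_subtype, Finset.card_filter, Finset.card_filter,
        ← Finset.sum_coe_sort B₀ (fun b => if mh b < n then 1 else 0)]
    omega
  · rw [← hclsX', ← hcls]
    congr 1
    ext z
    rw [Set.mem_inter_iff, Set.mem_ofPred_eq, Set.mem_ofPred_eq, sub_zero, pe1_mem_W]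
    have hvv : (∀ i, mh i ≤ LF.vv D.av (fun q => z (Sum.inr q)) i) ↔
        ∀ i, ∀ l : Fin n, (l : ℕ) < mh i →
          D.av i ⬝ᵥ lev (fun q => z (Sum.inr q)) l.succ = 0 :=
      forall_congr' fun i => LF.le_vv_iff (h.hmh i)
    have hXIT : ∀ k ∈ D.KX, Sum.inr k ∈ LF.DT D.W D.XI P.T := by
      intro k hk
      refine LF.f5_sub_DT D.W D.XI P.T ?_
      unfold Dat.XI
      rw [Finset.mem_map]
      exact ⟨k, hk, rfl⟩
    have hcik : (∀ i, ∀ l : Fin n, (l : ℕ) < mh i →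
        D.av i ⬝ᵥ lev (fun q => z (Sum.inr q)) l.succ = 0) → ∀ k ∈ D.KX,
        ∀ hk : mh (Sum.inr k) < n, z (Sum.inr (k, Fin.succ ⟨mh (Sum.inr k), hk⟩)) =
          LF.ci D.av B₀ mh (fun b => ex (φ z) (Sum.inr b)) (Sum.inr k) := by
      intro hall k hk hkn
      rw [← pe1_ci hM (fun b _ => hall b) (hXIT k hk) hkn (fun b => ex (φ z) (Sum.inr b))
        (fun b hb => by rw [hexr _ b hb, hφr])]
      exact (pe1_av k (fun q => z (Sum.inr q)) _).symm
    constructor
    · rintro ⟨⟨ha, hb, hc, hd⟩, he⟩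
      have hall := hvv.1 he
      refine ⟨⟨⟨fun k => ha k 0 (hnu1 k), hall⟩, ?_⟩, ?_⟩
      · intro l hl
        have h1 := hnuP l hl
        have h2 := hb (D.β l) (by omega)
        rw [pe1_filter (pe1_Pl.1 hl) rfl, Finset.prod_singleton,
          (pe1_block (pe1_Pl.1 hl) rfl).1, pow_one] at h2
        rw [← h2]
        congr 3
        exact Fin.ext h1
      · refine ⟨?_, ?_, ?_, ?_⟩
        · intro l hl hol
          rw [hexl _ l hl, hφl]
          exact hc l hl (by omega)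
        · rintro l (hl | hl)
          · exact hexl0 _ l hl
          · by_cases hlP : l ∈ D.Pl
            · exact hexl0 _ l hlP
            · rw [hexl _ l hlP, hφl]
              exact hd l hl
        · intro b hbn
          exact hexr0 _ b (not_lt.2 hbn)
        · intro k hk hkn
          have h1 := h.hk k hk
          have h2 : Mon.nuv D.β D.d o k = mh (Sum.inr k) + 1 := by omega
          have h3 := hb k (by omega)
          rw [← hcik hall k hk hkn]
          have h4 : ∏ l ∈ Finset.univ.filter (fun l => D.β l = k),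
              ex (φ z) (Sum.inl l) ^ D.d l =
              ∏ l ∈ Finset.univ.filter (fun l => D.β l = k), z (Sum.inl l) ^ D.d l := by
            refine Finset.prod_congr rfl fun l hl => ?_
            have hl' : l ∉ D.Pl := by
              rw [pe1_Pl, not_not, (Finset.mem_filter.1 hl).2]
              exact hk
            rw [hexl _ l hl', hφl]
          rw [h4, ← h3]
          congr 3
          exact Fin.ext h2
    · rintro ⟨⟨⟨h0, hall⟩, hPl⟩, h1, h2, -, h4⟩
      refine ⟨⟨?_, ?_, ?_, ?_⟩, hvv.2 hall⟩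
      · intro k j hj
        by_cases hk : k ∈ D.KX
        · have e1 := h.hk k hk
          rcases Fin.eq_zero_or_eq_succ j with rfl | ⟨j', rfl⟩
          · exact h0 k
          · have e2 : (j' : ℕ) < mh (Sum.inr k) := by
              have := j'.2
              rw [Fin.val_succ] at hj
              omega
            have e3 := hall (Sum.inr k) j' e2
            rw [pe1_av] at e3
            exact e3
        · obtain ⟨l, hl⟩ := D.hβ k
          have e1 := hnuP l (pe1_Pl.2 (hl ▸ hk))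
          rw [hl] at e1
          have e2 : j = 0 := by
            apply Fin.ext
            rw [Fin.val_zero]
            omega
          rw [e2]
          exact h0 k
      · intro k hkn
        by_cases hk : k ∈ D.KX
        · have e1 := h.hk k hk
          have e2 : Mon.nuv D.β D.d o k = mh (Sum.inr k) + 1 := by omega
          have e3 : mh (Sum.inr k) < n := by omega
          have e4 := h4 k hk e3
          rw [← hcik hall k hk e3] at e4
          have e5 : ∏ l ∈ Finset.univ.filter (fun l => D.β l = k),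
              ex (φ z) (Sum.inl l) ^ D.d l =
              ∏ l ∈ Finset.univ.filter (fun l => D.β l = k), z (Sum.inl l) ^ D.d l := by
            refine Finset.prod_congr rfl fun l hl => ?_
            have hl' : l ∉ D.Pl := by
              rw [pe1_Pl, not_not, (Finset.mem_filter.1 hl).2]
              exact hk
            rw [hexl _ l hl', hφl]
          rw [e5] at e4
          rw [e4]
          congr 3
          exact Fin.ext e2
        · obtain ⟨l, hl⟩ := D.hβ k
          have hlP : l ∈ D.Pl := pe1_Pl.2 (hl ▸ hk)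
          have e1 := hnuP l hlP
          rw [hl] at e1
          rw [pe1_filter hk hl, Finset.prod_singleton, (pe1_block hk hl).1, pow_one, hPl l hlP, hl]
          congr 3
          exact Fin.ext e1
      · intro l hl hol
        have e1 := h1 l hl (by omega)
        rw [hexl _ l hl, hφl] at e1
        exact e1
      · intro l hol
        have hlP : l ∉ D.Pl := by
          intro hl
          have := h.hPl l hl
          omega
        have e1 := h2 l (Or.inr hol)
        rw [hexl _ l hlP, hφl] at e1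
        exact e1

theorem cls_cell_MS (h : D.CellH P K n o mh) {B₀ : Finset (J ⊕ Fin s)} (hB₀ : B₀ ∈ P.BB) :
    Constr (D.cell n o mh) ∧
    ∃ e, e + LF.nu D.av mh + (B₀.filter fun b => mh b < n).card =
        mo D.β D.d o (n + 1) + s * n ∧
      cls (D.cell n o mh) = LL ^ e * cls (D.MS B₀ n o mh) := by
  classical
  set Q : Set (Fin N ⊕ Fin s × Fin (n + 1) → ℂ) :=
    {z | ∀ i, mh i ≤ LF.vv D.av (fun q => z (Sum.inr q)) i} with hQ
  have hQc : Constr Q := by
    have h3 : Constr (⋂ x : {x : (J ⊕ Fin s) × Fin n // (x.2 : ℕ) < mh x.1},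
        {z : Fin N ⊕ Fin s × Fin (n + 1) → ℂ |
          eval z (∑ k, C (D.av x.1.1 k) * X (Sum.inr (k, x.1.2.succ))) = 0}) :=
      constr_iInter fun _ => Constr.zeroSet _
    convert h3 using 1
    ext z
    rw [hQ, Set.mem_ofPred_eq, Set.mem_iInter]
    simp only [Set.mem_ofPred_eq, Subtype.forall, Prod.forall, map_sum, map_mul, eval_C, eval_X]
    exact forall_congr' fun i => LF.le_vv_iff (h.hmh i)
  have hFr : ∀ l ∈ D.Pl, D.d l = 1 ∧ ∀ l', D.β l' = D.β l → l' = l := fun l hl =>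
    pe1_block (pe1_Pl.1 hl) rfl
  obtain ⟨h1, h2⟩ := cls_XY D.β D.hβ D.d D.hd D.Pl hFr o (n + 1) Q hQc
  have hcell : D.cell n o mh = {γ | γ ∈ Mon.Yset D.Pl o (n + 1) ∧
      Sum.elim (Mon.lc o γ) (yj D.β D.d γ) ∈ Q} := rfl
  rw [hcell]
  refine ⟨h1, ?_⟩
  obtain ⟨e, he, hcls⟩ := cls_XYM_MS h hB₀
  refine ⟨mo D.β D.d o (n + 1) + e, by omega, ?_⟩
  rw [h2, hcls, pow_add, mul_assoc]

end LFM
end MotMono
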