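import Pool.Agent.Lib.MP_4e5fcd_ag.LFM.PE1
import Pool.Agent.Lib.MP_4e5fcd_ag.LFM.PD1
import Pool.Agent.Lib.MP_4e5fcd_ag.LF.X2
import Pool.Agent.Lib.MP_4e5fcd_ag.Mon.H2

/-!
# LFM-PE2: splitting off the free blocks

`top_KX`: if `i ∈ D' = DT W XI T`, `mh i = n`, then `i = inr k`, `k ∈ Fb` (`top_mem`, `XI_indep`); in particular `mh (inr k) < n` for
`k ∈ KX \ Fb`, and `B₀`-elements with `mh b = n` are of the form `inr k`, `k ∈ Fb`.
`cls_MS`: for `k ∈ Fb`: `inr k ∈ B₀`, `cf (inr k) (inr k) = 1` and the other coefficients are `0` (`LF.cf_self`, `cf_self_ne`), so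
`ci (inr k) = z (inr (inr k))`. For `k' ∈ KX`, `k' ≠ k`, `mh (inr k') = mh (inr k)`: `cf (inr k') (inr k) = 0`, otherwise
`MaxB.exchange` gives a `B ∈ P.BB` without `inr k`. So in `MS`: for `k ∈ Fb` the coordinate `z (inr (inr k))` occurs only in the
equation of `k` (if `mh (inr k) < n`), where it is equal to `∏_{β l = k} z l ^ d l`, and it is `0` if `mh (inr k) = n`. Hence
`MS ≅ XH × (ℂ \ 0)^{l ∈ Fv, o l ≤ n}` (`cls_iso`): `z ↦` (`z` with the coordinates `inl l`, `l ∈ Fv`, and `inr (inr k)`, `k ∈ Fb`, replaced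
by `0`; the coordinates `inl l`, `l ∈ Fv`, `o l ≤ n`). For `β l ∈ KX \ Fb`: `o l ≤ n` (`mh (inr (β l)) < n`, so
`nuv (β l) ≤ n`, `o l ≤ d l * o l ≤ nuv`), so `z l ≠ 0` as in `XH`. `cls ({0}ᶜ) = LL - 1`: see Mon/T3, `cls_nonzero`-like lemmas (grep
`LL - 1`), `cls_prodSet`.
-/

open MvPolynomial

namespace MotMono
namespace LFM

variable {J Γ : Type} [Fintype J] [Fintype Γ] {N s : ℕ} {D : Dat J Γ N s}
  {P : LF.Pat (J ⊕ Fin s) Γ} {K n : ℕ} {o : Fin N → ℕ} {mh : J ⊕ Fin s → ℕ}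

private theorem pe2_Fb {BB : Finset (Finset (J ⊕ Fin s))} {k : Fin s} :
    k ∈ D.Fb BB ↔ k ∈ D.KX ∧ ∀ B ∈ BB, Sum.inr k ∈ B := by
  simp only [Dat.Fb, Finset.mem_filter]

private theorem pe2_Fv {BB : Finset (Finset (J ⊕ Fin s))} {l : Fin N} :
    l ∈ D.Fv BB ↔ D.β l ∈ D.Fb BB := by
  simp only [Dat.Fv, Finset.mem_filter, Finset.mem_univ, true_and]

private theorem pe2_Pl {l : Fin N} : l ∈ D.Pl ↔ D.β l ∉ D.KX := by
  simp only [Dat.Pl, Finset.mem_filter, Finset.mem_univ, true_and]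

private theorem pe2_XI {i : J ⊕ Fin s} : i ∈ D.XI ↔ ∃ k ∈ D.KX, i = Sum.inr k := by
  unfold Dat.XI
  rw [Finset.mem_map]
  constructor
  · rintro ⟨k, hk, rfl⟩
    exact ⟨k, hk, rfl⟩
  · rintro ⟨k, hk, rfl⟩
    exact ⟨k, hk, rfl⟩

theorem top_KX (h : D.CellH P K n o mh) {i : J ⊕ Fin s} (hi : i ∈ LF.DT D.W D.XI P.T)
    (ht : mh i = n) : ∃ k ∈ D.Fb P.BB, i = Sum.inr k := by
  obtain ⟨h1, -, h2⟩ := top_mem (XI_indep D) h.hP h.hn hi ht.ge
  obtain ⟨k, hk, rfl⟩ := pe2_XI.1 h1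
  exact ⟨k, pe2_Fb.2 ⟨hk, h2⟩, rfl⟩

omit [Fintype Γ] in
private theorem pe2_imp {σ : Type} {p : Prop} {E : Set (σ → ℂ)} (hE : p → Constr E) :
    Constr {z | p → z ∈ E} := by
  by_cases h : p
  · have e : {z | p → z ∈ E} = E := by
      ext z
      exact ⟨fun hz => hz h, fun hz _ => hz⟩
    rw [e]
    exact hE h
  · have e : {z : σ → ℂ | p → z ∈ E} = Set.univ := by
      ext z
      exact ⟨fun _ => Set.mem_univ _, fun _ hp => absurd hp h⟩
    rw [e]
    exact constr_univ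

omit [Fintype Γ] in
private theorem pe2_constr_XH (BB : Finset (Finset (J ⊕ Fin s)))
    (B₀ : Finset (J ⊕ Fin s)) (x : J ⊕ Fin s → ℕ) : Constr (D.XH BB B₀ x) := by
  classical
  choose g hg using fun i => LF.exists_ciPoly D.av B₀ x i
  have h1 : Constr (⋂ l : Fin N, {z : Fin N ⊕ B₀ → ℂ | D.β l ∈ D.KX \ D.Fb BB →
      z ∈ {z : Fin N ⊕ B₀ → ℂ | eval z (X (Sum.inl l)) ≠ 0}}) :=
    constr_iInter fun l => pe2_imp fun _ => constr_ne _
  have h2 : Constr (⋂ l : Fin N, {z : Fin N ⊕ B₀ → ℂ | D.β l ∉ D.KX \ D.Fb BB →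
      z ∈ {z : Fin N ⊕ B₀ → ℂ | eval z (X (Sum.inl l)) = eval z 0}}) :=
    constr_iInter fun l => pe2_imp fun _ => constr_eq _ _
  have h3 : Constr (⋂ b : B₀, {z : Fin N ⊕ B₀ → ℂ |
      (∃ k ∈ D.Fb BB, (b : J ⊕ Fin s) = Sum.inr k) →
      z ∈ {z : Fin N ⊕ B₀ → ℂ | eval z (X (Sum.inr b)) = eval z 0}}) :=
    constr_iInter fun b => pe2_imp fun _ => constr_eq _ _
  have h4 : Constr (⋂ k : Fin s, {z : Fin N ⊕ B₀ → ℂ | k ∈ D.KX \ D.Fb BB →
      z ∈ {z : Fin N ⊕ B₀ → ℂ |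
        eval z (∏ l ∈ Finset.univ.filter (fun l => D.β l = k), X (Sum.inl l) ^ D.d l) =
          eval z (rename Sum.inr (g (Sum.inr k)))}}) :=
    constr_iInter fun k => pe2_imp fun _ => constr_eq _ _
  have e := (h1.inter h2).inter (h3.inter h4)
  refine (?_ : _ = D.XH BB B₀ x) ▸ e
  ext z
  have hgz : ∀ i, eval z (rename Sum.inr (g i)) = LF.ci D.av B₀ x (fun b => z (Sum.inr b)) i := by
    intro i
    rw [eval_rename, ← hg]
    rfl
  simp only [Set.mem_inter_iff, Set.mem_iInter, Set.mem_ofPred_eq, eval_X, map_zero, map_prod,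
    map_pow, hgz, Dat.XH, ne_eq]
  constructor
  · rintro ⟨⟨e1, e2⟩, e3, e4⟩
    exact ⟨e1, e2, fun k hk h => e3 ⟨_, h⟩ ⟨k, hk, rfl⟩, e4⟩
  · rintro ⟨e1, e2, e3, e4⟩
    refine ⟨⟨e1, e2⟩, ?_, e4⟩
    rintro ⟨b, hb⟩ ⟨k, hk, hbk⟩
    have hbk' : b = Sum.inr k := hbk
    subst hbk'
    exact e3 k hk hb

omit [Fintype Γ] in
theorem constr_XH (BB : Finset (Finset (J ⊕ Fin s))) (B₀ : Finset (J ⊕ Fin s))
    (x : J ⊕ Fin s → ℕ) : Constr (D.XH BB B₀ x) :=
  pe2_constr_XH BB B₀ x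

/-- the leading coefficient of a free block -/
private theorem pe2_ci_free {B₀ : Finset (J ⊕ Fin s)}
    (hB : LinearIndepOn ℂ D.av (B₀ : Set (J ⊕ Fin s))) {i : J ⊕ Fin s} (hi : i ∈ B₀)
    (c : B₀ → ℂ) : LF.ci D.av B₀ mh c i = c ⟨i, hi⟩ := by
  classical
  unfold LF.ci
  rw [Finset.sum_eq_single (⟨i, hi⟩ : B₀)]
  · rw [if_pos rfl, LF.cf_self hB hi, one_mul]
  · rintro b - hb
    have hne : (b : J ⊕ Fin s) ≠ i := fun h => hb (Subtype.ext h)
    rw [LF.cf_self_ne hB hi hne, zero_mul, ite_self]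
  · intro h
    exact absurd (Finset.mem_univ _) h

/-- the leading coefficients of the other blocks do not depend on the free blocks -/
private theorem pe2_ci_congr (h : D.CellH P K n o mh) {B₀ : Finset (J ⊕ Fin s)}
    (hB₀ : B₀ ∈ P.BB) {k' : Fin s} (hk' : k' ∈ D.KX) (hk'F : k' ∉ D.Fb P.BB) {c c' : B₀ → ℂ}
    (hc : ∀ b : B₀, (¬ ∃ k ∈ D.Fb P.BB, (b : J ⊕ Fin s) = Sum.inr k) → c b = c' b) :
    LF.ci D.av B₀ mh c (Sum.inr k') = LF.ci D.av B₀ mh c' (Sum.inr k') := by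
  classical
  have hMB := (h.hP.BB B₀).1 hB₀
  have hk'D : (Sum.inr k' : J ⊕ Fin s) ∈ LF.DT D.W D.XI P.T := by
    simp only [LF.DT, Finset.mem_filter, Finset.mem_univ, true_and]
    exact Or.inl (pe2_XI.2 ⟨k', hk', rfl⟩)
  unfold LF.ci
  refine Finset.sum_congr rfl fun b _ => ?_
  by_cases hx : mh b = mh (Sum.inr k')
  · rw [if_pos hx, if_pos hx]
    by_cases hb : ∃ k ∈ D.Fb P.BB, (b : J ⊕ Fin s) = Sum.inr k
    · obtain ⟨k, hk, hbk⟩ := hb
      have hcf : LF.cf D.av B₀ (Sum.inr k') b = 0 := by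
        by_contra hcf
        have h1 := (hMB.exchange hk'D hcf).2 hx
        have h2 := (h.hP.BB _).2 h1
        have h3 := (pe2_Fb.1 hk).2 _ h2
        rw [Finset.mem_insert, Finset.mem_erase] at h3
        rcases h3 with h3 | h3
        · rw [Sum.inr.injEq] at h3
          exact hk'F (h3 ▸ hk)
        · exact h3.1 hbk.symm
      rw [hcf, zero_mul, zero_mul]
    · rw [hc b hb]
  · rw [if_neg hx, if_neg hx]

private theorem pe2_o_le (h : D.CellH P K n o mh) {l : Fin N} (hl : D.β l ∈ D.KX)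
    (hm : mh (Sum.inr (D.β l)) < n) : o l ≤ n := by
  have h1 := h.hk (D.β l) hl
  have h2 : o l ≤ Mon.nuv D.β D.d o (D.β l) := by
    unfold Mon.nuv
    have h3 : D.d l * o l ≤ ∑ l' ∈ Finset.univ.filter (fun l' => D.β l' = D.β l),
        D.d l' * o l' :=
      Finset.single_le_sum (f := fun l' => D.d l' * o l') (fun _ _ => Nat.zero_le _)
        (Finset.mem_filter.2 ⟨Finset.mem_univ _, rfl⟩)
    exact (Nat.le_mul_of_pos_left _ (D.hd l)).trans h3
  omega

private theorem pe2_lt (h : D.CellH P K n o mh) {k : Fin s} (hk : k ∈ D.KX)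
    (hkF : k ∉ D.Fb P.BB) : mh (Sum.inr k) < n := by
  refine lt_of_le_of_ne (h.hmh _) fun he => hkF ?_
  have hkD : (Sum.inr k : J ⊕ Fin s) ∈ LF.DT D.W D.XI P.T := by
    simp only [LF.DT, Finset.mem_filter, Finset.mem_univ, true_and]
    exact Or.inl (pe2_XI.2 ⟨k, hk, rfl⟩)
  obtain ⟨k', hk', he'⟩ := top_KX h hkD he
  rw [Sum.inr.injEq] at he'
  exact he' ▸ hk'

/-- the torus of the free variables -/
private def pe2_T (A : Finset (Fin N)) : Set (Fin N → ℂ) :=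
  {w | ∀ l, (l ∉ A → w l = 0) ∧ (¬ l ∉ A → True → w l ≠ 0)}

omit [Fintype J] [Fintype Γ] in
private theorem pe2_cls_T (A : Finset (Fin N)) :
    Constr (pe2_T A) ∧ cls (pe2_T A) = (LL - 1) ^ A.card := by
  classical
  obtain ⟨h1, h2⟩ := Mon.h2_box (σ := Fin N) (fun l => l ∉ A) (fun _ => True)
  refine ⟨h1, ?_⟩
  unfold pe2_T
  rw [h2, ← Finset.prod_subset (Finset.subset_univ A)]
  · rw [← Finset.prod_const]
    refine Finset.prod_congr rfl fun l hl => ?_
    rw [if_neg (fun h => h hl), if_pos trivial]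
  · intro l _ hl
    rw [if_pos hl]

theorem cls_MS (h : D.CellH P K n o mh) {B₀ : Finset (J ⊕ Fin s)} (hB₀ : B₀ ∈ P.BB) :
    cls (D.MS B₀ n o mh) =
      (LL - 1) ^ ((D.Fv P.BB).filter fun l => o l ≤ n).card * cls (D.XH P.BB B₀ mh) := by
  classical
  set A := (D.Fv P.BB).filter fun l => o l ≤ n with hA
  have hMB := (h.hP.BB B₀).1 hB₀
  have hli := hMB.1.2.1
  obtain ⟨hTc, hTcls⟩ := pe2_cls_T A
  rw [← hTcls, mul_comm, ← cls_prodSet (constr_XH P.BB B₀ mh) hTc]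
  have hAmem : ∀ l, l ∈ A ↔ D.β l ∈ D.Fb P.BB ∧ o l ≤ n := by
    intro l
    rw [hA, Finset.mem_filter, pe2_Fv]
  have hFK : ∀ k, k ∈ D.Fb P.BB → k ∈ D.KX := fun k hk => (pe2_Fb.1 hk).1
  have hFB : ∀ k, k ∈ D.Fb P.BB → (Sum.inr k : J ⊕ Fin s) ∈ B₀ :=
    fun k hk => (pe2_Fb.1 hk).2 B₀ hB₀
  have hmemKF : ∀ k, k ∈ D.KX \ D.Fb P.BB ↔ k ∈ D.KX ∧ k ∉ D.Fb P.BB := by
    intro k
    rw [Finset.mem_sdiff]
  -- the two maps
  let f : (Fin N ⊕ B₀ → ℂ) → ((Fin N ⊕ B₀) ⊕ Fin N → ℂ) := fun z => Sum.elim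
    (Sum.elim (fun l => if D.β l ∈ D.Fb P.BB then 0 else z (Sum.inl l))
      (fun b => if ∃ k ∈ D.Fb P.BB, (b : J ⊕ Fin s) = Sum.inr k then 0 else z (Sum.inr b)))
    (fun l => if l ∈ A then z (Sum.inl l) else 0)
  let g : ((Fin N ⊕ B₀) ⊕ Fin N → ℂ) → (Fin N ⊕ B₀ → ℂ) := fun y => Sum.elim
    (fun l => if l ∈ A then y (Sum.inr l) else y (Sum.inl (Sum.inl l)))
    (fun b => if ∃ k ∈ D.Fb P.BB, (b : J ⊕ Fin s) = Sum.inr k then
      (if mh b < n then ∏ l ∈ Finset.univ.filter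
        (fun l => (Sum.inr (D.β l) : J ⊕ Fin s) = b), y (Sum.inr l) ^ D.d l else 0)
      else y (Sum.inl (Sum.inr b)))
  have f1 : ∀ z l, f z (Sum.inl (Sum.inl l)) =
      if D.β l ∈ D.Fb P.BB then 0 else z (Sum.inl l) := fun z l => rfl
  have f2 : ∀ z b, f z (Sum.inl (Sum.inr b)) =
      if ∃ k ∈ D.Fb P.BB, (b : J ⊕ Fin s) = Sum.inr k then 0 else z (Sum.inr b) :=
    fun z b => rfl
  have f3 : ∀ z l, f z (Sum.inr l) = if l ∈ A then z (Sum.inl l) else 0 := fun z l => rfl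
  have g1 : ∀ y l, g y (Sum.inl l) =
      if l ∈ A then y (Sum.inr l) else y (Sum.inl (Sum.inl l)) := fun y l => rfl
  have g2 : ∀ y b, g y (Sum.inr b) = if ∃ k ∈ D.Fb P.BB, (b : J ⊕ Fin s) = Sum.inr k then
      (if mh b < n then ∏ l ∈ Finset.univ.filter
        (fun l => (Sum.inr (D.β l) : J ⊕ Fin s) = b), y (Sum.inr l) ^ D.d l else 0)
      else y (Sum.inl (Sum.inr b)) := fun y b => rfl
  -- blocks of free variables of small order
  have hblk : ∀ k ∈ D.Fb P.BB, mh (Sum.inr k) < n → ∀ l, D.β l = k → l ∈ A := by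
    intro k hk hm l hl
    rw [hAmem]
    refine ⟨hl ▸ hk, pe2_o_le h (hl ▸ hFK k hk) ?_⟩
    rw [hl]
    exact hm
  have hfilt : ∀ k : Fin s, (Finset.univ.filter
      (fun l => (Sum.inr (D.β l) : J ⊕ Fin s) = Sum.inr k)) =
      Finset.univ.filter (fun l => D.β l = k) := by
    intro k
    refine Finset.filter_congr fun l _ => ?_
    rw [Sum.inr.injEq]
  have hgf : ∀ k (hk : k ∈ D.Fb P.BB) (y : (Fin N ⊕ B₀) ⊕ Fin N → ℂ),
      g y (Sum.inr ⟨Sum.inr k, hFB k hk⟩) = if mh (Sum.inr k) < n then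
        ∏ l ∈ Finset.univ.filter (fun l => D.β l = k), y (Sum.inr l) ^ D.d l else 0 := by
    intro k hk y
    rw [g2, if_pos ⟨k, hk, rfl⟩]
    show (if mh (Sum.inr k) < n then ∏ l ∈ Finset.univ.filter
        (fun l => (Sum.inr (D.β l) : J ⊕ Fin s) = Sum.inr k), y (Sum.inr l) ^ D.d l else 0) = _
    rw [hfilt k]
  refine cls_iso (constr_MS B₀ n o mh) ((constr_XH P.BB B₀ mh).prodSet hTc) ⟨f, g, ?_, ?_, ?_,
    ?_, ?_, ?_⟩
  · -- regularity of f
    rintro ((l | b) | l)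
    · simp only [f1]
      split_ifs
      · exact regFun_const _ 0
      · exact regFun_coord _ _
    · simp only [f2]
      split_ifs
      · exact regFun_const _ 0
      · exact regFun_coord _ _
    · simp only [f3]
      split_ifs
      · exact regFun_coord _ _
      · exact regFun_const _ 0
  · -- regularity of g
    rintro (l | b)
    · simp only [g1]
      split_ifs
      · exact regFun_coord _ _
      · exact regFun_coord _ _
    · simp only [g2]
      split_ifs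
      · refine (regFun_poly _ (∏ l ∈ Finset.univ.filter
          (fun l => (Sum.inr (D.β l) : J ⊕ Fin s) = b), X (Sum.inr l) ^ D.d l)).congr
          fun y _ => ?_
        simp only [map_prod, map_pow, eval_X]
      · exact regFun_const _ 0
      · exact regFun_coord _ _
  · -- f maps into the product
    rintro z ⟨z1, z2, z3, z4⟩
    refine ⟨⟨?_, ?_, ?_, ?_⟩, ?_⟩
    · intro l hl
      rw [hmemKF] at hl
      show f z (Sum.inl (Sum.inl l)) ≠ 0
      rw [f1, if_neg hl.2]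
      exact z1 l (fun hP => pe2_Pl.1 hP hl.1) (pe2_o_le h hl.1 (pe2_lt h hl.1 hl.2))
    · intro l hl
      rw [hmemKF] at hl
      show f z (Sum.inl (Sum.inl l)) = 0
      rw [f1]
      split_ifs with hF
      · rfl
      · exact z2 l (Or.inl (pe2_Pl.2 fun hK => hl ⟨hK, hF⟩))
    · intro k hk hkB
      show f z (Sum.inl (Sum.inr ⟨Sum.inr k, hkB⟩)) = 0
      rw [f2, if_pos ⟨k, hk, rfl⟩]
    · intro k hk
      rw [hmemKF] at hk
      have h5 := z4 k hk.1 (pe2_lt h hk.1 hk.2)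
      show ∏ l ∈ Finset.univ.filter (fun l => D.β l = k), f z (Sum.inl (Sum.inl l)) ^ D.d l =
        LF.ci D.av B₀ mh (fun b => f z (Sum.inl (Sum.inr b))) (Sum.inr k)
      rw [pe2_ci_congr h hB₀ hk.1 hk.2 (c' := fun b => z (Sum.inr b))
        (fun b hb => by rw [f2, if_neg hb]), ← h5]
      refine Finset.prod_congr rfl fun l hl => ?_
      rw [Finset.mem_filter] at hl
      rw [f1, if_neg (by rw [hl.2]; exact hk.2)]
    · intro l
      constructor
      · intro hl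
        show f z (Sum.inr l) = 0
        rw [f3, if_neg hl]
      · intro hl _
        rw [not_not] at hl
        show f z (Sum.inr l) ≠ 0
        rw [f3, if_pos hl]
        rw [hAmem] at hl
        exact z1 l (fun hP => pe2_Pl.1 hP (hFK _ hl.1)) hl.2
  · -- g maps into MS
    rintro y ⟨⟨y1, y2, y3, y4⟩, y5⟩
    have y1' : ∀ l, D.β l ∈ D.KX → D.β l ∉ D.Fb P.BB → y (Sum.inl (Sum.inl l)) ≠ 0 :=
      fun l h1 h2 => y1 l ((hmemKF _).2 ⟨h1, h2⟩)
    have y2' : ∀ l, ¬ (D.β l ∈ D.KX ∧ D.β l ∉ D.Fb P.BB) → y (Sum.inl (Sum.inl l)) = 0 :=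
      fun l h1 => y2 l (fun h2 => h1 ((hmemKF _).1 h2))
    have y5' : ∀ l ∈ A, y (Sum.inr l) ≠ 0 := fun l hl => (y5 l).2 (fun h' => h' hl) trivial
    refine ⟨?_, ?_, ?_, ?_⟩
    · intro l hl ho
      have hK : D.β l ∈ D.KX := by
        by_contra hK
        exact hl (pe2_Pl.2 hK)
      rw [g1]
      split_ifs with hlA
      · exact y5' l hlA
      · exact y1' l hK fun hF => hlA ((hAmem l).2 ⟨hF, ho⟩)
    · intro l hl
      have hlA : l ∉ A := by
        rw [hAmem]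
        rintro ⟨h1, h2⟩
        rcases hl with hl | hl
        · exact pe2_Pl.1 hl (hFK _ h1)
        · omega
      rw [g1, if_neg hlA]
      refine y2' l ?_
      rintro ⟨h1, h2⟩
      rcases hl with hl | hl
      · exact pe2_Pl.1 hl h1
      · have := pe2_o_le h h1 (pe2_lt h h1 h2)
        omega
    · intro b hb
      have hb' : mh b = n := le_antisymm (h.hmh _) hb
      obtain ⟨k, hk, hbk⟩ := top_KX h (hMB.1.1 b.2) hb'
      rw [g2, if_pos ⟨k, hk, hbk⟩, if_neg (by omega)]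
    · intro k hk hm
      by_cases hF : k ∈ D.Fb P.BB
      · rw [pe2_ci_free hli (hFB k hF), hgf k hF y, if_pos hm]
        refine Finset.prod_congr rfl fun l hl => ?_
        rw [Finset.mem_filter] at hl
        rw [g1, if_pos (hblk k hF hm l hl.2)]
      · have h5 := y4 k ((hmemKF k).2 ⟨hk, hF⟩)
        have h6 : ∏ l ∈ Finset.univ.filter (fun l => D.β l = k),
            y (Sum.inl (Sum.inl l)) ^ D.d l =
            LF.ci D.av B₀ mh (fun b => y (Sum.inl (Sum.inr b))) (Sum.inr k) := h5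
        rw [pe2_ci_congr h hB₀ hk hF (c := fun b => g y (Sum.inr b))
          (c' := fun b => y (Sum.inl (Sum.inr b))) (fun b hb => by
            show g y (Sum.inr b) = y (Sum.inl (Sum.inr b))
            rw [g2, if_neg hb]), ← h6]
        refine Finset.prod_congr rfl fun l hl => ?_
        rw [Finset.mem_filter] at hl
        rw [g1, if_neg]
        rw [hAmem, hl.2]
        exact fun h' => hF h'.1
  · -- g (f z) = z
    rintro z ⟨z1, z2, z3, z4⟩
    funext i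
    rcases i with l | b
    · rw [g1]
      split_ifs with hlA
      · rw [f3, if_pos hlA]
      · rw [f1]
        split_ifs with hF
        · rw [hAmem] at hlA
          have ho : n < o l := by
            by_contra ho
            exact hlA ⟨hF, not_lt.1 ho⟩
          exact (z2 l (Or.inr ho)).symm
        · rfl
    · by_cases hb : ∃ k ∈ D.Fb P.BB, (b : J ⊕ Fin s) = Sum.inr k
      · obtain ⟨k, hk, hbk⟩ := hb
        have hbe : b = ⟨Sum.inr k, hFB k hk⟩ := Subtype.ext hbk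
        rw [hbe, hgf k hk]
        split_ifs with hm
        · have h5 := z4 k (hFK k hk) hm
          rw [pe2_ci_free hli (hFB k hk)] at h5
          rw [← h5]
          refine Finset.prod_congr rfl fun l hl => ?_
          rw [Finset.mem_filter] at hl
          rw [f3, if_pos (hblk k hk hm l hl.2)]
        · exact (z3 ⟨Sum.inr k, hFB k hk⟩ (not_lt.1 hm)).symm
      · rw [g2, if_neg hb, f2, if_neg hb]
  · -- f (g y) = y
    rintro y ⟨⟨y1, y2, y3, y4⟩, y5⟩
    have y2' : ∀ l, ¬ (D.β l ∈ D.KX ∧ D.β l ∉ D.Fb P.BB) → y (Sum.inl (Sum.inl l)) = 0 :=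
      fun l h1 => y2 l (fun h2 => h1 ((hmemKF _).1 h2))
    funext i
    rcases i with (l | b) | l
    · rw [f1]
      split_ifs with hF
      · exact (y2' l fun h' => h'.2 hF).symm
      · rw [g1, if_neg]
        rw [hAmem]
        exact fun h' => hF h'.1
    · rw [f2]
      split_ifs with hb
      · obtain ⟨k, hk, hbk⟩ := hb
        have hbe : b = ⟨Sum.inr k, hFB k hk⟩ := Subtype.ext hbk
        rw [hbe]
        exact (y3 k hk (hFB k hk)).symm
      · rw [g2, if_neg hb]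
    · rw [f3]
      split_ifs with hlA
      · rw [g1, if_pos hlA]
      · exact ((y5 l).1 hlA).symm

end LFM
end MotMono
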