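import Pool.Agent.Lib.MP_4e5fcd_ag.LFM.PE2

/-!
# LFM-PE3: the class of a cell

`cls_cell_MS`, `cls_MS`; `algebraMap LL = Lu`, `(Lu - 1) ^ c = Lu ^ c * (1 - Lu⁻¹) ^ c`. With
`c = #{l ∈ Fv : o l ≤ n}` and `e` from `cls_cell_MS` one has to show (integers)
`e - N (n + 1) + c = -(cst + ∑_{B₀ \ Fb} mh + ∑_{β l ∈ KX} o l - ∑_{KX \ Fb} mh)`:
`mo = ∑_l (n - o l) - ∑_k (n - nuv k)` (natural subtractions). Plain blocks: `n - 1` and `n - 1`, cancel. For `l ∉ Pl`:
`n - o l + [o l = n + 1]` (integers); for `k ∈ KX`: `n - (mh (inr k) + 1) + [mh (inr k) = n]` (`hk`). The subtraction in `mo` is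
exact (`∑_k ≤ ∑_l`: for `k ∈ KX` choose a variable `l` of the block: `o l ≤ d l * o l ≤ nuv k`).
`nu av mh = ∑_{B₀} mh` (`nu`, `MaxB`: see `LF.nu_eq...`, `nu_clo`, LF/A*). `|B₀| - #{b ∈ B₀ : mh b < n} = #{b ∈ B₀ : mh b = n} =
#{k ∈ KX : mh (inr k) = n}` (`top_KX`; `Fb`-indices are in `B₀`). `#{l ∉ Pl : o l = n + 1} = #{l ∈ Fv : o l = n + 1}` (then
`nuv (β l) ≥ n + 1`, `mh (inr (β l)) = n`, `β l ∈ Fb` by `top_KX`), so adding `c`: `|Fv|`. `|Pl| = s - |KX|`, `N = |Pl| + #{β l ∈ KX \ Fb} + |Fv|`,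
`|KX| = |KX \ Fb| + |Fb|`, `|B₀| = |B₀ \ Fb| + |Fb|`, `∑_{B₀} mh - ∑_{KX} mh = ∑_{B₀ \ Fb} mh - ∑_{KX \ Fb} mh`. (`Fb` means the set of the
`inr k`, `k ∈ Fb`.)
-/

open MvPolynomial

namespace MotMono
namespace LFM

variable {J Γ : Type} [Fintype J] [Fintype Γ] {N s : ℕ} {D : Dat J Γ N s}
  {P : LF.Pat (J ⊕ Fin s) Γ} {K n : ℕ} {o : Fin N → ℕ} {mh : J ⊕ Fin s → ℕ}

open Classical in
/-- the variable part of the exponent -/
noncomputable def Dat.lin (D : Dat J Γ N s) (BB : Finset (Finset (J ⊕ Fin s)))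
    (B₀ : Finset (J ⊕ Fin s)) (o : Fin N → ℕ) (mh : J ⊕ Fin s → ℕ) : ℤ :=
  ∑ b ∈ B₀ \ (D.Fb BB).map ⟨Sum.inr, Sum.inr_injective⟩, (mh b : ℤ) +
    ∑ l ∈ Finset.univ.filter (fun l => D.β l ∈ D.KX), (o l : ℤ) -
    ∑ k ∈ D.KX \ D.Fb BB, (mh (Sum.inr k) : ℤ)

omit [Fintype J] [Fintype Γ] in
private theorem pe3_av_ne (D : Dat J Γ N s) (i : J ⊕ Fin s) : D.av i ≠ 0 := by
  cases i with
  | inl j => exact D.ha j
  | inr k =>
    intro h
    have h1 := congrFun h k
    simp [Dat.av] at h1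

omit [Fintype J] [Fintype Γ] in
private theorem pe3_mem_Pl {l : Fin N} : l ∈ D.Pl ↔ D.β l ∉ D.KX := by
  simp [Dat.Pl]

omit [Fintype J] [Fintype Γ] in
private theorem pe3_plain {l : Fin N} (h : D.β l ∉ D.KX) :
    D.d l = 1 ∧ ∀ l', D.β l' = D.β l → l' = l := by
  simp only [Dat.KX, Finset.mem_filter, Finset.mem_univ, true_and, not_exists, not_and,
    not_or] at h
  have h1 := h l rfl
  refine ⟨?_, fun l' hl' => ?_⟩
  · have h2 := D.hd l
    have h3 := h1.1
    omega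
  · by_contra hne
    exact h1.2 l' hne hl'

omit [Fintype J] [Fintype Γ] in
private theorem pe3_card_Pl (D : Dat J Γ N s) : D.Pl.card + D.KX.card = s := by
  classical
  have h1 : D.Pl.card = (D.KXᶜ).card := by
    refine Finset.card_bij (fun l _ => D.β l) ?_ ?_ ?_
    · intro l hl
      rw [Finset.mem_compl]
      exact pe3_mem_Pl.1 hl
    · intro l hl l' hl' h
      exact (pe3_plain (pe3_mem_Pl.1 hl')).2 l h
    · intro k hk
      rw [Finset.mem_compl] at hk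
      obtain ⟨l, rfl⟩ := D.hβ k
      exact ⟨l, pe3_mem_Pl.2 hk, rfl⟩
  have h2 := Finset.card_add_card_compl D.KX
  rw [Fintype.card_fin] at h2
  omega

omit [Fintype J] [Fintype Γ] in
private theorem pe3_le_nuv (D : Dat J Γ N s) (o : Fin N → ℕ) (l : Fin N) :
    o l ≤ Mon.nuv D.β D.d o (D.β l) := by
  unfold Mon.nuv
  have h1 : D.d l * o l ≤ ∑ l' ∈ Finset.univ.filter (fun l' => D.β l' = D.β l), D.d l' * o l' :=
    Finset.single_le_sum (f := fun l' => D.d l' * o l') (fun _ _ => Nat.zero_le _)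
      (Finset.mem_filter.2 ⟨Finset.mem_univ _, rfl⟩)
  have h2 : o l ≤ D.d l * o l := Nat.le_mul_of_pos_left _ (D.hd l)
  exact h2.trans h1

omit [Fintype J] [Fintype Γ] in
private theorem pe3_nuv_plain {k : Fin s} (hk : k ∉ D.KX) (ho : ∀ l ∈ D.Pl, o l = 1) :
    Mon.nuv D.β D.d o k = 1 := by
  obtain ⟨l, rfl⟩ := D.hβ k
  obtain ⟨h1, h2⟩ := pe3_plain hk
  unfold Mon.nuv
  have h3 : Finset.univ.filter (fun l' => D.β l' = D.β l) = {l} := by
    ext l'
    simp only [Finset.mem_filter, Finset.mem_univ, true_and, Finset.mem_singleton]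
    exact ⟨h2 l', fun h => by rw [h]⟩
  rw [h3, Finset.sum_singleton, h1, ho l (pe3_mem_Pl.2 hk)]

omit [Fintype J] [Fintype Γ] in
private theorem pe3_sub_le (D : Dat J Γ N s) (o : Fin N → ℕ) (m : ℕ) :
    ∑ k, (m - Mon.nuv D.β D.d o k) ≤ ∑ l, (m - o l) := by
  classical
  obtain ⟨c, hc⟩ := D.hβ.hasRightInverse
  have hinj : Function.Injective c := hc.injective
  calc ∑ k, (m - Mon.nuv D.β D.d o k) ≤ ∑ k, (m - o (c k)) := by
        refine Finset.sum_le_sum fun k _ => ?_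
        have h1 := pe3_le_nuv D o (c k)
        rw [hc k] at h1
        omega
    _ = ∑ l ∈ Finset.univ.image c, (m - o l) := by
        rw [Finset.sum_image fun x _ y _ h => hinj h]
    _ ≤ ∑ l, (m - o l) := Finset.sum_le_sum_of_subset (Finset.subset_univ _)

omit [Fintype J] [Fintype Γ] in
private theorem pe3_mem_KX {k : Fin s} {BB : Finset (Finset (J ⊕ Fin s))} (h : k ∈ D.Fb BB) :
    k ∈ D.KX := by
  simp only [Dat.Fb, Finset.mem_filter] at h
  exact h.1

omit [Fintype J] [Fintype Γ] in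
private theorem pe3_mem_B₀ {k : Fin s} {BB : Finset (Finset (J ⊕ Fin s))} (h : k ∈ D.Fb BB)
    {B₀ : Finset (J ⊕ Fin s)} (hB₀ : B₀ ∈ BB) : Sum.inr k ∈ B₀ := by
  simp only [Dat.Fb, Finset.mem_filter] at h
  exact h.2 B₀ hB₀

omit [Fintype Γ] in
private theorem pe3_mem_DT {k : Fin s} (hk : k ∈ D.KX) (T : Finset Γ) :
    Sum.inr k ∈ LF.DT D.W D.XI T := by
  simp only [LF.DT, Finset.mem_filter]
  refine ⟨Finset.mem_univ _, Or.inl ?_⟩
  unfold Dat.XI
  exact Finset.mem_map.2 ⟨k, hk, rfl⟩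

private theorem pe3_nu (h : D.CellH P K n o mh) {B₀ : Finset (J ⊕ Fin s)} (hB₀ : B₀ ∈ P.BB) :
    LF.nu D.av mh = ∑ b ∈ B₀, mh b := by
  have h1 : LF.MaxB D.av (LF.DT D.W D.XI P.T) mh B₀ := (h.hP.BB B₀).1 hB₀
  have h2 := LF.nu_clo (pe3_av_ne D) h1
  have h3 : LF.clo D.av (LF.DT D.W D.XI P.T) mh = mh := funext h.hP.closed
  rwa [h3] at h2

private theorem pe3_top_B (h : D.CellH P K n o mh) {B₀ : Finset (J ⊕ Fin s)} (hB₀ : B₀ ∈ P.BB) :
    (B₀.filter fun b => mh b = n).card = (D.KX.filter fun k => mh (Sum.inr k) = n).card := by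
  symm
  refine Finset.card_bij (fun k _ => Sum.inr k) ?_ ?_ ?_
  · intro k hk
    rw [Finset.mem_filter] at hk ⊢
    obtain ⟨k', hk', he⟩ := top_KX h (pe3_mem_DT hk.1 P.T) hk.2
    have : k = k' := Sum.inr_injective he
    subst this
    exact ⟨pe3_mem_B₀ hk' hB₀, hk.2⟩
  · intro k _ k' _ he
    exact Sum.inr_injective he
  · intro b hb
    rw [Finset.mem_filter] at hb
    have h1 : LF.MaxB D.av (LF.DT D.W D.XI P.T) mh B₀ := (h.hP.BB B₀).1 hB₀
    obtain ⟨k, hk, rfl⟩ := top_KX h (h1.1.1 hb.1) hb.2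
    exact ⟨k, Finset.mem_filter.2 ⟨pe3_mem_KX hk, hb.2⟩, rfl⟩

omit [Fintype J] [Fintype Γ] in
private theorem pe3_mem_Fv {l : Fin N} {BB : Finset (Finset (J ⊕ Fin s))} :
    l ∈ D.Fv BB ↔ D.β l ∈ D.Fb BB := by
  simp only [Dat.Fv, Finset.mem_filter, Finset.mem_univ, true_and]

private theorem pe3_top_v (h : D.CellH P K n o mh) {l : Fin N} (hl : D.β l ∈ D.KX)
    (ho : o l = n + 1) : D.β l ∈ D.Fb P.BB := by
  have h1 := h.hk _ hl
  have h2 := pe3_le_nuv D o l
  have h3 : mh (Sum.inr (D.β l)) = n := by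
    have h4 : min (Mon.nuv D.β D.d o (D.β l)) (n + 1) = n + 1 := min_eq_right (by omega)
    omega
  obtain ⟨k', hk', he⟩ := top_KX h (pe3_mem_DT hl P.T) h3
  have : D.β l = k' := Sum.inr_injective he
  rw [this]
  exact hk'

theorem exp_cell (h : D.CellH P K n o mh) {B₀ : Finset (J ⊕ Fin s)} (hB₀ : B₀ ∈ P.BB) {e : ℕ}
    (he : e + LF.nu D.av mh + (B₀.filter fun b => mh b < n).card =
      mo D.β D.d o (n + 1) + s * n) :
    (e : ℤ) - N * (n + 1) + ((D.Fv P.BB).filter fun l => o l ≤ n).card =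
      -(D.cst P.BB B₀ + D.lin P.BB B₀ o mh) := by
  classical
  have hn1 : 1 ≤ n := by
    have h1 := h.hn
    have h2 : 1 ≤ LF.Hb D.W := by unfold LF.Hb; omega
    omega
  have hMax : LF.MaxB D.av (LF.DT D.W D.XI P.T) mh B₀ := (h.hP.BB B₀).1 hB₀
  -- abbreviations
  set Fb := D.Fb P.BB with hFb
  set Fv := D.Fv P.BB with hFv
  set NP : Finset (Fin N) := Finset.univ.filter (fun l => D.β l ∈ D.KX) with hNP
  have hFbKX : Fb ⊆ D.KX := fun k hk => pe3_mem_KX hk
  have hFbB : Fb.map ⟨Sum.inr, Sum.inr_injective⟩ ⊆ B₀ := by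
    intro b hb
    rw [Finset.mem_map] at hb
    obtain ⟨k, hk, rfl⟩ := hb
    exact pe3_mem_B₀ hk hB₀
  -- sums over all variables and blocks
  have hPlNP : D.Pl = NPᶜ := by
    ext l
    rw [pe3_mem_Pl, Finset.mem_compl, hNP, Finset.mem_filter]
    simp
  have hPlcard : (D.Pl.card : ℤ) = s - D.KX.card := by
    have := pe3_card_Pl D
    omega
  have hA : (∑ l, ((n - o l : ℕ) : ℤ)) = D.Pl.card * ((n : ℤ) - 1) +
      (NP.card * (n : ℤ) - ∑ l ∈ NP, (o l : ℤ) + (NP.filter fun l => o l = n + 1).card) := by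
    rw [← Finset.sum_add_sum_compl NP, add_comm, ← hPlNP]
    congr 1
    · rw [← nsmul_eq_mul, ← Finset.sum_const]
      refine Finset.sum_congr rfl fun l hl => ?_
      rw [h.hPl l hl]
      omega
    · rw [Finset.card_filter (fun l => o l = n + 1) NP, ← nsmul_eq_mul, ← Finset.sum_const,
        Nat.cast_sum, ← Finset.sum_sub_distrib, ← Finset.sum_add_distrib]
      refine Finset.sum_congr rfl fun l hl => ?_
      have h1 := h.ho2 l
      split_ifs with h2
      · rw [h2]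
        push_cast
        omega
      · push_cast
        omega
  have hB : (∑ k, ((n - Mon.nuv D.β D.d o k : ℕ) : ℤ)) = D.Pl.card * ((n : ℤ) - 1) +
      (D.KX.card * ((n : ℤ) - 1) - ∑ k ∈ D.KX, (mh (Sum.inr k) : ℤ) +
        (D.KX.filter fun k => mh (Sum.inr k) = n).card) := by
    rw [← Finset.sum_add_sum_compl D.KX, add_comm]
    congr 1
    · have h1 : (D.KXᶜ.card : ℤ) = D.Pl.card := by
        have h2 := Finset.card_add_card_compl D.KX
        rw [Fintype.card_fin] at h2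
        have h3 := pe3_card_Pl D
        omega
      rw [← h1, ← nsmul_eq_mul, ← Finset.sum_const]
      refine Finset.sum_congr rfl fun k hk => ?_
      rw [pe3_nuv_plain (Finset.mem_compl.1 hk) h.hPl]
      omega
    · rw [Finset.card_filter (fun k => mh (Sum.inr k) = n) D.KX, ← nsmul_eq_mul,
        ← Finset.sum_const, Nat.cast_sum, ← Finset.sum_sub_distrib, ← Finset.sum_add_distrib]
      refine Finset.sum_congr rfl fun k hk => ?_
      have h1 := h.hk k hk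
      split_ifs with h2
      · push_cast
        omega
      · push_cast
        omega
  have hmo : (mo D.β D.d o (n + 1) : ℤ) =
      ∑ l, ((n - o l : ℕ) : ℤ) - ∑ k, ((n - Mon.nuv D.β D.d o k : ℕ) : ℤ) := by
    unfold mo
    have h1 := pe3_sub_le D o n
    have h2 : n + 1 - 1 = n := rfl
    rw [h2, Nat.cast_sub h1, Nat.cast_sum, Nat.cast_sum]
  have hnu := pe3_nu h hB₀
  have htop := pe3_top_B h hB₀
  have hBn : (B₀.filter fun b => mh b < n).card + (B₀.filter fun b => mh b = n).card =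
      B₀.card := by
    have h1 := Finset.card_filter_add_card_filter_not (s := B₀) (fun b => mh b < n)
    have h2 : (B₀.filter fun b => ¬ mh b < n) = B₀.filter fun b => mh b = n := by
      refine Finset.filter_congr fun b _ => ?_
      have := h.hmh b
      omega
    rw [h2] at h1
    exact h1
  have hu : (NP.filter fun l => o l = n + 1) = Fv.filter fun l => o l = n + 1 := by
    ext l
    simp only [hNP, hFv, Finset.mem_filter, pe3_mem_Fv, Finset.mem_univ, true_and]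
    constructor
    · rintro ⟨h1, h2⟩
      exact ⟨pe3_top_v h h1 h2, h2⟩
    · rintro ⟨h1, h2⟩
      exact ⟨pe3_mem_KX h1, h2⟩
  have hc : (Fv.filter fun l => o l ≤ n).card + (Fv.filter fun l => o l = n + 1).card =
      Fv.card := by
    have h1 := Finset.card_filter_add_card_filter_not (s := Fv) (fun l => o l ≤ n)
    have h2 : (Fv.filter fun l => ¬ o l ≤ n) = Fv.filter fun l => o l = n + 1 := by
      refine Finset.filter_congr fun l _ => ?_
      have := h.ho2 l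
      omega
    rw [h2] at h1
    exact h1
  have hN : D.Pl.card + NP.card = N := by
    have h1 := Finset.card_add_card_compl NP
    rw [Fintype.card_fin, ← hPlNP] at h1
    omega
  have hNPc : NP.card = (Finset.univ.filter fun l => D.β l ∈ D.KX \ Fb).card + Fv.card := by
    have h1 := Finset.card_filter_add_card_filter_not (s := NP) (fun l => D.β l ∈ Fb)
    have h2 : (NP.filter fun l => D.β l ∈ Fb) = Fv := by
      ext l
      rw [Finset.mem_filter, hNP, Finset.mem_filter, pe3_mem_Fv]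
      exact ⟨fun h => h.2, fun h => ⟨⟨Finset.mem_univ _, pe3_mem_KX h⟩, h⟩⟩
    have h3 : (NP.filter fun l => ¬ D.β l ∈ Fb) =
        Finset.univ.filter fun l => D.β l ∈ D.KX \ Fb := by
      ext l
      simp [hNP, Finset.mem_sdiff]
    rw [h2, h3] at h1
    omega
  have hKXc : (D.KX \ Fb).card + Fb.card = D.KX.card := Finset.card_sdiff_add_card_eq_card hFbKX
  have hBc : (B₀ \ Fb.map ⟨Sum.inr, Sum.inr_injective⟩).card + Fb.card = B₀.card := by
    have h1 := Finset.card_sdiff_add_card_eq_card hFbB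
    rwa [Finset.card_map] at h1
  have hsB : (∑ b ∈ B₀ \ Fb.map ⟨Sum.inr, Sum.inr_injective⟩, (mh b : ℤ)) +
      ∑ k ∈ Fb, (mh (Sum.inr k) : ℤ) = ∑ b ∈ B₀, (mh b : ℤ) := by
    have h1 := Finset.sum_sdiff (f := fun b => (mh b : ℤ)) hFbB
    rw [Finset.sum_map] at h1
    exact h1
  have hsK : (∑ k ∈ D.KX \ Fb, (mh (Sum.inr k) : ℤ)) + ∑ k ∈ Fb, (mh (Sum.inr k) : ℤ) =
      ∑ k ∈ D.KX, (mh (Sum.inr k) : ℤ) :=
    Finset.sum_sdiff (f := fun k => (mh (Sum.inr k) : ℤ)) hFbKX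
  -- put everything together
  have he' : (e : ℤ) + ∑ b ∈ B₀, (mh b : ℤ) + (B₀.filter fun b => mh b < n).card =
      (∑ l, ((n - o l : ℕ) : ℤ) - ∑ k, ((n - Mon.nuv D.β D.d o k : ℕ) : ℤ)) + s * n := by
    rw [← hmo]
    have h1 : ((e + LF.nu D.av mh + (B₀.filter fun b => mh b < n).card : ℕ) : ℤ) =
      ((mo D.β D.d o (n + 1) + s * n : ℕ) : ℤ) := by rw [he]
    rw [hnu] at h1
    push_cast at h1
    exact h1
  rw [hA, hB, hu] at he'
  unfold Dat.cst Dat.lin
  rw [← hFb, ← hNP]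
  have e1 : (D.KX.card : ℤ) = (D.KX \ Fb).card + Fb.card := by exact_mod_cast hKXc.symm
  have e2 : (B₀.card : ℤ) = (B₀ \ Fb.map ⟨Sum.inr, Sum.inr_injective⟩).card + Fb.card := by
    exact_mod_cast hBc.symm
  have e3 : ((B₀.filter fun b => mh b < n).card : ℤ) + (B₀.filter fun b => mh b = n).card =
      B₀.card := by exact_mod_cast hBn
  have e4 : ((Fv.filter fun l => o l ≤ n).card : ℤ) + (Fv.filter fun l => o l = n + 1).card =
      Fv.card := by exact_mod_cast hc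
  have e5 : (N : ℤ) = D.Pl.card + NP.card := by exact_mod_cast hN.symm
  have e6 : (NP.card : ℤ) = (Finset.univ.filter fun l => D.β l ∈ D.KX \ Fb).card + Fv.card := by
    exact_mod_cast hNPc
  have e7 : ((B₀.filter fun b => mh b = n).card : ℤ) =
      (D.KX.filter fun k => mh (Sum.inr k) = n).card := by exact_mod_cast htop
  have e8 : (s : ℤ) = D.Pl.card + D.KX.card := by linarith
  have e9 : (e : ℤ) = ((NP.card * (n : ℤ) - ∑ l ∈ NP, (o l : ℤ) +
      (Fv.filter fun l => o l = n + 1).card) -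
      (D.KX.card * ((n : ℤ) - 1) - ∑ k ∈ D.KX, (mh (Sum.inr k) : ℤ) +
        (D.KX.filter fun k => mh (Sum.inr k) = n).card)) + s * n -
      ∑ b ∈ B₀, (mh b : ℤ) - (B₀.filter fun b => mh b < n).card := by linarith
  rw [e9]
  have e10 : ((B₀.filter fun b => mh b < n).card : ℤ) = B₀.card -
      (D.KX.filter fun k => mh (Sum.inr k) = n).card := by linarith
  have e11 : ((Fv.filter fun l => o l ≤ n).card : ℤ) = Fv.card -
      (Fv.filter fun l => o l = n + 1).card := by linarith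
  rw [e10, e11, ← hsB, ← hsK, e5, e8, e2, e1]
  rw [e6]
  ring

theorem cls_cell (h : D.CellH P K n o mh) {B₀ : Finset (J ⊕ Fin s)} (hB₀ : B₀ ∈ P.BB) :
    algebraMap K0 MC (cls (D.cell n o mh)) * ((Lu ^ (-(N * (n + 1) : ℤ)) : MCˣ) : MC) =
      algebraMap K0 MC (cls (D.XH P.BB B₀ mh)) *
        ((Lu ^ (-(D.cst P.BB B₀ + D.lin P.BB B₀ o mh)) : MCˣ) : MC) *
        ∏ l ∈ D.Fv P.BB, if o l ≤ n then 1 - ((Lu⁻¹ : MCˣ) : MC) else 1 := by
  classical
  obtain ⟨-, e, he, hcls⟩ := cls_cell_MS h hB₀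
  have hexp := exp_cell h hB₀ he
  rw [hcls, cls_MS h hB₀]
  set c := ((D.Fv P.BB).filter fun l => o l ≤ n).card with hc
  have hLu : algebraMap K0 MC LL = (Lu : MC) := by
    unfold Lu
    rw [IsUnit.unit_spec]
  have hprod : (∏ l ∈ D.Fv P.BB, if o l ≤ n then 1 - ((Lu⁻¹ : MCˣ) : MC) else 1) =
      (1 - ((Lu⁻¹ : MCˣ) : MC)) ^ c := by
    rw [Finset.prod_ite, Finset.prod_const, Finset.prod_const_one, mul_one]
  have hpow : ((Lu : MC) - 1) ^ c = ((Lu ^ (c : ℤ) : MCˣ) : MC) *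
      (1 - ((Lu⁻¹ : MCˣ) : MC)) ^ c := by
    rw [zpow_natCast, Units.val_pow_eq_pow_val, ← mul_pow]
    congr 1
    rw [mul_sub, mul_one, Units.mul_inv]
  rw [hprod, ← hexp, map_mul, map_mul, map_pow, map_pow, map_sub, map_one, hLu, hpow]
  have h1 : ((Lu : MC) ^ e) = ((Lu ^ (e : ℤ) : MCˣ) : MC) := by
    rw [zpow_natCast, Units.val_pow_eq_pow_val]
  have h2 : ((Lu ^ ((e : ℤ) - N * (n + 1) + c) : MCˣ) : MC) =
      ((Lu ^ (e : ℤ) : MCˣ) : MC) * ((Lu ^ (-(N * (n + 1) : ℤ)) : MCˣ) : MC) *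
        ((Lu ^ (c : ℤ) : MCˣ) : MC) := by
    rw [sub_eq_add_neg, zpow_add, zpow_add, Units.val_mul, Units.val_mul]
  rw [h1, h2]
  ring

end LFM
end MotMono
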