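import Pool.Agent.Lib.MP_4e5fcd_ag.LFM.X1
import Pool.Agent.Lib.MP_4e5fcd_ag.LFM.X2
import Pool.Agent.Lib.MP_4e5fcd_ag.LF.F3
import Pool.Agent.Lib.MP_4e5fcd_ag.LF.J3
import Pool.Agent.Lib.MP_4e5fcd_ag.K1
import Pool.Agent.Lib.MP_4e5fcd_ag.Mon.G2

/-!
# LFM-PF1: decomposition of the jets at the origin into cells

Let `A` be the set of jets in `Dat.AK`. Partition by the orders: for `o ∈ Co n` let `A_o = A ∩ Yset Pl o (n + 1)`; for `γ ∈ A` take
`o l = Mon.ord1 (fun j => γ (l, j))` for `l ∉ Pl` (it is in `[1, n + 1]`; `n + 1` if `γ (l, ·) = 0`), `o l = 1` for `l ∈ Pl`; all `γ` in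
`Yset Pl o (n + 1)`, `o ∈ Co n`, satisfy `γ (l, 0) = 0`. The sets are disjoint, constructible.
`vv_cell`: for `γ ∈ Yset Pl o (n + 1)`, `k ∈ KX`: `Mon.zc_lt`, `Mon.zc_eq`: `yj (k, e) = 0` for `e < nuv k`, and `≠ 0` for `e = nuv k ≤ n`
(the variables of the block are not in `Pl`, so their coefficients of index `o l` are not zero, as `o l ≤ nuv k ≤ n`); if
`nuv k ≥ n + 1` then `yj (k, ·) = 0`. `vv_single` (X2).
On `A_o` partition by `v = vv av (yj γ)`, closed (`LF.vv_closed`, `av i ≠ 0`), values `≤ n`; the condition of `A` is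
`UC W univ (E * K) v`. `f0` (LF/F3) with `D = XI`: `ucf v = ∑_{mh ∈ Bd XI v, closed} al .. mh`. Exchange the sums (see LF/J4, whose
proof can be adapted): `∑_{v closed, mh ∈ Bd XI v} cls {γ ∈ Yset Pl o (n+1), vv = v} = cls (cell n o mh)` if
`mh (inr k) + 1 = min (nuv k) (n + 1)` for all `k ∈ KX`, and there is no such `γ` otherwise (`vv_cell`; `mh = v` on `XI`).
`constr_yj` (X2), `constr_vv` (LF/J3), `cls_XY` for constructibility. `(∅ : Finset Γ)ᶜ = univ`.
-/

open MvPolynomial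

namespace MotMono
namespace LFM

variable {J Γ : Type} [Fintype J] [Fintype Γ] {N s : ℕ} (D : Dat J Γ N s)

open Classical in
/-- the orders of the variables -/
noncomputable def Dat.Co (n : ℕ) : Finset (Fin N → ℕ) :=
  Fintype.piFinset fun l => if l ∈ D.Pl then {1} else Finset.Icc 1 (n + 1)

omit [Fintype Γ] in
theorem av_ne_zero (i : J ⊕ Fin s) : D.av i ≠ 0 := by
  rcases i with j | k
  · exact D.ha j
  · intro h
    have h1 := congrFun h k
    simp [Dat.av] at h1

omit [Fintype Γ] [Fintype J] in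
private theorem pf1_nuv_pos {n : ℕ} {o : Fin N → ℕ} (ho : o ∈ D.Co n) (k : Fin s) :
    1 ≤ Mon.nuv D.β D.d o k := by
  classical
  obtain ⟨l, rfl⟩ := D.hβ k
  have h1 : 1 ≤ o l := by
    have h2 := Fintype.mem_piFinset.1 ho l
    split_ifs at h2 with h3
    · rw [Finset.mem_singleton] at h2
      exact h2.ge
    · exact (Finset.mem_Icc.1 h2).1
  have h2 : D.d l * o l ≤ Mon.nuv D.β D.d o (D.β l) := by
    unfold Mon.nuv
    exact Finset.single_le_sum (f := fun l => D.d l * o l) (fun _ _ => Nat.zero_le _)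
      (Finset.mem_filter.2 ⟨Finset.mem_univ l, rfl⟩)
  have h3 := D.hd l
  exact le_trans (Nat.mul_pos h3 h1) h2

omit [Fintype J] [Fintype Γ] in
private theorem pf1_dot (k : Fin s) {n : ℕ} (δ : Fin s × Fin n → ℂ) (l : Fin n) :
    D.av (Sum.inr k) ⬝ᵥ lev δ l = δ (k, l) := by
  simp [Dat.av, lev]

omit [Fintype Γ] in
theorem vv_cell {n : ℕ} {o : Fin N → ℕ} (ho : o ∈ D.Co n) {γ : Fin N × Fin (n + 1) → ℂ}
    (hγ : γ ∈ Mon.Yset D.Pl o (n + 1)) {k : Fin s} (hk : k ∈ D.KX) :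
    LF.vv D.av (yj D.β D.d γ) (Sum.inr k) + 1 = min (Mon.nuv D.β D.d o k) (n + 1) := by
  classical
  have hpos := pf1_nuv_pos D ho k
  by_cases hn : Mon.nuv D.β D.d o k ≤ n
  · rw [min_eq_left (by omega)]
    have hm : Mon.nuv D.β D.d o k - 1 < n := by omega
    rw [LF.vv_eq hm]
    · omega
    · intro l hl
      rw [pf1_dot]
      exact Mon.zc_lt D.β D.d o γ hγ.1 k _ (by rw [Fin.val_succ]; omega)
    · rw [pf1_dot]
      have h1 : ((Fin.succ ⟨Mon.nuv D.β D.d o k - 1, hm⟩ : Fin (n + 1)) : ℕ) =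
          Mon.nuv D.β D.d o k := by
        rw [Fin.val_succ]
        exact Nat.sub_add_cancel hpos
      show Mon.zc D.β D.d γ ((Fin.succ ⟨Mon.nuv D.β D.d o k - 1, hm⟩ : Fin (n + 1)) : ℕ) k ≠ 0
      rw [h1, Mon.zc_eq D.β D.d o D.hd γ hγ.1 k, Finset.prod_ne_zero_iff]
      intro l hl
      rw [Finset.mem_filter] at hl
      have hl1 : l ∉ D.Pl := by
        simp only [Dat.Pl, Finset.mem_filter, Finset.mem_univ, true_and, not_not]
        rw [hl.2]
        exact hk
      have hl2 : D.d l * o l ≤ Mon.nuv D.β D.d o k := by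
        unfold Mon.nuv
        exact Finset.single_le_sum (f := fun l => D.d l * o l) (fun _ _ => Nat.zero_le _)
          (Finset.mem_filter.2 hl)
      have hl3 : o l ≤ D.d l * o l := Nat.le_mul_of_pos_left _ (D.hd l)
      have hl4 : o l < n + 1 := by omega
      refine pow_ne_zero _ ?_
      unfold Mon.lc
      rw [dif_pos hl4]
      exact hγ.2 l hl1 hl4
  · rw [min_eq_right (by omega)]
    congr 1
    refine le_antisymm (LF.vv_le _ _ _) ((LF.le_vv_iff le_rfl).2 fun l _ => ?_)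
    rw [pf1_dot]
    exact Mon.zc_lt D.β D.d o γ hγ.1 k _ (by rw [Fin.val_succ]; omega)

omit [Fintype Γ] in
/-- constructibility of conditions on the order vector -/
private theorem pf1_constr {n : ℕ} (P : (J ⊕ Fin s → ℕ) → Prop) :
    Constr {γ : Fin N × Fin (n + 1) → ℂ | P (LF.vv D.av (yj D.β D.d γ))} := by
  have h1 : Constr {δ : Fin s × Fin (n + 1) → ℂ | P (LF.vv D.av δ)} := by
    refine LF.constr_of_vv D.av _ fun v => ?_
    by_cases hv : P v
    · have : {δ : Fin s × Fin (n + 1) → ℂ | δ ∈ {δ | P (LF.vv D.av δ)} ∧ LF.vv D.av δ = v} =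
          {δ | LF.vv D.av δ = v} := by
        ext δ
        simp only [Set.mem_ofPred_eq]
        exact ⟨fun h => h.2, fun h => ⟨by rw [h]; exact hv, h⟩⟩
      rw [this]
      exact LF.constr_vv D.av v
    · have : {δ : Fin s × Fin (n + 1) → ℂ | δ ∈ {δ | P (LF.vv D.av δ)} ∧ LF.vv D.av δ = v} =
          ∅ := by
        ext δ
        simp only [Set.mem_ofPred_eq, Set.mem_empty_iff_false, iff_false]
        rintro ⟨h, rfl⟩
        exact hv h
      rw [this]
      exact constr_empty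
  have h2 := constr_yj (N := N) D.β D.d (n := n + 1)
    {z : (Fin N × Fin (n + 1)) ⊕ Fin s × Fin (n + 1) → ℂ |
      (fun q => z (Sum.inr q)) ∈ {δ : Fin s × Fin (n + 1) → ℂ | P (LF.vv D.av δ)}}
    (h1.comp Sum.inr)
  exact h2

omit [Fintype Γ] in
theorem constr_cell {n : ℕ} (o : Fin N → ℕ) (mh : J ⊕ Fin s → ℕ) : Constr (D.cell n o mh) :=
  (Mon.constr_Yset D.Pl o).inter (pf1_constr D fun v => ∀ i, mh i ≤ v i)

private theorem pf1_constr0 {N n : ℕ} : Constr {γ : Fin N × Fin (n + 1) → ℂ | ∀ l, γ (l, 0) = 0} := by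
  have : {γ : Fin N × Fin (n + 1) → ℂ | ∀ l, γ (l, 0) = 0} =
      ⋂ l, {γ | eval γ (X (l, 0)) = 0} := by
    ext γ
    simp
  rw [this]
  exact constr_iInter fun l => Constr.zeroSet _

theorem constr_AK (K n : ℕ) : Constr {γ : Fin N × Fin (n + 1) → ℂ | (∀ l, γ (l, 0) = 0) ∧
    ∀ g, D.E * K ≤ pair (D.W g) fun i => LF.vv D.av (yj D.β D.d γ) i + 1} :=
  pf1_constr0.inter (pf1_constr D fun v => ∀ g, D.E * K ≤ pair (D.W g) fun i => v i + 1)

omit [Fintype Γ] in
open Classical in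
private theorem pf1_mem_Bd (B : Finset (J ⊕ Fin s)) (v m : J ⊕ Fin s → ℕ) :
    m ∈ LF.Bd B v ↔ (∀ i ∈ B, m i = v i) ∧ ∀ i, m i ≤ v i := by
  simp only [LF.Bd, Fintype.mem_piFinset]
  constructor
  · intro h
    refine ⟨fun i hi => ?_, fun i => ?_⟩
    · have := h i
      rw [if_pos hi] at this
      simpa using this
    · have := h i
      by_cases hi : i ∈ B
      · rw [if_pos hi] at this
        simp at this
        exact this.le
      · rw [if_neg hi] at this
        simp at this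
        omega
  · rintro ⟨h1, h2⟩ i
    by_cases hi : i ∈ B
    · rw [if_pos hi]
      simp [h1 i hi]
    · rw [if_neg hi]
      simp
      have := h2 i
      omega

/-- the stratum of jets with orders `o` and `vv = v` -/
private def pf1St (n : ℕ) (o : Fin N → ℕ) (v : J ⊕ Fin s → ℕ) :
    Set (Fin N × Fin (n + 1) → ℂ) :=
  {γ | γ ∈ Mon.Yset D.Pl o (n + 1) ∧ LF.vv D.av (yj D.β D.d γ) = v}

omit [Fintype Γ] in
private theorem pf1_constrSt (n : ℕ) (o : Fin N → ℕ) (v : J ⊕ Fin s → ℕ) :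
    Constr (pf1St D n o v) :=
  (Mon.constr_Yset D.Pl o).inter (pf1_constr D fun v' => v' = v)

omit [Fintype Γ] in
open Classical in
private theorem pf1_cls_union {n : ℕ} (o : Fin N → ℕ) (A : Set (Fin N × Fin (n + 1) → ℂ))
    (P : (J ⊕ Fin s → ℕ) → Prop) [DecidablePred P]
    (hA : ∀ γ, γ ∈ A ↔ γ ∈ Mon.Yset D.Pl o (n + 1) ∧ P (LF.vv D.av (yj D.β D.d γ))) :
    cls A = ∑ v ∈ (Fintype.piFinset (fun _ : J ⊕ Fin s => Finset.range (n + 1))).filter
      (fun v => LF.clo D.av Finset.univ v = v), if P v then cls (pf1St D n o v) else 0 := by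
  rw [← Finset.sum_filter]
  rw [← cls_biUnion _ (fun v _ => pf1_constrSt D n o v) (fun v _ v' _ h => by
    rw [Set.disjoint_left]
    rintro γ ⟨_, h1⟩ ⟨_, h2⟩
    exact h (h1.symm.trans h2))]
  congr 1
  ext γ
  simp only [Set.mem_iUnion, Finset.mem_filter, Fintype.mem_piFinset, Finset.mem_range,
    exists_prop]
  rw [hA]
  constructor
  · rintro ⟨h1, h2⟩
    refine ⟨LF.vv D.av (yj D.β D.d γ), ⟨⟨fun i => ?_, ?_⟩, h2⟩, h1, rfl⟩
    · have := LF.vv_le D.av (yj D.β D.d γ) i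
      omega
    · funext i
      exact LF.vv_closed (av_ne_zero D) (yj D.β D.d γ) i
  · rintro ⟨v, ⟨_, h2⟩, h3, rfl⟩
    exact ⟨h3, h2⟩

omit [Fintype Γ] in
open Classical in
private theorem pf1_o {n : ℕ} {o : Fin N → ℕ} (ho : o ∈ D.Co n) (f : (J ⊕ Fin s → ℕ) → Prop) :
    cls {γ : Fin N × Fin (n + 1) → ℂ | γ ∈ Mon.Yset D.Pl o (n + 1) ∧
      f (LF.vv D.av (yj D.β D.d γ))} =
    ∑ mh ∈ Fintype.piFinset (fun _ : J ⊕ Fin s => Finset.range (n + 1)),
      if (∀ i, LF.clo D.av Finset.univ mh i = mh i) ∧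
          ∀ k ∈ D.KX, mh (Sum.inr k) + 1 = min (Mon.nuv D.β D.d o k) (n + 1) then
        ((LF.al D.av D.XI (fun v => if f v then 1 else 0) mh : ℤ) : K0) * cls (D.cell n o mh)
      else 0 := by
  set R := Fintype.piFinset (fun _ : J ⊕ Fin s => Finset.range (n + 1)) with hR
  set V := R.filter (fun v => LF.clo D.av Finset.univ v = v) with hV
  have h1 : cls {γ : Fin N × Fin (n + 1) → ℂ | γ ∈ Mon.Yset D.Pl o (n + 1) ∧
      f (LF.vv D.av (yj D.β D.d γ))} = ∑ v ∈ V, if f v then cls (pf1St D n o v) else 0 :=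
    pf1_cls_union D o _ f fun γ => Iff.rfl
  -- the strata above a closed vector
  have h2 : ∀ mh ∈ R, (∑ v ∈ V, if mh ∈ LF.Bd D.XI v then cls (pf1St D n o v) else 0) =
      if ∀ k ∈ D.KX, mh (Sum.inr k) + 1 = min (Mon.nuv D.β D.d o k) (n + 1) then
        cls (D.cell n o mh) else 0 := by
    intro mh _
    rw [← pf1_cls_union D o {γ | γ ∈ Mon.Yset D.Pl o (n + 1) ∧
      mh ∈ LF.Bd D.XI (LF.vv D.av (yj D.β D.d γ))} (fun v => mh ∈ LF.Bd D.XI v) fun γ => Iff.rfl]
    split_ifs with hk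
    · congr 1
      ext γ
      simp only [Set.mem_ofPred_eq, pf1_mem_Bd, Dat.cell]
      constructor
      · rintro ⟨h3, _, h4⟩
        exact ⟨h3, h4⟩
      · rintro ⟨h3, h4⟩
        refine ⟨h3, fun i hi => ?_, h4⟩
        simp only [Dat.XI, Finset.mem_map, Function.Embedding.coeFn_mk] at hi
        obtain ⟨k, hk1, rfl⟩ := hi
        have h5 := hk k hk1
        rw [← vv_cell D ho h3 hk1] at h5
        omega
    · rw [← cls_empty (σ := Fin N × Fin (n + 1))]
      congr 1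
      ext γ
      simp only [Set.mem_ofPred_eq, pf1_mem_Bd, Set.mem_empty_iff_false, iff_false]
      rintro ⟨h3, h4, _⟩
      apply hk
      intro k hk1
      rw [← vv_cell D ho h3 hk1, h4 (Sum.inr k)
        (by simp only [Dat.XI, Finset.mem_map, Function.Embedding.coeFn_mk]; exact ⟨k, hk1, rfl⟩)]
  have h3 : ∀ v ∈ V, ((if f v then 1 else 0 : ℤ)) =
      ∑ mh ∈ R, if mh ∈ LF.Bd D.XI v ∧ LF.clo D.av Finset.univ mh = mh then
        LF.al D.av D.XI (fun v => if f v then 1 else 0) mh else 0 := by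
    intro v hv
    rw [hV, Finset.mem_filter] at hv
    have := LF.f0 (av_ne_zero D) D.XI (fun v => if f v then 1 else 0) v hv.2
    rw [← Finset.sum_filter]
    refine this.trans (Finset.sum_congr ?_ fun _ _ => rfl)
    ext mh
    simp only [Finset.mem_filter]
    refine ⟨fun h => ⟨?_, h⟩, fun h => h.2⟩
    have h4 := (pf1_mem_Bd D.XI v mh).1 h.1
    have h5 := hv.1
    rw [hR, Fintype.mem_piFinset] at h5 ⊢
    intro i
    have h6 := h5 i
    have h7 := h4.2 i
    rw [Finset.mem_range] at h6 ⊢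
    omega
  rw [h1]
  calc ∑ v ∈ V, (if f v then cls (pf1St D n o v) else 0)
      = ∑ v ∈ V, ∑ mh ∈ R, if (∀ i, LF.clo D.av Finset.univ mh i = mh i) then
          (if mh ∈ LF.Bd D.XI v then
            ((LF.al D.av D.XI (fun v => if f v then 1 else 0) mh : ℤ) : K0) *
              cls (pf1St D n o v) else 0) else 0 := by
        refine Finset.sum_congr rfl fun v hv => ?_
        have h4 : (if f v then cls (pf1St D n o v) else 0) =
            (((if f v then 1 else 0 : ℤ)) : K0) * cls (pf1St D n o v) := by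
          split_ifs <;> simp
        rw [h4, h3 v hv]
        push_cast
        rw [Finset.sum_mul]
        refine Finset.sum_congr rfl fun mh _ => ?_
        by_cases hb : mh ∈ LF.Bd D.XI v
        · by_cases hc : LF.clo D.av Finset.univ mh = mh
          · have hc' : ∀ i, LF.clo D.av Finset.univ mh i = mh i := fun i => congrFun hc i
            rw [if_pos ⟨hb, hc⟩, if_pos hc', if_pos hb]
          · have hc' : ¬ ∀ i, LF.clo D.av Finset.univ mh i = mh i := fun h => hc (funext h)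
            rw [if_neg (fun h => hc h.2), if_neg hc']
            simp
        · rw [if_neg (fun h => hb h.1), if_neg hb]
          simp
    _ = ∑ mh ∈ R, ∑ v ∈ V, if (∀ i, LF.clo D.av Finset.univ mh i = mh i) then
          (if mh ∈ LF.Bd D.XI v then
            ((LF.al D.av D.XI (fun v => if f v then 1 else 0) mh : ℤ) : K0) *
              cls (pf1St D n o v) else 0) else 0 :=
        Finset.sum_comm
    _ = _ := by
        refine Finset.sum_congr rfl fun mh hmh => ?_
        by_cases hc : ∀ i, LF.clo D.av Finset.univ mh i = mh i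
        · simp only [if_pos hc]
          have h5 : (∑ v ∈ V, if mh ∈ LF.Bd D.XI v then
              ((LF.al D.av D.XI (fun v => if f v then 1 else 0) mh : ℤ) : K0) *
              cls (pf1St D n o v) else 0) =
              ((LF.al D.av D.XI (fun v => if f v then 1 else 0) mh : ℤ) : K0) *
                ∑ v ∈ V, if mh ∈ LF.Bd D.XI v then cls (pf1St D n o v) else 0 := by
            rw [Finset.mul_sum]
            refine Finset.sum_congr rfl fun v _ => ?_
            split_ifs <;> simp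
          rw [h5, h2 mh hmh]
          by_cases hk : ∀ k ∈ D.KX, mh (Sum.inr k) + 1 = min (Mon.nuv D.β D.d o k) (n + 1)
          · rw [if_pos hk, if_pos ⟨hc, hk⟩]
          · rw [if_neg hk, if_neg (fun h => hk h.2), mul_zero]
        · simp only [if_neg hc]
          rw [if_neg (fun h => hc h.1)]
          exact Finset.sum_const_zero

open Classical in
/-- the orders of a jet -/
private noncomputable def pf1_ord {n : ℕ} (γ : Fin N × Fin (n + 1) → ℂ) : Fin N → ℕ :=
  fun l => if l ∈ D.Pl then 1 else Mon.ord1 fun j => γ (l, j)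

omit [Fintype Γ] [Fintype J] in
private theorem pf1_ord_mem {n : ℕ} (γ : Fin N × Fin (n + 1) → ℂ) (h0 : ∀ l, γ (l, 0) = 0) :
    pf1_ord D γ ∈ D.Co n := by
  classical
  unfold Dat.Co
  rw [Fintype.mem_piFinset]
  intro l
  by_cases hl : l ∈ D.Pl
  · rw [if_pos hl]
    simp [pf1_ord, hl]
  · rw [if_neg hl, Finset.mem_Icc]
    simp only [pf1_ord, if_neg hl]
    refine ⟨?_, Mon.ord1_le _⟩
    by_contra h
    have h1 : Mon.ord1 (fun j => γ (l, j)) = 0 := by omega
    have h2 := ((Mon.ord1_eq_iff (fun j => γ (l, j)) 0 (Nat.zero_le _)).1 h1).2 (Nat.succ_pos n)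
    exact h2 (h0 l)

omit [Fintype Γ] [Fintype J] in
private theorem pf1_mem_Yset {n : ℕ} (γ : Fin N × Fin (n + 1) → ℂ) (h0 : ∀ l, γ (l, 0) = 0) :
    γ ∈ Mon.Yset D.Pl (pf1_ord D γ) (n + 1) := by
  classical
  refine ⟨fun l j hj => ?_, fun l hl h => ?_⟩
  · by_cases hl : l ∈ D.Pl
    · simp only [pf1_ord, if_pos hl] at hj
      have h1 : j = 0 := Fin.ext (by simpa using Nat.lt_one_iff.1 hj)
      rw [h1]
      exact h0 l
    · simp only [pf1_ord, if_neg hl] at hj
      exact Mon.eq_zero_of_lt_ord1 (fun j => γ (l, j)) j hj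
  · have h2 : pf1_ord D γ l = Mon.ord1 fun j => γ (l, j) := by simp only [pf1_ord, if_neg hl]
    have h3 := ((Mon.ord1_eq_iff (fun j => γ (l, j)) _ (Mon.ord1_le _)).1 rfl).2 (by omega)
    have h4 : (⟨pf1_ord D γ l, h⟩ : Fin (n + 1)) = ⟨Mon.ord1 fun j => γ (l, j), by omega⟩ :=
      Fin.ext h2
    rw [h4]
    exact h3

omit [Fintype Γ] [Fintype J] in
private theorem pf1_ord_eq {n : ℕ} {o : Fin N → ℕ} (ho : o ∈ D.Co n)
    (γ : Fin N × Fin (n + 1) → ℂ) (hγ : γ ∈ Mon.Yset D.Pl o (n + 1)) :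
    (∀ l, γ (l, 0) = 0) ∧ pf1_ord D γ = o := by
  classical
  have h1 : ∀ l, (l ∈ D.Pl → o l = 1) ∧ (l ∉ D.Pl → 1 ≤ o l ∧ o l ≤ n + 1) := by
    intro l
    have h2 := Fintype.mem_piFinset.1 ho l
    constructor
    · intro h
      rw [if_pos h, Finset.mem_singleton] at h2
      exact h2
    · intro h
      rw [if_neg h, Finset.mem_Icc] at h2
      exact h2
  refine ⟨fun l => hγ.1 l 0 ?_, funext fun l => ?_⟩
  · by_cases hl : l ∈ D.Pl
    · rw [(h1 l).1 hl]
      exact Nat.one_pos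
    · exact ((h1 l).2 hl).1
  · unfold pf1_ord
    by_cases hl : l ∈ D.Pl
    · rw [if_pos hl, (h1 l).1 hl]
    · rw [if_neg hl]
      exact (Mon.ord1_eq_iff (fun j => γ (l, j)) (o l) ((h1 l).2 hl).2).2
        ⟨fun j hj => hγ.1 l j hj, fun h => hγ.2 l hl h⟩

open Classical in
theorem AK_dec (K n : ℕ) :
    D.AK K n = ∑ o ∈ D.Co n, ∑ mh ∈ Fintype.piFinset fun _ : J ⊕ Fin s => Finset.range (n + 1),
      if (∀ i, LF.clo D.av Finset.univ mh i = mh i) ∧
          ∀ k ∈ D.KX, mh (Sum.inr k) + 1 = min (Mon.nuv D.β D.d o k) (n + 1) then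
        ((LF.al D.av D.XI (LF.ucf D.W (∅ : Finset Γ)ᶜ (D.E * K)) mh : ℤ) : MC) *
          (algebraMap K0 MC (cls (D.cell n o mh)) * ((Lu ^ (-(N * (n + 1) : ℤ)) : MCˣ) : MC))
      else 0 := by
  have h1 : {γ : Fin N × Fin (n + 1) → ℂ | (∀ l, γ (l, 0) = 0) ∧
      ∀ g, D.E * K ≤ pair (D.W g) fun i => LF.vv D.av (yj D.β D.d γ) i + 1} =
      ⋃ o ∈ D.Co n, {γ | γ ∈ Mon.Yset D.Pl o (n + 1) ∧
        LF.UC D.W (∅ : Finset Γ)ᶜ (D.E * K) (LF.vv D.av (yj D.β D.d γ))} := by
    ext γ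
    simp only [Set.mem_ofPred_eq, Set.mem_iUnion, exists_prop, LF.UC, Finset.compl_empty,
      Finset.mem_univ, true_imp_iff]
    constructor
    · rintro ⟨h2, h3⟩
      exact ⟨pf1_ord D γ, pf1_ord_mem D γ h2, pf1_mem_Yset D γ h2, h3⟩
    · rintro ⟨o, h2, h3, h4⟩
      exact ⟨(pf1_ord_eq D h2 γ h3).1, h4⟩
  unfold Dat.AK
  rw [h1, cls_biUnion]
  · rw [map_sum, Finset.sum_mul]
    refine Finset.sum_congr rfl fun o ho => ?_
    rw [pf1_o D ho, map_sum, Finset.sum_mul]
    refine Finset.sum_congr rfl fun mh _ => ?_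
    split_ifs with h2
    · rw [map_mul, map_intCast, mul_assoc]
      rfl
    · rw [map_zero, zero_mul]
  · intro o _
    exact (Mon.constr_Yset D.Pl o).inter
      (pf1_constr D fun v => LF.UC D.W (∅ : Finset Γ)ᶜ (D.E * K) v)
  · intro o ho o' ho' hne
    rw [Set.disjoint_left]
    rintro γ ⟨h2, _⟩ ⟨h3, _⟩
    exact hne ((pf1_ord_eq D ho γ h2).2.symm.trans (pf1_ord_eq D ho' γ h3).2)

end LFM
end MotMono
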