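import Pool.Agent.Lib.MP_4e5fcd_ag.LFM.PE3
import Pool.Agent.Lib.MP_4e5fcd_ag.LFM.PF1

/-!
# LFM-PF2: the points of the polyhedron and the cells

Write `D' = DT W XI P.T`, `x i = b (inl (some i))`, `xh = clo av D' x`.
`ins_VP`: `xh` has the pattern `P` (level `E * b none`). Let `x'` be the vector of `b'`. `x' = x` except at `inr k`, where both values are
`≥ n`; so `min x' n = min x n`, `min (clo D' x') n = min (clo D' x) n` (`min_clo`, `clo_congr`). `ins` (PT; `mh' = clo D' x'`,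
`hcl` by `LF.clo_clo`) gives the pattern `P` for `clo D' x'`. Closedness of `x'` on `D'`: let `i ∈ D'`. If `x' i < n`: then
`x i = x' i` (`i ≠ inr k`), `min (clo D' x' i) n = min (xh i) n = min (x i) n = x i < n`, so `clo D' x' i = x' i`. If `n ≤ x' i`: let
`c > x' i` with `av i ∈ sp {j ∈ D' | c ≤ x' j}`; these `j` have `n ≤ x j = xh j`, so they are in `XI` (`top_mem`), as is `i`
(`n ≤ x i`), and `i` is not one of them, a contradiction to `XI_indep`. `LF.le_clo`: `x' i ≤ clo`. The other conditions of `VP` are clear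
(`k ∈ KX`; `x' (inr k) ≥ 1` is not needed).
`bOf_mem`: `(o, mh)` as in `CellH`. `x = nuv k - 1` at `inr k`, `k ∈ KX`; `mh` on `D' \ XI`; `0` off `D'`. `nuv k ≥ 1`. `min x n = mh` on `D'`
(`hk`). `min (clo D' x) n = clo D' (min x n) = clo D' mh = mh` (`min_clo`, `clo_congr`, `hP.closed`). `ins` gives the pattern of
`clo D' x`. Closedness of `x` on `D'`: `mh i < n`: `clo D' x i = mh i = x i`; `mh i = n`: as in `ins_VP` (`top_mem` for `mh`).
`cellOf`: for `b ∈ VP`, `b none = K`, `b (inr l) ≤ n + 1`: `o l = b (inr l)` (`β l ∈ KX`), `1` otherwise; `mh i = min (xh i) n`: `CellH`: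
`hP`: `ins` (`mh' = min xh n`; `hcl`: `clo D' (min xh n) = min (clo D' xh) n = min xh n`); `hk`: `xh (inr k) = x (inr k)`,
`x (inr k) + 1 = ∑ d b = nuv k`.
`lin_wtm`: on `B₀ \ Fb` and `KX \ Fb` the values `mh` are `< n` (`top_KX`), so `x = mh`; `rho` of the indices of `Fb` is `1`.
-/

open MvPolynomial

namespace MotMono
namespace LFM

variable {J Γ : Type} [Fintype J] [Fintype Γ] {N s : ℕ} {D : Dat J Γ N s}
  {P : LF.Pat (J ⊕ Fin s) Γ} {K n : ℕ} {o : Fin N → ℕ} {mh : J ⊕ Fin s → ℕ}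

private theorem pf2_clos {I : Type} [Fintype I] {a : I → Fin s → ℂ} {w : Γ → I → ℕ}
    {X : Finset I} {K' : ℕ} {xh : I → ℕ} {Q : LF.Pat I Γ} (ha : ∀ i, a i ≠ 0)
    (hX : LinearIndepOn ℂ a (X : Set I)) (hP : LF.IsPat a w ∅ X K' xh Q)
    (hn : K' + LF.Hb w ≤ n) {x' : I → ℕ}
    (hmin : ∀ i ∈ LF.DT w X Q.T, min (x' i) n = min (xh i) n) :
    LF.IsPat a w ∅ X K' (LF.clo a (LF.DT w X Q.T) x') Q ∧
      (∀ i ∈ LF.DT w X Q.T, LF.clo a (LF.DT w X Q.T) x' i = x' i) ∧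
      ∀ i, min (LF.clo a (LF.DT w X Q.T) x' i) n = min (xh i) n := by
  have h1 : ∀ i, min (LF.clo a (LF.DT w X Q.T) x' i) n = min (xh i) n := by
    intro i
    rw [min_clo ha, LF.clo_congr (x' := fun j => min (xh j) n) hmin, ← min_clo ha, hP.closed i]
  refine ⟨ins hX hP hn (fun i => (h1 i).symm) fun i => LF.clo_clo ha (Finset.Subset.refl _) i,
    fun i hi => ?_, h1⟩
  refine le_antisymm ?_ (LF.le_clo (ha i) hi)
  by_contra hlt
  rw [not_le] at hlt
  have h2 := h1 i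
  have h3 := hmin i hi
  have h4 : n ≤ x' i := by omega
  have h5 : n ≤ xh i := by omega
  have hiX := (top_mem hX hP hn hi h5).1
  have h6 := (LF.le_clo_iff (ha i) (lt_of_le_of_lt (Nat.zero_le _) hlt)).1 le_rfl
  have h7 : ({j | j ∈ LF.DT w X Q.T ∧ LF.clo a (LF.DT w X Q.T) x' i ≤ x' j} : Set I) ⊆
      (X : Set I) := by
    rintro j ⟨hj, hj2⟩
    have h8 := hmin j hj
    exact Finset.mem_coe.2 (top_mem hX hP hn hj (by omega)).1
  have h8 := (LF.mem_sp_iff hX (LF.mem_sp_of_mem (Finset.mem_coe.2 hiX)) h7).1 h6 i hiX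
    (fun h9 => absurd h9.2 (not_le.2 hlt))
  rw [LF.cf_self hX hiX] at h8
  exact one_ne_zero h8

private theorem pf2_DT {I Γ : Type} [Fintype I] {w : Γ → I → ℕ} {X : Finset I} {T : Finset Γ}
    {i : I} (h : i ∈ X) : i ∈ LF.DT w X T := by
  classical
  unfold LF.DT
  rw [Finset.mem_filter]
  exact ⟨Finset.mem_univ _, Or.inl h⟩

omit [Fintype Γ] in
private theorem pf2_XI {w : Γ → J ⊕ Fin s → ℕ} {T : Finset Γ} {k : Fin s} (hk : k ∈ D.KX) :
    (Sum.inr k : J ⊕ Fin s) ∈ LF.DT w D.XI T ∧ (Sum.inr k : J ⊕ Fin s) ∈ D.XI := by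
  classical
  have h1 : (Sum.inr k : J ⊕ Fin s) ∈ D.XI := by
    simp only [Dat.XI, Finset.mem_map, Function.Embedding.coeFn_mk]
    exact ⟨k, hk, rfl⟩
  exact ⟨pf2_DT h1, h1⟩

omit [Fintype J] [Fintype Γ] in
private theorem pf2_XI' {i : J ⊕ Fin s} (hi : i ∈ D.XI) : ∃ k ∈ D.KX, i = Sum.inr k := by
  simp only [Dat.XI, Finset.mem_map, Function.Embedding.coeFn_mk] at hi
  obtain ⟨k, hk, rfl⟩ := hi
  exact ⟨k, hk, rfl⟩

theorem ins_VP {b b' : Option (J ⊕ Fin s) ⊕ Fin N → ℕ} (hb : b ∈ D.VP P) {k : Fin s}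
    (hk : k ∈ D.KX) (hn : D.E * b (Sum.inl none) + LF.Hb D.W ≤ n)
    (h0 : b' (Sum.inl none) = b (Sum.inl none))
    (h1 : ∀ i, i ≠ Sum.inr k → b' (Sum.inl (some i)) = b (Sum.inl (some i)))
    (h2 : ∀ l, D.β l ≠ k → b' (Sum.inr l) = b (Sum.inr l))
    (h3 : ∀ l, D.β l = k → 1 ≤ b' (Sum.inr l))
    (h4 : ∑ l ∈ Finset.univ.filter (fun l => D.β l = k), D.d l * b' (Sum.inr l) =
      b' (Sum.inl (some (Sum.inr k))) + 1)
    (h5 : n ≤ b (Sum.inl (some (Sum.inr k)))) (h6 : n ≤ b' (Sum.inl (some (Sum.inr k)))) :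
    b' ∈ D.VP P := by
  obtain ⟨hb1, hb2, hb3, hb4, hb5, hb6, hb7⟩ := hb
  have hkD := (pf2_XI (D := D) (w := D.W) (T := P.T) hk).1
  have hc := pf2_clos (av_ne_zero D) (XI_indep D) hb7 hn
    (x' := fun j => b' (Sum.inl (some j))) (by
      intro i hi
      rw [hb6 i hi]
      by_cases hik : i = Sum.inr k
      · subst hik
        rw [min_eq_right h5, min_eq_right h6]
      · rw [h1 i hik])
  refine ⟨h0 ▸ hb1, ?_, ?_, ?_, ?_, hc.2.1, ?_⟩
  · intro l hl
    rw [h2 l (fun h => hl (h ▸ hk))]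
    exact hb2 l hl
  · intro l hl
    by_cases hlk : D.β l = k
    · exact h3 l hlk
    · rw [h2 l hlk]
      exact hb3 l hl
  · intro k' hk'
    by_cases hkk : k' = k
    · subst hkk
      exact h4
    · rw [h1 (Sum.inr k') (fun h => hkk (Sum.inr_injective h)), ← hb4 k' hk']
      refine Finset.sum_congr rfl fun l hl => ?_
      rw [h2 l (fun h => hkk ((Finset.mem_filter.1 hl).2 ▸ h))]
  · intro i hi
    rw [h1 i (fun h => hi (h ▸ hkD))]
    exact hb5 i hi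
  · rw [h0]
    exact hc.1

open Classical in
/-- the point of the polyhedron of a cell -/
noncomputable def Dat.bOf (D : Dat J Γ N s) (P : LF.Pat (J ⊕ Fin s) Γ) (K : ℕ) (o : Fin N → ℕ)
    (mh : J ⊕ Fin s → ℕ) : Option (J ⊕ Fin s) ⊕ Fin N → ℕ :=
  Sum.elim
    (fun i => i.elim K fun i => if i ∈ LF.DT D.W D.XI P.T then
      (if i ∈ D.XI then Sum.elim (fun _ => 0) (fun k => Mon.nuv D.β D.d o k - 1) i else mh i)
        else 0)
    fun l => if D.β l ∈ D.KX then o l else 0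

open Classical in
/-- the orders of a point of the polyhedron -/
noncomputable def Dat.oOf (D : Dat J Γ N s) (b : Option (J ⊕ Fin s) ⊕ Fin N → ℕ) :
    Fin N → ℕ := fun l => if D.β l ∈ D.KX then b (Sum.inr l) else 1

/-- the closed vector of a point of the polyhedron -/
noncomputable def Dat.mOf (D : Dat J Γ N s) (P : LF.Pat (J ⊕ Fin s) Γ) (n : ℕ)
    (b : Option (J ⊕ Fin s) ⊕ Fin N → ℕ) : J ⊕ Fin s → ℕ :=
  fun i => min (LF.clo D.av (LF.DT D.W D.XI P.T) (fun j => b (Sum.inl (some j))) i) n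

omit [Fintype Γ] in
private theorem pf2_b1 {k : Fin s} (hk : k ∈ D.KX) :
    D.bOf P K o mh (Sum.inl (some (Sum.inr k))) = Mon.nuv D.β D.d o k - 1 := by
  classical
  obtain ⟨h1, h2⟩ := pf2_XI (D := D) (w := D.W) (T := P.T) hk
  unfold Dat.bOf
  simp only [Sum.elim_inl, Option.elim_some]
  rw [if_pos h1, if_pos h2]
  rfl

omit [Fintype Γ] in
private theorem pf2_b2 {i : J ⊕ Fin s} (hi : i ∈ LF.DT D.W D.XI P.T) (hi' : i ∉ D.XI) :
    D.bOf P K o mh (Sum.inl (some i)) = mh i := by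
  unfold Dat.bOf
  simp only [Sum.elim_inl, Option.elim_some]
  rw [if_pos hi, if_neg hi']

omit [Fintype Γ] in
private theorem pf2_b3 {i : J ⊕ Fin s} (hi : i ∉ LF.DT D.W D.XI P.T) :
    D.bOf P K o mh (Sum.inl (some i)) = 0 := by
  unfold Dat.bOf
  simp only [Sum.elim_inl, Option.elim_some]
  rw [if_neg hi]

omit [Fintype Γ] in
private theorem pf2_b4 {l : Fin N} (hl : D.β l ∈ D.KX) :
    D.bOf P K o mh (Sum.inr l) = o l := by
  unfold Dat.bOf
  simp only [Sum.elim_inr]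
  rw [if_pos hl]

omit [Fintype Γ] in
private theorem pf2_b5 {l : Fin N} (hl : D.β l ∉ D.KX) :
    D.bOf P K o mh (Sum.inr l) = 0 := by
  unfold Dat.bOf
  simp only [Sum.elim_inr]
  rw [if_neg hl]

omit [Fintype Γ] in
private theorem pf2_b0 : D.bOf P K o mh (Sum.inl none) = K := rfl

omit [Fintype J] [Fintype Γ] in
private theorem pf2_nuv {o : Fin N → ℕ} (ho : ∀ l, 1 ≤ o l) (k : Fin s) :
    1 ≤ Mon.nuv D.β D.d o k := by
  obtain ⟨l, rfl⟩ := D.hβ k
  have h2 : D.d l * o l ≤ Mon.nuv D.β D.d o (D.β l) := by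
    unfold Mon.nuv
    exact Finset.single_le_sum (f := fun l => D.d l * o l) (fun _ _ => Nat.zero_le _)
      (Finset.mem_filter.2 ⟨Finset.mem_univ l, rfl⟩)
  exact le_trans (Nat.mul_pos (D.hd l) (ho l)) h2

private theorem pf2_min (h : D.CellH P K n o mh) (i : J ⊕ Fin s)
    (hi : i ∈ LF.DT D.W D.XI P.T) :
    min (D.bOf P K o mh (Sum.inl (some i))) n = mh i := by
  by_cases hX : i ∈ D.XI
  · obtain ⟨k, hk, rfl⟩ := pf2_XI' hX
    rw [pf2_b1 hk]
    have h1 := h.hk k hk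
    have h2 := pf2_nuv (D := D) h.ho1 k
    omega
  · rw [pf2_b2 hi hX]
    exact min_eq_left (h.hmh i)

theorem bOf_mem (hK : 1 ≤ K) (h : D.CellH P K n o mh) :
    D.bOf P K o mh ∈ D.VP P ∧ D.bOf P K o mh (Sum.inl none) = K ∧
      (∀ l, D.bOf P K o mh (Sum.inr l) ≤ n + 1) ∧ D.oOf (D.bOf P K o mh) = o ∧
      D.mOf P n (D.bOf P K o mh) = mh := by
  classical
  have hc := pf2_clos (av_ne_zero D) (XI_indep D) h.hP h.hn
    (x' := fun j => D.bOf P K o mh (Sum.inl (some j))) (by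
      intro i hi
      rw [pf2_min h i hi, min_eq_left (h.hmh i)])
  refine ⟨⟨hK, ?_, ?_, ?_, ?_, hc.2.1, hc.1⟩, rfl, ?_, ?_, ?_⟩
  · intro l hl
    exact pf2_b5 hl
  · intro l hl
    rw [pf2_b4 hl]
    exact h.ho1 l
  · intro k hk
    rw [pf2_b1 hk, Nat.sub_add_cancel (pf2_nuv (D := D) h.ho1 k)]
    unfold Mon.nuv
    refine Finset.sum_congr rfl fun l hl => ?_
    rw [pf2_b4 ((Finset.mem_filter.1 hl).2 ▸ hk)]
  · intro i hi
    exact pf2_b3 hi
  · intro l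
    by_cases hl : D.β l ∈ D.KX
    · rw [pf2_b4 hl]
      exact h.ho2 l
    · rw [pf2_b5 hl]
      exact Nat.zero_le _
  · funext l
    unfold Dat.oOf
    by_cases hl : D.β l ∈ D.KX
    · rw [if_pos hl, pf2_b4 hl]
    · rw [if_neg hl]
      refine (h.hPl l ?_).symm
      simp only [Dat.Pl, Finset.mem_filter, Finset.mem_univ, true_and]
      exact hl
  · funext i
    unfold Dat.mOf
    rw [hc.2.2 i]
    exact min_eq_left (h.hmh i)

theorem cellOf {b : Option (J ⊕ Fin s) ⊕ Fin N → ℕ} (hb : b ∈ D.VP P) (h0 : b (Sum.inl none) = K)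
    (hn : D.E * K + LF.Hb D.W ≤ n) (hl : ∀ l, b (Sum.inr l) ≤ n + 1) :
    D.CellH P K n (D.oOf b) (D.mOf P n b) ∧ D.bOf P K (D.oOf b) (D.mOf P n b) = b := by
  classical
  obtain ⟨hb1, hb2, hb3, hb4, hb5, hb6, hb7⟩ := hb
  rw [h0] at hb7
  have ho : ∀ l, D.β l ∈ D.KX → D.oOf b l = b (Sum.inr l) := by
    intro l hl
    unfold Dat.oOf
    rw [if_pos hl]
  have ho' : ∀ l, D.β l ∉ D.KX → D.oOf b l = 1 := by
    intro l hl
    unfold Dat.oOf
    rw [if_neg hl]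
  have hnu : ∀ k ∈ D.KX, Mon.nuv D.β D.d (D.oOf b) k = b (Sum.inl (some (Sum.inr k))) + 1 := by
    intro k hk
    rw [← hb4 k hk]
    unfold Mon.nuv
    refine Finset.sum_congr rfl fun l hl => ?_
    rw [ho l ((Finset.mem_filter.1 hl).2 ▸ hk)]
  have hcell : D.CellH P K n (D.oOf b) (D.mOf P n b) := by
    refine ⟨?_, hn, fun i => min_le_right _ _, ?_, ?_, ?_, ?_⟩
    · refine ins (XI_indep D) hb7 hn (fun i => ?_) fun i => ?_
      · unfold Dat.mOf
        rw [min_assoc, min_self]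
      · unfold Dat.mOf
        rw [← min_clo (av_ne_zero D), LF.clo_clo (av_ne_zero D) (Finset.Subset.refl _)]
    · intro l
      by_cases hl : D.β l ∈ D.KX
      · rw [ho l hl]
        exact hb3 l hl
      · rw [ho' l hl]
    · intro l
      by_cases hl' : D.β l ∈ D.KX
      · rw [ho l hl']
        exact hl l
      · rw [ho' l hl']
        omega
    · intro l hl
      simp only [Dat.Pl, Finset.mem_filter, Finset.mem_univ, true_and] at hl
      exact ho' l hl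
    · intro k hk
      rw [hnu k hk]
      unfold Dat.mOf
      rw [hb6 _ (pf2_XI hk).1]
      omega
  refine ⟨hcell, funext fun q => ?_⟩
  rcases q with (_ | i) | l
  · rw [pf2_b0, h0]
  · by_cases hi : i ∈ LF.DT D.W D.XI P.T
    · by_cases hX : i ∈ D.XI
      · obtain ⟨k, hk, rfl⟩ := pf2_XI' hX
        rw [pf2_b1 hk, hnu k hk, Nat.add_sub_cancel]
      · rw [pf2_b2 hi hX]
        unfold Dat.mOf
        rw [hb6 i hi]
        refine min_eq_left ?_
        by_contra hlt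
        rw [not_le] at hlt
        have h1 : n ≤ LF.clo D.av (LF.DT D.W D.XI P.T) (fun j => b (Sum.inl (some j))) i := by
          rw [hb6 i hi]
          exact hlt.le
        exact hX (top_mem (XI_indep D) hb7 hn hi h1).1
    · rw [pf2_b3 hi, hb5 i hi]
  · by_cases hl : D.β l ∈ D.KX
    · rw [pf2_b4 hl, ho l hl]
    · rw [pf2_b5 hl, hb2 l hl]

private theorem pf2_val (h : D.CellH P K n o mh) {i : J ⊕ Fin s}
    (hi : i ∈ LF.DT D.W D.XI P.T) (hF : ∀ k ∈ D.Fb P.BB, i ≠ Sum.inr k) :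
    D.bOf P K o mh (Sum.inl (some i)) = mh i := by
  have h1 := pf2_min h i hi
  have h2 : mh i ≠ n := by
    intro h3
    obtain ⟨k, hk, hik⟩ := top_KX h hi h3
    exact hF k hk hik
  have h3 := h.hmh i
  omega

theorem lin_wtm (h : D.CellH P K n o mh) {B₀ : Finset (J ⊕ Fin s)} (hB₀ : B₀ ∈ P.BB) :
    ((Lu ^ (-D.lin P.BB B₀ o mh) : MCˣ) : MC) = wtm (D.rho P.BB B₀) (D.bOf P K o mh) := by
  classical
  have hu : (Lu ^ (-D.lin P.BB B₀ o mh) : MCˣ) =
      (∏ b ∈ B₀ \ (D.Fb P.BB).map ⟨Sum.inr, Sum.inr_injective⟩, (Lu⁻¹ : MCˣ) ^ mh b) *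
        (∏ k ∈ D.KX \ D.Fb P.BB, Lu ^ mh (Sum.inr k)) *
        ∏ l ∈ Finset.univ.filter (fun l => D.β l ∈ D.KX), (Lu⁻¹ : MCˣ) ^ o l := by
    unfold Dat.lin
    rw [Finset.prod_pow_eq_pow_sum, Finset.prod_pow_eq_pow_sum, Finset.prod_pow_eq_pow_sum,
      inv_pow, inv_pow, ← zpow_natCast, ← zpow_natCast, ← zpow_natCast, ← zpow_neg, ← zpow_neg,
      ← zpow_add, ← zpow_add]
    congr 1
    push_cast
    ring
  have hBD : ∀ b ∈ B₀, b ∈ LF.DT D.W D.XI P.T := fun b hb => ((h.hP.BB B₀).1 hB₀).1.1 hb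
  rw [hu]
  unfold wtm
  rw [Fintype.prod_sum_type, Fintype.prod_option]
  have e0 : D.rho P.BB B₀ (Sum.inl none) = 1 := rfl
  rw [e0, one_pow, one_mul]
  have e1 : ∀ i, D.rho P.BB B₀ (Sum.inl (some i)) ^ D.bOf P K o mh (Sum.inl (some i)) =
      (if i ∈ B₀ \ (D.Fb P.BB).map ⟨Sum.inr, Sum.inr_injective⟩ then
        ((Lu⁻¹ : MCˣ) : MC) ^ mh i else 1) *
      (if i ∈ (D.KX \ D.Fb P.BB).map ⟨Sum.inr, Sum.inr_injective⟩ then
        ((Lu : MCˣ) : MC) ^ mh i else 1) := by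
    intro i
    unfold Dat.rho
    simp only [Sum.elim_inl, Option.elim_some]
    rw [mul_pow]
    congr 1
    · by_cases hi : i ∈ B₀ ∧ i ∉ (D.Fb P.BB).map ⟨Sum.inr, Sum.inr_injective⟩
      · rw [if_pos hi, if_pos (Finset.mem_sdiff.2 hi), pf2_val h (hBD i hi.1)]
        intro k hk hik
        exact hi.2 (Finset.mem_map.2 ⟨k, hk, hik.symm⟩)
      · rw [if_neg hi, if_neg (fun h' => hi (Finset.mem_sdiff.1 h')), one_pow]
    · by_cases hi : i ∈ (D.KX \ D.Fb P.BB).map ⟨Sum.inr, Sum.inr_injective⟩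
      · rw [if_pos hi, if_pos hi]
        obtain ⟨k, hk, rfl⟩ := Finset.mem_map.1 hi
        rw [Finset.mem_sdiff] at hk
        simp only [Function.Embedding.coeFn_mk]
        rw [pf2_val h (pf2_XI hk.1).1]
        intro k' hk' hkk
        exact hk.2 ((Sum.inr_injective hkk) ▸ hk')
      · rw [if_neg hi, if_neg hi, one_pow]
  have e2 : ∀ l, D.rho P.BB B₀ (Sum.inr l) ^ D.bOf P K o mh (Sum.inr l) =
      if D.β l ∈ D.KX then ((Lu⁻¹ : MCˣ) : MC) ^ o l else 1 := by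
    intro l
    by_cases hl : D.β l ∈ D.KX
    · rw [if_pos hl, pf2_b4 hl]
      unfold Dat.rho
      simp only [Sum.elim_inr]
      rw [if_pos hl]
    · rw [if_neg hl, pf2_b5 hl, pow_zero]
  rw [Finset.prod_congr rfl fun i _ => e1 i, Finset.prod_congr rfl fun l _ => e2 l,
    Finset.prod_mul_distrib, Finset.prod_ite_mem, Finset.prod_ite_mem, Finset.univ_inter,
    Finset.univ_inter, Finset.prod_map, ← Finset.prod_filter, Units.val_mul, Units.val_mul,
    Units.coe_prod, Units.coe_prod, Units.coe_prod]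
  simp only [Units.val_pow_eq_pow_val, Function.Embedding.coeFn_mk]

end LFM
end MotMono
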