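import Pool.Agent.Lib.MP_4e5fcd_ag.LFM.PF2
import Pool.Agent.Lib.MP_4e5fcd_ag.LFM.GF1

/-!
# LFM-PF3: the sums over the cells of a pattern as alternating sums

`V = VP P`, `Fr = Fv P.BB`, `f_Z = ∑_{l ∈ Z} fl l`, `q = Lu⁻¹`. `wtm rho (fl l) = q` for `l ∈ Fr` (`rho` is `1` at `some (inr k)`, `k ∈ Fb`),
so `wtm rho (b + f_Z) = wtm rho b * q ^ |Z|` (`wtm_add`). `(b + f_Z) (inl none) = b (inl none)`, `(b + f_Z) (inr l) = b (inr l) + [l ∈ Z]`.
`mu_zero`: let `b (inr l) ≥ n + 2`, and let `b = b' + f_Z` with `b' ∈ V` for some `Z ⊆ Fr` (otherwise all terms are `0`). Then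
`b' (inr l) ≥ n + 1`, so `β l = k ∈ KX` and `x' (inr k) + 1 = ∑ d b' ≥ n + 1`, so `clo .. (inr k) = x' (inr k) ≥ n`, and `k ∈ Fb`
by `top_mem` (all `B ∈ BB` contain `inr k`): `l ∈ Fr`. For every `Z ⊆ Fr` with `l ∉ Z`: `∃ b' ∈ V, b = b' + f_Z` iff
`∃ b'' ∈ V, b = b'' + f_(Z ∪ {l})`: `b' = b'' + fl l`; both have `b'' (inr l) ≥ n + 1` so `x (inr k) ≥ n` in both, `ins_VP` in both
directions (for `←` of the second: `b'' = b' - fl l` exists because `b' (inr l) ≥ n + 2`, `x' (inr k) + 1 ≥ d l (n + 2)`). So the terms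
of `Z` and `Z ∪ {l}` cancel (`Finset.sum_involution` or split the powerset).
`tel`: expand `∏_{l ∈ Fr} (1 - [o l ≤ n] q) = ∑_{Z ⊆ Fr} (-1) ^ |Z| q ^ |Z| [o l ≤ n for l ∈ Z]` (`Finset.prod_sub`/`prod_one_sub`).
By `bOf_mem`, `cellOf`, `lin_wtm` the pairs `(o, mh)` with `CellH` correspond to the `b ∈ V` with `b none = K`, `b (inr l) ≤ n + 1` for
all `l`, and the sum becomes `∑_b ∑_{Z, b (inr l) ≤ n (l ∈ Z)} (-1) ^ |Z| wtm rho (b + f_Z)`. Substitute `b₂ = b + f_Z`: the pairs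
`(b, Z)` correspond to the pairs `(b₂, Z)` with `b₂ = b + f_Z`, `b ∈ V`, `b₂ (inr l) ≤ n + 1` for all `l`. So the sum is
`∑_{b₂ none = K, b₂ (inr l) ≤ n + 1} muV b₂ wtm rho b₂`, and by `mu_zero` the other `b₂` do not contribute. Finiteness of the set of
the `b₂` with `muV ≠ 0`, `b₂ none = K`: they are of the form `b + f_Z` with `b` in the finite set of the `bOf`.
-/

open MvPolynomial

namespace MotMono
namespace LFM

variable {J Γ : Type} [Fintype J] [Fintype Γ] {N s : ℕ} {D : Dat J Γ N s}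
  {P : LF.Pat (J ⊕ Fin s) Γ} {K n : ℕ}

omit [Fintype J] [Fintype Γ] in
private theorem pf3_Fv {BB : Finset (Finset (J ⊕ Fin s))} {l : Fin N} :
    l ∈ D.Fv BB ↔ D.β l ∈ D.KX ∧ ∀ B ∈ BB, (Sum.inr (D.β l) : J ⊕ Fin s) ∈ B := by
  classical
  simp only [Dat.Fv, Dat.Fb, Finset.mem_filter, Finset.mem_univ, true_and]

omit [Fintype Γ] in
theorem wtm_fl {BB : Finset (Finset (J ⊕ Fin s))} {B₀ : Finset (J ⊕ Fin s)} {l : Fin N}
    (hl : l ∈ D.Fv BB) : wtm (D.rho BB B₀) (D.fl l) = ((Lu⁻¹ : MCˣ) : MC) := by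
  classical
  have hb : D.β l ∈ D.Fb BB := by
    simpa only [Dat.Fv, Finset.mem_filter, Finset.mem_univ, true_and] using hl
  have hK : D.β l ∈ D.KX := by
    simp only [Dat.Fb, Finset.mem_filter] at hb
    exact hb.1
  unfold wtm
  rw [Fintype.prod_sum_type]
  have h1 : ∀ o : Option (J ⊕ Fin s), D.rho BB B₀ (Sum.inl o) ^ D.fl l (Sum.inl o) = 1 := by
    intro o
    unfold Dat.fl
    simp only [Sum.elim_inl]
    by_cases ho : o = some (Sum.inr (D.β l))
    · subst ho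
      have h2 : D.rho BB B₀ (Sum.inl (some (Sum.inr (D.β l)))) = 1 := by
        unfold Dat.rho
        simp only [Sum.elim_inl, Option.elim_some]
        rw [if_neg, if_neg, one_mul]
        · intro h
          obtain ⟨k, hk, hkk⟩ := Finset.mem_map.1 h
          have h3 : k = D.β l := Sum.inr_injective hkk
          rw [h3] at hk
          exact (Finset.mem_sdiff.1 hk).2 hb
        · rintro ⟨_, h⟩
          exact h (Finset.mem_map.2 ⟨D.β l, hb, rfl⟩)
      rw [h2, one_pow]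
    · rw [if_neg ho, pow_zero]
  rw [Finset.prod_eq_one fun o _ => h1 o, one_mul, Finset.prod_eq_single l]
  · unfold Dat.fl Dat.rho
    simp only [Sum.elim_inr]
    rw [if_pos hK]
    simp
  · intro l' _ hl'
    unfold Dat.fl
    simp only [Sum.elim_inr]
    rw [if_neg hl', pow_zero]
  · intro h
    exact absurd (Finset.mem_univ l) h

omit [Fintype J] [Fintype Γ] in
private theorem pf3_none (Z : Finset (Fin N)) : (∑ l ∈ Z, D.fl l) (Sum.inl none) = 0 := by
  rw [Finset.sum_apply]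
  refine Finset.sum_eq_zero fun l _ => ?_
  unfold Dat.fl
  simp

omit [Fintype J] [Fintype Γ] in
open Classical in
private theorem pf3_inr (Z : Finset (Fin N)) (l : Fin N) :
    (∑ l ∈ Z, D.fl l) (Sum.inr l) = if l ∈ Z then 1 else 0 := by
  rw [Finset.sum_apply]
  unfold Dat.fl
  simp only [Sum.elim_inr]
  rw [Finset.sum_ite_eq]

omit [Fintype Γ] in
private theorem pf3_wtm {BB : Finset (Finset (J ⊕ Fin s))} {B₀ : Finset (J ⊕ Fin s)}
    {Z : Finset (Fin N)} (hZ : Z ⊆ D.Fv BB) (b : Option (J ⊕ Fin s) ⊕ Fin N → ℕ) :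
    wtm (D.rho BB B₀) (b + ∑ l ∈ Z, D.fl l) =
      wtm (D.rho BB B₀) b * ((Lu⁻¹ : MCˣ) : MC) ^ Z.card := by
  classical
  induction Z using Finset.induction_on with
  | empty => simp
  | insert l Z hl ih =>
    rw [Finset.sum_insert hl, add_comm (D.fl l), ← add_assoc, wtm_add,
      ih fun x hx => hZ (Finset.mem_insert_of_mem hx), wtm_fl (hZ (Finset.mem_insert_self l Z)),
      Finset.card_insert_of_notMem hl, pow_succ, mul_assoc]

/-- large exponents of points of the polyhedron -/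
private theorem pf3_large {b : Option (J ⊕ Fin s) ⊕ Fin N → ℕ} (hb : b ∈ D.VP P)
    {l : Fin N} {m : ℕ} (hl : m + 1 ≤ b (Sum.inr l)) :
    D.β l ∈ D.KX ∧ m + 1 + (b (Sum.inr l) - (m + 1)) * D.d l ≤
      b (Sum.inl (some (Sum.inr (D.β l)))) + 1 ∧
      D.d l * b (Sum.inr l) ≤ b (Sum.inl (some (Sum.inr (D.β l)))) + 1 := by
  obtain ⟨hb1, hb2, hb3, hb4, hb5, hb6, hb7⟩ := hb
  have hk : D.β l ∈ D.KX := by
    by_contra h
    have := hb2 l h
    omega
  have h1 := hb4 _ hk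
  have h2 : D.d l * b (Sum.inr l) ≤
      ∑ l' ∈ Finset.univ.filter (fun l' => D.β l' = D.β l), D.d l' * b (Sum.inr l') :=
    Finset.single_le_sum (f := fun l' => D.d l' * b (Sum.inr l')) (fun _ _ => Nat.zero_le _)
      (Finset.mem_filter.2 ⟨Finset.mem_univ l, rfl⟩)
  have h3 := D.hd l
  obtain ⟨r, hr⟩ := Nat.exists_eq_add_of_le hl
  have h4 : m + 1 ≤ D.d l * (m + 1) := Nat.le_mul_of_pos_left _ h3
  refine ⟨hk, ?_, ?_⟩
  · rw [← h1]
    refine le_trans ?_ h2
    rw [hr]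
    have h5 : m + 1 + r - (m + 1) = r := by omega
    rw [h5, mul_add, mul_comm r]
    omega
  · rw [← h1]
    exact h2

private theorem pf3_Fr {b : Option (J ⊕ Fin s) ⊕ Fin N → ℕ} (hb : b ∈ D.VP P)
    (hn : D.E * b (Sum.inl none) + LF.Hb D.W ≤ n) {l : Fin N} (hl : n + 1 ≤ b (Sum.inr l)) :
    l ∈ D.Fv P.BB := by
  obtain ⟨hk, h1, _⟩ := pf3_large hb hl
  obtain ⟨hb1, hb2, hb3, hb4, hb5, hb6, hb7⟩ := hb
  have h2 : (Sum.inr (D.β l) : J ⊕ Fin s) ∈ D.XI := by
    simp only [Dat.XI, Finset.mem_map, Function.Embedding.coeFn_mk]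
    exact ⟨_, hk, rfl⟩
  have h3 : (Sum.inr (D.β l) : J ⊕ Fin s) ∈ LF.DT D.W D.XI P.T := by
    classical
    simp only [LF.DT, Finset.mem_filter, Finset.mem_univ, true_and]
    exact Or.inl h2
  have h4 : n ≤ LF.clo D.av (LF.DT D.W D.XI P.T) (fun j => b (Sum.inl (some j)))
      (Sum.inr (D.β l)) := by
    rw [hb6 _ h3]
    omega
  exact pf3_Fv.2 ⟨hk, (top_mem (XI_indep D) hb7 hn h3 h4).2.2⟩

private theorem pf3_up {b : Option (J ⊕ Fin s) ⊕ Fin N → ℕ} (hb : b ∈ D.VP P)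
    (hn : D.E * b (Sum.inl none) + LF.Hb D.W ≤ n) {l : Fin N} (hl : n + 1 ≤ b (Sum.inr l)) :
    b + D.fl l ∈ D.VP P := by
  classical
  obtain ⟨hk, h1, _⟩ := pf3_large hb hl
  have hb' := hb
  obtain ⟨hb1, hb2, hb3, hb4, hb5, hb6, hb7⟩ := hb'
  have hfl : ∀ l', (b + D.fl l) (Sum.inr l') = b (Sum.inr l') + if l' = l then 1 else 0 :=
    fun l' => rfl
  have hfs : ∀ i, (b + D.fl l) (Sum.inl (some i)) =
      b (Sum.inl (some i)) + if some i = some (Sum.inr (D.β l)) then D.d l else 0 := fun i => rfl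
  refine ins_VP hb hk hn rfl ?_ ?_ ?_ ?_ (by omega) ?_
  · intro i hi
    rw [hfs, if_neg (fun h => hi (Option.some_injective _ h)), add_zero]
  · intro l' hl'
    rw [hfl, if_neg (fun h => hl' (by rw [h])), add_zero]
  · intro l' hl'
    rw [hfl]
    have := hb3 l' (hl' ▸ hk)
    omega
  · rw [hfs, if_pos rfl]
    have h2 := hb4 _ hk
    have h3 : ∑ l' ∈ Finset.univ.filter (fun l' => D.β l' = D.β l),
        D.d l' * (b + D.fl l) (Sum.inr l') =
        ∑ l' ∈ Finset.univ.filter (fun l' => D.β l' = D.β l), D.d l' * b (Sum.inr l') + D.d l := by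
      have h4 : ∀ l', D.d l' * (b + D.fl l) (Sum.inr l') =
          D.d l' * b (Sum.inr l') + if l' = l then D.d l else 0 := by
        intro l'
        rw [hfl, mul_add]
        congr 1
        by_cases h : l' = l
        · rw [if_pos h, if_pos h, h, mul_one]
        · rw [if_neg h, if_neg h, mul_zero]
      have hlm : l ∈ Finset.univ.filter (fun l' => D.β l' = D.β l) := by simp
      rw [Finset.sum_congr rfl fun l' _ => h4 l', Finset.sum_add_distrib, Finset.sum_ite_eq',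
        if_pos hlm]
    rw [h3, h2]
    omega
  · rw [hfs, if_pos rfl]
    omega

private theorem pf3_down {b b'' : Option (J ⊕ Fin s) ⊕ Fin N → ℕ} (hb : b ∈ D.VP P)
    (hn : D.E * b (Sum.inl none) + LF.Hb D.W ≤ n) {l : Fin N} (hl : n + 2 ≤ b (Sum.inr l))
    (hb'' : b = b'' + D.fl l) : b'' ∈ D.VP P := by
  classical
  obtain ⟨hk, h1, h1'⟩ := pf3_large (m := n) hb (l := l) (by omega)
  have hb' := hb
  obtain ⟨hb1, hb2, hb3, hb4, hb5, hb6, hb7⟩ := hb'
  have hfl : ∀ l', b (Sum.inr l') = b'' (Sum.inr l') + if l' = l then 1 else 0 :=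
    fun l' => congrFun hb'' (Sum.inr l')
  have hfs : ∀ i, b (Sum.inl (some i)) =
      b'' (Sum.inl (some i)) + if some i = some (Sum.inr (D.β l)) then D.d l else 0 :=
    fun i => congrFun hb'' (Sum.inl (some i))
  have hfk := hfs (Sum.inr (D.β l))
  rw [if_pos rfl] at hfk
  have hfl1 := hfl l
  rw [if_pos rfl] at hfl1
  have hd : D.d l ≤ (b (Sum.inr l) - (n + 1)) * D.d l := Nat.le_mul_of_pos_left _ (by omega)
  refine ins_VP hb hk hn ?_ ?_ ?_ ?_ ?_ (by omega) (by omega)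
  · exact (congrFun hb'' (Sum.inl none)).symm
  · intro i hi
    rw [hfs, if_neg (fun h => hi (Option.some_injective _ h)), add_zero]
  · intro l' hl'
    rw [hfl, if_neg (fun h => hl' (by rw [h])), add_zero]
  · intro l' hl'
    by_cases h : l' = l
    · subst h
      omega
    · have h2 := hfl l'
      rw [if_neg h, add_zero] at h2
      rw [← h2]
      exact hb3 l' (hl' ▸ hk)
  · have h2 := hb4 _ hk
    have h3 : ∑ l' ∈ Finset.univ.filter (fun l' => D.β l' = D.β l), D.d l' * b (Sum.inr l') =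
        ∑ l' ∈ Finset.univ.filter (fun l' => D.β l' = D.β l), D.d l' * b'' (Sum.inr l') +
          D.d l := by
      have h4 : ∀ l', D.d l' * b (Sum.inr l') =
          D.d l' * b'' (Sum.inr l') + if l' = l then D.d l else 0 := by
        intro l'
        rw [hfl, mul_add]
        congr 1
        by_cases h : l' = l
        · rw [if_pos h, if_pos h, h, mul_one]
        · rw [if_neg h, if_neg h, mul_zero]
      have hlm : l ∈ Finset.univ.filter (fun l' => D.β l' = D.β l) := by simp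
      rw [Finset.sum_congr rfl fun l' _ => h4 l', Finset.sum_add_distrib, Finset.sum_ite_eq',
        if_pos hlm]
    rw [h3] at h2
    omega

theorem mu_zero {b : Option (J ⊕ Fin s) ⊕ Fin N → ℕ}
    (hn : D.E * b (Sum.inl none) + LF.Hb D.W ≤ n) {l : Fin N} (hl : n + 2 ≤ b (Sum.inr l)) :
    muV (D.VP P) (D.Fv P.BB) D.fl b = 0 := by
  classical
  have hnone : ∀ (b' : Option (J ⊕ Fin s) ⊕ Fin N → ℕ) (Z : Finset (Fin N)),
      b = b' + ∑ l ∈ Z, D.fl l → b' (Sum.inl none) = b (Sum.inl none) := by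
    intro b' Z h
    rw [h, Pi.add_apply, pf3_none, add_zero]
  have hinr : ∀ (b' : Option (J ⊕ Fin s) ⊕ Fin N → ℕ) (Z : Finset (Fin N)),
      b = b' + ∑ l ∈ Z, D.fl l → b (Sum.inr l) = b' (Sum.inr l) + if l ∈ Z then 1 else 0 := by
    intro b' Z h
    rw [h, Pi.add_apply, pf3_inr]
  by_cases hF : l ∈ D.Fv P.BB
  · unfold muV
    rw [← Finset.insert_erase hF, Finset.sum_powerset_insert (Finset.notMem_erase l _),
      ← Finset.sum_add_distrib]
    refine Finset.sum_eq_zero fun Z hZ => ?_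
    have hlZ : l ∉ Z := fun h => Finset.notMem_erase l _ (Finset.mem_powerset.1 hZ h)
    have key : (∃ b' ∈ D.VP P, b = b' + ∑ l ∈ Z, D.fl l) ↔
        ∃ b' ∈ D.VP P, b = b' + ∑ l ∈ insert l Z, D.fl l := by
      constructor
      · rintro ⟨b', hb', h⟩
        have h1 := hinr b' Z h
        rw [if_neg hlZ, add_zero] at h1
        have h2 := hnone b' Z h
        obtain ⟨hk, h3, h3'⟩ := pf3_large (m := n) hb' (l := l) (by omega)
        have hd : D.d l ≤ (b' (Sum.inr l) - (n + 1)) * D.d l :=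
          Nat.le_mul_of_pos_left _ (by omega)
        have h4 : b' = (b' - D.fl l) + D.fl l := by
          funext q
          have h5 : D.fl l q ≤ b' q := by
            rcases q with o | l'
            · show (if o = some (Sum.inr (D.β l)) then D.d l else 0) ≤ _
              by_cases ho : o = some (Sum.inr (D.β l))
              · rw [if_pos ho, ho]
                omega
              · rw [if_neg ho]
                exact Nat.zero_le _
            · show (if l' = l then 1 else 0) ≤ _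
              by_cases ho : l' = l
              · rw [if_pos ho, ho]
                omega
              · rw [if_neg ho]
                exact Nat.zero_le _
          rw [Pi.add_apply, Pi.sub_apply, Nat.sub_add_cancel h5]
        refine ⟨b' - D.fl l, pf3_down (n := n) hb' (by rw [h2]; exact hn) (by omega) h4, ?_⟩
        rw [Finset.sum_insert hlZ, ← add_assoc, ← h4]
        exact h
      · rintro ⟨b', hb', h⟩
        have h1 := hinr b' _ h
        rw [if_pos (Finset.mem_insert_self l Z)] at h1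
        have h2 := hnone b' _ h
        refine ⟨b' + D.fl l, pf3_up (n := n) hb' (by rw [h2]; exact hn) (by omega), ?_⟩
        rw [Finset.sum_insert hlZ, ← add_assoc] at h
        exact h
    rw [Finset.card_insert_of_notMem hlZ, pow_succ]
    by_cases h : ∃ b' ∈ D.VP P, b = b' + ∑ l ∈ Z, D.fl l
    · rw [if_pos h, if_pos (key.1 h)]
      ring
    · rw [if_neg h, if_neg (fun h' => h (key.2 h'))]
      ring
  · unfold muV
    refine Finset.sum_eq_zero fun Z hZ => ?_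
    rw [if_neg, mul_zero]
    rintro ⟨b', hb', h⟩
    have hlZ : l ∉ Z := fun h' => hF (Finset.mem_powerset.1 hZ h')
    have h1 := hinr b' Z h
    rw [if_neg hlZ, add_zero] at h1
    have h2 := hnone b' Z h
    exact hF (pf3_Fr (n := n) hb' (by rw [h2]; exact hn) (by omega))

open Classical in
theorem tel (hK : 1 ≤ K) (hn : D.E * K + LF.Hb D.W ≤ n) {B₀ : Finset (J ⊕ Fin s)}
    (hB₀ : B₀ ∈ P.BB) :
    (∑ o ∈ D.Co n, ∑ mh ∈ Fintype.piFinset fun _ : J ⊕ Fin s => Finset.range (n + 1),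
      if D.CellH P K n o mh then ((Lu ^ (-D.lin P.BB B₀ o mh) : MCˣ) : MC) *
        ∏ l ∈ D.Fv P.BB, (if o l ≤ n then 1 - ((Lu⁻¹ : MCˣ) : MC) else 1)
      else 0) =
    ∑ᶠ (b : Option (J ⊕ Fin s) ⊕ Fin N → ℕ) (_ : b (Sum.inl none) = K),
      ((muV (D.VP P) (D.Fv P.BB) D.fl b : ℤ) : MC) * wtm (D.rho P.BB B₀) b := by
  set R := Fintype.piFinset fun _ : J ⊕ Fin s => Finset.range (n + 1) with hR
  set q : MC := ((Lu⁻¹ : MCˣ) : MC) with hq
  set Fr := D.Fv P.BB with hFr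
  set C : Finset ((Fin N → ℕ) × (J ⊕ Fin s → ℕ)) :=
    (D.Co n ×ˢ R).filter fun p => D.CellH P K n p.1 p.2 with hC
  set T : Finset (Option (J ⊕ Fin s) ⊕ Fin N → ℕ) := C.image fun p => D.bOf P K p.1 p.2 with hT
  have hCmem : ∀ o mh, (o, mh) ∈ C ↔ D.CellH P K n o mh := by
    intro o mh
    rw [hC, Finset.mem_filter, Finset.mem_product]
    refine ⟨fun h => h.2, fun h => ⟨⟨?_, ?_⟩, h⟩⟩
    · unfold Dat.Co
      rw [Fintype.mem_piFinset]
      intro l
      by_cases hl : l ∈ D.Pl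
      · rw [if_pos hl, Finset.mem_singleton]
        exact h.hPl l hl
      · rw [if_neg hl, Finset.mem_Icc]
        exact ⟨h.ho1 l, h.ho2 l⟩
    · rw [hR, Fintype.mem_piFinset]
      intro i
      rw [Finset.mem_range]
      exact Nat.lt_succ_of_le (h.hmh i)
  have hTmem : ∀ b, b ∈ T ↔ b ∈ D.VP P ∧ b (Sum.inl none) = K ∧ ∀ l, b (Sum.inr l) ≤ n + 1 := by
    intro b
    rw [hT, Finset.mem_image]
    constructor
    · rintro ⟨⟨o, mh⟩, hp, rfl⟩
      have h1 := bOf_mem hK ((hCmem o mh).1 hp)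
      exact ⟨h1.1, h1.2.1, h1.2.2.1⟩
    · rintro ⟨h1, h2, h3⟩
      obtain ⟨h4, h5⟩ := cellOf h1 h2 hn h3
      exact ⟨(D.oOf b, D.mOf P n b), (hCmem _ _).2 h4, h5⟩
  have hL : (∑ o ∈ D.Co n, ∑ mh ∈ R,
      if D.CellH P K n o mh then ((Lu ^ (-D.lin P.BB B₀ o mh) : MCˣ) : MC) *
        ∏ l ∈ Fr, (if o l ≤ n then 1 - q else 1) else 0) =
      ∑ b ∈ T, wtm (D.rho P.BB B₀) b * ∏ l ∈ Fr, (if b (Sum.inr l) ≤ n then 1 - q else 1) := by
    rw [← Finset.sum_product' (s := D.Co n) (t := R) (f := fun o mh =>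
      if D.CellH P K n o mh then ((Lu ^ (-D.lin P.BB B₀ o mh) : MCˣ) : MC) *
        ∏ l ∈ Fr, (if o l ≤ n then 1 - q else 1) else 0), ← Finset.sum_filter, ← hC, hT,
      Finset.sum_image]
    · refine Finset.sum_congr rfl fun p hp => ?_
      obtain ⟨o, mh⟩ := p
      have hc := (hCmem o mh).1 hp
      rw [lin_wtm hc hB₀]
      congr 1
      refine Finset.prod_congr rfl fun l hl => ?_
      have h1 := congrFun (bOf_mem hK hc).2.2.2.1 l
      have h2 : D.β l ∈ D.KX := by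
        rw [hFr, pf3_Fv] at hl
        exact hl.1
      unfold Dat.oOf at h1
      rw [if_pos h2] at h1
      show (if o l ≤ n then 1 - q else 1) =
        if D.bOf P K o mh (Sum.inr l) ≤ n then 1 - q else 1
      rw [← h1]
    · rintro ⟨o, mh⟩ hp ⟨o', mh'⟩ hp' h
      have h1 := (bOf_mem hK ((hCmem o mh).1 hp)).2.2.2
      have h2 := (bOf_mem hK ((hCmem o' mh').1 hp')).2.2.2
      have h3 : D.bOf P K o mh = D.bOf P K o' mh' := h
      rw [h3] at h1
      exact Prod.ext (h1.1.symm.trans h2.1) (h1.2.symm.trans h2.2)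
  rw [hL]
  have hprod : ∀ b : Option (J ⊕ Fin s) ⊕ Fin N → ℕ,
      ∏ l ∈ Fr, (if b (Sum.inr l) ≤ n then 1 - q else 1) =
      ∑ Z ∈ Fr.powerset, if (∀ l ∈ Z, b (Sum.inr l) ≤ n) then (-1) ^ Z.card * q ^ Z.card
        else 0 := by
    intro b
    have h1 : ∀ l ∈ Fr, (if b (Sum.inr l) ≤ n then 1 - q else 1) =
        1 + if b (Sum.inr l) ≤ n then -q else 0 := by
      intro l _
      split_ifs
      · ring
      · ring
    rw [Finset.prod_congr rfl h1, Finset.prod_one_add]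
    refine Finset.sum_congr rfl fun Z _ => ?_
    rw [Finset.prod_ite_zero, Finset.prod_const, neg_pow]
    by_cases h : ∀ l ∈ Z, b (Sum.inr l) ≤ n
    · rw [if_pos h, if_pos h]
    · rw [if_neg h, if_neg h]
  have hL2 : (∑ b ∈ T, wtm (D.rho P.BB B₀) b *
      ∏ l ∈ Fr, (if b (Sum.inr l) ≤ n then 1 - q else 1)) =
      ∑ Z ∈ Fr.powerset, ∑ b ∈ T, if (∀ l ∈ Z, b (Sum.inr l) ≤ n) then
        (-1) ^ Z.card * wtm (D.rho P.BB B₀) (b + ∑ l ∈ Z, D.fl l) else 0 := by
    rw [Finset.sum_comm]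
    refine Finset.sum_congr rfl fun b _ => ?_
    rw [hprod b, Finset.mul_sum]
    refine Finset.sum_congr rfl fun Z hZ => ?_
    rw [pf3_wtm (Finset.mem_powerset.1 hZ) b, ← hq]
    split_ifs
    · ring
    · rw [mul_zero]
  rw [hL2]
  set T' : Finset (Option (J ⊕ Fin s) ⊕ Fin N → ℕ) :=
    ((T ×ˢ Fr.powerset).image fun p => p.1 + ∑ l ∈ p.2, D.fl l).filter
      fun b => ∀ l, b (Sum.inr l) ≤ n + 1 with hT'
  have hT'mem : ∀ b, b ∈ T' ↔ (∃ b' ∈ T, ∃ Z ∈ Fr.powerset, b' + ∑ l ∈ Z, D.fl l = b) ∧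
      ∀ l, b (Sum.inr l) ≤ n + 1 := by
    intro b
    rw [hT', Finset.mem_filter, Finset.mem_image]
    refine and_congr_left fun _ => ?_
    constructor
    · rintro ⟨⟨b', Z⟩, hp, h⟩
      rw [Finset.mem_product] at hp
      exact ⟨b', hp.1, Z, hp.2, h⟩
    · rintro ⟨b', hb', Z, hZ, h⟩
      exact ⟨(b', Z), Finset.mem_product.2 ⟨hb', hZ⟩, h⟩
  have hT'none : ∀ b ∈ T', b (Sum.inl none) = K := by
    intro b hb
    obtain ⟨⟨b', hb', Z, _, rfl⟩, _⟩ := (hT'mem b).1 hb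
    rw [Pi.add_apply, pf3_none, add_zero]
    exact ((hTmem b').1 hb').2.1
  -- points with `b = b' + f_Z`
  have hdown : ∀ b b' : Option (J ⊕ Fin s) ⊕ Fin N → ℕ, ∀ Z : Finset (Fin N), b' ∈ D.VP P →
      b = b' + ∑ l ∈ Z, D.fl l → b (Sum.inl none) = K → (∀ l, b (Sum.inr l) ≤ n + 1) →
      b' ∈ T := by
    intro b b' Z hb' h h1 h2
    refine (hTmem b').2 ⟨hb', ?_, fun l => ?_⟩
    · rw [h, Pi.add_apply, pf3_none, add_zero] at h1
      exact h1
    · have h3 := h2 l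
      rw [h, Pi.add_apply] at h3
      exact (Nat.le_add_right _ _).trans h3
  have hsupp : ∀ b : Option (J ⊕ Fin s) ⊕ Fin N → ℕ, b (Sum.inl none) = K →
      muV (D.VP P) Fr D.fl b ≠ 0 → b ∈ T' := by
    intro b h1 h2
    have h3 : ∀ l, b (Sum.inr l) ≤ n + 1 := by
      intro l
      by_contra h4
      exact h2 (mu_zero (n := n) (l := l) (by rw [h1]; exact hn) (by omega))
    unfold muV at h2
    obtain ⟨Z, hZ, h4⟩ := Finset.exists_ne_zero_of_sum_ne_zero h2
    have h5 : ∃ b' ∈ D.VP P, b = b' + ∑ l ∈ Z, D.fl l := by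
      by_contra h6
      rw [if_neg h6, mul_zero] at h4
      exact h4 rfl
    obtain ⟨b', hb', h6⟩ := h5
    exact (hT'mem b).2 ⟨⟨b', hdown b b' Z hb' h6 h1 h3, Z, hZ, h6.symm⟩, h3⟩
  have hRHS : (∑ᶠ (b : Option (J ⊕ Fin s) ⊕ Fin N → ℕ) (_ : b (Sum.inl none) = K),
      ((muV (D.VP P) Fr D.fl b : ℤ) : MC) * wtm (D.rho P.BB B₀) b) =
      ∑ b ∈ T', ((muV (D.VP P) Fr D.fl b : ℤ) : MC) * wtm (D.rho P.BB B₀) b := by
    rw [finsum_eq_sum_of_support_subset (s := T')]
    · refine Finset.sum_congr rfl fun b hb => ?_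
      rw [finsum_eq_if, if_pos (hT'none b hb)]
    · intro b hb
      rw [Function.mem_support, finsum_eq_if] at hb
      have h1 : b (Sum.inl none) = K := by
        by_contra h
        rw [if_neg h] at hb
        exact hb rfl
      rw [if_pos h1] at hb
      refine Finset.mem_coe.2 (hsupp b h1 fun h => hb ?_)
      rw [h, Int.cast_zero, zero_mul]
  rw [hRHS]
  have hR2 : (∑ b ∈ T', ((muV (D.VP P) Fr D.fl b : ℤ) : MC) * wtm (D.rho P.BB B₀) b) =
      ∑ Z ∈ Fr.powerset, ∑ b ∈ T', if (∃ b' ∈ D.VP P, b = b' + ∑ l ∈ Z, D.fl l) then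
        (-1) ^ Z.card * wtm (D.rho P.BB B₀) b else 0 := by
    rw [Finset.sum_comm]
    refine Finset.sum_congr rfl fun b _ => ?_
    unfold muV
    rw [Int.cast_sum, Finset.sum_mul]
    refine Finset.sum_congr rfl fun Z _ => ?_
    split_ifs
    · push_cast
      ring
    · push_cast
      ring
  rw [hR2]
  refine Finset.sum_congr rfl fun Z hZ => ?_
  rw [← Finset.sum_filter, ← Finset.sum_filter]
  refine Finset.sum_bij (fun b _ => b + ∑ l ∈ Z, D.fl l) ?_ ?_ ?_ ?_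
  · intro b hb
    rw [Finset.mem_filter] at hb
    have h1 := (hTmem b).1 hb.1
    refine Finset.mem_filter.2 ⟨(hT'mem _).2 ⟨⟨b, hb.1, Z, hZ, rfl⟩, fun l => ?_⟩, b, h1.1, rfl⟩
    rw [Pi.add_apply, pf3_inr]
    by_cases hl : l ∈ Z
    · rw [if_pos hl]
      exact Nat.succ_le_succ (hb.2 l hl)
    · rw [if_neg hl]
      exact h1.2.2 l
  · intro b _ b' _ h
    exact add_right_cancel h
  · intro b hb
    rw [Finset.mem_filter] at hb
    obtain ⟨hb1, b', hb', h⟩ := hb
    have h2 := ((hT'mem b).1 hb1).2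
    refine ⟨b', Finset.mem_filter.2 ⟨hdown b b' Z hb' h (hT'none b hb1) h2, fun l hl => ?_⟩,
      h.symm⟩
    have h3 := h2 l
    rw [h, Pi.add_apply, pf3_inr, if_pos hl] at h3
    exact Nat.le_of_succ_le_succ h3
  · intro b _
    rfl

end LFM
end MotMono
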