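import Pool.Agent.Lib.MP_4e5fcd_ag.LFM.PF3
import Pool.Agent.Lib.MP_4e5fcd_ag.LF.P8
import Pool.Agent.Lib.MP_4e5fcd_ag.LF.X2

/-!
# LFM-PF4: the classes `AK` as sums over patterns

`XH_congr`: `ci a B₀ x (inr k) = ci a B₀ x' (inr k)` for `k ∈ KX` (`XI ⊆ DT`), by the proof of `LF.XM_congr` (LF/X2): the sets of `B` with
`MaxB a D' x B`, resp. `x'`, are both `P.BB`.
`AK_formula`: `A` from `al_pattern` (LF/F5, `S = ∅`, `D = XI`). `PATS` = the `P ∈ LF.allPat_p8` with some `b₁ ∈ VP P`; for these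
`P.BB` is not empty (`exists_maxB`, `IsPat.BB`): choose `B₀ P ∈ P.BB`, and `x₀ P = clo .. b₁` (which has the pattern `P` at the level
`E * b₁ none`). `C P = A P * algebraMap (cls (XH P.BB (B₀ P) (x₀ P))) * Lu ^ (- cst P.BB (B₀ P))`.
`AK_dec`: for a summand `(o, mh)` with `al ≠ 0`: `P = LF.mkPat_p8 av W ∅ XI (E K) mh` satisfies `IsPat` (`isPat_mkPat_p8`; `Sx .. ∅` is
trivial), `P ∈ allPat_p8` (`mem_allPat_p8`, `mkPat_off_lt_p8`), `CellH P K n o mh` (`mh i ≤ n` from the range, `Co`),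
`bOf P K o mh ∈ VP P` (`bOf_mem`), so `P ∈ PATS`; and `P` is the only pattern with `IsPat` (`IsPat.unique_p8`). So the summand is
`∑_{P ∈ PATS} if CellH P K n o mh then A P * (..) else 0`; conversely for `P ∈ PATS` and `CellH P K n o mh` the pair satisfies the
conditions of `AK_dec` (`closed`: `LF.clo_of_clo`; `hk`), and `al = A P`. `cls_cell` (with `Lu ^ (-(cst + lin)) =
Lu ^ (-cst) * Lu ^ (-lin)`), `XH_congr`; exchange the sums and use `tel`.
-/

open MvPolynomial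

namespace MotMono
namespace LFM

section Pat

variable {I Γ : Type} [Fintype I] [Fintype Γ] {N : ℕ}

private theorem pf4_unique {a : I → Fin N → ℂ} {w : Γ → I → ℕ} {S : Finset Γ} {D : Finset I}
    {K : ℕ} {mh : I → ℕ} {P P' : LF.Pat I Γ} (h : LF.IsPat a w S D K mh P)
    (h' : LF.IsPat a w S D K mh P') : P = P' := by
  have hT : P.T = P'.T := by
    ext g
    rw [h.T, h'.T]
  have h1 : P.off = P'.off := by
    funext g
    by_cases hg : g ∈ P.T
    · have e1 := h.off g hg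
      have e2 := h'.off g (hT ▸ hg)
      omega
    · rw [h.off0 g hg, h'.off0 g (fun h => hg (hT ▸ h))]
  have h2 : P.BB = P'.BB := by
    ext B
    rw [h.BB, h'.BB, hT]
  have h3 : P.Z0 = P'.Z0 := by
    ext i
    rw [h.Z0, h'.Z0, hT]
  cases P
  cases P'
  simp only at hT h1 h2 h3
  subst hT h1 h2 h3
  rfl

open Classical in
private theorem pf4_mem_TT {w : Γ → I → ℕ} {S : Finset Γ} {K : ℕ} {mh : I → ℕ} {g : Γ} :
    g ∈ LF.TT w Sᶜ K mh ↔ g ∉ S ∧ pair (w g) (fun i => mh i + 1) < K + LF.Hb w := by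
  unfold LF.TT
  rw [Finset.mem_filter, Finset.mem_compl]

open Classical in
private theorem pf4_isPat {a : I → Fin N → ℂ} {w : Γ → I → ℕ} (ha : ∀ i, a i ≠ 0) {S : Finset Γ}
    {D : Finset I} {K : ℕ} {mh : I → ℕ} (hmh : LF.clo a Finset.univ mh = mh)
    (hsx : LF.Sx w S K mh) (hal : LF.al a D (LF.ucf w Sᶜ K) mh ≠ 0) :
    LF.IsPat a w S D K mh (LF.mkPat_p8 a w S D K mh) where
  closed := fun i => congrFun (LF.al_closed ha hmh hal) i
  sx := hsx
  T := fun g => pf4_mem_TT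
  off := by
    intro g hg
    have h1 := LF.al_off hal g (pf4_mem_TT.mp hg).1
    have h2 : (LF.mkPat_p8 a w S D K mh).off g = pair (w g) (fun i => mh i + 1) - K := if_pos hg
    rw [h2]
    omega
  off0 := fun g hg => if_neg hg
  BB := by
    intro B
    have h2 : (LF.mkPat_p8 a w S D K mh).BB =
        Finset.univ.filter fun B => LF.MaxB a (LF.DT w D (LF.TT w Sᶜ K mh)) mh B := rfl
    rw [h2, Finset.mem_filter]
    exact ⟨fun h => h.2, fun h => ⟨Finset.mem_univ _, h⟩⟩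
  Z0 := by
    intro i
    have h2 : (LF.mkPat_p8 a w S D K mh).Z0 =
        Finset.univ.filter fun i => i ∈ LF.DT w D (LF.TT w Sᶜ K mh) ∧ mh i = 0 := rfl
    rw [h2, Finset.mem_filter]
    exact ⟨fun h => h.2, fun h => ⟨Finset.mem_univ _, h⟩⟩

private theorem pf4_mem_allPat {w : Γ → I → ℕ} {P : LF.Pat I Γ} (h : ∀ g, P.off g < LF.Hb w) :
    P ∈ LF.allPat_p8 I w := by
  classical
  unfold LF.allPat_p8
  rw [Finset.mem_image]
  refine ⟨(P.T, P.off, P.BB, P.Z0), ?_, rfl⟩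
  simp only [Finset.mem_product, Finset.mem_univ, true_and, and_true, Fintype.mem_piFinset,
    Finset.mem_range]
  exact h

private theorem pf4_off_lt {a : I → Fin N → ℂ} {w : Γ → I → ℕ} {S : Finset Γ} {D : Finset I}
    {K : ℕ} {mh : I → ℕ} (g : Γ) : (LF.mkPat_p8 a w S D K mh).off g < LF.Hb w := by
  classical
  have hH : 0 < LF.Hb w := by
    unfold LF.Hb
    omega
  by_cases hg : g ∈ LF.TT w Sᶜ K mh
  · have h2 : (LF.mkPat_p8 a w S D K mh).off g = pair (w g) (fun i => mh i + 1) - K := if_pos hg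
    have h3 := (pf4_mem_TT.mp hg).2
    rw [h2]
    omega
  · have h2 : (LF.mkPat_p8 a w S D K mh).off g = 0 := if_neg hg
    rw [h2]
    exact hH

end Pat

variable {J Γ : Type} [Fintype J] [Fintype Γ] {N s : ℕ}

omit [Fintype Γ] in
private theorem pf4_mem_DT {D : Dat J Γ N s} {k : Fin s} (hk : k ∈ D.KX) (T : Finset Γ) :
    Sum.inr k ∈ LF.DT D.W D.XI T := by
  simp only [LF.DT, Finset.mem_filter]
  refine ⟨Finset.mem_univ _, Or.inl ?_⟩
  unfold Dat.XI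
  exact Finset.mem_map.2 ⟨k, hk, rfl⟩

theorem XH_congr {D : Dat J Γ N s} {P : LF.Pat (J ⊕ Fin s) Γ} {K K' : ℕ}
    {x x' : J ⊕ Fin s → ℕ} (h : LF.IsPat D.av D.W ∅ D.XI K x P)
    (h' : LF.IsPat D.av D.W ∅ D.XI K' x' P) {B₀ : Finset (J ⊕ Fin s)} (hB₀ : B₀ ∈ P.BB) :
    D.XH P.BB B₀ x = D.XH P.BB B₀ x' := by
  classical
  have hB : LF.MaxB D.av (LF.DT D.W D.XI P.T) x B₀ := (h.BB B₀).1 hB₀
  have hB' : LF.MaxB D.av (LF.DT D.W D.XI P.T) x' B₀ := (h'.BB B₀).1 hB₀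
  have hiff : ∀ B, LF.MaxB D.av (LF.DT D.W D.XI P.T) x B ↔
      LF.MaxB D.av (LF.DT D.W D.XI P.T) x' B := fun B => (h.BB B).symm.trans (h'.BB B)
  have key : ∀ (c : B₀ → ℂ), ∀ k ∈ D.KX,
      LF.ci D.av B₀ x c (Sum.inr k) = LF.ci D.av B₀ x' c (Sum.inr k) := by
    intro c k hk
    have hi := pf4_mem_DT hk P.T
    unfold LF.ci
    refine Finset.sum_congr rfl fun b _ => ?_
    by_cases hc : LF.cf D.av B₀ (Sum.inr k) b = 0
    · simp [hc]
    · have h1 := hB.exchange hi hc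
      have h2 := hB'.exchange hi hc
      have h3 : x b = x (Sum.inr k) ↔ x' b = x' (Sum.inr k) := h1.symm.trans ((hiff _).trans h2)
      by_cases h4 : x b = x (Sum.inr k)
      · rw [if_pos h4, if_pos (h3.1 h4)]
      · rw [if_neg h4, if_neg (fun h5 => h4 (h3.2 h5))]
  ext z
  unfold Dat.XH
  rw [Set.mem_ofPred_eq, Set.mem_ofPred_eq]
  refine and_congr_right fun _ => and_congr_right fun _ => and_congr_right fun _ => ?_
  refine forall₂_congr fun k hk => ?_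
  rw [key _ k (Finset.mem_sdiff.1 hk).1]

open Classical in
private theorem pf4_cellH {D : Dat J Γ N s} {P : LF.Pat (J ⊕ Fin s) Γ} {K n : ℕ}
    {o : Fin N → ℕ} {mh : J ⊕ Fin s → ℕ} (hn : D.E * K + LF.Hb D.W ≤ n) (ho : o ∈ D.Co n)
    (hmh : mh ∈ Fintype.piFinset fun _ : J ⊕ Fin s => Finset.range (n + 1))
    (hk : ∀ k ∈ D.KX, mh (Sum.inr k) + 1 = min (Mon.nuv D.β D.d o k) (n + 1))
    (hP : LF.IsPat D.av D.W ∅ D.XI (D.E * K) mh P) : D.CellH P K n o mh := by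
  unfold Dat.Co at ho
  rw [Fintype.mem_piFinset] at ho hmh
  have ho' : ∀ l, 1 ≤ o l ∧ o l ≤ n + 1 := by
    intro l
    have h1 := ho l
    split_ifs at h1 with h2
    · rw [Finset.mem_singleton] at h1
      omega
    · exact Finset.mem_Icc.1 h1
  refine ⟨hP, hn, fun i => ?_, fun l => (ho' l).1, fun l => (ho' l).2, fun l hl => ?_, hk⟩
  · have := hmh i
    rw [Finset.mem_range] at this
    omega
  · have h1 := ho l
    rw [if_pos hl, Finset.mem_singleton] at h1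
    exact h1

theorem AK_formula (D : Dat J Γ N s) :
    ∃ (PATS : Finset (LF.Pat (J ⊕ Fin s) Γ)) (B₀ : LF.Pat (J ⊕ Fin s) Γ → Finset (J ⊕ Fin s))
      (C : LF.Pat (J ⊕ Fin s) Γ → MC),
      (∀ P ∈ PATS, B₀ P ∈ P.BB ∧ ∃ b₁, b₁ ∈ D.VP P) ∧
      ∀ K n, 1 ≤ K → D.E * K + LF.Hb D.W ≤ n →
        D.AK K n = ∑ P ∈ PATS, C P *
          ∑ᶠ (b : Option (J ⊕ Fin s) ⊕ Fin N → ℕ) (_ : b (Sum.inl none) = K),
            ((muV (D.VP P) (D.Fv P.BB) D.fl b : ℤ) : MC) * wtm (D.rho P.BB (B₀ P)) b := by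
  classical
  obtain ⟨A, hA⟩ := LF.al_pattern (av_ne_zero D) D.W ∅ D.XI
  set PATS : Finset (LF.Pat (J ⊕ Fin s) Γ) :=
    (LF.allPat_p8 (J ⊕ Fin s) D.W).filter fun P => ∃ b₁, b₁ ∈ D.VP P with hPATS
  have hex : ∀ P : LF.Pat (J ⊕ Fin s) Γ, ∃ (B : Finset (J ⊕ Fin s)) (x : J ⊕ Fin s → ℕ),
      P ∈ PATS → B ∈ P.BB ∧ ∃ K₁, LF.IsPat D.av D.W ∅ D.XI K₁ x P := by
    intro P
    by_cases hP : P ∈ PATS
    · obtain ⟨b₁, hb₁⟩ := (Finset.mem_filter.1 hP).2
      have h1 : LF.IsPat D.av D.W ∅ D.XI (D.E * b₁ (Sum.inl none))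
          (LF.clo D.av (LF.DT D.W D.XI P.T) fun j => b₁ (Sum.inl (some j))) P :=
        hb₁.2.2.2.2.2.2
      obtain ⟨B, hB⟩ := LF.exists_maxB D.av (LF.DT D.W D.XI P.T)
        (LF.clo D.av (LF.DT D.W D.XI P.T) fun j => b₁ (Sum.inl (some j)))
      exact ⟨B, _, fun _ => ⟨(h1.BB B).2 hB, _, h1⟩⟩
    · exact ⟨∅, 0, fun h => absurd h hP⟩
  choose B₀ x₀ hBx using hex
  refine ⟨PATS, B₀, fun P => ((A P : ℤ) : MC) * algebraMap K0 MC (cls (D.XH P.BB (B₀ P) (x₀ P))) *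
    ((Lu ^ (-D.cst P.BB (B₀ P)) : MCˣ) : MC), fun P hP => ⟨(hBx P hP).1,
      (Finset.mem_filter.1 hP).2⟩, ?_⟩
  intro K n hK hn
  have h1 : ∀ P ∈ PATS, ((A P : ℤ) : MC) *
      algebraMap K0 MC (cls (D.XH P.BB (B₀ P) (x₀ P))) *
      ((Lu ^ (-D.cst P.BB (B₀ P)) : MCˣ) : MC) *
        ∑ᶠ (b : Option (J ⊕ Fin s) ⊕ Fin N → ℕ) (_ : b (Sum.inl none) = K),
            ((muV (D.VP P) (D.Fv P.BB) D.fl b : ℤ) : MC) * wtm (D.rho P.BB (B₀ P)) b =
      ∑ o ∈ D.Co n, ∑ mh ∈ Fintype.piFinset fun _ : J ⊕ Fin s => Finset.range (n + 1),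
        ((A P : ℤ) : MC) * algebraMap K0 MC (cls (D.XH P.BB (B₀ P) (x₀ P))) *
          ((Lu ^ (-D.cst P.BB (B₀ P)) : MCˣ) : MC) *
        (if D.CellH P K n o mh then ((Lu ^ (-D.lin P.BB (B₀ P) o mh) : MCˣ) : MC) *
          ∏ l ∈ D.Fv P.BB, (if o l ≤ n then 1 - ((Lu⁻¹ : MCˣ) : MC) else 1)
        else 0) := by
    intro P hP
    rw [← tel hK hn (hBx P hP).1, Finset.mul_sum]
    exact Finset.sum_congr rfl fun o _ => by rw [Finset.mul_sum]
  rw [Finset.sum_congr rfl h1, Finset.sum_comm, AK_dec]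
  refine Finset.sum_congr rfl fun o ho => ?_
  rw [Finset.sum_comm]
  refine Finset.sum_congr rfl fun mh hmh => ?_
  by_cases hc : (∀ i, LF.clo D.av Finset.univ mh i = mh i) ∧
      ∀ k ∈ D.KX, mh (Sum.inr k) + 1 = min (Mon.nuv D.β D.d o k) (n + 1)
  · rw [if_pos hc]
    by_cases hal : LF.al D.av D.XI (LF.ucf D.W (∅ : Finset Γ)ᶜ (D.E * K)) mh = 0
    · rw [hal, Int.cast_zero, zero_mul]
      symm
      refine Finset.sum_eq_zero fun P _ => ?_
      by_cases hP : D.CellH P K n o mh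
      · have h2 : A P = 0 := by
          rw [← hA _ _ P hP.hP]
          exact hal
        rw [h2, Int.cast_zero, zero_mul, zero_mul, zero_mul]
      · rw [if_neg hP, mul_zero]
    · have hPat := pf4_isPat (av_ne_zero D) (S := ∅) (D := D.XI) (K := D.E * K) (mh := mh)
        (funext hc.1) (fun g hg => absurd hg (Finset.notMem_empty g)) hal
      set P₀ := LF.mkPat_p8 D.av D.W ∅ D.XI (D.E * K) mh with hP₀
      have hcell : D.CellH P₀ K n o mh := pf4_cellH hn ho hmh hc.2 hPat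
      have hmem : P₀ ∈ PATS := by
        rw [hPATS, Finset.mem_filter]
        exact ⟨pf4_mem_allPat pf4_off_lt, _, (bOf_mem hK hcell).1⟩
      rw [Finset.sum_eq_single_of_mem P₀ hmem]
      · rw [if_pos hcell, hA _ _ P₀ hPat, cls_cell hcell (hBx P₀ hmem).1]
        obtain ⟨K₁, hx₀⟩ := (hBx P₀ hmem).2
        rw [XH_congr hPat hx₀ (hBx P₀ hmem).1, neg_add, zpow_add, Units.val_mul]
        ring
      · intro P _ hne
        rw [if_neg, mul_zero]
        intro hP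
        exact hne (pf4_unique hP.hP hPat)
  · rw [if_neg hc]
    symm
    refine Finset.sum_eq_zero fun P _ => ?_
    rw [if_neg, mul_zero]
    intro hP
    exact hc ⟨LF.clo_of_clo (av_ne_zero D) (Finset.subset_univ _) hP.hP.closed, hP.hk⟩

end LFM
end MotMono
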