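import Pool.Agent.Lib.MP_4e5fcd_ag.LFM.PF4
import Pool.Agent.Lib.MP_4e5fcd_ag.LFM.PD2
import Pool.Agent.Lib.MP_4e5fcd_ag.LFM.PD3
import Pool.Agent.Lib.MP_4e5fcd_ag.LFM.GF2

/-!
# LFM-PG: the generating function of the classes `AK`

`AK_indep`: both sides are given by `AK_formula`.
`AK_gf`: for `P ∈ PATS` apply `gf_tel` with `R = MC`, `ρ = rho P.BB (B₀ P)`, `o = inl none`, `Z = ZV P`, `Cs = CV P (B₀ P)`, `Fr = Fv P.BB`,
`f = fl`: `hfo`, `hfZ` by `fl_ZV`, `hray` by `ray_zeroV`; `{b | InP (ZV P) (CV P B₀) b} = VP P` by `inP_VP`. It gives `U_P` with `ExtRay`,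
`0 < u (inl none)`; `ray_posV` gives `uh`, `ch`, `m` with `wtm ρ u = Lu ^ (-m)`. Take the disjoint union of the `U_P` (`Finset.sigma`, `Fin m` by
an enumeration `Fintype.equivFin`), `κ = u (inl none)`. The coefficient `K ≥ 1` of `mk` is `∑_P C P * (coefficient for P)`; the
coefficient `0` may be changed: subtract a constant `C c`, and the product times a constant is a polynomial.
(`PSub_p8`, `mem_PSub_p8`, LF/P8, are convenient: the power series which are polynomials form a subring.)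
-/

open MvPolynomial

namespace MotMono
namespace LFM

variable {J Γ : Type} [Fintype J] [Fintype Γ] {N s : ℕ}

theorem AK_indep (D : Dat J Γ N s) {K n n' : ℕ} (hK : 1 ≤ K) (hn : D.E * K + LF.Hb D.W ≤ n)
    (hn' : D.E * K + LF.Hb D.W ≤ n') : D.AK K n = D.AK K n' := by
  obtain ⟨PATS, B₀, C, -, h⟩ := AK_formula D
  rw [h K n hK hn, h K n' hK hn']

theorem AK_gf [Nonempty Γ] (D : Dat J Γ N s) :
    ∃ (m : ℕ) (ch : Fin m → Fin s → Fin N) (u : Fin m → J ⊕ Fin s → ℕ) (σ : Fin m → ℤ)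
      (κ : Fin m → ℕ),
      (∀ j, 0 < κ j ∧ (∀ k, D.β (ch j k) = k) ∧ EssX D.av D.W D.XI (u j) ∧
        LF.mn D.W (u j) = D.E * κ j ∧ (σ j : ℚ) = D.sig (ch j) (u j)) ∧
      ∃ Q : Polynomial MC,
        (∏ j, (1 - PowerSeries.C ((Lu ^ (-σ j) : MCˣ) : MC) * PowerSeries.X ^ κ j)) *
          PowerSeries.mk (fun K => if K = 0 then (0 : MC) else
            D.AK K (D.E * K + LF.Hb D.W)) = (Q : PowerSeries MC) := by
  classical
  obtain ⟨PATS, B₀, Cf, hPATS, hform⟩ := AK_formula D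
  -- the generating function of one pattern
  set cf : LF.Pat (J ⊕ Fin s) Γ → ℕ → MC := fun P k =>
    ∑ᶠ (b : Option (J ⊕ Fin s) ⊕ Fin N → ℕ) (_ : b (Sum.inl none) = k),
      ((muV (D.VP P) (D.Fv P.BB) D.fl b : ℤ) : MC) * wtm (D.rho P.BB (B₀ P)) b with hcf
  have hone : ∀ P : LF.Pat (J ⊕ Fin s) Γ, ∃ U : Finset (Option (J ⊕ Fin s) ⊕ Fin N → ℕ),
      P ∈ PATS → (∀ u ∈ U, ExtRay (D.ZV P) ((D.CV P (B₀ P)).image Prod.fst) u ∧
        0 < u (Sum.inl none)) ∧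
      ∃ Q : Polynomial MC,
        (∏ u ∈ U, (1 - PowerSeries.C (wtm (D.rho P.BB (B₀ P)) u) *
          PowerSeries.X ^ u (Sum.inl none))) * PowerSeries.mk (cf P) = (Q : PowerSeries MC) := by
    intro P
    by_cases hP : P ∈ PATS
    · obtain ⟨hB₀, b₁, hb₁⟩ := hPATS P hP
      obtain ⟨-, U, hU, Q, hQ⟩ := gf_tel (D.rho P.BB (B₀ P)) (Sum.inl none) (D.ZV P)
        (D.CV P (B₀ P)) (D.Fv P.BB) D.fl (fun l hl => (fl_ZV hb₁ hl).1)
        (fun l hl => (fl_ZV hb₁ hl).2) (fun u hu h0 => by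
          obtain ⟨l, hl, h⟩ := ray_zeroV hb₁ hB₀ (by convert hu) h0
          exact ⟨l, hl, h⟩)
      refine ⟨U, fun _ => ⟨?_, Q, ?_⟩⟩
      · intro u hu
        have h1 := hU u hu
        refine ⟨by convert h1.1, h1.2⟩
      · rw [← hQ, inP_VP hb₁ hB₀]
    · exact ⟨∅, fun h => absurd h hP⟩
  choose U hU using hone
  set S : Finset (Σ _ : LF.Pat (J ⊕ Fin s) Γ, (Option (J ⊕ Fin s) ⊕ Fin N → ℕ)) :=
    PATS.sigma U with hS
  have hdat : ∀ x : S, ∃ (uh : J ⊕ Fin s → ℕ) (ch : Fin s → Fin N) (m : ℤ),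
      EssX D.av D.W D.XI uh ∧ LF.mn D.W uh = D.E * x.1.2 (Sum.inl none) ∧
      (∀ k, D.β (ch k) = k) ∧
      wtm (D.rho x.1.1.BB (B₀ x.1.1)) x.1.2 = ((Lu ^ (-m) : MCˣ) : MC) ∧
      (m : ℚ) = D.sig ch uh ∧ 0 < x.1.2 (Sum.inl none) := by
    rintro ⟨⟨P, u⟩, hx⟩
    rw [hS, Finset.mem_sigma] at hx
    obtain ⟨hP, hu⟩ := hx
    dsimp only at hP hu ⊢
    obtain ⟨hB₀, b₁, hb₁⟩ := hPATS P hP
    obtain ⟨hE, h0⟩ := (hU P hP).1 u hu
    obtain ⟨uh, h1, h2, ch, h3, m, h4, h5⟩ := ray_posV hb₁ hB₀ hE h0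
    exact ⟨uh, ch, m, h1, h2, h3, h4, h5, h0⟩
  choose uh ch mm h1 h2 h3 h4 h5 h6 using hdat
  refine ⟨S.card, fun j => ch (S.equivFin.symm j), fun j => uh (S.equivFin.symm j),
    fun j => mm (S.equivFin.symm j), fun j => (S.equivFin.symm j).1.2 (Sum.inl none),
    fun j => ⟨h6 _, h3 _, h1 _, h2 _, h5 _⟩, ?_⟩
  have hprod : (∏ j : Fin S.card, (1 - PowerSeries.C ((Lu ^ (-mm (S.equivFin.symm j)) : MCˣ) : MC) *
      PowerSeries.X ^ (S.equivFin.symm j).1.2 (Sum.inl none))) =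
      ∏ P ∈ PATS, ∏ u ∈ U P, (1 - PowerSeries.C (wtm (D.rho P.BB (B₀ P)) u) *
          PowerSeries.X ^ u (Sum.inl none)) := by
    have e1 := Equiv.prod_comp S.equivFin.symm (fun x : S => (1 - PowerSeries.C
      ((Lu ^ (-mm x) : MCˣ) : MC) * PowerSeries.X ^ x.1.2 (Sum.inl none) : PowerSeries MC))
    have e2 := Finset.prod_sigma PATS U (fun x => (1 - PowerSeries.C
      (wtm (D.rho x.1.BB (B₀ x.1)) x.2) * PowerSeries.X ^ x.2 (Sum.inl none) : PowerSeries MC))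
    have e3 := Finset.prod_coe_sort S (fun x => (1 - PowerSeries.C
      (wtm (D.rho x.1.BB (B₀ x.1)) x.2) * PowerSeries.X ^ x.2 (Sum.inl none) : PowerSeries MC))
    rw [← e2, ← hS, ← e3]
    refine e1.trans (Finset.prod_congr rfl fun x _ => ?_)
    simp only [h4 x]
  have hmk : PowerSeries.mk (fun K => if K = 0 then (0 : MC) else
      D.AK K (D.E * K + LF.Hb D.W)) =
      ∑ P ∈ PATS, PowerSeries.C (Cf P) * PowerSeries.mk (cf P) -
        PowerSeries.C (∑ P ∈ PATS, Cf P * cf P 0) := by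
    ext K
    rw [map_sub, map_sum, PowerSeries.coeff_mk, PowerSeries.coeff_C]
    simp only [PowerSeries.coeff_C_mul, PowerSeries.coeff_mk]
    rcases Nat.eq_zero_or_pos K with hK | hK
    · rw [if_pos hK, if_pos hK, hK, sub_self]
    · rw [if_neg hK.ne', if_neg hK.ne', sub_zero, hform K _ hK le_rfl]
  rw [hprod, hmk]
  rw [← LF.mem_PSub_p8, mul_sub, Finset.mul_sum]
  refine (LF.PSub_p8 MC).sub_mem ((LF.PSub_p8 MC).sum_mem fun P hP => ?_) ?_
  · rw [← Finset.mul_prod_erase PATS _ hP]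
    obtain ⟨Q, hQ⟩ := (hU P hP).2
    have e1 : ∀ a b c d : PowerSeries MC, a * b * (c * d) = c * b * (a * d) := fun a b c d => by
      ring
    rw [e1, hQ]
    refine (LF.PSub_p8 MC).mul_mem ((LF.PSub_p8 MC).mul_mem (LF.C_mem_PSub_p8 _) ?_)
      (LF.mem_PSub_p8.2 ⟨Q, rfl⟩)
    exact Subring.prod_mem _ fun P' _ => LF.prodfac_mem_PSub_p8 _ _ _
  · exact (LF.PSub_p8 MC).mul_mem (Subring.prod_mem _ fun P' _ => LF.prodfac_mem_PSub_p8 _ _ _)
      (LF.C_mem_PSub_p8 _)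

end LFM
end MotMono
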