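import Pool.Agent.Lib.MP_4e5fcd_ag.LFM.PF1
import Pool.Agent.Lib.MP_4e5fcd_ag.LFM.G1
import Pool.Agent.Lib.MP_4e5fcd_ag.LFM.C2

/-!
# LFM-PH1: the coefficients of the motivic zeta function

`Fp_zero`: `yv β d 0 k = ∏ 0 ^ d l = 0` since the block is not empty (`D.hβ`) and `d l > 0`.
`zmot_coeffX`: `k ≥ 1`, `E (k + 1) ≤ n + 1`. Let `A_K` be the set of jets with `n + 1` levels in `Dat.AK K n`. For `γ` with `n + 1`
levels over `0` let `γ' = trunc γ` (`k + 1` levels, `k ≤ n` as `E ≥ 1`, `E_pos`); the coefficients `≤ k` of `along f γ` and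
`along f γ'` agree (`along_trunc`). So `γ' ∈ ordLocus D.Id k` iff all generators vanish to order `≥ k` along `γ` and not all of
them vanish to order `≥ k + 1` (for elements of the ideal: `LF.along_J_lt`-like, see LF/Z1 `hord`; `Submodule.span_induction`), iff
`γ ∈ A_k \ A_(k+1)` by `gen_lt_iff` at `p = 0` (`D.hU`; the sum over `Fp 0 = univ` is `pair (W g) (vv + 1)`, `Fp_zero`).
`A_(k+1) ⊆ A_k`, `cls_diff`, `cls_trunc` (C2): `cls (A_k \ A_(k+1)) = cls (ordLocus k) * LL ^ (N (n - k))`, and the powers of `Lu` match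
(`N (k + 1) + N (n - k) = N (n + 1)`). `ordLocus D.Id k` is constructible: `constr_ordLocus`-like (grep), or from the above
(the image under `trunc`, e.g. as the preimage under the embedding by zero levels).
-/

open MvPolynomial

namespace MotMono
namespace LFM

variable {J Γ : Type} [Fintype J] {N s : ℕ} (D : Dat J Γ N s)

theorem Fp_zero : D.Fp 0 = Finset.univ := by
  classical
  ext i
  simp only [Dat.Fp, Finset.mem_filter, Finset.mem_univ, true_and, iff_true]
  have h : yv D.β D.d (0 : Fin N → ℂ) = 0 := by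
    funext k
    obtain ⟨l, hl⟩ := D.hβ k
    unfold yv
    refine Finset.prod_eq_zero (i := l) (by simp [hl]) ?_
    simp [(D.hd l).ne']
  rw [h, dotProduct_zero]

private theorem ph1_zeroLocus {σ : Type} [Finite σ] (S : Set (MvPolynomial σ ℂ)) :
    Constr {x | ∀ f ∈ S, eval x f = 0} := by
  classical
  obtain ⟨S', hS', hspan⟩ := (Submodule.fg_span_iff_fg_span_finset_subset S).1
    (IsNoetherian.noetherian (Submodule.span (MvPolynomial σ ℂ) S))
  have e : {x : σ → ℂ | ∀ f ∈ S, eval x f = 0} = ⋂ f ∈ S', {x | eval x f = 0} := by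
    ext x
    simp only [Set.mem_ofPred_eq, Set.mem_iInter]
    constructor
    · intro h f hf
      exact h f (hS' hf)
    · intro h f hf
      have h1 : f ∈ Submodule.span (MvPolynomial σ ℂ) (S' : Set (MvPolynomial σ ℂ)) := by
        rw [← hspan]
        exact Submodule.subset_span hf
      clear hf
      induction h1 using Submodule.span_induction with
      | mem y hy => exact h y hy
      | zero => exact map_zero _
      | add y z _ _ hy hz => rw [map_add, hy, hz, add_zero]
      | smul a y _ hy => rw [smul_eq_mul, map_mul, hy, mul_zero]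
  rw [e]
  exact constr_biInter_finset S' fun f _ => Constr.zeroSet f

private theorem ph1_ordLocus (I₀ : Ideal (MvPolynomial (Fin N) ℂ)) (k : ℕ) :
    Constr (ordLocus I₀ k) := by
  classical
  choose P hP using fun (f : MvPolynomial (Fin N) ℂ) (l : ℕ) =>
    LF.exists_alongPoly (N := N) (n := k + 1) f l
  have h1 := ph1_zeroLocus {Q : MvPolynomial (Fin N × Fin (k + 1)) ℂ | ∃ i, Q = X (i, 0)}
  have h2 := ph1_zeroLocus {Q : MvPolynomial (Fin N × Fin (k + 1)) ℂ |
    ∃ f ∈ I₀, ∃ l < k, Q = P f l}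
  have h3 := ph1_zeroLocus {Q : MvPolynomial (Fin N × Fin (k + 1)) ℂ | ∃ f ∈ I₀, Q = P f k}
  convert (h1.inter h2).diff h3 using 1
  ext γ
  simp only [Set.mem_inter_iff, Set.mem_sdiff, Set.mem_ofPred_eq, ordLocus]
  constructor
  · rintro ⟨a1, a2, f, hf, a3⟩
    refine ⟨⟨?_, ?_⟩, ?_⟩
    · rintro _ ⟨i, rfl⟩
      rw [eval_X, a1]
    · rintro _ ⟨f, hf, l, hl, rfl⟩
      rw [hP]
      exact a2 f hf l hl
    · intro h
      apply a3
      have := h _ ⟨f, hf, rfl⟩
      rwa [hP] at this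
  · rintro ⟨⟨b1, b2⟩, b3⟩
    refine ⟨fun i => ?_, fun f hf l hl => ?_, ?_⟩
    · have := b1 _ ⟨i, rfl⟩
      rwa [eval_X] at this
    · have := b2 _ ⟨f, hf, l, hl, rfl⟩
      rwa [hP] at this
    · by_contra hcon
      push Not at hcon
      apply b3
      rintro _ ⟨f, hf, rfl⟩
      rw [hP]
      exact hcon f hf

private theorem ph1_Id_lt {n : ℕ} (γ : Fin N × Fin (n + 1) → ℂ) {k : ℕ}
    (h : ∀ g, ∀ l < k, (along (D.gen g) γ).coeff l = 0) (f : MvPolynomial (Fin N) ℂ)
    (hf : f ∈ D.Id) : ∀ l < k, (along f γ).coeff l = 0 := by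
  rw [← Polynomial.X_pow_dvd_iff]
  unfold Dat.Id at hf
  induction hf using Submodule.span_induction with
  | mem x hx =>
    obtain ⟨g, rfl⟩ := hx
    exact Polynomial.X_pow_dvd_iff.2 (h g)
  | zero => simp [along]
  | add x y _ _ hx hy =>
    have : along (x + y) γ = along x γ + along y γ := by simp [along]
    rw [this]
    exact dvd_add hx hy
  | smul a x _ hx =>
    have : along (a • x) γ = along a γ * along x γ := by simp [along]
    rw [this]
    exact Dvd.dvd.mul_left hx _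

private theorem ph1_gen {n : ℕ} {γ : Fin N × Fin (n + 1) → ℂ} (h0 : ∀ l, γ (l, 0) = 0) (g : Γ)
    (k : ℕ) (hk : D.E * k ≤ n + 1) :
    (∀ l < k, (along (D.gen g) γ).coeff l = 0) ↔
      D.E * k ≤ pair (D.W g) fun i => LF.vv D.av (yj D.β D.d γ) i + 1 := by
  have h := gen_lt_iff D γ 0 h0 g (D.hU g) k hk
  rw [Fp_zero] at h
  exact h

theorem zmot_coeffX [Fintype Γ] {k n : ℕ} (hk : 1 ≤ k) (hn : D.E * (k + 1) ≤ n + 1) :
    PowerSeries.coeff k (Zmot D.Id) = D.AK k n - D.AK (k + 1) n := by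
  classical
  have hE := E_pos D
  have hkn : k ≤ n := by
    have : 1 * (k + 1) ≤ D.E * (k + 1) := Nat.mul_le_mul_right _ hE
    omega
  have hn' : D.E * k ≤ n + 1 := (Nat.mul_le_mul_left _ (Nat.le_succ k)).trans hn
  set A : ℕ → Set (Fin N × Fin (n + 1) → ℂ) := fun K => {γ | (∀ l, γ (l, 0) = 0) ∧
    ∀ g, D.E * K ≤ pair (D.W g) fun i => LF.vv D.av (yj D.β D.d γ) i + 1} with hA
  have hAc : ∀ K, Constr (A K) := fun K => constr_AK D K n
  have hsub : A (k + 1) ⊆ A k := by
    rintro γ ⟨h1, h2⟩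
    exact ⟨h1, fun g => (Nat.mul_le_mul_left _ (Nat.le_succ k)).trans (h2 g)⟩
  have hord : {γ : Fin N × Fin (n + 1) → ℂ | trunc hkn γ ∈ ordLocus D.Id k} = A k \ A (k + 1) := by
    ext γ
    have hz : ∀ i, trunc hkn γ (i, 0) = γ (i, 0) := fun i => rfl
    constructor
    · rintro ⟨h1, h2, f, hf, hfc⟩
      have h0 : ∀ l, γ (l, 0) = 0 := fun l => by rw [← hz l]; exact h1 l
      rw [along_trunc hkn γ f k le_rfl] at hfc
      refine ⟨⟨h0, fun g => ?_⟩, ?_⟩
      · rw [← ph1_gen D h0 g k hn']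
        intro l hl
        rw [← along_trunc hkn γ _ l hl.le]
        exact h2 _ (Ideal.subset_span ⟨g, rfl⟩) l hl
      · rintro ⟨_, h3⟩
        refine hfc (ph1_Id_lt D γ (k := k + 1) (fun g => ?_) f hf k (Nat.lt_succ_self _))
        rw [ph1_gen D h0 g (k + 1) hn]
        exact h3 g
    · rintro ⟨⟨h0, h2⟩, h3⟩
      refine ⟨fun j => by rw [hz]; exact h0 j, fun f hf l hl => ?_, ?_⟩
      · rw [along_trunc hkn γ f l hl.le]
        exact ph1_Id_lt D γ (k := k) (fun g => (ph1_gen D h0 g k hn').2 (h2 g)) f hf l hl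
      · have h4 : ∃ g, ¬ (D.E * (k + 1) ≤ pair (D.W g)
            fun i => LF.vv D.av (yj D.β D.d γ) i + 1) := by
          by_contra hc
          push Not at hc
          exact h3 ⟨h0, hc⟩
        obtain ⟨g, hg⟩ := h4
        rw [← ph1_gen D h0 g (k + 1) hn] at hg
        push Not at hg
        obtain ⟨l, hl, hl'⟩ := hg
        have h5 := (ph1_gen D h0 g k hn').2 (h2 g)
        have hlk : l = k := by
          by_contra hne
          exact hl' (h5 l (by omega))
        subst hlk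
        refine ⟨D.gen g, Ideal.subset_span ⟨g, rfl⟩, ?_⟩
        rw [along_trunc hkn γ _ l le_rfl]
        exact hl'
  have hcls := (cls_trunc hkn (ordLocus D.Id k) (ph1_ordLocus D.Id k)).2
  rw [hord, cls_diff (hAc k) (hAc (k + 1)) hsub] at hcls
  have hLu : algebraMap K0 MC LL = ((Lu : MCˣ) : MC) := rfl
  rw [Zmot, PowerSeries.coeff_mk, Dat.AK, Dat.AK, ← sub_mul, ← map_sub, hcls, map_mul, map_pow,
    hLu, mul_assoc]
  congr 1
  rw [← Units.val_pow_eq_pow_val, ← Units.val_mul, ← zpow_natCast, ← zpow_add]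
  congr 2
  push_cast [Nat.cast_sub hkn]
  ring

end LFM
end MotMono
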