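import Pool.Agent.Lib.MP_4e5fcd_ag.LFM.PH1
import Pool.Agent.Lib.MP_4e5fcd_ag.LFM.PG
import Pool.Agent.Lib.MP_4e5fcd_ag.LFM.E2

/-!
# LFM-PH2: every pole comes from a resonant triple

`F = mk (fun K => if K = 0 then 0 else AK K (E K + Hb))`. `zmot_coeffX` with `n = E (k + 1) + Hb` and `AK_indep`: the coefficient `k ≥ 1` of
`Zmot` is `F_k - F_(k+1)`. As in LF/Z2 (copy its proof, with `c = 1`): `Δ * Zmot` is a polynomial for `Δ` from `AK_gf`. If
`s₀ ≠ - σ j / κ j` for all `j` then `Zmot ∈ polarRing s₀`. So there is `j` with `s₀ = - σ j / κ j`.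
`exists_ray`: `u j = e v`, `v` primitive (`exists_prim`; `u j ≠ 0` as `mn > 0`), `EssX` for `v` (`essX_smul`), `sig ch (e v) = e sig ch v` (`nu_smul`),
`E κ = mn (e v) = e mn v` (`fc_smul`): `s₀ = - σ / κ = - E e sig v / (e mn v)`.
`exists_res_of_pole`: `ψ = 1`: `XS ch 1 = XI` (`d = 1` or `d` does not divide `1`). `lam = exp (2 π i s₀ / E)`, so
`lam ^ mn v = exp (2 π i s₀ mn v / E) = exp (- 2 π i sig ch v)`, and `sig ch v = nu - ∑ v + ∑ v / d`, an integer plus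
`∑_{k ∈ KX} v (inr k) / d (ch k)`; `exp` of an integer multiple of `2 π i` is `1`; the product in `Res.eq` is
`exp (2 π i ∑ v (inr k) / d (ch k))` (`Complex.exp_sum`).
-/

open MvPolynomial

namespace MotMono
namespace LFM

variable {J Γ : Type} [Fintype J] [Fintype Γ] [Nonempty Γ] {N s : ℕ} (D : Dat J Γ N s)

omit [Fintype Γ] [Nonempty Γ] [Fintype J] in
private theorem ph2_poly {R : Type*} [CommRing R] {F : PowerSeries R} (K : ℕ)
    (h : ∀ k, K ≤ k → PowerSeries.coeff k F = 0) :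
    ∃ P : Polynomial R, F = (P : PowerSeries R) := by
  refine ⟨PowerSeries.trunc K F, ?_⟩
  ext k
  rw [Polynomial.coeff_coe, PowerSeries.coeff_trunc]
  split_ifs with h1
  · rfl
  · exact h k (not_lt.1 h1)

private theorem ph2_exists (s₀ : ℚ) (hs : IsPole (Zmot D.Id) s₀) :
    ∃ (ch : Fin s → Fin N) (u : J ⊕ Fin s → ℕ) (σ : ℤ) (κ : ℕ), (∀ k, D.β (ch k) = k) ∧
      0 < κ ∧ EssX D.av D.W D.XI u ∧ LF.mn D.W u = D.E * κ ∧ (σ : ℚ) = D.sig ch u ∧
      s₀ = -(σ : ℚ) / κ := by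
  classical
  by_contra hcon
  push Not at hcon
  apply hs
  obtain ⟨m, ch, u, σ, κ, hU, Q, hQ⟩ := AK_gf D
  set G : ℕ → MC := fun K => if K = 0 then (0 : MC) else D.AK K (D.E * K + LF.Hb D.W) with hG
  set Δ : PowerSeries MC := ∏ j, (1 - PowerSeries.C ((Lu ^ (-σ j) : MCˣ) : MC) *
    PowerSeries.X ^ κ j) with hΔ
  have hcoef : ∀ k, PowerSeries.coeff (k + 1) (Zmot D.Id) = G (k + 1) - G (k + 2) := by
    intro k
    have h1 : D.E * (k + 1 + 1) ≤ D.E * (k + 1 + 1) + LF.Hb D.W + 1 := by omega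
    have h2 : D.E * (k + 1) ≤ D.E * (k + 1 + 1) := Nat.mul_le_mul_left _ (Nat.le_succ _)
    rw [zmot_coeffX D (k := k + 1) (by omega) h1,
      AK_indep D (K := k + 1) (by omega) (n := D.E * (k + 1 + 1) + LF.Hb D.W)
        (n' := D.E * (k + 1) + LF.Hb D.W) (by omega) le_rfl]
    simp only [hG]
    rw [if_neg (by omega), if_neg (by omega)]
  obtain ⟨P0, hP0⟩ := ph2_poly (F := PowerSeries.X * Zmot D.Id -
      (PowerSeries.X * PowerSeries.mk G - PowerSeries.mk G)) 2 (by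
    intro k hk
    obtain ⟨k, rfl⟩ : ∃ j, k = j + 1 + 1 := ⟨k - 2, by omega⟩
    rw [map_sub, PowerSeries.coeff_succ_X_mul, hcoef, map_sub,
      PowerSeries.coeff_succ_X_mul, PowerSeries.coeff_mk, PowerSeries.coeff_mk]
    ring)
  have hΔpoly : ∃ D' : Polynomial MC, Δ = (D' : PowerSeries MC) := by
    refine ⟨∏ j, (1 - Polynomial.C ((Lu ^ (-σ j) : MCˣ) : MC) * Polynomial.X ^ κ j), ?_⟩
    rw [hΔ, ← Polynomial.coeToPowerSeries.ringHom_apply, map_prod]
    refine Finset.prod_congr rfl fun u _ => ?_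
    rw [map_sub, map_one, map_mul, Polynomial.coeToPowerSeries.ringHom_apply,
      Polynomial.coeToPowerSeries.ringHom_apply, Polynomial.coe_C, Polynomial.coe_pow,
      Polynomial.coe_X]
  obtain ⟨D', hD'⟩ := hΔpoly
  have hXZ : PowerSeries.X * (Δ * Zmot D.Id) =
      ((D' * P0 + (Polynomial.X - 1) * Q : Polynomial MC) : PowerSeries MC) := by
    rw [Polynomial.coe_add, Polynomial.coe_mul, Polynomial.coe_mul,
      Polynomial.coe_sub, Polynomial.coe_one, Polynomial.coe_X, ← hP0, ← hD', ← hQ]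
    ring
  obtain ⟨Q', hQ'⟩ := ph2_poly (F := Δ * Zmot D.Id)
    ((D' * P0 + (Polynomial.X - 1) * Q).natDegree) (by
    intro k hk
    rw [← PowerSeries.coeff_succ_X_mul, hXZ, Polynomial.coeff_coe]
    exact Polynomial.coeff_eq_zero_of_natDegree_lt (by omega))
  have hinv : ∀ j : Fin m, ∃ g ∈ polarRing s₀,
      g * (1 - PowerSeries.C ((Lu ^ (-σ j) : MCˣ) : MC) * PowerSeries.X ^ κ j) = 1 := by
    intro j
    have hpos := (hU j).1
    have h1 : IsUnit (1 - PowerSeries.C ((Lu ^ (-σ j) : MCˣ) : MC) * PowerSeries.X ^ κ j) := by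
      rw [PowerSeries.isUnit_iff_constantCoeff]
      have h2 : PowerSeries.constantCoeff
          (1 - PowerSeries.C ((Lu ^ (-σ j) : MCˣ) : MC) * PowerSeries.X ^ κ j) = 1 := by
        rw [map_sub, map_one, map_mul, map_pow PowerSeries.constantCoeff PowerSeries.X,
          PowerSeries.constantCoeff_X, zero_pow hpos.ne', mul_zero, sub_zero]
      rw [h2]
      exact isUnit_one
    obtain ⟨g, hg⟩ := h1.exists_left_inv
    refine ⟨g, Subring.subset_closure (Or.inr ⟨σ j, κ j, hpos, ?_, hg⟩), hg⟩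
    intro h3
    exact hcon (ch j) (u j) (σ j) (κ j) (hU j).2.1 (hU j).1 (hU j).2.2.1 (hU j).2.2.2.1
      (hU j).2.2.2.2 h3.symm
  choose g hg1 hg2 using hinv
  have hfin : Zmot D.Id = (∏ j, g j) * (Q' : PowerSeries MC) := by
    rw [← hQ', ← mul_assoc, hΔ, ← Finset.prod_mul_distrib, Finset.prod_congr rfl fun j _ => hg2 j,
      Finset.prod_const_one, one_mul]
  rw [hfin]
  exact (polarRing s₀).mul_mem (Subring.prod_mem _ fun j _ => hg1 j)
    (Subring.subset_closure (Or.inl ⟨Q', rfl⟩))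

theorem exists_ray (s₀ : ℚ) (hs : IsPole (Zmot D.Id) s₀) :
    ∃ (ch : Fin s → Fin N) (v : J ⊕ Fin s → ℕ), (∀ k, D.β (ch k) = k) ∧ Prim v ∧
      EssX D.av D.W D.XI v ∧ s₀ = -(D.E * D.sig ch v) / (LF.mn D.W v : ℚ) := by
  obtain ⟨ch, u, σ, κ, hch, hκ, hess, hmn, hσ, hs₀⟩ := ph2_exists D s₀ hs
  have hE := E_pos D
  have hmnpos : 0 < LF.mn D.W u := by rw [hmn]; positivity
  have hu0 : u ≠ 0 := by
    rintro rfl
    obtain ⟨g⟩ := (inferInstance : Nonempty Γ)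
    have h1 := LF.mn_le D.W (0 : J ⊕ Fin s → ℕ) g
    have h2 : pair (D.W g) (0 : J ⊕ Fin s → ℕ) = 0 := by simp [pair]
    omega
  obtain ⟨e, v, he, hprim, hev⟩ := exists_prim hu0
  rw [hev] at hess hmn hσ hmnpos
  have hfc := fc_smul D.W v he
  have hess' := essX_smul (av_ne_zero D) he hess
  rw [hfc.2] at hmn hmnpos
  have hvpos : 0 < LF.mn D.W v := Nat.pos_of_mul_pos_left hmnpos |> fun h => by
    rcases Nat.eq_zero_or_pos (LF.mn D.W v) with h0 | h0
    · rw [h0, mul_zero] at hmnpos; omega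
    · exact h0
  have hsig : D.sig ch (fun i => e * v i) = e * D.sig ch v := by
    unfold Dat.sig
    rw [nu_smul]
    push_cast
    rw [mul_add, mul_sub, Finset.mul_sum, Finset.mul_sum]
    congr 1
    refine Finset.sum_congr rfl fun k _ => ?_
    ring
  rw [hsig] at hσ
  refine ⟨ch, v, hch, hprim, hess', ?_⟩
  have hmnq : (e : ℚ) * (LF.mn D.W v : ℚ) = (D.E : ℚ) * (κ : ℚ) := by exact_mod_cast hmn
  have he' : (0 : ℚ) < e := by exact_mod_cast he
  have hE' : (0 : ℚ) < D.E := by exact_mod_cast hE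
  have hκ' : (0 : ℚ) < κ := by exact_mod_cast hκ
  have hv' : (0 : ℚ) < LF.mn D.W v := by exact_mod_cast hvpos
  rw [hs₀, hσ, div_eq_div_iff hκ'.ne' hv'.ne']
  linear_combination -(D.sig ch v) * hmnq

theorem exists_res_of_pole (s₀ : ℚ) (hs : IsPole (Zmot D.Id) s₀) :
    ∃ (ch : Fin s → Fin N) (v : J ⊕ Fin s → ℕ),
      D.Res (Complex.exp (2 * Real.pi * Complex.I * (s₀ / D.E))) ch (fun _ => 1) v := by
  classical
  obtain ⟨ch, v, hch, hprim, hess, hs₀⟩ := exists_ray D s₀ hs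
  have hE := E_pos D
  have hXS : D.XS ch (fun _ => 1) = D.XI := by
    unfold Dat.XS Dat.XI
    congr 1
    rw [Finset.filter_eq_self]
    intro k _
    by_cases h : D.d (ch k) = 1
    · exact Or.inl h
    · exact Or.inr fun h1 => h (Nat.dvd_one.1 h1)
  refine ⟨ch, v, hch, hprim, by rw [hXS]; exact hess, ?_⟩
  have hmn := hess.pos
  have hmn' : (LF.mn D.W v : ℂ) ≠ 0 := by exact_mod_cast hmn.ne'
  have hE' : (D.E : ℂ) ≠ 0 := by exact_mod_cast hE.ne'
  rw [← Complex.exp_nat_mul, ← Complex.exp_sum, ← Complex.exp_add]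
  have hsC : (s₀ : ℂ) = -(D.E * (D.sig ch v : ℚ)) / (LF.mn D.W v : ℂ) := by
    rw [hs₀]
    push_cast
    rfl
  have hsigC : ((D.sig ch v : ℚ) : ℂ) = (LF.nu D.av v : ℂ) - ∑ k ∈ D.KX, (v (Sum.inr k) : ℂ) +
      ∑ k ∈ D.KX, (v (Sum.inr k) : ℂ) / D.d (ch k) := by
    unfold Dat.sig
    push_cast
    rfl
  have harg : (LF.mn D.W v : ℂ) * (2 * Real.pi * Complex.I * (s₀ / D.E)) +
      ∑ k ∈ D.KX, 2 * Real.pi * Complex.I * (((1 : ℕ) : ℂ) * v (Sum.inr k) / D.d (ch k)) =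
      (((∑ k ∈ D.KX, (v (Sum.inr k) : ℤ)) - (LF.nu D.av v : ℤ) : ℤ) : ℂ) *
        (2 * Real.pi * Complex.I) := by
    rw [← Finset.mul_sum, hsC, hsigC]
    push_cast
    simp only [one_mul]
    field_simp
    ring
  rw [harg]
  exact Complex.exp_int_mul_two_pi_mul_I _

end LFM
end MotMono
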