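import Pool.Agent.Lib.MP_4e5fcd_ag.LFM.PB
import Pool.Agent.Lib.MP_4e5fcd_ag.LFM.GF1
import Pool.Agent.Lib.MP_4e5fcd_ag.LF.P8

/-!
# LFM-PX: generating functions of weighted sums over patterns

`D = sup w S ∪ X` (`S` not empty). As LF/P7, LF/P8. Let `PATS` be the finite set of the patterns `P` (`allPat_p8`)
with `P.T ∈ 𝒯` which occur (`IsPat a w S D K mh P` for some `K, mh`) and for which NO `k ∈ X \ sup w S` is in all
`B ∈ P.BB`.
`patX_one`: for such `P`, fix a witness and `B₀ ∈ P.BB`; `inP_iffX`: `mh ↦ (K, mh|D')` is a bijection of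
`{mh | IsPat a w S D K mh P}` to the points of `InP (Zp ..) (Cp ..)` with `b none = K` (as `p7_bij`, LF/P7; inverse
`b ↦ clo a D' (b ∘ some)`). The extreme rays have `u none > 0` by `ray_zero` (`hDX` holds for `D`). `gf_polyX` with
the weights `ρ' none = 1`, `ρ' (some i) = ρ i`: `wtm ρ' b = ∏ ρ i ^ (mh i)` because `ρ i = 1` for `i ∉ D`
(`hρ`) and `b (some i) = mh i` on `D ⊆ D'`. Rays: `uh = clo a D' y` is primitive (`ray_prim`), `EssX`, `S ∪ T ⊆ Fc`,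
`mn w uh = u none`, `wtm ρ' u = wtm ρ uh`.
`T` and `S` are disjoint (`hP.T`).
`patX`: the coefficient `GX K`: a summand `mh` with `al ≠ 0` has the pattern `mkPat_p8` (`isPat_mkPat_p8`), and
`al = A P` (`al_pattern`), `φ (DT ..) mh = φ₀ P` (`hφ`). If some `k ∈ X \ sup w S` is in all `B ∈ P.BB`, `φ = 0`
(`hφ0`). So only `P ∈ PATS` contribute. Conversely, if `P ∈ PATS`, `IsPat a w S D K mh P`, then `mh i < lv K` for all
`i ∈ D'` and hence `mh i ≤ lv K` for all `i` (`mh = clo a D' mh`, `exists_clo_value`): `K + Hb ≤ lv K`; if `i ∈ D'`,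
`mh i ≥ lv K`, then for all `j ∈ D'` with `mh j ≥ mh i`: `w g j = 0` for `g ∈ S` (`mh j + 1 ≤ pair < K` otherwise) and
for `g ∈ T` (`pair < K + Hb`), so `j ∈ X \ sup w S`; `X` is independent, so `i` is in all `B ∈ P.BB` (as in
`ray_zero`), which is excluded. `closed`: `clo a univ mh = mh` follows from `clo a D' mh = mh` (`clo_of_clo`).
`wtm ρ (mh + 1) = wtm ρ mh * wtm ρ 1`. Sum over `P ∈ PATS` and multiply by the missing factors. For `K = 0` there is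
no `mh` with `Sx w S 0 mh` (`S` nonempty): `GX 0 = 0`.
-/

open MvPolynomial

namespace MotMono
namespace LFM

variable {I Γ : Type} [Fintype I] [Fintype Γ] {s : ℕ} {a : I → Fin s → ℂ} {w : Γ → I → ℕ}
  {S : Finset Γ} {X : Finset I}

open Classical in
private theorem px_sup {i : I} : i ∈ sup w S ↔ ∃ g ∈ S, w g i ≠ 0 := by
  unfold sup
  rw [Finset.mem_filter]
  exact ⟨fun h => h.2, fun h => ⟨Finset.mem_univ _, h⟩⟩

private theorem px_DT {D : Finset I} {T : Finset Γ} {i : I} :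
    i ∈ LF.DT w D T ↔ i ∈ D ∨ ∃ g ∈ T, w g i ≠ 0 := by
  classical
  unfold LF.DT
  rw [Finset.mem_filter]
  exact ⟨fun h => h.2, fun h => ⟨Finset.mem_univ _, h⟩⟩

private theorem px_wtm {R : Type*} [CommRing R] (ρ : I → R) {D' : Finset I}
    (hρ : ∀ i, i ∉ D' → ρ i = 1) (b : Option I → ℕ) (x : I → ℕ)
    (h : ∀ i ∈ D', x i = b (some i)) :
    wtm (fun o : Option I => o.elim 1 ρ) b = wtm ρ x := by
  unfold wtm
  rw [Fintype.prod_option]
  simp only [Option.elim_none, Option.elim_some, one_pow, one_mul]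
  refine Finset.prod_congr rfl fun i _ => ?_
  by_cases hi : i ∈ D'
  · rw [h i hi]
  · rw [hρ i hi, one_pow, one_pow]

private theorem px_wtm_succ {R : Type*} [CommRing R] (ρ : I → R) (x : I → ℕ) :
    wtm ρ (fun i => x i + 1) = wtm ρ x * wtm ρ 1 :=
  wtm_add ρ x 1

private theorem px_bij {D : Finset I} {K₁ : ℕ} {mh₁ : I → ℕ} {P : LF.Pat I Γ} (ha : ∀ i, a i ≠ 0)
    (hD : ∀ g ∈ S, ∀ i, w g i ≠ 0 → i ∈ D) (hP : LF.IsPat a w S D K₁ mh₁ P) {B₀ : Finset I}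
    (hB₀ : B₀ ∈ P.BB) (K : ℕ) (hK : 0 < K) :
    Set.BijOn (fun b : Option I → ℕ => LF.clo a (LF.DT w D P.T) (fun j => b (some j)))
      {b | LF.InP (LF.Zp w D P) (LF.Cp a w S D P B₀) b ∧ b none = K}
      {mh | LF.IsPat a w S D K mh P} := by
  classical
  refine ⟨?_, ?_, ?_⟩
  · rintro b ⟨hb, hbK⟩
    rw [inP_iffX ha hD hP hB₀] at hb
    obtain ⟨-, -, -, h4⟩ := hb
    rw [hbK] at h4
    exact h4
  · rintro b ⟨hb, hbK⟩ b' ⟨hb', hbK'⟩ hbb
    rw [inP_iffX ha hD hP hB₀] at hb hb'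
    obtain ⟨-, h2, h3, -⟩ := hb
    obtain ⟨-, h2', h3', -⟩ := hb'
    funext o
    cases o with
    | none => rw [hbK, hbK']
    | some i =>
      by_cases hi : i ∈ LF.DT w D P.T
      · rw [← h3 i hi, ← h3' i hi]
        exact congrFun hbb i
      · rw [h2 i hi, h2' i hi]
  · intro mh hmh
    have hmh' : LF.IsPat a w S D K mh P := hmh
    set b : Option I → ℕ := fun o => o.elim K (fun i => if i ∈ LF.DT w D P.T then mh i else 0)
      with hb
    have hclo : LF.clo a (LF.DT w D P.T) (fun j => b (some j)) = mh := by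
      funext i
      rw [LF.clo_congr (x' := mh) (by
        intro j hj
        simp only [hb, Option.elim_some, if_pos hj])]
      exact hmh'.closed i
    refine ⟨b, ⟨?_, rfl⟩, hclo⟩
    rw [inP_iffX ha hD hP hB₀]
    refine ⟨hK, ?_, ?_, ?_⟩
    · intro i hi
      simp only [hb, Option.elim_some, if_neg hi]
    · intro i hi
      rw [hclo]
      simp only [hb, Option.elim_some, if_pos hi]
    · rw [hclo]
      exact hmh'

open Classical in
/-- the generating function of one pattern -/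
theorem PX_one {R : Type*} [CommRing R] (ha : ∀ i, a i ≠ 0) (hS : S.Nonempty)
    (hX : LinearIndepOn ℂ a (X : Set I)) {K₁ : ℕ} {mh₁ : I → ℕ} {P : LF.Pat I Γ}
    (hP : LF.IsPat a w S (sup w S ∪ X) K₁ mh₁ P)
    (hN : ¬ ∃ k ∈ X, k ∉ sup w S ∧ ∀ B ∈ P.BB, k ∈ B)
    (ρ : I → R) (hρ : ∀ i, i ∉ sup w S ∪ X → ρ i = 1) :
    (∀ K, 0 < K → {mh | LF.IsPat a w S (sup w S ∪ X) K mh P}.Finite) ∧
    ∃ U : Finset (I → ℕ), (∀ u ∈ U, Prim u ∧ EssX a w X u ∧ S ⊆ LF.Fc w u ∧ P.T ⊆ LF.Fc w u) ∧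
      ∃ Q : Polynomial R,
        (∏ u ∈ U, (1 - PowerSeries.C (wtm ρ u) * PowerSeries.X ^ LF.mn w u)) *
          PowerSeries.mk (fun K => if K = 0 then 0 else
            ∑ᶠ (mh : I → ℕ) (_ : LF.IsPat a w S (sup w S ∪ X) K mh P), wtm ρ mh) =
        (Q : PowerSeries R) := by
  obtain ⟨g₀, hg₀⟩ := hS
  have : Nonempty Γ := ⟨g₀⟩
  set D : Finset I := sup w S ∪ X with hDdef
  have hD : ∀ g ∈ S, ∀ i, w g i ≠ 0 → i ∈ D := fun g hg i hi =>
    Finset.mem_union_left _ (px_sup.2 ⟨g, hg, hi⟩)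
  have hDX : ∀ i ∈ D, i ∈ X ∨ ∃ g ∈ S, w g i ≠ 0 := fun i hi =>
    (Finset.mem_union.1 hi).symm.imp id px_sup.1
  have hρ' : ∀ i, i ∉ LF.DT w D P.T → ρ i = 1 := fun i hi =>
    hρ i fun h => hi (px_DT.2 (Or.inl h))
  obtain ⟨B₀, hB₀⟩ := LF.BB_nonempty hP
  obtain ⟨U₁, hU, hprim⟩ := exists_ext_rays (LF.Zp w D P) ((LF.Cp a w S D P B₀).image Prod.fst)
  have hray : ∀ u ∈ U₁, RayB a w S D P B₀ u := fun u hu =>
    ray_basic ha hD hP hB₀ (hprim u hu).2.zero (hprim u hu).2.nonneg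
  have hpos : ∀ u ∈ U₁, 0 < u none := by
    intro u hu
    by_contra h0
    have h0' : u none = 0 := by omega
    have hne := (hprim u hu).2.ne
    obtain ⟨o, ho⟩ : ∃ o, u o ≠ 0 := by
      by_contra hcon
      push Not at hcon
      exact hne (funext hcon)
    cases o with
    | none => exact ho h0'
    | some k =>
      obtain ⟨h1, h2, h3⟩ := ray_zero hX hDX (hray u hu) h0' k ho
      refine hN ⟨k, h1, ?_, h3⟩
      intro hk
      obtain ⟨g, hg, hgk⟩ := px_sup.1 hk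
      exact hgk (h2 g (Or.inl hg))
  have hess : ∀ u ∈ U₁, LF.mn w (LF.clo a (LF.DT w D P.T) fun j => u (some j)) = u none ∧
      S ⊆ LF.Fc w (LF.clo a (LF.DT w D P.T) fun j => u (some j)) ∧
      P.T ⊆ LF.Fc w (LF.clo a (LF.DT w D P.T) fun j => u (some j)) ∧
      EssX a w X (LF.clo a (LF.DT w D P.T) fun j => u (some j)) := fun u hu =>
    ray_essX ha hD hDX hP hB₀ (hprim u hu).2 (hpos u hu)
  obtain ⟨hfin, Q, hQ⟩ := gf_polyX (fun o : Option I => o.elim 1 ρ) none (LF.Zp w D P)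
    (LF.Cp a w S D P B₀) U₁ (by convert hU) hpos
  refine ⟨?_, ?_⟩
  · intro K hK
    have h := px_bij ha hD hP hB₀ K hK
    rw [← h.image_eq]
    exact (hfin K).image _
  set ψ : (Option I → ℕ) → (I → ℕ) := fun b => LF.clo a (LF.DT w D P.T) (fun j => b (some j))
    with hψ
  have hinj : Set.InjOn ψ (U₁ : Set (Option I → ℕ)) := by
    intro u hu u' hu' h
    have r := hray u hu
    have r' := hray u' hu'
    funext o
    cases o with
    | none =>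
      have e1 := (hess u hu).1
      have e2 := (hess u' hu').1
      have e3 : LF.mn w (ψ u) = LF.mn w (ψ u') := by rw [h]
      rw [← e1, ← e2]
      exact e3
    | some i =>
      by_cases hi : i ∈ LF.DT w D P.T
      · rw [← r.clo i hi, ← r'.clo i hi]
        exact congrFun h i
      · rw [r.zero i hi, r'.zero i hi]
  refine ⟨U₁.image ψ, ?_, Q, ?_⟩
  · intro v hv
    rw [Finset.mem_image] at hv
    obtain ⟨u, hu, rfl⟩ := hv
    exact ⟨ray_prim (hray u hu) ⟨g₀, Or.inl hg₀⟩ (hprim u hu).1, (hess u hu).2.2.2,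
      (hess u hu).2.1, (hess u hu).2.2.1⟩
  · rw [Finset.prod_image hinj, ← hQ]
    congr 1
    · refine Finset.prod_congr rfl fun u hu => ?_
      have r := hray u hu
      have e1 : LF.mn w (ψ u) = u none := (hess u hu).1
      have e2 : wtm (fun o : Option I => o.elim 1 ρ) u = wtm ρ (ψ u) :=
        px_wtm ρ hρ' u (ψ u) r.clo
      rw [e1, e2]
    · congr 1
      funext K
      rcases Nat.eq_zero_or_pos K with hK | hK
      · rw [if_pos hK, hK]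
        symm
        apply finsum_eq_zero_of_forall_eq_zero
        intro b
        have hn : ¬ (LF.InP (LF.Zp w D P) (LF.Cp a w S D P B₀) b ∧ b none = 0) := by
          rintro ⟨h1, h2⟩
          have h3 := ((inP_iffX ha hD hP hB₀ b).mp h1).1
          rw [h2] at h3
          exact absurd h3 (by norm_num)
        rw [finsum_eq_if, if_neg hn]
      · rw [if_neg hK.ne']
        have key : ∀ b ∈ {b | LF.InP (LF.Zp w D P) (LF.Cp a w S D P B₀) b ∧ b none = K},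
            (fun b => wtm (fun o : Option I => o.elim 1 ρ) b) b =
              (fun mh => wtm ρ mh) (ψ b) := ?_
        · exact (finsum_mem_eq_of_bijOn (f := fun b => wtm (fun o : Option I => o.elim 1 ρ) b)
            (g := fun mh => wtm ρ mh) ψ (px_bij ha hD hP hB₀ K hK) key).symm
        rintro b ⟨hb, hbK⟩
        simp only
        rw [inP_iffX ha hD hP hB₀] at hb
        obtain ⟨-, h2, h3, h4⟩ := hb
        exact px_wtm ρ hρ' b (ψ b) h3

/-- membership in the levels for a vector with a pattern -/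
private theorem px_small (hX : LinearIndepOn ℂ a (X : Set I)) {D : Finset I}
    (hDX : ∀ i ∈ D, i ∈ X ∨ ∃ g ∈ S, w g i ≠ 0) {K : ℕ} {mh : I → ℕ} {P : LF.Pat I Γ}
    (hP : LF.IsPat a w S D K mh P)
    (hN : ¬ ∃ k ∈ X, (¬ ∃ g ∈ S, w g k ≠ 0) ∧ ∀ B ∈ P.BB, k ∈ B) {lK : ℕ}
    (hlv : K + LF.Hb w ≤ lK) (i : I) (hi : i ∈ LF.DT w D P.T) : mh i < lK := by
  classical
  by_contra hcon
  push Not at hcon
  -- the large indices are in `X`
  have hbig : ∀ j ∈ LF.DT w D P.T, lK ≤ mh j → j ∈ X ∧ ¬ ∃ g ∈ S, w g j ≠ 0 := by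
    intro j hj hjK
    have e0 : ∀ g : Γ, w g j ≠ 0 → mh j + 1 ≤ pair (w g) (fun i => mh i + 1) := by
      intro g hg
      have e2 : w g j * (mh j + 1) ≤ pair (w g) (fun i => mh i + 1) := by
        unfold pair
        exact Finset.single_le_sum (f := fun i => w g i * (mh i + 1)) (fun i _ => Nat.zero_le _)
          (Finset.mem_univ j)
      have e3 : 1 * (mh j + 1) ≤ w g j * (mh j + 1) :=
        Nat.mul_le_mul_right _ (Nat.one_le_iff_ne_zero.mpr hg)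
      omega
    have hSj : ¬ ∃ g ∈ S, w g j ≠ 0 := by
      rintro ⟨g, hg, hgj⟩
      have e1 := hP.sx g hg
      have e2 := e0 g hgj
      omega
    refine ⟨?_, hSj⟩
    rcases px_DT.1 hj with h | ⟨g, hg, hgj⟩
    · rcases hDX j h with h | h
      · exact h
      · exact absurd h hSj
    · exfalso
      have e1 := ((hP.T g).1 hg).2
      have e2 := e0 g hgj
      omega
  refine hN ⟨i, (hbig i hi hcon).1, (hbig i hi hcon).2, ?_⟩
  intro B hB
  have hM := (hP.BB B).1 hB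
  have h1 := hM.2 i hi
  have h2 : {b | b ∈ B ∧ mh i ≤ mh b} ⊆ (X : Set I) := by
    rintro b ⟨hb, hbi⟩
    exact Finset.mem_coe.2 (hbig b (hM.1.1 hb) (hcon.trans hbi)).1
  have h3 : i ∈ {b | b ∈ B ∧ mh i ≤ mh b} := by
    by_contra hnot
    have hins : insert i {b | b ∈ B ∧ mh i ≤ mh b} ⊆ (X : Set I) :=
      Set.insert_subset (Finset.mem_coe.2 (hbig i hi hcon).1) h2
    exact (hX.mono hins).notMem_span_of_insert hnot h1
  exact h3.1

open Classical in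
/-- the coefficient of the generating function as a sum over patterns -/
private theorem px_GX_eq [Nonempty Γ] {R : Type*} [CommRing R] (ha : ∀ i, a i ≠ 0)
    (hX : LinearIndepOn ℂ a (X : Set I)) (𝒯 : Set (Finset Γ)) (φ : Finset I → (I → ℕ) → R)
    (hφ : ∀ (D' : Finset I) (x x' : I → ℕ), sup w S ∪ X ⊆ D' →
      (∀ B, LF.MaxB a D' x B ↔ LF.MaxB a D' x' B) → φ D' x = φ D' x')
    (hφ0 : ∀ (D' : Finset I) (x : I → ℕ) (k : I), sup w S ∪ X ⊆ D' → k ∈ X → k ∉ sup w S →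
      (∀ B, LF.MaxB a D' x B → k ∈ B) → φ D' x = 0)
    (ρ : I → R) (lv : ℕ → ℕ) (hlv : ∀ K, K + LF.Hb w ≤ lv K) (A : LF.Pat I Γ → ℤ)
    (hA : ∀ (K : ℕ) (mh : I → ℕ) (P : LF.Pat I Γ), LF.IsPat a w S (sup w S ∪ X) K mh P →
      LF.al a (sup w S ∪ X) (LF.ucf w Sᶜ K) mh = A P) (PATS : Finset (LF.Pat I Γ))
    (hPATS : ∀ P, P ∈ PATS ↔ P ∈ LF.allPat_p8 I w ∧ P.T ∈ 𝒯 ∧
      (∃ K mh, LF.IsPat a w S (sup w S ∪ X) K mh P) ∧
      ¬ ∃ k ∈ X, k ∉ sup w S ∧ ∀ B ∈ P.BB, k ∈ B)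
    (φ₀ : LF.Pat I Γ → R)
    (hφ₀ : ∀ P ∈ PATS, ∃ K mh, LF.IsPat a w S (sup w S ∪ X) K mh P ∧
      φ₀ P = φ (LF.DT w (sup w S ∪ X) P.T) mh)
    (hfin : ∀ K, ∀ P ∈ PATS, 0 < K → {mh | LF.IsPat a w S (sup w S ∪ X) K mh P}.Finite)
    (K : ℕ) (hK : 0 < K) :
    GX a w S X 𝒯 φ ρ lv K = ∑ P ∈ PATS, (A P : R) * φ₀ P * wtm ρ 1 *
      ∑ᶠ (mh : I → ℕ) (_ : LF.IsPat a w S (sup w S ∪ X) K mh P), wtm ρ mh := by
  set D : Finset I := sup w S ∪ X with hDdef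
  have hDX : ∀ i ∈ D, i ∈ X ∨ ∃ g ∈ S, w g i ≠ 0 := fun i hi =>
    (Finset.mem_union.1 hi).symm.imp id px_sup.1
  have hDD : ∀ P : LF.Pat I Γ, D ⊆ LF.DT w D P.T := fun P i hi => px_DT.2 (Or.inl hi)
  obtain ⟨F, hF⟩ : ∃ F : LF.Pat I Γ → Finset (I → ℕ), ∀ P ∈ PATS, ∀ mh,
      mh ∈ F P ↔ LF.IsPat a w S D K mh P := by
    refine ⟨fun P => if h : P ∈ PATS then (hfin K P h hK).toFinset else ∅, ?_⟩
    intro P hP mh
    simp only [dif_pos hP, Set.Finite.mem_toFinset]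
    rfl
  have h1 : ∀ P ∈ PATS, ∑ᶠ (mh : I → ℕ) (_ : LF.IsPat a w S D K mh P), wtm ρ mh =
      ∑ mh ∈ F P, wtm ρ mh := by
    intro P hP
    refine (finsum_mem_eq_finite_toFinset_sum (s := {mh | LF.IsPat a w S D K mh P})
      (fun mh => wtm ρ mh) (hfin K P hP hK)).trans ?_
    refine Finset.sum_congr ?_ fun _ _ => rfl
    ext mh
    rw [Set.Finite.mem_toFinset, hF P hP]
    rfl
  have h2 : ∑ P ∈ PATS, (A P : R) * φ₀ P * wtm ρ 1 *
      ∑ᶠ (mh : I → ℕ) (_ : LF.IsPat a w S D K mh P), wtm ρ mh =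
      ∑ x ∈ PATS.sigma F, (A x.1 : R) * φ₀ x.1 * wtm ρ 1 * wtm ρ x.2 := by
    rw [Finset.sum_sigma]
    refine Finset.sum_congr rfl fun P hP => ?_
    rw [h1 P hP, Finset.mul_sum]
  rw [h2]
  unfold GX
  -- the facts about a pair with a pattern
  have hpat : ∀ P ∈ PATS, ∀ mh, LF.IsPat a w S D K mh P →
      ((∀ i, LF.clo a Finset.univ mh i = mh i) ∧ LF.Sx w S K mh ∧ LF.TT w Sᶜ K mh ∈ 𝒯 ∧
        ∀ i ∈ sup w S ∪ X, mh i < lv K) ∧
      (A P : R) * φ₀ P * wtm ρ 1 * wtm ρ mh =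
        (LF.al a D (LF.ucf w Sᶜ K) mh : R) * φ (LF.DT w D (LF.TT w Sᶜ K mh)) mh *
          wtm ρ (fun i => mh i + 1) := by
    intro P hP mh h
    have hTT : LF.TT w Sᶜ K mh = P.T := by
      ext g
      rw [LF.mem_TT_p8, h.T]
    have hcl : ∀ i, LF.clo a Finset.univ mh i = mh i :=
      LF.clo_of_clo ha (Finset.subset_univ _) h.closed
    obtain ⟨K₁, mh₁, hw1, hw2⟩ := hφ₀ P hP
    refine ⟨⟨hcl, h.sx, ?_, ?_⟩, ?_⟩
    · rw [hTT]
      exact ((hPATS P).mp hP).2.1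
    · intro i hi
      refine px_small hX hDX h ?_ (hlv K) i (hDD P hi)
      rintro ⟨k, hk1, hk2, hk3⟩
      exact ((hPATS P).mp hP).2.2.2 ⟨k, hk1, fun hk => hk2 (px_sup.1 hk), hk3⟩
    · rw [hTT, hA K mh P h, hw2, px_wtm_succ]
      have h3 : φ (LF.DT w D P.T) mh₁ = φ (LF.DT w D P.T) mh := by
        refine hφ _ _ _ (hDD P) ?_
        intro B
        rw [← hw1.BB, ← h.BB]
      rw [h3]
      ring
  symm
  refine Finset.sum_bij_ne_zero (fun x _ _ => x.2) ?_ ?_ ?_ ?_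
  · rintro ⟨P, mh⟩ hx hne
    rw [Finset.mem_sigma] at hx
    obtain ⟨hP, h⟩ := hx
    dsimp only at hP h hne ⊢
    rw [hF P hP] at h
    rw [Fintype.mem_piFinset]
    intro i
    rw [Finset.mem_range]
    rcases Nat.eq_zero_or_pos (mh i) with h0 | h0
    · omega
    · have e1 := h.closed i
      rw [← e1] at h0
      obtain ⟨j, hj, hji⟩ := LF.exists_clo_value (ha i) h0
      have e2 : mh j < lv K := by
        refine px_small hX hDX h ?_ (hlv K) j hj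
        rintro ⟨k, hk1, hk2, hk3⟩
        exact ((hPATS P).mp hP).2.2.2 ⟨k, hk1, fun hk => hk2 (px_sup.1 hk), hk3⟩
      rw [← e1, ← hji]
      omega
  · rintro ⟨P, mh⟩ hx _ ⟨P', mh'⟩ hx' _ heq
    rw [Finset.mem_sigma] at hx hx'
    dsimp only at heq hx hx'
    subst heq
    have h : LF.IsPat a w S D K mh P := (hF P hx.1 mh).1 hx.2
    have h' : LF.IsPat a w S D K mh P' := (hF P' hx'.1 mh).1 hx'.2
    rw [h.unique_p8 h']
  · intro mh hmh hne
    have hcond : (∀ i, LF.clo a Finset.univ mh i = mh i) ∧ LF.Sx w S K mh ∧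
        LF.TT w Sᶜ K mh ∈ 𝒯 ∧ ∀ i ∈ sup w S ∪ X, mh i < lv K := by
      by_contra hcon
      exact hne (if_neg hcon)
    rw [if_pos hcond] at hne
    have hal : LF.al a D (LF.ucf w Sᶜ K) mh ≠ 0 := by
      intro h0
      apply hne
      rw [h0]
      simp
    have hP := LF.isPat_mkPat_p8 ha (funext hcond.1) hcond.2.1 hal
    have hmem : LF.mkPat_p8 a w S D K mh ∈ PATS := by
      rw [hPATS]
      refine ⟨LF.mem_allPat_p8 LF.mkPat_off_lt_p8, hcond.2.2.1, ⟨K, mh, hP⟩, ?_⟩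
      rintro ⟨k, hk1, hk2, hk3⟩
      apply hne
      rw [hφ0 (LF.DT w D (LF.TT w Sᶜ K mh)) mh k (hDD (LF.mkPat_p8 a w S D K mh)) hk1 hk2
        (fun B hB => hk3 B ((hP.BB B).2 hB))]
      simp
    refine ⟨⟨LF.mkPat_p8 a w S D K mh, mh⟩, ?_, ?_, rfl⟩
    · rw [Finset.mem_sigma]
      exact ⟨hmem, (hF _ hmem mh).2 hP⟩
    · dsimp only
      rw [(hpat _ hmem mh hP).2]
      exact hne
  · rintro ⟨P, mh⟩ hx _
    rw [Finset.mem_sigma] at hx
    dsimp only at hx ⊢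
    have h : LF.IsPat a w S D K mh P := (hF P hx.1 mh).1 hx.2
    obtain ⟨hc, he⟩ := hpat P hx.1 mh h
    rw [if_pos hc]
    exact he

open Classical in
theorem patX {R : Type*} [CommRing R] (ha : ∀ i, a i ≠ 0) (hS : S.Nonempty)
    (hX : LinearIndepOn ℂ a (X : Set I)) (𝒯 : Set (Finset Γ)) (φ : Finset I → (I → ℕ) → R)
    (hφ : ∀ (D' : Finset I) (x x' : I → ℕ), sup w S ∪ X ⊆ D' →
      (∀ B, LF.MaxB a D' x B ↔ LF.MaxB a D' x' B) → φ D' x = φ D' x')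
    (hφ0 : ∀ (D' : Finset I) (x : I → ℕ) (k : I), sup w S ∪ X ⊆ D' → k ∈ X → k ∉ sup w S →
      (∀ B, LF.MaxB a D' x B → k ∈ B) → φ D' x = 0)
    (ρ : I → R) (hρ : ∀ i, i ∉ sup w S ∪ X → ρ i = 1) (lv : ℕ → ℕ)
    (hlv : ∀ K, K + LF.Hb w ≤ lv K) :
    ∃ U : Finset (I → ℕ), (∀ u ∈ U, Prim u ∧ EssX a w X u ∧ S ⊆ LF.Fc w u ∧
        ∃ T ∈ 𝒯, T ⊆ LF.Fc w u ∧ Disjoint T S) ∧
      ∃ Q : Polynomial R,
        (∏ u ∈ U, (1 - PowerSeries.C (wtm ρ u) * PowerSeries.X ^ LF.mn w u)) *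
          PowerSeries.mk (GX a w S X 𝒯 φ ρ lv) = (Q : PowerSeries R) := by
  have : Nonempty Γ := ⟨hS.choose⟩
  obtain ⟨A, hA⟩ := LF.al_pattern ha w S (sup w S ∪ X)
  obtain ⟨PATS, hPATS⟩ : ∃ PATS : Finset (LF.Pat I Γ), ∀ P, P ∈ PATS ↔
      P ∈ LF.allPat_p8 I w ∧ P.T ∈ 𝒯 ∧ (∃ K mh, LF.IsPat a w S (sup w S ∪ X) K mh P) ∧
      ¬ ∃ k ∈ X, k ∉ sup w S ∧ ∀ B ∈ P.BB, k ∈ B := by
    refine ⟨(LF.allPat_p8 I w).filter fun P => P.T ∈ 𝒯 ∧
      (∃ K mh, LF.IsPat a w S (sup w S ∪ X) K mh P) ∧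
      ¬ ∃ k ∈ X, k ∉ sup w S ∧ ∀ B ∈ P.BB, k ∈ B, fun P => ?_⟩
    rw [Finset.mem_filter]
  obtain ⟨φ₀, hφ₀⟩ : ∃ φ₀ : LF.Pat I Γ → R, ∀ P ∈ PATS, ∃ K mh,
      LF.IsPat a w S (sup w S ∪ X) K mh P ∧ φ₀ P = φ (LF.DT w (sup w S ∪ X) P.T) mh := by
    have h : ∀ P : LF.Pat I Γ, ∃ r : R, P ∈ PATS → ∃ K mh,
        LF.IsPat a w S (sup w S ∪ X) K mh P ∧ r = φ (LF.DT w (sup w S ∪ X) P.T) mh := by
      intro P
      by_cases hP : P ∈ PATS
      · obtain ⟨K, mh, h⟩ := ((hPATS P).mp hP).2.2.1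
        exact ⟨φ (LF.DT w (sup w S ∪ X) P.T) mh, fun _ => ⟨K, mh, h, rfl⟩⟩
      · exact ⟨0, fun h => absurd h hP⟩
    choose φ₀ h0 using h
    exact ⟨φ₀, h0⟩
  have hfin : ∀ K, ∀ P ∈ PATS, 0 < K →
      {mh | LF.IsPat a w S (sup w S ∪ X) K mh P}.Finite := by
    intro K P hP hK
    obtain ⟨K₁, mh₁, h⟩ := ((hPATS P).mp hP).2.2.1
    exact (PX_one ha hS hX h ((hPATS P).mp hP).2.2.2 ρ hρ).1 K hK
  have hone : ∀ P : LF.Pat I Γ, ∃ U : Finset (I → ℕ), P ∈ PATS →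
      (∀ u ∈ U, Prim u ∧ EssX a w X u ∧ S ⊆ LF.Fc w u ∧ P.T ⊆ LF.Fc w u) ∧
      ∃ Q : Polynomial R,
        (∏ u ∈ U, (1 - PowerSeries.C (wtm ρ u) * PowerSeries.X ^ LF.mn w u)) *
          PowerSeries.mk (fun K => if K = 0 then 0 else
            ∑ᶠ (mh : I → ℕ) (_ : LF.IsPat a w S (sup w S ∪ X) K mh P), wtm ρ mh) =
        (Q : PowerSeries R) := by
    intro P
    by_cases hP : P ∈ PATS
    · obtain ⟨K, mh, h⟩ := ((hPATS P).mp hP).2.2.1
      obtain ⟨U, hU⟩ := (PX_one ha hS hX h ((hPATS P).mp hP).2.2.2 ρ hρ).2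
      exact ⟨U, fun _ => hU⟩
    · exact ⟨∅, fun h => absurd h hP⟩
  choose UP hUP using hone
  refine ⟨PATS.biUnion UP, ?_, ?_⟩
  · intro u hu
    rw [Finset.mem_biUnion] at hu
    obtain ⟨P, hP, hu⟩ := hu
    obtain ⟨h1, h2, h3, h4⟩ := (hUP P hP).1 u hu
    obtain ⟨K, mh, h⟩ := ((hPATS P).mp hP).2.2.1
    refine ⟨h1, h2, h3, P.T, ((hPATS P).mp hP).2.1, h4, ?_⟩
    rw [Finset.disjoint_left]
    intro g hg
    exact ((h.T g).mp hg).1
  · have hser : PowerSeries.mk (GX a w S X 𝒯 φ ρ lv) =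
        PowerSeries.C (GX a w S X 𝒯 φ ρ lv 0) +
          ∑ P ∈ PATS, PowerSeries.C ((A P : R) * φ₀ P * wtm ρ 1) *
            PowerSeries.mk (fun K => if K = 0 then 0 else
              ∑ᶠ (mh : I → ℕ) (_ : LF.IsPat a w S (sup w S ∪ X) K mh P), wtm ρ mh) := by
      ext K
      rw [map_add, map_sum, PowerSeries.coeff_mk]
      rcases Nat.eq_zero_or_pos K with hK | hK
      · subst hK
        rw [PowerSeries.coeff_zero_C, Finset.sum_eq_zero, add_zero]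
        intro P _
        rw [PowerSeries.coeff_C_mul, PowerSeries.coeff_mk, if_pos rfl, mul_zero]
      · rw [PowerSeries.coeff_C, if_neg hK.ne', zero_add,
          px_GX_eq ha hX 𝒯 φ hφ hφ0 ρ lv hlv A hA PATS hPATS φ₀ hφ₀ hfin K hK]
        refine Finset.sum_congr rfl fun P _ => ?_
        rw [PowerSeries.coeff_C_mul, PowerSeries.coeff_mk, if_neg hK.ne']
    have hmem : (∏ u ∈ PATS.biUnion UP,
        (1 - PowerSeries.C (wtm ρ u) * PowerSeries.X ^ LF.mn w u)) *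
          PowerSeries.mk (GX a w S X 𝒯 φ ρ lv) ∈ LF.PSub_p8 R := by
      rw [hser, mul_add, Finset.mul_sum]
      refine (LF.PSub_p8 R).add_mem ((LF.PSub_p8 R).mul_mem (LF.prodfac_mem_PSub_p8 _ _ _)
        (LF.C_mem_PSub_p8 _)) (Subring.sum_mem _ fun P hP => ?_)
      obtain ⟨Q, hQ⟩ := (hUP P hP).2
      have hsub : UP P ⊆ PATS.biUnion UP := Finset.subset_biUnion_of_mem UP hP
      rw [← Finset.prod_sdiff hsub]
      have hre : ∀ x y c z : PowerSeries R, x * y * (c * z) = x * c * (y * z) := by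
        intro x y c z
        ring
      rw [hre, hQ]
      exact (LF.PSub_p8 R).mul_mem ((LF.PSub_p8 R).mul_mem (LF.prodfac_mem_PSub_p8 _ _ _)
        (LF.C_mem_PSub_p8 _)) (LF.mem_PSub_p8.mpr ⟨Q, rfl⟩)
    exact LF.mem_PSub_p8.mp hmem

end LFM
end MotMono
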