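import Pool.Agent.Lib.MP_4e5fcd_ag.LFM.X3

/-!
# LFM-S1: contact jets and the data on the side of the monomials

Partition `CX C n₁ n S t` by `v = vv (yj γ)` (`≤ n`, `LF.vv_le`); the conditions `Sx`, `UC` depend on `v` only
(`UC W Sᶜ (n₁ + 1) v` is the condition for all `g ∉ S`). If `Sx W S (n₁ + 1) v` holds, then
`pair (W g) (v + 1) = n₁` for `g ∈ S`, so `v i + 1 ≤ n₁ ≤ n` if `w g i ≠ 0` (`W g i ≥ 1` as `dh i ∣ E`,
`E > 0`); so `v i < n` for `i ∈ Act S`, and for `i ∈ K`, `g ∈ S`, `w g i ≠ 0` implies `i ∈ Act S`. So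
`∏ lx γ i ^ w g i` has `lx γ i = lead1 ..` for `i ∈ Act S`, `lc i` for `i ∉ K`, exponent `0` for the other `i ∈ K`:
the condition is `Sum.elim (..) (lc ..) ∈ Rt S t` for the vector in `A0 C (Act S) n v (Rt S t)`.
`Act S ⊆ K \ C` by `hcp` (`C ⊆ Lam`). Then `xyv`. `constr_Rt`: polynomial equations.
`cls_biUnion` (or induction) for the partition.
-/

open MvPolynomial

namespace MotMono
namespace LFM

variable {I Γ : Type} [Fintype I] [Fintype Γ] {N s : ℕ} (L : MLoc I Γ N s)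

theorem constr_Rt (S : Finset Γ) (t : Γ → ℂ) : Constr (L.Rt S t) := by
  classical
  have : L.Rt S t = ⋂ g ∈ S, {z : I ⊕ I → ℂ |
      eval z (∏ i, (if i ∈ L.K then X (Sum.inl i) else X (Sum.inr i)) ^ L.w g i) =
        eval z (C (t g))} := by
    ext z
    simp only [MLoc.Rt, Set.mem_ofPred_eq, Set.mem_iInter, map_prod, map_pow, eval_C]
    refine forall₂_congr fun g _ => ?_
    have h1 : ∀ i, eval z (if i ∈ L.K then X (Sum.inl i) else X (Sum.inr i)) =
        if i ∈ L.K then z (Sum.inl i) else z (Sum.inr i) := by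
      intro i
      split_ifs <;> rw [eval_X]
    simp only [h1]
  rw [this]
  exact constr_biInter_finset S fun g _ => constr_eq _ _

omit [Fintype I] [Fintype Γ] in
private theorem s1_W {g : Γ} {i : I} (hi : L.w g i ≠ 0) : 1 ≤ L.W g i := by
  classical
  have h1 : 0 < L.E / L.dh i := by
    unfold MLoc.dh
    split_ifs with h
    · exact Nat.div_pos (Nat.le_of_dvd L.hE (L.hdE i h)) (L.hd _)
    · simpa using L.hE
  exact Nat.mul_pos h1 (Nat.pos_of_ne_zero hi)

theorem act_lt {S : Finset Γ} {n₁ : ℕ} {v : I → ℕ} (h : LF.Sx L.W S (n₁ + 1) v) {g : Γ}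
    (hg : g ∈ S) {i : I} (hi : L.w g i ≠ 0) : v i < n₁ := by
  have h1 := h g hg
  have h2 := s1_W L hi
  have h3 : L.W g i * (v i + 1) ≤ pair (L.W g) (fun i => v i + 1) := by
    unfold pair
    exact Finset.single_le_sum (f := fun i => L.W g i * (v i + 1)) (fun _ _ => Nat.zero_le _)
      (Finset.mem_univ i)
  have h4 : v i + 1 ≤ L.W g i * (v i + 1) := Nat.le_mul_of_pos_left _ h2
  omega

open Classical in
theorem act_sub {C : Finset I} (hC : C ⊆ L.Lam) (S : Finset Γ) : L.Act S ⊆ L.K \ C := by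
  intro i hi
  simp only [MLoc.Act, Finset.mem_filter] at hi
  obtain ⟨hK, g, -, hgi⟩ := hi
  rw [Finset.mem_sdiff]
  refine ⟨hK, fun hiC => hgi ?_⟩
  have h1 := hC hiC
  simp only [MLoc.Lam, Finset.mem_filter] at h1
  exact (L.hcp i hK h1.2).2.2 g

open Classical in
private theorem s1_eq (C : Finset I) (n₁ n : ℕ) (S : Finset Γ) (t : Γ → ℂ) :
    L.CX C n₁ n S t = ⋃ v ∈ (Fintype.piFinset fun _ : I => Finset.range (n + 1)).filter
      (fun v => LF.Sx L.W S (n₁ + 1) v ∧ LF.UC L.W Sᶜ (n₁ + 1) v),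
      L.A0 C (L.Act S) n v (L.Rt S t) := by
  have hkey : ∀ γ : Fin N × Fin (n + 1) → ℂ, ∀ g ∈ S, ∏ i, L.lx γ i ^ L.w g i =
      ∏ i, (if i ∈ L.K then
        (Sum.elim (fun i => if i ∈ L.Act S then Mon.lead1 (fun j => γ (L.ch i, j)) else 1)
          (LF.lc L.a (yj L.β L.d γ)) : I ⊕ I → ℂ) (Sum.inl i) else
        (Sum.elim (fun i => if i ∈ L.Act S then Mon.lead1 (fun j => γ (L.ch i, j)) else 1)
          (LF.lc L.a (yj L.β L.d γ)) : I ⊕ I → ℂ) (Sum.inr i)) ^ L.w g i := by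
    intro γ g hg
    refine Finset.prod_congr rfl fun i _ => ?_
    by_cases hi : L.w g i = 0
    · rw [hi, pow_zero, pow_zero]
    · congr 1
      unfold MLoc.lx
      by_cases hK : i ∈ L.K
      · have hA : i ∈ L.Act S := by
          simp only [MLoc.Act, Finset.mem_filter]
          exact ⟨hK, g, hg, hi⟩
        simp only [if_pos hK, Sum.elim_inl, if_pos hA]
      · simp only [if_neg hK, Sum.elim_inr]
  ext γ
  simp only [Set.mem_iUnion, Finset.mem_filter, Fintype.mem_piFinset, Finset.mem_range,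
    exists_prop]
  constructor
  · rintro ⟨h1, h2, h3, h4⟩
    refine ⟨LF.vv L.a (yj L.β L.d γ), ⟨fun i => Nat.lt_succ_of_le (LF.vv_le _ _ i), h2,
      fun g hg => h3 g (by simpa using hg)⟩, h1, rfl, fun g hg => ?_⟩
    rw [← hkey γ g hg]
    exact h4 g hg
  · rintro ⟨v, ⟨-, h2, h3⟩, h1, rfl, h4⟩
    refine ⟨h1, h2, fun g hg => h3 g (by simpa using hg), fun g hg => ?_⟩
    rw [hkey γ g hg]
    exact h4 g hg

theorem constr_CX (C : Finset I) (n₁ n : ℕ) (h : n₁ ≤ n) (S : Finset Γ) (t : Γ → ℂ) :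
    Constr (L.CX C n₁ n S t) := by
  classical
  rw [s1_eq]
  exact constr_biUnion _ fun v _ => constr_A0 L C _ n v (constr_Rt L S t)

open Classical in
theorem chi_CX {χ : K0 →+* ℤ} (hχ : IsEulerChar χ) {C : Finset I} (hC : C ⊆ L.Lam) {n₁ n : ℕ}
    (h : n₁ ≤ n) (S : Finset Γ) (t : Γ → ℂ) :
    χ (cls (L.CX C n₁ n S t)) = ∑ v ∈ Fintype.piFinset fun _ : I => Finset.range (n + 1),
      if LF.Sx L.W S (n₁ + 1) v ∧ LF.UC L.W Sᶜ (n₁ + 1) v then
        L.wt C (L.Act S) n v * χ (cls (L.YV (L.Act S) n v (L.Rt S t)))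
      else 0 := by
  rw [s1_eq, cls_biUnion _ (fun v _ => constr_A0 L C _ n v (constr_Rt L S t)), map_sum,
    ← Finset.sum_filter]
  · refine Finset.sum_congr rfl fun v hv => ?_
    simp only [Finset.mem_filter] at hv
    refine xyv L hχ hC (act_sub L hC S) (fun i hi => ?_) (constr_Rt L S t)
    simp only [MLoc.Act, Finset.mem_filter] at hi
    obtain ⟨-, g, hg, hgi⟩ := hi
    exact lt_of_lt_of_le (act_lt L hv.2.1 hg hgi) h
  · intro v _ v' _ hne
    rw [Set.disjoint_left]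
    rintro γ ⟨-, h1, -⟩ ⟨-, h2, -⟩
    exact hne (h1.symm.trans h2)

end LFM
end MotMono
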