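import Pool.Agent.Lib.MP_4e5fcd_ag.LFM.S1

/-!
# LFM-S2: expansion of the weights

For `v` with `Sx` put `A = Act S`. `[UC] = ∑_{T ⊆ Sᶜ} (-1) ^ |T| [pair (W g) (v + 1) ≤ n₁ for g ∈ T]`
(`Finset.prod_one_sub`-type identity: `∏_{g ∈ Sᶜ} (1 - [pair ≤ n₁])`);
`(v i < n : (d ∣ v i + 1 : d; 0); v i = n : 1) = 1 + [v i < n] om d (v i + 1)`, so the product over
`(K \ C) \ A` is `∑_Q ∏_{i ∈ Q} [v i < n] om ..` (`Finset.prod_one_add`); `[v i = n] = 1 - [v i < n]` gives
`∑_{Y ⊆ C} (-1) ^ |Y| ∏_Y [v i < n]`. So the summand of `v` in `chi_CX` is the sum over `T, Q, Y` of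
`(-1) ^ (|T| + |Y|)` `∏_Q om · ∏_A [d ∣ v i + 1]` times `χ (YV A n v (Rt S t))`, if `v` satisfies `Sx`, `≤ n₁` on `T`,
`v i < n` on `Q ∪ Y`. Put `D = DT W (sup W S ∪ Q ∪ Y) T`, `m = v` on `D`, `0` elsewhere: `Sx v ↔ Sx m`,
`pair (W g) (v + 1) = pair (W g) (m + 1)` for `g ∈ S ∪ T` (supports in `D`), `v i < n` on `D` (for `i ∈ sup S`: `act_lt`-like:
`W g i ≠ 0`, `v i + 1 ≤ n₁ ≤ n`; for `i ∈ sup T`: `v i + 1 ≤ pair ≤ n₁`). For fixed `m`:
`∑_{v = m on D} χ (YV A n v (Rt S t)) = χ (YK n S D m t)` (partition of `YK` by `vv`).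
`MTX` is the index set of the `m`.
-/

open MvPolynomial

namespace MotMono
namespace LFM

variable {I Γ : Type} [Fintype I] [Fintype Γ] {N s : ℕ} (L : MLoc I Γ N s)

open Classical in
/-- the index set of the strata -/
noncomputable def MLoc.MTX (S : Finset Γ) (D : Finset I) (n₁ n : ℕ) (T : Finset Γ) :
    Finset (I → ℕ) :=
  (Fintype.piFinset fun i => if i ∈ D then Finset.range n else {0}).filter fun m =>
    LF.Sx L.W S (n₁ + 1) m ∧ ∀ g ∈ T, (pair (L.W g) fun i => m i + 1) ≤ n₁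

omit [Fintype Γ] in
open Classical in
private theorem s2_YK {n : ℕ} (S : Finset Γ) {D : Finset I} {m : I → ℕ}
    (hm : ∀ i ∈ D, m i < n) (t : Γ → ℂ) :
    L.YK n S D m t = ⋃ v ∈ (Fintype.piFinset fun _ : I => Finset.range (n + 1)).filter
      (fun v => ∀ i ∈ D, v i = m i), L.YV (L.Act S) n v (L.Rt S t) := by
  ext z
  simp only [Set.mem_iUnion, Finset.mem_filter, Fintype.mem_piFinset, Finset.mem_range,
    exists_prop]
  constructor
  · rintro ⟨⟨h1, -, h2, -⟩, h3, h4, h5⟩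
    exact ⟨LF.vv L.a (fun q => z (Sum.inl q)), ⟨fun i => Nat.lt_succ_of_le (LF.vv_le _ _ i),
      fun i hi => (h2 i hi).1⟩, h1, rfl, h3, h4, h5⟩
  · rintro ⟨v, ⟨-, h2⟩, h1, rfl, h3, h4, h5⟩
    exact ⟨⟨h1, fun i hi => (h2 i hi).ge, fun i hi => ⟨h2 i hi, hm i hi⟩, trivial⟩, h3, h4, h5⟩

theorem constr_YK (n : ℕ) (S : Finset Γ) (D : Finset I) (m : I → ℕ) (t : Γ → ℂ) :
    Constr (L.YK n S D m t) := by
  classical
  by_cases hm : ∀ i ∈ D, m i < n
  · rw [s2_YK L S hm]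
    exact constr_biUnion _ fun v _ => constr_YV L _ n v (constr_Rt L S t)
  · have : L.YK n S D m t = ∅ := by
      ext z
      simp only [Set.mem_empty_iff_false, iff_false]
      rintro ⟨⟨-, -, h2, -⟩, -⟩
      exact hm fun i hi => (h2 i hi).2
    rw [this]
    exact constr_empty

open Classical in
private theorem s2_chi (χ : K0 →+* ℤ) {n : ℕ} (S : Finset Γ) {D : Finset I} {m : I → ℕ}
    (hm : ∀ i ∈ D, m i < n) (t : Γ → ℂ) :
    χ (cls (L.YK n S D m t)) = ∑ v ∈ (Fintype.piFinset fun _ : I => Finset.range (n + 1)).filter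
      (fun v => ∀ i ∈ D, v i = m i), χ (cls (L.YV (L.Act S) n v (L.Rt S t))) := by
  rw [s2_YK L S hm, cls_biUnion _ (fun v _ => constr_YV L _ n v (constr_Rt L S t)), map_sum]
  intro v _ v' _ hne
  rw [Set.disjoint_left]
  rintro z ⟨-, h1, -⟩ ⟨-, h2, -⟩
  exact hne (h1.symm.trans h2)

omit [Fintype Γ] in
private theorem s2_pair {w : Γ → I → ℕ} {D : Finset I} {m v : I → ℕ} {g : Γ}
    (hg : ∀ i, w g i ≠ 0 → i ∈ D) (h : ∀ i ∈ D, v i = m i) :
    (pair (w g) fun i => v i + 1) = pair (w g) fun i => m i + 1 := by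
  unfold pair
  refine Finset.sum_congr rfl fun i _ => ?_
  by_cases hi : w g i = 0
  · rw [hi, zero_mul, zero_mul]
  · simp only [h i (hg i hi)]

omit [Fintype I] [Fintype Γ] in
private theorem s2_W {g : Γ} {i : I} (hi : L.w g i ≠ 0) : L.W g i ≠ 0 := by
  classical
  have h1 : 0 < L.E / L.dh i := by
    unfold MLoc.dh
    split_ifs with h
    · exact Nat.div_pos (Nat.le_of_dvd L.hE (L.hdE i h)) (L.hd _)
    · simpa using L.hE
  exact (Nat.mul_pos h1 (Nat.pos_of_ne_zero hi)).ne'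

omit [Fintype I] [Fintype Γ] in
private theorem s2_w {g : Γ} {i : I} (hi : L.W g i ≠ 0) : L.w g i ≠ 0 := by
  intro h
  apply hi
  unfold MLoc.W
  rw [h, mul_zero]

omit [Fintype Γ] in
private theorem s2_small {w : Γ → I → ℕ} {v : I → ℕ} {g : Γ} {i : I} {n₁ : ℕ} (hi : w g i ≠ 0)
    (h : (pair (w g) fun i => v i + 1) ≤ n₁) : v i < n₁ := by
  have h3 : w g i * (v i + 1) ≤ pair (w g) (fun i => v i + 1) := by
    unfold pair
    exact Finset.single_le_sum (f := fun i => w g i * (v i + 1)) (fun _ _ => Nat.zero_le _)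
      (Finset.mem_univ i)
  have h4 : v i + 1 ≤ w g i * (v i + 1) := Nat.le_mul_of_pos_left _ (Nat.pos_of_ne_zero hi)
  omega

open Classical in
private theorem s2_inner (χ : K0 →+* ℤ) {n₁ n : ℕ} (h : n₁ ≤ n) (S : Finset Γ) (t : Γ → ℂ)
    (T : Finset Γ) (Q Y : Finset I) :
    (∑ v ∈ Fintype.piFinset fun _ : I => Finset.range (n + 1),
      if LF.Sx L.W S (n₁ + 1) v ∧ (∀ g ∈ T, (pair (L.W g) fun i => v i + 1) ≤ n₁) ∧
          (∀ i ∈ Q, v i < n) ∧ (∀ i ∈ Y, v i < n) then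
        (∏ i ∈ Q, om (L.d (L.ch i)) (v i + 1)) *
          (∏ i ∈ L.Act S, if L.d (L.ch i) ∣ v i + 1 then 1 else 0) *
          χ (cls (L.YV (L.Act S) n v (L.Rt S t)))
      else 0) =
      ∑ m ∈ L.MTX S (LF.DT L.W (sup L.W S ∪ Q ∪ Y) T) n₁ n T,
        (∏ i ∈ Q, om (L.d (L.ch i)) (m i + 1)) *
          (∏ i ∈ L.Act S, if L.d (L.ch i) ∣ m i + 1 then 1 else 0) *
          χ (cls (L.YK n S (LF.DT L.W (sup L.W S ∪ Q ∪ Y) T) m t)) := by
  set D := LF.DT L.W (sup L.W S ∪ Q ∪ Y) T with hD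
  have hDS : ∀ g ∈ S, ∀ i, L.W g i ≠ 0 → i ∈ D := by
    intro g hg i hi
    simp only [hD, LF.DT, sup, Finset.mem_filter, Finset.mem_union, Finset.mem_univ, true_and]
    exact Or.inl (Or.inl (Or.inl ⟨g, hg, hi⟩))
  have hDT : ∀ g ∈ T, ∀ i, L.W g i ≠ 0 → i ∈ D := by
    intro g hg i hi
    simp only [hD, LF.DT, Finset.mem_filter, Finset.mem_univ, true_and]
    exact Or.inr ⟨g, hg, hi⟩
  have hQD : ∀ i ∈ Q, i ∈ D := by
    intro i hi
    simp only [hD, LF.DT, Finset.mem_filter, Finset.mem_union, Finset.mem_univ, true_and]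
    exact Or.inl (Or.inl (Or.inr hi))
  have hYD : ∀ i ∈ Y, i ∈ D := by
    intro i hi
    simp only [hD, LF.DT, Finset.mem_filter, Finset.mem_union, Finset.mem_univ, true_and]
    exact Or.inl (Or.inr hi)
  have hAD : ∀ i ∈ L.Act S, i ∈ D := by
    intro i hi
    simp only [MLoc.Act, Finset.mem_filter] at hi
    obtain ⟨-, g, hg, hgi⟩ := hi
    exact hDS g hg i (s2_W L hgi)
  -- conditions only depend on the values on `D`
  have hcS : ∀ m v : I → ℕ, (∀ i ∈ D, v i = m i) →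
      (LF.Sx L.W S (n₁ + 1) v ↔ LF.Sx L.W S (n₁ + 1) m) := by
    intro m v hmv
    unfold LF.Sx
    refine forall₂_congr fun g hg => ?_
    rw [s2_pair (w := L.W) (hDS g hg) hmv]
  have hcT : ∀ m v : I → ℕ, (∀ i ∈ D, v i = m i) →
      ((∀ g ∈ T, (pair (L.W g) fun i => v i + 1) ≤ n₁) ↔
        ∀ g ∈ T, (pair (L.W g) fun i => m i + 1) ≤ n₁) := by
    intro m v hmv
    refine forall₂_congr fun g hg => ?_
    rw [s2_pair (w := L.W) (hDT g hg) hmv]
  rw [← Finset.sum_filter]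
  rw [← Finset.sum_fiberwise_of_maps_to (g := fun v : I → ℕ => fun i => if i ∈ D then v i else 0)
    (t := L.MTX S D n₁ n T)]
  · refine Finset.sum_congr rfl fun m hm => ?_
    simp only [MLoc.MTX, Finset.mem_filter, Fintype.mem_piFinset] at hm
    obtain ⟨hm1, hm2, hm3⟩ := hm
    have hmn : ∀ i ∈ D, m i < n := by
      intro i hi
      have := hm1 i
      rw [if_pos hi, Finset.mem_range] at this
      exact this
    have hm0 : ∀ i, i ∉ D → m i = 0 := by
      intro i hi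
      have := hm1 i
      rw [if_neg hi, Finset.mem_singleton] at this
      exact this
    rw [s2_chi L χ S hmn t, Finset.mul_sum]
    refine Finset.sum_congr ?_ fun v hv => ?_
    · ext v
      simp only [Finset.mem_filter]
      constructor
      · rintro ⟨⟨h1, -⟩, h2⟩
        refine ⟨h1, fun i hi => ?_⟩
        have h3 := congrFun h2 i
        simp only [if_pos hi] at h3
        exact h3
      · rintro ⟨h1, h2⟩
        refine ⟨⟨h1, (hcS m v h2).2 hm2, (hcT m v h2).2 hm3, fun i hi => ?_, fun i hi => ?_⟩, ?_⟩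
        · rw [h2 i (hQD i hi)]
          exact hmn i (hQD i hi)
        · rw [h2 i (hYD i hi)]
          exact hmn i (hYD i hi)
        · funext i
          split_ifs with hi
          · exact h2 i hi
          · exact (hm0 i hi).symm
    · simp only [Finset.mem_filter] at hv
      obtain ⟨-, h2⟩ := hv
      congr 2
      · exact Finset.prod_congr rfl fun i hi => by rw [h2 i (hQD i hi)]
      · exact Finset.prod_congr rfl fun i hi => by rw [h2 i (hAD i hi)]
  · intro v hv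
    simp only [Finset.mem_filter] at hv
    obtain ⟨-, h1, h2, h3, h4⟩ := hv
    have hvD : ∀ i ∈ D, (fun v : I → ℕ => fun i => if i ∈ D then v i else 0) v i = v i := by
      intro i hi
      simp only [if_pos hi]
    simp only [MLoc.MTX, Finset.mem_filter, Fintype.mem_piFinset]
    refine ⟨fun i => ?_, (hcS v _ hvD).2 h1, (hcT v _ hvD).2 h2⟩
    split_ifs with hi
    · rw [Finset.mem_range]
      simp only [hD, LF.DT, sup, Finset.mem_filter, Finset.mem_union, Finset.mem_univ,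
        true_and] at hi
      rcases hi with ((⟨g, hg, hgi⟩ | hi) | hi) | ⟨g, hg, hgi⟩
      · exact lt_of_lt_of_le (act_lt L h1 hg (s2_w L hgi)) h
      · exact h3 i hi
      · exact h4 i hi
      · exact lt_of_lt_of_le (s2_small hgi (h2 g hg)) h
    · exact Finset.mem_singleton_self 0

private theorem s2_tri {α β γ : Type*} (s : Finset α) (t : Finset β) (u : Finset γ) (f : α → ℤ)
    (g : β → ℤ) (h : γ → ℤ) (c : ℤ) :
    (∑ i ∈ s, f i) * (∑ j ∈ t, g j) * (∑ k ∈ u, h k) * c =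
      ∑ i ∈ s, ∑ j ∈ t, ∑ k ∈ u, f i * g j * h k * c := by
  rw [Finset.sum_mul_sum, Finset.sum_mul, Finset.sum_mul]
  refine Finset.sum_congr rfl fun i _ => ?_
  rw [Finset.sum_mul, Finset.sum_mul]
  refine Finset.sum_congr rfl fun j _ => ?_
  rw [Finset.mul_sum, Finset.sum_mul]

private theorem s2_alt {ι : Type} (s : Finset ι) (p : ι → Prop) [DecidablePred p] :
    (∏ i ∈ s, (1 - if p i then (1 : ℤ) else 0)) =
      ∑ T ∈ s.powerset, (-1) ^ T.card * ∏ i ∈ T, (if p i then (1 : ℤ) else 0) := by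
  classical
  have h1 : ∀ i, (1 - if p i then (1 : ℤ) else 0) = 1 + -1 * (if p i then (1 : ℤ) else 0) := by
    intro i
    ring
  simp only [h1]
  rw [Finset.prod_one_add]
  refine Finset.sum_congr rfl fun T _ => ?_
  rw [Finset.prod_mul_distrib, Finset.prod_const]

open Classical in
private theorem s2_point (χ : K0 →+* ℤ) {C : Finset I} {n₁ n : ℕ} (S : Finset Γ) (t : Γ → ℂ)
    (v : I → ℕ) :
    (if LF.Sx L.W S (n₁ + 1) v ∧ LF.UC L.W Sᶜ (n₁ + 1) v then
        L.wt C (L.Act S) n v * χ (cls (L.YV (L.Act S) n v (L.Rt S t)))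
      else 0) =
      ∑ T ∈ Sᶜ.powerset, ∑ Q ∈ ((L.K \ C) \ L.Act S).powerset, ∑ Y ∈ C.powerset,
        (-1) ^ (T.card + Y.card) *
          if LF.Sx L.W S (n₁ + 1) v ∧ (∀ g ∈ T, (pair (L.W g) fun i => v i + 1) ≤ n₁) ∧
              (∀ i ∈ Q, v i < n) ∧ (∀ i ∈ Y, v i < n) then
            (∏ i ∈ Q, om (L.d (L.ch i)) (v i + 1)) *
              (∏ i ∈ L.Act S, if L.d (L.ch i) ∣ v i + 1 then 1 else 0) *
              χ (cls (L.YV (L.Act S) n v (L.Rt S t)))
          else 0 := by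
  set P : ℤ := ∏ i ∈ L.Act S, if L.d (L.ch i) ∣ v i + 1 then 1 else 0 with hP
  set y : ℤ := χ (cls (L.YV (L.Act S) n v (L.Rt S t))) with hy
  by_cases hS : LF.Sx L.W S (n₁ + 1) v
  swap
  · simp only [hS, false_and, if_false, mul_zero, Finset.sum_const_zero]
  simp only [hS, true_and]
  have hT : (if LF.UC L.W Sᶜ (n₁ + 1) v then (1 : ℤ) else 0) =
      ∑ T ∈ Sᶜ.powerset, (-1) ^ T.card *
        ∏ g ∈ T, (if (pair (L.W g) fun i => v i + 1) ≤ n₁ then (1 : ℤ) else 0) := by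
    rw [← s2_alt]
    have h1 : ∀ g, (1 - if (pair (L.W g) fun i => v i + 1) ≤ n₁ then (1 : ℤ) else 0) =
        if n₁ + 1 ≤ (pair (L.W g) fun i => v i + 1) then 1 else 0 := by
      intro g
      by_cases hg : (pair (L.W g) fun i => v i + 1) ≤ n₁
      · rw [if_pos hg, if_neg (by omega)]
        ring
      · rw [if_neg hg, if_pos (by omega)]
        ring
    simp only [h1]
    rw [Finset.prod_ite_zero]
    simp only [Finset.prod_const_one]
    exact if_congr Iff.rfl rfl rfl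
  have hY : (∏ i ∈ C, if v i < n then (0 : ℤ) else 1) =
      ∑ Y ∈ C.powerset, (-1) ^ Y.card * ∏ i ∈ Y, (if v i < n then (1 : ℤ) else 0) := by
    rw [← s2_alt]
    refine Finset.prod_congr rfl fun i _ => ?_
    split_ifs <;> ring
  have hQ : (∏ i ∈ (L.K \ C) \ L.Act S,
      if v i < n then (if L.d (L.ch i) ∣ v i + 1 then (L.d (L.ch i) : ℤ) else 0) else 1) =
      ∑ Q ∈ ((L.K \ C) \ L.Act S).powerset,
        ∏ i ∈ Q, (if v i < n then om (L.d (L.ch i)) (v i + 1) else 0) := by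
    rw [← Finset.prod_one_add]
    refine Finset.prod_congr rfl fun i _ => ?_
    unfold om
    split_ifs <;> ring
  have hL : (if LF.UC L.W Sᶜ (n₁ + 1) v then L.wt C (L.Act S) n v * y else 0) =
      (if LF.UC L.W Sᶜ (n₁ + 1) v then (1 : ℤ) else 0) *
        (∏ i ∈ (L.K \ C) \ L.Act S,
          if v i < n then (if L.d (L.ch i) ∣ v i + 1 then (L.d (L.ch i) : ℤ) else 0) else 1) *
        (∏ i ∈ C, if v i < n then (0 : ℤ) else 1) * (P * y) := by
    unfold MLoc.wt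
    rw [← hP]
    split_ifs <;> ring
  rw [hL, hT, hQ, hY, s2_tri]
  refine Finset.sum_congr rfl fun T _ => ?_
  refine Finset.sum_congr rfl fun Q _ => ?_
  refine Finset.sum_congr rfl fun Y _ => ?_
  rw [Finset.prod_ite_zero, Finset.prod_ite_zero, Finset.prod_ite_zero, pow_add]
  by_cases h1 : ∀ g ∈ T, (pair (L.W g) fun i => v i + 1) ≤ n₁
  · by_cases h2 : ∀ i ∈ Q, v i < n
    · by_cases h3 : ∀ i ∈ Y, v i < n
      · rw [if_pos h1, if_pos h2, if_pos h3, if_pos ⟨h1, h2, h3⟩]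
        simp only [Finset.prod_const_one]
        ring
      · have h4 : ¬ ((∀ g ∈ T, (pair (L.W g) fun i => v i + 1) ≤ n₁) ∧ (∀ i ∈ Q, v i < n) ∧
          ∀ i ∈ Y, v i < n) := fun h => h3 h.2.2
        rw [if_neg h3, if_neg h4]
        ring
    · have h4 : ¬ ((∀ g ∈ T, (pair (L.W g) fun i => v i + 1) ≤ n₁) ∧ (∀ i ∈ Q, v i < n) ∧
          ∀ i ∈ Y, v i < n) := fun h => h2 h.2.1
      rw [if_neg h2, if_neg h4]
      ring
  · have h4 : ¬ ((∀ g ∈ T, (pair (L.W g) fun i => v i + 1) ≤ n₁) ∧ (∀ i ∈ Q, v i < n) ∧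
          ∀ i ∈ Y, v i < n) := fun h => h1 h.1
    rw [if_neg h1, if_neg h4]
    ring

open Classical in
theorem chi_CX_expand {χ : K0 →+* ℤ} (hχ : IsEulerChar χ) {C : Finset I} (hC : C ⊆ L.Lam)
    {n₁ n : ℕ} (h : n₁ ≤ n) (S : Finset Γ) (t : Γ → ℂ) :
    χ (cls (L.CX C n₁ n S t)) =
      ∑ T ∈ Sᶜ.powerset, ∑ Q ∈ ((L.K \ C) \ L.Act S).powerset, ∑ Y ∈ C.powerset,
        (-1) ^ (T.card + Y.card) *
          ∑ m ∈ L.MTX S (LF.DT L.W (sup L.W S ∪ Q ∪ Y) T) n₁ n T,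
            (∏ i ∈ Q, om (L.d (L.ch i)) (m i + 1)) *
              (∏ i ∈ L.Act S, if L.d (L.ch i) ∣ m i + 1 then 1 else 0) *
              χ (cls (L.YK n S (LF.DT L.W (sup L.W S ∪ Q ∪ Y) T) m t)) := by
  rw [chi_CX L hχ hC h S t]
  simp only [s2_point L χ S t]
  rw [Finset.sum_comm]
  refine Finset.sum_congr rfl fun T _ => ?_
  rw [Finset.sum_comm]
  refine Finset.sum_congr rfl fun Q _ => ?_
  rw [Finset.sum_comm]
  refine Finset.sum_congr rfl fun Y _ => ?_
  rw [← Finset.mul_sum, s2_inner L χ h S t T Q Y]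

end LFM
end MotMono
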