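import Pool.Agent.Lib.MP_4e5fcd_ag.LFM.S1
import Pool.Agent.Lib.MP_4e5fcd_ag.LF.X1b
import Pool.Agent.Lib.MP_4e5fcd_ag.LF.X2
import Pool.Agent.Lib.MP_4e5fcd_ag.LF.X4

/-!
# LFM-S3: the strata and the sets of leading coefficients

`chi_YK`: `x4_fub2` (LF/X4) with `τ = I` (the coordinates `inr`), `X₁ = YK n S D m t`, `X₂ = XK B m S D t`,
coefficients `1, -1`. For `e : I → ℂ`: if some `e i ≠ 1`, `i ∉ Act S`: both fibres are empty. Otherwise the
fibres are `YS L.yl n D D m Θ_e` and `XM L.a B m D Θ_e`,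
`Θ_e = {c | (∀ i ∈ Act S, kap i * e i ^ d = c i) ∧ Sum.elim e c ∈ Rt S t}`, which is constructible and depends
only on the coordinates in `D ⊇ sup W S` (`hD`): for `g ∈ S` and `w g i ≠ 0`, `W g i ≠ 0`. `LF.chi_YS` with
`E = D`. (`L.yl.a = L.a`, ..., are definitional.)
`chi_XK_eq_zero`: as `chi_XM_eq_zero` (LF/X2): `z ∈ LinM a D m`, `z ≠ 0`, `W_g · z = 0` for `g ∈ S`; clear
denominators and multiply by `E`: integral, all `z i` divisible by `E`. The torus `τ` acts on `XK` by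
`c_b ↦ τ ^ z_b c_b`, `e_i ↦ τ ^ (z_i / d (ch i)) e_i` for `i ∈ Act S` (fixing the other `e_i`): by `ci_torus`
(`LinM_exchange` gives its hypothesis, for `i ∈ D`), `ci i ↦ τ ^ z_i ci i` for `i ∈ D`; the equations
`kap * e ^ d = ci` are preserved; `∏ eh_i ^ w g i` is multiplied by `τ` to the power
`∑_{i ∈ Act} z_i / d w g i + ∑_{i ∉ K} z_i w g i = (W_g · z) / E = 0` (`W g i = E / dh i * w g i`). Choose `i ∈ D`
with `z_i ≠ 0`, replace `z` by `-z` if necessary: the polynomial `ci i` (`exists_ciPoly`, renamed) does not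
vanish and has positive weight: `Kum.chi_torus`.
`XK_congr`: as `XM_congr` (LF/X2): `ci a B x i = ci a B x' i` for `i ∈ D`, and `Rt S t` uses `c i` only for `i ∈ D`.
-/

open MvPolynomial

namespace MotMono
namespace LFM

variable {I Γ : Type} [Fintype I] [Fintype Γ] {N s : ℕ} (L : MLoc I Γ N s)

omit [Fintype Γ] in
private theorem s3_Rt {S : Finset Γ} {D : Finset I}
    (hD : ∀ g ∈ S, ∀ i, L.w g i ≠ 0 → i ∈ D) {t : Γ → ℂ} {e : I → ℂ} {c c' : I → ℂ}
    (h : ∀ i ∈ D, c i = c' i) (hc : (Sum.elim e c : I ⊕ I → ℂ) ∈ L.Rt S t) :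
    (Sum.elim e c' : I ⊕ I → ℂ) ∈ L.Rt S t := by
  classical
  intro g hg
  rw [← hc g hg]
  refine Finset.prod_congr rfl fun i _ => ?_
  by_cases hi : L.w g i = 0
  · rw [hi, pow_zero, pow_zero]
  · simp only [Sum.elim_inl, Sum.elim_inr, h i (hD g hg i hi)]

omit [Fintype I] [Fintype Γ] in
private theorem s3_Act {S : Finset Γ} {D : Finset I}
    (hD : ∀ g ∈ S, ∀ i, L.w g i ≠ 0 → i ∈ D) {i : I} (hi : i ∈ L.Act S) : i ∈ D := by
  classical
  simp only [MLoc.Act, Finset.mem_filter] at hi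
  obtain ⟨-, g, hg, hgi⟩ := hi
  exact hD g hg i hgi

theorem constr_XK (B : Finset I) (x : I → ℕ) (S : Finset Γ) (D : Finset I) (t : Γ → ℂ) :
    Constr (L.XK B x S D t) := by
  classical
  choose P hP using LF.exists_ciPoly L.a B x
  have hP' : ∀ (i : I) (z : B ⊕ I → ℂ), eval z (rename Sum.inl (P i)) =
      LF.ci L.a B x (fun b => z (Sum.inl b)) i := by
    intro i z
    rw [eval_rename]
    exact hP i _
  have h1 : Constr (⋂ i ∈ D, {z : B ⊕ I → ℂ | eval z (rename Sum.inl (P i)) ≠ 0}) :=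
    constr_biInter_finset D (E := fun i => {z : B ⊕ I → ℂ | eval z (rename Sum.inl (P i)) ≠ 0})
      fun i _ => constr_ne _
  have h2 : Constr (⋂ i ∈ L.Act S, {z : B ⊕ I → ℂ |
      eval z (C (L.kap i) * X (Sum.inr i) ^ L.d (L.ch i)) =
        eval z (rename Sum.inl (P i))}) :=
    constr_biInter_finset _ (E := fun i => {z : B ⊕ I → ℂ |
      eval z (C (L.kap i) * X (Sum.inr i) ^ L.d (L.ch i)) =
        eval z (rename Sum.inl (P i))}) fun i _ => constr_eq _ _
  have h3 : Constr (⋂ i ∈ (L.Act S)ᶜ, {z : B ⊕ I → ℂ |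
      eval z (X (Sum.inr i)) = eval z (1 : MvPolynomial (B ⊕ I) ℂ)}) :=
    constr_biInter_finset _ (E := fun i => {z : B ⊕ I → ℂ |
      eval z (X (Sum.inr i)) = eval z (1 : MvPolynomial (B ⊕ I) ℂ)}) fun i _ => constr_eq _ _
  have h4 := (constr_Rt L S t).preimage
    (Sum.elim (fun i => X (Sum.inr i)) (fun i => rename Sum.inl (P i)) :
      I ⊕ I → MvPolynomial (B ⊕ I) ℂ)
  have h5 := (h1.inter h2).inter (h3.inter h4)
  have h6 : ((⋂ i ∈ D, {z : B ⊕ I → ℂ | eval z (rename Sum.inl (P i)) ≠ 0}) ∩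
      (⋂ i ∈ L.Act S, {z : B ⊕ I → ℂ |
      eval z (C (L.kap i) * X (Sum.inr i) ^ L.d (L.ch i)) =
        eval z (rename Sum.inl (P i))})) ∩
      ((⋂ i ∈ (L.Act S)ᶜ, {z : B ⊕ I → ℂ |
      eval z (X (Sum.inr i)) = eval z (1 : MvPolynomial (B ⊕ I) ℂ)}) ∩
      {z | (fun j => eval z ((Sum.elim (fun i => X (Sum.inr i)) (fun i => rename Sum.inl (P i)) :
      I ⊕ I → MvPolynomial (B ⊕ I) ℂ) j)) ∈ L.Rt S t}) = L.XK B x S D t := by
    ext z
    have h7 : (fun j => eval z ((Sum.elim (fun i => X (Sum.inr i))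
        (fun i => rename Sum.inl (P i)) : I ⊕ I → MvPolynomial (B ⊕ I) ℂ) j)) =
        Sum.elim (fun i => z (Sum.inr i)) (LF.ci L.a B x fun b => z (Sum.inl b)) := by
      funext j
      rcases j with j | j
      · simp
      · simp only [Sum.elim_inr]
        exact hP' j z
    simp only [Set.mem_inter_iff, Set.mem_iInter, Set.mem_ofPred_eq, h7, hP', map_mul, map_pow,
      eval_C, eval_X, map_one, Finset.mem_compl, MLoc.XK]
    tauto
  rwa [h6] at h5

open Classical in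
private theorem s3_YK {n : ℕ} (S : Finset Γ) {D : Finset I} {m : I → ℕ}
    (hm : ∀ i ∈ D, m i < n) (t : Γ → ℂ) : Constr (L.YK n S D m t) := by
  have h1 : L.YK n S D m t =
      ⋃ v ∈ (Fintype.piFinset fun _ : I => Finset.range (n + 1)).filter
        (fun v => ∀ i ∈ D, v i = m i), L.YV (L.Act S) n v (L.Rt S t) := by
    ext z
    simp only [Set.mem_iUnion, Finset.mem_filter, Fintype.mem_piFinset, Finset.mem_range,
      exists_prop]
    constructor
    · rintro ⟨⟨h1, -, h2, -⟩, h3, h4, h5⟩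
      exact ⟨LF.vv L.a (fun q => z (Sum.inl q)), ⟨fun i => Nat.lt_succ_of_le (LF.vv_le _ _ i),
        fun i hi => (h2 i hi).1⟩, h1, rfl, h3, h4, h5⟩
    · rintro ⟨v, ⟨-, h2⟩, h1, rfl, h3, h4, h5⟩
      exact ⟨⟨h1, fun i hi => (h2 i hi).ge, fun i hi => ⟨h2 i hi, hm i hi⟩, trivial⟩, h3, h4,
        h5⟩
  rw [h1]
  exact constr_biUnion _ fun v _ => constr_YV L _ n v (constr_Rt L S t)

/-- the conditions on the leading coefficients for given `e` -/
private def s3T (S : Finset Γ) (t : Γ → ℂ) (e : I → ℂ) : Set (I → ℂ) :=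
  {c | (∀ i ∈ L.Act S, L.kap i * e i ^ L.d (L.ch i) = c i) ∧
    (Sum.elim e c : I ⊕ I → ℂ) ∈ L.Rt S t}

omit [Fintype Γ] in
private theorem s3_Tdep {S : Finset Γ} {D : Finset I}
    (hD : ∀ g ∈ S, ∀ i, L.w g i ≠ 0 → i ∈ D) (t : Γ → ℂ) (e : I → ℂ) (c c' : I → ℂ)
    (h : ∀ i ∈ D, c i = c' i) (hc : c ∈ s3T L S t e) : c' ∈ s3T L S t e :=
  ⟨fun i hi => by rw [← h i (s3_Act L hD hi)]; exact hc.1 i hi, s3_Rt L hD h hc.2⟩

private theorem s3_Tc (S : Finset Γ) (t : Γ → ℂ) (e : I → ℂ) : Constr (s3T L S t e) := by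
  have h1 : Constr (⋂ i ∈ L.Act S, {c : I → ℂ |
      eval c (C (L.kap i * e i ^ L.d (L.ch i))) = eval c (X i)}) :=
    constr_biInter_finset _ (E := fun i => {c : I → ℂ |
      eval c (C (L.kap i * e i ^ L.d (L.ch i))) = eval c (X i)}) fun i _ => constr_eq _ _
  have h2 := (constr_Rt L S t).preimage
    (Sum.elim (fun i => C (e i)) (fun i => X i) : I ⊕ I → MvPolynomial I ℂ)
  have h3 := h1.inter h2
  have h4 : (⋂ i ∈ L.Act S, {c : I → ℂ |
      eval c (C (L.kap i * e i ^ L.d (L.ch i))) = eval c (X i)}) ∩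
      {c | (fun j => eval c ((Sum.elim (fun i => C (e i)) (fun i => X i) :
        I ⊕ I → MvPolynomial I ℂ) j)) ∈ L.Rt S t} = s3T L S t e := by
    ext c
    have h5 : (fun j => eval c ((Sum.elim (fun i => C (e i)) (fun i => X i) :
        I ⊕ I → MvPolynomial I ℂ) j)) = Sum.elim e c := by
      funext j
      rcases j with j | j <;> simp
    simp only [Set.mem_inter_iff, Set.mem_iInter, Set.mem_ofPred_eq, h5, eval_C, eval_X, s3T]
  rwa [h4] at h3

theorem chi_YK {χ : K0 →+* ℤ} (hχ : IsEulerCharF χ) {n : ℕ} {S : Finset Γ} {D : Finset I}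
    (hD : ∀ g ∈ S, ∀ i, L.w g i ≠ 0 → i ∈ D) {m : I → ℕ} (hm : ∀ i ∈ D, m i < n) {B : Finset I}
    (hB : LF.MaxB L.a D m B) (t : Γ → ℂ) :
    χ (cls (L.YK n S D m t)) = χ (cls (L.XK B m S D t)) := by
  have key := LF.x4_fub2 hχ (s3_YK L S hm t) (constr_XK L B m S D t) 1 (-1) (by
    intro e
    by_cases he : ∀ i, i ∉ L.Act S → e i = 1
    · have e1 : {x : Fin s × Fin (n + 1) → ℂ | (Sum.elim x e : (Fin s × Fin (n + 1)) ⊕ I → ℂ) ∈
          L.YK n S D m t} = LF.YS L.yl n D D m (s3T L S t e) := by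
        ext γ
        constructor
        · rintro ⟨⟨h1, h2, h3, -⟩, h4, -, h5⟩
          exact ⟨h1, h2, h3, h4, h5⟩
        · rintro ⟨h1, h2, h3, h4, h5⟩
          exact ⟨⟨h1, h2, h3, trivial⟩, h4, he, h5⟩
      have e2 : {x : B → ℂ | (Sum.elim x e : B ⊕ I → ℂ) ∈ L.XK B m S D t} =
          LF.XM L.a B m D (s3T L S t e) := by
        ext c
        constructor
        · rintro ⟨h1, h2, -, h3⟩
          exact ⟨h1, h2, h3⟩
        · rintro ⟨h1, h2, h3⟩
          exact ⟨h1, h2, he, h3⟩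
      rw [e1, e2, LF.chi_YS hχ.line L.yl (Finset.Subset.refl D) (fun i hi => (hm i hi).le) hm
        (B := B) hB (s3_Tc L S t e) (s3_Tdep L hD t e)]
      have : L.yl.a = L.a := rfl
      rw [this]
      ring
    · have e1 : {x : Fin s × Fin (n + 1) → ℂ | (Sum.elim x e : (Fin s × Fin (n + 1)) ⊕ I → ℂ) ∈
          L.YK n S D m t} = ∅ := by
        ext γ
        simp only [Set.mem_empty_iff_false, iff_false]
        rintro ⟨-, -, h, -⟩
        exact he h
      have e2 : {x : B → ℂ | (Sum.elim x e : B ⊕ I → ℂ) ∈ L.XK B m S D t} = ∅ := by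
        ext γ
        simp only [Set.mem_empty_iff_false, iff_false]
        rintro ⟨-, -, h, -⟩
        exact he h
      rw [e1, e2, cls_empty, cls_empty, map_zero]
      ring)
  linarith

private theorem s3_prod_zpow {ι : Type*} (s : Finset ι) (f : ι → ℤ) {τ : ℂ} (hτ : τ ≠ 0) :
    ∏ i ∈ s, τ ^ f i = τ ^ ∑ i ∈ s, f i := by
  classical
  induction s using Finset.induction_on with
  | empty => simp
  | insert i s hi ih => rw [Finset.prod_insert hi, Finset.sum_insert hi, zpow_add₀ hτ, ih]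

open Classical in
theorem chi_XK_eq_zero {χ : K0 →+* ℤ} (hχ : IsEulerChar χ) {S : Finset Γ} {D : Finset I}
    (hD : ∀ g ∈ S, ∀ i, L.w g i ≠ 0 → i ∈ D) {m : I → ℕ} {B : Finset I}
    (hB : LF.MaxB L.a D m B) (t : Γ → ℂ) (h : ¬ LF.Sep L.W S (LF.LinM L.a D m)) :
    χ (cls (L.XK B m S D t)) = 0 := by
  unfold LF.Sep at h
  push Not at h
  obtain ⟨z, hz, hzS, hz0⟩ := h
  obtain ⟨b, hb⟩ := IsLocalization.exist_integer_multiples_of_finite (nonZeroDivisors ℤ) z
  have hb0 : (b : ℤ) ≠ 0 := nonZeroDivisors.coe_ne_zero b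
  choose ζ hζ using hb
  have hζ' : ∀ i, (ζ i : ℚ) = (b : ℤ) * z i := by
    intro i
    have h1 := hζ i
    rw [zsmul_eq_mul] at h1
    exact_mod_cast h1
  obtain ⟨i₀, hi₀⟩ : ∃ i, z i ≠ 0 := by
    by_contra hcon
    push Not at hcon
    exact hz0 (funext hcon)
  have hi₀D : i₀ ∈ D := by
    by_contra hcon
    exact hi₀ (hz.1 i₀ hcon)
  have hb0' : ((b : ℤ) : ℚ) ≠ 0 := by exact_mod_cast hb0
  have hζ0 : ζ i₀ ≠ 0 := by
    intro h1
    have h2 := hζ' i₀
    rw [h1, Int.cast_zero] at h2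
    exact (mul_ne_zero hb0' hi₀) h2.symm
  have hE : (0 : ℤ) < L.E := by exact_mod_cast L.hE
  obtain ⟨s, hs⟩ : ∃ s : ℤ, 0 < s * ζ i₀ := by
    rcases lt_or_gt_of_ne hζ0 with h1 | h1
    · exact ⟨-1, by linarith⟩
    · exact ⟨1, by linarith⟩
  have hsE : 0 < s * ζ i₀ * L.E := mul_pos hs hE
  obtain ⟨e, he⟩ : ∃ e : ℕ, (e : ℤ) = s * ζ i₀ * L.E :=
    ⟨(s * ζ i₀ * L.E).toNat, Int.toNat_of_nonneg hsE.le⟩
  have he0 : 0 < e := by
    have : (0 : ℤ) < e := by rw [he]; exact hsE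
    exact_mod_cast this
  set ξ : I → ℤ := fun i => s * ζ i * L.E with hξ
  set η : I → ℤ := fun i => if i ∈ L.Act S then s * ζ i * ((L.E / L.d (L.ch i) : ℕ) : ℤ) else 0
    with hη
  have hηd : ∀ i ∈ L.Act S, η i * (L.d (L.ch i) : ℤ) = ξ i := by
    intro i hi
    have hiK : i ∈ L.K := by
      simp only [MLoc.Act, Finset.mem_filter] at hi
      exact hi.1
    have h1 : L.E / L.d (L.ch i) * L.d (L.ch i) = L.E := Nat.div_mul_cancel (L.hdE i hiK)
    simp only [hη, hξ, if_pos hi]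
    rw [mul_assoc, ← Nat.cast_mul, h1]
  have hex : ∀ i ∈ D, ∀ b' ∈ B, LF.cf L.a B i b' ≠ 0 → m b' = m i → ξ b' = ξ i := by
    intro i hi b' _ hc hx
    have h1 := LF.LinM_exchange hz hB hi hc hx
    have h2 : (ζ b' : ℚ) = ζ i := by rw [hζ', hζ', h1]
    have h3 : ζ b' = ζ i := by exact_mod_cast h2
    simp only [hξ, h3]
  have hsum : ∀ g ∈ S, ∑ i, s * ζ i * (L.W g i : ℤ) = 0 := by
    intro g hg
    have h1 := hzS g hg
    unfold LF.pq at h1
    have h2 : ((∑ i, s * ζ i * (L.W g i : ℤ) : ℤ) : ℚ) =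
        (s : ℚ) * ((b : ℤ) : ℚ) * ∑ i, (L.W g i : ℚ) * z i := by
      rw [Finset.mul_sum]
      push_cast
      refine Finset.sum_congr rfl fun i _ => ?_
      rw [hζ' i]
      ring
    rw [h1, mul_zero] at h2
    exact_mod_cast h2
  obtain ⟨P, hP⟩ := LF.exists_ciPoly L.a B m i₀
  have htor : ∀ i ∈ D, ∀ (τ : ℂ) (c : B → ℂ),
      LF.ci L.a B m (fun b => τ ^ ξ b * c b) i = τ ^ ξ i * LF.ci L.a B m c i := fun i hi τ c =>
    LF.ci_torus (hex i hi) τ c
  have hP' : ∀ z : B ⊕ I → ℂ, eval z (rename Sum.inl P) =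
      LF.ci L.a B m (fun b => z (Sum.inl b)) i₀ := by
    intro z
    rw [eval_rename]
    exact hP _
  refine Kum.chi_torus χ hχ _ (constr_XK L B m S D t)
    (Sum.elim (fun b : B => ξ b) η) (rename Sum.inl P) e he0 ?_ ?_ ?_
  · rintro c ⟨h1, h2, h3, h4⟩ τ hτ
    refine ⟨fun i hi => ?_, fun i hi => ?_, fun i hi => ?_, fun g hg => ?_⟩
    · simp only [Sum.elim_inl]
      rw [htor i hi]
      exact mul_ne_zero (zpow_ne_zero _ hτ) (h1 i hi)
    · simp only [Sum.elim_inl, Sum.elim_inr]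
      rw [htor i (s3_Act L hD hi), ← h2 i hi, mul_pow, ← zpow_natCast (τ ^ η i), ← zpow_mul,
        hηd i hi]
      ring
    · simp only [Sum.elim_inr]
      rw [h3 i hi]
      simp only [hη, if_neg hi, zpow_zero, one_mul]
    · simp only [Sum.elim_inl, Sum.elim_inr]
      have h5 : ∏ i, (if i ∈ L.K then τ ^ η i * c (Sum.inr i) else
          LF.ci L.a B m (fun b => τ ^ ξ b * c (Sum.inl b)) i) ^ L.w g i =
          ∏ i, (τ ^ (s * ζ i * (L.W g i : ℤ)) * (if i ∈ L.K then c (Sum.inr i) else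
            LF.ci L.a B m (fun b => c (Sum.inl b)) i) ^ L.w g i) := by
        refine Finset.prod_congr rfl fun i _ => ?_
        by_cases hi : L.w g i = 0
        · have hW : L.W g i = 0 := by
            unfold MLoc.W
            rw [hi, mul_zero]
          rw [hi, hW]
          simp
        · by_cases hK : i ∈ L.K
          · have hA : i ∈ L.Act S := by
              simp only [MLoc.Act, Finset.mem_filter]
              exact ⟨hK, g, hg, hi⟩
            rw [if_pos hK, if_pos hK, mul_pow, ← zpow_natCast (τ ^ η i), ← zpow_mul]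
            congr 2
            simp only [hη, if_pos hA, MLoc.W, MLoc.dh, if_pos hK]
            push_cast
            ring
          · rw [if_neg hK, if_neg hK, htor i (hD g hg i hi), mul_pow,
              ← zpow_natCast (τ ^ ξ i), ← zpow_mul]
            congr 2
            simp only [hξ, MLoc.W, MLoc.dh, if_neg hK, Nat.div_one]
            push_cast
            ring
      rw [h5, Finset.prod_mul_distrib, s3_prod_zpow _ _ hτ, hsum g hg, zpow_zero, one_mul]
      exact h4 g hg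
  · rintro c ⟨h1, -⟩
    rw [hP']
    exact h1 i₀ hi₀D
  · rintro c ⟨h1, -⟩ τ hτ
    rw [hP', hP']
    simp only [Sum.elim_inl]
    rw [htor i₀ hi₀D]
    have h4 : τ ^ ξ i₀ = τ ^ e := by
      have : ξ i₀ = (e : ℤ) := he.symm
      rw [this, zpow_natCast]
    rw [h4]

theorem XK_empty {S : Finset Γ} {D : Finset I} {m : I → ℕ} {B : Finset I}
    (hB : LF.MaxB L.a D m B) {i : I} (hi : i ∈ D) (h : LF.clo L.a D m i ≠ m i) (t : Γ → ℂ) :
    L.XK B m S D t = ∅ := by
  rw [Set.eq_empty_iff_forall_notMem]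
  rintro z ⟨h1, -⟩
  have h2 := LF.XM_empty L.ha hB hi h (Set.univ : Set (I → ℂ))
  rw [Set.eq_empty_iff_forall_notMem] at h2
  exact h2 (fun b => z (Sum.inl b)) ⟨h1, trivial⟩

theorem XK_congr {S : Finset Γ} {D : Finset I} (hD : ∀ g ∈ S, ∀ i, L.w g i ≠ 0 → i ∈ D)
    {x x' : I → ℕ} {B : Finset I} (hB : LF.MaxB L.a D x B)
    (h : ∀ B, LF.MaxB L.a D x B ↔ LF.MaxB L.a D x' B) (t : Γ → ℂ) :
    L.XK B x S D t = L.XK B x' S D t := by
  classical
  have key : ∀ (c : B → ℂ), ∀ i ∈ D, LF.ci L.a B x c i = LF.ci L.a B x' c i := by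
    intro c i hi
    unfold LF.ci
    refine Finset.sum_congr rfl fun b _ => ?_
    by_cases hc : LF.cf L.a B i b = 0
    · simp [hc]
    · have h1 := hB.exchange hi hc
      have h2 := ((h B).1 hB).exchange hi hc
      have h3 : x b = x i ↔ x' b = x' i := h1.symm.trans ((h _).trans h2)
      by_cases h4 : x b = x i
      · rw [if_pos h4, if_pos (h3.1 h4)]
      · rw [if_neg h4, if_neg (fun h5 => h4 (h3.2 h5))]
  ext z
  constructor
  · rintro ⟨h1, h2, h3, h4⟩
    refine ⟨fun i hi => by rw [← key _ i hi]; exact h1 i hi, fun i hi => ?_, h3,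
      s3_Rt L hD (key _) h4⟩
    rw [← key _ i (s3_Act L hD hi)]
    exact h2 i hi
  · rintro ⟨h1, h2, h3, h4⟩
    refine ⟨fun i hi => by rw [key _ i hi]; exact h1 i hi, fun i hi => ?_, h3,
      s3_Rt L hD (fun i hi => (key _ i hi).symm) h4⟩
    rw [key _ i (s3_Act L hD hi)]
    exact h2 i hi

end LFM
end MotMono
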