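import Pool.Agent.Lib.MP_4e5fcd_ag.LFM.S2
import Pool.Agent.Lib.MP_4e5fcd_ag.LFM.S3
import Pool.Agent.Lib.MP_4e5fcd_ag.LF.S3

/-!
# LFM-S4: the structure of the Euler characteristics of the contact jets

Fix `T, Q, Y` and put `D₀ = sup W S ∪ Q ∪ Y`, `D = DT W D₀ T`. Let `m ∈ MTX S D n₁ n T` with
`χ (XK (Bc a D m) m S D t) ≠ 0`. By `chi_XK_eq_zero` `S` separates `LinM a D m`, and by `XK_empty` `m` is closed
on `D` (`clo a D m i = m i` for `i ∈ D`). As in `exists_UU` (LF/S2; its hypothesis `hD` is only used in the form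
`w g i ≠ 0, g ∈ S → i ∈ D₀`; copy the proof): `m + 1 = α u` on `D`, `u ∈ UU a W S D₀ T`, `α > 0`, and
`α pair (W g) u = n₁` for `g ∈ S`. Conversely, let `u ∈ UU a W S D₀ T`, `pair (W g) u ∣ n₁` for `g ∈ S`
(all equal, `> 0`: `UU_pos`), `α = n₁ / pair (W g) u`, `m = α u - 1` on `D`, `0` elsewhere. Then `m ∈ MTX`:
the only point is `m i < n` for `i ∈ D`: let `c = max_{sup S} u ≤ pair (W g) u`; if `u i > c` for some `i ∈ D`, then the
top level `{j ∈ D : u j ≥ u i}` does not meet `sup S`; if it meets `sup T`, `g ∈ T`, then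
`u j ≤ pair (W g) u ≤ pair (W g') u` (`g' ∈ S`, definition of `UU`), so `α u j ≤ n₁ ≤ n` is fine for these `j`;
precisely: let `i ∈ D` with `α u i > n₁`; then all `j ∈ D` with `u j ≥ u i` are in `Q ∪ Y`, not in `sup S ∪ sup T`;
their vectors are independent (`hK`, `hbl`: coordinate vectors), so `i` is in all `B` with `MaxB a D u B`
(`MaxB`: `a i ∈ sp {b ∈ B : u b ≥ u i}` and the `a b` are independent coordinate vectors), so
`z = e_i ∈ LinM a D u`, `W_g · z = 0` for `g ∈ S`, a contradiction to `Sep`. So `α u i ≤ n₁ ≤ n` for all `i ∈ D`.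
The map `u ↦ m` is injective (`UU_inj`-like: `s2_prim`). `χ (XK (Bc a D m) m ..) = χ (XK (Bc a D u) u ..)` by
`XK_congr`, `maxB_dir`, `Bc_congr`. Finally `chi_CX_expand`, `chi_YK`.
-/

open MvPolynomial

namespace MotMono
namespace LFM

variable {I Γ : Type} [Fintype I] [Fintype Γ] {N s : ℕ} (L : MLoc I Γ N s)

open Classical in
/-- the contribution of a direction -/
noncomputable def MLoc.cu (χ : K0 →+* ℤ) (S : Finset Γ) (t : Γ → ℂ) (T : Finset Γ)
    (Q Y : Finset I) (u : I → ℕ) (n₁ : ℕ) : ℤ :=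
  if ∀ g ∈ S, pair (L.W g) u ∣ n₁ then
    (-1) ^ (T.card + Y.card) *
      (∏ i ∈ Q, om (L.d (L.ch i)) (n₁ / LF.mn (fun g : S => L.W g) u * u i)) *
      (∏ i ∈ L.Act S, if L.d (L.ch i) ∣ n₁ / LF.mn (fun g : S => L.W g) u * u i then 1 else 0) *
      χ (cls (L.XK (LF.Bc L.a (LF.DT L.W (sup L.W S ∪ Q ∪ Y) T) u) u S
        (LF.DT L.W (sup L.W S ∪ Q ∪ Y) T) t))
  else 0

/-! ### Auxiliary results -/

private theorem s4_W {g : Γ} {i : I} (h : L.w g i ≠ 0) : L.W g i ≠ 0 := by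
  have hd : L.dh i ∣ L.E := by
    unfold MLoc.dh
    split_ifs with hi
    · exact L.hdE i hi
    · exact one_dvd _
  have hE := L.hE
  unfold MLoc.W
  refine mul_ne_zero (Nat.div_pos (Nat.le_of_dvd hE hd) ?_).ne' h
  exact Nat.pos_of_dvd_of_pos hd hE

private theorem s4_mem_DT {w : Γ → I → ℕ} {D : Finset I} {T : Finset Γ} {i : I} :
    i ∈ LF.DT w D T ↔ i ∈ D ∨ ∃ g ∈ T, w g i ≠ 0 := by
  simp [LF.DT]

private theorem s4_pair {v m u : I → ℕ} {α : ℕ} (h : ∀ i, v i ≠ 0 → m i + 1 = α * u i) :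
    pair v (fun i => m i + 1) = α * pair v u := by
  simp only [pair, Finset.mul_sum]
  refine Finset.sum_congr rfl fun i _ => ?_
  by_cases hv : v i = 0
  · simp [hv]
  · rw [h i hv]; ring

private theorem s4_term_le {v u : I → ℕ} {i : I} (h : v i ≠ 0) : u i ≤ pair v u := by
  have h1 : v i * u i ≤ pair v u :=
    Finset.single_le_sum (f := fun i => v i * u i) (fun _ _ => Nat.zero_le _) (Finset.mem_univ i)
  exact (Nat.le_mul_of_pos_left _ (Nat.pos_of_ne_zero h)).trans h1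

open Classical in
private noncomputable def s4_map (E : Finset I) (α : ℕ) (u : I → ℕ) : I → ℕ :=
  fun i => if i ∈ E then α * u i - 1 else 0

private theorem s4_map_add {E : Finset I} {α : ℕ} {u : I → ℕ} (hα : 0 < α)
    (hu : ∀ i, u i ≠ 0 ↔ i ∈ E) : ∀ i ∈ E, s4_map E α u i + 1 = α * u i := by
  intro i hi
  unfold s4_map
  rw [if_pos hi]
  have h1 : 0 < α * u i := Nat.mul_pos hα (Nat.pos_of_ne_zero ((hu i).2 hi))
  omega

private theorem s4_clo {a : I → Fin s → ℂ} (ha : ∀ i, a i ≠ 0) {E : Finset I} {α : ℕ}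
    (hα : 0 < α) {m u : I → ℕ} (h : ∀ i ∈ E, m i + 1 = α * u i)
    (hc : ∀ i ∈ E, LF.clo a E u i = u i) : ∀ i ∈ E, LF.clo a E m i = m i := by
  intro i hi
  have h1 : LF.clo a E (fun j => m j + 1) i = LF.clo a E m i + 1 :=
    LF.clo_shift (ha i) (LF.mem_sp_of_mem hi) 1
  have h2 : LF.clo a E (fun j => m j + 1) i = LF.clo a E (fun j => α * u j) i :=
    LF.clo_congr fun j hj => h j hj
  have h3 : LF.clo a E (fun j => α * u j) i = α * LF.clo a E u i := LF.clo_smul (ha i) hα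
  rw [hc i hi] at h3
  have h4 := h i hi
  omega

private theorem s4_mem_MTX {S : Finset Γ} {D : Finset I} {n₁ n : ℕ} {T : Finset Γ}
    {m : I → ℕ} : m ∈ L.MTX S D n₁ n T ↔ (∀ i ∈ D, m i < n) ∧ (∀ i, i ∉ D → m i = 0) ∧
      LF.Sx L.W S (n₁ + 1) m ∧ ∀ g ∈ T, (pair (L.W g) fun i => m i + 1) ≤ n₁ := by
  classical
  unfold MLoc.MTX
  rw [Finset.mem_filter, Fintype.mem_piFinset]
  constructor
  · rintro ⟨h1, h2, h3⟩
    refine ⟨fun i hi => ?_, fun i hi => ?_, h2, h3⟩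
    · have := h1 i
      rw [if_pos hi, Finset.mem_range] at this
      exact this
    · have := h1 i
      rw [if_neg hi, Finset.mem_singleton] at this
      exact this
  · rintro ⟨h1, h1', h2, h3⟩
    refine ⟨fun i => ?_, h2, h3⟩
    split_ifs with hi
    · exact Finset.mem_range.2 (h1 i hi)
    · exact Finset.mem_singleton.2 (h1' i hi)

/-- as `LF.exists_UU` -/
private theorem s4_exists_UU {a : I → Fin s → ℂ} {w : Γ → I → ℕ} {S T : Finset Γ}
    {D : Finset I} {m : I → ℕ} {n : ℕ} (ha : ∀ i, a i ≠ 0)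
    (hD : ∀ g ∈ S, ∀ i, w g i ≠ 0 → i ∈ D) (hS : S.Nonempty) (hn : 1 ≤ n)
    (hm : LF.Sx w S (n + 1) m) (hT : ∀ g ∈ T, pair (w g) (fun i => m i + 1) ≤ n)
    (hsep : LF.Sep w S (LF.LinM a (LF.DT w D T) m))
    (hcl : ∀ i ∈ LF.DT w D T, LF.clo a (LF.DT w D T) m i = m i) :
    ∃ u ∈ LF.UU a w S D T, ∃ α, 0 < α ∧ ∀ i ∈ LF.DT w D T, m i + 1 = α * u i := by
  classical
  set E := LF.DT w D T with hE
  have hES : ∀ g ∈ S, ∀ i, w g i ≠ 0 → i ∈ E := by
    intro g hg i hi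
    rw [hE]
    exact s4_mem_DT.2 (Or.inl (hD g hg i hi))
  have hET : ∀ g ∈ T, ∀ i, w g i ≠ 0 → i ∈ E := by
    intro g hg i hi
    rw [hE]
    exact s4_mem_DT.2 (Or.inr ⟨g, hg, hi⟩)
  have hSn : ∀ g ∈ S, pair (w g) (fun i => m i + 1) = n := by
    intro g hg
    have := hm g hg
    omega
  have hEne : E.Nonempty := by
    obtain ⟨g, hg⟩ := hS
    by_contra hE0
    rw [Finset.not_nonempty_iff_eq_empty] at hE0
    have h1 : pair (w g) (fun i => m i + 1) = 0 := by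
      unfold pair
      refine Finset.sum_eq_zero fun i _ => ?_
      by_cases hi : w g i = 0
      · rw [hi, zero_mul]
      · have := hES g hg i hi
        rw [hE0] at this
        simp at this
    rw [hSn g hg] at h1
    omega
  set α := E.gcd (fun i => m i + 1) with hαdef
  have hdvd : ∀ i ∈ E, α ∣ m i + 1 := fun i hi => Finset.gcd_dvd hi
  have hα : 0 < α := by
    obtain ⟨i, hi⟩ := hEne
    exact Nat.pos_of_dvd_of_pos (hdvd i hi) (Nat.succ_pos _)
  let u : I → ℕ := fun i => if i ∈ E then (m i + 1) / α else 0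
  have hu : ∀ i ∈ E, m i + 1 = α * u i := by
    intro i hi
    simp only [u, if_pos hi]
    exact (Nat.mul_div_cancel' (hdvd i hi)).symm
  have hu0 : ∀ i, i ∉ E → u i = 0 := fun i hi => by simp only [u, if_neg hi]
  have hpair : ∀ g, (∀ i, w g i ≠ 0 → i ∈ E) →
      pair (w g) (fun i => m i + 1) = α * pair (w g) u := by
    intro g hg
    exact s4_pair fun i hi => hu i (hg i hi)
  refine ⟨u, ⟨?_, ?_, ?_, ?_, ?_, ?_⟩, α, hα, hu⟩
  · intro i
    constructor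
    · intro h
      by_contra hi
      exact h (hu0 i hi)
    · intro hi h0
      have := hu i hi
      rw [h0] at this
      omega
  · intro d hd
    have h1 : ∀ i ∈ E, α * d ∣ m i + 1 := by
      intro i hi
      rw [hu i hi]
      exact Nat.mul_dvd_mul_left α (hd i)
    have h2 : α * d ∣ α := Finset.dvd_gcd h1
    have h3 : α * d ∣ α * 1 := by simpa using h2
    exact Nat.eq_one_of_dvd_one (Nat.dvd_of_mul_dvd_mul_left hα h3)
  · intro i hi
    have h1 : α * LF.clo a E u i = α * u i := by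
      rw [← LF.clo_smul (ha i) hα, ← hu i hi,
        ← LF.clo_congr (a := a) (D := E) (i := i) (x := fun j => m j + 1)
          (x' := fun j => α * u j) hu,
        LF.clo_shift (ha i) (LF.mem_sp_of_mem (by exact_mod_cast hi)) 1, hcl i hi]
    exact Nat.eq_of_mul_eq_mul_left hα h1
  · rw [← LF.linM_congr (a := a) (D := E) (x := m) (x' := u) (fun B => LF.maxB_dir hα hu)]
    exact hsep
  · intro g hg g' hg'
    have h1 := hpair g (hES g hg)
    have h2 := hpair g' (hES g' hg')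
    rw [hSn g hg] at h1
    rw [hSn g' hg'] at h2
    exact Nat.eq_of_mul_eq_mul_left hα (h1.symm.trans h2)
  · intro g hg g' hg'
    have h1 := hpair g (hET g hg)
    have h2 := hpair g' (hES g' hg')
    have h3 := hT g hg
    rw [hSn g' hg'] at h2
    rw [h1] at h3
    rw [h2] at h3
    exact Nat.le_of_mul_le_mul_left h3 hα

/-- the coordinates of a direction are at most its order -/
private theorem s4_le {S T : Finset Γ} {D₀ : Finset I}
    (hK : ∀ i ∈ D₀, (∃ g ∈ S, L.W g i ≠ 0) ∨ i ∈ L.K) {u : I → ℕ}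
    (hu : u ∈ LF.UU L.a L.W S D₀ T) {g₀ : Γ} (hg₀ : g₀ ∈ S) :
    ∀ i ∈ LF.DT L.W D₀ T, u i ≤ pair (L.W g₀) u := by
  classical
  obtain ⟨-, -, -, hsep, hSS, hTS⟩ := hu
  intro i hi
  by_contra hlt
  push Not at hlt
  -- the top level
  have htop : ∀ j ∈ LF.DT L.W D₀ T, u i ≤ u j →
      j ∈ L.K ∧ ∀ g ∈ S, L.W g j = 0 := by
    intro j hj hij
    have hS0 : ∀ g ∈ S, L.W g j = 0 := by
      intro g hg
      by_contra h0
      have h1 : u j ≤ pair (L.W g) u := s4_term_le h0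
      rw [hSS g hg g₀ hg₀] at h1
      omega
    refine ⟨?_, hS0⟩
    rcases s4_mem_DT.1 hj with h | ⟨g, hg, hgj⟩
    · rcases hK j h with ⟨g, hg, hgj⟩ | h
      · exact absurd (hS0 g hg) hgj
      · exact h
    · have h1 : u j ≤ pair (L.W g) u := s4_term_le hgj
      have h2 := hTS g hg g₀ hg₀
      omega
  have hmem : ∀ B, LF.MaxB L.a (LF.DT L.W D₀ T) u B → i ∈ B := by
    rintro B ⟨⟨hBD, -, -⟩, hB⟩
    by_contra hiB
    have h1 := hB i hi
    have h2 : LF.sp L.a {b | b ∈ B ∧ u i ≤ u b} ≤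
        LinearMap.ker (LinearMap.proj (R := ℂ) (φ := fun _ : Fin s => ℂ) (L.bl i)) := by
      unfold LF.sp
      rw [Submodule.span_le]
      rintro _ ⟨b, ⟨hb, hub⟩, rfl⟩
      have hbK := (htop b (hBD hb) hub).1
      have hne : b ≠ i := fun h => hiB (h ▸ hb)
      rw [SetLike.mem_coe, LinearMap.mem_ker, LinearMap.proj_apply, L.hK b hbK]
      refine Pi.single_eq_of_ne (fun h => hne ?_) _
      exact L.hbl b hbK i (htop i hi le_rfl).1 h.symm
    have h3 := h2 h1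
    rw [LinearMap.mem_ker, LinearMap.proj_apply, L.hK i (htop i hi le_rfl).1,
      Pi.single_eq_same] at h3
    exact one_ne_zero h3
  have hz : (Pi.single i 1 : I → ℚ) ∈ LF.LinM L.a (LF.DT L.W D₀ T) u := by
    refine ⟨fun j hj => ?_, fun B B' hB hB' => ?_⟩
    · refine Pi.single_eq_of_ne (fun h => hj ?_) _
      rw [h]
      exact hi
    · have hsum : ∀ B : Finset I, i ∈ B → ∑ b ∈ B, (Pi.single i 1 : I → ℚ) b = 1 := by
        intro B hB
        rw [Finset.sum_eq_single i (fun b _ hb => Pi.single_eq_of_ne hb _)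
          (fun h => absurd hB h), Pi.single_eq_same]
      rw [hsum B (hmem B hB), hsum B' (hmem B' hB')]
  have h0 := hsep _ hz (fun g hg => by
    unfold LF.pq
    refine Finset.sum_eq_zero fun j _ => ?_
    by_cases hj : j = i
    · rw [hj, (htop i hi le_rfl).2 g hg, Nat.cast_zero, zero_mul]
    · rw [Pi.single_eq_of_ne hj, mul_zero])
  have h1 := congrFun h0 i
  rw [Pi.single_eq_same, Pi.zero_apply] at h1
  exact one_ne_zero h1

/-- all generators in `S` have the same order -/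
private theorem s4_mn {S : Finset Γ} {u : I → ℕ} {g₀ : Γ} (hg₀ : g₀ ∈ S)
    (h : ∀ g ∈ S, ∀ g' ∈ S, pair (L.W g) u = pair (L.W g') u) :
    LF.mn (fun g : S => L.W g) u = pair (L.W g₀) u := by
  unfold LF.mn
  have h1 : (Set.range fun g : S => pair (L.W g) u) = {pair (L.W g₀) u} := by
    ext k
    rw [Set.mem_range, Set.mem_singleton_iff]
    constructor
    · rintro ⟨g, rfl⟩
      exact h g g.2 g₀ hg₀
    · rintro rfl
      exact ⟨⟨g₀, hg₀⟩, rfl⟩
  rw [h1, csInf_singleton]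

open Classical in
private theorem s4_stratum {χ : K0 →+* ℤ} (hχ : IsEulerCharF χ) {S : Finset Γ}
    {g₀ : Γ} (hg₀ : g₀ ∈ S) {n₁ n : ℕ} (hn₁ : 1 ≤ n₁) (h : n₁ ≤ n) (t : Γ → ℂ) (T : Finset Γ)
    (Q Y D₀ : Finset I) (hsup : ∀ g ∈ S, ∀ i, L.W g i ≠ 0 → i ∈ D₀)
    (hK : ∀ i ∈ D₀, (∃ g ∈ S, L.W g i ≠ 0) ∨ i ∈ L.K)
    (hQ' : ∀ i ∈ Q, i ∈ D₀) (hA' : ∀ i ∈ L.Act S, i ∈ D₀) :
    (-1) ^ (T.card + Y.card) *
          ∑ m ∈ L.MTX S (LF.DT L.W D₀ T) n₁ n T,
            (∏ i ∈ Q, om (L.d (L.ch i)) (m i + 1)) *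
              (∏ i ∈ L.Act S, if L.d (L.ch i) ∣ m i + 1 then 1 else 0) *
              χ (cls (L.YK n S (LF.DT L.W D₀ T) m t)) =
      ∑ u ∈ (LF.finite_UU L.a L.W S D₀ T).toFinset,
        if ∀ g ∈ S, pair (L.W g) u ∣ n₁ then
          (-1) ^ (T.card + Y.card) *
            (∏ i ∈ Q, om (L.d (L.ch i)) (n₁ / LF.mn (fun g : S => L.W g) u * u i)) *
            (∏ i ∈ L.Act S,
              if L.d (L.ch i) ∣ n₁ / LF.mn (fun g : S => L.W g) u * u i then 1 else 0) *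
            χ (cls (L.XK (LF.Bc L.a (LF.DT L.W D₀ T) u) u S (LF.DT L.W D₀ T) t))
        else 0 := by
  have hW : ∀ g ∈ S, ∀ i, L.W g i ≠ 0 → i ∈ LF.DT L.W D₀ T :=
    fun g hg i hi => s4_mem_DT.2 (Or.inl (hsup g hg i hi))
  have hw : ∀ g ∈ S, ∀ i, L.w g i ≠ 0 → i ∈ LF.DT L.W D₀ T :=
    fun g hg i hi => hW g hg i (s4_W L hi)
  have h1 : ∀ m ∈ L.MTX S (LF.DT L.W D₀ T) n₁ n T,
      (-1) ^ (T.card + Y.card) * ((∏ i ∈ Q, om (L.d (L.ch i)) (m i + 1)) *
        (∏ i ∈ L.Act S, if L.d (L.ch i) ∣ m i + 1 then 1 else 0) *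
        χ (cls (L.YK n S (LF.DT L.W D₀ T) m t))) =
        if (∀ i ∈ LF.DT L.W D₀ T, LF.clo L.a (LF.DT L.W D₀ T) m i = m i) ∧
            LF.Sep L.W S (LF.LinM L.a (LF.DT L.W D₀ T) m) then
          (-1) ^ (T.card + Y.card) * (∏ i ∈ Q, om (L.d (L.ch i)) (m i + 1)) *
            (∏ i ∈ L.Act S, if L.d (L.ch i) ∣ m i + 1 then 1 else 0) *
            χ (cls (L.XK (LF.Bc L.a (LF.DT L.W D₀ T) m) m S (LF.DT L.W D₀ T) t)) else 0 := by
    intro m hm
    rw [s4_mem_MTX] at hm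
    rw [chi_YK L hχ hw hm.1 (LF.Bc_spec L.a (LF.DT L.W D₀ T) m) t]
    split_ifs with hgood
    · ring
    · have h0 : χ (cls (L.XK (LF.Bc L.a (LF.DT L.W D₀ T) m) m S (LF.DT L.W D₀ T) t)) = 0 := by
        by_cases hcl : ∀ i ∈ LF.DT L.W D₀ T, LF.clo L.a (LF.DT L.W D₀ T) m i = m i
        · exact chi_XK_eq_zero L (LF.isEulerChar_of_F hχ) hw
            (LF.Bc_spec L.a (LF.DT L.W D₀ T) m) t fun hs => hgood ⟨hcl, hs⟩
        · push Not at hcl
          obtain ⟨i, hi, hne⟩ := hcl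
          rw [XK_empty L (LF.Bc_spec L.a (LF.DT L.W D₀ T) m) hi hne t, cls_empty, map_zero]
      rw [h0, mul_zero, mul_zero]
  rw [Finset.mul_sum, Finset.sum_congr rfl h1, ← Finset.sum_filter, ← Finset.sum_filter]
  symm
  have hkey : ∀ u, u ∈ LF.UU L.a L.W S D₀ T → (∀ g ∈ S, pair (L.W g) u ∣ n₁) →
      0 < n₁ / pair (L.W g₀) u ∧ (∀ g ∈ S, n₁ / pair (L.W g₀) u * pair (L.W g) u = n₁) ∧
      ∀ i ∈ LF.DT L.W D₀ T, s4_map (LF.DT L.W D₀ T) (n₁ / pair (L.W g₀) u) u i + 1 =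
        n₁ / pair (L.W g₀) u * u i := by
    intro u hu hd
    have hk := (LF.UU_pos hu).2 g₀ hg₀
    have hα : 0 < n₁ / pair (L.W g₀) u :=
      Nat.div_pos (Nat.le_of_dvd hn₁ (hd g₀ hg₀)) hk
    refine ⟨hα, fun g hg => ?_, s4_map_add hα hu.1⟩
    rw [hu.2.2.2.2.1 g hg g₀ hg₀]
    exact Nat.div_mul_cancel (hd g₀ hg₀)
  refine Finset.sum_bij
    (fun u _ => s4_map (LF.DT L.W D₀ T) (n₁ / pair (L.W g₀) u) u) ?_ ?_ ?_ ?_
  · intro u hu
    rw [Finset.mem_filter, Set.Finite.mem_toFinset] at hu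
    obtain ⟨hu, hd⟩ := hu
    obtain ⟨hα, hmul, hadd⟩ := hkey u hu hd
    have hpS : ∀ g ∈ S, pair (L.W g)
        (fun i => s4_map (LF.DT L.W D₀ T) (n₁ / pair (L.W g₀) u) u i + 1) = n₁ :=
      fun g hg => by
        rw [s4_pair fun i hi => hadd i (hW g hg i hi), hmul g hg]
    have hpT' : ∀ g ∈ T, n₁ / pair (L.W g₀) u * pair (L.W g) u ≤ n₁ := fun g hg => by
      calc n₁ / pair (L.W g₀) u * pair (L.W g) u ≤ n₁ / pair (L.W g₀) u * pair (L.W g₀) u :=
            Nat.mul_le_mul_left _ (hu.2.2.2.2.2 g hg g₀ hg₀)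
        _ = n₁ := hmul g₀ hg₀
    have hpT : ∀ g ∈ T, pair (L.W g)
        (fun i => s4_map (LF.DT L.W D₀ T) (n₁ / pair (L.W g₀) u) u i + 1) ≤ n₁ :=
      fun g hg => by
        rw [s4_pair fun i hi => hadd i (s4_mem_DT.2 (Or.inr ⟨g, hg, hi⟩))]
        exact hpT' g hg
    rw [Finset.mem_filter, s4_mem_MTX]
    refine ⟨⟨fun i hi => ?_, fun i hi => if_neg hi, fun g hg => by rw [hpS g hg], hpT⟩,
      s4_clo L.ha hα hadd hu.2.2.1, ?_⟩
    · have h2 := hadd i hi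
      have h3 : n₁ / pair (L.W g₀) u * u i ≤ n₁ := by
        calc _ ≤ n₁ / pair (L.W g₀) u * pair (L.W g₀) u :=
              Nat.mul_le_mul_left _ (s4_le L hK hu hg₀ i hi)
          _ = n₁ := hmul g₀ hg₀
      omega
    · rw [LF.linM_congr fun B => LF.maxB_dir hα hadd]
      exact hu.2.2.2.1
  · intro u hu u' hu' heq
    rw [Finset.mem_filter, Set.Finite.mem_toFinset] at hu hu'
    obtain ⟨hα, hmul, hadd⟩ := hkey u hu.1 hu.2
    obtain ⟨hα', hmul', hadd'⟩ := hkey u' hu'.1 hu'.2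
    refine LF.UU_inj hu.1 hu'.1 fun B => ?_
    rw [← LF.maxB_dir hα hadd, ← LF.maxB_dir hα' hadd']
    rw [heq]
  · intro m hm
    rw [Finset.mem_filter, s4_mem_MTX] at hm
    obtain ⟨⟨hm1, hm2, hm3, hm4⟩, hcl, hsep⟩ := hm
    obtain ⟨u, hu, α, hα, hmu⟩ := s4_exists_UU L.ha hsup ⟨g₀, hg₀⟩ hn₁ hm3 hm4 hsep hcl
    have hpS : ∀ g ∈ S, α * pair (L.W g) u = n₁ := fun g hg => by
      have h2 := hm3 g hg
      rw [s4_pair fun i hi => hmu i (hW g hg i hi)] at h2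
      omega
    have hk := (LF.UU_pos hu).2 g₀ hg₀
    have hα' : n₁ / pair (L.W g₀) u = α := by
      rw [← hpS g₀ hg₀, Nat.mul_div_cancel _ hk]
    refine ⟨u, ?_, ?_⟩
    · rw [Finset.mem_filter, Set.Finite.mem_toFinset]
      exact ⟨hu, fun g hg => ⟨α, by rw [mul_comm, hpS g hg]⟩⟩
    · simp only [hα']
      funext i
      unfold s4_map
      split_ifs with hi
      · rw [← hmu i hi, Nat.add_sub_cancel]
      · exact (hm2 i hi).symm
  · intro u hu
    rw [Finset.mem_filter, Set.Finite.mem_toFinset] at hu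
    obtain ⟨hα, hmul, hadd⟩ := hkey u hu.1 hu.2
    have hB : ∀ B, LF.MaxB L.a (LF.DT L.W D₀ T) u B ↔
        LF.MaxB L.a (LF.DT L.W D₀ T)
          (s4_map (LF.DT L.W D₀ T) (n₁ / pair (L.W g₀) u) u) B :=
      fun B => (LF.maxB_dir hα hadd).symm
    have hmn : LF.mn (fun g : S => L.W g) u = pair (L.W g₀) u := s4_mn L hg₀ hu.1.2.2.2.2.1
    rw [← LF.Bc_congr hB, XK_congr L hw (LF.Bc_spec L.a (LF.DT L.W D₀ T) u) hB t, hmn]
    have e1 : ∀ i ∈ Q, om (L.d (L.ch i)) (n₁ / pair (L.W g₀) u * u i) =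
        om (L.d (L.ch i))
          (s4_map (LF.DT L.W D₀ T) (n₁ / pair (L.W g₀) u) u i + 1) := by
      intro i hi
      rw [hadd i (s4_mem_DT.2 (Or.inl (hQ' i hi)))]
    have e2 : ∀ i ∈ L.Act S, (if L.d (L.ch i) ∣ n₁ / pair (L.W g₀) u * u i then (1 : ℤ) else 0) =
        if L.d (L.ch i) ∣ s4_map (LF.DT L.W D₀ T) (n₁ / pair (L.W g₀) u) u i + 1
          then 1 else 0 := by
      intro i hi
      rw [hadd i (s4_mem_DT.2 (Or.inl (hA' i hi)))]
    rw [Finset.prod_congr rfl e1, Finset.prod_congr rfl e2]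

open Classical in
theorem struct_CX {χ : K0 →+* ℤ} (hχ : IsEulerCharF χ) {C : Finset I} (hC : C ⊆ L.Lam)
    {n₁ n : ℕ} (hn₁ : 1 ≤ n₁) (h : n₁ ≤ n) {S : Finset Γ} (hS : S.Nonempty) (t : Γ → ℂ) :
    χ (cls (L.CX C n₁ n S t)) =
      ∑ T ∈ Sᶜ.powerset, ∑ Q ∈ ((L.K \ C) \ L.Act S).powerset, ∑ Y ∈ C.powerset,
        ∑ u ∈ (LF.finite_UU L.a L.W S (sup L.W S ∪ Q ∪ Y) T).toFinset,
          L.cu χ S t T Q Y u n₁ := by
  rw [chi_CX_expand L (LF.isEulerChar_of_F hχ) hC h S t]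
  refine Finset.sum_congr rfl fun T _ => Finset.sum_congr rfl fun Q hQ =>
    Finset.sum_congr rfl fun Y hY => ?_
  have hQ' : Q ⊆ L.K := by
    intro i hi
    have h1 := Finset.mem_powerset.1 hQ hi
    rw [Finset.mem_sdiff, Finset.mem_sdiff] at h1
    exact h1.1.1
  have hY' : Y ⊆ L.K := by
    intro i hi
    have h1 := hC (Finset.mem_powerset.1 hY hi)
    unfold MLoc.Lam at h1
    exact (Finset.mem_filter.1 h1).1
  obtain ⟨g₀, hg₀⟩ := hS
  have hsup : ∀ g ∈ S, ∀ i, L.W g i ≠ 0 → i ∈ sup L.W S ∪ Q ∪ Y := by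
    intro g hg i hi
    rw [Finset.mem_union, Finset.mem_union]
    left
    left
    unfold sup
    rw [Finset.mem_filter]
    exact ⟨Finset.mem_univ _, g, hg, hi⟩
  unfold MLoc.cu
  refine s4_stratum L hχ hg₀ hn₁ h t T Q Y (sup L.W S ∪ Q ∪ Y) hsup ?_ ?_ ?_
  · intro i hi
    rw [Finset.mem_union, Finset.mem_union] at hi
    rcases hi with (hi | hi) | hi
    · unfold sup at hi
      rw [Finset.mem_filter] at hi
      exact Or.inl hi.2
    · exact Or.inr (hQ' hi)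
    · exact Or.inr (hY' hi)
  · intro i hi
    rw [Finset.mem_union, Finset.mem_union]
    exact Or.inl (Or.inr hi)
  · intro i hi
    unfold MLoc.Act at hi
    rw [Finset.mem_filter] at hi
    obtain ⟨-, g, hg, hgi⟩ := hi
    exact hsup g hg i (s4_W L hgi)

end LFM
end MotMono
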