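import Pool.Agent.Lib.MP_4e5fcd_ag.LFM.S4

/-!
# LFM-S5: the Euler characteristic of the contact jets of order `m` depends on `gcd (m, M₀)`

Let `M₀ = E * ∏ (pair (W g) u * ∏_i d (ch i))` over all `T, Q, Y, u ∈ UU`, `g ∈ S` (or any common multiple of all
numbers `d (ch i) * mn u`, `mn u = pair (W g) u`; `> 0` by `UU_pos`). For `n₁ = E m`: `mn u ∣ E m` iff
`mn u / gcd (mn u, E) ∣ m`, and `e ∣ m ↔ e ∣ gcd (m, M₀)` for `e ∣ M₀`. For `mn u ∣ E m`, `α = E m / mn u`: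
`d ∣ α u i` iff `d * mn u ∣ E m u i`, a condition of the form `e ∣ m`, `e = d mn u / gcd (d mn u, E u i) ∣ M₀`
(if `u i ≠ 0`; for `u i = 0` it holds). So `cu .. (E m) = cu .. (E gcd (m, M₀))`: `cu` depends on these
conditions only (`om d c` depends on `d ∣ c`). Then `struct_CX`.
-/

open MvPolynomial

namespace MotMono
namespace LFM

variable {I Γ : Type} [Fintype I] [Fintype Γ] {N s : ℕ} (L : MLoc I Γ N s)

private theorem s5_dvd {x c m M : ℕ} (h : x ∣ M) : x ∣ c * m ↔ x ∣ c * Nat.gcd m M := by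
  constructor
  · intro hx
    rw [← Nat.gcd_mul_left]
    exact Nat.dvd_gcd hx (h.trans (dvd_mul_left _ _))
  · intro hx
    exact hx.trans (mul_dvd_mul_left _ (Nat.gcd_dvd_left _ _))

private theorem s5_div {d k n y : ℕ} (hk : 0 < k) (h : k ∣ n) :
    d ∣ n / k * y ↔ d * k ∣ n * y := by
  obtain ⟨q, rfl⟩ := h
  rw [Nat.mul_div_cancel_left _ hk]
  have : k * q * y = q * y * k := by ring
  rw [this, Nat.mul_dvd_mul_iff_right hk]

private theorem s5_mn {S : Finset Γ} (hS : S.Nonempty) (w : Γ → I → ℕ) (u : I → ℕ) :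
    ∃ g ∈ S, LF.mn (fun g : S => w g) u = pair (w g) u := by
  have : Nonempty S := hS.to_subtype
  obtain ⟨g, hg⟩ := Nat.sInf_mem (s := Set.range fun g : S => pair (w g) u)
    (Set.range_nonempty _)
  exact ⟨g, g.2, hg.symm⟩

open Classical in
private theorem s5_cu (χ : K0 →+* ℤ) {S : Finset Γ} (hS : S.Nonempty) (t : Γ → ℂ)
    (T : Finset Γ) (Q Y : Finset I) (u : I → ℕ) (hpos : ∀ g ∈ S, 0 < pair (L.W g) u)
    {n₁ n₂ : ℕ} (h1 : ∀ g ∈ S, pair (L.W g) u ∣ n₁ ↔ pair (L.W g) u ∣ n₂)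
    (h2 : ∀ i, L.d (L.ch i) * LF.mn (fun g : S => L.W g) u ∣ n₁ * u i ↔
      L.d (L.ch i) * LF.mn (fun g : S => L.W g) u ∣ n₂ * u i) :
    L.cu χ S t T Q Y u n₁ = L.cu χ S t T Q Y u n₂ := by
  have h3 : (∀ g ∈ S, pair (L.W g) u ∣ n₁) ↔ ∀ g ∈ S, pair (L.W g) u ∣ n₂ :=
    forall₂_congr h1
  unfold MLoc.cu
  by_cases hc : ∀ g ∈ S, pair (L.W g) u ∣ n₁
  · have hc2 := h3.1 hc
    obtain ⟨g₀, hg₀, hmn⟩ := s5_mn hS L.W u
    have hk : 0 < LF.mn (fun g : S => L.W g) u := hmn ▸ hpos g₀ hg₀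
    have hk1 : LF.mn (fun g : S => L.W g) u ∣ n₁ := hmn ▸ hc g₀ hg₀
    have hk2 : LF.mn (fun g : S => L.W g) u ∣ n₂ := hmn ▸ hc2 g₀ hg₀
    have h4 : ∀ i, L.d (L.ch i) ∣ n₁ / LF.mn (fun g : S => L.W g) u * u i ↔
        L.d (L.ch i) ∣ n₂ / LF.mn (fun g : S => L.W g) u * u i := fun i => by
      rw [s5_div hk hk1, s5_div hk hk2]
      exact h2 i
    rw [if_pos hc, if_pos hc2]
    have e1 : ∀ i, om (L.d (L.ch i)) (n₁ / LF.mn (fun g : S => L.W g) u * u i) =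
        om (L.d (L.ch i)) (n₂ / LF.mn (fun g : S => L.W g) u * u i) := fun i => by
      unfold om
      simp only [h4 i]
    simp only [e1, h4]
  · rw [if_neg hc, if_neg fun hc2 => hc (h3.2 hc2)]

theorem exists_period {χ : K0 →+* ℤ} (hχ : IsEulerCharF χ) {C : Finset I} (hC : C ⊆ L.Lam)
    {S : Finset Γ} (hS : S.Nonempty) :
    ∃ M₀, 0 < M₀ ∧ ∀ (t : Γ → ℂ) (m n n' : ℕ), 1 ≤ m → L.E * m ≤ n → L.E * m ≤ n' →
      χ (cls (L.CX C (L.E * m) n S t)) = χ (cls (L.CX C (L.E * Nat.gcd m M₀) n' S t)) := by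
  classical
  set F : Finset Γ → Finset I → Finset I → Finset (I → ℕ) := fun T Q Y =>
    (LF.finite_UU L.a L.W S (sup L.W S ∪ Q ∪ Y) T).toFinset with hF
  set x : (I → ℕ) → ℕ := fun u => (∏ g ∈ S, pair (L.W g) u) *
    ((∏ i, L.d (L.ch i)) * LF.mn (fun g : S => L.W g) u) with hx
  have hxpos : ∀ T Q Y, ∀ u ∈ F T Q Y, 0 < x u := by
    intro T Q Y u hu
    have hu' := (Set.Finite.mem_toFinset _).1 hu
    have hp := (LF.UU_pos hu').2
    obtain ⟨g₀, hg₀, hmn⟩ := s5_mn hS L.W u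
    refine Nat.mul_pos (Finset.prod_pos hp) (Nat.mul_pos (Finset.prod_pos fun i _ => L.hd _) ?_)
    rw [hmn]
    exact hp g₀ hg₀
  refine ⟨∏ T : Finset Γ, ∏ Q : Finset I, ∏ Y : Finset I, ∏ u ∈ F T Q Y, x u,
    Finset.prod_pos fun T _ => Finset.prod_pos fun Q _ => Finset.prod_pos fun Y _ =>
      Finset.prod_pos fun u hu => hxpos T Q Y u hu, ?_⟩
  intro t m n n' hm hn hn'
  set M₀ := ∏ T : Finset Γ, ∏ Q : Finset I, ∏ Y : Finset I, ∏ u ∈ F T Q Y, x u with hM₀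
  have hdvd : ∀ T Q Y, ∀ u ∈ F T Q Y, x u ∣ M₀ := by
    intro T Q Y u hu
    calc x u ∣ ∏ u ∈ F T Q Y, x u := Finset.dvd_prod_of_mem _ hu
      _ ∣ ∏ Y : Finset I, ∏ u ∈ F T Q Y, x u :=
        Finset.dvd_prod_of_mem (fun Y => ∏ u ∈ F T Q Y, x u) (Finset.mem_univ Y)
      _ ∣ ∏ Q : Finset I, ∏ Y : Finset I, ∏ u ∈ F T Q Y, x u :=
        Finset.dvd_prod_of_mem (fun Q => ∏ Y : Finset I, ∏ u ∈ F T Q Y, x u) (Finset.mem_univ Q)
      _ ∣ M₀ := Finset.dvd_prod_of_mem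
        (fun T => ∏ Q : Finset I, ∏ Y : Finset I, ∏ u ∈ F T Q Y, x u) (Finset.mem_univ T)
  have hgm : Nat.gcd m M₀ ≤ m := Nat.gcd_le_left _ hm
  have hg1 : 1 ≤ Nat.gcd m M₀ := Nat.gcd_pos_of_pos_left _ hm
  rw [struct_CX L hχ hC (Nat.mul_pos L.hE hm) hn hS t,
    struct_CX L hχ hC (Nat.mul_pos L.hE hg1) ((Nat.mul_le_mul_left _ hgm).trans hn') hS t]
  refine Finset.sum_congr rfl fun T _ => Finset.sum_congr rfl fun Q _ =>
    Finset.sum_congr rfl fun Y _ => Finset.sum_congr rfl fun u hu => ?_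
  have hu' := (Set.Finite.mem_toFinset _).1 hu
  have hxd := hdvd T Q Y u hu
  refine s5_cu L χ hS t T Q Y u (LF.UU_pos hu').2 (fun g hg => s5_dvd ?_) (fun i => ?_)
  · exact (Finset.dvd_prod_of_mem (fun g => pair (L.W g) u) hg).trans
      ((dvd_mul_right _ _).trans hxd)
  · have h1 : L.d (L.ch i) * LF.mn (fun g : S => L.W g) u ∣ M₀ := by
      refine Dvd.dvd.trans ?_ ((dvd_mul_left _ _).trans hxd)
      exact mul_dvd_mul_right
        (Finset.dvd_prod_of_mem (fun i => L.d (L.ch i)) (Finset.mem_univ i)) _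
    have h2 := s5_dvd (c := L.E * u i) (m := m) h1
    have e1 : L.E * m * u i = L.E * u i * m := by ring
    have e2 : L.E * Nat.gcd m M₀ * u i = L.E * u i * Nat.gcd m M₀ := by ring
    rw [e1, e2]
    exact h2

end LFM
end MotMono
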