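import Pool.Agent.Lib.MP_4e5fcd_ag.LFM.X3b
import Pool.Agent.Lib.MP_4e5fcd_ag.LFM.X1
import Pool.Agent.Lib.MP_4e5fcd_ag.LF.J3
import Pool.Agent.Lib.MP_4e5fcd_ag.Kum.E3b

/-!
# LFM-X3c: jets over a deep point: coverings

`NT C n v` are the `i ∈ K \ C` with `v i < n`.
`constr_YV`: as usual (`LF.constr_vv_lc`).
`chi_YV_step`: on `YV A n v R` the leading coefficient `lc i`, `v i < n`, is the coordinate
`z (inl (bl i, v i + 1))` (`vv_single`) and not zero. `YV (insert i A) n v R` is the `kummerCover` of degree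
`d (ch i)` of `YV A n v R` along the polynomial `lc i / kap i`, up to the names of the coordinates: in
`YV A` the coordinate `inr i` is `1`, in `YV (insert i A)` it is `u` with `kap i * u ^ d = lc i`. (`hR`: the
condition `R` does not depend on the coordinate `inl i`.) `kap_ne_zero`: `p_ne_zero`.
`chi_XYM_QV`: `XYM β d Fr o (n + 1) ∩ QV C A n v R ≅ YV (NT C n v) n v R'`,
`R' = {z | (z with the coordinates inl i, i ∉ A, replaced by 1) ∈ R}`, by
`z ↦ (z ∘ inr, e)`, `e i = z (inl (ch i))` for `i ∈ NT`, `1` otherwise. Inverse: `z (inl l) = e i` for `l = ch i`,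
`i ∈ NT`; `0` for `l = ch i`, `i ∈ K` not in `NT` (`o = n + 1`), and for `l = cp i`, `i ∈ C`; `p l` if `o l = 0`; for
`l ∈ Fr` (`o l = 1`, `Mon.nuv β d o (β l) = 1`): `z (inl l) = z (inr (β l, 1))`. The conditions of `XYM`:
`nuv` of the block `k`: `d * (v i + 1) / d = v i + 1` for `k = bl i`, `i ∈ NT` (`h2`), `≥ n + 1` for `k = bl i`,
`i ∈ K` not in `NT` (`h1`), `1` for the blocks of `Fr`, `0` for all other blocks (all `p l ≠ 0`; the conditions
`z (k, 0) = ∏ c ^ d` are `z (k, 0) = yv p k`). Vanishing of `z_k` below `nuv` and the value at `nuv` are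
equivalent to `vv i = v i` and `kap i * e i ^ d = lc i`. For `l ∉ Fr`: `c_l ≠ 0`: `p l ≠ 0`, resp. `e i ≠ 0`
because `lc i ≠ 0`. If `n = 0`: `NT` is empty. Then use `chi_YV_step` for the elements of `NT \ A`.
-/

set_option linter.unusedSectionVars false

open MvPolynomial

namespace MotMono
namespace LFM

variable {I Γ : Type} [Fintype I] {N s : ℕ} (L : MLoc I Γ N s)

theorem kap_ne_zero {i : I} (hi : i ∈ L.K) : L.kap i ≠ 0 := by
  unfold MLoc.kap
  rw [Finset.prod_ne_zero_iff]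
  intro l hl
  rw [Finset.mem_filter] at hl
  exact pow_ne_zero _ (p_ne_zero L hi hl.2.1 hl.2.2)

/-- the polynomial giving the leading coefficient on the stratum `vv = v` -/
private noncomputable def x3cP (n : ℕ) (v : I → ℕ) (i : I) :
    MvPolynomial ((Fin s × Fin (n + 1)) ⊕ I) ℂ :=
  if h : v i < n then ∑ j, C (L.a i j) * X (Sum.inl (j, Fin.succ ⟨v i, h⟩)) else 1

omit [Fintype I] in
private theorem x3cP_eval (n : ℕ) (v : I → ℕ) (i : I) (z : (Fin s × Fin (n + 1)) ⊕ I → ℂ)
    (hz : LF.vv L.a (fun q => z (Sum.inl q)) = v) :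
    eval z (x3cP L n v i) = LF.lc L.a (fun q => z (Sum.inl q)) i := by
  subst hz
  unfold x3cP LF.lc
  by_cases h : LF.vv L.a (fun q => z (Sum.inl q)) i < n
  · rw [dif_pos h, dif_pos h]
    simp [dotProduct, lev]
  · rw [dif_neg h, dif_neg h, map_one]

theorem constr_YV (A : Finset I) (n : ℕ) (v : I → ℕ) {R : Set (I ⊕ I → ℂ)} (hR : Constr R) :
    Constr (L.YV A n v R) := by
  classical
  have h1 : Constr {z : (Fin s × Fin (n + 1)) ⊕ I → ℂ |
      ∀ k, z (Sum.inl (k, 0)) = yv L.β L.d L.p k} := by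
    have e : {z : (Fin s × Fin (n + 1)) ⊕ I → ℂ |
        ∀ k, z (Sum.inl (k, 0)) = yv L.β L.d L.p k} =
        ⋂ k, {z | eval z (X (Sum.inl (k, 0)) : MvPolynomial ((Fin s × Fin (n + 1)) ⊕ I) ℂ) =
          eval z (C (yv L.β L.d L.p k))} := by
      ext z
      simp
    rw [e]
    exact constr_iInter fun k => constr_eq _ _
  have h2 : Constr {z : (Fin s × Fin (n + 1)) ⊕ I → ℂ |
      LF.vv L.a (fun q => z (Sum.inl q)) = v} := (LF.constr_vv (n := n) L.a v).comp Sum.inl
  have h3 : Constr {z : (Fin s × Fin (n + 1)) ⊕ I → ℂ |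
      ∀ i ∈ A, eval z (C (L.kap i) * X (Sum.inr i) ^ L.d (L.ch i) :
        MvPolynomial ((Fin s × Fin (n + 1)) ⊕ I) ℂ) = eval z (x3cP L n v i)} := by
    have e : {z : (Fin s × Fin (n + 1)) ⊕ I → ℂ |
      ∀ i ∈ A, eval z (C (L.kap i) * X (Sum.inr i) ^ L.d (L.ch i) :
        MvPolynomial ((Fin s × Fin (n + 1)) ⊕ I) ℂ) = eval z (x3cP L n v i)} =
        ⋂ i ∈ A, {z | eval z (C (L.kap i) * X (Sum.inr i) ^ L.d (L.ch i) :
        MvPolynomial ((Fin s × Fin (n + 1)) ⊕ I) ℂ) = eval z (x3cP L n v i)} := by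
      ext z
      simp only [Set.mem_ofPred_eq, Set.mem_iInter]
    rw [e]
    exact constr_biInter_finset A fun i _ => constr_eq _ _
  have h4 : Constr {z : (Fin s × Fin (n + 1)) ⊕ I → ℂ |
      ∀ i, i ∉ A → z (Sum.inr i) = 1} := by
    have e : {z : (Fin s × Fin (n + 1)) ⊕ I → ℂ |
      ∀ i, i ∉ A → z (Sum.inr i) = 1} =
        ⋂ i ∈ Finset.univ.filter (fun i => i ∉ A),
          {z | eval z (X (Sum.inr i) : MvPolynomial ((Fin s × Fin (n + 1)) ⊕ I) ℂ) =
            eval z (C 1)} := by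
      ext z
      simp
    rw [e]
    exact constr_biInter_finset _ fun i _ => constr_eq _ _
  have h5 := hR.preimage (fun j : I ⊕ I => Sum.elim
    (fun i => (X (Sum.inr i) : MvPolynomial ((Fin s × Fin (n + 1)) ⊕ I) ℂ))
    (fun i => x3cP L n v i) j)
  have e : L.YV A n v R = ((({z : (Fin s × Fin (n + 1)) ⊕ I → ℂ |
      ∀ k, z (Sum.inl (k, 0)) = yv L.β L.d L.p k} ∩
      {z | LF.vv L.a (fun q => z (Sum.inl q)) = v}) ∩
      {z | ∀ i ∈ A, eval z (C (L.kap i) * X (Sum.inr i) ^ L.d (L.ch i) :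
        MvPolynomial ((Fin s × Fin (n + 1)) ⊕ I) ℂ) = eval z (x3cP L n v i)}) ∩
      {z | ∀ i, i ∉ A → z (Sum.inr i) = 1}) ∩
      {x | (fun j => eval x (Sum.elim
        (fun i => (X (Sum.inr i) : MvPolynomial ((Fin s × Fin (n + 1)) ⊕ I) ℂ))
        (fun i => x3cP L n v i) j)) ∈ R} := by
    ext z
    simp only [MLoc.YV, Set.mem_ofPred_eq, Set.mem_inter_iff]
    have hlc : LF.vv L.a (fun q => z (Sum.inl q)) = v → (fun j => eval z (Sum.elim
        (fun i => (X (Sum.inr i) : MvPolynomial ((Fin s × Fin (n + 1)) ⊕ I) ℂ))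
        (fun i => x3cP L n v i) j)) =
        Sum.elim (fun i => z (Sum.inr i)) (LF.lc L.a fun q => z (Sum.inl q)) := by
      intro hv
      funext j
      rcases j with i | i
      · simp
      · exact x3cP_eval L n v i z hv
    constructor
    · rintro ⟨a1, a2, a3, a4, a5⟩
      refine ⟨⟨⟨⟨a1, a2⟩, ?_⟩, a4⟩, ?_⟩
      · intro i hi
        rw [x3cP_eval L n v i z a2, ← a3 i hi]
        simp
      · rw [hlc a2]; exact a5
    · rintro ⟨⟨⟨⟨a1, a2⟩, a3⟩, a4⟩, a5⟩
      refine ⟨a1, a2, ?_, a4, ?_⟩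
      · intro i hi
        rw [← x3cP_eval L n v i z a2, ← a3 i hi]
        simp
      · rw [hlc a2] at a5; exact a5
  rw [e]
  exact (((h1.inter h2).inter h3).inter h4).inter h5

open Classical in
theorem chi_YV_step {χ : K0 →+* ℤ} (hχ : IsEulerChar χ) {A : Finset I} {i : I} (hi : i ∈ L.K)
    (hiA : i ∉ A) {n : ℕ} {v : I → ℕ} (hv : v i < n) {R : Set (I ⊕ I → ℂ)} (hR : Constr R)
    (hRi : ∀ z c, z ∈ R → Function.update z (Sum.inl i) c ∈ R) :
    χ (cls (L.YV (insert i A) n v R)) = L.d (L.ch i) * χ (cls (L.YV A n v R)) := by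
  have hkap := kap_ne_zero L hi
  set h : MvPolynomial ((Fin s × Fin (n + 1)) ⊕ I) ℂ := C ((L.kap i)⁻¹) * x3cP L n v i with hh
  have heval : ∀ z : (Fin s × Fin (n + 1)) ⊕ I → ℂ, LF.vv L.a (fun q => z (Sum.inl q)) = v →
      eval z h = (L.kap i)⁻¹ * LF.lc L.a (fun q => z (Sum.inl q)) i := by
    intro z hz
    rw [hh, map_mul, eval_C, x3cP_eval L n v i z hz]
  have hE := constr_YV L A n v hR
  have hne : ∀ x ∈ L.YV A n v R, eval x h ≠ 0 := by
    rintro x ⟨_, h2, _⟩
    rw [heval x h2]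
    exact mul_ne_zero (inv_ne_zero hkap) (LF.lc_ne_zero _ _ _)
  rw [← hχ.kummer (L.YV A n v R) hE h hne (L.d (L.ch i)) (L.hd _)]
  have hc' : Constr (kummerCover (L.YV A n v R) h (L.d (L.ch i))) := by
    have h1 := hE.comp (Sum.inl : _ → ((Fin s × Fin (n + 1)) ⊕ I) ⊕ Unit)
    have h2 := constr_eq (X (Sum.inr ()) ^ L.d (L.ch i) :
      MvPolynomial (((Fin s × Fin (n + 1)) ⊕ I) ⊕ Unit) ℂ) (rename Sum.inl h)
    have e : kummerCover (L.YV A n v R) h (L.d (L.ch i)) =
        {x : ((Fin s × Fin (n + 1)) ⊕ I) ⊕ Unit → ℂ | (fun j => x (Sum.inl j)) ∈ L.YV A n v R} ∩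
        {x | eval x (X (Sum.inr ()) ^ L.d (L.ch i) :
          MvPolynomial (((Fin s × Fin (n + 1)) ⊕ I) ⊕ Unit) ℂ) = eval x (rename Sum.inl h)} := by
      ext z
      simp only [kummerCover, Set.mem_ofPred_eq, Set.mem_inter_iff, map_pow, eval_X, eval_rename]
      rfl
    rw [e]
    exact h1.inter h2
  congr 1
  refine cls_iso (constr_YV L _ n v hR) hc' ?_
  refine ⟨fun z => Sum.elim (Function.update z (Sum.inr i) 1) (fun _ => z (Sum.inr i)),
    fun w => Function.update (fun x => w (Sum.inl x)) (Sum.inr i) (w (Sum.inr ())),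
    ?_, ?_, ?_, ?_, ?_, ?_⟩
  · rintro (x | u)
    · by_cases hx : x = Sum.inr i
      · subst hx
        simpa using regFun_const (L.YV (insert i A) n v R) 1
      · simpa [Function.update_of_ne hx] using regFun_coord (L.YV (insert i A) n v R) x
    · exact regFun_coord _ (Sum.inr i)
  · intro x
    by_cases hx : x = Sum.inr i
    · subst hx
      simpa using regFun_coord (kummerCover (L.YV A n v R) h (L.d (L.ch i))) (Sum.inr ())
    · simpa [Function.update_of_ne hx] using
        regFun_coord (kummerCover (L.YV A n v R) h (L.d (L.ch i))) (Sum.inl x)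
  · rintro z ⟨a1, a2, a3, a4, a5⟩
    have hz : (fun q => Function.update z (Sum.inr i) 1 (Sum.inl q)) =
        fun q : Fin s × Fin (n + 1) => z (Sum.inl q) := by
      funext q
      rw [Function.update_of_ne (by simp)]
    refine ⟨⟨?_, ?_, ?_, ?_, ?_⟩, ?_⟩
    · intro k
      have := a1 k
      change Function.update z (Sum.inr i) 1 (Sum.inl (k, 0)) = _
      rw [Function.update_of_ne (by simp)]
      exact this
    · change LF.vv L.a (fun q => Function.update z (Sum.inr i) 1 (Sum.inl q)) = v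
      rw [hz]; exact a2
    · intro i' hi'
      have hne' : i' ≠ i := fun e => hiA (e ▸ hi')
      change L.kap i' * (Function.update z (Sum.inr i) 1 (Sum.inr i')) ^ L.d (L.ch i') =
        LF.lc L.a (fun q => Function.update z (Sum.inr i) 1 (Sum.inl q)) i'
      rw [hz, Function.update_of_ne (by simpa using hne')]
      exact a3 i' (Finset.mem_insert_of_mem hi')
    · intro i' hi'
      change Function.update z (Sum.inr i) 1 (Sum.inr i') = 1
      by_cases e : i' = i
      · subst e; rw [Function.update_self]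
      · rw [Function.update_of_ne (by simpa using e)]
        exact a4 i' (by simp [e, hi'])
    · change Sum.elim (fun i' => Function.update z (Sum.inr i) 1 (Sum.inr i'))
        (LF.lc L.a fun q => Function.update z (Sum.inr i) 1 (Sum.inl q)) ∈ R
      rw [hz]
      have e : (Sum.elim (fun i' => Function.update z (Sum.inr i) 1 (Sum.inr i'))
        (LF.lc L.a fun q => z (Sum.inl q)) : I ⊕ I → ℂ) =
        Function.update (Sum.elim (fun i' => z (Sum.inr i'))
          (LF.lc L.a fun q => z (Sum.inl q))) (Sum.inl i) 1 := by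
        funext j
        rcases j with j | j
        · by_cases hj : j = i
          · subst hj; simp
          · rw [Sum.elim_inl, Function.update_of_ne (by simpa using hj),
              Function.update_of_ne (by simpa using hj), Sum.elim_inl]
        · rw [Sum.elim_inr, Function.update_of_ne (by simp), Sum.elim_inr]
      rw [e]
      exact hRi _ _ a5
    · change z (Sum.inr i) ^ L.d (L.ch i) =
        eval (Function.update z (Sum.inr i) 1) h
      rw [heval _ (by rw [hz]; exact a2), hz, ← a3 i (Finset.mem_insert_self i A),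
        inv_mul_cancel_left₀ hkap]
  · rintro w ⟨⟨a1, a2, a3, a4, a5⟩, a6⟩
    have hz : (fun q => Function.update (fun x => w (Sum.inl x)) (Sum.inr i) (w (Sum.inr ()))
        (Sum.inl q)) = fun q : Fin s × Fin (n + 1) => w (Sum.inl (Sum.inl q)) := by
      funext q
      rw [Function.update_of_ne (by simp)]
    refine ⟨?_, ?_, ?_, ?_, ?_⟩
    · intro k
      change Function.update (fun x => w (Sum.inl x)) (Sum.inr i) (w (Sum.inr ()))
        (Sum.inl (k, 0)) = _
      rw [Function.update_of_ne (by simp)]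
      exact a1 k
    · change LF.vv L.a (fun q => Function.update (fun x => w (Sum.inl x)) (Sum.inr i)
        (w (Sum.inr ())) (Sum.inl q)) = v
      rw [hz]; exact a2
    · intro i' hi'
      change L.kap i' * (Function.update (fun x => w (Sum.inl x)) (Sum.inr i)
        (w (Sum.inr ())) (Sum.inr i')) ^ L.d (L.ch i') =
        LF.lc L.a (fun q => Function.update (fun x => w (Sum.inl x)) (Sum.inr i)
        (w (Sum.inr ())) (Sum.inl q)) i'
      rw [hz]
      by_cases e : i' = i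
      · subst e
        rw [Function.update_self, a6, heval _ a2, mul_inv_cancel_left₀ hkap]
      · rw [Function.update_of_ne (by simpa using e)]
        exact a3 i' ((Finset.mem_insert.1 hi').resolve_left e)
    · intro i' hi'
      rw [Finset.mem_insert, not_or] at hi'
      change Function.update (fun x => w (Sum.inl x)) (Sum.inr i)
        (w (Sum.inr ())) (Sum.inr i') = 1
      rw [Function.update_of_ne (by simpa using hi'.1)]
      exact a4 i' hi'.2
    · change Sum.elim (fun i' => Function.update (fun x => w (Sum.inl x)) (Sum.inr i)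
        (w (Sum.inr ())) (Sum.inr i'))
        (LF.lc L.a fun q => Function.update (fun x => w (Sum.inl x)) (Sum.inr i)
        (w (Sum.inr ())) (Sum.inl q)) ∈ R
      rw [hz]
      have e : (Sum.elim (fun i' => Function.update (fun x => w (Sum.inl x)) (Sum.inr i)
        (w (Sum.inr ())) (Sum.inr i'))
        (LF.lc L.a fun q => w (Sum.inl (Sum.inl q))) : I ⊕ I → ℂ) =
        Function.update (Sum.elim (fun i' => w (Sum.inl (Sum.inr i')))
          (LF.lc L.a fun q => w (Sum.inl (Sum.inl q)))) (Sum.inl i) (w (Sum.inr ())) := by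
        funext j
        rcases j with j | j
        · by_cases hj : j = i
          · subst hj; simp
          · rw [Sum.elim_inl, Function.update_of_ne (by simpa using hj),
              Function.update_of_ne (by simpa using hj), Sum.elim_inl]
        · rw [Sum.elim_inr, Function.update_of_ne (by simp), Sum.elim_inr]
      rw [e]
      exact hRi _ _ a5
  · rintro z _
    funext x
    by_cases hx : x = Sum.inr i
    · subst hx; simp
    · simp [Function.update_of_ne hx]
  · rintro w ⟨⟨a1, a2, a3, a4, a5⟩, a6⟩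
    funext x
    rcases x with x | u
    · by_cases hx : x = Sum.inr i
      · subst hx
        simpa using (a4 i hiA).symm
      · simp [Function.update_of_ne hx]
    · simp

/-! ### orders of the variables -/

omit [Fintype I] in
private theorem x3c_inj {i i' : I} (hi : i ∈ L.K) (hi' : i' ∈ L.K) (h : L.bl i' = L.bl i) :
    i' = i := L.hbl i' hi' i hi h

omit [Fintype I] in
private theorem x3c_ch_inj {i i' : I} (hi : i ∈ L.K) (hi' : i' ∈ L.K) (h : L.ch i' = L.ch i) :
    i' = i :=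
  x3c_inj L hi hi' (by rw [← (L.hch i' hi').1, ← (L.hch i hi).1, h])

omit [Fintype I] in
private theorem x3c_cp {C : Finset I} (hC : C ⊆ L.Lam) {i : I} (hi : i ∈ C) :
    i ∈ L.K ∧ L.β (L.cp i) = L.bl i ∧ L.cp i ≠ L.ch i := by
  have h := hC hi
  unfold MLoc.Lam at h
  rw [Finset.mem_filter] at h
  have h2 := L.hcp i h.1 h.2
  exact ⟨h.1, h2.1, h2.2.1⟩

omit [Fintype I] in
private theorem x3c_cp_ne {C : Finset I} (hC : C ⊆ L.Lam) {i : I} (hi : i ∈ C) :
    ¬ ∃ i' ∈ L.K, L.ch i' = L.cp i := by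
  rintro ⟨i', hi', h⟩
  obtain ⟨h1, h2, h3⟩ := x3c_cp L hC hi
  have h4 : i' = i := x3c_inj L h1 hi' (by rw [← (L.hch i' hi').1, h, h2])
  rw [h4] at h
  exact h3 h.symm

private theorem x3c_o_top {C : Finset I} {n : ℕ} {v : I → ℕ} {i : I} (hi : i ∈ L.K)
    (h : i ∈ C ∨ n ≤ v i) : L.oV C n v (L.ch i) = n + 1 := by
  classical
  have hex : ∃ i' ∈ L.K, L.ch i' = L.ch i := ⟨i, hi, rfl⟩
  have e : hex.choose = i := x3c_ch_inj L hi hex.choose_spec.1 hex.choose_spec.2
  unfold MLoc.oV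
  rw [dif_pos hex, e, if_pos h]

private theorem x3c_o_act {C : Finset I} {n : ℕ} {v : I → ℕ} {i : I} (hi : i ∈ L.K)
    (h : ¬ (i ∈ C ∨ n ≤ v i)) : L.oV C n v (L.ch i) = (v i + 1) / L.d (L.ch i) := by
  classical
  have hex : ∃ i' ∈ L.K, L.ch i' = L.ch i := ⟨i, hi, rfl⟩
  have e : hex.choose = i := x3c_ch_inj L hi hex.choose_spec.1 hex.choose_spec.2
  unfold MLoc.oV
  rw [dif_pos hex, e, if_neg h]

private theorem x3c_o_cp {C : Finset I} (hC : C ⊆ L.Lam) {n : ℕ} {v : I → ℕ} {i : I}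
    (hi : i ∈ C) : L.oV C n v (L.cp i) = n + 1 := by
  classical
  unfold MLoc.oV
  rw [dif_neg (x3c_cp_ne L hC hi), if_pos ⟨i, hi, rfl⟩]

private theorem x3c_o_p0 {C : Finset I} {n : ℕ} {v : I → ℕ} {l : Fin N}
    (h1 : ¬ ∃ i ∈ L.K, L.ch i = l) (h2 : ¬ ∃ i ∈ C, L.cp i = l) (h3 : L.p l = 0) :
    L.oV C n v l = 1 := by
  classical
  unfold MLoc.oV
  rw [dif_neg h1, if_neg h2, if_pos h3]

private theorem x3c_o_pn {C : Finset I} {n : ℕ} {v : I → ℕ} {l : Fin N}
    (h1 : ¬ ∃ i ∈ L.K, L.ch i = l) (h2 : ¬ ∃ i ∈ C, L.cp i = l) (h3 : L.p l ≠ 0) :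
    L.oV C n v l = 0 := by
  classical
  unfold MLoc.oV
  rw [dif_neg h1, if_neg h2, if_neg h3]

/-- the other variables of a block which is not in `C` -/
private theorem x3c_blk {C : Finset I} (hC : C ⊆ L.Lam) {i : I} (hi : i ∈ L.K) (hiC : i ∉ C)
    {l : Fin N} (hl : L.β l = L.bl i) (hne : l ≠ L.ch i) :
    (¬ ∃ i ∈ L.K, L.ch i = l) ∧ (¬ ∃ i ∈ C, L.cp i = l) ∧ L.p l ≠ 0 := by
  refine ⟨?_, ?_, p_ne_zero L hi hl hne⟩
  · rintro ⟨i', hi', h⟩
    have h4 : i' = i := x3c_inj L hi hi' (by rw [← (L.hch i' hi').1, h, hl])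
    rw [h4] at h
    exact hne h.symm
  · rintro ⟨i', hi', h⟩
    obtain ⟨h1, h2, h3⟩ := x3c_cp L hC hi'
    have h4 : i' = i := x3c_inj L hi h1 (by rw [← h2, h, hl])
    rw [h4] at hi'
    exact hiC hi'

/-- the variables of a block without index in `K` -/
private theorem x3c_out {C : Finset I} (hC : C ⊆ L.Lam) {k : Fin s} (hk : ∀ i ∈ L.K, L.bl i ≠ k)
    {l : Fin N} (hl : L.β l = k) :
    (¬ ∃ i ∈ L.K, L.ch i = l) ∧ (¬ ∃ i ∈ C, L.cp i = l) := by
  refine ⟨?_, ?_⟩
  · rintro ⟨i', hi', h⟩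
    exact hk i' hi' (by rw [← (L.hch i' hi').1, h, hl])
  · rintro ⟨i', hi', h⟩
    obtain ⟨h1, h2, h3⟩ := x3c_cp L hC hi'
    exact hk i' h1 (by rw [← h2, h, hl])

private theorem x3c_nu_act {C : Finset I} (hC : C ⊆ L.Lam) {n : ℕ} {v : I → ℕ} {i : I}
    (hi : i ∈ L.K) (h : ¬ (i ∈ C ∨ n ≤ v i)) (hd : L.d (L.ch i) ∣ v i + 1) :
    Mon.nuv L.β L.d (L.oV C n v) (L.bl i) = v i + 1 := by
  unfold Mon.nuv
  rw [Finset.sum_eq_single (L.ch i)]
  · rw [x3c_o_act L hi h, Nat.mul_div_cancel' hd]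
  · intro l hl hne
    rw [Finset.mem_filter] at hl
    obtain ⟨h1, h2, h3⟩ := x3c_blk L hC hi (fun hc => h (Or.inl hc)) hl.2 hne
    rw [x3c_o_pn L h1 h2 h3, mul_zero]
  · intro hcon
    exact (hcon (Finset.mem_filter.2 ⟨Finset.mem_univ _, (L.hch i hi).1⟩)).elim

private theorem x3c_nu_top {C : Finset I} {n : ℕ} {v : I → ℕ} {i : I}
    (hi : i ∈ L.K) (h : i ∈ C ∨ n ≤ v i) :
    n + 1 ≤ Mon.nuv L.β L.d (L.oV C n v) (L.bl i) := by
  unfold Mon.nuv
  refine le_trans ?_ (Finset.single_le_sum (f := fun l => L.d l * L.oV C n v l)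
    (fun l _ => Nat.zero_le _) (Finset.mem_filter.2 ⟨Finset.mem_univ _, (L.hch i hi).1⟩))
  rw [x3c_o_top L hi h]
  exact Nat.le_mul_of_pos_left _ (L.hd _)

omit [Fintype I] in
private theorem x3c_single {k : Fin s} (hk : ∀ i ∈ L.K, L.bl i ≠ k) {l : Fin N} (hl : L.β l = k)
    (hp : L.p l = 0) : L.d l = 1 ∧ Finset.univ.filter (fun l' => L.β l' = k) = {l} := by
  rcases L.hp l hp with ⟨i, hi, h⟩ | ⟨h1, h2, h3⟩
  · exact absurd (by rw [← (L.hch i hi).1, ← h, hl]) (hk i hi)
  · refine ⟨h1, ?_⟩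
    ext l'
    rw [Finset.mem_filter, Finset.mem_singleton]
    constructor
    · rintro ⟨_, h4⟩
      exact h2 l' (by rw [h4, hl])
    · rintro rfl
      exact ⟨Finset.mem_univ _, hl⟩

private theorem x3c_nu_p0 {C : Finset I} (hC : C ⊆ L.Lam) {n : ℕ} {v : I → ℕ} {k : Fin s}
    (hk : ∀ i ∈ L.K, L.bl i ≠ k) {l : Fin N} (hl : L.β l = k) (hp : L.p l = 0) :
    Mon.nuv L.β L.d (L.oV C n v) k = 1 := by
  obtain ⟨h1, h2⟩ := x3c_single L hk hl hp
  obtain ⟨h3, h4⟩ := x3c_out L hC hk hl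
  unfold Mon.nuv
  rw [h2, Finset.sum_singleton, h1, x3c_o_p0 L h3 h4 hp]

private theorem x3c_nu_pn {C : Finset I} (hC : C ⊆ L.Lam) {n : ℕ} {v : I → ℕ} {k : Fin s}
    (hk : ∀ i ∈ L.K, L.bl i ≠ k) (hp : ∀ l, L.β l = k → L.p l ≠ 0) :
    Mon.nuv L.β L.d (L.oV C n v) k = 0 := by
  unfold Mon.nuv
  refine Finset.sum_eq_zero fun l hl => ?_
  rw [Finset.mem_filter] at hl
  obtain ⟨h3, h4⟩ := x3c_out L hC hk hl.2
  rw [x3c_o_pn L h3 h4 (hp l hl.2), mul_zero]

open Classical in
/-- the leading coefficients of the variables -/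
private noncomputable def x3cx (C : Finset I) (n : ℕ) (v : I → ℕ)
    (y : (Fin s × Fin (n + 1)) ⊕ I → ℂ) (l : Fin N) : ℂ :=
  if h : ∃ i ∈ L.K, L.ch i = l then
    (if h.choose ∈ C ∨ n ≤ v h.choose then 0 else y (Sum.inr h.choose))
  else if ∃ i ∈ C, L.cp i = l then 0
  else if L.p l = 0 then
    (if h : 1 < n + 1 then y (Sum.inl (L.β l, ⟨1, h⟩)) else 0)
  else L.p l

private theorem x3cx_reg (C : Finset I) (n : ℕ) (v : I → ℕ)
    (E : Set ((Fin s × Fin (n + 1)) ⊕ I → ℂ)) (l : Fin N) :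
    RegFun E (fun y => x3cx L C n v y l) := by
  classical
  unfold x3cx
  split_ifs
  · exact regFun_const _ _
  · exact regFun_coord _ _
  · exact regFun_const _ _
  · exact regFun_coord _ _
  · exact regFun_const _ _
  · exact regFun_const _ _

private theorem x3cx_top {C : Finset I} {n : ℕ} {v : I → ℕ} (y : (Fin s × Fin (n + 1)) ⊕ I → ℂ)
    {i : I} (hi : i ∈ L.K) (h : i ∈ C ∨ n ≤ v i) : x3cx L C n v y (L.ch i) = 0 := by
  classical
  have hex : ∃ i' ∈ L.K, L.ch i' = L.ch i := ⟨i, hi, rfl⟩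
  have e : hex.choose = i := x3c_ch_inj L hi hex.choose_spec.1 hex.choose_spec.2
  unfold x3cx
  rw [dif_pos hex, e, if_pos h]

private theorem x3cx_act {C : Finset I} {n : ℕ} {v : I → ℕ} (y : (Fin s × Fin (n + 1)) ⊕ I → ℂ)
    {i : I} (hi : i ∈ L.K) (h : ¬ (i ∈ C ∨ n ≤ v i)) :
    x3cx L C n v y (L.ch i) = y (Sum.inr i) := by
  classical
  have hex : ∃ i' ∈ L.K, L.ch i' = L.ch i := ⟨i, hi, rfl⟩
  have e : hex.choose = i := x3c_ch_inj L hi hex.choose_spec.1 hex.choose_spec.2
  unfold x3cx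
  rw [dif_pos hex, e, if_neg h]

private theorem x3cx_cp {C : Finset I} (hC : C ⊆ L.Lam) {n : ℕ} {v : I → ℕ}
    (y : (Fin s × Fin (n + 1)) ⊕ I → ℂ) {i : I} (hi : i ∈ C) :
    x3cx L C n v y (L.cp i) = 0 := by
  classical
  unfold x3cx
  rw [dif_neg (x3c_cp_ne L hC hi), if_pos ⟨i, hi, rfl⟩]

private theorem x3cx_p0 {C : Finset I} {n : ℕ} {v : I → ℕ} (y : (Fin s × Fin (n + 1)) ⊕ I → ℂ)
    {l : Fin N} (h1 : ¬ ∃ i ∈ L.K, L.ch i = l) (h2 : ¬ ∃ i ∈ C, L.cp i = l) (h3 : L.p l = 0)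
    (h : 1 < n + 1) : x3cx L C n v y l = y (Sum.inl (L.β l, ⟨1, h⟩)) := by
  classical
  unfold x3cx
  rw [dif_neg h1, if_neg h2, if_pos h3, dif_pos h]

private theorem x3cx_p0' {C : Finset I} {n : ℕ} {v : I → ℕ} (y : (Fin s × Fin (n + 1)) ⊕ I → ℂ)
    {l : Fin N} (h1 : ¬ ∃ i ∈ L.K, L.ch i = l) (h2 : ¬ ∃ i ∈ C, L.cp i = l) (h3 : L.p l = 0)
    (h : ¬ 1 < n + 1) : x3cx L C n v y l = 0 := by
  classical
  unfold x3cx
  rw [dif_neg h1, if_neg h2, if_pos h3, dif_neg h]

private theorem x3cx_pn {C : Finset I} {n : ℕ} {v : I → ℕ} (y : (Fin s × Fin (n + 1)) ⊕ I → ℂ)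
    {l : Fin N} (h1 : ¬ ∃ i ∈ L.K, L.ch i = l) (h2 : ¬ ∃ i ∈ C, L.cp i = l) (h3 : L.p l ≠ 0) :
    x3cx L C n v y l = L.p l := by
  classical
  unfold x3cx
  rw [dif_neg h1, if_neg h2, if_neg h3]

omit [Fintype I] in
/-- the product over a block -/
private theorem x3c_prod {i : I} (hi : i ∈ L.K) (x : Fin N → ℂ)
    (hx : ∀ l, L.β l = L.bl i → l ≠ L.ch i → x l = L.p l) :
    ∏ l ∈ Finset.univ.filter (fun l => L.β l = L.bl i), x l ^ L.d l =
      L.kap i * x (L.ch i) ^ L.d (L.ch i) := by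
  have hmem : L.ch i ∈ Finset.univ.filter (fun l => L.β l = L.bl i) :=
    Finset.mem_filter.2 ⟨Finset.mem_univ _, (L.hch i hi).1⟩
  rw [← Finset.mul_prod_erase _ _ hmem, mul_comm]
  congr 1
  unfold MLoc.kap
  refine Finset.prod_congr ?_ ?_
  · ext l
    simp only [Finset.mem_erase, Finset.mem_filter, Finset.mem_univ, true_and]
    tauto
  · intro l hl
    rw [Finset.mem_filter] at hl
    rw [hx l hl.2.1 hl.2.2]

omit [Fintype I] in
private theorem x3c_yv0 {l : Fin N} (h : L.p l = 0) : yv L.β L.d L.p (L.β l) = 0 := by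
  unfold yv
  refine Finset.prod_eq_zero (i := l) (Finset.mem_filter.2 ⟨Finset.mem_univ _, rfl⟩) ?_
  rw [h, zero_pow (L.hd l).ne']

private theorem x3c_lc {i : I} (hi : i ∈ L.K) {n : ℕ} (γ : Fin s × Fin (n + 1) → ℂ) {v : I → ℕ}
    (hvv : LF.vv L.a γ = v) (h : v i < n) :
    LF.lc L.a γ i = γ (L.bl i, ⟨v i + 1, Nat.succ_lt_succ h⟩) := by
  subst hvv
  exact (vv_single (L.hK i hi) γ).2.1 h

private theorem x3c_low {i : I} (hi : i ∈ L.K) {n : ℕ} (γ : Fin s × Fin (n + 1) → ℂ) {v : I → ℕ}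
    (hvv : LF.vv L.a γ = v) (h0 : ∀ k, γ (k, 0) = yv L.β L.d L.p k) (j : Fin (n + 1))
    (hj : (j : ℕ) ≤ v i) : γ (L.bl i, j) = 0 := by
  subst hvv
  induction j using Fin.cases with
  | zero =>
    rw [h0, ← (L.hch i hi).1]
    exact x3c_yv0 L (L.hch i hi).2
  | succ j =>
    refine (vv_single (L.hK i hi) γ).2.2 j ?_
    rw [Fin.val_succ] at hj
    omega

open Classical in
theorem chi_XYM_QV {χ : K0 →+* ℤ} (hχ : IsEulerChar χ) {C A : Finset I} (hC : C ⊆ L.Lam)
    (hA : A ⊆ L.K \ C) {n : ℕ} {v : I → ℕ} (hv : ∀ i ∈ A, v i < n) {R : Set (I ⊕ I → ℂ)}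
    (hR : Constr R) (h1 : ∀ i ∈ C, n ≤ v i)
    (h2 : ∀ i ∈ L.K \ C, v i < n → L.d (L.ch i) ∣ v i + 1) :
    χ (cls (XYM L.β L.d L.Fr (L.oV C n v) (n + 1) ∩ L.QV C A n v R)) =
      (∏ i ∈ ((L.K \ C) \ A).filter (fun i => v i < n), (L.d (L.ch i) : ℤ)) *
        χ (cls (L.YV A n v R)) := by
  set NT := (L.K \ C).filter (fun i => v i < n) with hNT
  have hNTmem : ∀ i, i ∈ NT ↔ i ∈ L.K ∧ ¬ (i ∈ C ∨ n ≤ v i) := by
    intro i
    rw [hNT, Finset.mem_filter, Finset.mem_sdiff, not_or, not_le]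
    tauto
  have hNTd : ∀ i ∈ NT, L.d (L.ch i) ∣ v i + 1 := by
    intro i hi
    rw [hNT, Finset.mem_filter] at hi
    exact h2 i hi.1 hi.2
  have hNTv : ∀ i ∈ NT, v i < n := by
    intro i hi
    rw [hNT, Finset.mem_filter] at hi
    exact hi.2
  have hANT : A ⊆ NT := fun i hi => by
    rw [hNT, Finset.mem_filter]; exact ⟨hA hi, hv i hi⟩
  -- the reduced condition
  let R' : Set (I ⊕ I → ℂ) := {w | (fun j : I ⊕ I => Sum.elim
    (fun i => if i ∈ A then w (Sum.inl i) else 1) (fun i => w (Sum.inr i)) j) ∈ R}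
  have hR' : Constr R' := by
    have h := hR.preimage (fun j : I ⊕ I => Sum.elim
      (fun i => if i ∈ A then (X (Sum.inl i) : MvPolynomial (I ⊕ I) ℂ) else 1)
      (fun i => (X (Sum.inr i) : MvPolynomial (I ⊕ I) ℂ)) j)
    have e : R' = {w : I ⊕ I → ℂ | (fun j => eval w (Sum.elim
      (fun i => if i ∈ A then (X (Sum.inl i) : MvPolynomial (I ⊕ I) ℂ) else 1)
      (fun i => (X (Sum.inr i) : MvPolynomial (I ⊕ I) ℂ)) j)) ∈ R} := by
      ext w
      simp only [R', Set.mem_ofPred_eq]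
      have : (fun j : I ⊕ I => (Sum.elim (fun i => if i ∈ A then w (Sum.inl i) else 1)
          (fun i => w (Sum.inr i)) j : ℂ)) = fun j => eval w (Sum.elim
          (fun i => if i ∈ A then (X (Sum.inl i) : MvPolynomial (I ⊕ I) ℂ) else 1)
          (fun i => (X (Sum.inr i) : MvPolynomial (I ⊕ I) ℂ)) j) := by
        funext j
        rcases j with j | j
        · rw [Sum.elim_inl, Sum.elim_inl]
          split_ifs <;> simp
        · rw [Sum.elim_inr, Sum.elim_inr, eval_X]
      rw [this]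
    rw [e]
    exact h
  have hRi' : ∀ i, i ∉ A → ∀ z c, z ∈ R' → Function.update z (Sum.inl i) c ∈ R' := by
    intro i hiA z c hz
    have e : (fun j : I ⊕ I => (Sum.elim
        (fun i' => if i' ∈ A then Function.update z (Sum.inl i) c (Sum.inl i') else 1)
        (fun i' => Function.update z (Sum.inl i) c (Sum.inr i')) j : ℂ)) =
        fun j : I ⊕ I => Sum.elim (fun i' => if i' ∈ A then z (Sum.inl i') else 1)
          (fun i' => z (Sum.inr i')) j := by
      funext j
      rcases j with j | j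
      · rw [Sum.elim_inl, Sum.elim_inl]
        by_cases hj : j ∈ A
        · rw [if_pos hj, if_pos hj, Function.update_of_ne]
          intro e
          exact hiA (Sum.inl_injective e ▸ hj)
        · rw [if_neg hj, if_neg hj]
      · rw [Sum.elim_inr, Sum.elim_inr, Function.update_of_ne (by simp)]
    change (fun j : I ⊕ I => (Sum.elim
        (fun i' => if i' ∈ A then Function.update z (Sum.inl i) c (Sum.inl i') else 1)
        (fun i' => Function.update z (Sum.inl i) c (Sum.inr i')) j : ℂ)) ∈ R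
    rw [e]
    exact hz
  -- coverings
  have hstep : ∀ B : Finset I, B ⊆ NT \ A → χ (cls (L.YV (A ∪ B) n v R')) =
      (∏ i ∈ B, (L.d (L.ch i) : ℤ)) * χ (cls (L.YV A n v R')) := by
    intro B
    induction B using Finset.induction_on with
    | empty => intro _; rw [Finset.union_empty, Finset.prod_empty, one_mul]
    | insert b B hb ih =>
      intro hB
      have hbN := hB (Finset.mem_insert_self b B)
      rw [Finset.mem_sdiff] at hbN
      rw [Finset.union_insert, Finset.prod_insert hb, mul_assoc,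
        ← ih ((Finset.subset_insert b B).trans hB)]
      refine chi_YV_step L hχ ((hNTmem b).1 hbN.1).1 ?_ (hNTv b hbN.1) hR' (hRi' b hbN.2)
      rw [Finset.mem_union, not_or]
      exact ⟨hbN.2, hb⟩
  have hYV : L.YV A n v R' = L.YV A n v R := by
    ext z
    simp only [MLoc.YV, Set.mem_ofPred_eq]
    refine and_congr_right fun _ => and_congr_right fun _ => and_congr_right fun _ =>
      and_congr_right fun hz => ?_
    have e : (fun j : I ⊕ I => (Sum.elim
        (fun i => if i ∈ A then (Sum.elim (fun i => z (Sum.inr i))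
          (LF.lc L.a fun q => z (Sum.inl q)) : I ⊕ I → ℂ) (Sum.inl i) else 1)
        (fun i => (Sum.elim (fun i => z (Sum.inr i))
          (LF.lc L.a fun q => z (Sum.inl q)) : I ⊕ I → ℂ) (Sum.inr i)) j : ℂ)) =
        Sum.elim (fun i => z (Sum.inr i)) (LF.lc L.a fun q => z (Sum.inl q)) := by
      funext j
      rcases j with j | j
      · rw [Sum.elim_inl, Sum.elim_inl]
        by_cases hj : j ∈ A
        · rw [if_pos hj]
        · rw [if_neg hj, hz j hj]
      · rw [Sum.elim_inr]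
    change (fun j : I ⊕ I => (Sum.elim
        (fun i => if i ∈ A then (Sum.elim (fun i => z (Sum.inr i))
          (LF.lc L.a fun q => z (Sum.inl q)) : I ⊕ I → ℂ) (Sum.inl i) else 1)
        (fun i => (Sum.elim (fun i => z (Sum.inr i))
          (LF.lc L.a fun q => z (Sum.inl q)) : I ⊕ I → ℂ) (Sum.inr i)) j : ℂ)) ∈ R ↔ _
    rw [e]
  have hfil : ((L.K \ C) \ A).filter (fun i => v i < n) = NT \ A := by
    ext i
    rw [hNT, Finset.mem_filter, Finset.mem_sdiff, Finset.mem_sdiff (t := A), Finset.mem_filter]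
    tauto
  rw [hfil, ← hYV, ← hstep (NT \ A) (le_refl _), Finset.union_sdiff_of_subset hANT]
  congr 1
  -- the isomorphism
  refine cls_iso ((constr_XYM _ _ _ _ _).inter (constr_QV L C A n v hR))
    (constr_YV L NT n v hR') ?_
  refine ⟨fun z => Sum.elim (fun q => z (Sum.inr q))
      (fun i => if i ∈ NT then z (Sum.inl (L.ch i)) else 1),
    fun y => Sum.elim (x3cx L C n v y) (fun q => y (Sum.inl q)), ?_, ?_, ?_, ?_, ?_, ?_⟩
  · rintro (q | i)
    · exact regFun_coord _ (Sum.inr q)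
    · by_cases hi : i ∈ NT
      · simpa [hi] using regFun_coord
          (XYM L.β L.d L.Fr (L.oV C n v) (n + 1) ∩ L.QV C A n v R) (Sum.inl (L.ch i))
      · simpa [hi] using regFun_const
          (XYM L.β L.d L.Fr (L.oV C n v) (n + 1) ∩ L.QV C A n v R) 1
  · rintro (l | q)
    · exact x3cx_reg L C n v _ l
    · exact regFun_coord _ (Sum.inl q)
  · rintro z ⟨⟨z1, z2, z3, z4⟩, ⟨q1, q2, q3, q4⟩⟩
    refine ⟨q2, q3, ?_, ?_, ?_⟩
    · intro i hi
      obtain ⟨hiK, ht⟩ := (hNTmem i).1 hi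
      have hn := x3c_nu_act L hC hiK ht (hNTd i hi)
      change L.kap i * (if i ∈ NT then z (Sum.inl (L.ch i)) else 1) ^ L.d (L.ch i) =
        LF.lc L.a (fun q => z (Sum.inr q)) i
      rw [if_pos hi, x3c_lc L hiK _ q3 (hNTv i hi)]
      have hlt : Mon.nuv L.β L.d (L.oV C n v) (L.bl i) < n + 1 := by
        rw [hn]
        exact Nat.succ_lt_succ (hNTv i hi)
      have h := z2 (L.bl i) hlt
      have e : (⟨Mon.nuv L.β L.d (L.oV C n v) (L.bl i), hlt⟩ : Fin (n + 1)) =
          ⟨v i + 1, Nat.succ_lt_succ (hNTv i hi)⟩ := Fin.ext hn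
      rw [e] at h
      change _ = z (Sum.inr (L.bl i, ⟨v i + 1, _⟩))
      rw [h, x3c_prod L hiK _ fun l hl hne => ?_]
      obtain ⟨e1, e2, e3⟩ := x3c_blk L hC hiK (fun hc => ht (Or.inl hc)) hl hne
      exact q1 l (x3c_o_pn L e1 e2 e3)
    · intro i hi
      change (if i ∈ NT then z (Sum.inl (L.ch i)) else 1) = 1
      rw [if_neg hi]
    · change (fun j : I ⊕ I => (Sum.elim
        (fun i => if i ∈ A then (if i ∈ NT then z (Sum.inl (L.ch i)) else 1) else 1)
        (fun i => LF.lc L.a (fun q => z (Sum.inr q)) i) j : ℂ)) ∈ R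
      have e : (fun j : I ⊕ I => (Sum.elim
        (fun i => if i ∈ A then (if i ∈ NT then z (Sum.inl (L.ch i)) else 1) else 1)
        (fun i => LF.lc L.a (fun q => z (Sum.inr q)) i) j : ℂ)) =
        Sum.elim (fun i => if i ∈ A then z (Sum.inl (L.ch i)) else 1)
          (LF.lc L.a fun q => z (Sum.inr q)) := by
        funext j
        rcases j with j | j
        · rw [Sum.elim_inl, Sum.elim_inl]
          by_cases hj : j ∈ A
          · rw [if_pos hj, if_pos hj, if_pos (hANT hj)]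
          · rw [if_neg hj, if_neg hj]
        · rfl
      rw [e]
      exact q4
  · rintro y ⟨y0, yv', yN, y1, yR⟩
    have hlow : ∀ i ∈ L.K, ∀ j : Fin (n + 1), (j : ℕ) ≤ v i → y (Sum.inl (L.bl i, j)) = 0 :=
      fun i hi j hj => x3c_low L hi (fun q => y (Sum.inl q)) yv' y0 j hj
    have hne : ∀ i ∈ NT, y (Sum.inr i) ≠ 0 := by
      intro i hi h0
      have h := yN i hi
      rw [h0, zero_pow (L.hd _).ne', mul_zero] at h
      exact LF.lc_ne_zero _ _ _ h.symm
    refine ⟨⟨?_, ?_, ?_, ?_⟩, ⟨?_, ?_, ?_, ?_⟩⟩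
    · intro k j hj
      change y (Sum.inl (k, j)) = 0
      by_cases hk : ∃ i ∈ L.K, L.bl i = k
      · obtain ⟨i, hi, rfl⟩ := hk
        refine hlow i hi j ?_
        by_cases ht : i ∈ C ∨ n ≤ v i
        · have hn : n ≤ v i := by
            rcases ht with h | h
            · exact h1 i h
            · exact h
          have := j.2
          omega
        · rw [x3c_nu_act L hC hi ht (hNTd i ((hNTmem i).2 ⟨hi, ht⟩))] at hj
          omega
      · have hk' : ∀ i ∈ L.K, L.bl i ≠ k := fun i hi e => hk ⟨i, hi, e⟩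
        by_cases hp : ∃ l, L.β l = k ∧ L.p l = 0
        · obtain ⟨l, hl, hp⟩ := hp
          rw [x3c_nu_p0 L hC hk' hl hp] at hj
          have hj0 : j = 0 := Fin.ext (by simpa using hj)
          rw [hj0, y0 k, ← hl]
          exact x3c_yv0 L hp
        · rw [x3c_nu_pn L hC hk' fun l hl h0 => hp ⟨l, hl, h0⟩] at hj
          exact absurd hj (Nat.not_lt_zero _)
    · intro k hlt
      change y (Sum.inl (k, ⟨_, hlt⟩)) =
        ∏ l ∈ Finset.univ.filter (fun l => L.β l = k), x3cx L C n v y l ^ L.d l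
      by_cases hk : ∃ i ∈ L.K, L.bl i = k
      · obtain ⟨i, hi, rfl⟩ := hk
        by_cases ht : i ∈ C ∨ n ≤ v i
        · exact absurd hlt (not_lt.2 (x3c_nu_top L hi ht))
        · have hiN := (hNTmem i).2 ⟨hi, ht⟩
          have hn := x3c_nu_act L hC hi ht (hNTd i hiN)
          rw [x3c_prod L hi _ fun l hl hne => ?_]
          · rw [x3cx_act L y hi ht, yN i hiN, x3c_lc L hi _ yv' (hNTv i hiN)]
            congr 3
            exact Fin.ext hn
          · obtain ⟨e1, e2, e3⟩ := x3c_blk L hC hi (fun hc => ht (Or.inl hc)) hl hne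
            exact x3cx_pn L y e1 e2 e3
      · have hk' : ∀ i ∈ L.K, L.bl i ≠ k := fun i hi e => hk ⟨i, hi, e⟩
        by_cases hp : ∃ l, L.β l = k ∧ L.p l = 0
        · obtain ⟨l, hl, hp⟩ := hp
          obtain ⟨e1, e2⟩ := x3c_single L hk' hl hp
          obtain ⟨e3, e4⟩ := x3c_out L hC hk' hl
          have hn := x3c_nu_p0 L hC (n := n) (v := v) hk' hl hp
          have hlt1 : 1 < n + 1 := by omega
          rw [e2, Finset.prod_singleton, e1, pow_one, x3cx_p0 L y e3 e4 hp hlt1, hl]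
          congr 3
          exact Fin.ext hn
        · have hp' : ∀ l, L.β l = k → L.p l ≠ 0 := fun l hl h0 => hp ⟨l, hl, h0⟩
          have hn := x3c_nu_pn L hC (n := n) (v := v) hk' hp'
          have e : (⟨Mon.nuv L.β L.d (L.oV C n v) k, hlt⟩ : Fin (n + 1)) = 0 := Fin.ext hn
          rw [e, y0 k]
          unfold yv
          refine Finset.prod_congr rfl fun l hl => ?_
          rw [Finset.mem_filter] at hl
          obtain ⟨e3, e4⟩ := x3c_out L hC hk' hl.2
          rw [x3cx_pn L y e3 e4 (hp' l hl.2)]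
    · intro l hl hlt
      change x3cx L C n v y l ≠ 0
      by_cases hc1 : ∃ i ∈ L.K, L.ch i = l
      · obtain ⟨i, hi, rfl⟩ := hc1
        by_cases ht : i ∈ C ∨ n ≤ v i
        · rw [x3c_o_top L hi ht] at hlt
          exact absurd hlt (lt_irrefl _)
        · rw [x3cx_act L y hi ht]
          exact hne i ((hNTmem i).2 ⟨hi, ht⟩)
      by_cases hc2 : ∃ i ∈ C, L.cp i = l
      · obtain ⟨i, hi, rfl⟩ := hc2
        rw [x3c_o_cp L hC hi] at hlt
        exact absurd hlt (lt_irrefl _)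
      by_cases hp : L.p l = 0
      · exfalso
        apply hl
        unfold MLoc.Fr
        rw [Finset.mem_filter]
        exact ⟨Finset.mem_univ _, hp, fun i hi e => hc1 ⟨i, hi, e⟩⟩
      · rw [x3cx_pn L y hc1 hc2 hp]
        exact hp
    · intro l hle
      change x3cx L C n v y l = 0
      by_cases hc1 : ∃ i ∈ L.K, L.ch i = l
      · obtain ⟨i, hi, rfl⟩ := hc1
        by_cases ht : i ∈ C ∨ n ≤ v i
        · exact x3cx_top L y hi ht
        · exfalso
          rw [x3c_o_act L hi ht] at hle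
          have h3 := Nat.div_le_self (v i + 1) (L.d (L.ch i))
          rw [not_or, not_le] at ht
          omega
      by_cases hc2 : ∃ i ∈ C, L.cp i = l
      · obtain ⟨i, hi, rfl⟩ := hc2
        exact x3cx_cp L hC y hi
      by_cases hp : L.p l = 0
      · rw [x3c_o_p0 L hc1 hc2 hp] at hle
        exact x3cx_p0' L y hc1 hc2 hp (by omega)
      · rw [x3c_o_pn L hc1 hc2 hp] at hle
        omega
    · intro l ho
      change x3cx L C n v y l = L.p l
      by_cases hc1 : ∃ i ∈ L.K, L.ch i = l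
      · obtain ⟨i, hi, rfl⟩ := hc1
        exfalso
        by_cases ht : i ∈ C ∨ n ≤ v i
        · rw [x3c_o_top L hi ht] at ho
          omega
        · rw [x3c_o_act L hi ht] at ho
          have hd := hNTd i ((hNTmem i).2 ⟨hi, ht⟩)
          have h3 := Nat.mul_div_cancel' hd
          rw [ho, mul_zero] at h3
          omega
      by_cases hc2 : ∃ i ∈ C, L.cp i = l
      · obtain ⟨i, hi, rfl⟩ := hc2
        rw [x3c_o_cp L hC hi] at ho
        omega
      by_cases hp : L.p l = 0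
      · rw [x3c_o_p0 L hc1 hc2 hp] at ho
        omega
      · exact x3cx_pn L y hc1 hc2 hp
    · exact y0
    · exact yv'
    · change (Sum.elim (fun i => if i ∈ A then x3cx L C n v y (L.ch i) else 1)
          (LF.lc L.a fun q => y (Sum.inl q)) : I ⊕ I → ℂ) ∈ R
      have e : (Sum.elim (fun i => if i ∈ A then x3cx L C n v y (L.ch i) else 1)
          (LF.lc L.a fun q => y (Sum.inl q)) : I ⊕ I → ℂ) =
          fun j : I ⊕ I => Sum.elim
            (fun i => if i ∈ A then (Sum.elim (fun i => y (Sum.inr i))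
              (LF.lc L.a fun q => y (Sum.inl q)) : I ⊕ I → ℂ) (Sum.inl i) else 1)
            (fun i => (Sum.elim (fun i => y (Sum.inr i))
              (LF.lc L.a fun q => y (Sum.inl q)) : I ⊕ I → ℂ) (Sum.inr i)) j := by
        funext j
        rcases j with j | j
        · rw [Sum.elim_inl, Sum.elim_inl]
          by_cases hj : j ∈ A
          · have hjN := (hNTmem j).1 (hANT hj)
            rw [if_pos hj, if_pos hj, x3cx_act L y hjN.1 hjN.2, Sum.elim_inl]
          · rw [if_neg hj, if_neg hj]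
        · rw [Sum.elim_inr, Sum.elim_inr, Sum.elim_inr]
      rw [e]
      exact yR
  · rintro z ⟨⟨z1, z2, z3, z4⟩, ⟨q1, q2, q3, q4⟩⟩
    funext x
    rcases x with l | q
    · change x3cx L C n v (Sum.elim (fun q => z (Sum.inr q))
        (fun i => if i ∈ NT then z (Sum.inl (L.ch i)) else 1)) l = z (Sum.inl l)
      by_cases hc1 : ∃ i ∈ L.K, L.ch i = l
      · obtain ⟨i, hi, rfl⟩ := hc1
        by_cases ht : i ∈ C ∨ n ≤ v i
        · rw [x3cx_top L _ hi ht]
          exact (z4 _ (by rw [x3c_o_top L hi ht])).symm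
        · rw [x3cx_act L _ hi ht, Sum.elim_inr, if_pos ((hNTmem i).2 ⟨hi, ht⟩)]
      by_cases hc2 : ∃ i ∈ C, L.cp i = l
      · obtain ⟨i, hi, rfl⟩ := hc2
        rw [x3cx_cp L hC _ hi]
        exact (z4 _ (by rw [x3c_o_cp L hC hi])).symm
      by_cases hp : L.p l = 0
      · by_cases h : 1 < n + 1
        · rw [x3cx_p0 L _ hc1 hc2 hp h, Sum.elim_inl]
          have hk' : ∀ i ∈ L.K, L.bl i ≠ L.β l := by
            rcases L.hp l hp with ⟨i, hi, e⟩ | ⟨_, _, e⟩
            · exact absurd ⟨i, hi, e.symm⟩ hc1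
            · exact e
          obtain ⟨e1, e2⟩ := x3c_single L hk' rfl hp
          have hn := x3c_nu_p0 L hC (n := n) (v := v) hk' rfl hp
          have hlt : Mon.nuv L.β L.d (L.oV C n v) (L.β l) < n + 1 := by rw [hn]; exact h
          have h3 := z2 (L.β l) hlt
          have e : (⟨Mon.nuv L.β L.d (L.oV C n v) (L.β l), hlt⟩ : Fin (n + 1)) = ⟨1, h⟩ :=
            Fin.ext hn
          rw [e, e2, Finset.prod_singleton, e1, pow_one] at h3
          exact h3
        · rw [x3cx_p0' L _ hc1 hc2 hp h]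
          exact (z4 _ (by rw [x3c_o_p0 L hc1 hc2 hp]; omega)).symm
      · rw [x3cx_pn L _ hc1 hc2 hp]
        exact (q1 l (x3c_o_pn L hc1 hc2 hp)).symm
    · rfl
  · rintro y ⟨y0, yv', yN, y1, yR⟩
    funext x
    rcases x with q | i
    · rfl
    · change (if i ∈ NT then x3cx L C n v y (L.ch i) else 1) = y (Sum.inr i)
      by_cases hi : i ∈ NT
      · have hiN := (hNTmem i).1 hi
        rw [if_pos hi, x3cx_act L y hiN.1 hiN.2]
      · rw [if_neg hi, y1 i hi]

end LFM
end MotMono
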