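import Pool.Agent.Lib.MP_4e5fcd_ag.LFM.X1
import Pool.Agent.Lib.MP_4e5fcd_ag.LFM.X3c

/-!
# LFM-X3: the Euler characteristic of the jets at a deep point with given orders

`chi_A0_fixed`. If `A1_empty` applies, one of the factors of `wt` vanishes. Otherwise `A1_eq` and `cls_XY`
(`hFr`: by `hp`, as `l ∈ Fr` is not some `ch i`), `χ LL = 1`, `chi_XYM_QV`; the factors of `wt` are `1` for
`i ∈ A`, `d (ch i)` for `i ∈ (K \ C) \ A` with `v i < n`, `1` if `n ≤ v i`, and `1` for `i ∈ C`.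
-/

open MvPolynomial

namespace MotMono
namespace LFM

variable {I Γ : Type} [Fintype I] {N s : ℕ} (L : MLoc I Γ N s)

open Classical in
theorem xyv {χ : K0 →+* ℤ} (hχ : IsEulerChar χ) {C A : Finset I} (hC : C ⊆ L.Lam)
    (hA : A ⊆ L.K \ C) {n : ℕ} {v : I → ℕ} (hv : ∀ i ∈ A, v i < n) {R : Set (I ⊕ I → ℂ)}
    (hR : Constr R) :
    χ (cls (L.A0 C A n v R)) = L.wt C A n v * χ (cls (L.YV A n v R)) := by
  rw [chi_A0_fixed L hχ hC hA hv hR]
  change χ (cls (L.A1 C A n v R)) = _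
  by_cases h : (∃ i ∈ C, v i < n) ∨ ∃ i ∈ L.K \ C, v i < n ∧ ¬ L.d (L.ch i) ∣ v i + 1
  · rw [A1_empty L hC R h, cls_empty, map_zero]
    have hw : L.wt C A n v = 0 := by
      unfold MLoc.wt
      rcases h with ⟨i, hi, hiv⟩ | ⟨i, hi, hiv, hd⟩
      · have h1 : (∏ i ∈ C, if v i < n then 0 else 1 : ℤ) = 0 :=
          Finset.prod_eq_zero hi (if_pos hiv)
        rw [h1, mul_zero]
      · by_cases hiA : i ∈ A
        · have h1 : (∏ i ∈ A, if L.d (L.ch i) ∣ v i + 1 then 1 else 0 : ℤ) = 0 :=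
            Finset.prod_eq_zero hiA (if_neg hd)
          rw [h1, zero_mul, zero_mul]
        · have h1 : (∏ i ∈ (L.K \ C) \ A,
              if v i < n then (if L.d (L.ch i) ∣ v i + 1 then (L.d (L.ch i) : ℤ) else 0) else 1)
              = 0 := by
            refine Finset.prod_eq_zero (Finset.mem_sdiff.2 ⟨hi, hiA⟩) ?_
            rw [if_pos hiv, if_neg hd]
          rw [h1, mul_zero, zero_mul]
    rw [hw, zero_mul]
  · push Not at h
    obtain ⟨h1, h2⟩ := h
    have hFr : ∀ l ∈ L.Fr, L.d l = 1 ∧ ∀ l', L.β l' = L.β l → l' = l := by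
      intro l hl
      unfold MLoc.Fr at hl
      rw [Finset.mem_filter] at hl
      obtain ⟨-, hp, hch⟩ := hl
      rcases L.hp l hp with ⟨i, hi, hli⟩ | ⟨hd, hl', -⟩
      · exact absurd hli.symm (hch i hi)
      · exact ⟨hd, hl'⟩
    rw [A1_eq L hC hA hv R h1 h2,
      (cls_XY L.β L.hβ L.d L.hd L.Fr hFr (L.oV C n v) (n + 1) (L.QV C A n v R)
        (constr_QV L C A n v hR)).2, map_mul, map_pow, hχ.line, one_pow, one_mul,
      chi_XYM_QV L hχ hC hA hv hR h1 h2]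
    congr 1
    unfold MLoc.wt
    have e1 : (∏ i ∈ A, if L.d (L.ch i) ∣ v i + 1 then 1 else 0 : ℤ) = 1 :=
      Finset.prod_eq_one fun i hi => if_pos (h2 i (hA hi) (hv i hi))
    have e2 : (∏ i ∈ C, if v i < n then 0 else 1 : ℤ) = 1 :=
      Finset.prod_eq_one fun i hi => if_neg (not_lt.2 (h1 i hi))
    rw [e1, e2, one_mul, mul_one, Finset.prod_filter]
    refine Finset.prod_congr rfl fun i hi => ?_
    by_cases hiv : v i < n
    · rw [if_pos hiv, if_pos hiv, if_pos (h2 i (Finset.mem_sdiff.1 hi).1 hiv)]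
    · rw [if_neg hiv, if_neg hiv]

end LFM
end MotMono
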